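import Pool.Agent.FP.FinChk

/-! Kernel checks: shape of the data, the class on the smaller side. -/

namespace Pool.Agent.FP.Fn

theorem cd_xp : cd xp = xpc := by decide +kernel
theorem cd_xn : cd xn = xnc := by decide +kernel
theorem cd_wp : cdW wp = wpc := by decide +kernel
theorem cd_wn : cdW wn = wnc := by decide +kernel
theorem cd_dp : cdD dp = dpc := by decide +kernel
theorem cd_dn : cdD dn = dnc := by decide +kernel
theorem ok_xp : okL 12 0 xp := by decide +kernel
theorem ok_xn : okL 12 0 xn := by decide +kernel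
theorem ok_wp : ∀ t ∈ wp, okL 12 (t.1 + t.2.1) t.2.2 := by decide +kernel
theorem ok_wn : ∀ t ∈ wn, okL 12 (t.1 + t.2.1) t.2.2 := by decide +kernel
theorem ok_dp : ∀ t ∈ dp, okL 11 t.1 t.2 := by decide +kernel
theorem ok_dn : ∀ t ∈ dn, okL 11 t.1 t.2 := by decide +kernel

theorem cn_zero : 1 ∈ cn 0 := by decide +kernel

theorem cn_step : ∀ n < 12, ∀ m < n, ∀ c ∈ cn (n - (m + 1)), pr (m + 1) * c ∈ cn n := by
  decide +kernel

theorem c1 : al (fun c => Nat.beq (dot t25.get xpc c) (dot t25.get xnc c)) (cn 11) = true := by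
  decide +kernel

end Pool.Agent.FP.Fn
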