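import Pool.Agent.FP.FinChk

/-! Kernel checks: the product with the diagonal and the final value. -/

namespace Pool.Agent.FP.Fn

theorem c2_0 : c2 0 = true := by decide +kernel
theorem c2_1 : c2 1 = true := by decide +kernel
theorem c2_2 : c2 2 = true := by decide +kernel
theorem c2_3 : c2 3 = true := by decide +kernel
theorem c2_4 : c2 4 = true ∧ c2 5 = true := by decide +kernel
theorem c2_6 : ∀ a < 6, c2 (6 + a) = true := by decide +kernel

theorem c2_all (a : ℕ) (h : a ≤ 11) : c2 a = true := by
  have h6 := c2_6
  interval_cases a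
  exacts [c2_0, c2_1, c2_2, c2_3, c2_4.1, c2_4.2, h6 0 (by omega), h6 1 (by omega),
    h6 2 (by omega), h6 3 (by omega), h6 4 (by omega), h6 5 (by omega)]

end Pool.Agent.FP.Fn
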