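import Pool.Agent.FP.FinChk

/-! Kernel checks: the product with the sum of the two canonical classes. -/

namespace Pool.Agent.FP.Fn

theorem c3_0_0 : c3 0 0 = true := by decide +kernel
theorem c3n_0 : ∀ a < 1, c3 a (0 - a) = true := by
  intro a h
  interval_cases a
  exacts [c3_0_0]

theorem c3_0_1 : c3 0 1 = true := by decide +kernel
theorem c3_1_0 : c3 1 0 = true := by decide +kernel
theorem c3n_1 : ∀ a < 2, c3 a (1 - a) = true := by
  intro a h
  interval_cases a
  exacts [c3_0_1, c3_1_0]

theorem c3n_7 : ∀ a < 8, c3 a (7 - a) = true := by decide +kernel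

theorem c3n_9 : ∀ a < 10, c3 a (9 - a) = true := by decide +kernel


end Pool.Agent.FP.Fn
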