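import Pool.Agent.FP.FinChk

/-! Kernel checks: the product with the sum of the two canonical classes. -/

namespace Pool.Agent.FP.Fn

theorem c3_0_2 : c3 0 2 = true := by decide +kernel
theorem c3_1_1 : c3 1 1 = true := by decide +kernel
theorem c3_2_0 : c3 2 0 = true := by decide +kernel
theorem c3n_2 : ∀ a < 3, c3 a (2 - a) = true := by
  intro a h
  interval_cases a
  exacts [c3_0_2, c3_1_1, c3_2_0]

theorem c3_0_3 : c3 0 3 = true := by decide +kernel
theorem c3_1_2 : c3 1 2 = true := by decide +kernel
theorem c3_2_1 : c3 2 1 = true := by decide +kernel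
theorem c3_3_0 : c3 3 0 = true := by decide +kernel
theorem c3n_3 : ∀ a < 4, c3 a (3 - a) = true := by
  intro a h
  interval_cases a
  exacts [c3_0_3, c3_1_2, c3_2_1, c3_3_0]

theorem c3n_8 : ∀ a < 9, c3 a (8 - a) = true := by decide +kernel


end Pool.Agent.FP.Fn
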