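import Pool.Agent.FP.FinChk

/-! Kernel checks: the product with the sum of the two canonical classes. -/

namespace Pool.Agent.FP.Fn

theorem c3_0_4 : c3 0 4 = true := by decide +kernel
theorem c3_1_3 : c3 1 3 = true := by decide +kernel
theorem c3_2_2 : c3 2 2 = true := by decide +kernel
theorem c3_3_1 : c3 3 1 = true := by decide +kernel
theorem c3_4_0 : c3 4 0 = true := by decide +kernel
theorem c3n_4 : ∀ a < 5, c3 a (4 - a) = true := by
  intro a h
  interval_cases a
  exacts [c3_0_4, c3_1_3, c3_2_2, c3_3_1, c3_4_0]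

theorem c3_0_5 : c3 0 5 = true := by decide +kernel
theorem c3_1_4 : c3 1 4 = true := by decide +kernel
theorem c3_2_3 : c3 2 3 = true := by decide +kernel
theorem c3_3_2 : c3 3 2 = true := by decide +kernel
theorem c3_4_1 : c3 4 1 = true := by decide +kernel
theorem c3_5_0 : c3 5 0 = true := by decide +kernel
theorem c3n_5 : ∀ a < 6, c3 a (5 - a) = true := by
  intro a h
  interval_cases a
  exacts [c3_0_5, c3_1_4, c3_2_3, c3_3_2, c3_4_1, c3_5_0]

theorem c3n_6 : ∀ a < 7, c3 a (6 - a) = true := by decide +kernel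

theorem c3n_10 : ∀ a < 11, c3 a (10 - a) = true := by decide +kernel

theorem c3n_11 : ∀ a < 12, c3 a (11 - a) = true := by decide +kernel


end Pool.Agent.FP.Fn
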