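import Pool.Agent.FP.FinChk

/-! Kernel check: the final value does not vanish. -/

namespace Pool.Agent.FP.Fn

theorem c4 : v4 xp wpc dpc + v4 xn wnc dnc ≠ v4 xp wnc dnc + v4 xn wpc dpc := by
  decide +kernel

end Pool.Agent.FP.Fn
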