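import Pool.Agent.FP.FinR3
import Pool.Agent.FP.FinK0
import Pool.Agent.FP.FinK2
import Pool.Agent.FP.FinK3a
import Pool.Agent.FP.FinK3b
import Pool.Agent.FP.FinK3c
import Pool.Agent.FP.FinK4

/-! The final contradiction from the structure of the socles. -/

namespace Pool.Agent.FP.Fn

theorem c3_all (a b : ℕ) (h : a + b ≤ 11) : c3 a b = true := by
  have key : ∀ n ≤ 11, ∀ a < n + 1, c3 a (n - a) = true := by
    intro n hn
    interval_cases n
    exacts [c3n_0, c3n_1, c3n_2, c3n_3, c3n_4, c3n_5, c3n_6, c3n_7, c3n_8, c3n_9, c3n_10, c3n_11]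
  have := key (a + b) h a (by omega)
  rwa [Nat.add_sub_cancel_left] at this

theorem code_mem {l : List ℕ} (hl : Pos l) (h : l.sum ≤ 11) : code l ∈ cn l.sum := by
  induction l with
  | nil => exact cn_zero
  | cons m l ih =>
    rw [List.sum_cons] at h ⊢
    obtain ⟨m, rfl⟩ : ∃ k, m = k + 1 := ⟨m - 1, by have := hl m (by simp); omega⟩
    rw [code_cons]
    refine cn_step _ (by omega) m (by omega) _ ?_
    rw [Nat.add_sub_cancel_left]
    exact ih hl.tail (by omega)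

theorem le_wp : ∀ t ∈ wp, t.1 + t.2.1 ≤ 12 := by decide +kernel
theorem le_wn : ∀ t ∈ wn, t.1 + t.2.1 ≤ 12 := by decide +kernel
theorem le_dp : ∀ t ∈ dp, t.1 ≤ 11 := by decide +kernel
theorem le_dn : ∀ t ∈ dn, t.1 ≤ 11 := by decide +kernel

theorem x_zero {O : Type} [CommRing O] [Algebra ℚ O] {κ : ℕ → O} (hs : Soc 23 t25.get κ)
    (H : GorR (gensR0 κ) 23) : poly κ xp = poly κ xn := by
  obtain ⟨s, hs⟩ := hs
  have hκ : ∀ m, 1 ≤ m → κ m ∈ RkR (gensR0 κ) m := fun m h => rk_gen ⟨h, rfl⟩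
  refine sub_eq_zero.1 (eq_zero0 H (k := 12) (by omega) (sub_mem
    (poly_mem hκ fun t ht => ⟨(ok_xp t ht).1, by simpa using (ok_xp t ht).2⟩)
    (poly_mem hκ fun t ht => ⟨(ok_xn t ht).1, by simpa using (ok_xn t ht).2⟩)) fun l h1 h2 => ?_)
  have hc := (al_iff _ _).1 c1 (code l) (by
    have := code_mem h1 (by omega)
    rwa [h2] at this)
  rw [mul_comm, mul_sub,
    mon_poly hs h1 fun t ht => ⟨(ok_xp t ht).1, by have := (ok_xp t ht).2; omega⟩,
    mon_poly hs h1 fun t ht => ⟨(ok_xn t ht).1, by have := (ok_xn t ht).2; omega⟩,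
    cd_xp, cd_xn, Nat.eq_of_beq_eq_true hc, sub_self]

namespace Sq

variable {O T : Type} [CommRing O] [Algebra ℚ O] [CommRing T] [Algebra ℚ T] (q : Sq O T)

/-- The test class. -/
noncomputable def w : T := q.WA wp + q.WB dp - (q.WA wn + q.WB dn)

theorem w_mem : q.w ∈ q.R 12 :=
  sub_mem (add_mem (q.WA_mem ok_wp le_wp) (q.WB_mem ok_dp le_dp))
    (add_mem (q.WA_mem ok_wn le_wn) (q.WB_mem ok_dn le_dn))

variable {s : O}
  (hs : ∀ l : List ℕ, Pos l → l.sum = 22 → mon q.κ l = (t24.get (code l) : ℚ) • s)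
include hs

theorem w_B {a : ℕ} {l : List ℕ} (hl : Pos l) (e : a + l.sum = 11) : q.w * q.B a l = 0 := by
  refine q.I_inj (q.mul_mem q.w_mem (q.B_mem (n := 12) hl (by omega)) rfl) ?_
  have hc := (al_iff _ _).1 (c2_all a (by omega)) (code l) (by
    have := code_mem hl (by omega)
    rwa [show l.sum = 11 - a by omega] at this)
  have hc' := congrArg (Nat.cast : ℕ → ℚ) (Nat.eq_of_beq_eq_true hc)
  rw [Nat.cast_add, Nat.cast_add] at hc'
  rw [w, sub_mul, map_sub, smul_sub, q.u_B hs ok_wp ok_dp hl e, q.u_B hs ok_wn ok_dn hl e,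
    cd_wp, cd_wn, cd_dp, cd_dn, ← sub_smul]
  convert zero_smul ℚ (q.K * s)
  linear_combination hc'

theorem w_D : q.w * q.D = 0 := by
  refine q.eq_zero (k := 13) (n := 11) rfl (q.mul_mem q.w_mem q.D_mem rfl)
    (fun a b l h1 h2 => ?_) fun a l h1 h2 => ?_
  · rw [mul_assoc, D_A, q.w_B hs h1 h2]
  · rw [mul_assoc, D_B, mul_neg, q.w_B hs h1 h2, neg_zero]

theorem w_KE : q.w * (q.p q.K + q.E) = 0 := by
  refine q.eq_zero (k := 13) (n := 11) rfl (q.mul_mem q.w_mem (add_mem q.K_mem q.E_mem) rfl)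
    (fun a b l h1 h2 => ?_) fun a l h1 h2 => ?_
  · rw [mul_assoc, add_mul, K_A, E_A]
    refine q.I_inj (q.mul_mem q.w_mem (add_mem (q.A_mem (n := 12) h1 (by omega))
      (q.A_mem h1 (by omega))) rfl) ?_
    have hc := (al_iff _ _).1 (c3_all a b (by omega)) (code l) (by
      have := code_mem h1 (by omega)
      rwa [show l.sum = 11 - (a + b) by omega] at this)
    have hc' := congrArg (Nat.cast : ℕ → ℚ) (Nat.eq_of_beq_eq_true hc)
    simp only [v3] at hc'
    rw [mul_add, map_add, smul_add, w, sub_mul, sub_mul, map_sub, map_sub, smul_sub, smul_sub,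
      q.u_A hs ok_wp ok_dp h1 (by omega), q.u_A hs ok_wn ok_dn h1 (by omega),
      q.u_A hs ok_wp ok_dp h1 (by omega), q.u_A hs ok_wn ok_dn h1 (by omega),
      cd_wp, cd_wn, cd_dp, cd_dn, ← sub_smul, ← sub_smul, ← add_smul, add_right_comm a 1 b,
      ← add_assoc a b 1]
    convert zero_smul ℚ (q.K * s)
    push_cast at hc' ⊢
    linear_combination hc'
  · rw [B, mul_mul_mul_comm, q.w_D hs, zero_mul]

theorem u_lift {W : List (ℕ × ℕ × List (ℕ × List ℕ))} {Dl : List (ℕ × List (ℕ × List ℕ))}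
    (hW : ∀ t ∈ W, okL 12 (t.1 + t.2.1) t.2.2) (hD : ∀ t ∈ Dl, okL 11 t.1 t.2)
    {X : List (ℕ × List ℕ)} (hX : okL 12 0 X) :
    (46 : ℚ) • q.I ((q.WA W + q.WB Dl) * (X.map fun x => (x.1 : ℚ) • q.exS x.2).sum) =
      (v4 X (cdW W) (cdD Dl) : ℚ) • (q.K * s) := by
  rw [v4, sm_eq]
  induction X with
  | nil => simp
  | cons x X ih =>
    obtain ⟨h1, h2⟩ := hX x (by simp)
    rw [List.map_cons, List.sum_cons, List.map_cons, List.sum_cons, mul_add, map_add, smul_add,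
      ih fun u hu => hX u (List.mem_cons_of_mem _ hu), mul_smul_comm, map_smul, smul_comm,
      q.u_ex hs hW hD h1 (by omega), Nat.cast_add, add_smul, Nat.cast_mul, mul_smul]

theorem w_lift (X : List (ℕ × List ℕ)) :
    q.w * poly (fun m => q.p (q.κ m) + q.p q.K ^ m + q.E ^ m) X =
      q.w * (X.map fun x => (x.1 : ℚ) • q.exS x.2).sum := by
  induction X with
  | nil => simp
  | cons x X ih =>
    rw [poly_cons, List.map_cons, List.sum_cons, mul_add, mul_add, ih, mul_smul_comm,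
      mul_smul_comm, q.mul_lift (q.w_KE hs)]

theorem final : q.w * poly (fun m => q.p (q.κ m) + q.p q.K ^ m + q.E ^ m) xp ≠
    q.w * poly (fun m => q.p (q.κ m) + q.p q.K ^ m + q.E ^ m) xn := by
  rw [q.w_lift hs, q.w_lift hs]
  intro h
  have h' := congrArg (fun f => (46 : ℚ) • q.I f) h
  simp only [w, sub_mul, map_sub, smul_sub] at h'
  rw [q.u_lift hs ok_wp ok_dp ok_xp, q.u_lift hs ok_wn ok_dn ok_xp, q.u_lift hs ok_wp ok_dp ok_xn,
    q.u_lift hs ok_wn ok_dn ok_xn, cd_wp, cd_wn, cd_dp, cd_dn, ← sub_smul, ← sub_smul,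
    ← sub_eq_zero, ← sub_smul, smul_eq_zero] at h'
  rcases h' with h' | h'
  · apply c4
    have : ((v4 xp wpc dpc + v4 xn wnc dnc : ℕ) : ℚ) = (v4 xp wnc dnc + v4 xn wpc dpc : ℕ) := by
      push_cast
      linear_combination h'
    exact_mod_cast this
  · exact q.t_ne hs h'

end Sq

theorem sgn_mem {R : Type} [CommRing R] [Algebra ℚ R] {M : Submodule ℚ R} {f : R} (m : ℕ)
    (h : ((-1 : ℚ) ^ m) • f ∈ M) : f ∈ M := by
  have := M.smul_mem ((-1 : ℚ) ^ m) h
  rwa [smul_smul, ← mul_pow, neg_mul_neg, one_mul, one_pow, one_smul] at this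

theorem finalStmt_of (hS : SocStmt) : FinalStmt := by
  intro O T O' _ _ _ _ _ _ κ' κ χ p I e D σ h25 h24 hκ0 hIp hI1 hIe hID hDe hDD hσ1 hσ2 hσ3 hσ4
    g0 g2 tube
  have hR : ∀ k, RkR (gensR2 (p χ) e D fun m => p (κ m)) k =
      RkR (gensR2 (p (-χ)) (-e) D fun m => p (((-1 : ℚ) ^ (m + 1)) • κ m)) k := by
    intro k
    apply le_antisymm <;> apply rk_le
    · rintro m s (⟨rfl, rfl | rfl | rfl⟩ | ⟨h, rfl⟩)
      · exact neg_mem_iff.1 (rk_gen (Or.inl ⟨rfl, Or.inl (map_neg p χ).symm⟩))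
      · exact neg_mem_iff.1 (rk_gen (Or.inl ⟨rfl, Or.inr (Or.inl rfl)⟩))
      · exact rk_gen (Or.inl ⟨rfl, Or.inr (Or.inr rfl)⟩)
      · exact sgn_mem (m + 1) (rk_gen (Or.inr ⟨h, (map_smul p _ _).symm⟩))
    · rintro m s (⟨rfl, rfl | rfl | rfl⟩ | ⟨h, rfl⟩)
      · rw [map_neg]; exact neg_mem (rk_gen (Or.inl ⟨rfl, Or.inl rfl⟩))
      · exact neg_mem (rk_gen (Or.inl ⟨rfl, Or.inr (Or.inl rfl)⟩))
      · exact rk_gen (Or.inl ⟨rfl, Or.inr (Or.inr rfl)⟩)
      · simp only [map_smul]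
        exact Submodule.smul_mem _ _ (rk_gen (Or.inr ⟨h, rfl⟩))
  have hR0 : ∀ k, RkR (gensR0 κ') k =
      RkR (gensR0 fun m => ((-1 : ℚ) ^ (m + 1)) • κ' m) k := by
    intro k
    apply le_antisymm <;> apply rk_le
    · rintro m s ⟨h, rfl⟩
      exact sgn_mem (m + 1) (rk_gen ⟨h, rfl⟩)
    · rintro m s ⟨h, rfl⟩
      exact Submodule.smul_mem _ _ (rk_gen ⟨h, rfl⟩)
  have hneg : ∀ (f : T) (m : ℕ), (-f) ^ m = ((-1 : ℚ) ^ m) • f ^ m := by
    intro f m
    rw [← smul_pow, neg_smul, one_smul]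
  let q : Sq O T :=
    { κ := fun m => ((-1 : ℚ) ^ (m + 1)) • κ m, K := -χ, p := p, I := I, E := -e, D := D, σ := σ
      κ0 := by rw [hκ0, smul_smul]; norm_num
      I_p := hIp, I_one := hI1, I_D := hID, σD := hσ3
      I_E := fun m => by rw [hneg, map_smul, hIe]
      DE := by rw [map_neg, mul_neg, mul_neg, hDe]
      DD := by rw [map_neg, mul_neg, neg_neg, hDD]
      σK := by rw [map_neg, map_neg, hσ1]
      σE := by rw [map_neg, map_neg, hσ2]
      σκ := fun m => by rw [map_smul, map_smul, hσ4]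
      gor := gorR_congr hR g2 }
  obtain ⟨s, hs⟩ := (hS O κ).1 h24
  have hx := x_zero ((hS O' κ').2 h25) (gorR_congr hR0 g0)
  let y : ℕ → MvPolynomial ℕ ℚ := fun m => ((-1 : ℚ) ^ (m + 1)) • MvPolynomial.X (m - 1)
  have pp : ∀ t ∈ xp, Pos t.2 := fun t ht => (ok_xp t ht).1
  have pn : ∀ t ∈ xn, Pos t.2 := fun t ht => (ok_xn t ht).1
  have a1 : ∀ m, 1 ≤ m → MvPolynomial.aeval (fun m => κ' (m + 1)) (y m) =
      ((-1 : ℚ) ^ (m + 1)) • κ' m := by
    intro m hm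
    rw [map_smul, MvPolynomial.aeval_X, Nat.sub_add_cancel hm]
  have a2 : ∀ m, 1 ≤ m → MvPolynomial.aeval
      (fun m => p (κ (m + 1)) - p χ ^ (m + 1) - e ^ (m + 1)) (y m) =
      q.p (q.κ m) + q.p q.K ^ m + q.E ^ m := by
    intro m hm
    change _ = p (((-1 : ℚ) ^ (m + 1)) • κ m) + p (-χ) ^ m + (-e) ^ m
    rw [map_smul, MvPolynomial.aeval_X, Nat.sub_add_cancel hm, map_smul, map_neg, hneg, hneg,
      pow_succ, mul_neg_one, smul_sub, smul_sub, neg_smul, neg_smul, neg_smul]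
    abel
  have hw : q.w * (p χ + e) = 0 := by
    have := q.w_KE hs
    change q.w * (p (-χ) + -e) = 0 at this
    rw [map_neg, ← neg_add, mul_neg, neg_eq_zero] at this
    exact this
  have := tube (poly y xp - poly y xn) (by
    rw [map_sub, map_poly, map_poly, poly_congr a1 pp, poly_congr a1 pn, hx, sub_self])
    q.w (by rw [hR]; exact q.w_mem) (q.w_D hs) hw
  rw [map_sub, map_poly, map_poly, poly_congr a2 pp, poly_congr a2 pn, mul_sub,
    sub_eq_zero] at this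
  exact q.final hs this

end Pool.Agent.FP.Fn
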