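import Pool.Agent.FP.GrpKK

/-! The tube and the point-pushing map. -/

namespace Pool.Agent.FP.G
open FreeGroup hiding map_mul map_inv map_one

variable {h : ℕ}

/-- The map to the bordered mapping class group of the next genus. -/
def toMb : SS h →* Mb (h + 1) :=
  ((MonoidHom.fst _ _).comp (SS h).subtype).codRestrict _ fun z => by
    obtain ⟨⟨⟨u, -, -, a2, a3, -⟩, -⟩, hd⟩ := SS_prop z.2
    change z.1.1 (bdw (h + 1)) = bdw (h + 1)
    rw [bdw_succ, map_mul, hd, map_mul, map_mul, map_inv, map_inv, a2, a3]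
    group

@[simp] lemma toMb_val (z : SS h) : (toMb z).1 = z.1.1 := rfl

/-- The projection to `FM`. -/
def toFM : SS h →* FM h := (MonoidHom.snd _ _).comp (SS h).subtype

lemma toFM_surj : Function.Surjective (toFM (h := h)) := fun y => by
  obtain ⟨z, hz, e⟩ := SS_surj y
  exact ⟨⟨z, hz⟩, e⟩

/-- The two boundary twists as elements of `SS`. -/
def t1 (h : ℕ) : SS h := ⟨T1 h, T1_SS⟩
/-- The two boundary twists as elements of `SS`. -/
def t2 (h : ℕ) : SS h := ⟨T2 h, T2_SS⟩

lemma toFM_ker {z : SS h} (e : toFM z = 1) : ∃ k : ℤ, z = t2 h ^ k := by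
  obtain ⟨k, hk⟩ := SS_ker z.2 e
  exact ⟨k, Subtype.ext hk⟩

lemma t1_comm (z : SS h) : Commute z (t1 h) := Subtype.ext (T1_comm (SS_prop z.2).1 (SS_prop z.2).2)
lemma t2_comm (z : SS h) : Commute z (t2 h) := Subtype.ext (T2_comm (SS_prop z.2).1)

lemma normal_zpowers {G : Type} [Group G] {a : G} (ha : ∀ z, Commute z a) :
    (Subgroup.zpowers a).Normal :=
  ⟨by rintro _ ⟨k, rfl⟩ g; rw [((ha g).zpow_right k).eq, mul_inv_cancel_right]; exact ⟨k, rfl⟩⟩

instance : (Subgroup.zpowers (tau h)).Normal := normal_zpowers tau_comm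
instance : (Subgroup.zpowers (t1 h * t2 h)).Normal :=
  normal_zpowers fun z => (t1_comm z).mul_right (t2_comm z)

lemma mk_bdw : PresentedGroup.mk ({bdw h} : Set (Fr h)) (bdw h) = 1 :=
  PresentedGroup.one_of_mem rfl

lemma mk_tw : ((tw h : Mb h) : Gam h) = 1 :=
  (QuotientGroup.eq_one_iff _).2 (Subgroup.subset_normalClosure rfl)

/-- The map from `FM` to the group of the fibre square. -/
def fmSd (ρ : Gam h →* Aut h) (hρ : IsRho ρ) : FM h →* Sd ρ :=
  SemidirectProduct.map (PresentedGroup.mk _) (QuotientGroup.mk' _) fun m => by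
    refine MonoidHom.ext fun x => ?_
    exact (hρ m x).symm

lemma inl_zpowers {x : Fr h} (e : (SemidirectProduct.inl x : FM h) ∈ Subgroup.zpowers (tau h)) :
    x = 1 := by
  obtain ⟨k, hk⟩ := e
  rcases h with _ | h
  · exact Subsingleton.elim _ _
  let f : FM (h + 1) →* MulAut (Fr (h + 1)) :=
    SemidirectProduct.lift MulAut.conj (Subgroup.subtype _) fun m => by
      ext x y; simp
  have h4 : f (tau (h + 1)) = 1 := by
    ext y; simp [f, tau, tw, SemidirectProduct.lift, mul_assoc]
  have h5 : MulAut.conj x = 1 := by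
    have := congrArg f hk
    simpa [h4, f] using this.symm
  exact Z.eq_one_of_central (c := (0, false)) (d := (0, true)) (by simp) _ fun v => by
    have := DFunLike.congr_fun h5 v
    simp only [MulAut.conj_apply, MulAut.one_apply] at this
    rw [← mul_inv_eq_iff_eq_mul, this]

lemma rho_t12 {ρ' : Gam (h + 1) →* Aut (h + 1)} (hρ : IsRho ρ') :
    ρ' (toMb (t1 h * t2 h) : Gam (h + 1)) = inn (PresentedGroup.mk _ (dl h)) := by
  refine Subtype.ext (MulEquiv.toMonoidHom_injective ?_)
  refine MonoidHom.ext fun x => ?_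
  obtain ⟨x, rfl⟩ := PresentedGroup.mk_surjective _ x
  have e := hρ (toMb (t1 h * t2 h)) x
  refine e.trans ?_
  have : (PresentedGroup.mk {bdw (h + 1)}).comp (T1 h * T2 h).1.toMonoidHom =
      (MulAut.conj (PresentedGroup.mk {bdw (h + 1)} (dl h))).toMonoidHom.comp
        (PresentedGroup.mk _) := by
    refine hom_ext3 (fun y => ?_) ?_ ?_
    · simp [T2_fix (inc_mem y), T1_Fc (inc_mem y)]
    · simp [T2_fix cc_mem, T1_Fc cc_mem]
    · have b := mk_bdw (h := h + 1)
      rw [bdw_succ, map_mul, mul_eq_one_iff_eq_inv] at b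
      have : (T2 h).1 (tt h) = tt h * cc h := by simp [T2]
      simp only [MonoidHom.comp_apply, MulEquiv.coe_toMonoidHom, Prod.fst_mul, MulAut.mul_apply,
        this, map_mul, T1_tt, T1_Fc cc_mem, map_inv, MulAut.conj_apply]
      rw [bdw_succ]
      simp only [b, map_mul, map_inv]
      group
  exact DFunLike.congr_fun this x

theorem _root_.Pool.Agent.FP.tubeStmt : TubeStmt := fun h ρ ρ' hρ hρ' =>
  ⟨{ G0 := FM h ⧸ Subgroup.zpowers (tau h)
     S := SS h ⧸ Subgroup.zpowers (t1 h * t2 h)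
     iF := (QuotientGroup.mk' _).comp SemidirectProduct.inl
     iM := (QuotientGroup.mk' _).comp SemidirectProduct.inr
     φ0 := QuotientGroup.lift _ (fmSd ρ hρ) (by
       rw [Subgroup.zpowers_le, MonoidHom.mem_ker]
       refine SemidirectProduct.ext ?_ mk_tw
       simp [fmSd, tau, mk_bdw])
     q := QuotientGroup.map _ _ toFM (by
       rw [Subgroup.zpowers_le, Subgroup.mem_comap, map_mul]
       exact ⟨1, by simp [toFM, t1, t2, T1, T2]⟩)
     ℓ := QuotientGroup.lift _
       ((QuotientGroup.mk' _).comp (ρ'.comp ((QuotientGroup.mk' _).comp toMb))) (by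
       rw [Subgroup.zpowers_le, MonoidHom.mem_ker]
       refine (QuotientGroup.eq_one_iff _).2 (Subgroup.subset_normalClosure ?_)
       exact ⟨_, (rho_t12 hρ').symm⟩)
     T2 := (t2 h : SS h)
     iF_inj := (injective_iff_map_eq_one _).2 fun x hx =>
       inl_zpowers ((QuotientGroup.eq_one_iff _).1 hx)
     φ0_iF := fun x => by simp [fmSd]
     φ0_iM := fun m => by simp [fmSd]
     gen := fun z => by
       obtain ⟨z, rfl⟩ := QuotientGroup.mk_surjective z
       exact ⟨z.left, z.right, by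
         rw [MonoidHom.comp_apply, MonoidHom.comp_apply, ← map_mul,
           SemidirectProduct.inl_left_mul_inr_right]; rfl⟩
     conj := fun x m => by
       simp only [MonoidHom.comp_apply, ← map_mul]
       congr 1
       ext <;> simp
     iM_tw := by
       refine QuotientGroup.eq.2 ⟨-1, ?_⟩
       ext <;> simp [tau, tw]
     q_surj := fun z => by
       obtain ⟨z, rfl⟩ := QuotientGroup.mk_surjective z
       obtain ⟨s, rfl⟩ := toFM_surj z
       exact ⟨s, rfl⟩
     ker_q := fun s => by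
       obtain ⟨s, rfl⟩ := QuotientGroup.mk_surjective s
       constructor
       · intro e
         obtain ⟨k, hk⟩ := (QuotientGroup.eq_one_iff _).1 e
         obtain ⟨j, hj⟩ := toFM_ker (z := s * ((t1 h * t2 h) ^ k)⁻¹) (by
           have : toFM (t1 h * t2 h) = tau h := by simp [toFM, t1, t2, T1, T2]
           rw [map_mul, map_inv, map_zpow, this]
           exact mul_inv_eq_one.2 hk.symm)
         refine ⟨j, ?_⟩
         have e1 : ((((t1 h * t2 h) ^ k : SS h)) : SS h ⧸ Subgroup.zpowers (t1 h * t2 h)) = 1 :=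
           (QuotientGroup.eq_one_iff _).2 ⟨k, rfl⟩
         simp only [← QuotientGroup.mk_zpow, ← hj, QuotientGroup.mk_mul, QuotientGroup.mk_inv, e1,
           inv_one, mul_one]
       · rintro ⟨k, hk⟩
         rw [← hk, map_zpow]
         have : toFM (t2 h) = 1 := rfl
         simp [this]
     lift := fun s => by
       obtain ⟨s, rfl⟩ := QuotientGroup.mk_surjective s
       refine ⟨toMb s, s.1.2.left, s.1.2.right, rfl, ?_, (SS_prop s.2).1.1⟩
       simp only [MonoidHom.comp_apply, ← map_mul, SemidirectProduct.inl_left_mul_inr_right]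
       rfl
     lift_T2 := ⟨toMb (t2 h), rfl, by simp [t2, T2]⟩ }⟩

/-! ### capping the other boundary -/

/-- The retraction sending the vanishing cycle to the inverse boundary word. -/
def hat (h : ℕ) : Fr (h + 1) →* Fr h := ext3 (MonoidHom.id _) (bdw h)⁻¹ 1

@[simp] lemma hat_inc (y : Fr h) : hat h (incF h y) = y := by simp [hat]
@[simp] lemma hat_cc : hat h (cc h) = (bdw h)⁻¹ := by simp [hat]
@[simp] lemma hat_tt : hat h (tt h) = 1 := by simp [hat]

lemma hat_act (z : SS h) {v} (hv : v ∈ Fc h) :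
    hat h (z.1.1 v) = hat h (z.1.1 (incF h (hat h v))) := by
  refine Fc_ind (p := fun v => hat h (z.1.1 v) = hat h (z.1.1 (incF h (hat h v)))) (by simp) ?_
    (fun u v a b => by simp only [map_mul, a, b]) (fun u a => by simp only [map_inv, a]) hv
  have := congrArg (hat h) (SS_prop z.2).2
  simp only [dl, map_mul, hat_inc, hat_cc, mul_inv_cancel] at this
  simp only [hat_cc, map_inv]
  exact eq_inv_of_mul_eq_one_right this

/-- The action on the small free group after capping the other boundary. -/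
def mu0 (z : SS h) : Fr h →* Fr h :=
  (hat h).comp (z.1.1.toMonoidHom.comp ((MulAut.conj (tt h)).toMonoidHom.comp (incF h)))

lemma mu0_apply (z : SS h) (y) :
    mu0 z y = hat h (z.1.1 (tt h)) * hat h (z.1.1 (incF h y)) * (hat h (z.1.1 (tt h)))⁻¹ := by
  simp [mu0]

lemma mu0_mul (z z' : SS h) (y) : mu0 (z * z') y = mu0 z (mu0 z' y) := by
  obtain ⟨u, hu, -, a2, -, a4⟩ := (SS_prop z'.2).1.1
  simp only [mu0_apply, Subgroup.coe_mul, Prod.fst_mul, MulAut.mul_apply, a2, map_mul, map_inv,
    hat_tt, one_mul, hat_act z hu, hat_act z (a4 y).1]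
  group

lemma mu0_one (y : Fr h) : mu0 1 y = y := by simp [mu0_apply]

lemma mu0_bdw (z : SS h) : mu0 z (bdw h) = bdw h := by
  have k := hat_act z cc_mem
  obtain ⟨u, hu, -, a2, a3, -⟩ := (SS_prop z.2).1.1
  rw [a3] at k
  simp only [map_mul, map_inv, hat_cc] at k
  rw [mu0_apply, a2, map_mul, hat_tt, one_mul, ← inv_inv (hat h (z.1.1 (incF h (bdw h)))), ← k]
  group

/-- The second forgetful map. -/
def mu : SS h →* Mb h :=
  MonoidHom.mk' (fun z => ⟨MonoidHom.toMulEquiv (mu0 z) (mu0 z⁻¹)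
    (MonoidHom.ext fun y => by rw [MonoidHom.comp_apply, ← mu0_mul, inv_mul_cancel, mu0_one]; rfl)
    (MonoidHom.ext fun y => by rw [MonoidHom.comp_apply, ← mu0_mul, mul_inv_cancel, mu0_one]; rfl),
    mu0_bdw z⟩) fun a b => Subtype.ext (MulEquiv.ext (mu0_mul a b))

lemma mu_apply (z : SS h) (y) : (mu z).1 y = mu0 z y := rfl

lemma mu_t1 : mu (t1 h) = 1 := Subtype.ext (MulEquiv.ext fun y => by
  simp [mu_apply, mu0_apply, t1, T1_tt, T1_Fc (inc_mem y), dl])

lemma mu_t2 : mu (t2 h) = (tw h)⁻¹ := Subtype.ext (MulEquiv.ext fun y => by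
  simp [mu_apply, mu0_apply, t2, T2, tw])

lemma mu_sm (m : Mb h) : mu ⟨sm m, sm_SS m⟩ = m := Subtype.ext (MulEquiv.ext fun y => by
  simp [mu_apply, mu0_apply])

lemma mk_hat (v) : PresentedGroup.mk ({bdw h} : Set (Fr h)) (hat h v) =
    PresentedGroup.mk _ (retF h v) := by
  have : (PresentedGroup.mk ({bdw h} : Set (Fr h))).comp (hat h) =
      (PresentedGroup.mk _).comp (retF h) := hom_ext3 (by simp) (by simp [mk_bdw]) (by simp)
  exact DFunLike.congr_fun this v

/-- The second projection of the bordered group with one marked point. -/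
theorem exists_p2 (ρ : Gam h →* Aut h) (hρ : IsRho ρ) : ∃ p : FM h →* Gam h,
    (∀ z, p (toFM z) = (mu z : Gam h)) ∧ (∀ m, p (SemidirectProduct.inr m) = m) ∧ p (tau h) = 1 ∧
    ∀ x, ρ (p (SemidirectProduct.inl x)) = inn (PresentedGroup.mk _ x) := by
  let p : FM h →* Gam h := toFM.liftOfSurjective toFM_surj ⟨(QuotientGroup.mk' _).comp mu, by
    intro z hz
    obtain ⟨k, rfl⟩ := toFM_ker hz
    simp [mu_t2, mk_tw]⟩
  have hp : ∀ z, p (toFM z) = (mu z : Gam h) := fun z =>
    MonoidHom.liftOfRightInverse_comp_apply _ _ _ _ z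
  refine ⟨p, hp, fun m => ?_, ?_, fun x => ?_⟩
  · have := hp ⟨sm m, sm_SS m⟩
    rwa [mu_sm] at this
  · have := hp (t1 h)
    rwa [mu_t1] at this
  · obtain ⟨z, hz⟩ := toFM_surj (SemidirectProduct.inl x : FM h)
    rw [← hz, hp]
    refine Subtype.ext (MulEquiv.ext fun y => ?_)
    obtain ⟨y, rfl⟩ := PresentedGroup.mk_surjective _ y
    obtain ⟨u, hu, a1, a2, -, a4⟩ := (SS_prop z.2).1.1
    have hz' : z.1.2 = SemidirectProduct.inl x := hz
    rw [hρ, mu_apply, mu0_apply, a2]
    simp [mk_hat, a1, (a4 y).2, hz', inn]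

theorem _root_.Pool.Agent.FP.pushStmt : PushStmt := fun h ρ hρ => by
  obtain ⟨p, -, h2, h3, h4⟩ := exists_p2 ρ hρ
  have hb : p (SemidirectProduct.inl (bdw h)) = 1 := by
    have : (SemidirectProduct.inl (bdw h) : FM h) = (tau h)⁻¹ * SemidirectProduct.inr (tw h) := by
      ext <;> simp [tau, tw]
    rw [this, map_mul, map_inv, h3, h2, mk_tw]; simp
  let P : Sg h →* Gam h := QuotientGroup.lift _ (p.comp SemidirectProduct.inl)
    (Subgroup.normalClosure_le_normal (by rintro _ rfl; exact hb))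
  have hP : ∀ x, P (PresentedGroup.mk _ x) = p (SemidirectProduct.inl x) := fun _ => rfl
  refine ⟨P, fun x => ?_, fun φ x => ?_⟩
  · obtain ⟨x, rfl⟩ := PresentedGroup.mk_surjective _ x
    rw [hP, h4]
  · obtain ⟨x, rfl⟩ := PresentedGroup.mk_surjective _ x
    obtain ⟨m, rfl⟩ := QuotientGroup.mk_surjective φ
    rw [hρ, hP, hP, ← h2, ← map_inv, ← map_mul, ← map_mul, ← map_inv,
      ← SemidirectProduct.inl_aut]
    rfl

end Pool.Agent.FP.G
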