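import Pool.Agent.FP.Coch

/-!
Tautological rings of the moduli spaces of curves in rational cohomology, written with group
cohomology of mapping class groups.
-/

namespace Pool.Agent.FP.St

/-- The free group on `a i = of (i, false)` and `b i = of (i, true)`. -/
abbrev Fr (g : ℕ) : Type := FreeGroup (Fin g × Bool)

/-- The boundary word, the product of the commutators of `a i` and `b i`. -/
def bdw (g : ℕ) : Fr g :=
  (List.ofFn fun i : Fin g => (FreeGroup.of (i, false) : Fr g) * FreeGroup.of (i, true) *
    (FreeGroup.of (i, false))⁻¹ * (FreeGroup.of (i, true))⁻¹).prod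

/-- The surface group. -/
def Sg (g : ℕ) : Type := PresentedGroup ({bdw g} : Set (Fr g))

instance grpSg (g : ℕ) : Group (Sg g) := instGroupPresentedGroup _

/-- The homology class of an element of the surface group. -/
def ab {g : ℕ} (x : Sg g) : Fin g × Bool → ℚ :=
  Multiplicative.toAdd (PresentedGroup.toGroup
    (f := fun j => Multiplicative.ofAdd (Pi.single j (1 : ℚ) : Fin g × Bool → ℚ)) (by
      rintro r rfl
      simp [bdw, map_list_prod, List.map_ofFn, Function.comp_def]) x)

/-- The intersection form. -/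
def om {g : ℕ} (u v : Fin g × Bool → ℚ) : ℚ :=
  ∑ i : Fin g, (u (i, false) * v (i, true) - u (i, true) * v (i, false))

/-- The automorphisms that preserve a function of two variables. -/
def Pres {G : Type} [Group G] (B : G → G → ℚ) : Subgroup (MulAut G) where
  carrier := {φ | ∀ x y, B (φ x) (φ y) = B x y}
  one_mem' := fun _ _ => rfl
  mul_mem' := fun {φ ψ} hφ hψ x y => (hφ (ψ x) (ψ y)).trans (hψ x y)
  inv_mem' := fun {φ} hφ x y => by simpa using (hφ (φ⁻¹ x) (φ⁻¹ y)).symm

/-- Orientation preserving automorphisms of the surface group. -/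
def Aut (g : ℕ) : Type := Pres fun x y : Sg g => om (ab x) (ab y)

instance grpAut (g : ℕ) : Group (Aut g) := Subgroup.toGroup _

/-- The action on the surface group. -/
def act (g : ℕ) : Aut g →* MulAut (Sg g) := Subgroup.subtype _

theorem ab_conj {g : ℕ} (x y : Sg g) : ab (MulAut.conj x y) = ab y := by
  have h : ∀ F : Sg g →* Multiplicative (Fin g × Bool → ℚ), F (MulAut.conj x y) = F y :=
    fun F => by simp
  exact congrArg Multiplicative.toAdd (h _)

/-- Inner automorphisms. -/
def inn {g : ℕ} (x : Sg g) : Aut g :=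
  ⟨MulAut.conj x, fun y z => by simp only [ab_conj]⟩

/-- The mapping class group of the closed surface, `Out⁺`. -/
def Out (g : ℕ) : Type := Aut g ⧸ Subgroup.normalClosure (Set.range (inn (g := g)))

instance grpOut (g : ℕ) : Group (Out g) := QuotientGroup.Quotient.group _

/-- The mapping class group of the surface with one boundary circle. -/
def Mb (g : ℕ) : Type := MulAction.stabilizer (MulAut (Fr g)) (bdw g)

instance grpMb (g : ℕ) : Group (Mb g) := Subgroup.toGroup _

/-- The boundary twist. -/
def tw (g : ℕ) : Mb g := ⟨MulAut.conj (bdw g), by simp [MulAction.mem_stabilizer_iff]⟩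

/-- The mapping class group of the surface with one marked point. -/
def Gam (g : ℕ) : Type := Mb g ⧸ Subgroup.normalClosure ({tw g} : Set (Mb g))

instance grpGam (g : ℕ) : Group (Gam g) := QuotientGroup.Quotient.group _

/-- `r` is the action on the surface group induced by the action on the free group. -/
def IsRho {g : ℕ} (r : Gam g →* Aut g) : Prop :=
  ∀ (φ : Mb g) (x : Fr g), act g (r (QuotientGroup.mk φ)) (QuotientGroup.mk x) =
    (QuotientGroup.mk (φ.1 x) : Sg g)

/-- The group of the surface bundle with section over `BQ`. -/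
def Sd {g : ℕ} {Q : Type} [Group Q] (r : Q →* Aut g) : Type := Sg g ⋊[(act g).comp r] Q

instance grpSd {g : ℕ} {Q : Type} [Group Q] (r : Q →* Aut g) : Group (Sd r) :=
  SemidirectProduct.instGroup

/-- The class in `Aut g` that remembers the first point. -/
def p1 {g : ℕ} {Q : Type} [Group Q] (r : Q →* Aut g) (x : Sd r) : Aut g := r x.right

/-- The class in `Aut g` that remembers the second point. -/
def p2 {g : ℕ} {Q : Type} [Group Q] (r : Q →* Aut g) (x : Sd r) : Aut g :=
  inn x.left * r x.right

/-- The cocycle of the intersection form on a surface bundle with section. -/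
def th {g : ℕ} {Q : Type} [Group Q] (r : Q →* Aut g) : List (Sd r) → ℚ
  | [x, y, z] => om (ab y.left - ab x.left) (ab z.left - ab y.left)
  | _ => 0

/-- The group of the configurations of two distinct points, the first with a tangent direction. -/
def Cpl (g : ℕ) : Type := Fr g ⋊[(Subgroup.subtype _ : Mb g →* MulAut (Fr g))] Mb g

instance grpCpl (g : ℕ) : Group (Cpl g) := SemidirectProduct.instGroup

/-- The Euler class `e` of the vertical tangent bundle, the classes `κ m = ∫ e ^ (m + 1)`, and the
action `ρ`. Here `∫ θ = 2 g`, `∫ e = 2 - 2 g`, and `∫ θ ^ 2 = κ 1 - 4 g e`. The class `e` is the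
Euler class of the central extension `Mb g → Gam g`, and `e₁ + e₂ + θ` dies off the diagonal. -/
structure Taut (g : ℕ) where
  e : List (Aut g) → ℚ
  κ : ℕ → List (Out g) → ℚ
  ρ : Gam g →* Aut g
  e_coc : Coc 2 e
  κ_coc : ∀ m, Coc (2 * m) (κ m)
  e_push : IsPush (p1 (MonoidHom.id (Aut g))) (th _) (cup (th _) (th _))
    ((1 / (2 * g) : ℚ) • (pull QuotientGroup.mk (κ 1) - (4 * g : ℚ) • e))
  κ_push : ∀ m, IsPush (QuotientGroup.mk : Aut g → Out g) e (cpow e (m + 1))
    ((1 / (2 - 2 * g) : ℚ) • κ m)
  ρ_def : IsRho ρ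
  e_euler : ∃ η, Inv η ∧ cob η = pull (fun m : Mb g => ρ (QuotientGroup.mk m)) e ∧
    η [1, 1] - η [1, tw g] = 1
  diag_off : Bd (pull (fun x : Cpl g => (⟨QuotientGroup.mk x.left, QuotientGroup.mk x.right⟩ : Sd ρ))
    (pull (p1 ρ) e + pull (p2 ρ) e + th ρ))

/-- Generators of the tautological ring of `M_g`. -/
def gens0 {g : ℕ} (t : Taut g) (k : ℕ) (f : List (Out g) → ℚ) : Prop := 1 ≤ k ∧ f = t.κ k

/-- Generators of the tautological ring of the fibre square of the universal curve: the two
Euler classes, the diagonal and the kappa classes. -/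
def gens2 {g : ℕ} (t : Taut g) (k : ℕ) (f : List (Sd t.ρ) → ℚ) : Prop :=
  (k = 1 ∧ (f = pull (p1 t.ρ) t.e ∨ f = pull (p2 t.ρ) t.e ∨
    f = (1 / 2 : ℚ) • (pull (p1 t.ρ) t.e + pull (p2 t.ρ) t.e + th t.ρ))) ∨
  (1 ≤ k ∧ f = pull (fun x => (QuotientGroup.mk (p1 t.ρ x) : Out g)) (t.κ k))

end Pool.Agent.FP.St
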