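import Pool.Agent.FP.Defs
import Pool.Agent.FP.St

/-! The two forms of the definitions agree. -/

namespace Pool.Agent.FP

theorem st_th {g : ℕ} {Q : Type} [Group Q] (r : Q →* Aut g) :
    St.th (g := g) r = th r := by
  funext l
  rcases l with _ | ⟨x, _ | ⟨y, _ | ⟨z, _ | ⟨w, l⟩⟩⟩⟩ <;> rfl

/-- From the working form. -/
def Taut.toSt {g : ℕ} (t : Taut g) : St.Taut g where
  e := t.e
  κ := t.κ
  ρ := t.ρ
  e_coc := t.e_coc
  κ_coc := t.κ_coc
  e_push := by
    have h := t.e_push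
    rw [← st_th] at h
    exact h
  κ_push := t.κ_push
  ρ_def := t.ρ_def
  e_euler := t.e_euler
  diag_off := by
    have h := t.diag_off
    rw [← st_th] at h
    exact h

/-- To the working form. -/
def Taut.ofSt {g : ℕ} (t : St.Taut g) : Taut g where
  e := t.e
  κ := t.κ
  ρ := t.ρ
  e_coc := t.e_coc
  κ_coc := t.κ_coc
  e_push := by
    rw [← st_th]
    exact t.e_push
  κ_push := t.κ_push
  ρ_def := t.ρ_def
  e_euler := t.e_euler
  diag_off := by
    have h := t.diag_off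
    rw [st_th (g := g) (Q := St.Gam g) t.ρ] at h
    exact h

theorem st_gens2 {g : ℕ} (t : St.Taut g) : St.gens2 t = gens2 (Taut.ofSt t) := by
  funext k f
  unfold gens2
  rw [← st_th]
  rfl

theorem st_target (h : Target) : (∀ g, 2 ≤ g → Nonempty (St.Taut g)) ∧
    ∀ (s : St.Taut 24) (t : St.Taut 25), ¬ (Gor (St.gens0 t) 23 ∧ Gor (St.gens2 s) 24) := by
  refine ⟨fun g hg => (h.1 g hg).map Taut.toSt, fun s t hG => ?_⟩
  rw [st_gens2] at hG
  exact h.2 (Taut.ofSt s) (Taut.ofSt t) hG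

end Pool.Agent.FP
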