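import Pool.Agent.FP.FrobA

/-!
Interface of the algebraic part: twisted tautological classes with a contraction operator.
-/

namespace Pool.Agent.FP.Z

/-- `m i l j` is the fibre integral of `e ^ i * u ^ l * k ^ j`, `L` the contraction with the
intersection form, `N` the exterior degree and `pr` the projection to trivial coefficients. -/
structure FZData (g : ℕ) (A : Type) [CommRing A] [Algebra ℚ A] where
  b : BV g A
  m : ℕ → ℕ → ℕ → A
  L_m : ∀ i l j, b.L (m i l j) =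
    (j.choose 2 : ℚ) • (m (i + 1) l (j - 2) - (2 : ℚ) • m i (l + 1) (j - 2))
  G_m : ∀ i l j i' l' j', Gm b.L (m i l j) (m i' l' j') =
    ((j : ℚ) * j') • (m (i + i') (l + l') (j - 1 + (j' - 1)) -
      m i (l + 1) (j - 1) * m i' l' (j' - 1) - m i l (j - 1) * m i' (l' + 1) (j' - 1))
  N_m : ∀ i l j, b.N (m i l j) = (j : ℚ) • m i l j
  m000 : m 0 0 0 = 0
  m001 : m 0 0 1 = 0
  m010 : m 0 1 0 = 1
  m011 : m 0 1 1 = 0
  m020 : m 0 2 0 = 0
  m002 : m 0 0 2 = (2 : ℚ) • b.om
  m100 : m 1 0 0 = (2 - 2 * (g : ℚ)) • 1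

variable {g : ℕ} {O T : Type} [CommRing O] [Algebra ℚ O] [CommRing T] [Algebra ℚ T]

theorem N_sc (F : Frob g O T) (i l : ℕ) : F.bT.N (F.chi ^ i * F.η ^ l) = 0 :=
  F.bT.N_mul_scal (F.bT.N_pow_scal F.N_chi i) (F.bT.N_pow_scal F.N_η l)

theorem N_mon (F : Frob g O T) (i l j : ℕ) :
    F.bO.N (F.I (F.x ^ j * (F.chi ^ i * F.η ^ l))) =
      (j : ℚ) • F.I (F.x ^ j * (F.chi ^ i * F.η ^ l)) := by
  rw [← F.I_N, F.bT.N_mul, N_sc, F.bT.N_pow F.N_x, mul_zero, add_zero, smul_mul_assoc, map_smul]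

/-- The data attached to a surface bundle. -/
def ofFrob (F : Frob g O T) : FZData g O where
  b := F.bO
  m i l j := F.I (F.x ^ j * (F.chi ^ i * F.η ^ l))
  L_m i l j := by
    rw [← F.I_L, mul_comm, F.bT.L_scal (N_sc F i l)]
    match j with
    | 0 => simp [F.bT.L_one]
    | 1 => simp [F.bT.deg1 _ F.N_x]
    | j + 2 =>
      have : Gm F.bT.L F.x F.x = F.chi - (2 : ℚ) • F.η := by simp [Frob.chi]
      rw [F.bT.L_pow F.N_x, this, mul_smul_comm, map_smul, Nat.cast_choose_two, ← map_smul F.I 2,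
        ← map_sub]
      congr 1
      · push_cast; ring
      · congr 1
        simp only [Nat.add_sub_cancel, Algebra.smul_def]; ring
  G_m i l j i' l' j' := by
    match j, j' with
    | 0, _ => rw [F.bO.Gm_scal (by simpa using N_mon F i l 0)]; simp
    | _, 0 => rw [Gm_comm, F.bO.Gm_scal (by simpa using N_mon F i' l' 0)]; simp
    | j + 1, j' + 1 =>
      rw [F.compl2 j j' _ _ (N_sc F i l) (N_sc F i' l')]
      simp only [Nat.add_sub_cancel]
      push_cast
      congr 4 <;> ring_nf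
  N_m := N_mon F
  m000 := by simp [F.I_one]
  m001 := by simp [F.I_x]
  m010 := by simp [F.I_η]
  m011 := by simp [F.I_xη]
  m020 := by simp [pow_two, F.I_ηη]
  m002 := by simp [pow_two, F.I_xx]
  m100 := by simpa [Frob.kb] using F.kb_zero

theorem ofFrob_κ (F : Frob g O T) (i : ℕ) :
    (ofFrob F).b.P ((ofFrob F).m (i + 1) 0 0) = F.kb i := by
  rw [(ofFrob F).b.scal _ (by simpa using (ofFrob F).N_m (i + 1) 0 0)]
  simp [ofFrob, Frob.kb]

end Pool.Agent.FP.Z
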