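import Pool.Agent.FP.ZSO
import Pool.Agent.FP.ZIface

/-! The field `φ = a + b u + k` and its contraction rules. -/

namespace Pool.Agent.FP.Z

open TensorProduct Finset MvPolynomial

/-- Polynomials in `e`, `u`, `k`. -/
abbrev R0 : Type := MvPolynomial (Fin 3) ℚ

/-- Polynomials in two variables. -/
abbrev P2 : Type := MvPolynomial (Fin 2) ℚ

/-- Monomials. -/
noncomputable def mo (i l j : ℕ) : R0 := X 0 ^ i * X 1 ^ l * X 2 ^ j

/-- Derivative in one variable, as a linear map. -/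
noncomputable def pd {n : ℕ} (i : Fin n) : MvPolynomial (Fin n) ℚ →ₗ[ℚ] MvPolynomial (Fin n) ℚ :=
  (pderiv i : Derivation ℚ _ _).toLinearMap

theorem pd_apply {n : ℕ} (i : Fin n) (f : MvPolynomial (Fin n) ℚ) : pd i f = pderiv i f := rfl

theorem pd_der {n : ℕ} (i : Fin n) : IsDer (pd i) := fun x y => by
  simp only [pd_apply, Derivation.leibniz, smul_eq_mul]; ring

theorem mo_eq (s : Fin 3 →₀ ℕ) : monomial s (1 : ℚ) = mo (s 0) (s 1) (s 2) := by
  simp [monomial_eq, mo, Finsupp.prod_fintype, Fin.prod_univ_three]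

theorem mo_ind {P : R0 → Prop} (h1 : ∀ (c : ℚ) i l j, P (c • mo i l j))
    (h2 : ∀ f h, P f → P h → P (f + h)) (f : R0) : P f := by
  induction f using MvPolynomial.induction_on' with
  | monomial s c => rw [← mul_one c, ← smul_eq_mul, ← smul_monomial, mo_eq]; exact h1 _ _ _ _
  | add f h hf hh => exact h2 _ _ hf hh

theorem pd_mo (i l j : ℕ) : pd 2 (mo i l j) = (j : ℚ) • mo i l (j - 1) := by
  have h := pd_der (2 : Fin 3)
  have h0 : pd (2 : Fin 3) (X 0) = 0 := by simp [pd_apply, pderiv_X]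
  have h1 : pd (2 : Fin 3) (X 1) = 0 := by simp [pd_apply, pderiv_X]
  have h2 : pd (2 : Fin 3) (X 2) = 1 := by simp [pd_apply]
  rw [mo, h, h, h.pow0 h0, h.pow0 h1, h.pow, h2, mo, Algebra.smul_def, map_natCast]
  ring

theorem mo_mul (i l j i' l' j' : ℕ) :
    mo i l j * mo i' l' j' = mo (i + i') (l + l') (j + j') := by
  simp only [mo, pow_add]; ring

theorem X0_mo (i l j : ℕ) : X 0 * mo i l j = mo (i + 1) l j := by simp only [mo]; ring
theorem X1_mo (i l j : ℕ) : X 1 * mo i l j = mo i (l + 1) j := by simp only [mo]; ring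
theorem X2_mo (i l j : ℕ) : X 2 * mo i l j = mo i l (j + 1) := by simp only [mo]; ring

namespace FZData
variable {g : ℕ} {A : Type} [CommRing A] [Algebra ℚ A] (d : FZData g A)

theorem G_eq (x y : A) : Gam2 d.b.L x y = Gm d.b.L x y := rfl

theorem so : IsSO d.b.L := fun x y z => by
  simp only [d.G_eq]
  rw [Gm_comm, d.b.G_mul, Gm_comm _ y, Gm_comm _ z]; ring

theorem pr_m (i l j : ℕ) : d.b.P (d.m i l (j + 1)) = 0 := by
  have := d.b.P_N (d.m i l (j + 1))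
  rw [d.N_m, map_smul] at this
  exact (smul_eq_zero.1 this).resolve_left (by positivity)

/-- Fibre integration of polynomials. -/
noncomputable def I : R0 →ₗ[ℚ] A :=
  (basisMonomials (Fin 3) ℚ).constr ℚ fun s => d.m (s 0) (s 1) (s 2)

theorem I_mo (i l j : ℕ) : d.I (mo i l j) = d.m i l j := by
  have h := (basisMonomials (Fin 3) ℚ).constr_basis ℚ (fun s => d.m (s 0) (s 1) (s 2))
    (Finsupp.equivFunOnFinite.symm ![i, l, j])
  rw [coe_basisMonomials] at h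
  simp only [mo_eq] at h
  exact h

theorem sys0 : Sys d.I d.b.L (pd 2) ((2⁻¹ : ℚ) • X 0 - X 1) (X 1) where
  so := d.so
  der := pd_der 2
  LJ f := by
    induction f using mo_ind with
    | h2 f h h1 h2 => simp only [map_add, mul_add, h1, h2]
    | h1 c i l j =>
      simp only [map_smul, mul_smul_comm, pd_mo, I_mo, d.L_m, sub_mul, smul_mul_assoc, X0_mo,
        X1_mo, map_sub, Nat.cast_choose_two]
      congr 1
      rcases j with _ | j
      · simp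
      · have : j + 1 - 1 - 1 = j + 1 - 2 := by omega
        rw [this]
        simp only [Nat.add_sub_cancel]
        push_cast
        module
  GJ f h := by
    induction f using mo_ind with
    | h2 x y h1 h2 => simp only [map_add, mul_add, add_mul, LinearMap.add_apply, h1, h2]; ring
    | h1 c i l j =>
      induction h using mo_ind with
      | h2 x y h1 h2 => simp only [map_add, mul_add, h1, h2]; ring
      | h1 c' i' l' j' =>
        simp only [map_smul, mul_smul_comm, smul_mul_assoc, pd_mo, I_mo, G_eq, d.G_m, X1_mo,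
          mo_mul, LinearMap.smul_apply]
        module

end FZData

/-- The substitution `φ = a + b u + k`. -/
noncomputable def sg : P2 →ₐ[ℚ] P2 ⊗[ℚ] R0 :=
  aeval ![1 ⊗ₜ X 0, X 0 ⊗ₜ 1 + X 1 ⊗ₜ X 1 + 1 ⊗ₜ X 2]

theorem sg0 : sg (X 0) = 1 ⊗ₜ X 0 := by simp [sg]
theorem sg1 : sg (X 1) = X 0 ⊗ₜ 1 + X 1 ⊗ₜ X 1 + 1 ⊗ₜ X 2 := by simp [sg]

theorem chain {R : Type} [CommRing R] [Algebra ℚ R] (σ : P2 →ₐ[ℚ] R) {D : R →ₗ[ℚ] R}
    (h : IsDer D) (h0 : D (σ (X 0)) = 0) (f : P2) : D (σ f) = D (σ (X 1)) * σ (pd 1 f) := by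
  induction f using MvPolynomial.induction_on with
  | C c => rw [← algebraMap_eq, AlgHom.commutes, h.alg, (pd_der 1).alg]; simp
  | add f f' h1 h2 => simp only [map_add, h1, h2, mul_add]
  | mul_X f i hf =>
    rw [map_mul, h, hf, pd_der 1, map_add, map_mul, map_mul]
    fin_cases i
    · simp [h0, pd_apply, pderiv_X]; ring
    · simp [pd_apply]; ring

theorem sg_k (f : P2) : (pd 2).lTensor P2 (sg f) = sg (pd 1 f) := by
  rw [chain sg ((pd_der 2).lT P2) (by simp [sg0, pd_apply, pderiv_X])]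
  simp [sg1, pd_apply, pderiv_X, ← Algebra.TensorProduct.one_def]

theorem sg_a (f : P2) : (pd 0).rTensor R0 (sg f) = sg (pd 1 f) := by
  rw [chain sg ((pd_der 0).rT P2) (by simp [sg0, pd_apply])]
  simp [sg1, pd_apply, pderiv_X, ← Algebra.TensorProduct.one_def]

theorem sg_b (f : P2) : (pd 1).rTensor R0 (sg f) = 1 ⊗ₜ X 1 * sg (pd 1 f) := by
  rw [chain sg ((pd_der 1).rT P2) (by simp [sg0, pd_apply])]
  simp [sg1, pd_apply, pderiv_X]

theorem rT_lT {Λ R B : Type} [CommRing Λ] [Algebra ℚ Λ] [AddCommGroup R] [Module ℚ R]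
    [AddCommGroup B] [Module ℚ B] (D : Λ →ₗ[ℚ] Λ) (J : R →ₗ[ℚ] B) (x : Λ ⊗[ℚ] R) :
    D.rTensor B (J.lTensor Λ x) = J.lTensor Λ (D.rTensor R x) := by
  induction x with
  | zero => simp
  | add x y h1 h2 => simp only [map_add, h1, h2]
  | tmul a x => simp

theorem lT_mul {Λ R B : Type} [CommRing Λ] [Algebra ℚ Λ] [CommRing R] [Algebra ℚ R]
    [CommRing B] [Algebra ℚ B] (J : R →ₗ[ℚ] B) (a : Λ) (x : Λ ⊗[ℚ] R) :
    J.lTensor Λ (a ⊗ₜ 1 * x) = a ⊗ₜ 1 * J.lTensor Λ x := by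
  induction x with
  | zero => simp
  | add x y h1 h2 => simp only [mul_add, map_add, h1, h2]
  | tmul b x => simp

theorem tsm {Λ B : Type} [CommRing Λ] [Algebra ℚ Λ] [CommRing B] [Algebra ℚ B] (c : ℚ)
    (x : Λ ⊗[ℚ] B) : c • x = algebraMap ℚ (Λ ⊗[ℚ] B) c * x := Algebra.smul_def c x

namespace FZData
variable {g : ℕ} {A : Type} [CommRing A] [Algebra ℚ A] (d : FZData g A)

/-- Integration of polynomials in `e` and `φ`. -/
noncomputable def J1 : P2 →ₗ[ℚ] P2 ⊗[ℚ] A := d.I.lTensor P2 ∘ₗ sg.toLinearMap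

/-- The total contraction operator. -/
noncomputable def L1 : P2 ⊗[ℚ] A →ₗ[ℚ] P2 ⊗[ℚ] A :=
  d.b.L.lTensor P2 + (pd 0).rTensor A ∘ₗ (pd 1).rTensor A

theorem J1_apply (f : P2) : d.J1 f = d.I.lTensor P2 (sg f) := rfl

theorem sys1 : Sys d.J1 d.L1 (pd 1) ((2⁻¹ : ℚ) • X 0) 0 where
  so := (d.so.lT P2).add (((pd_der 0).rT P2).comp ((pd_der 1).rT P2))
  der := pd_der 1
  LJ f := by
    have s := d.sys0.lT P2
    simp only [J1_apply, L1, LinearMap.add_apply, LinearMap.comp_apply, s.LJ, rT_lT, sg_b,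
      (pd_der 0).rT P2 _ _, sg_a, sg_k, map_mul, map_smul, sg0, ← map_add]
    congr 1
    simp [tmul_sub, pd_apply, sub_mul, tsm]
  GJ f h := by
    have s := d.sys0.lT P2
    simp only [J1_apply, L1, Gam2_add, Gam2_comp ((pd_der 0).rT P2) ((pd_der 1).rT P2), s.GJ,
      rT_lT, sg_a, sg_b, sg_k, map_mul, zero_mul, map_zero]
    ring

theorem J1_X0 (i : ℕ) : d.J1 (X 0 ^ i) = 1 ⊗ₜ d.m i 0 0 := by
  rw [J1_apply, map_pow, sg0, Algebra.TensorProduct.tmul_pow, ← d.I_mo]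
  simp [mo]

theorem J1_lin : d.J1 (X 0 * X 1) =
    X 0 ⊗ₜ d.m 1 0 0 + X 1 ⊗ₜ d.m 1 1 0 + 1 ⊗ₜ d.m 1 0 1 := by
  rw [J1_apply, map_mul, sg0, sg1]
  simp [← d.I_mo, mo, mul_add]

theorem J1_cub : d.J1 (X 1 ^ 3) =
    3 * (X 0 ⊗ₜ 1) ^ 2 * (X 1 ⊗ₜ 1) + 3 * (X 0 ⊗ₜ 1) * (1 ⊗ₜ d.m 0 0 2) +
      ((X 1 ⊗ₜ 1) ^ 3 * (1 ⊗ₜ d.m 0 3 0) + 3 * (X 1 ⊗ₜ 1) ^ 2 * (1 ⊗ₜ d.m 0 2 1) +
        3 * (X 1 ⊗ₜ 1) * (1 ⊗ₜ d.m 0 1 2) + 1 ⊗ₜ d.m 0 0 3) := by
  have key : sg (X 1 ^ 3) = (X 0 ^ 3) ⊗ₜ mo 0 0 0 + (3 : ℚ) • (X 0 ^ 2 * X 1) ⊗ₜ mo 0 1 0 +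
      (3 : ℚ) • (X 0 ^ 2) ⊗ₜ mo 0 0 1 + (3 : ℚ) • (X 0 * X 1 ^ 2) ⊗ₜ mo 0 2 0 +
      (6 : ℚ) • (X 0 * X 1) ⊗ₜ mo 0 1 1 + (3 : ℚ) • (X 0) ⊗ₜ mo 0 0 2 +
      (X 1 ^ 3) ⊗ₜ mo 0 3 0 + (3 : ℚ) • (X 1 ^ 2) ⊗ₜ mo 0 2 1 + (3 : ℚ) • (X 1) ⊗ₜ mo 0 1 2 +
      1 ⊗ₜ mo 0 0 3 := by
    have e : ∀ (p : P2) (q : R0), p ⊗ₜ[ℚ] q = Algebra.TensorProduct.includeLeft (S := ℚ) p *
        Algebra.TensorProduct.includeRight q := fun p q => by simp
    rw [map_pow, sg1]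
    simp only [e, mo, map_mul, map_pow, map_one, tsm, map_ofNat]
    ring
  have e : ∀ (p : P2) (q : A), p ⊗ₜ[ℚ] q = Algebra.TensorProduct.includeLeft (S := ℚ) p *
      Algebra.TensorProduct.includeRight q := fun p q => by simp
  rw [J1_apply, key]
  simp only [map_add, map_smul, LinearMap.lTensor_tmul, I_mo, d.m000, d.m001, d.m010, d.m011,
    d.m020, tmul_zero, smul_zero]
  simp only [e, map_mul, map_pow, map_one, tsm, map_ofNat]
  ring

/-- Projection killing `a`, `b` and the twisted part. -/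
noncomputable def pr1 : P2 ⊗[ℚ] A →ₐ[ℚ] A :=
  Algebra.TensorProduct.lift (aeval fun _ => 0) d.b.P fun _ _ => Commute.all _ _

theorem pr1_tmul (p : P2) (y : A) :
    d.pr1 (p ⊗ₜ y) = aeval (fun _ : Fin 2 => (0 : A)) p * d.b.P y := by simp [pr1]

theorem pr1_J1 (f : P2) : d.pr1 (d.J1 (X 1 * f)) = 0 := by
  rw [J1_apply, map_mul, sg1]
  generalize sg f = x
  induction x with
  | zero => simp
  | add x y h1 h2 => rw [mul_add, map_add, map_add, h1, h2, add_zero]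
  | tmul p q =>
    have : d.b.P (d.I (X 2 * q)) = 0 := by
      induction q using mo_ind with
      | h2 f h h1 h2 => rw [mul_add, map_add, map_add, h1, h2, add_zero]
      | h1 c i l j => simp [X2_mo, I_mo, d.pr_m]
    simp [add_mul, pr1_tmul, this]

end FZData

end Pool.Agent.FP.Z
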