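import Pool.Agent.FP.ZVan2
import Pool.Agent.FP.ZPhi

/-! The concrete Gaussian integral. -/

namespace Pool.Agent.FP.Z

open Finset TensorProduct MvPolynomial

theorem pd_comm (f : P2) : pd 0 (pd 1 f) = pd 1 (pd 0 f) := by
  induction f using MvPolynomial.induction_on with
  | C c => simp [pd_apply]
  | add f f' h1 h2 => simp only [map_add, h1, h2]
  | mul_X f i hf =>
    simp only [pd_der _ _ _, map_add, hf]
    fin_cases i <;> simp [pd_apply, pderiv_X]

section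
variable {Λ B : Type} [CommRing Λ] [Algebra ℚ Λ] [CommRing B] [Algebra ℚ B]

theorem comm_lT {L M D : B →ₗ[ℚ] B} (h : ∀ x, L (M x) = M (L x) + D x) (x : Λ ⊗[ℚ] B) :
    L.lTensor Λ (M.lTensor Λ x) = M.lTensor Λ (L.lTensor Λ x) + D.lTensor Λ x := by
  induction x with
  | zero => simp
  | add x y h1 h2 => simp only [map_add, h1, h2]; ring
  | tmul a x => simp [h, tmul_add]

theorem comm0_lT {L M : B →ₗ[ℚ] B} (h : ∀ x, L (M x) = M (L x)) (x : Λ ⊗[ℚ] B) :
    L.lTensor Λ (M.lTensor Λ x) = M.lTensor Λ (L.lTensor Λ x) := by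
  simpa using comm_lT (D := 0) (by simpa using h) x

theorem mul_lT {L D : B →ₗ[ℚ] B} {a : B} (h : ∀ x, L (a * x) = a * L x + D x) (x : Λ ⊗[ℚ] B) :
    L.lTensor Λ (1 ⊗ₜ a * x) = 1 ⊗ₜ a * L.lTensor Λ x + D.lTensor Λ x := by
  induction x with
  | zero => simp
  | add x y h1 h2 => simp only [mul_add, map_add, h1, h2]; ring
  | tmul a x => simp [h, tmul_add]

theorem nat_lT (n : ℕ) (D : B →ₗ[ℚ] B) (x : Λ ⊗[ℚ] B) :
    (LinearMap.mulLeft ℚ (n : B) ∘ₗ D).lTensor Λ x = n * D.lTensor Λ x := by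
  induction x with
  | zero => simp
  | add x y h1 h2 => simp only [mul_add, map_add, h1, h2]
  | tmul a x => simp [← nsmul_eq_mul, tmul_smul]

/-- Evaluation of the time variable. -/
noncomputable def evP (c : Λ) : Polynomial Λ →ₐ[ℚ] Polynomial Λ :=
  (Polynomial.aeval (Polynomial.C c) : Polynomial Λ →ₐ[Λ] Polynomial Λ).restrictScalars ℚ

/-- Derivative in the time variable. -/
noncomputable def dP : Polynomial Λ →ₗ[ℚ] Polynomial Λ :=
  (Polynomial.derivative : Polynomial Λ →ₗ[Λ] Polynomial Λ).restrictScalars ℚ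

theorem dP_der : IsDer (dP (Λ := Λ)) := fun x y => by simp [dP, Polynomial.derivative_mul]

/-- Evaluation of the time variable on a tensor product. -/
noncomputable def evT (c : Λ) (B : Type) [CommRing B] [Algebra ℚ B] :
    Polynomial Λ ⊗[ℚ] B →ₐ[ℚ] Polynomial Λ ⊗[ℚ] B :=
  Algebra.TensorProduct.map (evP c) (AlgHom.id ℚ B)

theorem evT_tmul (c : Λ) (p : Polynomial Λ) (x : B) : evT c B (p ⊗ₜ x) = evP c p ⊗ₜ x := rfl

theorem evT_lT {R : Type} [CommRing R] [Algebra ℚ R] (c : Λ) (J : R →ₗ[ℚ] B)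
    (x : Polynomial Λ ⊗[ℚ] R) : evT c B (J.lTensor _ x) = J.lTensor _ (evT c R x) := by
  induction x with
  | zero => simp
  | add x y h1 h2 => simp only [map_add, h1, h2]
  | tmul a x => simp [evT_tmul]

theorem ev_const (x : Polynomial Λ ⊗[ℚ] B) (h : dP.rTensor B x = 0) : evT 1 B x = evT 0 B x := by
  let J : Polynomial Λ →ₗ[ℚ] Polynomial Λ := Polynomial.lsum fun n =>
    ((n : ℚ) + 1)⁻¹ • (Polynomial.monomial 0 : Λ →ₗ[Λ] Polynomial Λ).restrictScalars ℚ
  have h1 : ∀ p : Polynomial Λ, J (dP p) = evP 1 p - evP 0 p := by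
    intro p
    induction p using Polynomial.induction_on' with
    | add p q h1 h2 => simp only [map_add, h1, h2]; ring
    | monomial n a =>
      rcases n with _ | n
      · simp [dP, evP]
      · have : (n : ℚ) + 1 ≠ 0 := by positivity
        have e : a * ((n : Λ) + 1) = ((n : ℚ) + 1) • a := by
          rw [Algebra.smul_def, map_add, map_natCast, map_one, mul_comm]
        simp [dP, evP, J, Polynomial.sum_monomial_index, e, smul_smul, this]
  have h2 : ∀ x : Polynomial Λ ⊗[ℚ] B,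
      J.rTensor B (dP.rTensor B x) = evT 1 B x - evT 0 B x := by
    intro x
    induction x with
    | zero => simp
    | add x y h1 h2 => simp only [map_add, h1, h2]; ring
    | tmul a x => simp [evT_tmul, h1, sub_tmul]
  have := h2 x
  rw [h, map_zero] at this
  exact sub_eq_zero.1 this.symm

end

namespace FZData
variable {g : ℕ} {A : Type} [CommRing A] [Algebra ℚ A] (d : FZData g A)

theorem L1_tmul (p : P2) (w : A) : d.L1 (p ⊗ₜ w) = p ⊗ₜ d.b.L w + pd 0 (pd 1 p) ⊗ₜ w := by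
  simp [L1]

theorem N_der : IsDer d.b.N := d.b.N_mul

theorem La1 (x : P2 ⊗[ℚ] A) : d.L1 (X 0 ⊗ₜ 1 * x) = X 0 ⊗ₜ 1 * d.L1 x + (pd 1).rTensor A x := by
  induction x with
  | zero => simp
  | add x y h1 h2 => simp only [mul_add, map_add, h1, h2]; ring
  | tmul p w =>
    have h0 : pd (0 : Fin 2) (X 0) = 1 := by simp [pd_apply]
    have h1 : pd (1 : Fin 2) (X 0) = 0 := by simp [pd_apply, pderiv_X]
    simp [L1_tmul, pd_der _ _ _, h0, h1, mul_add, add_tmul]; ring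

theorem Lb1 (x : P2 ⊗[ℚ] A) : d.L1 (X 1 ⊗ₜ 1 * x) = X 1 ⊗ₜ 1 * d.L1 x + (pd 0).rTensor A x := by
  induction x with
  | zero => simp
  | add x y h1 h2 => simp only [mul_add, map_add, h1, h2]; ring
  | tmul p w =>
    have h0 : pd (1 : Fin 2) (X 1) = 1 := by simp [pd_apply]
    have h1 : pd (0 : Fin 2) (X 1) = 0 := by simp [pd_apply, pderiv_X]
    simp [L1_tmul, pd_der _ _ _, h0, h1, mul_add, add_tmul]; ring

theorem LΘ1 (x : P2 ⊗[ℚ] A) : d.L1 (1 ⊗ₜ d.b.om * x) = 1 ⊗ₜ d.b.om * d.L1 x +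
    (d.b.N.lTensor P2 - LinearMap.mulLeft ℚ (g : P2 ⊗[ℚ] A) ∘ₗ LinearMap.id) x := by
  induction x with
  | zero => simp
  | add x y h1 h2 => simp only [mul_add, map_add, h1, h2]; ring
  | tmul p w =>
    have : d.b.L (d.b.om * w) = d.b.om * d.b.L w + d.b.N w - g • w := by
      rw [FP.L_mul, d.b.G_om, d.b.L_om, ← Nat.cast_smul_eq_nsmul ℚ]
      simp only [neg_smul, neg_mul, smul_mul_assoc, one_mul]; ring
    simp [L1_tmul, this, mul_add, tmul_add, tmul_sub, ← nsmul_eq_mul, tmul_smul]; ring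

theorem cD1 (i : Fin 2) (x : P2 ⊗[ℚ] A) :
    d.L1 ((pd i).rTensor A x) = (pd i).rTensor A (d.L1 x) := by
  induction x with
  | zero => simp
  | add x y h1 h2 => simp only [map_add, h1, h2]
  | tmul p w => fin_cases i <;> simp [L1_tmul, pd_comm]

theorem cN1 (x : P2 ⊗[ℚ] A) : d.L1 (d.b.N.lTensor P2 x) = d.b.N.lTensor P2 (d.L1 x) +
    (LinearMap.mulLeft ℚ ((2 : ℕ) : P2 ⊗[ℚ] A) ∘ₗ d.b.L.lTensor P2) x := by
  induction x with
  | zero => simp
  | add x y h1 h2 => simp only [map_add, h1, h2]; ring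
  | tmul p w => simp [L1_tmul, d.b.L_N, two_smul, two_mul, tmul_add]; ring

theorem cL1 (x : P2 ⊗[ℚ] A) : d.L1 (d.b.L.lTensor P2 x) = d.b.L.lTensor P2 (d.L1 x) := by
  induction x with
  | zero => simp
  | add x y h1 h2 => simp only [map_add, h1, h2]
  | tmul p w => simp [L1_tmul]

variable {Λ B0 : Type} [CommRing Λ] [Algebra ℚ Λ] [CommRing B0] [Algebra ℚ B0]
  (pΛ : Λ →ₐ[ℚ] B0) (ι0 : A →ₐ[ℚ] B0)

/-- Evaluation at time one followed by a map of the parameters. -/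
noncomputable def pL (pΛ : Λ →ₐ[ℚ] B0) : Polynomial Λ →ₐ[ℚ] B0 :=
  pΛ.comp ((Polynomial.aeval (1 : Λ) : Polynomial Λ →ₐ[Λ] Λ).restrictScalars ℚ)

/-- The final projection. -/
noncomputable def pr2 : Polynomial Λ ⊗[ℚ] (P2 ⊗[ℚ] A) →ₐ[ℚ] B0 :=
  Algebra.TensorProduct.lift (pL pΛ) (ι0.comp d.pr1) fun _ _ => Commute.all _ _

theorem pr2_tmul (p : Polynomial Λ) (x : P2 ⊗[ℚ] A) :
    d.pr2 pΛ ι0 (p ⊗ₜ x) = pL pΛ p * ι0 (d.pr1 x) := by simp [pr2]

/-- The Gaussian data. -/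
noncomputable def van (ε y : Λ) (N : ℕ) (hε : ε ^ N = 0) :
    Van g (Polynomial Λ ⊗[ℚ] (P2 ⊗[ℚ] A)) B0 where
  L := d.L1.lTensor _
  L0 := (d.b.L.lTensor P2).lTensor _
  Da := ((pd 0).rTensor A).lTensor _
  Db := ((pd 1).rTensor A).lTensor _
  N := (d.b.N.lTensor P2).lTensor _
  a := 1 ⊗ₜ (X 0 ⊗ₜ 1)
  b := 1 ⊗ₜ (X 1 ⊗ₜ 1)
  Θ := 1 ⊗ₜ (1 ⊗ₜ d.b.om)
  ε := Polynomial.C ε ⊗ₜ 1
  y := Polynomial.C y ⊗ₜ 1
  pr := d.pr2 pΛ ι0
  K := N + 1
  hDa := ((pd_der 0).rT P2).lT _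
  hDb := ((pd_der 1).rT P2).lT _
  hN := (d.N_der.lT P2).lT _
  hL x := by simp [L1, LinearMap.lTensor_comp]
  La := mul_lT d.La1
  Lb := mul_lT d.Lb1
  LΘ x := by
    rw [mul_lT d.LΘ1, LinearMap.lTensor_sub, LinearMap.sub_apply, nat_lT]; simp
  Lε := lT_mul _ _
  Ly := lT_mul _ _
  cDa := comm0_lT (d.cD1 0)
  cDb := comm0_lT (d.cD1 1)
  cN x := by rw [comm_lT d.cN1, nat_lT]; simp
  cL0 := comm0_lT d.cL1
  pra := by simp [pr2_tmul, pr1_tmul]
  prb := by simp [pr2_tmul, pr1_tmul]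
  prΘ := by
    have := d.b.P_N d.b.om
    rw [d.b.N_om, map_smul] at this
    simp [pr2_tmul, pr1_tmul, (smul_eq_zero.1 this).resolve_left (by norm_num)]
  prN x := by
    induction x with
    | zero => simp
    | add x y h1 h2 => simp only [map_add, h1, h2, add_zero]
    | tmul p x =>
      induction x with
      | zero => simp
      | add x y h1 h2 => simp only [tmul_add, map_add, h1, h2, add_zero]
      | tmul q w => simp [pr2_tmul, pr1_tmul, d.b.P_N]
  nil := by rw [Algebra.TensorProduct.tmul_pow, ← map_pow, pow_succ, hε]; simp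
  aa := by simp [pd_apply, Algebra.TensorProduct.one_def]
  ab := by simp [pd_apply, pderiv_X]
  aΘ := by simp [pd_apply]
  aε := by simp [((pd_der 0).rT P2).one]
  ba := by simp [pd_apply, pderiv_X]
  bb := by simp [pd_apply, Algebra.TensorProduct.one_def]
  bΘ := by simp [pd_apply]
  bε := by simp [((pd_der 1).rT P2).one]
  Na := by simp [d.b.N_one]
  Nb := by simp [d.b.N_one]
  NΘ := by
    refine Eq.trans ?_ (two_mul (α := Polynomial Λ ⊗[ℚ] (P2 ⊗[ℚ] A)) _).symm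
    simp only [LinearMap.lTensor_tmul, d.b.N_om, two_smul, tmul_add]
  Nε := by simp [(d.N_der.lT P2).one]

end FZData

end Pool.Agent.FP.Z
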