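import Pool.Agent.FP.ZExt
import Pool.Agent.FP.ZMain

/-! The relations hold for every surface bundle. -/

namespace Pool.Agent.FP.Z

open Finset TensorProduct

section
open Polynomial
variable {R : Type} [CommRing R] [Algebra ℚ R]

/-- Truncated polynomials. -/
abbrev Tr (R : Type) [CommRing R] (N : ℕ) : Type := AdjoinRoot (X ^ N : R[X])

/-- The quotient map. -/
noncomputable def trMk (R : Type) [CommRing R] [Algebra ℚ R] (N : ℕ) : R[X] →ₐ[ℚ] Tr R N :=
  (AdjoinRoot.mkₐ (X ^ N : R[X])).restrictScalars ℚ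

/-- Coefficients of truncated polynomials. -/
noncomputable def cf (N ν : ℕ) : Tr R N →ₗ[ℚ] R :=
  (lcoeff R ν ∘ₗ AdjoinRoot.modByMonicHom (monic_X_pow N)).restrictScalars ℚ

theorem cf_mk {N ν : ℕ} (h : ν < N) (p : R[X]) : cf N ν (trMk R N p) = p.coeff ν := by
  have := congrArg (coeff · ν) (modByMonic_add_div p (X ^ N))
  simp only [coeff_add, coeff_X_pow_mul', if_neg (not_le.2 h), add_zero] at this
  simpa [cf, trMk] using this

theorem trMk_nil (N : ℕ) : trMk R N X ^ N = 0 := by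
  rw [← map_pow]; exact AdjoinRoot.mk_self

theorem cf_shift {N ν : ℕ} (h : ν < N) (ν' : ℕ) (w : R) (z : Tr R N) :
    cf N ν (trMk R N X ^ ν' * trMk R N (C w) * z) =
      if ν' ≤ ν then w * cf N (ν - ν') z else 0 := by
  obtain ⟨p, rfl⟩ : ∃ p, trMk R N p = z := AdjoinRoot.mk_surjective z
  rw [← map_pow, ← map_mul, ← map_mul, cf_mk h, cf_mk (by omega), mul_assoc, coeff_X_pow_mul',
    coeff_C_mul]

theorem cf_one {N ν : ℕ} (h : ν < N) : cf N ν (1 : Tr R N) = if ν = 0 then 1 else 0 := by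
  rw [← map_one (trMk R N), cf_mk h, coeff_one]

end

theorem mp {A B : Type} [CommRing A] [Algebra ℚ A] [CommRing B] [Algebra ℚ B] (f : A →ₐ[ℚ] B)
    (x : A) (n : ℕ) : f (x ^ n) = f x ^ n := map_pow f x n

open MvPolynomial

variable {g : ℕ} {A : Type} [CommRing A] [Algebra ℚ A] (d : FZData g A)

theorem main_conc {N : ℕ} {T : ℕ → ℕ → ℚ} (hA : Rec N T) (δ : ℕ) (h03 : T 0 3 = δ / 6)
    {Λ B0 : Type} [CommRing Λ] [Algebra ℚ Λ] [CommRing B0] [Algebra ℚ B0]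
    (pΛ : Λ →ₐ[ℚ] B0) (ι0 : A →ₐ[ℚ] B0) (ε y : Λ) (hε : ε ^ N = 0) (hy : IsNilpotent y)
    {O : Type} [AddCommGroup O] [Module ℚ O] (lam : B0 →ₗ[ℚ] O) {r s0 t : ℕ}
    (hr : 3 * r = s0 + g + 1 + 2 * t)
    (hl : ∀ ν s w, ¬ (ν = 5 * r ∧ s = s0) → lam (pΛ ε ^ ν * (pΛ y ^ s * ι0 w)) = 0) :
    lam (IsNilpotent.exp (expo N T δ (pΛ ε) (pΛ y) fun i => ι0 (d.b.P (d.m i 0 0)))) = 0 := by
  set v := d.van pΛ ι0 ε y N hε with hv
  let ι : A →ₐ[ℚ] Polynomial Λ ⊗[ℚ] (P2 ⊗[ℚ] A) :=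
    Algebra.TensorProduct.includeRight.comp Algebra.TensorProduct.includeRight
  have hι : ∀ w, ι w = 1 ⊗ₜ (1 ⊗ₜ w) := fun _ => rfl
  let j : P2 ⊗[ℚ] A →ₐ[ℚ] Polynomial Λ ⊗[ℚ] (P2 ⊗[ℚ] A) := Algebra.TensorProduct.includeRight
  have hj : ∀ w, (1 : Polynomial Λ) ⊗ₜ[ℚ] w = j w := fun _ => rfl
  have pε : v.pr v.ε = pΛ ε := by simp [hv, FZData.van, FZData.pr2_tmul, FZData.pL]
  have py : v.pr v.y = pΛ y := by simp [hv, FZData.van, FZData.pr2_tmul, FZData.pL]
  have pι : ∀ w, v.pr (ι w) = ι0 (d.b.P w) := fun w => by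
    simp [hv, hι, FZData.van, FZData.pr2_tmul, FZData.pr1_tmul]
  have Nι : ∀ i l k, v.N (ι (d.m i l k)) = k * ι (d.m i l k) := fun i l k => by
    have : v.N (ι (d.m i l k)) = ι (d.b.N (d.m i l k)) := rfl
    rw [this, d.N_m, Algebra.smul_def, map_natCast, map_mul, map_natCast]
  have va : v.a = j (X 0 ⊗ₜ 1) := rfl
  have vb : v.b = j (X 1 ⊗ₜ 1) := rfl
  have vι : ∀ w, ι w = j (1 ⊗ₜ w) := fun _ => rfl
  have vΘ : v.Θ = ι d.b.om := rfl
  have jp := mp (A := P2 ⊗[ℚ] A) (B := Polynomial Λ ⊗[ℚ] (P2 ⊗[ℚ] A)) j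
  have ιp := mp (A := A) (B := Polynomial Λ ⊗[ℚ] (P2 ⊗[ℚ] A)) ι
  have ι1 : ι 1 = 1 := rfl
  have s := d.sys1.lT (Polynomial Λ)
  rw [tmul_smul, tmul_zero] at s
  have key := main_abs hA δ h03 v rfl
    (by obtain ⟨k, hk⟩ := hy
        exact ⟨k, by
          simp only [hv, FZData.van]
          rw [Algebra.TensorProduct.tmul_pow, ← map_pow, hk]; simp⟩)
    (d.J1.lTensor (Polynomial Λ)) ((pd 1).lTensor _) (dP.rTensor _) (dP.rTensor _)
    (1 ⊗ₜ X 0) (Polynomial.X ⊗ₜ 1) (Polynomial.C ε ⊗ₜ 1) (Polynomial.C y ⊗ₜ 1) (1 ⊗ₜ X 1)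
    (Polynomial.X ⊗ₜ 1) s (dP_der.rT _) (dP_der.rT _)
    (by rw [Algebra.TensorProduct.tmul_pow, ← map_pow, hε]; simp)
    (rT_lT _ _) (lT_mul _ _) (lT_mul _ _) (lT_mul _ _)
    (by simp [pd_apply, pderiv_X]) (by simp [pd_apply]) (by simp [pd_apply])
    (by simp [pd_apply, Algebra.TensorProduct.one_def]) (by simp [pd_apply])
    (by simp [dP]) (by simp [dP, Algebra.TensorProduct.one_def]) (by simp [dP]) (by simp [dP])
    (by simp [dP]) (evT 0 _) (evT 1 _) (evT 0 _) (evT_lT 0 _)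
    (by simp [evT_tmul]) (by simp [evT_tmul, evP]) (by simp [evT_tmul, evP]) (by simp [evT_tmul])
    (by simp [evT_tmul, evP]) (by simp [dP, Algebra.TensorProduct.one_def])
    (by simp [hv, FZData.van, dP]) (rT_lT _ _) (evT_lT 0 _) (by simp [evT_tmul, evP])
    (by simp [evT_tmul, evP, Algebra.TensorProduct.one_def])
    (by simp [hv, FZData.van, evT_tmul, evP]) ev_const
    (fun x => by
      induction x with
      | zero => simp
      | add x y h1 h2 => simp only [map_add, h1, h2]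
      | tmul p x =>
        have : (Polynomial.aeval (1 : Λ)) (evP (1 : Λ) p) = Polynomial.aeval (1 : Λ) p := by
          simp [evP, ← Polynomial.aeval_algHom_apply]
        simp only [hv, FZData.van, evT_tmul, FZData.pr2_tmul, FZData.pL, AlgHom.comp_apply,
          AlgHom.restrictScalars_apply, this])
    (fun i => ι0 (d.b.P (d.m i 0 0)))
    (fun i => by
      rw [Algebra.TensorProduct.tmul_pow, LinearMap.lTensor_tmul, d.J1_X0, one_pow]
      exact pι _)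
    (fun f => by
      induction f with
      | zero => simp
      | add x y h1 h2 => rw [mul_add, map_add, map_add, h1, h2, add_zero]
      | tmul p q => simp [hv, FZData.van, FZData.pr2_tmul, d.pr1_J1])
    (v.b ^ 3 * ι (d.m 0 3 0) + 3 * v.b ^ 2 * ι (d.m 0 2 1) + 3 * v.b * ι (d.m 0 1 2) +
      ι (d.m 0 0 3))
    (v.b * ι (d.m 1 1 0) + ι (d.m 1 0 1))
    (by
      rw [Algebra.TensorProduct.tmul_pow, LinearMap.lTensor_tmul, d.J1_cub, one_pow, hj, d.m002,
        two_smul, tmul_add]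
      simp only [map_add, map_mul, jp, map_ofNat, ← va, ← vb, ← vι, vΘ]
      ring)
    (by
      rw [Algebra.TensorProduct.tmul_mul_tmul, LinearMap.lTensor_tmul, d.J1_lin, one_mul, hj,
        d.m100, tmul_smul, va, vb, vι, vι, ← map_mul]
      simp only [map_add, map_smul, Algebra.TensorProduct.tmul_mul_tmul, mul_one, one_mul,
        add_assoc])
    (by
      have := d.J1_X0 1
      rw [pow_one] at this
      rw [LinearMap.lTensor_tmul, this, d.m100, tmul_smul, tmul_smul]; rfl)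
  rw [pε, py] at key
  rw [← key]
  refine v.vanish ι (by rw [vΘ, ← ιp, d.b.om_pow, map_zero]) d.b.L
    (fun w => by simp [hv, hι, FZData.van, d.L1_tmul, pd_apply])
    (fun w => by simp [hv, hι, FZData.van, pd_apply])
    (fun w => by simp [hv, hι, FZData.van, pd_apply]) lam hr
    (fun ν s w h => by rw [pε, py, pι]; exact hl ν s _ h) δ (v.MM_exp ι δ ?_)
  have g1 := v.MM_gen ι δ 1 0 0 3 0 _ (Nι 0 3 0) rfl
  have g2 := v.MM_gen ι δ 1 0 0 2 1 _ (Nι 0 2 1) rfl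
  have g3 := v.MM_gen ι δ 1 0 0 1 2 _ (Nι 0 1 2) rfl
  have g4 := v.MM_gen ι δ 1 0 0 0 3 _ (Nι 0 0 3) rfl
  have g5 := v.MM_gen ι δ 0 1 1 0 0 1 (by rw [ι1, v.hN.one]; ring) rfl
  have g6 := v.MM_gen ι δ 2 1 0 1 0 _ (Nι 1 1 0) rfl
  have g7 := v.MM_gen ι δ 2 1 0 0 1 _ (Nι 1 0 1) rfl
  have := add_mem (add_mem (Submodule.smul_mem _ ((δ : ℚ) / 6) (add_mem (add_mem (add_mem g1
    (nsmul_mem g2 3)) (nsmul_mem g3 3)) g4)) (Submodule.smul_mem _ (2 * (g : ℚ) - 2) g5))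
    (nsmul_mem (add_mem g6 g7) δ)
  refine (congrArg (· ∈ v.MM ι δ) ?_).mp this
  rw [Van.rest, ι1]
  generalize ι (d.m 0 3 0) = z1, ι (d.m 0 2 1) = z2, ι (d.m 0 1 2) = z3, ι (d.m 0 0 3) = z4,
    ι (d.m 1 1 0) = z5, ι (d.m 1 0 1) = z6
  congr 2
  · congr 1; ring
  · congr 1; ring
  · ring

theorem fz_data : FZ g fun m => d.b.P (d.m (m + 1) 0 0) := by
  intro N T δ S r s t hA h03 hr hs ht
  let Λ := P2 ⧸ Ideal.span ({X 0 ^ N, X 1 ^ S} : Set P2)
  let ψ := trMk A S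
  let ι : Tr A S →ₐ[ℚ] Tr (Tr A S) N := (trMk (Tr A S) N).comp Polynomial.CAlgHom
  have hι : ∀ w, ι w = trMk (Tr A S) N (Polynomial.C w) := fun _ => rfl
  let e := trMk (Tr A S) N Polynomial.X
  let pΛ : Λ →ₐ[ℚ] Tr (Tr A S) N := Ideal.Quotient.liftₐ _ (aeval ![e, ι (ψ Polynomial.X)]) (by
    intro a ha
    refine (RingHom.mem_ker.1 ((Ideal.span_le (I := RingHom.ker
      (aeval ![e, ι (ψ Polynomial.X)] : P2 →ₐ[ℚ] _))).2 ?_ ha))
    rintro x (rfl | rfl)
    · simpa [RingHom.mem_ker] using trMk_nil N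
    · simp only [SetLike.mem_coe, RingHom.mem_ker, map_pow, aeval_X, Matrix.cons_val_one,
        Matrix.cons_val_zero]
      rw [← map_pow, trMk_nil, map_zero])
  have pp : ∀ x, pΛ (Ideal.Quotient.mk _ x) = aeval ![e, ι (ψ Polynomial.X)] x := fun _ => rfl
  have p0 : pΛ (Ideal.Quotient.mk _ (X 0)) = e := by simp [pp]
  have p1 : pΛ (Ideal.Quotient.mk _ (X 1)) = ι (ψ Polynomial.X) := by simp [pp]
  have key := main_conc d hA δ h03 pΛ
    (ι.comp (ψ.comp Polynomial.CAlgHom)) (Ideal.Quotient.mk _ (X 0))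
    (Ideal.Quotient.mk _ (X 1))
    (by rw [← map_pow, Ideal.Quotient.eq_zero_iff_mem]; exact Ideal.subset_span (by simp))
    ⟨S, by rw [← map_pow, Ideal.Quotient.eq_zero_iff_mem]; exact Ideal.subset_span (by simp)⟩
    (cf S s ∘ₗ cf N (5 * r)) ht (fun ν s' w h => by
      rw [p0, p1, AlgHom.comp_apply ι, ← map_pow ι, ← map_mul ι, LinearMap.comp_apply,
        ← mul_one (_ * ι _), hι, cf_shift hr]
      split_ifs with h1
      · rw [cf_one (by omega)]
        split_ifs with h2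
        · rw [AlgHom.comp_apply, mul_one, ← map_pow, ← map_mul, cf_mk hs,
            Polynomial.coeff_X_pow_mul']
          split_ifs with h3
          · exact Polynomial.coeff_C_of_ne_zero (by omega)
          · rfl
        · simp
      · simp)
  rw [p0, p1, LinearMap.comp_apply] at key
  have := extract g N S δ hA ψ ι (trMk_nil N) (trMk_nil S) (cf N) (fun ν h => cf_shift h)
    (fun ν h => cf_one h) (fun i => d.b.P (d.m i 0 0)) (by rw [d.m100, map_smul, map_one]) r hr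
  rw [← cf_mk hs, ← this]
  exact key

end Pool.Agent.FP.Z

namespace Pool.Agent.FP

theorem fzStmt : FZStmt := by
  intro g O T _ _ _ _ F
  have := Z.fz_data (Z.ofFrob F)
  simp only [Z.ofFrob_κ] at this
  exact this

end Pool.Agent.FP
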