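import Pool.Agent.FP.FinT24
import Pool.Agent.FP.FinT25

/-! The statement on the socles used in the numerical layer. -/

namespace Pool.Agent.FP.Fn

/-- The relations force all monomials of top degree to be known multiples of one class. -/
def SocStmt : Prop :=
  ∀ (O : Type) [CommRing O] [Algebra ℚ O] (κ : ℕ → O),
    (FZ 24 κ → Soc 22 t24.get fun m => ((-1 : ℚ) ^ (m + 1)) • κ m) ∧
    (FZ 25 κ → Soc 23 t25.get fun m => ((-1 : ℚ) ^ (m + 1)) • κ m)

end Pool.Agent.FP.Fn
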