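import Pool.Agent.FP.ZU24a
import Pool.Agent.FP.ZU24b
import Pool.Agent.FP.ZU24c
import Pool.Agent.FP.FinT24

/-! Data. -/

namespace Pool.Agent.FP.Z

open Fn

def c24llll : Tr := (.node (.node (.node (.node (.node (.node .leaf 79 1000 .leaf) 146 999 (.node .leaf 213 997 .leaf)) 284 998 (.node (.node .leaf 335 994 .leaf) 402 995 (.node .leaf 427 989 .leaf))) 536 996 (.node (.node (.node .leaf 549 991 .leaf) 610 990 (.node .leaf 649 982 .leaf)) 689 971 (.node (.node .leaf 732 992 .leaf) 799 956 (.node .leaf 817 931 .leaf)))) 826 983 (.node (.node (.node (.node .leaf 885 984 .leaf) 943 0 (.node .leaf 961 404 .leaf)) 976 993 (.node (.node .leaf 1062 986 .leaf) 1073 197 (.node .leaf 1113 973 .leaf))) 1166 972 (.node (.node (.node .leaf 1180 985 .leaf) 1222 957 (.node .leaf 1325 975 .leaf)) 1416 987 (.node (.node .leaf 1431 978 .leaf) 1462 932 (.node .leaf 1484 974 .leaf))))) 1551 958 (.node (.node (.node (.node (.node .leaf 1558 101 .leaf) 1590 976 (.node .leaf 1645 960 .leaf)) 1677 933 (.node (.node .leaf 1702 1 .leaf)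 1798 198 (.node .leaf 1888 988 .leaf))) 1908 979 (.node (.node (.node .leaf 1974 961 .leaf) 2068 959 (.node .leaf 2091 861 .leaf)) 2107 938 (.node (.node .leaf 2109 268 .leaf) 2115 964 (.node .leaf 2120 977 .leaf)))) 2139 2 (.node (.node (.node (.node .leaf 2236 934 .leaf) 2350 963 (.node .leaf 2365 935 .leaf)) 2523 199 (.node (.node .leaf 2538 967 .leaf) 2544 980 (.node .leaf 2632 962 .leaf))) 2665 863 (.node (.node (.node .leaf 2709 940 .leaf) 2788 862 (.node .leaf 2812 102 .leaf)) 2820 965 (.node (.node .leaf 2838 936 .leaf) 2852 3 .leaf)))))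

def c24lllr : Tr := (.node (.node (.node (.node (.node (.node .leaf 3010 939 .leaf) 3145 337 (.node .leaf 3157 866 .leaf)) 3198 864 (.node (.node .leaf 3225 943 .leaf) 3335 4 (.node .leaf 3364 200 .leaf))) 3367 641 (.node (.node (.node .leaf 3384 968 .leaf) 3392 981 (.node .leaf 3483 948 .leaf)) 3534 103 (.node (.node .leaf 3612 941 .leaf) 3689 411 (.node .leaf 3703 7 .leaf)))) 3760 966 (.node (.node (.node (.node .leaf 3774 639 .leaf) 3784 937 (.node .leaf 3857 204 .leaf)) 3870 945 (.node (.node .leaf 4002 5 .leaf) 4018 871 (.node .leaf 4059 868 .leaf))) 4264 865 (.node (.node (.node .leaf 4300 944 .leaf) 4305 872 (.node .leaf 4329 643 .leaf)) 4433 416 (.node (.node .leaf 4477 646 .leaf) 4510 867 (.node .leaf 4512 969 .leaf))))) 4644 949 (.node (.node (.node (.node (.node .leaf 4693 953 .leaf) 4712 104 (.node .leaf 4743 338 .leaf)) 4761 9 (.node (.node .leaf 4807 12 .leaf) 4810 642 (.node .leaf 4816 942 .leaf))) 4901 216 (.node (.node (.node .leaf 4959 206 .leaf) 5032 640 (.node .leaf 5083 19 .leaf)) 5125 877 (.node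 (.node .leaf 5160 946 .leaf) 5166 874 (.node .leaf 5270 269 .leaf)))) 5290 8 (.node (.node (.node (.node .leaf 5336 6 .leaf) 5412 869 (.node .leaf 5423 209 .leaf)) 5439 653 (.node (.node .leaf 5491 955 .leaf) 5510 105 (.node .leaf 5535 880 .leaf))) 5642 407 (.node (.node (.node .leaf 5698 647 .leaf) 5740 873 (.node .leaf 5772 644 .leaf)) 6016 970 (.node (.node .leaf 6045 409 .leaf) 6105 648 .leaf)))))

def c24lll : Tr := .node c24llll 2945 408 c24lllr

def c24llrl : Tr := (.node (.node (.node (.node (.node (.node .leaf 6150 878 .leaf) 6192 950 (.node .leaf 6324 405 .leaf)) 6348 10 (.node (.node .leaf 6475 655 .leaf) 6555 14 (.node .leaf 6612 106 .leaf))) 6642 884 (.node (.node (.node .leaf 6880 947 .leaf) 6888 875 (.node .leaf 6902 210 .leaf)) 6993 658 (.node (.node .leaf 7161 417 .leaf) 7216 870 (.node .leaf 7252 654 .leaf)))) 7254 412 (.node (.node (.node (.node .leaf 7326 650 .leaf) 7380 881 (.node .leaf 7395 201 .leaf)) 7502 415 (.node (.node .leaf 7581 275 .leaf) 7595 433 (.node .leaf 7696 645 .leaf))) 7770 656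 (.node (.node (.node .leaf 7774 30 .leaf) 7866 16 (.node .leaf 7917 218 .leaf)) 7942 113 (.node (.node .leaf 8060 410 .leaf) 8140 649 (.node .leaf 8200 879 .leaf))))) 8211 21 (.node (.node (.node (.node (.node .leaf 8256 951 .leaf) 8294 217 (.node .leaf 8325 663 .leaf)) 8398 120 (.node (.node .leaf 8432 406 .leaf) 8464 11 (.node .leaf 8525 426 .leaf))) 8602 20 (.node (.node (.node .leaf 8740 15 .leaf) 8816 107 (.node .leaf 8856 885 .leaf)) 8874 202 (.node (.node .leaf 8991 670 .leaf) 9025 453 (.node .leaf 9114 425 .leaf)))) 9184 876 (.node (.node (.node (.node .leaf 9207 421 .leaf) 9250 662 (.node .leaf 9324 659 .leaf)) 9425 211 (.node (.node .leaf 9548 418 .leaf) 9633 287 (.node .leaf 9672 413 .leaf))) 9747 270 (.node (.node (.node .leaf 9765 429 .leaf) 9768 651 (.node .leaf 9775 23 .leaf)) 9826 954 (.node (.node .leaf 9840 882 .leaf) 9860 205 .leaf)))))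

def c24llrr : Tr := (.node (.node (.node (.node (.node (.node .leaf 9947 240 .leaf) 9990 666 (.node .leaf 10108 108 .leaf)) 10179 223 (.node (.node .leaf 10230 419 .leaf) 10360 657 (.node .leaf 10465 33 .leaf))) 10488 17 (.node (.node (.node .leaf 10527 227 .leaf) 10556 219 (.node .leaf 10557 26 .leaf)) 10659 280 (.node (.node .leaf 10830 115 .leaf) 10850 428 (.node .leaf 10948 22 .leaf)))) 11008 952 (.node (.node (.node (.node .leaf 11100 664 .leaf) 11165 215 (.node .leaf 11271 889 .leaf)) 11305 344 (.node (.node .leaf 11310 208 .leaf) 11625 437 (.node .leaf 11718 432 .leaf))) 11730 24 (.node (.node (.node .leaf 11808 886 .leaf) 11832 203 (.node .leaf 11988 671 .leaf)) 12103 460 (.node (.node .leaf 12152 427 .leaf) 12276 422 .leaf)))) 12397 47 (.node (.node (.node (.node (.node .leaf 12432 660 .leaf) 12555 442 (.node .leaf 12558 34 .leaf)) 12789 242 (.node (.node .leaf 12844 131 .leaf) 12896 414 (.node .leaf 12996 110 .leaf))) 13020 430 (.node (.node (.node .leaf 13024 652 .leaf) 13120 883 (.node .leaf 13156 32 .leaf))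 13320 667 (.node (.node .leaf 13398 221 .leaf) 13455 37 (.node .leaf 13566 114 .leaf)))) 13572 213 (.node (.node (.node (.node .leaf 13585 457 .leaf) 13640 420 (.node .leaf 13915 44 .leaf)) 13950 439 (.node (.node .leaf 13984 18 .leaf) 14036 228 (.node .leaf 14076 27 .leaf))) 14161 501 (.node (.node (.node .leaf 14210 233 .leaf) 14212 121 (.node .leaf 14355 229 .leaf)) 14365 356 (.node (.node .leaf 14440 109 .leaf) 14535 272 .leaf)))))

def c24llr : Tr := .node c24llrl 9867 31 c24llrr

def c24ll : Tr := .node c24lll 6118 13 c24llr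

def c24lrll : Tr := (.node (.node (.node (.node (.node (.node .leaf 14950 36 .leaf) 15028 890 (.node .leaf 15066 447 .leaf)) 15080 212 (.node (.node .leaf 15225 235 .leaf) 15379 715 (.node .leaf 15500 438 .leaf))) 15561 277 (.node (.node (.node .leaf 15624 434 .leaf) 15640 25 (.node .leaf 15744 887 .leaf)) 15776 207 (.node (.node .leaf 15778 62 .leaf) 15895 349 (.node .leaf 15939 49 .leaf)))) 15950 222 (.node (.node (.node (.node .leaf 15984 672 .leaf) 16093 676 (.node .leaf 16146 40 .leaf)) 16150 124 (.node (.node .leaf 16302 132 .leaf) 16368 423 (.node .leaf 16443 250 .leaf))) 16576 661 (.node (.node (.node .leaf 16698 45 .leaf) 16740 443 (.node .leaf 16744 35 .leaf)) 16905 63 (.node (.node .leaf 17017 505 .leaf) 17052 234 (.node .leaf 17226 230 .leaf))))) 17238 713 (.node (.node (.node (.node (.node .leaf 17290 123 .leaf) 17328 111 (.node .leaf 17360 431 .leaf)) 17442 117 (.node (.node .leaf 17710 48 .leaf) 17760 668 (.node .leaf 17864 224 .leaf))) 17940 38 (.node (.node (.node .leaf 18088 122 .leaf) 18096 214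 (.node .leaf 18125 248 .leaf)) 18207 350 (.node (.node .leaf 18270 238 .leaf) 18525 276 (.node .leaf 18600 440 .leaf)))) 18768 28 (.node (.node (.node (.node .leaf 18975 52 .leaf) 19074 677 (.node .leaf 19140 225 .leaf)) 19380 116 (.node (.node .leaf 19551 311 .leaf) 19575 252 (.node .leaf 19773 681 .leaf))) 20007 289 (.node (.node (.node .leaf 20088 448 .leaf) 20125 68 (.node .leaf 20230 281 .leaf)) 20286 65 (.node (.node .leaf 20300 241 .leaf) 20449 551 .leaf)))))

def c24lrlr : Tr := (.node (.node (.node (.node (.node (.node .leaf 20493 57 .leaf) 20691 294 (.node .leaf 20748 134 .leaf)) 20832 435 (.node (.node .leaf 20992 888 .leaf) 21141 265 (.node .leaf 21252 50 .leaf))) 21312 673 (.node (.node (.node .leaf 21528 41 .leaf) 21658 456 (.node .leaf 21675 339 .leaf)) 21735 71 (.node (.node .leaf 21736 133 .leaf) 21750 249 (.node .leaf 21824 424 .leaf)))) 21879 357 (.node (.node (.node (.node .leaf 21924 244 .leaf) 21945 282 (.node .leaf 21970 680 .leaf)) 22230 128 (.node (.node .leaf 22264 46 .leaf) 22320 444 (.node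 .leaf 22540 64 .leaf))) 22627 679 (.node (.node (.node .leaf 22736 237 .leaf) 22770 54 (.node .leaf 22968 231 .leaf)) 22984 714 (.node (.node .leaf 22990 145 .leaf) 23104 112 (.node .leaf 23205 343 .leaf))))) 23256 118 (.node (.node (.node (.node (.node .leaf 23275 475 .leaf) 23409 340 (.node .leaf 23490 256 .leaf)) 23680 669 (.node (.node .leaf 23920 39 .leaf) 24128 220 (.node .leaf 24150 69 .leaf))) 24276 454 (.node (.node (.node .leaf 24310 288 .leaf) 24360 239 (.node .leaf 24700 126 .leaf)) 24800 441 (.node (.node .leaf 24843 513 .leaf) 25024 29 (.node .leaf 25137 298 .leaf)))) 25300 53 (.node (.node (.node (.node .leaf 25432 678 .leaf) 25520 226 (.node .leaf 25840 125 .leaf)) 25875 81 (.node (.node .leaf 26010 273 .leaf) 26026 512 (.node .leaf 26068 152 .leaf))) 26082 75 (.node (.node (.node .leaf 26100 253 .leaf) 26125 465 (.node .leaf 26334 142 .leaf)) 26364 682 (.node (.node .leaf 26676 138 .leaf) 26784 449 .leaf)))))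

def c24lrl : Tr := .node c24lrll 20482 136 c24lrlr

def c24lrrl : Tr := (.node (.node (.node (.node (.node (.node .leaf 27324 58 .leaf) 27489 463 (.node .leaf 27588 146 .leaf)) 27625 346 (.node (.node .leaf 27664 135 .leaf) 27776 436 (.node .leaf 27846 345 .leaf))) 27885 469 (.node (.node (.node .leaf 27930 163 .leaf) 27945 88 (.node .leaf 28188 261 .leaf)) 28215 291 (.node (.node .leaf 28336 51 .leaf) 28416 674 (.node .leaf 28704 42 .leaf)))) 28750 80 (.node (.node (.node (.node .leaf 28798 461 .leaf) 28900 271 (.node .leaf 28980 72 .leaf)) 29000 251 (.node (.node .leaf 29155 380 .leaf) 29172 548 (.node .leaf 29232 245 .leaf))) 29260 140 (.node (.node (.node .leaf 29575 554 .leaf) 29640 129 (.node .leaf 29760 445 .leaf)) 29835 347 (.node (.node .leaf 29925 300 .leaf) 30360 55 (.node .leaf 30624 232 .leaf))))) 30855 353 (.node (.node (.node (.node (.node .leaf 30940 283 .leaf) 31008 119 (.node .leaf 31050 84 .leaf)) 31212 341 (.node (.node .leaf 31213 562 .leaf) 31320 257 (.node .leaf 31350 153 .leaf))) 31941 515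 (.node (.node (.node .leaf 32200 70 .leaf) 32319 313 (.node .leaf 32368 455 .leaf)) 32480 243 (.node (.node .leaf 32725 355 .leaf) 33033 516 (.node .leaf 33124 514 .leaf)))) 33150 279 (.node (.node (.node (.node .leaf 33250 164 .leaf) 33462 471 (.node .leaf 33516 160 .leaf)) 33534 94 (.node (.node .leaf 33858 154 .leaf) 34500 82 (.node .leaf 34606 602 .leaf))) 34680 274 (.node (.node (.node .leaf 34776 76 .leaf) 34800 254 (.node .leaf 34986 467 .leaf)) 35035 519 (.node (.node .leaf 35112 143 .leaf) 35152 683 .leaf)))))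

def c24lrrr : Tr := (.node (.node (.node (.node (.node (.node .leaf 35490 365 .leaf) 35568 137 (.node .leaf 35625 304 .leaf)) 35712 450 (.node (.node .leaf 35802 348 .leaf) 35910 166 (.node .leaf 36064 67 .leaf))) 36432 59 (.node (.node (.node .leaf 36652 462 .leaf) 36784 147 (.node .leaf 37026 354 .leaf)) 37128 458 (.node (.node .leaf 37180 470 .leaf) 37240 157 (.node .leaf 37260 89 .leaf)))) 37485 367 (.node (.node (.node (.node .leaf 37584 262 .leaf) 37620 149 (.node .leaf 37888 675 .leaf)) 38025 595 (.node (.node .leaf 38272 43 .leaf) 38475 316 (.node .leaf 38640 73 .leaf))) 38896 550 (.node (.node (.node .leaf 38976 246 .leaf) 39270 293 (.node .leaf 39325 518 .leaf)) 39520 130 (.node (.node .leaf 39680 446 .leaf) 39780 285 .leaf)))) 39900 165 (.node (.node (.node (.node (.node .leaf 40131 524 .leaf) 40480 56 (.node .leaf 40832 236 .leaf)) 41067 684 (.node (.node .leaf 41140 292 .leaf) 41344 127 (.node .leaf 41400 85 .leaf))) 41503 693 (.node (.node (.node .leaf 41553 321 .leaf) 41616 342 (.node .leaf 41650 312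 .leaf)) 41760 258 (.node (.node .leaf 41800 148 .leaf) 42042 520 (.node .leaf 42075 360 .leaf)))) 42250 557 (.node (.node (.node (.node .leaf 42471 479 .leaf) 42588 555 (.node .leaf 42750 177 .leaf)) 43092 171 (.node (.node .leaf 43923 691 .leaf) 44044 517 (.node .leaf 44200 284 .leaf))) 44590 384 (.node (.node (.node .leaf 44616 552 .leaf) 44625 370 (.node .leaf 44688 161 .leaf)) 44712 95 (.node (.node .leaf 44982 368 .leaf) 45045 481 .leaf)))))

def c24lrr : Tr := .node c24lrrl 35343 358 c24lrrr

def c24lr : Tr := .node c24lrl 27048 66 c24lrr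

def c24l : Tr := .node c24ll 14800 665 c24lr

def c24rlll : Tr := (.node (.node (.node (.node (.node (.node .leaf 45441 361 .leaf) 45630 598 (.node .leaf 46000 83 .leaf)) 46170 184 (.node (.node .leaf 46240 278 .leaf) 46368 77 (.node .leaf 46400 255 .leaf))) 46585 580 (.node (.node (.node .leaf 46648 468 .leaf) 46750 303 (.node .leaf 46816 144 .leaf)) 47124 359 (.node (.node .leaf 47190 477 .leaf) 47320 366 (.node .leaf 47424 139 .leaf)))) 47500 175 (.node (.node (.node (.node .leaf 47616 451 .leaf) 47736 351 (.node .leaf 47775 527 .leaf)) 47880 167 (.node (.node .leaf 48195 371 .leaf) 48576 60 (.node .leaf 49368 507 .leaf))) 49504 459 (.node (.node (.node .leaf 49680 90 .leaf) 49980 306 (.node .leaf 50050 375 .leaf)) 50112 263 (.node (.node .leaf 50160 150 .leaf) 50421 766 (.node .leaf 50490 299 .leaf))))) 50700 596 (.node (.node (.node (.node (.node .leaf 51300 180 .leaf) 51520 74 (.node .leaf 51597 528 .leaf)) 51968 247 (.node (.node .leaf 52360 295 .leaf) 52822 699 (.node .leaf 53040 286 .leaf))) 53125 377 (.node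 (.node (.node .leaf 53200 169 .leaf) 53361 544 (.node .leaf 53508 526 .leaf)) 53550 309 (.node (.node .leaf 53625 484 .leaf) 54054 482 (.node .leaf 54756 685 .leaf)))) 55200 86 (.node (.node (.node (.node .leaf 55404 190 .leaf) 55488 502 (.node .leaf 55680 259 .leaf)) 55902 541 (.node (.node .leaf 56056 521 .leaf) 56100 296 (.node .leaf 56595 592 .leaf))) 56628 480 (.node (.node (.node .leaf 56784 556 .leaf) 56875 563 (.node .leaf 57000 178 .leaf)) 57330 391 (.node (.node .leaf 57375 381 .leaf) 57456 172 .leaf)))))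

def c24rllr : Tr := (.node (.node (.node (.node (.node (.node .leaf 57915 489 .leaf) 58564 692 (.node .leaf 59290 543 .leaf)) 59488 553 (.node (.node .leaf 59500 308 .leaf) 59584 162 (.node .leaf 59616 96 .leaf))) 59895 581 (.node (.node (.node .leaf 59976 369 .leaf) 60025 768 (.node .leaf 60060 378 .leaf)) 60192 156 (.node (.node .leaf 60588 362 .leaf) 60840 599 (.node .leaf 61425 533 .leaf)))) 61560 185 (.node (.node (.node (.node .leaf 61824 78 .leaf) 61965 382 (.node .leaf 62832 464 .leaf)) 62920 478 (.node (.node .leaf 63232 141 .leaf) 63488 452 (.node .leaf 63525 583 .leaf))) 63648 352 (.node (.node (.node .leaf 63700 389 .leaf) 63750 320 (.node .leaf 63840 168 .leaf)) 64260 315 (.node (.node .leaf 64350 486 .leaf) 64768 61 (.node .leaf 64827 770 .leaf))))) 65824 549 (.node (.node (.node (.node (.node .leaf 66240 91 .leaf) 66339 534 (.node .leaf 66550 498 .leaf)) 66640 307 (.node (.node .leaf 66816 264 .leaf) 66880 151 (.node .leaf 67228 767 .leaf))) 67320 301 (.node (.node (.node .leaf 67375 635 .leaf) 67600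 597 (.node .leaf 67914 633 .leaf)) 68250 394 (.node (.node .leaf 68400 181 .leaf) 68607 587 (.node .leaf 68796 529 .leaf)))) 68850 326 (.node (.node (.node (.node .leaf 69498 493 .leaf) 70720 290 (.node .leaf 71148 545 .leaf)) 71344 525 (.node (.node .leaf 71400 310 .leaf) 71500 485 (.node .leaf 71874 582 .leaf))) 72030 769 (.node (.node (.node .leaf 72072 483 .leaf) 72765 638 (.node .leaf 73008 686 .leaf)) 73125 568 (.node (.node .leaf 73600 87 .leaf) 73710 399 .leaf)))))

def c24rll : Tr := .node c24rlll 57834 372 c24rllr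

def c24rlrl : Tr := (.node (.node (.node (.node (.node (.node .leaf 73984 503 .leaf) 74240 260 (.node .leaf 74358 383 .leaf)) 74536 542 (.node (.node .leaf 74800 297 .leaf) 75460 593 (.node .leaf 75504 558 .leaf))) 75625 619 (.node (.node (.node .leaf 75712 594 .leaf) 76000 179 (.node .leaf 76230 584 .leaf)) 76440 392 (.node (.node .leaf 76500 323 .leaf) 76608 173 (.node .leaf 77112 373 .leaf)))) 77175 776 (.node (.node (.node (.node .leaf 77220 490 .leaf) 78975 572 (.node .leaf 79488 97 .leaf)) 79860 499 (.node (.node .leaf 79968 472 .leaf) 80080 379 (.node .leaf 80256 158 .leaf))) 80784 363 (.node (.node (.node .leaf 80850 636 .leaf) 81120 600 (.node .leaf 81250 538 .leaf)) 81675 622 (.node (.node .leaf 81900 396 .leaf) 82080 186 (.node .leaf 82432 79 .leaf))))) 82620 331 (.node (.node (.node (.node (.node .leaf 83349 783 .leaf) 83776 466 (.node .leaf 84700 547 .leaf)) 84864 504 (.node (.node .leaf 85000 322 .leaf) 85120 170 (.node .leaf 85293 690 .leaf))) 85680 317 (.node (.node (.node .leaf 85750 775 .leaf) 85800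 487 (.node .leaf 86436 772 .leaf)) 86625 710 (.node (.node .leaf 87318 704 .leaf) 87750 567 (.node .leaf 88209 631 .leaf)))) 88320 92 (.node (.node (.node (.node .leaf 88452 535 .leaf) 89088 266 (.node .leaf 89760 302 .leaf)) 90552 634 (.node (.node .leaf 90750 620 .leaf) 91000 395 (.node .leaf 91200 182 .leaf))) 91476 588 (.node (.node (.node .leaf 91728 530 .leaf) 91800 327 (.node .leaf 91875 789 .leaf)) 92610 779 (.node (.node .leaf 92664 495 .leaf) 93555 720 .leaf)))))

def c24rlrr : Tr := (.node (.node (.node (.node (.node (.node .leaf 94864 546 .leaf) 95200 314 (.node .leaf 95832 616 .leaf)) 96040 771 (.node (.node .leaf 96096 522 .leaf) 96250 709 (.node .leaf 97020 701 .leaf))) 97344 687 (.node (.node (.node .leaf 97500 539 .leaf) 98010 626 (.node .leaf 98280 400 .leaf)) 98496 192 (.node (.node .leaf 99144 385 .leaf) 99225 794 (.node .leaf 100672 559 .leaf)))) 101640 585 (.node (.node (.node (.node .leaf 101920 393 .leaf) 102000 324 (.node .leaf 102144 174 .leaf)) 102816 374 (.node (.node .leaf 102900 777 .leaf)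 102960 491 (.node .leaf 103125 733 .leaf))) 103950 716 (.node (.node (.node .leaf 105300 573 .leaf) 105984 98 (.node .leaf 106480 500 .leaf)) 106624 473 (.node (.node .leaf 107008 159 .leaf) 107163 805 .leaf)))) 107712 364 (.node (.node (.node (.node (.node .leaf 107800 637 .leaf) 108160 601 (.node .leaf 108900 623 .leaf)) 109200 397 (.node (.node .leaf 109375 813 .leaf) 109440 187 (.node .leaf 110160 332 .leaf))) 110250 791 (.node (.node (.node .leaf 111132 784 .leaf) 111375 738 (.node .leaf 112266 726 .leaf)) 113152 506 (.node (.node .leaf 113724 608 .leaf) 114240 318 (.node .leaf 114400 488 .leaf)))) 115248 773 (.node (.node (.node (.node .leaf 115500 711 .leaf) 116424 705 (.node .leaf 117000 569 .leaf)) 117612 632 (.node (.node .leaf 117760 93 .leaf) 117936 536 (.node .leaf 118125 816 .leaf))) 118784 267 (.node (.node (.node .leaf 119070 799 .leaf) 119680 305 (.node .leaf 120285 749 .leaf)) 120736 700 (.node (.node .leaf 121000 621 .leaf) 121600 183 .leaf)))))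

def c24rlr : Tr := .node c24rlrl 94770 578 c24rlrr

def c24rl : Tr := .node c24rll 73872 191 c24rlr

def c24rrll : Tr := (.node (.node (.node (.node (.node (.node .leaf 122304 531 .leaf) 122400 328 (.node .leaf 122500 790 .leaf)) 123480 780 (.node (.node .leaf 123552 496 .leaf) 123750 735 (.node .leaf 124740 721 .leaf))) 126360 579 (.node (.node (.node .leaf 127575 825 .leaf) 127776 617 (.node .leaf 128128 523 .leaf)) 129360 702 (.node (.node .leaf 129792 688 .leaf) 130000 540 (.node .leaf 130680 627 .leaf)))) 131040 401 (.node (.node (.node (.node .leaf 131250 814 .leaf) 131328 193 (.node .leaf 132192 386 .leaf)) 132300 795 (.node (.node .leaf 133650 743 .leaf) 135520 586 (.node .leaf 136000 325 .leaf))) 136192 176 (.node (.node (.node .leaf 137088 376 .leaf) 137200 778 (.node .leaf 137280 492 .leaf)) 137500 734 (.node (.node .leaf 137781 840 .leaf) 138600 717 (.node .leaf 140400 574 .leaf))))) 140625 851 (.node (.node (.node (.node (.node .leaf 141312 99 .leaf) 141750 820 (.node .leaf 142884 806 .leaf)) 143616 508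 (.node (.node .leaf 144342 757 .leaf) 145200 624 (.node .leaf 145600 398 .leaf))) 145920 188 (.node (.node (.node .leaf 146880 333 .leaf) 147000 792 (.node .leaf 148176 785 .leaf)) 148500 739 (.node (.node .leaf 149688 727 .leaf) 151632 609 (.node .leaf 151875 858 .leaf)))) 152320 319 (.node (.node (.node (.node .leaf 153090 832 .leaf) 153664 774 (.node .leaf 154000 712 .leaf)) 155232 706 (.node (.node .leaf 156000 570 .leaf) 156250 850 (.node .leaf 156816 694 .leaf))) 157248 537 (.node (.node (.node .leaf 157500 817 .leaf) 158760 800 (.node .leaf 160380 750 .leaf)) 162624 590 (.node (.node .leaf 163072 532 .leaf) 163200 329 .leaf)))))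

def c24rrlr : Tr := (.node (.node (.node (.node (.node (.node .leaf 164640 781 .leaf) 164736 497 (.node .leaf 165000 736 .leaf)) 166320 722 (.node (.node .leaf 168480 603 .leaf) 168750 854 (.node .leaf 170100 826 .leaf))) 170368 618 (.node (.node (.node .leaf 172480 703 .leaf) 173056 689 (.node .leaf 174240 628 .leaf)) 174720 402 (.node (.node .leaf 175000 815 .leaf) 175104 194 (.node .leaf 176256 387 .leaf)))) 176400 796 (.node (.node (.node (.node .leaf 177147 920 .leaf) 178200 744 (.node .leaf 182250 894 .leaf)) 182784 474 (.node (.node .leaf 183040 494 .leaf) 183708 841 (.node .leaf 184800 718 .leaf))) 187200 575 (.node (.node (.node .leaf 187500 852 .leaf) 188416 100 (.node .leaf 189000 821 .leaf)) 190512 807 (.node (.node .leaf 191488 509 .leaf) 192456 758 .leaf)))) 193600 625 (.node (.node (.node (.node (.node .leaf 194560 189 .leaf) 195840 334 (.node .leaf 196000 793 .leaf)) 196830 910 (.node (.node .leaf 197568 786 .leaf) 198000 741 (.node .leaf 199584 729 .leaf))) 202176 610 (.node (.node (.node .leaf 202500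 859 .leaf) 204120 833 (.node .leaf 206976 707 .leaf)) 208000 571 (.node (.node .leaf 209088 695 .leaf) 209664 564 (.node .leaf 210000 818 .leaf)))) 211680 801 (.node (.node (.node (.node .leaf 213840 751 .leaf) 216832 591 (.node .leaf 217600 330 .leaf)) 218700 902 (.node (.node .leaf 219520 782 .leaf) 219648 560 (.node .leaf 220000 737 .leaf))) 221760 723 (.node (.node (.node .leaf 224640 604 .leaf) 225000 855 (.node .leaf 226800 827 .leaf)) 232320 629 (.node (.node .leaf 232960 403 .leaf) 233472 195 .leaf)))))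

def c24rrl : Tr := .node c24rrll 164025 901 c24rrlr

def c24rrrl : Tr := (.node (.node (.node (.node (.node (.node .leaf 235200 797 .leaf) 236196 921 (.node .leaf 237600 745 .leaf)) 243000 895 (.node (.node .leaf 243712 476 .leaf) 244944 842 (.node .leaf 246400 719 .leaf))) 249600 576 (.node (.node (.node .leaf 250000 853 .leaf) 252000 822 (.node .leaf 254016 808 .leaf)) 256608 759 (.node (.node .leaf 261120 335 .leaf) 262440 911 (.node .leaf 263424 787 .leaf)))) 264000 740 (.node (.node (.node (.node .leaf 266112 728 .leaf) 269568 611 (.node .leaf 270000 860 .leaf)) 272160 834 (.node (.node .leaf 275968 708 .leaf) 278784 696 (.node .leaf 279552 565 .leaf))) 280000 819 (.node (.node (.node .leaf 282240 802 .leaf) 285120 752 (.node .leaf 291600 903 .leaf)) 292864 561 (.node (.node .leaf 295680 724 .leaf) 299520 605 (.node .leaf 300000 856 .leaf))))) 302400 828 (.node (.node (.node (.node (.node .leaf 309760 630 .leaf) 311296 196 (.node .leaf 313344 390 .leaf)) 313600 798 (.node (.node .leaf 314928 922 .leaf) 316800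 746 (.node .leaf 324000 896 .leaf))) 326592 843 (.node (.node (.node .leaf 332800 577 .leaf) 336000 823 (.node .leaf 338688 809 .leaf)) 342144 760 (.node (.node .leaf 348160 336 .leaf) 349920 912 (.node .leaf 351232 788 .leaf)))) 352000 742 (.node (.node (.node (.node .leaf 354816 730 .leaf) 359424 612 (.node .leaf 360000 891 .leaf)) 362880 835 (.node (.node .leaf 371712 697 .leaf) 372736 566 (.node .leaf 376320 803 .leaf))) 380160 753 (.node (.node (.node .leaf 388800 904 .leaf) 394240 725 (.node .leaf 399360 606 .leaf)) 400000 857 (.node (.node .leaf 403200 829 .leaf) 417792 510 .leaf)))))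

def c24rrrr : Tr := (.node (.node (.node (.node (.node (.node .leaf 422400 747 .leaf) 432000 897 (.node .leaf 435456 844 .leaf)) 448000 824 (.node (.node .leaf 451584 811 .leaf) 456192 761 (.node .leaf 466560 913 .leaf))) 473088 731 (.node (.node (.node .leaf 479232 613 .leaf) 480000 893 (.node .leaf 483840 836 .leaf)) 495616 698 (.node (.node .leaf 501760 804 .leaf) 506880 755 (.node .leaf 518400 905 .leaf)))) 532480 607 (.node (.node (.node (.node .leaf 537600 830 .leaf) 557056 511 (.node .leaf 559872 924 .leaf)) 563200 748 (.node (.node .leaf 576000 898 .leaf) 580608 845 (.node .leaf 602112 810 .leaf))) 608256 762 (.node (.node (.node .leaf 622080 914 .leaf) 630784 732 (.node .leaf 638976 614 .leaf)) 640000 892 (.node (.node .leaf 645120 837 .leaf) 675840 754 .leaf)))) 691200 906 (.node (.node (.node (.node (.node .leaf 716800 831 .leaf) 746496 925 (.node .leaf 768000 899 .leaf)) 774144 846 (.node (.node .leaf 802816 812 .leaf) 811008 763 (.node .leaf 829440 915 .leaf))) 851968 615 (.node (.node (.node .leaf 860160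 838 .leaf) 901120 756 (.node .leaf 921600 907 .leaf)) 995328 926 (.node (.node .leaf 1024000 900 .leaf) 1032192 847 (.node .leaf 1081344 764 .leaf)))) 1105920 916 (.node (.node (.node (.node .leaf 1146880 839 .leaf) 1228800 908 (.node .leaf 1327104 927 .leaf)) 1376256 848 (.node (.node .leaf 1441792 765 .leaf) 1474560 917 (.node .leaf 1638400 909 .leaf))) 1769472 928 (.node (.node (.node .leaf 1835008 849 .leaf) 1966080 918 (.node .leaf 2359296 929 .leaf)) 2621440 919 (.node (.node .leaf 3145728 930 .leaf) 4194304 1001 .leaf)))))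

def c24rrr : Tr := .node c24rrrl 419904 923 c24rrrr

def c24rr : Tr := .node c24rrl 235008 388 c24rrr

def c24r : Tr := .node c24rl 121968 589 c24rr

def c24 : Tr := .node c24l 45144 155 c24r

def d24llll : Tr := (.node (.node (.node (.node (.node (.node .leaf 0 943 .leaf) 1 1702 (.node .leaf 2 2139 .leaf)) 3 2852 (.node (.node .leaf 4 3335 .leaf) 5 4002 (.node .leaf 6 5336 .leaf))) 7 3703 (.node (.node (.node .leaf 8 5290 .leaf) 9 4761 (.node .leaf 10 6348 .leaf)) 11 8464 (.node (.node .leaf 12 4807 .leaf) 13 6118 (.node .leaf 14 6555 .leaf)))) 15 8740 (.node (.node (.node (.node .leaf 16 7866 .leaf) 17 10488 (.node .leaf 18 13984 .leaf)) 19 5083 (.node (.node .leaf 20 8602 .leaf) 21 8211 (.node .leaf 22 10948 .leaf))) 23 9775 (.node (.node (.node .leaf 24 11730 .leaf) 25 15640 (.node .leaf 26 10557 .leaf)) 27 14076 (.node (.node .leaf 28 18768 .leaf) 29 25024 (.node .leaf 30 7774 .leaf))))) 31 9867 (.node (.node (.node (.node (.node .leaf 32 13156 .leaf) 33 10465 (.node .leaf 34 12558 .leaf)) 35 16744 (.node (.node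 .leaf 36 14950 .leaf) 37 13455 (.node .leaf 38 17940 .leaf))) 39 23920 (.node (.node (.node .leaf 40 16146 .leaf) 41 21528 (.node .leaf 42 28704 .leaf)) 43 38272 (.node (.node .leaf 44 13915 .leaf) 45 16698 (.node .leaf 46 22264 .leaf)))) 47 12397 (.node (.node (.node (.node .leaf 48 17710 .leaf) 49 15939 (.node .leaf 50 21252 .leaf)) 51 28336 (.node (.node .leaf 52 18975 .leaf) 53 25300 (.node .leaf 54 22770 .leaf))) 55 30360 (.node (.node (.node .leaf 56 40480 .leaf) 57 20493 (.node .leaf 58 27324 .leaf)) 59 36432 (.node (.node .leaf 60 48576 .leaf) 61 64768 .leaf)))))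

def d24lllr : Tr := (.node (.node (.node (.node (.node (.node .leaf 63 16905 .leaf) 64 22540 (.node .leaf 65 20286 .leaf)) 66 27048 (.node (.node .leaf 67 36064 .leaf) 68 20125 (.node .leaf 69 24150 .leaf))) 70 32200 (.node (.node (.node .leaf 71 21735 .leaf) 72 28980 (.node .leaf 73 38640 .leaf)) 74 51520 (.node (.node .leaf 75 26082 .leaf) 76 34776 (.node .leaf 77 46368 .leaf)))) 78 61824 (.node (.node (.node (.node .leaf 79 82432 .leaf) 80 28750 (.node .leaf 81 25875 .leaf)) 82 34500 (.node (.node .leaf 83 46000 .leaf) 84 31050 (.node .leaf 85 41400 .leaf))) 86 55200 (.node (.node (.node .leaf 87 73600 .leaf) 88 27945 (.node .leaf 89 37260 .leaf)) 90 49680 (.node (.node .leaf 91 66240 .leaf) 92 88320 (.node .leaf 93 117760 .leaf))))) 94 33534 (.node (.node (.node (.node (.node .leaf 95 44712 .leaf) 96 59616 (.node .leaf 97 79488 .leaf)) 98 105984 (.node (.node .leaf 99 141312 .leaf) 100 188416 (.node .leaf 101 1558 .leaf))) 102 2812 (.node (.node (.node .leaf 103 3534 .leaf) 104 4712 (.node .leaf 105 5510 .leaf))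 106 6612 (.node (.node .leaf 107 8816 .leaf) 108 10108 (.node .leaf 109 14440 .leaf)))) 110 12996 (.node (.node (.node (.node .leaf 111 17328 .leaf) 112 23104 (.node .leaf 113 7942 .leaf)) 114 13566 (.node (.node .leaf 115 10830 .leaf) 116 19380 (.node .leaf 117 17442 .leaf))) 118 23256 (.node (.node (.node .leaf 119 31008 .leaf) 120 8398 (.node .leaf 121 14212 .leaf)) 122 18088 (.node (.node .leaf 123 17290 .leaf) 124 16150 .leaf)))))

def d24lll : Tr := .node d24llll 62 15778 d24lllr

def d24llrl : Tr := (.node (.node (.node (.node (.node (.node .leaf 126 24700 .leaf) 127 41344 (.node .leaf 128 22230 .leaf)) 129 29640 (.node (.node .leaf 130 39520 .leaf) 131 12844 (.node .leaf 132 16302 .leaf))) 133 21736 (.node (.node (.node .leaf 134 20748 .leaf) 135 27664 (.node .leaf 136 20482 .leaf)) 137 35568 (.node (.node .leaf 138 26676 .leaf) 139 47424 (.node .leaf 140 29260 .leaf)))) 141 63232 (.node (.node (.node (.node .leaf 142 26334 .leaf) 143 35112 (.node .leaf 144 46816 .leaf)) 145 22990 (.node (.node .leaf 146 27588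 .leaf) 147 36784 (.node .leaf 148 41800 .leaf))) 149 37620 (.node (.node (.node .leaf 150 50160 .leaf) 151 66880 (.node .leaf 152 26068 .leaf)) 153 31350 (.node (.node .leaf 154 33858 .leaf) 155 45144 (.node .leaf 156 60192 .leaf))))) 157 37240 (.node (.node (.node (.node (.node .leaf 158 80256 .leaf) 159 107008 (.node .leaf 160 33516 .leaf)) 161 44688 (.node (.node .leaf 162 59584 .leaf) 163 27930 (.node .leaf 164 33250 .leaf))) 165 39900 (.node (.node (.node .leaf 166 35910 .leaf) 167 47880 (.node .leaf 168 63840 .leaf)) 169 53200 (.node (.node .leaf 170 85120 .leaf) 171 43092 (.node .leaf 172 57456 .leaf)))) 173 76608 (.node (.node (.node (.node .leaf 174 102144 .leaf) 175 47500 (.node .leaf 176 136192 .leaf)) 177 42750 (.node (.node .leaf 178 57000 .leaf) 179 76000 (.node .leaf 180 51300 .leaf))) 181 68400 (.node (.node (.node .leaf 182 91200 .leaf) 183 121600 (.node .leaf 184 46170 .leaf)) 185 61560 (.node (.node .leaf 186 82080 .leaf) 187 109440 .leaf)))))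

def d24llrr : Tr := (.node (.node (.node (.node (.node (.node .leaf 189 194560 .leaf) 190 55404 (.node .leaf 191 73872 .leaf)) 192 98496 (.node (.node .leaf 193 131328 .leaf) 194 175104 (.node .leaf 195 233472 .leaf))) 196 311296 (.node (.node (.node .leaf 197 1073 .leaf) 198 1798 (.node .leaf 199 2523 .leaf)) 200 3364 (.node (.node .leaf 201 7395 .leaf) 202 8874 (.node .leaf 203 11832 .leaf)))) 204 3857 (.node (.node (.node (.node .leaf 205 9860 .leaf) 206 4959 (.node .leaf 207 15776 .leaf)) 208 11310 (.node (.node .leaf 209 5423 .leaf) 210 6902 (.node .leaf 211 9425 .leaf))) 212 15080 (.node (.node (.node .leaf 213 13572 .leaf) 214 18096 (.node .leaf 215 11165 .leaf)) 216 4901 (.node (.node .leaf 217 8294 .leaf) 218 7917 .leaf)))) 219 10556 (.node (.node (.node (.node (.node .leaf 220 24128 .leaf) 221 13398 (.node .leaf 222 15950 .leaf)) 223 10179 (.node (.node .leaf 224 17864 .leaf) 225 19140 (.node .leaf 226 25520 .leaf))) 227 10527 (.node (.node (.node .leaf 228 14036 .leaf) 229 14355 (.node .leaf 230 17226 .leaf))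 231 22968 (.node (.node .leaf 232 30624 .leaf) 233 14210 (.node .leaf 234 17052 .leaf)))) 235 15225 (.node (.node (.node (.node .leaf 236 40832 .leaf) 237 22736 (.node .leaf 238 18270 .leaf)) 239 24360 (.node (.node .leaf 240 9947 .leaf) 241 20300 (.node .leaf 242 12789 .leaf))) 243 32480 (.node (.node (.node .leaf 244 21924 .leaf) 245 29232 (.node .leaf 246 38976 .leaf)) 247 51968 (.node (.node .leaf 248 18125 .leaf) 249 21750 .leaf)))))

def d24llr : Tr := .node d24llrl 188 145920 d24llrr

def d24ll : Tr := .node d24lll 125 25840 d24llr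

def d24lrll : Tr := (.node (.node (.node (.node (.node (.node .leaf 251 29000 .leaf) 252 19575 (.node .leaf 253 26100 .leaf)) 254 34800 (.node (.node .leaf 255 46400 .leaf) 256 23490 (.node .leaf 257 31320 .leaf))) 258 41760 (.node (.node (.node .leaf 259 55680 .leaf) 260 74240 (.node .leaf 261 28188 .leaf)) 262 37584 (.node (.node .leaf 263 50112 .leaf) 264 66816 (.node .leaf 265 21141 .leaf)))) 266 89088 (.node (.node (.node (.node .leaf 267 118784 .leaf) 268 2109 (.node .leaf 269 5270 .leaf)) 270 9747 (.node (.node .leaf 271 28900 .leaf) 272 14535 (.node .leaf 273 26010 .leaf))) 274 34680 (.node (.node (.node .leaf 275 7581 .leaf) 276 18525 (.node .leaf 277 15561 .leaf)) 278 46240 (.node (.node .leaf 279 33150 .leaf) 280 10659 (.node .leaf 281 20230 .leaf))))) 282 21945 (.node (.node (.node (.node (.node .leaf 283 30940 .leaf) 284 44200 (.node .leaf 285 39780 .leaf)) 286 53040 (.node (.node .leaf 287 9633 .leaf) 288 24310 (.node .leaf 289 20007 .leaf))) 290 70720 (.node (.node (.node .leaf 291 28215 .leaf) 292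 41140 (.node .leaf 293 39270 .leaf)) 294 20691 (.node (.node .leaf 295 52360 .leaf) 296 56100 (.node .leaf 297 74800 .leaf)))) 298 25137 (.node (.node (.node (.node .leaf 299 50490 .leaf) 300 29925 (.node .leaf 301 67320 .leaf)) 302 89760 (.node (.node .leaf 303 46750 .leaf) 304 35625 (.node .leaf 305 119680 .leaf))) 306 49980 (.node (.node (.node .leaf 307 66640 .leaf) 308 59500 (.node .leaf 309 53550 .leaf)) 310 71400 (.node (.node .leaf 311 19551 .leaf) 312 41650 .leaf)))))

def d24lrlr : Tr := (.node (.node (.node (.node (.node (.node .leaf 314 95200 .leaf) 315 64260 (.node .leaf 316 38475 .leaf)) 317 85680 (.node (.node .leaf 318 114240 .leaf) 319 152320 (.node .leaf 320 63750 .leaf))) 321 41553 (.node (.node (.node .leaf 322 85000 .leaf) 323 76500 (.node .leaf 324 102000 .leaf)) 325 136000 (.node (.node .leaf 326 68850 .leaf) 327 91800 (.node .leaf 328 122400 .leaf)))) 329 163200 (.node (.node (.node (.node .leaf 330 217600 .leaf) 331 82620 (.node .leaf 332 110160 .leaf)) 333 146880 (.node (.node .leaf 334 195840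 .leaf) 335 261120 (.node .leaf 336 348160 .leaf))) 337 3145 (.node (.node (.node .leaf 338 4743 .leaf) 339 21675 (.node .leaf 340 23409 .leaf)) 341 31212 (.node (.node .leaf 342 41616 .leaf) 343 23205 (.node .leaf 344 11305 .leaf))))) 345 27846 (.node (.node (.node (.node (.node .leaf 346 27625 .leaf) 347 29835 (.node .leaf 348 35802 .leaf)) 349 15895 (.node (.node .leaf 350 18207 .leaf) 351 47736 (.node .leaf 352 63648 .leaf))) 353 30855 (.node (.node (.node .leaf 354 37026 .leaf) 355 32725 (.node .leaf 356 14365 .leaf)) 357 21879 (.node (.node .leaf 358 35343 .leaf) 359 47124 (.node .leaf 360 42075 .leaf)))) 361 45441 (.node (.node (.node (.node .leaf 362 60588 .leaf) 363 80784 (.node .leaf 364 107712 .leaf)) 365 35490 (.node (.node .leaf 366 47320 .leaf) 367 37485 (.node .leaf 368 44982 .leaf))) 369 59976 (.node (.node (.node .leaf 370 44625 .leaf) 371 48195 (.node .leaf 372 57834 .leaf)) 373 77112 (.node (.node .leaf 374 102816 .leaf) 375 50050 .leaf)))))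

def d24lrl : Tr := .node d24lrll 313 32319 d24lrlr

def d24lrrl : Tr := (.node (.node (.node (.node (.node (.node .leaf 377 53125 .leaf) 378 60060 (.node .leaf 379 80080 .leaf)) 380 29155 (.node (.node .leaf 381 57375 .leaf) 382 61965 (.node .leaf 383 74358 .leaf))) 384 44590 (.node (.node (.node .leaf 385 99144 .leaf) 386 132192 (.node .leaf 387 176256 .leaf)) 388 235008 (.node (.node .leaf 389 63700 .leaf) 390 313344 (.node .leaf 391 57330 .leaf)))) 392 76440 (.node (.node (.node (.node .leaf 393 101920 .leaf) 394 68250 (.node .leaf 395 91000 .leaf)) 396 81900 (.node (.node .leaf 397 109200 .leaf) 398 145600 (.node .leaf 399 73710 .leaf))) 400 98280 (.node (.node (.node .leaf 401 131040 .leaf) 402 174720 (.node .leaf 403 232960 .leaf)) 404 961 (.node (.node .leaf 405 6324 .leaf) 406 8432 (.node .leaf 407 5642 .leaf))))) 408 2945 (.node (.node (.node (.node (.node .leaf 409 6045 .leaf) 410 8060 (.node .leaf 411 3689 .leaf)) 412 7254 (.node (.node .leaf 413 9672 .leaf) 414 12896 (.node .leaf 415 7502 .leaf))) 416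 4433 (.node (.node (.node .leaf 417 7161 .leaf) 418 9548 (.node .leaf 419 10230 .leaf)) 420 13640 (.node (.node .leaf 421 9207 .leaf) 422 12276 (.node .leaf 423 16368 .leaf)))) 424 21824 (.node (.node (.node (.node .leaf 425 9114 .leaf) 426 8525 (.node .leaf 427 12152 .leaf)) 428 10850 (.node (.node .leaf 429 9765 .leaf) 430 13020 (.node .leaf 431 17360 .leaf))) 432 11718 (.node (.node (.node .leaf 433 7595 .leaf) 434 15624 (.node .leaf 435 20832 .leaf)) 436 27776 (.node (.node .leaf 437 11625 .leaf) 438 15500 .leaf)))))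

def d24lrrr : Tr := (.node (.node (.node (.node (.node (.node .leaf 440 18600 .leaf) 441 24800 (.node .leaf 442 12555 .leaf)) 443 16740 (.node (.node .leaf 444 22320 .leaf) 445 29760 (.node .leaf 446 39680 .leaf))) 447 15066 (.node (.node (.node .leaf 448 20088 .leaf) 449 26784 (.node .leaf 450 35712 .leaf)) 451 47616 (.node (.node .leaf 452 63488 .leaf) 453 9025 (.node .leaf 454 24276 .leaf)))) 455 32368 (.node (.node (.node (.node .leaf 456 21658 .leaf) 457 13585 (.node .leaf 458 37128 .leaf)) 459 49504 (.node (.node .leaf 460 12103 .leaf) 461 28798 (.node .leaf 462 36652 .leaf))) 463 27489 (.node (.node (.node .leaf 464 62832 .leaf) 465 26125 (.node .leaf 466 83776 .leaf)) 467 34986 (.node (.node .leaf 468 46648 .leaf) 469 27885 .leaf)))) 470 37180 (.node (.node (.node (.node (.node .leaf 471 33462 .leaf) 472 79968 (.node .leaf 473 106624 .leaf)) 474 182784 (.node (.node .leaf 475 23275 .leaf) 476 243712 (.node .leaf 477 47190 .leaf))) 478 62920 (.node (.node (.node .leaf 479 42471 .leaf) 480 56628 (.node .leaf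 481 45045 .leaf)) 482 54054 (.node (.node .leaf 483 72072 .leaf) 484 53625 (.node .leaf 485 71500 .leaf)))) 486 64350 (.node (.node (.node (.node .leaf 487 85800 .leaf) 488 114400 (.node .leaf 489 57915 .leaf)) 490 77220 (.node (.node .leaf 491 102960 .leaf) 492 137280 (.node .leaf 493 69498 .leaf))) 494 183040 (.node (.node (.node .leaf 495 92664 .leaf) 496 123552 (.node .leaf 497 164736 .leaf)) 498 66550 (.node (.node .leaf 499 79860 .leaf) 500 106480 .leaf)))))

def d24lrr : Tr := .node d24lrrl 439 13950 d24lrrr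

def d24lr : Tr := .node d24lrl 376 137088 d24lrr

def d24l : Tr := .node d24ll 250 16443 d24lr

def d24rlll : Tr := (.node (.node (.node (.node (.node (.node .leaf 502 55488 .leaf) 503 73984 (.node .leaf 504 84864 .leaf)) 505 17017 (.node (.node .leaf 506 113152 .leaf) 507 49368 (.node .leaf 508 143616 .leaf))) 509 191488 (.node (.node (.node .leaf 510 417792 .leaf) 511 557056 (.node .leaf 512 26026 .leaf)) 513 24843 (.node (.node .leaf 514 33124 .leaf) 515 31941 (.node .leaf 516 33033 .leaf)))) 517 44044 (.node (.node (.node (.node .leaf 518 39325 .leaf) 519 35035 (.node .leaf 520 42042 .leaf)) 521 56056 (.node (.node .leaf 522 96096 .leaf) 523 128128 (.node .leaf 524 40131 .leaf))) 525 71344 (.node (.node (.node .leaf 526 53508 .leaf) 527 47775 (.node .leaf 528 51597 .leaf)) 529 68796 (.node (.node .leaf 530 91728 .leaf) 531 122304 (.node .leaf 532 163072 .leaf))))) 533 61425 (.node (.node (.node (.node (.node .leaf 534 66339 .leaf) 535 88452 (.node .leaf 536 117936 .leaf)) 537 157248 (.node (.node .leaf 538 81250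 .leaf) 539 97500 (.node .leaf 540 130000 .leaf))) 541 55902 (.node (.node (.node .leaf 542 74536 .leaf) 543 59290 (.node .leaf 544 53361 .leaf)) 545 71148 (.node (.node .leaf 546 94864 .leaf) 547 84700 (.node .leaf 548 29172 .leaf)))) 549 65824 (.node (.node (.node (.node .leaf 550 38896 .leaf) 551 20449 (.node .leaf 552 44616 .leaf)) 553 59488 (.node (.node .leaf 554 29575 .leaf) 555 42588 (.node .leaf 556 56784 .leaf))) 557 42250 (.node (.node (.node .leaf 558 75504 .leaf) 559 100672 (.node .leaf 560 219648 .leaf)) 561 292864 (.node (.node .leaf 562 31213 .leaf) 563 56875 .leaf)))))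

def d24rllr : Tr := (.node (.node (.node (.node (.node (.node .leaf 565 279552 .leaf) 566 372736 (.node .leaf 567 87750 .leaf)) 568 73125 (.node (.node .leaf 569 117000 .leaf) 570 156000 (.node .leaf 571 208000 .leaf))) 572 78975 (.node (.node (.node .leaf 573 105300 .leaf) 574 140400 (.node .leaf 575 187200 .leaf)) 576 249600 (.node (.node .leaf 577 332800 .leaf) 578 94770 (.node .leaf 579 126360 .leaf)))) 580 46585 (.node (.node (.node (.node .leaf 581 59895 .leaf) 582 71874 (.node .leaf 583 63525 .leaf)) 584 76230 (.node (.node .leaf 585 101640 .leaf) 586 135520 (.node .leaf 587 68607 .leaf))) 588 91476 (.node (.node (.node .leaf 589 121968 .leaf) 590 162624 (.node .leaf 591 216832 .leaf)) 592 56595 (.node (.node .leaf 593 75460 .leaf) 594 75712 (.node .leaf 595 38025 .leaf))))) 596 50700 (.node (.node (.node (.node (.node .leaf 597 67600 .leaf) 598 45630 (.node .leaf 599 60840 .leaf)) 600 81120 (.node (.node .leaf 601 108160 .leaf) 602 34606 (.node .leaf 603 168480 .leaf))) 604 224640 (.node (.node (.node .leaf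 605 299520 .leaf) 606 399360 (.node .leaf 607 532480 .leaf)) 608 113724 (.node (.node .leaf 609 151632 .leaf) 610 202176 (.node .leaf 611 269568 .leaf)))) 612 359424 (.node (.node (.node (.node .leaf 613 479232 .leaf) 614 638976 (.node .leaf 615 851968 .leaf)) 616 95832 (.node (.node .leaf 617 127776 .leaf) 618 170368 (.node .leaf 619 75625 .leaf))) 620 90750 (.node (.node (.node .leaf 621 121000 .leaf) 622 81675 (.node .leaf 623 108900 .leaf)) 624 145200 (.node (.node .leaf 625 193600 .leaf) 626 98010 .leaf)))))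

def d24rll : Tr := .node d24rlll 564 209664 d24rllr

def d24rlrl : Tr := (.node (.node (.node (.node (.node (.node .leaf 628 174240 .leaf) 629 232320 (.node .leaf 630 309760 .leaf)) 631 88209 (.node (.node .leaf 632 117612 .leaf) 633 67914 (.node .leaf 634 90552 .leaf))) 635 67375 (.node (.node (.node .leaf 636 80850 .leaf) 637 107800 (.node .leaf 638 72765 .leaf)) 639 3774 (.node (.node .leaf 640 5032 .leaf) 641 3367 (.node .leaf 642 4810 .leaf)))) 643 4329 (.node (.node (.node (.node .leaf 644 5772 .leaf) 645 7696 (.node .leaf 646 4477 .leaf)) 647 5698 (.node (.node .leaf 648 6105 .leaf) 649 8140 (.node .leaf 650 7326 .leaf))) 651 9768 (.node (.node (.node .leaf 652 13024 .leaf) 653 5439 (.node .leaf 654 7252 .leaf)) 655 6475 (.node (.node .leaf 656 7770 .leaf) 657 10360 (.node .leaf 658 6993 .leaf))))) 659 9324 (.node (.node (.node (.node (.node .leaf 660 12432 .leaf) 661 16576 (.node .leaf 662 9250 .leaf)) 663 8325 (.node (.node .leaf 664 11100 .leaf) 665 14800 (.node .leaf 666 9990 .leaf))) 667 13320 (.node (.node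 (.node .leaf 668 17760 .leaf) 669 23680 (.node .leaf 670 8991 .leaf)) 671 11988 (.node (.node .leaf 672 15984 .leaf) 673 21312 (.node .leaf 674 28416 .leaf)))) 675 37888 (.node (.node (.node (.node .leaf 676 16093 .leaf) 677 19074 (.node .leaf 678 25432 .leaf)) 679 22627 (.node (.node .leaf 680 21970 .leaf) 681 19773 (.node .leaf 682 26364 .leaf))) 683 35152 (.node (.node (.node .leaf 684 41067 .leaf) 685 54756 (.node .leaf 686 73008 .leaf)) 687 97344 (.node (.node .leaf 688 129792 .leaf) 689 173056 .leaf)))))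

def d24rlrr : Tr := (.node (.node (.node (.node (.node (.node .leaf 691 43923 .leaf) 692 58564 (.node .leaf 693 41503 .leaf)) 694 156816 (.node (.node .leaf 695 209088 .leaf) 696 278784 (.node .leaf 697 371712 .leaf))) 698 495616 (.node (.node (.node .leaf 699 52822 .leaf) 700 120736 (.node .leaf 701 97020 .leaf)) 702 129360 (.node (.node .leaf 703 172480 .leaf) 704 87318 (.node .leaf 705 116424 .leaf)))) 706 155232 (.node (.node (.node (.node .leaf 707 206976 .leaf) 708 275968 (.node .leaf 709 96250 .leaf)) 710 86625 (.node (.node .leaf 711 115500 .leaf) 712 154000 (.node .leaf 713 17238 .leaf))) 714 22984 (.node (.node (.node .leaf 715 15379 .leaf) 716 103950 (.node .leaf 717 138600 .leaf)) 718 184800 (.node (.node .leaf 719 246400 .leaf) 720 93555 .leaf)))) 721 124740 (.node (.node (.node (.node (.node .leaf 722 166320 .leaf) 723 221760 (.node .leaf 724 295680 .leaf)) 725 394240 (.node (.node .leaf 726 112266 .leaf) 727 149688 (.node .leaf 728 266112 .leaf))) 729 199584 (.node (.node (.node .leaf 730 354816 .leaf)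 731 473088 (.node .leaf 732 630784 .leaf)) 733 103125 (.node (.node .leaf 734 137500 .leaf) 735 123750 (.node .leaf 736 165000 .leaf)))) 737 220000 (.node (.node (.node (.node .leaf 738 111375 .leaf) 739 148500 (.node .leaf 740 264000 .leaf)) 741 198000 (.node (.node .leaf 742 352000 .leaf) 743 133650 (.node .leaf 744 178200 .leaf))) 745 237600 (.node (.node (.node .leaf 746 316800 .leaf) 747 422400 (.node .leaf 748 563200 .leaf)) 749 120285 (.node (.node .leaf 750 160380 .leaf) 751 213840 .leaf)))))

def d24rlr : Tr := .node d24rlrl 690 85293 d24rlrr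

def d24rl : Tr := .node d24rll 627 130680 d24rlr

def d24rrll : Tr := (.node (.node (.node (.node (.node (.node .leaf 753 380160 .leaf) 754 675840 (.node .leaf 755 506880 .leaf)) 756 901120 (.node (.node .leaf 757 144342 .leaf) 758 192456 (.node .leaf 759 256608 .leaf))) 760 342144 (.node (.node (.node .leaf 761 456192 .leaf) 762 608256 (.node .leaf 763 811008 .leaf)) 764 1081344 (.node (.node .leaf 765 1441792 .leaf) 766 50421 (.node .leaf 767 67228 .leaf)))) 768 60025 (.node (.node (.node (.node .leaf 769 72030 .leaf) 770 64827 (.node .leaf 771 96040 .leaf)) 772 86436 (.node (.node .leaf 773 115248 .leaf) 774 153664 (.node .leaf 775 85750 .leaf))) 776 77175 (.node (.node (.node .leaf 777 102900 .leaf) 778 137200 (.node .leaf 779 92610 .leaf)) 780 123480 (.node (.node .leaf 781 164640 .leaf) 782 219520 (.node .leaf 783 83349 .leaf))))) 784 111132 (.node (.node (.node (.node (.node .leaf 785 148176 .leaf) 786 197568 (.node .leaf 787 263424 .leaf)) 788 351232 (.node (.node .leaf 789 91875 .leaf) 790 122500 (.node .leaf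 791 110250 .leaf))) 792 147000 (.node (.node (.node .leaf 793 196000 .leaf) 794 99225 (.node .leaf 795 132300 .leaf)) 796 176400 (.node (.node .leaf 797 235200 .leaf) 798 313600 (.node .leaf 799 119070 .leaf)))) 800 158760 (.node (.node (.node (.node .leaf 801 211680 .leaf) 802 282240 (.node .leaf 803 376320 .leaf)) 804 501760 (.node (.node .leaf 805 107163 .leaf) 806 142884 (.node .leaf 807 190512 .leaf))) 808 254016 (.node (.node (.node .leaf 809 338688 .leaf) 810 602112 (.node .leaf 811 451584 .leaf)) 812 802816 (.node (.node .leaf 813 109375 .leaf) 814 131250 .leaf)))))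

def d24rrlr : Tr := (.node (.node (.node (.node (.node (.node .leaf 816 118125 .leaf) 817 157500 (.node .leaf 818 210000 .leaf)) 819 280000 (.node (.node .leaf 820 141750 .leaf) 821 189000 (.node .leaf 822 252000 .leaf))) 823 336000 (.node (.node (.node .leaf 824 448000 .leaf) 825 127575 (.node .leaf 826 170100 .leaf)) 827 226800 (.node (.node .leaf 828 302400 .leaf) 829 403200 (.node .leaf 830 537600 .leaf)))) 831 716800 (.node (.node (.node (.node .leaf 832 153090 .leaf) 833 204120 (.node .leaf 834 272160 .leaf)) 835 362880 (.node (.node .leaf 836 483840 .leaf) 837 645120 (.node .leaf 838 860160 .leaf))) 839 1146880 (.node (.node (.node .leaf 840 137781 .leaf) 841 183708 (.node .leaf 842 244944 .leaf)) 843 326592 (.node (.node .leaf 844 435456 .leaf) 845 580608 .leaf)))) 846 774144 (.node (.node (.node (.node (.node .leaf 847 1032192 .leaf) 848 1376256 (.node .leaf 849 1835008 .leaf)) 850 156250 (.node (.node .leaf 851 140625 .leaf) 852 187500 (.node .leaf 853 250000 .leaf))) 854 168750 (.node (.node (.node .leaf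 855 225000 .leaf) 856 300000 (.node .leaf 857 400000 .leaf)) 858 151875 (.node (.node .leaf 859 202500 .leaf) 860 270000 (.node .leaf 861 2091 .leaf)))) 862 2788 (.node (.node (.node (.node .leaf 863 2665 .leaf) 864 3198 (.node .leaf 865 4264 .leaf)) 866 3157 (.node (.node .leaf 867 4510 .leaf) 868 4059 (.node .leaf 869 5412 .leaf))) 870 7216 (.node (.node (.node .leaf 871 4018 .leaf) 872 4305 (.node .leaf 873 5740 .leaf)) 874 5166 (.node (.node .leaf 875 6888 .leaf) 876 9184 .leaf)))))

def d24rrl : Tr := .node d24rrll 815 175000 d24rrlr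

def d24rrrl : Tr := (.node (.node (.node (.node (.node (.node .leaf 878 6150 .leaf) 879 8200 (.node .leaf 880 5535 .leaf)) 881 7380 (.node (.node .leaf 882 9840 .leaf) 883 13120 (.node .leaf 884 6642 .leaf))) 885 8856 (.node (.node (.node .leaf 886 11808 .leaf) 887 15744 (.node .leaf 888 20992 .leaf)) 889 11271 (.node (.node .leaf 890 15028 .leaf) 891 360000 (.node .leaf 892 640000 .leaf)))) 893 480000 (.node (.node (.node (.node .leaf 894 182250 .leaf) 895 243000 (.node .leaf 896 324000 .leaf)) 897 432000 (.node (.node .leaf 898 576000 .leaf) 899 768000 (.node .leaf 900 1024000 .leaf))) 901 164025 (.node (.node (.node .leaf 902 218700 .leaf) 903 291600 (.node .leaf 904 388800 .leaf)) 905 518400 (.node (.node .leaf 906 691200 .leaf) 907 921600 (.node .leaf 908 1228800 .leaf))))) 909 1638400 (.node (.node (.node (.node (.node .leaf 910 196830 .leaf) 911 262440 (.node .leaf 912 349920 .leaf)) 913 466560 (.node (.node .leaf 914 622080 .leaf) 915 829440 (.node .leaf 916 1105920 .leaf))) 917 1474560 (.node (.node (.node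 .leaf 918 1966080 .leaf) 919 2621440 (.node .leaf 920 177147 .leaf)) 921 236196 (.node (.node .leaf 922 314928 .leaf) 923 419904 (.node .leaf 924 559872 .leaf)))) 925 746496 (.node (.node (.node (.node .leaf 926 995328 .leaf) 927 1327104 (.node .leaf 928 1769472 .leaf)) 929 2359296 (.node (.node .leaf 930 3145728 .leaf) 931 817 (.node .leaf 932 1462 .leaf))) 933 1677 (.node (.node (.node .leaf 934 2236 .leaf) 935 2365 (.node .leaf 936 2838 .leaf)) 937 3784 (.node (.node .leaf 938 2107 .leaf) 939 3010 .leaf)))))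

def d24rrrr : Tr := (.node (.node (.node (.node (.node (.node .leaf 941 3612 .leaf) 942 4816 (.node .leaf 943 3225 .leaf)) 944 4300 (.node (.node .leaf 945 3870 .leaf) 946 5160 (.node .leaf 947 6880 .leaf))) 948 3483 (.node (.node (.node .leaf 949 4644 .leaf) 950 6192 (.node .leaf 951 8256 .leaf)) 952 11008 (.node (.node .leaf 953 4693 .leaf) 954 9826 (.node .leaf 955 5491 .leaf)))) 956 799 (.node (.node (.node (.node .leaf 957 1222 .leaf) 958 1551 (.node .leaf 959 2068 .leaf)) 960 1645 (.node (.node .leaf 961 1974 .leaf) 962 2632 (.node .leaf 963 2350 .leaf))) 964 2115 (.node (.node (.node .leaf 965 2820 .leaf) 966 3760 (.node .leaf 967 2538 .leaf)) 968 3384 (.node (.node .leaf 969 4512 .leaf) 970 6016 .leaf)))) 971 689 (.node (.node (.node (.node (.node .leaf 972 1166 .leaf) 973 1113 (.node .leaf 974 1484 .leaf)) 975 1325 (.node (.node .leaf 976 1590 .leaf) 977 2120 (.node .leaf 978 1431 .leaf))) 979 1908 (.node (.node (.node .leaf 980 2544 .leaf) 981 3392 (.node .leaf 982 649 .leaf)) 983 826 (.node (.node .leaf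 984 885 .leaf) 985 1180 (.node .leaf 986 1062 .leaf)))) 987 1416 (.node (.node (.node (.node .leaf 988 1888 .leaf) 989 427 (.node .leaf 990 610 .leaf)) 991 549 (.node (.node .leaf 992 732 .leaf) 993 976 (.node .leaf 994 335 .leaf))) 995 402 (.node (.node (.node .leaf 996 536 .leaf) 997 213 (.node .leaf 998 284 .leaf)) 999 146 (.node (.node .leaf 1000 79 .leaf) 1001 4194304 .leaf)))))

def d24rrr : Tr := .node d24rrrl 940 2709 d24rrrr

def d24rr : Tr := .node d24rrl 877 5125 d24rrr

def d24r : Tr := .node d24rl 752 285120 d24rr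

def d24 : Tr := .node d24l 501 14161 d24r

noncomputable def u24 : List ℕ :=
  (u24_0 (u24_1 (u24_2 (u24_3 (u24_4 (u24_5 (u24_6 (u24_7 (u24_8 (u24_9 (u24_10 (u24_11 (u24_12 (u24_13 (u24_14 (u24_15 (u24_16 (u24_17 (u24_18 (u24_19 (u24_20 (u24_21 (u24_22 (u24_23 (u24_24 (u24_25 []))))))))))))))))))))))))))

def r24_0 : List ℕ := [41, 74, 93, 124, 145, 174, 232, 161, 230, 207, 276, 368, 209, 266, 285, 380, 342, 456, 608, 221, 374, 357, 476, 425, 510, 680, 459, 612, 816, 1088, 338, 429, 572, 455, 546, 728, 650, 585, 780, 1040, 702, 936, 1248, 1664, 605, 726, 968, 539, 770, 693, 924, 1232, 825, 1100, 990, 1320, 1760, 891, 1188, 1584, 2112, 2816, 686, 735, 980, 882, 1176, 1568, 875, 1050, 1400, 945, 1260, 1680, 2240, 1134, 1512, 2016, 2688, 3584, 1250, 1125, 1500, 2000, 1350, 1800, 2400, 3200, 1215, 1620, 2160, 2880, 3840, 5120, 1458, 1944, 2592, 3456, 4608, 6144, 8192]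

def r24_1 : List ℕ := [41, 74, 93, 124, 145, 174, 232, 161, 230, 207, 276, 368, 209, 266, 285, 380, 342, 456, 608, 221, 374, 357, 476, 425, 510, 680, 459, 612, 816, 1088, 338, 429, 572, 455, 546, 728, 650, 585, 780, 1040, 702, 936, 1248, 1664, 605, 726, 968, 539, 770, 693, 924, 1232, 825, 1100, 990, 1320, 1760, 891, 1188, 1584, 2112, 2816, 686, 735, 980, 882, 1176, 1568, 875, 1050, 1400, 945, 1260, 1680, 2240, 1134, 1512, 2016, 2688, 1250, 1125, 1500, 2000, 1350, 1800, 2400, 3200, 1215, 1620, 2160, 2880, 3840, 1458, 1944, 2592, 3456]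

def r24_2 : List ℕ := [37, 62, 87, 116, 115, 138, 184, 133, 190, 171, 228, 304, 187, 238, 255, 340, 306, 408, 544, 169, 286, 273, 364, 325, 390, 520, 351, 468, 624, 832, 363, 484, 385, 462, 616, 550, 495, 660, 880, 594, 792, 1056, 1408, 343, 490, 441, 588, 784, 525, 700, 630, 840, 1120, 567, 756, 1008, 1344, 1792, 625, 750, 1000, 675, 900, 1200, 1600, 810, 1080, 1440, 729, 972, 1296]

def r24_3 : List ℕ := [37, 62, 87, 116, 115, 138, 184, 133, 190, 171, 228, 304, 187, 238, 255, 340, 306, 408, 544, 169, 286, 273, 364, 325, 390, 520, 351, 468, 624, 832, 363, 484, 385, 462, 616, 550, 495, 660, 880, 594, 792, 1056, 1408, 343, 490, 441, 588, 784, 525, 700, 630, 840, 1120, 567, 756, 1008, 1344, 1792, 625, 750, 1000, 675, 900, 1200, 1600, 810, 1080, 1440, 729]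

def r24_4 : List ℕ := [37, 62, 87, 116, 115, 138, 184, 133, 190, 171, 228, 304, 187, 238, 255, 340, 306, 408, 544, 169, 286, 273, 364, 325, 390, 520, 351, 468, 624, 832, 363, 484, 385, 462, 616, 550, 495, 660, 880, 594, 792, 1056, 1408, 343, 490, 441, 588, 784, 525, 700, 630, 840, 1120, 567, 756, 1008, 1344, 1792, 625, 750, 1000, 675, 900, 1200, 1600, 810, 729]

def r24_5 : List ℕ := [31, 58, 69, 92, 95, 114, 152, 119, 170, 153, 204, 272, 143, 182, 195, 260, 234, 312, 416, 242, 231, 308, 275, 330, 440, 297, 396, 528, 704, 245, 294, 392, 350, 315, 420, 560, 378, 504, 672, 896, 375, 500, 450, 600, 800, 405, 540, 720, 1280]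

def r24_6 : List ℕ := [31, 58, 69, 92, 95, 114, 152, 119, 170, 153, 204, 272, 143, 182, 195, 260, 234, 312, 416, 242, 231, 308, 275, 330, 440, 297, 396, 528, 704, 245, 294, 392, 350, 315, 420, 560, 378, 504, 672, 896, 375, 500, 450, 600, 800, 405, 540, 720]

def r24_7 : List ℕ := [31, 58, 69, 92, 95, 114, 152, 119, 170, 153, 204, 272, 143, 182, 195, 260, 234, 312, 416, 242, 231, 308, 275, 330, 440, 297, 396, 528, 704, 245, 294, 392, 350, 315, 420, 560, 378, 504, 672, 896, 375, 500, 450, 600, 800, 405, 540]

def r24_8 : List ℕ := [31, 58, 69, 92, 95, 114, 152, 119, 170, 153, 204, 272, 143, 182, 195, 260, 234, 312, 416, 242, 231, 308, 275, 330, 440, 297, 396, 528, 704, 245, 294, 392, 350, 315, 420, 560, 378, 504, 672, 896, 375, 500, 450, 600, 800, 405]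

def r24_9 : List ℕ := [31, 58, 69, 92, 95, 114, 152, 119, 170, 153, 204, 272, 143, 182, 195, 260, 234, 312, 416, 242, 231, 308, 275, 330, 440, 297, 396, 528, 704, 245, 294, 392, 350, 315, 420, 560, 378, 504, 672, 896, 375, 500, 450, 600, 800]

def r24_10 : List ℕ := [29, 46, 57, 76, 85, 102, 136, 91, 130, 117, 156, 208, 121, 154, 165, 220, 198, 264, 352, 147, 196, 175, 210, 280, 189, 252, 336, 448, 250, 225, 300, 400, 270, 360, 480, 640, 243]

def r24_11 : List ℕ := [29, 46, 57, 76, 85, 102, 136, 91, 130, 117, 156, 208, 121, 154, 165, 220, 198, 264, 352, 147, 196, 175, 210, 280, 189, 252, 336, 448, 250, 225, 300, 400, 270, 360, 480, 640, 243]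

def r24_12 : List ℕ := [29, 46, 57, 76, 85, 102, 136, 91, 130, 117, 156, 208, 121, 154, 165, 220, 198, 264, 352, 147, 196, 175, 210, 280, 189, 252, 336, 448, 250, 225, 300, 400, 270, 360, 480, 640, 243]

def r24_13 : List ℕ := [29, 46, 57, 76, 85, 102, 136, 91, 130, 117, 156, 208, 121, 154, 165, 220, 198, 264, 352, 147, 196, 175, 210, 280, 189, 252, 336, 448, 250, 225, 300, 400, 270, 360, 480, 640, 243]

def r24_14 : List ℕ := [29, 46, 57, 76, 85, 102, 136, 91, 130, 117, 156, 208, 121, 154, 165, 220, 198, 264, 352, 147, 196, 175, 210, 280, 189, 252, 336, 448, 250, 225, 300, 400, 270, 360, 480, 640, 243]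

def r24_15 : List ℕ := [29, 46, 57, 76, 85, 102, 136, 91, 130, 117, 156, 208, 121, 154, 165, 220, 198, 264, 352, 147, 196, 175, 210, 280, 189, 252, 336, 448, 250, 225, 300, 400, 270, 360, 480, 640, 243]

def r24_16 : List ℕ := [23, 38, 51, 68, 65, 78, 104, 77, 110, 99, 132, 176, 98, 105, 140, 126, 168, 224, 125, 150, 200, 135, 180, 240, 320, 162, 216, 288]

def r24_17 : List ℕ := [23, 38, 51, 68, 65, 78, 104, 77, 110, 99, 132, 176, 98, 105, 140, 126, 168, 224, 125, 150, 200, 135, 180, 240, 320, 162, 216, 288]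

def r24_18 : List ℕ := [23, 38, 51, 68, 65, 78, 104, 77, 110, 99, 132, 176, 98, 105]

def r24_19 : List ℕ := [19, 34, 39, 52, 55, 66, 88, 49, 70, 63, 84, 112, 75, 100, 90, 120, 160, 81, 108, 144, 192, 256]

def r24_20 : List ℕ := [19, 34]

def r24_21 : List ℕ := [19]

def r24_22 : List ℕ := [17, 26, 33, 44, 35, 42, 56, 50, 45, 60, 80, 54, 72, 96, 128]

def r24_23 : List ℕ := [13, 22, 21, 28, 25, 30, 40, 27, 36, 48, 64]

def r24_24 : List ℕ := [11, 14, 15, 20, 18, 24, 32]

def r24_25 : List ℕ := [7, 10, 9, 12, 16]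

def r24_26 : List ℕ := [5, 6, 8]

def r24_27 : List ℕ := [3, 4]

def r24_28 : List ℕ := [2]

def r24_29 : List ℕ := [1]

end Pool.Agent.FP.Z
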