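import Pool.Agent.FP.ZProg
import Pool.Agent.FP.ZD24

/-! Kernel checks. -/

namespace Pool.Agent.FP.Z

open Fn

theorem k24_1 : chk 1002 t24.get c24.get d24.get u24 (trm 24 9 2 0) (trm 24 9 2 1) 101 r24_1 =
    true := by decide +kernel

theorem k24_5 : chk 1002 t24.get c24.get d24.get u24 (trm 24 11 0 0) (trm 24 11 0 1) 404 r24_5 =
    true := by decide +kernel

theorem k24_7 : chk 1002 t24.get c24.get d24.get u24 (trm 24 11 4 0) (trm 24 11 4 1) 501 r24_7 =
    true := by decide +kernel

theorem k24_8 : chk 1002 t24.get c24.get d24.get u24 (trm 24 11 6 0) (trm 24 11 6 1) 548 r24_8 =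
    true := by decide +kernel

theorem k24_10 : chk 1002 t24.get c24.get d24.get u24 (trm 24 12 1 0) (trm 24 12 1 1) 639 r24_10 =
    true := by decide +kernel

theorem k24_15 : chk 1002 t24.get c24.get d24.get u24 (trm 24 12 11 0) (trm 24 12 11 1) 824 r24_15 =
    true := by decide +kernel

theorem k24_22 : chk 1002 t24.get c24.get d24.get u24 (trm 24 15 0 0) (trm 24 15 0 1) 956 r24_22 =
    true := by decide +kernel

theorem k24_25 : chk 1002 t24.get c24.get d24.get u24 (trm 24 18 1 0) (trm 24 18 1 1) 989 r24_25 =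
    true := by decide +kernel

theorem k24_26 : chk 1002 t24.get c24.get d24.get u24 (trm 24 19 0 0) (trm 24 19 0 1) 994 r24_26 =
    true := by decide +kernel

theorem k24_29 : chk 1002 t24.get c24.get d24.get u24 (trm 24 22 1 0) (trm 24 22 1 1) 1000 r24_29 =
    true := by decide +kernel

end Pool.Agent.FP.Z
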