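import Pool.Agent.FP.ZProg
import Pool.Agent.FP.ZD24

/-! Kernel checks. -/

namespace Pool.Agent.FP.Z

open Fn

theorem k24_2 : chk 1002 t24.get c24.get d24.get u24 (trm 24 10 1 0) (trm 24 10 1 1) 197 r24_2 =
    true := by decide +kernel

theorem k24_4 : chk 1002 t24.get c24.get d24.get u24 (trm 24 10 5 0) (trm 24 10 5 1) 337 r24_4 =
    true := by decide +kernel

theorem k24_6 : chk 1002 t24.get c24.get d24.get u24 (trm 24 11 2 0) (trm 24 11 2 1) 453 r24_6 =
    true := by decide +kernel

theorem k24_11 : chk 1002 t24.get c24.get d24.get u24 (trm 24 12 3 0) (trm 24 12 3 1) 676 r24_11 =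
    true := by decide +kernel

theorem k24_14 : chk 1002 t24.get c24.get d24.get u24 (trm 24 12 9 0) (trm 24 12 9 1) 787 r24_14 =
    true := by decide +kernel

theorem k24_17 : chk 1002 t24.get c24.get d24.get u24 (trm 24 13 2 0) (trm 24 13 2 1) 889 r24_17 =
    true := by decide +kernel

theorem k24_18 : chk 1002 t24.get c24.get d24.get u24 (trm 24 13 4 0) (trm 24 13 4 1) 917 r24_18 =
    true := by decide +kernel

theorem k24_20 : chk 1002 t24.get c24.get d24.get u24 (trm 24 14 3 0) (trm 24 14 3 1) 953 r24_20 =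
    true := by decide +kernel

theorem k24_21 : chk 1002 t24.get c24.get d24.get u24 (trm 24 14 5 0) (trm 24 14 5 1) 955 r24_21 =
    true := by decide +kernel

theorem k24_23 : chk 1002 t24.get c24.get d24.get u24 (trm 24 16 1 0) (trm 24 16 1 1) 971 r24_23 =
    true := by decide +kernel

end Pool.Agent.FP.Z
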