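import Pool.Agent.FP.ZProg
import Pool.Agent.FP.ZD24

/-! Kernel checks. -/

namespace Pool.Agent.FP.Z

open Fn

theorem k24_0 : chk 1002 t24.get c24.get d24.get u24 (trm 24 9 0 0) (trm 24 9 0 1) 0 r24_0 =
    true := by decide +kernel

theorem k24_3 : chk 1002 t24.get c24.get d24.get u24 (trm 24 10 3 0) (trm 24 10 3 1) 268 r24_3 =
    true := by decide +kernel

theorem k24_9 : chk 1002 t24.get c24.get d24.get u24 (trm 24 11 8 0) (trm 24 11 8 1) 594 r24_9 =
    true := by decide +kernel

theorem k24_12 : chk 1002 t24.get c24.get d24.get u24 (trm 24 12 5 0) (trm 24 12 5 1) 713 r24_12 =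
    true := by decide +kernel

theorem k24_13 : chk 1002 t24.get c24.get d24.get u24 (trm 24 12 7 0) (trm 24 12 7 1) 750 r24_13 =
    true := by decide +kernel

theorem k24_16 : chk 1002 t24.get c24.get d24.get u24 (trm 24 13 0 0) (trm 24 13 0 1) 861 r24_16 =
    true := by decide +kernel

theorem k24_19 : chk 1002 t24.get c24.get d24.get u24 (trm 24 14 1 0) (trm 24 14 1 1) 931 r24_19 =
    true := by decide +kernel

theorem k24_24 : chk 1002 t24.get c24.get d24.get u24 (trm 24 17 0 0) (trm 24 17 0 1) 982 r24_24 =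
    true := by decide +kernel

theorem k24_27 : chk 1002 t24.get c24.get d24.get u24 (trm 24 20 1 0) (trm 24 20 1 1) 997 r24_27 =
    true := by decide +kernel

theorem k24_28 : chk 1002 t24.get c24.get d24.get u24 (trm 24 21 0 0) (trm 24 21 0 1) 999 r24_28 =
    true := by decide +kernel

end Pool.Agent.FP.Z
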