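import Pool.Agent.FP.ZU25a
import Pool.Agent.FP.ZU25b
import Pool.Agent.FP.ZU25c
import Pool.Agent.FP.ZU25d
import Pool.Agent.FP.FinT25

/-! Data. -/

namespace Pool.Agent.FP.Z

open Fn

def c25llll : Tr := (.node (.node (.node (.node (.node (.node (.node .leaf 83 1253 .leaf) 158 1252 .leaf) 219 1250 (.node .leaf 292 1251 .leaf)) 355 1247 (.node (.node (.node .leaf 426 1248 .leaf) 469 1242 .leaf) 568 1249 (.node .leaf 603 1244 .leaf))) 670 1243 (.node (.node (.node (.node .leaf 671 1235 .leaf) 767 1224 .leaf) 804 1245 (.node .leaf 854 1236 .leaf)) 893 1186 (.node (.node (.node .leaf 901 1209 .leaf) 915 1237 .leaf) 989 0 (.node .leaf 1072 1246 .leaf)))) 1098 1239 (.node (.node (.node (.node (.node .leaf 1147 414 .leaf) 1189 135 .leaf) 1220 1238 (.node .leaf 1239 1226 .leaf)) 1298 1225 (.node (.node (.node .leaf 1378 1210 .leaf) 1464 1240 .leaf) 1475 1228 (.node .leaf 1593 1231 .leaf))) 1598 1187 (.node (.node (.node (.node .leaf 1634 1153 .leaf) 1652 1227 .leaf) 1749 1211 (.node .leaf 1770 1229 .leaf)) 1833 1188 (.node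 (.node (.node .leaf 1855 1213 .leaf) 1886 1 .leaf) 1922 415 (.node .leaf 1952 1241 .leaf))))) 2124 1232 (.node (.node (.node (.node (.node (.node .leaf 2146 136 .leaf) 2193 1154 .leaf) 2226 1214 (.node .leaf 2303 1193 .leaf)) 2332 1212 (.node (.node (.node .leaf 2337 231 .leaf) 2360 1230 .leaf) 2385 1217 (.node .leaf 2444 1189 .leaf))) 2553 2 (.node (.node (.node (.node .leaf 2585 1190 .leaf) 2650 1216 .leaf) 2697 137 (.node .leaf 2795 1156 .leaf)) 2832 1233 (.node (.node (.node .leaf 2862 1220 .leaf) 2924 1155 .leaf) 2961 1195 (.node .leaf 2968 1215 .leaf)))) 3102 1191 (.node (.node (.node (.node (.node .leaf 3116 324 .leaf) 3180 1218 .leaf) 3290 1194 (.node .leaf 3311 1159 .leaf)) 3354 1157 (.node (.node (.node .leaf 3404 3 .leaf) 3485 962 .leaf) 3515 482 (.node .leaf 3525 1198 .leaf))) 3565 4 (.node (.node (.node (.node .leaf 3596 138 .leaf) 3731 965 .leaf) 3776 1234 (.node .leaf 3807 1203 .leaf)) 3816 1221 (.node (.node .leaf 3948 1196 .leaf) 4123 421 (.node .leaf 4136 1192 .leaf))))))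

def c25lllr : Tr := (.node (.node (.node (.node (.node (.node (.node .leaf 4205 139 .leaf) 4214 1164 .leaf) 4218 232 (.node .leaf 4230 1200 .leaf)) 4240 1219 (.node (.node (.node .leaf 4257 1161 .leaf) 4278 5 .leaf) 4403 549 (.node .leaf 4472 1158 .leaf))) 4515 1165 (.node (.node (.node (.node .leaf 4669 7 .leaf) 4700 1199 .leaf) 4730 1160 (.node .leaf 4797 967 .leaf)) 4961 970 (.node (.node (.node .leaf 5046 140 .leaf) 5076 1204 .leaf) 5088 1222 (.node .leaf 5239 433 .leaf)))) 5264 1197 (.node (.node (.node (.node (.node .leaf 5291 683 .leaf) 5301 233 .leaf) 5330 966 (.node .leaf 5375 1170 .leaf)) 5418 1167 (.node (.node (.node .leaf 5576 964 .leaf) 5624 325 .leaf) 5640 1201 (.node .leaf 5661 680 .leaf))) 5676 1162 (.node (.node (.node (.node .leaf 5681 19 .leaf) 5704 6 .leaf) 5797 426 (.node .leaf 5805 1173 .leaf)) 5819 12 (.node (.node .leaf 5890 418 .leaf) 6003 9 (.node .leaf 6020 1166 .leaf))))) 6027 977 (.node (.node (.node (.node (.node (.node .leaf 6061 147 .leaf) 6137 1208 .leaf) 6290 615 (.node .leaf 6314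 971 .leaf)) 6396 968 (.node (.node (.node .leaf 6409 154 .leaf) 6450 1171 .leaf) 6647 30 (.node .leaf 6670 8 .leaf))) 6728 141 (.node (.node (.node (.node .leaf 6734 684 .leaf) 6765 972 .leaf) 6768 1205 (.node .leaf 6784 1223 .leaf)) 6966 1177 (.node (.node (.node .leaf 7068 234 .leaf) 7175 979 .leaf) 7215 685 (.node .leaf 7224 1168 .leaf)))) 7378 427 (.node (.node (.node (.node (.node .leaf 7406 13 .leaf) 7520 1202 .leaf) 7548 681 (.node .leaf 7568 1163 .leaf)) 7714 142 (.node (.node (.node .leaf 7740 1174 .leaf) 7749 982 .leaf) 7905 327 (.node .leaf 7935 14 .leaf))) 8004 10 (.node (.node (.node (.node .leaf 8036 978 .leaf) 8118 974 .leaf) 8265 149 (.node .leaf 8463 422 .leaf)) 8528 969 (.node (.node .leaf 8547 691 .leaf) 8600 1172 (.node .leaf 8610 980 .leaf))))))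

def c25lll : Tr := .node c25llll 4182 963 c25lllr

def c25llrl : Tr := (.node (.node (.node (.node (.node (.node (.node .leaf 8866 434 .leaf) 8954 690 .leaf) 9020 973 (.node .leaf 9024 1206 .leaf)) 9065 700 (.node (.node (.node .leaf 9177 21 .leaf) 9225 987 .leaf) 9288 1178 (.node .leaf 9386 1182 .leaf))) 9424 326 (.node (.node (.node (.node .leaf 9486 417 .leaf) 9522 16 .leaf) 9614 20 (.node .leaf 9620 687 .leaf)) 9632 1169 (.node (.node (.node .leaf 9802 165 .leaf) 9918 144 .leaf) 9963 994 (.node .leaf 10064 682 .leaf)))) 10075 424 (.node (.node (.node (.node (.node .leaf 10166 31 .leaf) 10175 693 .leaf) 10250 986 (.node .leaf 10320 1175 .leaf)) 10332 983 (.node (.node (.node .leaf 10353 148 .leaf) 10540 416 .leaf) 10580 15 (.node .leaf 10633 457 .leaf))) 10672 11 (.node (.node (.node (.node .leaf 10824 975 .leaf) 10846 155 .leaf) 10878 701 (.node .leaf 10881 429 .leaf)) 10925 23 (.node (.node (.node .leaf 10982 1185 .leaf) 10989 696 .leaf) 11020 143 (.node .leaf 11070 990 .leaf))))) 11253 435 (.node (.node (.node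 (.node (.node (.node .leaf 11284 423 .leaf) 11396 692 .leaf) 11480 981 (.node .leaf 11544 688 .leaf)) 11655 704 (.node (.node (.node .leaf 11661 45 .leaf) 11799 26 .leaf) 11913 243 (.node .leaf 11935 437 .leaf))) 12032 1207 (.node (.node (.node (.node .leaf 12090 425 .leaf) 12210 694 .leaf) 12236 22 (.node .leaf 12300 988 .leaf)) 12325 158 (.node (.node (.node .leaf 12384 1179 .leaf) 12441 166 .leaf) 12597 250 (.node .leaf 12635 489 .leaf)))) 12648 419 (.node (.node (.node (.node (.node .leaf 12696 17 .leaf) 12903 32 .leaf) 12950 703 (.node .leaf 13110 24 .leaf)) 13195 157 (.node (.node (.node .leaf 13224 145 .leaf) 13284 995 .leaf) 13311 151 (.node .leaf 13671 448 .leaf))) 13685 34 (.node (.node (.node (.node .leaf 13760 1176 .leaf) 13776 984 .leaf) 13804 156 (.node .leaf 13875 711 .leaf)) 13986 707 (.node (.node .leaf 14322 438 .leaf) 14432 976 (.node .leaf 14504 702 .leaf))))))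

def c25llrr : Tr := (.node (.node (.node (.node (.node (.node (.node .leaf 14651 50 .leaf) 14652 697 .leaf) 14739 1183 (.node .leaf 14760 991 .leaf)) 14790 150 (.node (.node (.node .leaf 14985 716 .leaf) 15004 436 .leaf) 15162 238 (.node .leaf 15190 449 .leaf))) 15345 440 (.node (.node (.node (.node .leaf 15392 689 .leaf) 15540 705 .leaf) 15548 46 (.node .leaf 15631 170 .leaf)) 15732 27 (.node (.node (.node .leaf 15827 556 .leaf) 15834 168 .leaf) 15884 336 (.node .leaf 16055 501 .leaf)))) 16120 428 (.node (.node (.node (.node (.node .leaf 16245 235 .leaf) 16275 452 .leaf) 16280 695 (.node .leaf 16400 989 .leaf)) 16422 35 (.node (.node (.node .leaf 16445 47 .leaf) 16512 1180 .leaf) 16588 167 (.node .leaf 16650 713 .leaf))) 16796 343 (.node (.node (.node (.node .leaf 16864 420 .leaf) 16928 18 .leaf) 16965 162 (.node .leaf 17050 446 .leaf)) 17204 33 (.node (.node .leaf 17480 25 .leaf) 17545 179 (.node .leaf 17577 458 .leaf))))) 17595 38 (.node (.node (.node (.node (.node (.node .leaf 17632 146 .leaf) 17712 996 .leaf)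 17748 152 (.node .leaf 17765 494 .leaf)) 17982 722 (.node (.node (.node .leaf 18050 483 .leaf) 18228 450 .leaf) 18368 985 (.node .leaf 18414 443 .leaf))) 18500 712 (.node (.node (.node (.node .leaf 18648 708 .leaf) 18785 1001 .leaf) 18837 52 (.node .leaf 18850 160 .leaf)) 19019 622 (.node (.node (.node .leaf 19096 439 .leaf) 19266 261 .leaf) 19344 431 (.node .leaf 19375 463 .leaf)))) 19481 65 (.node (.node (.node (.node (.node .leaf 19494 236 .leaf) 19530 454 .leaf) 19536 698 (.node .leaf 19550 37 .leaf)) 19652 1184 (.node (.node (.node .leaf 19680 992 .leaf) 19720 159 .leaf) 19734 48 (.node .leaf 19894 186 .leaf))) 19980 717 (.node (.node (.node (.node .leaf 20097 176 .leaf) 20111 568 .leaf) 20216 331 (.node .leaf 20349 244 .leaf)) 20358 172 (.node (.node .leaf 20460 441 .leaf) 20720 706 (.node .leaf 20925 466 .leaf))))))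

def c25llr : Tr := .node c25llrl 14508 430 c25llrr

def c25ll : Tr := .node c25lll 8658 686 c25llr

def c25lrll : Tr := (.node (.node (.node (.node (.node (.node (.node .leaf 20976 28 .leaf) 21054 180 .leaf) 21112 169 (.node .leaf 21114 41 .leaf)) 21315 197 (.node (.node (.node .leaf 21318 251 .leaf) 21660 239 .leaf) 21700 453 (.node .leaf 21896 36 .leaf))) 22016 1181 (.node (.node (.node (.node .leaf 22200 714 .leaf) 22253 561 .leaf) 22330 174 (.node .leaf 22425 55 .leaf)) 22542 1002 (.node (.node (.node .leaf 22599 475 .leaf) 22610 486 .leaf) 22620 163 (.node .leaf 23250 464 .leaf)))) 23436 459 (.node (.node (.node (.node (.node .leaf 23460 39 .leaf) 23616 997 .leaf) 23664 153 (.node .leaf 23667 88 .leaf)) 23925 187 (.node (.node (.node .leaf 23976 721 .leaf) 24167 778 .leaf) 24206 727 (.node .leaf 24219 60 .leaf))) 24225 245 (.node (.node (.node (.node .leaf 24304 451 .leaf) 24453 262 .leaf) 24552 444 (.node .leaf 24794 70 .leaf)) 24864 709 (.node (.node (.node .leaf 25047 67 .leaf) 25110 470 .leaf) 25116 53 (.node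 .leaf 25289 1000 .leaf))))) 25375 198 (.node (.node (.node (.node (.node (.node .leaf 25578 194 .leaf) 25688 354 .leaf) 25792 432 (.node .leaf 25839 188 .leaf)) 25857 774 (.node (.node (.node .leaf 25935 253 .leaf) 25992 237 .leaf) 26040 455 (.node .leaf 26048 699 .leaf))) 26163 246 (.node (.node (.node (.node .leaf 26240 993 .leaf) 26312 49 .leaf) 26565 71 (.node .leaf 26640 718 .leaf)) 26741 732 (.node (.node (.node .leaf 26796 177 .leaf) 26910 57 .leaf) 27132 252 (.node .leaf 27144 171 .leaf)))) 27170 495 (.node (.node (.node (.node (.node .leaf 27280 442 .leaf) 27405 200 .leaf) 27830 66 (.node .leaf 27900 467 .leaf)) 27968 29 (.node (.node (.node .leaf 28072 181 .leaf) 28152 42 .leaf) 28175 90 (.node .leaf 28322 550 .leaf))) 28420 191 (.node (.node (.node (.node .leaf 28424 344 .leaf) 28611 729 .leaf) 28710 183 (.node .leaf 28730 634 .leaf)) 28880 328 (.node (.node .leaf 29070 241 .leaf) 29600 715 (.node .leaf 29900 56 .leaf))))))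

def c25lrlr : Tr := (.node (.node (.node (.node (.node (.node (.node .leaf 30132 476 .leaf) 30160 164 .leaf) 30345 346 (.node .leaf 30429 93 .leaf)) 30450 199 (.node (.node (.node .leaf 30723 266 .leaf) 30758 779 .leaf) 30875 490 (.node .leaf 31000 465 .leaf))) 31122 249 (.node (.node (.node (.node .leaf 31248 460 .leaf) 31280 40 .leaf) 31488 998 (.node .leaf 31552 161 .leaf)) 31556 89 (.node (.node (.node .leaf 31625 76 .leaf) 31790 627 .leaf) 31878 73 (.node .leaf 31900 182 .leaf)))) 31968 723 (.node (.node (.node (.node (.node .leaf 32186 728 .leaf) 32292 61 .leaf) 32300 332 (.node .leaf 32487 492 .leaf)) 32585 525 (.node (.node (.node .leaf 32604 263 .leaf) 32625 211 .leaf) 32736 445 (.node .leaf 32886 205 .leaf))) 32955 737 (.node (.node (.node (.node .leaf 33152 710 .leaf) 33345 257 .leaf) 33396 68 (.node .leaf 33480 471 .leaf)) 33488 54 (.node (.node .leaf 33810 91 .leaf) 34034 554 (.node .leaf 34104 195 .leaf))))) 34155 79 (.node (.node (.node (.node (.node (.node .leaf 34452 189 .leaf) 34476 775 .leaf) 34485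 260 (.node .leaf 34580 338 .leaf)) 34656 240 (.node (.node (.node .leaf 34720 456 .leaf) 34884 247 .leaf) 35235 218 (.node .leaf 35420 72 .leaf))) 35520 719 (.node (.node (.node (.node .leaf 35728 178 .leaf) 35880 58 .leaf) 36125 551 (.node .leaf 36176 337 .leaf)) 36192 173 (.node (.node (.node .leaf 36225 98 .leaf) 36250 209 .leaf) 36414 485 (.node .leaf 36465 356 .leaf)))) 36540 201 (.node (.node (.node (.node (.node .leaf 36575 505 .leaf) 37050 256 .leaf) 37200 468 (.node .leaf 37536 43 .leaf)) 37950 77 (.node (.node (.node .leaf 38148 730 .leaf) 38280 184 .leaf) 38675 557 (.node .leaf 38760 242 .leaf))) 39015 335 (.node (.node (.node (.node .leaf 39039 576 .leaf) 39102 282 .leaf) 39123 105 (.node .leaf 39150 214 .leaf)) 39501 272 (.node (.node .leaf 39546 780 .leaf) 40014 264 (.node .leaf 40176 477 .leaf))))))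

def c25lrl : Tr := .node c25lrll 30056 1003 c25lrlr

def c25lrrl : Tr := (.node (.node (.node (.node (.node (.node (.node .leaf 40460 484 .leaf) 40572 94 .leaf) 40600 203 (.node .leaf 40817 592 .leaf)) 40898 783 (.node (.node (.node .leaf 40964 350 .leaf) 40986 83 .leaf) 41382 269 (.node .leaf 41405 639 .leaf))) 41496 255 (.node (.node (.node (.node .leaf 41664 461 .leaf) 41769 496 .leaf) 41895 286 (.node .leaf 41984 999 .leaf)) 42282 224 (.node (.node (.node .leaf 42504 74 .leaf) 42624 724 .leaf) 43056 62 (.node .leaf 43125 111 .leaf)))) 43197 500 (.node (.node (.node (.node (.node .leaf 43316 491 .leaf) 43350 334 .leaf) 43470 101 (.node .leaf 43472 355 .leaf)) 43500 212 (.node (.node (.node .leaf 43648 447 .leaf) 43758 733 .leaf) 43848 206 (.node .leaf 43890 270 .leaf))) 43940 739 (.node (.node (.node (.node .leaf 44460 258 .leaf) 44528 69 .leaf) 44640 472 (.node .leaf 45080 92 .leaf)) 45254 777 (.node (.node (.node .leaf 45472 196 .leaf) 45540 80 .leaf) 45815 566 (.node .leaf 45936 190 .leaf))))) 45968 776 (.node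 (.node (.node (.node (.node (.node .leaf 45980 348 .leaf) 46208 329 .leaf) 46410 349 (.node .leaf 46475 638 .leaf)) 46512 248 (.node (.node (.node .leaf 46550 514 .leaf) 46575 116 .leaf) 46818 555 (.node .leaf 46980 219 .leaf))) 47025 275 (.node (.node (.node (.node .leaf 47360 720 .leaf) 47840 59 .leaf) 48256 175 (.node .leaf 48300 99 .leaf)) 48552 487 (.node (.node (.node .leaf 48620 620 .leaf) 48720 202 .leaf) 49049 658 (.node .leaf 49400 340 .leaf)))) 49600 469 (.node (.node (.node (.node (.node .leaf 49686 578 .leaf) 49725 351 .leaf) 49875 293 (.node .leaf 50048 44 .leaf)) 50193 740 (.node (.node (.node .leaf 50274 288 .leaf) 50301 127 .leaf) 50600 78 (.node .leaf 50787 280 .leaf))) 50864 731 (.node (.node (.node (.node .leaf 51040 185 .leaf) 51425 565 .leaf) 51680 330 (.node .leaf 51750 113 .leaf)) 51909 786 (.node (.node .leaf 52020 341 .leaf) 52052 577 (.node .leaf 52136 371 .leaf))))))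

def c25lrrr : Tr := (.node (.node (.node (.node (.node (.node (.node .leaf 52200 215 .leaf) 52250 502 .leaf) 52479 513 (.node .leaf 52668 273 .leaf)) 52728 781 (.node (.node (.node .leaf 53235 642 .leaf) 53352 265 .leaf) 53568 478 (.node .leaf 53703 562 .leaf))) 53865 294 (.node (.node (.node (.node .leaf 54096 95 .leaf) 54648 84 .leaf) 54978 504 (.node .leaf 55055 643 .leaf)) 55176 271 (.node (.node (.node .leaf 55250 558 .leaf) 55328 339 .leaf) 55539 626 (.node .leaf 55552 462 .leaf)))) 55692 497 (.node (.node (.node (.node (.node .leaf 55770 511 .leaf) 55860 287 .leaf) 55890 121 (.node .leaf 56376 225 .leaf)) 56430 276 (.node (.node (.node .leaf 56672 75 .leaf) 56832 725 .leaf) 57408 63 (.node .leaf 57500 112 .leaf))) 57596 503 (.node (.node (.node (.node .leaf 57800 552 .leaf) 57960 102 .leaf) 58000 213 (.node .leaf 58310 574 .leaf)) 58344 734 (.node (.node .leaf 58464 207 .leaf) 58520 358 (.node .leaf 58905 365 .leaf))))) 59150 641 (.node (.node (.node (.node (.node (.node .leaf 59280 259 .leaf) 59375 517 .leaf)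 59520 473 (.node .leaf 59670 353 .leaf)) 59850 291 (.node (.node (.node .leaf 60720 81 .leaf) 61248 192 .leaf) 61710 363 (.node .leaf 61880 493 .leaf))) 62016 254 (.node (.node (.node (.node .leaf 62100 117 .leaf) 62424 616 .leaf) 62426 789 (.node .leaf 62475 388 .leaf)) 62640 220 (.node (.node (.node .leaf 62700 278 .leaf) 63063 590 .leaf) 63375 749 (.node .leaf 63882 745 .leaf)))) 64125 305 (.node (.node (.node (.node (.node .leaf 64400 100 .leaf) 64638 298 .leaf) 64736 488 (.node .leaf 64960 204 .leaf)) 65219 838 (.node (.node (.node .leaf 65450 567 .leaf) 66066 588 .leaf) 66248 742 (.node .leaf 66300 352 .leaf))) 66500 373 (.node (.node (.node (.node .leaf 66885 601 .leaf) 66924 741 .leaf) 67032 289 (.node .leaf 67068 128 .leaf)) 67473 520 (.node (.node .leaf 67716 281 .leaf) 68445 754 (.node .leaf 69000 114 .leaf))))))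

def c25lrr : Tr := .node c25lrrl 52164 106 c25lrrr

def c25lr : Tr := .node c25lrl 40250 97 c25lrr

def c25l : Tr := .node c25ll 20930 51 c25lr

def c25rlll : Tr := (.node (.node (.node (.node (.node (.node (.node .leaf 69255 311 .leaf) 69360 342 .leaf) 69552 107 (.node .leaf 69600 216 .leaf)) 69972 515 (.node (.node (.node .leaf 70070 646 .leaf) 70125 377 .leaf) 70224 274 (.node .leaf 70304 782 .leaf))) 70686 508 (.node (.node (.node (.node .leaf 70785 523 .leaf) 70980 743 .leaf) 71136 267 (.node .leaf 71250 303 .leaf)) 71424 479 (.node (.node (.node .leaf 71604 563 .leaf) 71820 295 .leaf) 72128 96 (.node .leaf 72864 85 .leaf)))) 73205 812 (.node (.node (.node (.node (.node .leaf 73304 506 .leaf) 73568 357 .leaf) 74052 628 (.node .leaf 74256 498 .leaf)) 74360 640 (.node (.node (.node .leaf 74375 579 .leaf) 74480 369 .leaf) 74520 122 (.node .leaf 74970 380 .leaf))) 75075 534 (.node (.node (.node (.node .leaf 75168 226 .leaf) 75240 277 .leaf) 75735 375 (.node .leaf 75776 726 .leaf)) 76050 751 (.node (.node (.node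 .leaf 76544 64 .leaf) 76950 307 .leaf) 77280 103 (.node .leaf 77792 735 .leaf))))) 77952 208 (.node (.node (.node (.node (.node (.node .leaf 78540 366 .leaf) 78650 644 .leaf) 79040 345 (.node .leaf 79233 867 .leaf)) 79360 474 (.node (.node (.node .leaf 79560 359 .leaf) 79625 655 .leaf) 79800 292 (.node .leaf 80262 603 .leaf))) 80325 385 (.node (.node (.node (.node .leaf 80960 82 .leaf) 81081 597 .leaf) 81664 193 (.node .leaf 82134 759 .leaf)) 82280 564 (.node (.node (.node .leaf 82688 333 .leaf) 82800 118 .leaf) 83006 843 (.node .leaf 83106 317 .leaf)))) 83232 617 (.node (.node (.node (.node (.node .leaf 83300 518 .leaf) 83520 221 .leaf) 83600 361 (.node .leaf 83853 613 .leaf)) 84035 1004 (.node (.node (.node .leaf 84084 591 .leaf) 84150 367 .leaf) 84500 750 (.node .leaf 84942 765 .leaf))) 85176 746 (.node (.node (.node (.node .leaf 85500 304 .leaf) 85995 605 .leaf) 86184 299 (.node .leaf 86751 531 .leaf)) 87846 813 (.node (.node .leaf 88088 589 .leaf) 88400 559 (.node .leaf 88935 677 .leaf))))))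

def c25rllr : Tr := (.node (.node (.node (.node (.node (.node (.node .leaf 89232 784 .leaf) 89250 384 .leaf) 89375 647 (.node .leaf 89376 290 .leaf)) 89424 129 (.node (.node (.node .leaf 89964 521 .leaf) 90090 538 .leaf) 90288 283 (.node .leaf 90882 572 .leaf))) 91260 755 (.node (.node (.node (.node .leaf 92000 115 .leaf) 92340 312 .leaf) 92480 553 (.node .leaf 92736 108 .leaf)) 92800 217 (.node (.node (.node .leaf 93170 674 .leaf) 93296 516 .leaf) 93500 569 (.node .leaf 93632 360 .leaf)))) 94248 509 (.node (.node (.node (.node (.node .leaf 94325 880 .leaf) 94380 524 .leaf) 94640 744 (.node .leaf 94848 268 .leaf)) 95000 386 (.node (.node (.node .leaf 95232 480 .leaf) 95472 621 .leaf) 95550 606 (.node .leaf 95625 398 .leaf))) 95760 296 (.node (.node (.node (.node .leaf 96390 394 .leaf) 96525 542 .leaf) 97152 86 (.node .leaf 98736 736 .leaf)) 99008 499 (.node (.node .leaf 99360 123 .leaf) 99825 675 (.node .leaf 99960 383 .leaf))))) 100100 595 (.node (.node (.node (.node (.node (.node .leaf 100224 227 .leaf) 100320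 279 .leaf) 100842 1005 (.node .leaf 100980 370 .leaf)) 101400 752 (.node (.node (.node .leaf 101871 883 .leaf) 102375 660 .leaf) 102600 308 (.node .leaf 103040 104 .leaf))) 103194 609 (.node (.node (.node (.node .leaf 103275 403 .leaf) 103936 210 .leaf) 104247 651 (.node .leaf 104720 507 .leaf)) 105644 878 (.node (.node (.node .leaf 105875 845 .leaf) 106080 362 .leaf) 106250 575 (.node .leaf 106400 378 .leaf)))) 106722 679 (.node (.node (.node (.node (.node .leaf 107016 604 .leaf) 107100 390 .leaf) 107250 541 (.node .leaf 107811 819 .leaf)) 108045 1007 (.node (.node (.node .leaf 108108 598 .leaf) 109512 760 .leaf) 110400 119 (.node .leaf 110565 667 .leaf))) 110808 318 (.node (.node (.node (.node .leaf 110976 618 .leaf) 111360 222 .leaf) 111537 584 (.node .leaf 111804 614 .leaf)) 112112 594 (.node (.node .leaf 112200 374 .leaf) 113190 881 (.node .leaf 113256 766 .leaf))))))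

def c25rll : Tr := .node c25rlll 89180 654 c25rllr

def c25rlrl : Tr := (.node (.node (.node (.node (.node (.node (.node .leaf 113750 659 .leaf) 114000 306 .leaf) 114345 848 (.node .leaf 114660 607 .leaf)) 114750 400 (.node (.node (.node .leaf 114912 300 .leaf) 115668 532 .leaf) 115830 545 (.node .leaf 117128 814 .leaf))) 118580 678 (.node (.node (.node (.node .leaf 118976 785 .leaf) 119000 529 .leaf) 119168 372 (.node .leaf 119232 130 .leaf)) 119790 816 (.node (.node (.node .leaf 119952 522 .leaf) 120050 1008 .leaf) 120120 539 (.node .leaf 120384 284 .leaf)))) 121176 573 (.node (.node (.node (.node (.node .leaf 121275 888 .leaf) 121680 756 .leaf) 121875 673 (.node .leaf 122850 663 .leaf)) 123120 313 (.node (.node (.node .leaf 123648 109 .leaf) 123930 408 .leaf) 125664 510 (.node .leaf 125840 645 .leaf))) 126464 347 (.node (.node (.node (.node .leaf 126976 481 .leaf) 127050 846 .leaf) 127296 623 (.node .leaf 127400 656 .leaf)) 127500 399 (.node (.node (.node .leaf 127680 297 .leaf) 128520 395 .leaf) 128625 1016 (.node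 .leaf 128700 543 .leaf))))) 129536 87 (.node (.node (.node (.node (.node (.node .leaf 129654 1011 .leaf) 130977 895 .leaf) 131625 801 (.node .leaf 131648 738 .leaf)) 132480 124 (.node (.node (.node .leaf 132678 790 .leaf) 133100 676 .leaf) 133280 519 (.node .leaf 133632 228 .leaf))) 133760 364 (.node (.node (.node (.node .leaf 134456 1006 .leaf) 134640 379 .leaf) 134750 887 (.node .leaf 135200 753 .leaf)) 135828 884 (.node (.node (.node .leaf 136125 858 .leaf) 136500 661 .leaf) 136800 309 (.node .leaf 137214 852 .leaf)))) 137592 610 (.node (.node (.node (.node (.node .leaf 137700 404 .leaf) 138915 1020 .leaf) 138996 652 (.node .leaf 141440 560 .leaf)) 142155 821 (.node (.node (.node .leaf 142296 820 .leaf) 142688 772 .leaf) 142800 391 (.node .leaf 143000 648 .leaf))) 143748 839 (.node (.node (.node (.node .leaf 144060 1009 .leaf) 144144 599 .leaf) 144375 901 (.node .leaf 145530 891 .leaf)) 146016 761 (.node (.node .leaf 146250 798 .leaf) 147015 865 (.node .leaf 147200 120 .leaf))))))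

def c25rlrr : Tr := (.node (.node (.node (.node (.node (.node (.node .leaf 147744 319 .leaf) 147968 619 .leaf) 148480 223 (.node .leaf 148716 585 .leaf)) 149072 815 (.node (.node (.node .leaf 149600 570 .leaf) 150920 882 .leaf) 151008 767 (.node .leaf 151250 857 .leaf))) 151424 748 (.node (.node (.node (.node .leaf 152000 387 .leaf) 152460 849 .leaf) 152880 608 (.node .leaf 153000 401 .leaf)) 153125 1031 (.node (.node (.node .leaf 153216 301 .leaf) 154224 533 .leaf) 154350 1017 (.node .leaf 154440 546 .leaf)))) 155925 906 (.node (.node (.node (.node (.node .leaf 157950 806 .leaf) 158976 131 .leaf) 159720 817 (.node .leaf 159936 526 .leaf)) 160160 596 (.node (.node (.node .leaf 160512 285 .leaf) 161568 629 .leaf) 161700 889 (.node .leaf 162240 757 .leaf))) 162500 797 (.node (.node (.node (.node .leaf 163350 861 .leaf) 163800 664 .leaf) 164160 314 (.node .leaf 164864 110 .leaf)) 165240 409 (.node (.node .leaf 165375 1034 .leaf) 166698 1025 (.node .leaf 167552 512 .leaf))))) 168399 917 (.node (.node (.node (.node (.node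 (.node .leaf 169400 847 .leaf) 169728 624 .leaf) 170000 580 (.node .leaf 170240 376 .leaf)) 170586 828 (.node (.node (.node .leaf 171360 396 .leaf) 171500 1015 .leaf) 171600 544 (.node .leaf 171875 925 .leaf))) 172872 1012 (.node (.node (.node (.node .leaf 173250 903 .leaf) 174636 896 .leaf) 175500 802 (.node .leaf 176418 872 .leaf)) 176640 125 (.node (.node (.node .leaf 176904 791 .leaf) 178176 229 .leaf) 178605 1043 (.node .leaf 179520 382 .leaf)))) 181104 885 (.node (.node (.node (.node (.node .leaf 181500 859 .leaf) 182000 662 .leaf) 182400 310 (.node .leaf 182952 853 .leaf)) 183456 611 (.node (.node (.node .leaf 183600 405 .leaf) 183750 1032 .leaf) 185220 1021 (.node .leaf 185328 653 .leaf))) 185625 928 (.node (.node (.node (.node .leaf 187110 912 .leaf) 189540 822 .leaf) 189728 844 (.node .leaf 190400 528 .leaf)) 191664 841 (.node (.node .leaf 192080 1010 .leaf) 192192 600 (.node .leaf 192500 902 .leaf))))))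

def c25rlr : Tr := .node c25rlrl 147420 668 c25rlrr

def c25rl : Tr := .node c25rll 113568 747 c25rlr

def c25rrll : Tr := (.node (.node (.node (.node (.node (.node (.node .leaf 194688 762 .leaf) 195000 799 .leaf) 196020 866 (.node .leaf 196560 669 .leaf)) 196875 1059 (.node (.node (.node .leaf 196992 320 .leaf) 198288 586 .leaf) 198450 1038 (.node .leaf 200475 937 .leaf))) 201344 788 (.node (.node (.node (.node .leaf 203280 850 .leaf) 203840 657 .leaf) 204000 402 (.node .leaf 204288 302 .leaf)) 205632 535 (.node (.node (.node .leaf 205800 1018 .leaf) 205920 547 .leaf) 206250 926 (.node .leaf 207900 907 .leaf)))) 210600 807 (.node (.node (.node (.node (.node .leaf 211968 132 .leaf) 212625 1066 .leaf) 212960 818 (.node .leaf 213248 527 .leaf)) 214016 368 (.node (.node (.node .leaf 214326 1050 .leaf) 215424 630 .leaf) 215600 890 (.node .leaf 216320 758 .leaf))) 216513 952 (.node (.node (.node (.node .leaf 217800 862 .leaf) 218400 665 .leaf) 218750 1058 (.node .leaf 218880 315 .leaf)) 220320 410 (.node (.node (.node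 .leaf 220500 1035 .leaf) 222264 1026 .leaf) 222750 932 (.node .leaf 224532 918 .leaf))))) 226304 625 (.node (.node (.node (.node (.node (.node .leaf 227448 830 .leaf) 228480 397 .leaf) 228800 649 (.node .leaf 229635 1079 .leaf)) 230496 1013 (.node (.node (.node .leaf 231000 904 .leaf) 232848 897 .leaf) 234000 803 (.node .leaf 234375 1098 .leaf))) 235224 873 (.node (.node (.node (.node .leaf 235520 126 .leaf) 235872 792 .leaf) 236250 1062 (.node .leaf 237568 230 .leaf)) 238140 1044 (.node (.node (.node .leaf 239360 571 .leaf) 240570 944 .leaf) 241472 886 (.node .leaf 242000 860 .leaf)))) 243200 389 (.node (.node (.node (.node (.node .leaf 243936 855 .leaf) 244608 612 .leaf) 244800 406 (.node .leaf 245000 1033 .leaf)) 246960 1022 (.node (.node (.node .leaf 247104 768 .leaf) 247500 929 .leaf) 249480 911 (.node .leaf 252720 823 .leaf))) 253125 1103 (.node (.node (.node (.node .leaf 255150 1072 .leaf) 255552 840 .leaf) 256256 602 (.node .leaf 258720 894 .leaf)) 259584 763 (.node (.node .leaf 260000 800 .leaf) 261360 868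 (.node .leaf 262080 670 .leaf))))))

def c25rrlr : Tr := (.node (.node (.node (.node (.node (.node (.node .leaf 262656 321 .leaf) 264384 587 .leaf) 264600 1039 (.node .leaf 267300 938 .leaf)) 271040 851 (.node (.node (.node .leaf 272000 581 .leaf) 272384 381 .leaf) 273375 1114 (.node .leaf 274176 536 .leaf))) 274400 1019 (.node (.node (.node (.node .leaf 274560 548 .leaf) 275000 927 .leaf) 275562 1088 (.node .leaf 277200 908 .leaf)) 280800 808 (.node (.node (.node .leaf 281250 1100 .leaf) 282624 133 .leaf) 283500 1067 (.node .leaf 285768 1051 .leaf)))) 287232 631 (.node (.node (.node (.node (.node .leaf 288684 953 .leaf) 290400 863 .leaf) 291200 666 (.node .leaf 291840 316 .leaf)) 293760 411 (.node (.node (.node .leaf 294000 1036 .leaf) 295245 1131 .leaf) 296352 1027 (.node .leaf 297000 934 .leaf))) 299376 919 (.node (.node (.node (.node .leaf 303264 831 .leaf) 303750 1108 .leaf) 304640 530 (.node .leaf 306180 1080 .leaf)) 307328 1014 (.node (.node .leaf 308000 905 .leaf) 310464 898 (.node .leaf 312000 804 .leaf)))))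 312500 1099 (.node (.node (.node (.node (.node (.node .leaf 313632 874 .leaf) 314496 793 .leaf) 315000 1063 (.node .leaf 317520 1045 .leaf)) 320760 945 (.node (.node (.node .leaf 325248 854 .leaf) 326144 773 .leaf) 326400 407 (.node .leaf 328050 1122 .leaf))) 329280 1023 (.node (.node (.node (.node .leaf 329472 769 .leaf) 330000 930 .leaf) 332640 913 (.node .leaf 336960 824 .leaf)) 337500 1104 (.node (.node (.node .leaf 340200 1073 .leaf) 340736 842 .leaf) 344960 893 (.node .leaf 346112 764 .leaf)))) 348480 869 (.node (.node (.node (.node (.node .leaf 349440 671 .leaf) 350000 1061 .leaf) 350208 322 (.node .leaf 352512 593 .leaf)) 352800 1040 (.node (.node (.node .leaf 354294 1142 .leaf) 356400 939 .leaf) 364500 1115 (.node .leaf 365568 537 .leaf))) 366080 650 (.node (.node (.node (.node .leaf 367416 1089 .leaf) 369600 910 .leaf) 374400 809 (.node .leaf 375000 1101 .leaf)) 376832 134 (.node (.node .leaf 378000 1068 .leaf) 381024 1052 (.node .leaf 382976 632 .leaf))))))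

def c25rrl : Tr := .node c25rrll 262500 1060 c25rrlr

def c25rrrl : Tr := (.node (.node (.node (.node (.node (.node (.node .leaf 387200 864 .leaf) 389120 392 .leaf) 391680 412 (.node .leaf 392000 1037 .leaf)) 393660 1132 (.node (.node (.node .leaf 395136 1028 .leaf) 396000 933 .leaf) 399168 920 (.node .leaf 404352 832 .leaf))) 405000 1109 (.node (.node (.node (.node .leaf 408240 1081 .leaf) 413952 899 .leaf) 416000 805 (.node .leaf 418176 875 .leaf)) 419328 794 (.node (.node (.node .leaf 420000 1064 .leaf) 423360 1046 .leaf) 427680 946 (.node .leaf 433664 856 .leaf)))) 435200 582 (.node (.node (.node (.node (.node .leaf 437400 1123 .leaf) 439040 1024 .leaf) 439296 770 (.node .leaf 440000 931 .leaf)) 443520 914 (.node (.node (.node .leaf 449280 825 .leaf) 450000 1105 .leaf) 453600 1074 (.node .leaf 464640 870 .leaf))) 465920 672 (.node (.node (.node (.node .leaf 466944 323 .leaf) 470016 633 .leaf) 470400 1041 (.node .leaf 472392 1143 .leaf)) 475200 940 (.node (.node (.node .leaf 486000 1116 .leaf) 487424 540 .leaf)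 489888 1090 (.node .leaf 492800 909 .leaf))))) 499200 810 (.node (.node (.node (.node (.node (.node .leaf 500000 1102 .leaf) 504000 1069 .leaf) 508032 1053 (.node .leaf 513216 955 .leaf)) 522240 413 (.node (.node (.node .leaf 524880 1133 .leaf) 526848 1029 .leaf) 528000 935 (.node .leaf 532224 921 .leaf))) 539136 833 (.node (.node (.node (.node .leaf 540000 1110 .leaf) 544320 1082 .leaf) 551936 900 (.node .leaf 557568 876 .leaf)) 559104 795 (.node (.node (.node .leaf 560000 1065 .leaf) 564480 1047 .leaf) 570240 947 (.node .leaf 583200 1124 .leaf)))) 585728 771 (.node (.node (.node (.node (.node .leaf 591360 915 .leaf) 599040 826 .leaf) 600000 1106 (.node .leaf 604800 1075 .leaf)) 619520 871 (.node (.node (.node .leaf 622592 393 .leaf) 626688 635 .leaf) 627200 1042 (.node .leaf 629856 1144 .leaf))) 633600 941 (.node (.node (.node (.node .leaf 648000 1117 .leaf) 653184 1091 .leaf) 665600 811 (.node .leaf 672000 1070 .leaf)) 677376 1054 (.node (.node .leaf 684288 956 .leaf) 696320 583 (.node .leaf 699840 1134 .leaf))))))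

def c25rrrr : Tr := (.node (.node (.node (.node (.node (.node (.node .leaf 704000 936 .leaf) 709632 922 .leaf) 718848 834 (.node .leaf 720000 1111 .leaf)) 725760 1083 (.node (.node (.node .leaf 743424 877 .leaf) 745472 796 .leaf) 752640 1048 (.node .leaf 760320 948 .leaf))) 777600 1125 (.node (.node (.node (.node .leaf 788480 916 .leaf) 798720 827 .leaf) 800000 1107 (.node .leaf 806400 1076 .leaf)) 835584 636 (.node (.node (.node .leaf 839808 1145 .leaf) 844800 942 .leaf) 864000 1118 (.node .leaf 870912 1092 .leaf)))) 896000 1071 (.node (.node (.node (.node (.node .leaf 903168 1055 .leaf) 912384 957 .leaf) 933120 1135 (.node .leaf 946176 923 .leaf)) 958464 835 (.node (.node (.node .leaf 960000 1112 .leaf) 967680 1084 .leaf) 991232 879 (.node .leaf 1003520 1049 .leaf))) 1013760 949 (.node (.node (.node (.node .leaf 1036800 1126 .leaf) 1064960 829 .leaf) 1075200 1077 (.node .leaf 1114112 637 .leaf)) 1119744 1146 (.node (.node .leaf 1126400 943 .leaf) 1152000 1119 (.node .leaf 1161216 1093 .leaf))))) 1204224 1056 (.node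 (.node (.node (.node (.node (.node .leaf 1216512 958 .leaf) 1244160 1136 .leaf) 1261568 924 (.node .leaf 1277952 836 .leaf)) 1280000 1113 (.node (.node (.node .leaf 1290240 1085 .leaf) 1351680 950 .leaf) 1382400 1127 (.node .leaf 1433600 1078 .leaf))) 1492992 1147 (.node (.node (.node (.node .leaf 1536000 1120 .leaf) 1548288 1094 .leaf) 1605632 1057 (.node .leaf 1622016 959 .leaf)) 1658880 1137 (.node (.node (.node .leaf 1703936 837 .leaf) 1720320 1086 .leaf) 1802240 951 (.node .leaf 1843200 1128 .leaf)))) 1990656 1148 (.node (.node (.node (.node (.node .leaf 2048000 1121 .leaf) 2064384 1095 .leaf) 2162688 960 (.node .leaf 2211840 1138 .leaf)) 2293760 1087 (.node (.node (.node .leaf 2457600 1129 .leaf) 2654208 1149 .leaf) 2752512 1096 (.node .leaf 2883584 961 .leaf))) 2949120 1139 (.node (.node (.node (.node .leaf 3276800 1130 .leaf) 3538944 1150 .leaf) 3670016 1097 (.node .leaf 3932160 1140 .leaf)) 4718592 1151 (.node (.node .leaf 5242880 1141 .leaf) 6291456 1152 (.node .leaf 8388608 1254 .leaf))))))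

def c25rrr : Tr := .node c25rrrl 702464 1030 c25rrrr

def c25rr : Tr := .node c25rrl 384912 954 c25rrr

def c25r : Tr := .node c25rl 194040 892 c25rr

def c25 : Tr := .node c25l 69212 787 c25r

def d25llll : Tr := (.node (.node (.node (.node (.node (.node (.node .leaf 0 989 .leaf) 1 1886 .leaf) 2 2553 (.node .leaf 3 3404 .leaf)) 4 3565 (.node (.node (.node .leaf 5 4278 .leaf) 6 5704 .leaf) 7 4669 (.node .leaf 8 6670 .leaf))) 9 6003 (.node (.node (.node (.node .leaf 10 8004 .leaf) 11 10672 .leaf) 12 5819 (.node .leaf 13 7406 .leaf)) 14 7935 (.node (.node (.node .leaf 15 10580 .leaf) 16 9522 .leaf) 17 12696 (.node .leaf 18 16928 .leaf)))) 19 5681 (.node (.node (.node (.node (.node .leaf 20 9614 .leaf) 21 9177 .leaf) 22 12236 (.node .leaf 23 10925 .leaf)) 24 13110 (.node (.node (.node .leaf 25 17480 .leaf) 26 11799 .leaf) 27 15732 (.node .leaf 28 20976 .leaf))) 29 27968 (.node (.node (.node (.node .leaf 30 6647 .leaf) 31 10166 .leaf) 32 12903 (.node .leaf 33 17204 .leaf)) 34 13685 (.node (.node (.node .leaf 35 16422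 .leaf) 36 21896 .leaf) 37 19550 (.node .leaf 38 17595 .leaf))))) 39 23460 (.node (.node (.node (.node (.node (.node .leaf 40 31280 .leaf) 41 21114 .leaf) 42 28152 (.node .leaf 43 37536 .leaf)) 44 50048 (.node (.node (.node .leaf 45 11661 .leaf) 46 15548 .leaf) 47 16445 (.node .leaf 48 19734 .leaf))) 49 26312 (.node (.node (.node (.node .leaf 50 14651 .leaf) 51 20930 .leaf) 52 18837 (.node .leaf 53 25116 .leaf)) 54 33488 (.node (.node (.node .leaf 55 22425 .leaf) 56 29900 .leaf) 57 26910 (.node .leaf 58 35880 .leaf)))) 59 47840 (.node (.node (.node (.node (.node .leaf 60 24219 .leaf) 61 32292 .leaf) 62 43056 (.node .leaf 63 57408 .leaf)) 64 76544 (.node (.node (.node .leaf 65 19481 .leaf) 66 27830 .leaf) 67 25047 (.node .leaf 68 33396 .leaf))) 69 44528 (.node (.node (.node (.node .leaf 70 24794 .leaf) 71 26565 .leaf) 72 35420 (.node .leaf 73 31878 .leaf)) 74 42504 (.node (.node .leaf 75 56672 .leaf) 76 31625 (.node .leaf 77 37950 .leaf))))))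

def d25lllr : Tr := (.node (.node (.node (.node (.node (.node (.node .leaf 79 34155 .leaf) 80 45540 .leaf) 81 60720 (.node .leaf 82 80960 .leaf)) 83 40986 (.node (.node (.node .leaf 84 54648 .leaf) 85 72864 .leaf) 86 97152 (.node .leaf 87 129536 .leaf))) 88 23667 (.node (.node (.node (.node .leaf 89 31556 .leaf) 90 28175 .leaf) 91 33810 (.node .leaf 92 45080 .leaf)) 93 30429 (.node (.node (.node .leaf 94 40572 .leaf) 95 54096 .leaf) 96 72128 (.node .leaf 97 40250 .leaf)))) 98 36225 (.node (.node (.node (.node (.node .leaf 99 48300 .leaf) 100 64400 .leaf) 101 43470 (.node .leaf 102 57960 .leaf)) 103 77280 (.node (.node (.node .leaf 104 103040 .leaf) 105 39123 .leaf) 106 52164 (.node .leaf 107 69552 .leaf))) 108 92736 (.node (.node (.node (.node .leaf 109 123648 .leaf) 110 164864 .leaf) 111 43125 (.node .leaf 112 57500 .leaf)) 113 51750 (.node (.node .leaf 114 69000 .leaf) 115 92000 (.node .leaf 116 46575 .leaf))))) 117 62100 (.node (.node (.node (.node (.node (.node .leaf 118 82800 .leaf) 119 110400 .leaf) 120 147200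 (.node .leaf 121 55890 .leaf)) 122 74520 (.node (.node (.node .leaf 123 99360 .leaf) 124 132480 .leaf) 125 176640 (.node .leaf 126 235520 .leaf))) 127 50301 (.node (.node (.node (.node .leaf 128 67068 .leaf) 129 89424 .leaf) 130 119232 (.node .leaf 131 158976 .leaf)) 132 211968 (.node (.node (.node .leaf 133 282624 .leaf) 134 376832 .leaf) 135 1189 (.node .leaf 136 2146 .leaf)))) 137 2697 (.node (.node (.node (.node (.node .leaf 138 3596 .leaf) 139 4205 .leaf) 140 5046 (.node .leaf 141 6728 .leaf)) 142 7714 (.node (.node (.node .leaf 143 11020 .leaf) 144 9918 .leaf) 145 13224 (.node .leaf 146 17632 .leaf))) 147 6061 (.node (.node (.node (.node .leaf 148 10353 .leaf) 149 8265 .leaf) 150 14790 (.node .leaf 151 13311 .leaf)) 152 17748 (.node (.node .leaf 153 23664 .leaf) 154 6409 (.node .leaf 155 10846 .leaf))))))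

def d25lll : Tr := .node d25llll 78 50600 d25lllr

def d25llrl : Tr := (.node (.node (.node (.node (.node (.node (.node .leaf 157 13195 .leaf) 158 12325 .leaf) 159 19720 (.node .leaf 160 18850 .leaf)) 161 31552 (.node (.node (.node .leaf 162 16965 .leaf) 163 22620 .leaf) 164 30160 (.node .leaf 165 9802 .leaf))) 166 12441 (.node (.node (.node (.node .leaf 167 16588 .leaf) 168 15834 .leaf) 169 21112 (.node .leaf 170 15631 .leaf)) 171 27144 (.node (.node (.node .leaf 172 20358 .leaf) 173 36192 .leaf) 174 22330 (.node .leaf 175 48256 .leaf)))) 176 20097 (.node (.node (.node (.node (.node .leaf 177 26796 .leaf) 178 35728 .leaf) 179 17545 (.node .leaf 180 21054 .leaf)) 181 28072 (.node (.node (.node .leaf 182 31900 .leaf) 183 28710 .leaf) 184 38280 (.node .leaf 185 51040 .leaf))) 186 19894 (.node (.node (.node (.node .leaf 187 23925 .leaf) 188 25839 .leaf) 189 34452 (.node .leaf 190 45936 .leaf)) 191 28420 (.node (.node (.node .leaf 192 61248 .leaf) 193 81664 .leaf) 194 25578 (.node .leaf 195 34104 .leaf))))) 196 45472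 (.node (.node (.node (.node (.node (.node .leaf 197 21315 .leaf) 198 25375 .leaf) 199 30450 (.node .leaf 200 27405 .leaf)) 201 36540 (.node (.node (.node .leaf 202 48720 .leaf) 203 40600 .leaf) 204 64960 (.node .leaf 205 32886 .leaf))) 206 43848 (.node (.node (.node (.node .leaf 207 58464 .leaf) 208 77952 .leaf) 209 36250 (.node .leaf 210 103936 .leaf)) 211 32625 (.node (.node (.node .leaf 212 43500 .leaf) 213 58000 .leaf) 214 39150 (.node .leaf 215 52200 .leaf)))) 216 69600 (.node (.node (.node (.node (.node .leaf 217 92800 .leaf) 218 35235 .leaf) 219 46980 (.node .leaf 220 62640 .leaf)) 221 83520 (.node (.node (.node .leaf 222 111360 .leaf) 223 148480 .leaf) 224 42282 (.node .leaf 225 56376 .leaf))) 226 75168 (.node (.node (.node (.node .leaf 227 100224 .leaf) 228 133632 .leaf) 229 178176 (.node .leaf 230 237568 .leaf)) 231 2337 (.node (.node .leaf 232 4218 .leaf) 233 5301 (.node .leaf 234 7068 .leaf))))))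

def d25llrr : Tr := (.node (.node (.node (.node (.node (.node (.node .leaf 236 19494 .leaf) 237 25992 .leaf) 238 15162 (.node .leaf 239 21660 .leaf)) 240 34656 (.node (.node (.node .leaf 241 29070 .leaf) 242 38760 .leaf) 243 11913 (.node .leaf 244 20349 .leaf))) 245 24225 (.node (.node (.node (.node .leaf 246 26163 .leaf) 247 34884 .leaf) 248 46512 (.node .leaf 249 31122 .leaf)) 250 12597 (.node (.node (.node .leaf 251 21318 .leaf) 252 27132 .leaf) 253 25935 (.node .leaf 254 62016 .leaf)))) 255 41496 (.node (.node (.node (.node (.node .leaf 256 37050 .leaf) 257 33345 .leaf) 258 44460 (.node .leaf 259 59280 .leaf)) 260 34485 (.node (.node (.node .leaf 261 19266 .leaf) 262 24453 .leaf) 263 32604 (.node .leaf 264 40014 .leaf))) 265 53352 (.node (.node (.node (.node .leaf 266 30723 .leaf) 267 71136 .leaf) 268 94848 (.node .leaf 269 41382 .leaf)) 270 43890 (.node (.node .leaf 271 55176 .leaf) 272 39501 (.node .leaf 273 52668 .leaf))))) 274 70224 (.node (.node (.node (.node (.node (.node .leaf 275 47025 .leaf) 276 56430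 .leaf) 277 75240 (.node .leaf 278 62700 .leaf)) 279 100320 (.node (.node (.node .leaf 280 50787 .leaf) 281 67716 .leaf) 282 39102 (.node .leaf 283 90288 .leaf))) 284 120384 (.node (.node (.node (.node .leaf 285 160512 .leaf) 286 41895 .leaf) 287 55860 (.node .leaf 288 50274 .leaf)) 289 67032 (.node (.node (.node .leaf 290 89376 .leaf) 291 59850 .leaf) 292 79800 (.node .leaf 293 49875 .leaf)))) 294 53865 (.node (.node (.node (.node (.node .leaf 295 71820 .leaf) 296 95760 .leaf) 297 127680 (.node .leaf 298 64638 .leaf)) 299 86184 (.node (.node (.node .leaf 300 114912 .leaf) 301 153216 .leaf) 302 204288 (.node .leaf 303 71250 .leaf))) 304 85500 (.node (.node (.node (.node .leaf 305 64125 .leaf) 306 114000 .leaf) 307 76950 (.node .leaf 308 102600 .leaf)) 309 136800 (.node (.node .leaf 310 182400 .leaf) 311 69255 (.node .leaf 312 92340 .leaf))))))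

def d25llr : Tr := .node d25llrl 235 16245 d25llrr

def d25ll : Tr := .node d25lll 156 13804 d25llr

def d25lrll : Tr := (.node (.node (.node (.node (.node (.node (.node .leaf 314 164160 .leaf) 315 218880 .leaf) 316 291840 (.node .leaf 317 83106 .leaf)) 318 110808 (.node (.node (.node .leaf 319 147744 .leaf) 320 196992 .leaf) 321 262656 (.node .leaf 322 350208 .leaf))) 323 466944 (.node (.node (.node (.node .leaf 324 3116 .leaf) 325 5624 .leaf) 326 9424 (.node .leaf 327 7905 .leaf)) 328 28880 (.node (.node (.node .leaf 329 46208 .leaf) 330 51680 .leaf) 331 20216 (.node .leaf 332 32300 .leaf)))) 333 82688 (.node (.node (.node (.node (.node .leaf 334 43350 .leaf) 335 39015 .leaf) 336 15884 (.node .leaf 337 36176 .leaf)) 338 34580 (.node (.node (.node .leaf 339 55328 .leaf) 340 49400 .leaf) 341 52020 (.node .leaf 342 69360 .leaf))) 343 16796 (.node (.node (.node (.node .leaf 344 28424 .leaf) 345 79040 .leaf) 346 30345 (.node .leaf 347 126464 .leaf)) 348 45980 (.node (.node (.node .leaf 349 46410 .leaf) 350 40964 .leaf)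 351 49725 (.node .leaf 352 66300 .leaf))))) 353 59670 (.node (.node (.node (.node (.node (.node .leaf 354 25688 .leaf) 355 43472 .leaf) 356 36465 (.node .leaf 357 73568 .leaf)) 358 58520 (.node (.node (.node .leaf 359 79560 .leaf) 360 93632 .leaf) 361 83600 (.node .leaf 362 106080 .leaf))) 363 61710 (.node (.node (.node (.node .leaf 364 133760 .leaf) 365 58905 .leaf) 366 78540 (.node .leaf 367 84150 .leaf)) 368 214016 (.node (.node (.node .leaf 369 74480 .leaf) 370 100980 .leaf) 371 52136 (.node .leaf 372 119168 .leaf)))) 373 66500 (.node (.node (.node (.node (.node .leaf 374 112200 .leaf) 375 75735 .leaf) 376 170240 (.node .leaf 377 70125 .leaf)) 378 106400 (.node (.node (.node .leaf 379 134640 .leaf) 380 74970 .leaf) 381 272384 (.node .leaf 382 179520 .leaf))) 383 99960 (.node (.node (.node (.node .leaf 384 89250 .leaf) 385 80325 .leaf) 386 95000 (.node .leaf 387 152000 .leaf)) 388 62475 (.node (.node .leaf 389 243200 .leaf) 390 107100 (.node .leaf 391 142800 .leaf))))))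

def d25lrlr : Tr := (.node (.node (.node (.node (.node (.node (.node .leaf 393 622592 .leaf) 394 96390 .leaf) 395 128520 (.node .leaf 396 171360 .leaf)) 397 228480 (.node (.node (.node .leaf 398 95625 .leaf) 399 127500 .leaf) 400 114750 (.node .leaf 401 153000 .leaf))) 402 204000 (.node (.node (.node (.node .leaf 403 103275 .leaf) 404 137700 .leaf) 405 183600 (.node .leaf 406 244800 .leaf)) 407 326400 (.node (.node (.node .leaf 408 123930 .leaf) 409 165240 .leaf) 410 220320 (.node .leaf 411 293760 .leaf)))) 412 391680 (.node (.node (.node (.node (.node .leaf 413 522240 .leaf) 414 1147 .leaf) 415 1922 (.node .leaf 416 10540 .leaf)) 417 9486 (.node (.node (.node .leaf 418 5890 .leaf) 419 12648 .leaf) 420 16864 (.node .leaf 421 4123 .leaf))) 422 8463 (.node (.node (.node (.node .leaf 423 11284 .leaf) 424 10075 .leaf) 425 12090 (.node .leaf 426 5797 .leaf)) 427 7378 (.node (.node .leaf 428 16120 .leaf) 429 10881 (.node .leaf 430 14508 .leaf))))) 431 19344 (.node (.node (.node (.node (.node (.node .leaf 432 25792 .leaf)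 433 5239 .leaf) 434 8866 (.node .leaf 435 11253 .leaf)) 436 15004 (.node (.node (.node .leaf 437 11935 .leaf) 438 14322 .leaf) 439 19096 (.node .leaf 440 15345 .leaf))) 441 20460 (.node (.node (.node (.node .leaf 442 27280 .leaf) 443 18414 .leaf) 444 24552 (.node .leaf 445 32736 .leaf)) 446 17050 (.node (.node (.node .leaf 447 43648 .leaf) 448 13671 .leaf) 449 15190 (.node .leaf 450 18228 .leaf)))) 451 24304 (.node (.node (.node (.node (.node .leaf 452 16275 .leaf) 453 21700 .leaf) 454 19530 (.node .leaf 455 26040 .leaf)) 456 34720 (.node (.node (.node .leaf 457 10633 .leaf) 458 17577 .leaf) 459 23436 (.node .leaf 460 31248 .leaf))) 461 41664 (.node (.node (.node (.node .leaf 462 55552 .leaf) 463 19375 .leaf) 464 23250 (.node .leaf 465 31000 .leaf)) 466 20925 (.node (.node .leaf 467 27900 .leaf) 468 37200 (.node .leaf 469 49600 .leaf))))))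

def d25lrl : Tr := .node d25lrll 392 389120 d25lrlr

def d25lrrl : Tr := (.node (.node (.node (.node (.node (.node (.node .leaf 471 33480 .leaf) 472 44640 .leaf) 473 59520 (.node .leaf 474 79360 .leaf)) 475 22599 (.node (.node (.node .leaf 476 30132 .leaf) 477 40176 .leaf) 478 53568 (.node .leaf 479 71424 .leaf))) 480 95232 (.node (.node (.node (.node .leaf 481 126976 .leaf) 482 3515 .leaf) 483 18050 (.node .leaf 484 40460 .leaf)) 485 36414 (.node (.node (.node .leaf 486 22610 .leaf) 487 48552 .leaf) 488 64736 (.node .leaf 489 12635 .leaf)))) 490 30875 (.node (.node (.node (.node (.node .leaf 491 43316 .leaf) 492 32487 .leaf) 493 61880 (.node .leaf 494 17765 .leaf)) 495 27170 (.node (.node (.node .leaf 496 41769 .leaf) 497 55692 .leaf) 498 74256 (.node .leaf 499 99008 .leaf))) 500 43197 (.node (.node (.node (.node .leaf 501 16055 .leaf) 502 52250 .leaf) 503 57596 (.node .leaf 504 54978 .leaf)) 505 36575 (.node (.node (.node .leaf 506 73304 .leaf) 507 104720 .leaf) 508 70686 (.node .leaf 509 94248 .leaf))))) 510 125664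 (.node (.node (.node (.node (.node (.node .leaf 511 55770 .leaf) 512 167552 .leaf) 513 52479 (.node .leaf 514 46550 .leaf)) 515 69972 (.node (.node (.node .leaf 516 93296 .leaf) 517 59375 .leaf) 518 83300 (.node .leaf 519 133280 .leaf))) 520 67473 (.node (.node (.node (.node .leaf 521 89964 .leaf) 522 119952 .leaf) 523 70785 (.node .leaf 524 94380 .leaf)) 525 32585 (.node (.node (.node .leaf 526 159936 .leaf) 527 213248 .leaf) 528 190400 (.node .leaf 529 119000 .leaf)))) 530 304640 (.node (.node (.node (.node (.node .leaf 531 86751 .leaf) 532 115668 .leaf) 533 154224 (.node .leaf 534 75075 .leaf)) 535 205632 (.node (.node (.node .leaf 536 274176 .leaf) 537 365568 .leaf) 538 90090 (.node .leaf 539 120120 .leaf))) 540 487424 (.node (.node (.node (.node .leaf 541 107250 .leaf) 542 96525 .leaf) 543 128700 (.node .leaf 544 171600 .leaf)) 545 115830 (.node (.node .leaf 546 154440 .leaf) 547 205920 (.node .leaf 548 274560 .leaf))))))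

def d25lrrr : Tr := (.node (.node (.node (.node (.node (.node (.node .leaf 550 28322 .leaf) 551 36125 .leaf) 552 57800 (.node .leaf 553 92480 .leaf)) 554 34034 (.node (.node (.node .leaf 555 46818 .leaf) 556 15827 .leaf) 557 38675 (.node .leaf 558 55250 .leaf))) 559 88400 (.node (.node (.node (.node .leaf 560 141440 .leaf) 561 22253 .leaf) 562 53703 (.node .leaf 563 71604 .leaf)) 564 82280 (.node (.node (.node .leaf 565 51425 .leaf) 566 45815 .leaf) 567 65450 (.node .leaf 568 20111 .leaf)))) 569 93500 (.node (.node (.node (.node (.node .leaf 570 149600 .leaf) 571 239360 .leaf) 572 90882 (.node .leaf 573 121176 .leaf)) 574 58310 (.node (.node (.node .leaf 575 106250 .leaf) 576 39039 .leaf) 577 52052 (.node .leaf 578 49686 .leaf))) 579 74375 (.node (.node (.node (.node .leaf 580 170000 .leaf) 581 272000 .leaf) 582 435200 (.node .leaf 583 696320 .leaf)) 584 111537 (.node (.node .leaf 585 148716 .leaf) 586 198288 (.node .leaf 587 264384 .leaf))))) 588 66066 (.node (.node (.node (.node (.node (.node .leaf 589 88088 .leaf)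 590 63063 .leaf) 591 84084 (.node .leaf 592 40817 .leaf)) 593 352512 (.node (.node (.node .leaf 594 112112 .leaf) 595 100100 .leaf) 596 160160 (.node .leaf 597 81081 .leaf))) 598 108108 (.node (.node (.node (.node .leaf 599 144144 .leaf) 600 192192 .leaf) 601 66885 (.node .leaf 602 256256 .leaf)) 603 80262 (.node (.node (.node .leaf 604 107016 .leaf) 605 85995 .leaf) 606 95550 (.node .leaf 607 114660 .leaf)))) 608 152880 (.node (.node (.node (.node (.node .leaf 609 103194 .leaf) 610 137592 .leaf) 611 183456 (.node .leaf 612 244608 .leaf)) 613 83853 (.node (.node (.node .leaf 614 111804 .leaf) 615 6290 .leaf) 616 62424 (.node .leaf 617 83232 .leaf))) 618 110976 (.node (.node (.node (.node .leaf 619 147968 .leaf) 620 48620 .leaf) 621 95472 (.node .leaf 622 19019 .leaf)) 623 127296 (.node (.node .leaf 624 169728 .leaf) 625 226304 (.node .leaf 626 55539 .leaf))))))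

def d25lrr : Tr := .node d25lrrl 549 4403 d25lrrr

def d25lr : Tr := .node d25lrl 470 25110 d25lrr

def d25l : Tr := .node d25ll 313 123120 d25lr

def d25rlll : Tr := (.node (.node (.node (.node (.node (.node (.node .leaf 628 74052 .leaf) 629 161568 .leaf) 630 215424 (.node .leaf 631 287232 .leaf)) 632 382976 (.node (.node (.node .leaf 633 470016 .leaf) 634 28730 .leaf) 635 626688 (.node .leaf 636 835584 .leaf))) 637 1114112 (.node (.node (.node (.node .leaf 638 46475 .leaf) 639 41405 .leaf) 640 74360 (.node .leaf 641 59150 .leaf)) 642 53235 (.node (.node (.node .leaf 643 55055 .leaf) 644 78650 .leaf) 645 125840 (.node .leaf 646 70070 .leaf)))) 647 89375 (.node (.node (.node (.node (.node .leaf 648 143000 .leaf) 649 228800 .leaf) 650 366080 (.node .leaf 651 104247 .leaf)) 652 138996 (.node (.node (.node .leaf 653 185328 .leaf) 654 89180 .leaf) 655 79625 (.node .leaf 656 127400 .leaf))) 657 203840 (.node (.node (.node (.node .leaf 658 49049 .leaf) 659 113750 .leaf) 660 102375 (.node .leaf 661 136500 .leaf)) 662 182000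 (.node (.node (.node .leaf 663 122850 .leaf) 664 163800 .leaf) 665 218400 (.node .leaf 666 291200 .leaf))))) 667 110565 (.node (.node (.node (.node (.node (.node .leaf 668 147420 .leaf) 669 196560 .leaf) 670 262080 (.node .leaf 671 349440 .leaf)) 672 465920 (.node (.node (.node .leaf 673 121875 .leaf) 674 93170 .leaf) 675 99825 (.node .leaf 676 133100 .leaf))) 677 88935 (.node (.node (.node (.node .leaf 678 118580 .leaf) 679 106722 .leaf) 680 5661 (.node .leaf 681 7548 .leaf)) 682 10064 (.node (.node (.node .leaf 683 5291 .leaf) 684 6734 .leaf) 685 7215 (.node .leaf 686 8658 .leaf)))) 687 9620 (.node (.node (.node (.node (.node .leaf 688 11544 .leaf) 689 15392 .leaf) 690 8954 (.node .leaf 691 8547 .leaf)) 692 11396 (.node (.node (.node .leaf 693 10175 .leaf) 694 12210 .leaf) 695 16280 (.node .leaf 696 10989 .leaf))) 697 14652 (.node (.node (.node (.node .leaf 698 19536 .leaf) 699 26048 .leaf) 700 9065 (.node .leaf 701 10878 .leaf)) 702 14504 (.node (.node .leaf 703 12950 .leaf) 704 11655 (.node .leaf 705 15540 .leaf))))))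

def d25rllr : Tr := (.node (.node (.node (.node (.node (.node (.node .leaf 707 13986 .leaf) 708 18648 .leaf) 709 24864 (.node .leaf 710 33152 .leaf)) 711 13875 (.node (.node (.node .leaf 712 18500 .leaf) 713 16650 .leaf) 714 22200 (.node .leaf 715 29600 .leaf))) 716 14985 (.node (.node (.node (.node .leaf 717 19980 .leaf) 718 26640 .leaf) 719 35520 (.node .leaf 720 47360 .leaf)) 721 23976 (.node (.node (.node .leaf 722 17982 .leaf) 723 31968 .leaf) 724 42624 (.node .leaf 725 56832 .leaf)))) 726 75776 (.node (.node (.node (.node (.node .leaf 727 24206 .leaf) 728 32186 .leaf) 729 28611 (.node .leaf 730 38148 .leaf)) 731 50864 (.node (.node (.node .leaf 732 26741 .leaf) 733 43758 .leaf) 734 58344 (.node .leaf 735 77792 .leaf))) 736 98736 (.node (.node (.node (.node .leaf 737 32955 .leaf) 738 131648 .leaf) 739 43940 (.node .leaf 740 50193 .leaf)) 741 66924 (.node (.node .leaf 742 66248 .leaf) 743 70980 (.node .leaf 744 94640 .leaf))))) 745 63882 (.node (.node (.node (.node (.node (.node .leaf 746 85176 .leaf) 747 113568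 .leaf) 748 151424 (.node .leaf 749 63375 .leaf)) 750 84500 (.node (.node (.node .leaf 751 76050 .leaf) 752 101400 .leaf) 753 135200 (.node .leaf 754 68445 .leaf))) 755 91260 (.node (.node (.node (.node .leaf 756 121680 .leaf) 757 162240 .leaf) 758 216320 (.node .leaf 759 82134 .leaf)) 760 109512 (.node (.node (.node .leaf 761 146016 .leaf) 762 194688 .leaf) 763 259584 (.node .leaf 764 346112 .leaf)))) 765 84942 (.node (.node (.node (.node (.node .leaf 766 113256 .leaf) 767 151008 .leaf) 768 247104 (.node .leaf 769 329472 .leaf)) 770 439296 (.node (.node (.node .leaf 771 585728 .leaf) 772 142688 .leaf) 773 326144 (.node .leaf 774 25857 .leaf))) 775 34476 (.node (.node (.node (.node .leaf 776 45968 .leaf) 777 45254 .leaf) 778 24167 (.node .leaf 779 30758 .leaf)) 780 39546 (.node (.node .leaf 781 52728 .leaf) 782 70304 (.node .leaf 783 40898 .leaf))))))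

def d25rll : Tr := .node d25rlll 706 20720 d25rllr

def d25rlrl : Tr := (.node (.node (.node (.node (.node (.node (.node .leaf 785 118976 .leaf) 786 51909 .leaf) 787 69212 (.node .leaf 788 201344 .leaf)) 789 62426 (.node (.node (.node .leaf 790 132678 .leaf) 791 176904 .leaf) 792 235872 (.node .leaf 793 314496 .leaf))) 794 419328 (.node (.node (.node (.node .leaf 795 559104 .leaf) 796 745472 .leaf) 797 162500 (.node .leaf 798 146250 .leaf)) 799 195000 (.node (.node (.node .leaf 800 260000 .leaf) 801 131625 .leaf) 802 175500 (.node .leaf 803 234000 .leaf)))) 804 312000 (.node (.node (.node (.node (.node .leaf 805 416000 .leaf) 806 157950 .leaf) 807 210600 (.node .leaf 808 280800 .leaf)) 809 374400 (.node (.node (.node .leaf 810 499200 .leaf) 811 665600 .leaf) 812 73205 (.node .leaf 813 87846 .leaf))) 814 117128 (.node (.node (.node (.node .leaf 815 149072 .leaf) 816 119790 .leaf) 817 159720 (.node .leaf 818 212960 .leaf)) 819 107811 (.node (.node (.node .leaf 820 142296 .leaf) 821 142155 .leaf) 822 189540 (.node .leaf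 823 252720 .leaf))))) 824 336960 (.node (.node (.node (.node (.node (.node .leaf 825 449280 .leaf) 826 599040 .leaf) 827 798720 (.node .leaf 828 170586 .leaf)) 829 1064960 (.node (.node (.node .leaf 830 227448 .leaf) 831 303264 .leaf) 832 404352 (.node .leaf 833 539136 .leaf))) 834 718848 (.node (.node (.node (.node .leaf 835 958464 .leaf) 836 1277952 .leaf) 837 1703936 (.node .leaf 838 65219 .leaf)) 839 143748 (.node (.node (.node .leaf 840 255552 .leaf) 841 191664 .leaf) 842 340736 (.node .leaf 843 83006 .leaf)))) 844 189728 (.node (.node (.node (.node (.node .leaf 845 105875 .leaf) 846 127050 .leaf) 847 169400 (.node .leaf 848 114345 .leaf)) 849 152460 (.node (.node (.node .leaf 850 203280 .leaf) 851 271040 .leaf) 852 137214 (.node .leaf 853 182952 .leaf))) 854 325248 (.node (.node (.node (.node .leaf 855 243936 .leaf) 856 433664 .leaf) 857 151250 (.node .leaf 858 136125 .leaf)) 859 181500 (.node (.node .leaf 860 242000 .leaf) 861 163350 (.node .leaf 862 217800 .leaf))))))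

def d25rlrr : Tr := (.node (.node (.node (.node (.node (.node (.node .leaf 864 387200 .leaf) 865 147015 .leaf) 866 196020 (.node .leaf 867 79233 .leaf)) 868 261360 (.node (.node (.node .leaf 869 348480 .leaf) 870 464640 .leaf) 871 619520 (.node .leaf 872 176418 .leaf))) 873 235224 (.node (.node (.node (.node .leaf 874 313632 .leaf) 875 418176 .leaf) 876 557568 (.node .leaf 877 743424 .leaf)) 878 105644 (.node (.node (.node .leaf 879 991232 .leaf) 880 94325 .leaf) 881 113190 (.node .leaf 882 150920 .leaf)))) 883 101871 (.node (.node (.node (.node (.node .leaf 884 135828 .leaf) 885 181104 .leaf) 886 241472 (.node .leaf 887 134750 .leaf)) 888 121275 (.node (.node (.node .leaf 889 161700 .leaf) 890 215600 .leaf) 891 145530 (.node .leaf 892 194040 .leaf))) 893 344960 (.node (.node (.node (.node .leaf 894 258720 .leaf) 895 130977 .leaf) 896 174636 (.node .leaf 897 232848 .leaf)) 898 310464 (.node (.node .leaf 899 413952 .leaf) 900 551936 (.node .leaf 901 144375 .leaf))))) 902 192500 (.node (.node (.node (.node (.node (.node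 .leaf 903 173250 .leaf) 904 231000 .leaf) 905 308000 (.node .leaf 906 155925 .leaf)) 907 207900 (.node (.node (.node .leaf 908 277200 .leaf) 909 492800 .leaf) 910 369600 (.node .leaf 911 249480 .leaf))) 912 187110 (.node (.node (.node (.node .leaf 913 332640 .leaf) 914 443520 .leaf) 915 591360 (.node .leaf 916 788480 .leaf)) 917 168399 (.node (.node (.node .leaf 918 224532 .leaf) 919 299376 .leaf) 920 399168 (.node .leaf 921 532224 .leaf)))) 922 709632 (.node (.node (.node (.node (.node .leaf 923 946176 .leaf) 924 1261568 .leaf) 925 171875 (.node .leaf 926 206250 .leaf)) 927 275000 (.node (.node (.node .leaf 928 185625 .leaf) 929 247500 .leaf) 930 330000 (.node .leaf 931 440000 .leaf))) 932 222750 (.node (.node (.node (.node .leaf 933 396000 .leaf) 934 297000 .leaf) 935 528000 (.node .leaf 936 704000 .leaf)) 937 200475 (.node (.node .leaf 938 267300 .leaf) 939 356400 (.node .leaf 940 475200 .leaf))))))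

def d25rlr : Tr := .node d25rlrl 863 290400 d25rlrr

def d25rl : Tr := .node d25rll 784 89232 d25rlr

def d25rrll : Tr := (.node (.node (.node (.node (.node (.node (.node .leaf 942 844800 .leaf) 943 1126400 .leaf) 944 240570 (.node .leaf 945 320760 .leaf)) 946 427680 (.node (.node (.node .leaf 947 570240 .leaf) 948 760320 .leaf) 949 1013760 (.node .leaf 950 1351680 .leaf))) 951 1802240 (.node (.node (.node (.node .leaf 952 216513 .leaf) 953 288684 .leaf) 954 384912 (.node .leaf 955 513216 .leaf)) 956 684288 (.node (.node (.node .leaf 957 912384 .leaf) 958 1216512 .leaf) 959 1622016 (.node .leaf 960 2162688 .leaf)))) 961 2883584 (.node (.node (.node (.node (.node .leaf 962 3485 .leaf) 963 4182 .leaf) 964 5576 (.node .leaf 965 3731 .leaf)) 966 5330 (.node (.node (.node .leaf 967 4797 .leaf) 968 6396 .leaf) 969 8528 (.node .leaf 970 4961 .leaf))) 971 6314 (.node (.node (.node (.node .leaf 972 6765 .leaf) 973 9020 .leaf) 974 8118 (.node .leaf 975 10824 .leaf)) 976 14432 (.node (.node (.node .leaf 977 6027 .leaf) 978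 8036 .leaf) 979 7175 (.node .leaf 980 8610 .leaf))))) 981 11480 (.node (.node (.node (.node (.node (.node .leaf 982 7749 .leaf) 983 10332 .leaf) 984 13776 (.node .leaf 985 18368 .leaf)) 986 10250 (.node (.node (.node .leaf 987 9225 .leaf) 988 12300 .leaf) 989 16400 (.node .leaf 990 11070 .leaf))) 991 14760 (.node (.node (.node (.node .leaf 992 19680 .leaf) 993 26240 .leaf) 994 9963 (.node .leaf 995 13284 .leaf)) 996 17712 (.node (.node (.node .leaf 997 23616 .leaf) 998 31488 .leaf) 999 41984 (.node .leaf 1000 25289 .leaf)))) 1001 18785 (.node (.node (.node (.node (.node .leaf 1002 22542 .leaf) 1003 30056 .leaf) 1004 84035 (.node .leaf 1005 100842 .leaf)) 1006 134456 (.node (.node (.node .leaf 1007 108045 .leaf) 1008 120050 .leaf) 1009 144060 (.node .leaf 1010 192080 .leaf))) 1011 129654 (.node (.node (.node (.node .leaf 1012 172872 .leaf) 1013 230496 .leaf) 1014 307328 (.node .leaf 1015 171500 .leaf)) 1016 128625 (.node (.node .leaf 1017 154350 .leaf) 1018 205800 (.node .leaf 1019 274400 .leaf))))))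

def d25rrlr : Tr := (.node (.node (.node (.node (.node (.node (.node .leaf 1021 185220 .leaf) 1022 246960 .leaf) 1023 329280 (.node .leaf 1024 439040 .leaf)) 1025 166698 (.node (.node (.node .leaf 1026 222264 .leaf) 1027 296352 .leaf) 1028 395136 (.node .leaf 1029 526848 .leaf))) 1030 702464 (.node (.node (.node (.node .leaf 1031 153125 .leaf) 1032 183750 .leaf) 1033 245000 (.node .leaf 1034 165375 .leaf)) 1035 220500 (.node (.node (.node .leaf 1036 294000 .leaf) 1037 392000 .leaf) 1038 198450 (.node .leaf 1039 264600 .leaf)))) 1040 352800 (.node (.node (.node (.node (.node .leaf 1041 470400 .leaf) 1042 627200 .leaf) 1043 178605 (.node .leaf 1044 238140 .leaf)) 1045 317520 (.node (.node (.node .leaf 1046 423360 .leaf) 1047 564480 .leaf) 1048 752640 (.node .leaf 1049 1003520 .leaf))) 1050 214326 (.node (.node (.node (.node .leaf 1051 285768 .leaf) 1052 381024 .leaf) 1053 508032 (.node .leaf 1054 677376 .leaf)) 1055 903168 (.node (.node .leaf 1056 1204224 .leaf) 1057 1605632 (.node .leaf 1058 218750 .leaf))))) 1059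 196875 (.node (.node (.node (.node (.node (.node .leaf 1060 262500 .leaf) 1061 350000 .leaf) 1062 236250 (.node .leaf 1063 315000 .leaf)) 1064 420000 (.node (.node (.node .leaf 1065 560000 .leaf) 1066 212625 .leaf) 1067 283500 (.node .leaf 1068 378000 .leaf))) 1069 504000 (.node (.node (.node (.node .leaf 1070 672000 .leaf) 1071 896000 .leaf) 1072 255150 (.node .leaf 1073 340200 .leaf)) 1074 453600 (.node (.node (.node .leaf 1075 604800 .leaf) 1076 806400 .leaf) 1077 1075200 (.node .leaf 1078 1433600 .leaf)))) 1079 229635 (.node (.node (.node (.node (.node .leaf 1080 306180 .leaf) 1081 408240 .leaf) 1082 544320 (.node .leaf 1083 725760 .leaf)) 1084 967680 (.node (.node (.node .leaf 1085 1290240 .leaf) 1086 1720320 .leaf) 1087 2293760 (.node .leaf 1088 275562 .leaf))) 1089 367416 (.node (.node (.node (.node .leaf 1090 489888 .leaf) 1091 653184 .leaf) 1092 870912 (.node .leaf 1093 1161216 .leaf)) 1094 1548288 (.node (.node .leaf 1095 2064384 .leaf) 1096 2752512 (.node .leaf 1097 3670016 .leaf))))))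

def d25rrl : Tr := .node d25rrll 1020 138915 d25rrlr

def d25rrrl : Tr := (.node (.node (.node (.node (.node (.node (.node .leaf 1099 312500 .leaf) 1100 281250 .leaf) 1101 375000 (.node .leaf 1102 500000 .leaf)) 1103 253125 (.node (.node (.node .leaf 1104 337500 .leaf) 1105 450000 .leaf) 1106 600000 (.node .leaf 1107 800000 .leaf))) 1108 303750 (.node (.node (.node (.node .leaf 1109 405000 .leaf) 1110 540000 .leaf) 1111 720000 (.node .leaf 1112 960000 .leaf)) 1113 1280000 (.node (.node (.node .leaf 1114 273375 .leaf) 1115 364500 .leaf) 1116 486000 (.node .leaf 1117 648000 .leaf)))) 1118 864000 (.node (.node (.node (.node (.node .leaf 1119 1152000 .leaf) 1120 1536000 .leaf) 1121 2048000 (.node .leaf 1122 328050 .leaf)) 1123 437400 (.node (.node (.node .leaf 1124 583200 .leaf) 1125 777600 .leaf) 1126 1036800 (.node .leaf 1127 1382400 .leaf))) 1128 1843200 (.node (.node (.node (.node .leaf 1129 2457600 .leaf) 1130 3276800 .leaf) 1131 295245 (.node .leaf 1132 393660 .leaf)) 1133 524880 (.node (.node (.node .leaf 1134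 699840 .leaf) 1135 933120 .leaf) 1136 1244160 (.node .leaf 1137 1658880 .leaf))))) 1138 2211840 (.node (.node (.node (.node (.node (.node .leaf 1139 2949120 .leaf) 1140 3932160 .leaf) 1141 5242880 (.node .leaf 1142 354294 .leaf)) 1143 472392 (.node (.node (.node .leaf 1144 629856 .leaf) 1145 839808 .leaf) 1146 1119744 (.node .leaf 1147 1492992 .leaf))) 1148 1990656 (.node (.node (.node (.node .leaf 1149 2654208 .leaf) 1150 3538944 .leaf) 1151 4718592 (.node .leaf 1152 6291456 .leaf)) 1153 1634 (.node (.node (.node .leaf 1154 2193 .leaf) 1155 2924 .leaf) 1156 2795 (.node .leaf 1157 3354 .leaf)))) 1158 4472 (.node (.node (.node (.node (.node .leaf 1159 3311 .leaf) 1160 4730 .leaf) 1161 4257 (.node .leaf 1162 5676 .leaf)) 1163 7568 (.node (.node (.node .leaf 1164 4214 .leaf) 1165 4515 .leaf) 1166 6020 (.node .leaf 1167 5418 .leaf))) 1168 7224 (.node (.node (.node (.node .leaf 1169 9632 .leaf) 1170 5375 .leaf) 1171 6450 (.node .leaf 1172 8600 .leaf)) 1173 5805 (.node (.node .leaf 1174 7740 .leaf) 1175 10320 (.node .leaf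 1176 13760 .leaf))))))

def d25rrrr : Tr := (.node (.node (.node (.node (.node (.node (.node .leaf 1178 9288 .leaf) 1179 12384 .leaf) 1180 16512 (.node .leaf 1181 22016 .leaf)) 1182 9386 (.node (.node (.node .leaf 1183 14739 .leaf) 1184 19652 .leaf) 1185 10982 (.node .leaf 1186 893 .leaf))) 1187 1598 (.node (.node (.node (.node .leaf 1188 1833 .leaf) 1189 2444 .leaf) 1190 2585 (.node .leaf 1191 3102 .leaf)) 1192 4136 (.node (.node (.node .leaf 1193 2303 .leaf) 1194 3290 .leaf) 1195 2961 (.node .leaf 1196 3948 .leaf)))) 1197 5264 (.node (.node (.node (.node (.node .leaf 1198 3525 .leaf) 1199 4700 .leaf) 1200 4230 (.node .leaf 1201 5640 .leaf)) 1202 7520 (.node (.node (.node .leaf 1203 3807 .leaf) 1204 5076 .leaf) 1205 6768 (.node .leaf 1206 9024 .leaf))) 1207 12032 (.node (.node (.node (.node .leaf 1208 6137 .leaf) 1209 901 .leaf) 1210 1378 (.node .leaf 1211 1749 .leaf)) 1212 2332 (.node (.node .leaf 1213 1855 .leaf) 1214 2226 (.node .leaf 1215 2968 .leaf))))) 1216 2650 (.node (.node (.node (.node (.node (.node .leaf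 1217 2385 .leaf) 1218 3180 .leaf) 1219 4240 (.node .leaf 1220 2862 .leaf)) 1221 3816 (.node (.node (.node .leaf 1222 5088 .leaf) 1223 6784 .leaf) 1224 767 (.node .leaf 1225 1298 .leaf))) 1226 1239 (.node (.node (.node (.node .leaf 1227 1652 .leaf) 1228 1475 .leaf) 1229 1770 (.node .leaf 1230 2360 .leaf)) 1231 1593 (.node (.node (.node .leaf 1232 2124 .leaf) 1233 2832 .leaf) 1234 3776 (.node .leaf 1235 671 .leaf)))) 1236 854 (.node (.node (.node (.node (.node .leaf 1237 915 .leaf) 1238 1220 .leaf) 1239 1098 (.node .leaf 1240 1464 .leaf)) 1241 1952 (.node (.node (.node .leaf 1242 469 .leaf) 1243 670 .leaf) 1244 603 (.node .leaf 1245 804 .leaf))) 1246 1072 (.node (.node (.node (.node .leaf 1247 355 .leaf) 1248 426 .leaf) 1249 568 (.node .leaf 1250 219 .leaf)) 1251 292 (.node (.node .leaf 1252 158 .leaf) 1253 83 (.node .leaf 1254 8388608 .leaf))))))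

def d25rrr : Tr := .node d25rrrl 1177 6966 d25rrrr

def d25rr : Tr := .node d25rrl 1098 234375 d25rrr

def d25r : Tr := .node d25rl 941 633600 d25rr

def d25 : Tr := .node d25l 627 31790 d25r

noncomputable def u25 : List ℕ :=
  (u25_0 (u25_1 (u25_2 (u25_3 (u25_4 (u25_5 (u25_6 (u25_7 (u25_8 (u25_9 (u25_10 (u25_11 (u25_12 (u25_13 (u25_14 (u25_15 (u25_16 (u25_17 (u25_18 (u25_19 (u25_20 (u25_21 (u25_22 (u25_23 (u25_24 (u25_25 (u25_26 (u25_27 (u25_28 (u25_29 (u25_30 (u25_31 []))))))))))))))))))))))))))))))))

def r25_0 : List ℕ := [43, 82, 111, 148, 155, 186, 248, 203, 290, 261, 348, 464, 253, 322, 345, 460, 414, 552, 736, 247, 418, 399, 532, 475, 570, 760, 513, 684, 912, 1216, 289, 442, 561, 748, 595, 714, 952, 850, 765, 1020, 1360, 918, 1224, 1632, 2176, 507, 676, 715, 858, 1144, 637, 910, 819, 1092, 1456, 975, 1300, 1170, 1560, 2080, 1053, 1404, 1872, 2496, 3328, 847, 1210, 1089, 1452, 1936, 1078, 1155, 1540, 1386, 1848, 2464, 1375, 1650, 2200, 1485, 1980, 2640, 3520, 1782, 2376, 3168, 4224, 5632, 1029, 1372, 1225,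 1470, 1960, 1323, 1764, 2352, 3136, 1750, 1575, 2100, 2800, 1890, 2520, 3360, 4480, 1701, 2268, 3024, 4032, 5376, 7168, 1875, 2500, 2250, 3000, 4000, 2025, 2700, 3600, 4800, 6400, 2430, 3240, 4320, 5760, 7680, 10240, 2187, 2916, 3888, 5184, 6912, 9216, 12288, 16384]

def r25_1 : List ℕ := [41, 74, 93, 124, 145, 174, 232, 161, 230, 207, 276, 368, 209, 266, 285, 380, 342, 456, 608, 221, 374, 357, 476, 425, 510, 680, 459, 612, 816, 1088, 338, 429, 572, 455, 546, 728, 650, 585, 780, 1040, 702, 936, 1248, 1664, 605, 726, 968, 539, 770, 693, 924, 1232, 825, 1100, 990, 1320, 1760, 891, 1188, 1584, 2112, 2816, 686, 735, 980, 882, 1176, 1568, 875, 1050, 1400, 945, 1260, 1680, 2240, 1134, 1512, 2016, 2688, 1250, 1125, 1500, 2000, 1350, 1800, 2400, 3200, 1215, 1620, 2160, 2880, 3840, 1458, 1944, 2592, 3456]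

def r25_2 : List ℕ := [41, 74, 93, 124, 145, 174, 232, 161, 230, 207, 276, 368, 209, 266, 285, 380, 342, 456, 608, 221, 374, 357, 476, 425, 510, 680, 459, 612, 816, 1088, 338, 429, 572, 455, 546, 728, 650, 585, 780, 1040, 702, 936, 1248, 1664, 605, 726, 968, 539, 770, 693, 924, 1232, 825, 1100, 990, 1320, 1760, 891, 1188, 1584, 2112, 2816, 686, 735, 980, 882, 1176, 1568, 875, 1050, 1400, 945, 1260, 1680, 2240, 1134, 1512, 2016, 2688, 1250, 1125, 1500, 2000, 1350, 1800, 2400, 3200, 1215, 1620, 2160, 2880, 1458, 1944]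

def r25_3 : List ℕ := [41, 74, 93, 124, 145, 174, 232, 161, 230, 207, 276, 368, 209, 266, 285, 380, 342, 456, 608, 221, 374, 357, 476, 425, 510, 680, 459, 612, 816, 1088, 338, 429, 572, 455, 546, 728, 650, 585, 780, 1040, 702, 936, 1248, 1664, 605, 726, 968, 539, 770, 693, 924, 1232, 825, 1100, 990, 1320, 1760, 891, 1188, 1584, 2112, 2816, 686, 735, 980, 882, 1176, 1568, 875, 1050, 1400, 945, 1260, 1680, 2240, 1134, 1512, 2016, 2688, 1250, 1125, 1500, 2000, 1350, 1800, 2400, 3200, 1215, 1620, 1458]

def r25_4 : List ℕ := [37, 62, 87, 116, 115, 138, 184, 133, 190, 171, 228, 304, 187, 238, 255, 340, 306, 408, 544, 169, 286, 273, 364, 325, 390, 520, 351, 468, 624, 832, 363, 484, 385, 462, 616, 550, 495, 660, 880, 594, 792, 1056, 1408, 343, 490, 441, 588, 784, 525, 700, 630, 840, 1120, 567, 756, 1008, 1344, 1792, 625, 750, 1000, 675, 900, 1200, 1600, 810, 1080, 1440]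

def r25_5 : List ℕ := [37, 62, 87, 116, 115, 138, 184, 133, 190, 171, 228, 304, 187, 238, 255, 340, 306, 408, 544, 169, 286, 273, 364, 325, 390, 520, 351, 468, 624, 832, 363, 484, 385, 462, 616, 550, 495, 660, 880, 594, 792, 1056, 1408, 343, 490, 441, 588, 784, 525, 700, 630, 840, 1120, 567, 756, 1008, 1344, 1792, 625, 750, 1000, 675, 900, 1200, 1600, 810, 1080]

def r25_6 : List ℕ := [37, 62, 87, 116, 115, 138, 184, 133, 190, 171, 228, 304, 187, 238, 255, 340, 306, 408, 544, 169, 286, 273, 364, 325, 390, 520, 351, 468, 624, 832, 363, 484, 385, 462, 616, 550, 495, 660, 880, 594, 792, 1056, 1408, 343, 490, 441, 588, 784, 525, 700, 630, 840, 1120, 567, 756, 1008, 1344, 1792, 625, 750, 1000, 675, 900, 1200, 1600, 810]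

def r25_7 : List ℕ := [37, 62, 87, 116, 115, 138, 184, 133, 190, 171, 228, 304, 187, 238, 255, 340, 306, 408, 544, 169, 286, 273, 364, 325, 390, 520, 351, 468, 624, 832, 363, 484, 385, 462, 616, 550, 495, 660, 880, 594, 792, 1056, 1408, 343, 490, 441, 588, 784, 525, 700, 630, 840, 1120, 567, 756, 1008, 1344, 1792, 625, 750, 1000, 675, 900, 1200, 1600]

def r25_8 : List ℕ := [31, 58, 69, 92, 95, 114, 152, 119, 170, 153, 204, 272, 143, 182, 195, 260, 234, 312, 416, 242, 231, 308, 275, 330, 440, 297, 396, 528, 704, 245, 294, 392, 350, 315, 420, 560, 378, 504, 672, 896, 375, 500, 450, 600, 800, 405, 540]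

def r25_9 : List ℕ := [31, 58, 69, 92, 95, 114, 152, 119, 170, 153, 204, 272, 143, 182, 195, 260, 234, 312, 416, 242, 231, 308, 275, 330, 440, 297, 396, 528, 704, 245, 294, 392, 350, 315, 420, 560, 378, 504, 672, 896, 375, 500, 450, 600, 800, 405, 540]

def r25_10 : List ℕ := [31, 58, 69, 92, 95, 114, 152, 119, 170, 153, 204, 272, 143, 182, 195, 260, 234, 312, 416, 242, 231, 308, 275, 330, 440, 297, 396, 528, 704, 245, 294, 392, 350, 315, 420, 560, 378, 504, 672, 896, 375, 500, 450, 600, 800, 405, 540]

def r25_11 : List ℕ := [31, 58, 69, 92, 95, 114, 152, 119, 170, 153, 204, 272, 143, 182, 195, 260, 234, 312, 416, 242, 231, 308, 275, 330, 440, 297, 396, 528, 704, 245, 294, 392, 350, 315, 420, 560, 378, 504, 672, 896, 375, 500, 450, 600, 800, 405, 540]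

def r25_12 : List ℕ := [31, 58, 69, 92, 95, 114, 152, 119, 170, 153, 204, 272, 143, 182, 195, 260, 234, 312, 416, 242, 231, 308, 275, 330, 440, 297, 396, 528, 704, 245, 294, 392, 350, 315, 420, 560, 378, 504, 672, 896, 375, 500, 450, 600, 800, 405, 540]

def r25_13 : List ℕ := [31, 58, 69, 92, 95, 114, 152, 119, 170, 153, 204, 272, 143, 182, 195, 260, 234, 312, 416, 242, 231, 308, 275, 330, 440, 297, 396, 528, 704, 245, 294, 392, 350, 315, 420, 560, 378, 504, 672, 896, 375, 500, 450, 600, 800, 405, 540]

def r25_14 : List ℕ := [29, 46, 57, 76, 85, 102, 136, 91, 130, 117, 156, 208, 121, 154, 165, 220, 198, 264, 352, 147, 196, 175, 210, 280, 189, 252, 336, 448, 250, 225, 300, 400, 270, 360, 480, 640, 243, 324]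

def r25_15 : List ℕ := [29, 46, 57, 76, 85, 102, 136, 91, 130, 117, 156, 208, 121, 154, 165, 220, 198, 264, 352, 147, 196, 175, 210, 280, 189, 252, 336, 448, 250, 225, 300, 400, 270, 360, 480, 640, 243, 324]

def r25_16 : List ℕ := [29, 46, 57, 76, 85, 102, 136, 91, 130, 117, 156, 208, 121, 154, 165, 220, 198, 264, 352, 147, 196, 175, 210, 280, 189, 252, 336, 448, 250, 225, 300, 400, 270, 360, 480, 640, 243, 324]

def r25_17 : List ℕ := [29, 46, 57, 76, 85, 102, 136, 91, 130, 117, 156, 208, 121, 154, 165, 220, 198, 264, 352, 147, 196, 175, 210, 280, 189, 252, 336, 448, 250, 225, 300, 400, 270, 360, 480, 640, 243, 324]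

def r25_18 : List ℕ := [29, 46, 57, 76, 85, 102, 136, 91, 130, 117, 156, 208, 121, 154, 165, 220, 198, 264, 352, 147, 196, 175, 210, 280, 189, 252, 336, 448, 250, 225, 300, 400, 270, 360, 480, 640, 243, 324]

def r25_19 : List ℕ := [29]

def r25_20 : List ℕ := [23, 38, 51, 68, 65, 78, 104, 77, 110, 99, 132, 176, 98, 105, 140, 126, 168, 224, 125, 150, 200, 135, 180, 240, 320, 162, 216, 288, 384]

def r25_21 : List ℕ := [23, 38, 51]

def r25_22 : List ℕ := [23]

def r25_23 : List ℕ := [19, 34, 39, 52, 55, 66, 88, 49, 70, 63, 84, 112, 75, 100, 90, 120, 160, 81, 108, 144, 192, 256]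

def r25_24 : List ℕ := [19]

def r25_25 : List ℕ := [17, 26, 33, 44, 35, 42, 56, 50, 45, 60, 80, 54, 72, 96, 128]

def r25_26 : List ℕ := [13, 22, 21, 28, 25, 30, 40, 27, 36, 48, 64]

def r25_27 : List ℕ := [11, 14, 15, 20, 18, 24, 32]

def r25_28 : List ℕ := [7, 10, 9, 12, 16]

def r25_29 : List ℕ := [5, 6, 8]

def r25_30 : List ℕ := [3, 4]

def r25_31 : List ℕ := [2]

def r25_32 : List ℕ := [1]

end Pool.Agent.FP.Z
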