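import Pool.Agent.FP.ZProg
import Pool.Agent.FP.ZD25

/-! Kernel checks. -/

namespace Pool.Agent.FP.Z

open Fn

theorem k25_2 : chk 1255 t25.get c25.get d25.get u25 (trm 25 10 2 0) (trm 25 10 2 1) 231 r25_2 =
    true := by decide +kernel

theorem k25_4 : chk 1255 t25.get c25.get d25.get u25 (trm 25 11 1 0) (trm 25 11 1 1) 414 r25_4 =
    true := by decide +kernel

theorem k25_10 : chk 1255 t25.get c25.get d25.get u25 (trm 25 12 4 0) (trm 25 12 4 1) 774 r25_10 =
    true := by decide +kernel

theorem k25_13 : chk 1255 t25.get c25.get d25.get u25 (trm 25 12 10 0) (trm 25 12 10 1) 915 r25_13 =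
    true := by decide +kernel

theorem k25_16 : chk 1255 t25.get c25.get d25.get u25 (trm 25 13 5 0) (trm 25 13 5 1) 1038 r25_16 =
    true := by decide +kernel

theorem k25_26 : chk 1255 t25.get c25.get d25.get u25 (trm 25 17 1 0) (trm 25 17 1 1) 1224 r25_26 =
    true := by decide +kernel

theorem k25_29 : chk 1255 t25.get c25.get d25.get u25 (trm 25 20 0 0) (trm 25 20 0 1) 1247 r25_29 =
    true := by decide +kernel

theorem k25_31 : chk 1255 t25.get c25.get d25.get u25 (trm 25 22 0 0) (trm 25 22 0 1) 1252 r25_31 =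
    true := by decide +kernel

end Pool.Agent.FP.Z
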