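import Pool.Agent.FP.ZProg
import Pool.Agent.FP.ZD25

/-! Kernel checks. -/

namespace Pool.Agent.FP.Z

open Fn

theorem k25_0 : chk 1255 t25.get c25.get d25.get u25 (trm 25 9 1 0) (trm 25 9 1 1) 0 r25_0 =
    true := by decide +kernel

theorem k25_1 : chk 1255 t25.get c25.get d25.get u25 (trm 25 10 0 0) (trm 25 10 0 1) 135 r25_1 =
    true := by decide +kernel

theorem k25_5 : chk 1255 t25.get c25.get d25.get u25 (trm 25 11 3 0) (trm 25 11 3 1) 482 r25_5 =
    true := by decide +kernel

theorem k25_7 : chk 1255 t25.get c25.get d25.get u25 (trm 25 11 7 0) (trm 25 11 7 1) 615 r25_7 =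
    true := by decide +kernel

theorem k25_11 : chk 1255 t25.get c25.get d25.get u25 (trm 25 12 6 0) (trm 25 12 6 1) 821 r25_11 =
    true := by decide +kernel

theorem k25_14 : chk 1255 t25.get c25.get d25.get u25 (trm 25 13 1 0) (trm 25 13 1 1) 962 r25_14 =
    true := by decide +kernel

theorem k25_22 : chk 1255 t25.get c25.get d25.get u25 (trm 25 14 4 0) (trm 25 14 4 1) 1185 r25_22 =
    true := by decide +kernel

theorem k25_30 : chk 1255 t25.get c25.get d25.get u25 (trm 25 21 1 0) (trm 25 21 1 1) 1250 r25_30 =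
    true := by decide +kernel

end Pool.Agent.FP.Z
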