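import Pool.Agent.FP.ZProg
import Pool.Agent.FP.ZD25

/-! Kernel checks. -/

namespace Pool.Agent.FP.Z

open Fn

theorem k25_6 : chk 1255 t25.get c25.get d25.get u25 (trm 25 11 5 0) (trm 25 11 5 1) 549 r25_6 =
    true := by decide +kernel

theorem k25_8 : chk 1255 t25.get c25.get d25.get u25 (trm 25 12 0 0) (trm 25 12 0 1) 680 r25_8 =
    true := by decide +kernel

theorem k25_15 : chk 1255 t25.get c25.get d25.get u25 (trm 25 13 3 0) (trm 25 13 3 1) 1000 r25_15 =
    true := by decide +kernel

theorem k25_18 : chk 1255 t25.get c25.get d25.get u25 (trm 25 13 9 0) (trm 25 13 9 1) 1114 r25_18 =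
    true := by decide +kernel

theorem k25_19 : chk 1255 t25.get c25.get d25.get u25 (trm 25 13 11 0) (trm 25 13 11 1) 1152 r25_19 =
    true := by decide +kernel

theorem k25_20 : chk 1255 t25.get c25.get d25.get u25 (trm 25 14 0 0) (trm 25 14 0 1) 1153 r25_20 =
    true := by decide +kernel

theorem k25_27 : chk 1255 t25.get c25.get d25.get u25 (trm 25 18 0 0) (trm 25 18 0 1) 1235 r25_27 =
    true := by decide +kernel

theorem k25_28 : chk 1255 t25.get c25.get d25.get u25 (trm 25 19 1 0) (trm 25 19 1 1) 1242 r25_28 =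
    true := by decide +kernel

theorem k25_32 : chk 1255 t25.get c25.get d25.get u25 (trm 25 23 1 0) (trm 25 23 1 1) 1253 r25_32 =
    true := by decide +kernel

end Pool.Agent.FP.Z
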