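import Pool.Agent.FP.ZProg
import Pool.Agent.FP.ZD25

/-! Kernel checks. -/

namespace Pool.Agent.FP.Z

open Fn

theorem k25_3 : chk 1255 t25.get c25.get d25.get u25 (trm 25 10 4 0) (trm 25 10 4 1) 324 r25_3 =
    true := by decide +kernel

theorem k25_9 : chk 1255 t25.get c25.get d25.get u25 (trm 25 12 2 0) (trm 25 12 2 1) 727 r25_9 =
    true := by decide +kernel

theorem k25_12 : chk 1255 t25.get c25.get d25.get u25 (trm 25 12 8 0) (trm 25 12 8 1) 868 r25_12 =
    true := by decide +kernel

theorem k25_17 : chk 1255 t25.get c25.get d25.get u25 (trm 25 13 7 0) (trm 25 13 7 1) 1076 r25_17 =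
    true := by decide +kernel

theorem k25_21 : chk 1255 t25.get c25.get d25.get u25 (trm 25 14 2 0) (trm 25 14 2 1) 1182 r25_21 =
    true := by decide +kernel

theorem k25_23 : chk 1255 t25.get c25.get d25.get u25 (trm 25 15 1 0) (trm 25 15 1 1) 1186 r25_23 =
    true := by decide +kernel

theorem k25_24 : chk 1255 t25.get c25.get d25.get u25 (trm 25 15 3 0) (trm 25 15 3 1) 1208 r25_24 =
    true := by decide +kernel

theorem k25_25 : chk 1255 t25.get c25.get d25.get u25 (trm 25 16 0 0) (trm 25 16 0 1) 1209 r25_25 =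
    true := by decide +kernel

end Pool.Agent.FP.Z
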