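import Pool.Agent.FP.ZCore
import Pool.Agent.FP.FinSoc
import Pool.Agent.FP.ZK24a
import Pool.Agent.FP.ZK24b
import Pool.Agent.FP.ZK24c
import Pool.Agent.FP.ZK25a
import Pool.Agent.FP.ZK25b
import Pool.Agent.FP.ZK25c
import Pool.Agent.FP.ZK25d

/-! The socles in genus 24 and 25. -/

namespace Pool.Agent.FP.Z

open Fn

theorem cov24 : ∀ i < 1002 - 1, Cov 24 1002 t24.get c24.get d24.get u24 i := by
  have h0 : ∀ i < 0, Cov 24 1002 t24.get c24.get d24.get u24 i := fun _ h => absurd h (by omega)
  have h1 := cov_add (i1 := 101) _ _ _ 1 h0 k24_0 (by norm_num) (by decide +kernel)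
  have h2 := cov_add (i1 := 197) _ _ _ 0 h1 k24_1 (by norm_num) (by decide +kernel)
  have h3 := cov_add (i1 := 268) _ _ _ 2 h2 k24_2 (by norm_num) (by decide +kernel)
  have h4 := cov_add (i1 := 337) _ _ _ 1 h3 k24_3 (by norm_num) (by decide +kernel)
  have h5 := cov_add (i1 := 404) _ _ _ 0 h4 k24_4 (by norm_num) (by decide +kernel)
  have h6 := cov_add (i1 := 453) _ _ _ 4 h5 k24_5 (by norm_num) (by decide +kernel)
  have h7 := cov_add (i1 := 501) _ _ _ 3 h6 k24_6 (by norm_num) (by decide +kernel)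
  have h8 := cov_add (i1 := 548) _ _ _ 2 h7 k24_7 (by norm_num) (by decide +kernel)
  have h9 := cov_add (i1 := 594) _ _ _ 1 h8 k24_8 (by norm_num) (by decide +kernel)
  have h10 := cov_add (i1 := 639) _ _ _ 0 h9 k24_9 (by norm_num) (by decide +kernel)
  have h11 := cov_add (i1 := 676) _ _ _ 5 h10 k24_10 (by norm_num) (by decide +kernel)
  have h12 := cov_add (i1 := 713) _ _ _ 4 h11 k24_11 (by norm_num) (by decide +kernel)
  have h13 := cov_add (i1 := 750) _ _ _ 3 h12 k24_12 (by norm_num) (by decide +kernel)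
  have h14 := cov_add (i1 := 787) _ _ _ 2 h13 k24_13 (by norm_num) (by decide +kernel)
  have h15 := cov_add (i1 := 824) _ _ _ 1 h14 k24_14 (by norm_num) (by decide +kernel)
  have h16 := cov_add (i1 := 861) _ _ _ 0 h15 k24_15 (by norm_num) (by decide +kernel)
  have h17 := cov_add (i1 := 889) _ _ _ 7 h16 k24_16 (by norm_num) (by decide +kernel)
  have h18 := cov_add (i1 := 917) _ _ _ 6 h17 k24_17 (by norm_num) (by decide +kernel)
  have h19 := cov_add (i1 := 931) _ _ _ 5 h18 k24_18 (by norm_num) (by decide +kernel)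
  have h20 := cov_add (i1 := 953) _ _ _ 8 h19 k24_19 (by norm_num) (by decide +kernel)
  have h21 := cov_add (i1 := 955) _ _ _ 7 h20 k24_20 (by norm_num) (by decide +kernel)
  have h22 := cov_add (i1 := 956) _ _ _ 6 h21 k24_21 (by norm_num) (by decide +kernel)
  have h23 := cov_add (i1 := 971) _ _ _ 10 h22 k24_22 (by norm_num) (by decide +kernel)
  have h24 := cov_add (i1 := 982) _ _ _ 11 h23 k24_23 (by norm_num) (by decide +kernel)
  have h25 := cov_add (i1 := 989) _ _ _ 13 h24 k24_24 (by norm_num) (by decide +kernel)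
  have h26 := cov_add (i1 := 994) _ _ _ 14 h25 k24_25 (by norm_num) (by decide +kernel)
  have h27 := cov_add (i1 := 997) _ _ _ 16 h26 k24_26 (by norm_num) (by decide +kernel)
  have h28 := cov_add (i1 := 999) _ _ _ 17 h27 k24_27 (by norm_num) (by decide +kernel)
  have h29 := cov_add (i1 := 1000) _ _ _ 19 h28 k24_28 (by norm_num) (by decide +kernel)
  have h30 := cov_add (i1 := 1001) _ _ _ 20 h29 k24_29 (by norm_num) (by decide +kernel)
  exact h30

theorem ap24 : ap (okc 1002 c24.get d24.get) 22 22 22 1 = true := by decide +kernel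

theorem cov25 : ∀ i < 1255 - 1, Cov 25 1255 t25.get c25.get d25.get u25 i := by
  have h0 : ∀ i < 0, Cov 25 1255 t25.get c25.get d25.get u25 i := fun _ h => absurd h (by omega)
  have h1 := cov_add (i1 := 135) _ _ _ 0 h0 k25_0 (by norm_num) (by decide +kernel)
  have h2 := cov_add (i1 := 231) _ _ _ 2 h1 k25_1 (by norm_num) (by decide +kernel)
  have h3 := cov_add (i1 := 324) _ _ _ 1 h2 k25_2 (by norm_num) (by decide +kernel)
  have h4 := cov_add (i1 := 414) _ _ _ 0 h3 k25_3 (by norm_num) (by decide +kernel)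
  have h5 := cov_add (i1 := 482) _ _ _ 3 h4 k25_4 (by norm_num) (by decide +kernel)
  have h6 := cov_add (i1 := 549) _ _ _ 2 h5 k25_5 (by norm_num) (by decide +kernel)
  have h7 := cov_add (i1 := 615) _ _ _ 1 h6 k25_6 (by norm_num) (by decide +kernel)
  have h8 := cov_add (i1 := 680) _ _ _ 0 h7 k25_7 (by norm_num) (by decide +kernel)
  have h9 := cov_add (i1 := 727) _ _ _ 5 h8 k25_8 (by norm_num) (by decide +kernel)
  have h10 := cov_add (i1 := 774) _ _ _ 4 h9 k25_9 (by norm_num) (by decide +kernel)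
  have h11 := cov_add (i1 := 821) _ _ _ 3 h10 k25_10 (by norm_num) (by decide +kernel)
  have h12 := cov_add (i1 := 868) _ _ _ 2 h11 k25_11 (by norm_num) (by decide +kernel)
  have h13 := cov_add (i1 := 915) _ _ _ 1 h12 k25_12 (by norm_num) (by decide +kernel)
  have h14 := cov_add (i1 := 962) _ _ _ 0 h13 k25_13 (by norm_num) (by decide +kernel)
  have h15 := cov_add (i1 := 1000) _ _ _ 6 h14 k25_14 (by norm_num) (by decide +kernel)
  have h16 := cov_add (i1 := 1038) _ _ _ 5 h15 k25_15 (by norm_num) (by decide +kernel)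
  have h17 := cov_add (i1 := 1076) _ _ _ 4 h16 k25_16 (by norm_num) (by decide +kernel)
  have h18 := cov_add (i1 := 1114) _ _ _ 3 h17 k25_17 (by norm_num) (by decide +kernel)
  have h19 := cov_add (i1 := 1152) _ _ _ 2 h18 k25_18 (by norm_num) (by decide +kernel)
  have h20 := cov_add (i1 := 1153) _ _ _ 1 h19 k25_19 (by norm_num) (by decide +kernel)
  have h21 := cov_add (i1 := 1182) _ _ _ 8 h20 k25_20 (by norm_num) (by decide +kernel)
  have h22 := cov_add (i1 := 1185) _ _ _ 7 h21 k25_21 (by norm_num) (by decide +kernel)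
  have h23 := cov_add (i1 := 1186) _ _ _ 6 h22 k25_22 (by norm_num) (by decide +kernel)
  have h24 := cov_add (i1 := 1208) _ _ _ 9 h23 k25_23 (by norm_num) (by decide +kernel)
  have h25 := cov_add (i1 := 1209) _ _ _ 8 h24 k25_24 (by norm_num) (by decide +kernel)
  have h26 := cov_add (i1 := 1224) _ _ _ 11 h25 k25_25 (by norm_num) (by decide +kernel)
  have h27 := cov_add (i1 := 1235) _ _ _ 12 h26 k25_26 (by norm_num) (by decide +kernel)
  have h28 := cov_add (i1 := 1242) _ _ _ 14 h27 k25_27 (by norm_num) (by decide +kernel)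
  have h29 := cov_add (i1 := 1247) _ _ _ 15 h28 k25_28 (by norm_num) (by decide +kernel)
  have h30 := cov_add (i1 := 1250) _ _ _ 17 h29 k25_29 (by norm_num) (by decide +kernel)
  have h31 := cov_add (i1 := 1252) _ _ _ 18 h30 k25_30 (by norm_num) (by decide +kernel)
  have h32 := cov_add (i1 := 1253) _ _ _ 20 h31 k25_31 (by norm_num) (by decide +kernel)
  have h33 := cov_add (i1 := 1254) _ _ _ 21 h32 k25_32 (by norm_num) (by decide +kernel)
  exact h33

theorem ap25 : ap (okc 1255 c25.get d25.get) 23 23 23 1 = true := by decide +kernel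

end Pool.Agent.FP.Z

theorem Pool.Agent.FP.Fn.socStmt : Pool.Agent.FP.Fn.SocStmt := fun _ _ _ _ =>
  ⟨Z.soc_of (by norm_num) Z.cov24 (by norm_num) (by decide +kernel) (by decide +kernel)
    (by norm_num) Z.ap24,
  Z.soc_of (by norm_num) Z.cov25 (by norm_num) (by decide +kernel) (by decide +kernel)
    (by norm_num) Z.ap25⟩
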