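import Pool.Agent.FP.Asm
import Pool.Agent.FP.ZFz
import Pool.Agent.FP.GrpMain
import Pool.Agent.FP.FinMain
import Pool.Agent.FP.ZSoc
import Pool.Agent.FP.StB

/-! The final assembly. -/

namespace Pool.Agent.FP

theorem target : Target := target_of tubeStmt pushStmt fzStmt (Fn.finalStmt_of Fn.socStmt)

end Pool.Agent.FP
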