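import Pool.Agent.FP.TubeD

/-! Continuation. -/

namespace Pool.Agent.FP

open SemidirectProduct

variable {h : ℕ}

section Aux
variable {g : ℕ} {G G' : Type} [Group G] [Group G'] {σ : Representation ℚ G (Hq g)}

theorem tubee_pull_dif {σ' : Representation ℚ G' (Hq g)} (φ : G' →* G) (e : ∀ x, σ' x = σ (φ x))
    {w : G → Lm (Hq g)} (m : dif w ∈ (saE σ).Zev) (m' : dif (w ∘ φ) ∈ (saE σ').Zev) :
    pullE φ e (TT.mk _ m) = TT.mk _ m' :=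
  TT.mk_congr (show cm LinearMap.id (pl φ (dif w)) = _ by rw [cm_id, pl_dif])

theorem tubee_pull_mem {σ' : Representation ℚ G' (Hq g)} (φ : G' →* G) (e : ∀ x, σ' x = σ (φ x))
    {w : G → Lm (Hq g)} (m : dif w ∈ (saE σ).Zev) : dif (w ∘ φ) ∈ (saE σ').Zev := by
  have := (lhom_pull φ e).mem m
  rwa [cm_id, pl_dif] at this

theorem tubee_L_dif (hσ : ∀ x, Sp (σ x)) {w w' : G → Lm (Hq g)} (m : dif w ∈ (saE σ).Zev)
    (m' : dif w' ∈ (saE σ).Zev) (e : ∀ x, LL g (w x) = w' x) :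
    (mkBV hσ).L (TT.mk _ m) = TT.mk _ m' :=
  TT.mk_congr (show cm (LL g) (pl id (dif w)) = _ by
    rw [pl_id, cm_dif]
    exact congrArg dif (funext e))

theorem tubee_dif_lin {X V : Type} [AddCommGroup V] [Module ℚ V] (c : ℚ) {k k' k'' : X → V}
    (e : ∀ x, k'' x = c • k x - k' x) : dif k'' = c • dif k - dif k' := by
  funext l
  match l with
  | [] => simp [dif]
  | [_] => simp [dif]
  | [x, y] => simp only [dif, e, Pi.sub_apply, Pi.smul_apply, smul_sub]; abel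
  | _ :: _ :: _ :: _ => simp [dif]

theorem tubee_cls1_om (hσ : ∀ x, Sp (σ x)) {c : G → Hq g} (hc : Cross σ c) :
    ∃ m : dif (fun x => io (c x) * omE g) ∈ (saE σ).Zev,
      cls1 hc * (mkBV hσ).om = TT.mk _ m := by
  have e : SA.cu (dif (io ∘ c)) (cst (omE g)) = dif fun x => io (c x) * omE g := by
    rw [SA.cu, cupm_cst_right _ rfl, cm_dif]
    rfl
  exact ⟨e ▸ (saE σ).cu_mem (dif_io_mem hc) (omE_mem hσ), TT.mk_congr e⟩

end Aux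

namespace Tube
variable {ρ : Gam h →* Aut h} {ρ' : Gam (h + 1) →* Aut (h + 1)} (τ : Tube ρ ρ')

/-- The bundle of genus `h` over the tube. -/
abbrev XS : Ext h (Sd (ρ.comp τ.πΓ)) τ.S := extS (ρ.comp τ.πΓ)

theorem tubee_r2 (b : τ.S) : τ.XS.ρH b = τ.XS.ρE (τ.s2 b) := rfl

theorem tubee_rΓ (b : τ.S) : τ.XS.ρH b = (extS ρ).ρH (τ.πΓ b) := rfl

theorem tubee_rE (x : Sd (ρ.comp τ.πΓ)) : τ.XS.ρE x = (extS ρ).ρE (sdMap ρ τ.πΓ x) := rfl

theorem tubee_tm (hg : 2 ≤ h + 1) : dif (tauO (h + 1)) ∈ (saE (extA hg).ρH).Zev := tauO_mem hg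

theorem tubee_rℓ (hg : 2 ≤ h + 1) (b : τ.S) : τ.σS b = (extA hg).ρH (τ.ℓ b) := rfl

/-- The second section on classes. -/
abbrev sec2 : TE τ.XS.ρE →ₐ[ℚ] TE τ.XS.ρH := pullE τ.s2 τ.tubee_r2

theorem tubee_isSec2 (h1 : 1 ≤ h) : (τ.XS.frob h1).IsSec τ.sec2 :=
  τ.XS.isSec h1 τ.s2 fun _ => rfl

theorem tubee_cross : Cross τ.XS.ρH fun s => ab (τ.πS s).left := (sd_cross ρ).comp τ.πS

theorem tubee_s2x : τ.sec2 τ.XS.xE = cls1 τ.tubee_cross := pullE_cls1 _ _ _ _ fun _ => rfl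

theorem tubee_hom (h1 : 1 ≤ h) : ((extS ρ).frob h1).Hom (τ.XS.frob h1)
    (pullE τ.πΓ τ.tubee_rΓ) (pullE (sdMap ρ τ.πΓ) τ.tubee_rE) 0 := by
  obtain ⟨y, H, hy⟩ := (extS ρ).frob_hom h1 τ.XS (sdMap ρ τ.πΓ) τ.πΓ (fun _ => rfl)
    (fun _ => rfl) fun γ => SemidirectProduct.ext rfl (map_one τ.πΓ)
  have h0 : Cross τ.XS.ρH fun _ => 0 := fun _ _ => by simp
  rw [hy _ h0 fun _ => (add_zero _).symm, cls1_zero h0 fun _ => rfl] at H
  exact H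

theorem tubee_h12 (hh : 2 ≤ h) (hρ : IsRho ρ) :
    τ.sec2 ((τ.XS.frob (by omega)).Dl (secS _)) = 0 := by
  have h1 : 1 ≤ h := by omega
  have e := (τ.tubee_hom h1).map_Dl (isSec_secS h1 ρ) (isSec_secS h1 _) fun a =>
    (pullE_pullE _ _ _ _ (inr.comp τ.πΓ) (fun _ => rfl) (fun _ => rfl) a).trans
      (pullE_pullE _ _ _ _ (inr.comp τ.πΓ) (fun _ => rfl) (fun _ => rfl) a).symm
  rw [← e, ← unitE_DQ hh ρ, pullE_unitE, pullE_unitE,
    pullQ_pullQ (sdMap ρ τ.πΓ) τ.s2 τ.πS fun _ => rfl,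
    ← pullQ_pullQ τ.φ0 τ.q τ.πS fun _ => rfl, DQ,
    Dl_tube h1 hρ τ, map_zero, map_zero]

theorem tubee_hχ (hh : 2 ≤ h) (hρ : IsRho ρ) (hρ' : IsRho ρ') :
    secS _ (τ.XS.frob (by omega)).chi + τ.sec2 (τ.XS.frob (by omega)).chi = 0 := by
  have h1 : 1 ≤ h := by omega
  have e := congrArg τ.sec2 (isSec_secS h1 (ρ.comp τ.πΓ)).Gm_sub
  have hx : secS _ (τ.XS.frob h1).x = 0 := secS_x _
  have hx2 : τ.sec2 (τ.XS.frob h1).x = cls1 τ.tubee_cross := τ.tubee_s2x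
  have h0 : (TT.mk _ (cup_om_mem τ.XS.sp τ.tubee_cross) : TQ τ.S) = 0 := by
    refine TT.mk_eq_zero.2 ⟨τ.phi, τ.phi_mem, ?_⟩
    rw [τ.dd_phi hρ hρ', th_eq, pl_cupm, pl_cupm, pl_dif, pl_dif]
    rfl
  have hG : Gm (τ.XS.frob h1).bO.L (cls1 τ.tubee_cross) (cls1 τ.tubee_cross) = 0 := by
    refine (Gm_cls1 τ.XS.sp τ.tubee_cross).trans ?_
    rw [h0, map_zero, neg_zero]
  rw [hx, map_zero, sub_zero, (τ.tubee_isSec2 h1).hom.map_Gm, hx2, hG, map_sub, map_add,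
    (τ.tubee_isSec2 h1).s_p, map_smul, τ.tubee_h12 hh hρ, smul_zero, sub_zero, add_comm] at e
  exact e.symm

theorem tubee_hδ (hρ : IsRho ρ) (hρ' : IsRho ρ') :
    WRel (τ.good hρ hρ') 0 (cls1 τ.tubee_cross) 0 := by
  let w : τ.S → Lm (Hq (h + 1)) := fun s => io (τ.σS s (tH h) - tH h)
  have hw : ∀ s, w s ∈ WS h := fun s => io_mem_WS (by
    rw [map_sub, (τ.good hρ hρ' s).tD_eq, sub_self])
  have hc : Cross (extRep τ.σS) w := fun x y => by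
    simp only [w, extRep_apply, map_mul, Module.End.mul_apply, map_sub,
      ExteriorAlgebra.map_apply_ι]
    abel
  have ho : ∀ s, invo (w s) = -w s := fun s => invo_io _
  have e0 : pr0 h ∘ w = io ∘ fun s => ab (τ.πS s).left := funext fun s => by
    simp only [w, Function.comp_apply, ExteriorAlgebra.map_apply_ι, τ.ret_t hρ hρ']
  have e1 : dif (pr1 h ∘ w) = 0 := by
    rw [show pr1 h ∘ w = fun _ => 0 from funext fun s => pr1_io _]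
    have := tubee_dif_lin (X := τ.S) (V := Lm (Hq h)) 1 (k := fun _ => 0) (k' := fun _ => 0)
      (k'' := fun _ => 0) fun _ => by simp
    rwa [one_smul, sub_self] at this
  have H := wrel_dif (τ.good hρ hρ') hw hc ho ((saE _).dif_mem hc ho)
    (e0 ▸ dif_io_mem τ.tubee_cross) (e1 ▸ zero_mem _)
  have z : (TT.mk _ ((saE τ.σS).dif_mem hc ho) : TE τ.σS) = 0 := by
    refine TT.mk_eq_zero.2 ?_
    have := dif_principal_mem_Bc (extRep τ.σS) (io (tH h))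
    simp only [extRep_apply, ExteriorAlgebra.map_apply_ι, ← map_sub] at this
    exact this
  rw [z, TT.mk_congr (hh := dif_io_mem τ.tubee_cross) (congrArg dif e0),
    TT.mk_congr (hh := zero_mem _) e1] at H
  exact H

theorem tubee_tauO (hh : 2 ≤ h) (hρ : IsRho ρ) (hρ' : IsRho ρ') (s : τ.S) :
    tauO _ (τ.ℓ s) ∈ WS h ∧ invo (tauO _ (τ.ℓ s)) = -tauO _ (τ.ℓ s) ∧
      LL _ (tauO _ (τ.ℓ s)) = 0 ∧ ∃ y : Hq h,
      pr0 h (tauO _ (τ.ℓ s)) = (1 / 3 : ℚ) • alt _ (sigG ρ (τ.πΓ s)) - io y * omE h ∧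
      pr1 h (tauO _ (τ.ℓ s)) = (1 / 2 : ℚ) • io (ab (τ.πS s).left) - io y := by
  obtain ⟨ψ, x, m, e1, e2, hS⟩ := τ.lift s
  have e3 : τ.πS s = inl (mkS h x) * inr (m : Gam h) := by
    rw [MonoidHom.comp_apply, e2, map_mul, τ.φ0_iF, τ.φ0_iM]
  have e4 : τ.πΓ s = (m : Gam h) := by
    rw [MonoidHom.comp_apply, e3]
    simp
  have e5 : (τ.πS s).left = mkS h x := by
    rw [e3]
    simp
  obtain ⟨a, b⟩ := hS.tauA hρ hρ' (by omega)
  rw [e1, tauO_mk (by omega), e4, e5]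
  refine ⟨a, invo_tauA _, ?_, b⟩
  rw [tauA, map_smul, LL_prim (by omega) (NN_alt (NN_sigb _)), smul_zero]

theorem tubee_hτ (hh : 2 ≤ h) (hg : 2 ≤ h + 1) (hρ : IsRho ρ) (hρ' : IsRho ρ') :
    ∃ y : TE τ.XS.ρH,
    (mkBV τ.XS.sp).N y = y ∧
    (mkBV τ.XS.sp).L ((1 / 6 : ℚ) • τ.XS.IE (by omega) (τ.XS.xE ^ 3) - y * (mkBV τ.XS.sp).om) =
      (1 / 2 : ℚ) • cls1 τ.tubee_cross - y ∧
    WRel (τ.good hρ hρ') (pullE τ.ℓ (τ.tubee_rℓ hg) (TT.mk _ (tubee_tm hg)))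
      ((1 / 6 : ℚ) • τ.XS.IE (by omega) (τ.XS.xE ^ 3) - y * (mkBV τ.XS.sp).om)
      ((1 / 2 : ℚ) • cls1 τ.tubee_cross - y) := by
  have h1 : 1 ≤ h := by omega
  choose hw ho hL y hy0 hy1 using τ.tubee_tauO hh hρ hρ'
  have hc : Cross (extRep τ.σS) (tauO _ ∘ τ.ℓ) := (tauO_cross (by omega)).comp τ.ℓ
  have c0 := cross_pr0 (τ.good hρ hρ') hw hc
  have c1 := cross_pr1 (τ.good hρ hρ') hw hc
  have cy : Cross τ.XS.ρH y := fun a b => by
    have e := c1 a b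
    have e' := τ.tubee_cross a b
    simp only [Function.comp_apply, hy1, extRep_apply, map_sub, map_smul,
      ExteriorAlgebra.map_apply_ι, e', map_add] at e
    refine (ExteriorAlgebra.ι_inj ℚ _ _).1 ?_
    rw [map_add]
    linear_combination (norm := module) -e
  have m0 : dif (pr0 h ∘ tauO _ ∘ τ.ℓ) ∈ (saE τ.XS.ρH).Zev := (saE _).dif_mem c0 fun s => by
    change invo (pr0 h (tauO _ (τ.ℓ s))) = -pr0 h (tauO _ (τ.ℓ s))
    rw [invo_emap, ho, map_neg]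
  have m1 : dif (pr1 h ∘ tauO _ ∘ τ.ℓ) ∈ (saE τ.XS.ρH).Zev := (saE _).dif_mem c1 fun s => by
    change invo (pr1 h (tauO _ (τ.ℓ s))) = -pr1 h (tauO _ (τ.ℓ s))
    rw [← pr1_invo, ho, map_neg]
  have H := wrel_dif (τ.good hρ hρ') hw hc ho ((saE _).dif_mem hc ho) m0 m1
  have ma := tubee_pull_mem τ.πΓ τ.tubee_rΓ
    ((extS ρ).alt_mem (sigG_cross hρ) (invo_sigG ρ))
  have hI : τ.XS.IE h1 (τ.XS.xE ^ 3) = (2 : ℚ) • TT.mk _ ma := by
    have e := (τ.tubee_hom h1).map_I ((extS ρ).xE ^ 3)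
    have ex := (τ.tubee_hom h1).map_x
    rw [map_zero, add_zero] at ex
    change pullE _ _ (extS ρ).xE = τ.XS.xE at ex
    change pullE _ _ ((extS ρ).IE h1 _) = τ.XS.IE h1 _ at e
    rw [tau_gam h1 hρ τ, map_pow, ex, map_smul, tubee_pull_dif _ _ _ ma] at e
    exact e.symm
  obtain ⟨mo, eo⟩ := tubee_cls1_om τ.XS.sp cy
  have e0 : (1 / 6 : ℚ) • τ.XS.IE h1 (τ.XS.xE ^ 3) - cls1 cy * (mkBV τ.XS.sp).om =
      TT.mk _ m0 := by
    rw [hI, eo, smul_smul, show (1 / 6 * 2 : ℚ) = 1 / 3 by norm_num, TT.mk_smul, TT.mk_sub]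
    exact TT.mk_congr (tubee_dif_lin _ hy0).symm
  have e1 : (1 / 2 : ℚ) • cls1 τ.tubee_cross - cls1 cy = TT.mk _ m1 := by
    rw [cls1, cls1, TT.mk_smul, TT.mk_sub]
    exact TT.mk_congr (tubee_dif_lin _ hy1).symm
  refine ⟨cls1 cy, N_cls1 _ cy, ?_, ?_⟩
  · rw [e0, e1]
    refine tubee_L_dif _ m0 m1 fun s => ?_
    have e := pr0_LL (tauO _ (τ.ℓ s))
    rw [hL, map_zero, eq_comm, sub_eq_zero] at e
    exact e
  · rw [e0, e1, tubee_pull_dif _ _ _ ((saE _).dif_mem hc ho)]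
    exact H

/-- Apply `tube_alg` to `(extA _).frob`, `(extS (ρ.comp τ.πΓ)).frob`, the sections `secS` and `s2`
and the relation `degRel`. -/
theorem kappa_tube (hh : 2 ≤ h) (hρ : IsRho ρ) (hρ' : IsRho ρ') (m : ℕ) (hm : 1 ≤ m) :
    pullQ τ.ℓ ((extA (g := h + 1) (by omega)).kbQ (by omega) m) =
      pullQ τ.πS (pullQ rightHom (kapQ hh ρ m) - pullQ rightHom (eQ hh ρ) ^ m -
        eQ hh (q2 ρ) ^ m) := by
  have h1 : 1 ≤ h := by omega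
  have hg : 2 ≤ h + 1 := by omega
  have hg1 : 1 ≤ h + 1 := by omega
  obtain ⟨y, hN, hy, hτ⟩ := τ.tubee_hτ hh hg hρ hρ'
  have hx : secS _ (τ.XS.frob h1).x = 0 := secS_x _
  have hx2 : τ.sec2 (τ.XS.frob h1).x = cls1 τ.tubee_cross := τ.tubee_s2x
  have hs := (congrArg₂ (· + ·) hx hx2).trans (zero_add _)
  have hd := (congrArg₂ (· - ·) hx2 hx).trans (sub_zero _)
  have ht := tau_out hg
  rw [show (1 / (1 - ((h + 1 : ℕ) : ℚ)) : ℚ) = -(1 / h) by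
    push_cast; rw [show (1 - (h + 1) : ℚ) = -h by ring, div_neg], neg_smul,
    sub_neg_eq_add] at ht
  change _ = TT.mk _ (tubee_tm hg) at ht
  have K := tube_alg h1 ((extA hg).frob hg1) (τ.XS.frob h1) (isSec_secS h1 _) (τ.tubee_isSec2 h1)
    (degRel (τ.good hρ hρ') (extA hg).sp (fun s => outRep_sp (τ.ℓ s)) τ.XS.sp τ.ℓ
      (τ.tubee_rℓ hg))
    (τ.tubee_h12 hh hρ) (τ.tubee_hχ hh hρ hρ')
    (by rw [hd, map_zero]; exact τ.tubee_hδ hρ hρ') hN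
    (hy.trans (congrArg (fun a => (1 / 2 : ℚ) • a - y) hs.symm))
    (by
      rw [← ht] at hτ
      exact (congrArg (fun a => WRel (τ.good hρ hρ') _ _ ((1 / 2 : ℚ) • a - y)) hs).mpr hτ) m hm
  have e := K.aug
  have b1 : augE τ.XS.ρH (secS _ (τ.XS.frob h1).chi) = eQ hh (ρ.comp τ.πΓ) :=
    (congrArg _ (secS_chi hh _)).trans (augE_unitE _ _)
  have b2 : augE τ.XS.ρH (τ.sec2 (τ.XS.frob h1).chi) = pullQ τ.s2 (eQ hh (q2 (ρ.comp τ.πΓ))) :=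
    (augE_pullE _ _ _).trans (congrArg _ (chiQ_extS hh _))
  refine ((augE_pullE τ.ℓ (τ.tubee_rℓ hg) _).symm.trans e).trans ?_
  rw [map_sub, map_sub, map_pow, map_pow, b1, b2]
  have a1 : augE _ ((τ.XS.frob h1).kb m) = pullQ τ.πS (pullQ rightHom (kapQ hh ρ m)) := by
    refine (kbQ_extS hh _ m).trans ?_
    rw [kapQ, kapQ, pullQ_pullQ rightHom τ.πS τ.πΓ fun _ => rfl]
    exact (pullQ_pullQ _ _ _ (fun _ => rfl) _).symm
  have a2 : eQ hh (ρ.comp τ.πΓ) = pullQ τ.πS (pullQ rightHom (eQ hh ρ)) := by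
    rw [eQ, eQ, pullQ_pullQ rightHom τ.πS τ.πΓ fun _ => rfl]
    exact (pullQ_pullQ _ _ _ (fun _ => rfl) _).symm
  have a3 : pullQ τ.s2 (eQ hh (q2 (ρ.comp τ.πΓ))) = pullQ τ.πS (eQ hh (q2 ρ)) := by
    rw [eQ, eQ, pullQ_pullQ (q2 ρ) τ.πS ((q2 ρ).comp τ.πS) fun _ => rfl]
    exact pullQ_pullQ _ _ _ (fun _ => rfl) _
  rw [map_sub, map_sub, map_pow, map_pow, a1, a2, a3]

include τ in
/-- The hypothesis of `FinalStmt`. -/
theorem tube_final (hh : 2 ≤ h) (hρ : IsRho ρ) (hρ' : IsRho ρ') (X : MvPolynomial ℕ ℚ)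
    (hX : MvPolynomial.aeval
      (fun m => (extA (g := h + 1) (by omega)).kbQ (by omega) (m + 1)) X = 0)
    {w : TQ (Sd ρ)} (h1 : w * DQ hh ρ = 0)
    (h2 : w * (pullQ rightHom (eQ hh ρ) + eQ hh (q2 ρ)) = 0) :
    w * MvPolynomial.aeval (fun m => pullQ rightHom (kapQ hh ρ (m + 1)) -
      pullQ rightHom (eQ hh ρ) ^ (m + 1) - eQ hh (q2 ρ) ^ (m + 1)) X = 0 := by
  refine τ.tube_class (by omega) hρ hρ' ?_ ?_ ?_
  · rw [← IQ_DQ_mul hh, mul_comm, h1, map_zero]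
  · rw [DQ_eq, mul_smul_comm, mul_add, h2, zero_add] at h1
    exact (smul_eq_zero.1 h1).resolve_left (by norm_num)
  · rw [MvPolynomial.comp_aeval_apply, ← map_zero (pullQ τ.ℓ), ← hX,
      MvPolynomial.comp_aeval_apply]
    exact congrArg (fun f => MvPolynomial.aeval f X)
      (funext fun m => (τ.kappa_tube hh hρ hρ' (m + 1) (by omega)).symm)

end Tube

end Pool.Agent.FP
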