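import Pool.Agent.FP.Br2
import Pool.Agent.FP.TubeE

/-! Assembly. -/

namespace Pool.Agent.FP

open SemidirectProduct

section Aux
variable {h : ℕ} {Q : Type} [Group Q]

theorem asm_fz (hZ : FZStmt) (hh : 2 ≤ h) : FZ h ((extA hh).kbQ (by omega)) :=
  (hZ h _ _ ((extA hh).frob (by omega))).map (augE _)

theorem asm_fz' (hZ : FZStmt) (hh : 2 ≤ h) (r : Q →* Aut h) : FZ h (kapQ hh r) :=
  (asm_fz hZ hh).map (pullQ _)

theorem asm_kap0 (hh : 2 ≤ h) (r : Q →* Aut h) : kapQ hh r 0 = (2 - 2 * (h : ℚ)) • 1 := by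
  rw [← kbQ_extS, Ext.kbQ_zero]

theorem asm_I_mul (hh : 1 ≤ h) (r : Q →* Aut h) (y : TQ Q) (f : TQ (Sd r)) :
    (extS r).IQ hh (pullQ rightHom y * f) = y * (extS r).IQ hh f :=
  (extS r).I_mul hh (lhomQ (extS r).p) y f

theorem asm_I_one (hh : 1 ≤ h) (r : Q →* Aut h) : (extS r).IQ hh 1 = 0 := by
  have h1 := (extS r).augE_IE hh 1
  have h2 : (extS r).IE hh 1 = 0 := ((extS r).mkPre hh).I_one
  rw [h2, map_zero, map_one] at h1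
  exact h1.symm

theorem asm_I_pow (hh : 2 ≤ h) (r : Q →* Aut h) (m : ℕ) :
    (extS r).IQ (by omega) (eQ hh (q2 r) ^ (m + 1)) = kapQ hh r m := by
  rw [← chiQ_extS, Ext.IQ_chiQ_pow, kbQ_extS]

theorem asm_I_D (hh : 2 ≤ h) (r : Q →* Aut h) : (extS r).IQ (by omega) (DQ hh r) = 1 := by
  have h1 := IQ_DQ_mul hh r 1
  rwa [mul_one, map_one] at h1

theorem asm_D_e (hh : 2 ≤ h) (r : Q →* Aut h) :
    DQ hh r * eQ hh (q2 r) = DQ hh r * pullQ rightHom (eQ hh r) := by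
  rw [DQ_mul, eQ, pullQ_pullQ (q2 r) inr r (q2_inr r), eQ]

theorem asm_D_D (hh : 2 ≤ h) (r : Q →* Aut h) :
    DQ hh r * DQ hh r = DQ hh r * pullQ rightHom (eQ hh r) := by
  rw [DQ_mul, inr_DQ]

variable {r : Q →* Aut h} {σ : Sd r →* Sd r}

theorem asm_s1 (hh : 2 ≤ h) (h2 : ∀ x, r (σ x).right = q2 r x) :
    pullQ σ (pullQ rightHom (eQ hh r)) = eQ hh (q2 r) := by
  rw [eQ, pullQ_pullQ r rightHom (r.comp rightHom) fun _ => rfl,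
    pullQ_pullQ (r.comp rightHom) σ (q2 r) h2, eQ]

theorem asm_s2 (hh : 2 ≤ h) (h3 : ∀ x, q2 r (σ x) = r x.right) :
    pullQ σ (eQ hh (q2 r)) = pullQ rightHom (eQ hh r) := by
  rw [eQ, eQ, pullQ_pullQ r rightHom (r.comp rightHom) fun _ => rfl,
    pullQ_pullQ (q2 r) σ (r.comp rightHom) h3]

theorem asm_s4 (hh : 2 ≤ h) (h2 : ∀ x, r (σ x).right = q2 r x) (m : ℕ) :
    pullQ σ (pullQ rightHom (kapQ hh r m)) = pullQ rightHom (kapQ hh r m) := by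
  rw [kapQ, pullQ_pullQ _ rightHom (((QuotientGroup.mk' _).comp r).comp rightHom) fun _ => rfl]
  refine pullQ_pullQ _ σ _ (fun x => ?_) _
  change (r (σ x).right : Out h) = (r x.right : Out h)
  rw [h2, q2_mk]

end Aux

/-- Apply `FinalStmt` with `O = TQ (Gam 24)`, `T = TQ (Sd ρ)`, `O' = TQ (Out 25)`,
`κ' = (extA _).kbQ`, `κ = kapQ ρ`, `χ = eQ ρ`, `p = pullQ rightHom`, `I = (extS ρ).IQ`,
`e = eQ (q2 ρ)`, `D = DQ ρ`, `σ = pullQ` of the swap; `FZ.map` transports the relations. -/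
theorem target_of (hT : TubeStmt) (hP : PushStmt) (hZ : FZStmt) (hF : FinalStmt) : Target := by
  refine ⟨fun g hg => nonempty_taut hT hg, fun s t hG => ?_⟩
  have h24 : 2 ≤ 24 := by norm_num
  have h25 : 2 ≤ 25 := by norm_num
  obtain ⟨τ⟩ := hT 24 s.ρ t.ρ s.ρ_def t.ρ_def
  obtain ⟨σ, h1, h2, h3⟩ := exists_swap hP s.ρ_def
  refine hF (TQ (Gam 24)) (TQ (Sd s.ρ)) (TQ (Out 25)) ((extA h25).kbQ (by omega))
    (kapQ h24 s.ρ) (eQ h24 s.ρ) (pullQ rightHom) ((extS s.ρ).IQ (by omega)) (eQ h24 (q2 s.ρ))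
    (DQ h24 s.ρ) (pullQ σ) (asm_fz hZ h25) (asm_fz' hZ h24 _) ?_ (asm_I_mul _ _) (asm_I_one _ _)
    (asm_I_pow h24 _) (asm_I_D h24 _) (asm_D_e h24 _) (asm_D_D h24 _) (asm_s1 h24 h2)
    (asm_s2 h24 h3) ?_ (asm_s4 h24 h2) (t.gorR0 h25 hG.1) (s.gorR2 h24 hG.2)
    fun X hX w _ hw1 hw2 => ?_
  · rw [asm_kap0]
    norm_num
  · rw [DQ_eq, map_smul, map_add, map_add, asm_s1 h24 h2, asm_s2 h24 h3,
      swap_thQ (ρ := s.ρ) h1, add_comm (eQ h24 (q2 s.ρ))]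
  · exact τ.tube_final h24 s.ρ_def t.ρ_def X hX hw1 hw2

end Pool.Agent.FP
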