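import Pool.Agent.FP.FrobDefs

/-! Basic calculus in BV algebras and the completeness relation. -/

namespace Pool.Agent.FP

variable {R R' O T : Type} [CommRing R] [Algebra ℚ R] [CommRing R'] [Algebra ℚ R']
  [CommRing O] [Algebra ℚ O] [CommRing T] [Algebra ℚ T] {g : ℕ}

theorem Gm_comm (L : R →ₗ[ℚ] R) (a b : R) : Gm L a b = Gm L b a := by
  simp only [Gm, mul_comm a b]; ring

theorem Gm_add_left (L : R →ₗ[ℚ] R) (a a' b : R) : Gm L (a + a') b = Gm L a b + Gm L a' b := by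
  simp only [Gm, add_mul, map_add]; ring

theorem Gm_add_right (L : R →ₗ[ℚ] R) (a b b' : R) : Gm L a (b + b') = Gm L a b + Gm L a b' := by
  simp only [Gm, mul_add, map_add]; ring

theorem Gm_sub_left (L : R →ₗ[ℚ] R) (a a' b : R) : Gm L (a - a') b = Gm L a b - Gm L a' b := by
  simp only [Gm, sub_mul, map_sub]; ring

theorem Gm_sub_right (L : R →ₗ[ℚ] R) (a b b' : R) : Gm L a (b - b') = Gm L a b - Gm L a b' := by
  simp only [Gm, mul_sub, map_sub]; ring

theorem Gm_smul_left (L : R →ₗ[ℚ] R) (c : ℚ) (a b : R) : Gm L (c • a) b = c • Gm L a b := by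
  simp only [Gm, smul_mul_assoc, map_smul, smul_sub]

theorem Gm_smul_right (L : R →ₗ[ℚ] R) (c : ℚ) (a b : R) : Gm L a (c • b) = c • Gm L a b := by
  simp only [Gm, mul_smul_comm, map_smul, smul_sub]

theorem L_mul (L : R →ₗ[ℚ] R) (a b : R) : L (a * b) = L a * b + a * L b + Gm L a b := by
  simp only [Gm]; ring

namespace BV
variable (b : BV g R)

theorem N_one : b.N 1 = 0 := by
  have h := b.N_mul 1 1
  simp only [mul_one, one_mul] at h
  linear_combination -h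

theorem L_one : b.L 1 = 0 := by
  have h := b.G_mul 1 1 1
  simp only [Gm, mul_one, one_mul] at h
  linear_combination h

theorem L_scal {a : R} (ha : b.N a = 0) (c : R) : b.L (a * c) = a * b.L c := by
  rw [← b.scal a ha, b.L_P]

theorem L_of_scal {a : R} (ha : b.N a = 0) : b.L a = 0 := by
  have h := b.L_scal ha 1
  rwa [mul_one, b.L_one, mul_zero] at h

theorem Gm_scal {a : R} (ha : b.N a = 0) (c : R) : Gm b.L a c = 0 := by
  simp [Gm, b.L_scal ha, b.L_of_scal ha]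

theorem Gm_scal_mul {a : R} (ha : b.N a = 0) (c e : R) :
    Gm b.L (a * c) e = a * Gm b.L c e := by
  rw [b.G_mul, b.Gm_scal ha]; ring

theorem N_mul_scal {a c : R} (ha : b.N a = 0) (hc : b.N c = 0) : b.N (a * c) = 0 := by
  rw [b.N_mul, ha, hc]; ring

theorem N_pow_scal {a : R} (ha : b.N a = 0) (n : ℕ) : b.N (a ^ n) = 0 := by
  induction n with
  | zero => simpa using b.N_one
  | succ n ih => rw [pow_succ]; exact b.N_mul_scal ih ha

theorem N_L (a : R) : b.N (b.L a) = b.L (b.N a) - (2 : ℚ) • b.L a := by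
  rw [b.L_N]; abel

theorem N_Gm (a c : R) : b.N (Gm b.L a c) =
    Gm b.L (b.N a) c + Gm b.L a (b.N c) - (2 : ℚ) • Gm b.L a c := by
  simp only [Gm, map_sub, b.N_L, b.N_mul, map_add, Algebra.smul_def, map_ofNat]
  ring

theorem N_Gm_deg1 {a c : R} (ha : b.N a = a) (hc : b.N c = c) : b.N (Gm b.L a c) = 0 := by
  rw [b.N_Gm, ha, hc, two_smul]; ring

theorem Gm_pow (a c : R) (n : ℕ) :
    Gm b.L (a ^ (n + 1)) c = ((n : ℚ) + 1) • (a ^ n * Gm b.L a c) := by
  induction n with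
  | zero => simp
  | succ n ih =>
    rw [pow_succ a (n + 1), b.G_mul, ih]
    simp only [Algebra.smul_def, map_add, map_natCast, map_one, Nat.cast_succ]
    ring

theorem N_pow {a : R} (ha : b.N a = a) (n : ℕ) : b.N (a ^ n) = (n : ℚ) • a ^ n := by
  induction n with
  | zero => simpa using b.N_one
  | succ n ih =>
    rw [pow_succ, b.N_mul, ih, ha]
    simp only [Algebra.smul_def, map_add, map_natCast, map_one, Nat.cast_succ]
    ring

theorem L_pow {x : R} (hx : b.N x = x) (n : ℕ) :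
    b.L (x ^ (n + 2)) = (((n : ℚ) + 2) * (n + 1) / 2) • (x ^ n * Gm b.L x x) := by
  have h1 := b.deg1 x hx
  induction n with
  | zero => simp [pow_two, Gm, h1]
  | succ n ih =>
    rw [show n + 1 + 2 = (n + 2) + 1 from rfl, pow_succ x (n + 2), L_mul, ih, h1,
      show n + 2 = (n + 1) + 1 from rfl, b.Gm_pow, mul_zero, add_zero, smul_mul_assoc,
      show x ^ n * Gm b.L x x * x = x ^ (n + 1) * Gm b.L x x by ring, ← add_smul]
    congr 1
    push_cast
    ring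

theorem L_mul_om {y : R} (hy : b.N y = y) : b.L (b.om * y) = (1 - (g : ℚ)) • y := by
  rw [L_mul, b.L_om, b.deg1 y hy, b.G_om, hy, sub_smul]
  simp only [smul_mul_assoc, one_mul, neg_smul, mul_zero, one_smul, neg_mul]
  abel

theorem Hom.map_Gm {b' : BV g R'} {f : R →ₐ[ℚ] R'} (hf : b.Hom b' f) (a c : R) :
    f (Gm b.L a c) = Gm b'.L (f a) (f c) := by
  simp only [Gm, map_sub, map_mul, hf.map_L]

end BV

namespace PreFrob
variable (F : PreFrob g O T)

theorem I_Gm (y : O) (f : T) : F.I (Gm F.bT.L (F.p y) f) = Gm F.bO.L y (F.I f) := by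
  simp only [Gm, map_sub, F.I_L, ← F.p_hom.map_L, F.I_p]

theorem N_p (y : O) : F.bT.N (F.p y) = F.p (F.bO.N y) := (F.p_hom.map_N y).symm

theorem I_p_one (y : O) : F.I (F.p y) = 0 := by
  have h := F.I_p y 1
  rwa [mul_one, F.I_one, mul_zero] at h

theorem N_I_scal {a : T} (ha : F.bT.N a = 0) : F.bO.N (F.I a) = 0 := by
  rw [← F.I_N, ha, map_zero]

theorem N_I_x {a : T} (ha : F.bT.N a = 0) : F.bO.N (F.I (F.x * a)) = F.I (F.x * a) := by
  rw [← F.I_N, F.bT.N_mul, ha, F.N_x, mul_zero, add_zero]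

theorem N_Gm_x {y : O} (hy : F.bO.N y = y) : F.bT.N (Gm F.bT.L (F.p y) F.x) = 0 :=
  F.bT.N_Gm_deg1 (by rw [F.N_p, hy]) F.N_x

theorem I_x_Gm {y : O} (hy : F.bO.N y = y) : F.I (F.x * Gm F.bT.L (F.p y) F.x) = y := by
  have h := F.I_Gm y (F.x * F.x)
  rw [F.I_xx, Gm_smul_right, Gm_comm _ y, F.bO.G_om, hy, Gm_comm, F.bT.G_mul,
    Gm_comm _ F.x, map_add, two_smul] at h
  have h2 : (2 : ℚ) • F.I (F.x * Gm F.bT.L (F.p y) F.x) = (2 : ℚ) • y := by
    rw [two_smul, two_smul]; exact h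
  exact smul_right_injective O (by norm_num) h2

end PreFrob

namespace Frob
variable (F : Frob g O T)

theorem dec (i : ℕ) (a : T) (ha : F.bT.N a = 0) : ∃ f0 f2 : O, ((i : ℚ) + 1) • (F.x ^ i * a) =
    F.p f0 + Gm F.bT.L (F.p (F.I (F.x ^ (i + 1) * a))) F.x + F.p f2 * F.η := by
  obtain ⟨f0, f2, h⟩ := F.dec' i a ha
  refine ⟨f0, f2, ?_⟩
  rw [h, F.I_xη, map_zero, F.bT.Gm_scal (map_zero _), sub_zero]

theorem I_η_Gm (y : O) : F.I (F.η * Gm F.bT.L (F.p y) F.x) = 0 := by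
  rw [Gm_comm, ← F.bT.Gm_scal_mul F.N_η, Gm_comm, F.I_Gm, mul_comm, F.I_xη, Gm_comm,
    F.bO.Gm_scal (map_zero _)]

theorem I_Gm_x (y : O) : F.I (Gm F.bT.L (F.p y) F.x) = 0 := by
  rw [F.I_Gm, F.I_x, Gm_comm, F.bO.Gm_scal (map_zero _)]

/-- The completeness relation. -/
theorem compl (i : ℕ) (a : T) (ha : F.bT.N a = 0) : ((i : ℚ) + 1) • (F.x ^ i * a) =
    ((i : ℚ) + 1) • (F.p (F.I (F.η * (F.x ^ i * a))) + F.p (F.I (F.x ^ i * a)) * F.η) +
      Gm F.bT.L (F.p (F.I (F.x ^ (i + 1) * a))) F.x := by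
  obtain ⟨f0, f2, h⟩ := F.dec i a ha
  have h2 : f2 = ((i : ℚ) + 1) • F.I (F.x ^ i * a) := by
    have := congrArg F.I h
    rw [map_smul, map_add, map_add, F.I_p_one, F.I_Gm_x, F.I_p, F.I_η] at this
    rw [this]; ring
  have h0 : f0 = ((i : ℚ) + 1) • F.I (F.η * (F.x ^ i * a)) := by
    have := congrArg (fun t => F.I (F.η * t)) h
    simp only [mul_smul_comm, map_smul, mul_add, map_add] at this
    rw [F.I_η_Gm, mul_comm F.η (F.p f0), F.I_p, F.I_η, mul_left_comm F.η (F.p f2), F.I_p,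
      F.I_ηη] at this
    rw [this]; ring
  rw [h, h0, h2, map_smul, map_smul, smul_add, smul_mul_assoc]
  abel

/-- The contraction formula. -/
theorem compl2 (i j : ℕ) (a c : T) (ha : F.bT.N a = 0) (hc : F.bT.N c = 0) :
    Gm F.bO.L (F.I (F.x ^ (i + 1) * a)) (F.I (F.x ^ (j + 1) * c)) =
      (((i : ℚ) + 1) * (j + 1)) • (F.I (F.x ^ (i + j) * (a * c))
        - F.I (F.η * (F.x ^ i * a)) * F.I (F.x ^ j * c)
        - F.I (F.x ^ i * a) * F.I (F.η * (F.x ^ j * c))) := by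
  have h := F.compl i a ha
  have h1 : Gm F.bT.L (F.p (F.I (F.x ^ (i + 1) * a))) F.x = ((i : ℚ) + 1) • (F.x ^ i * a -
      (F.p (F.I (F.η * (F.x ^ i * a))) + F.p (F.I (F.x ^ i * a)) * F.η)) := by
    rw [smul_sub, h]; abel
  rw [← F.I_Gm, Gm_comm, mul_comm _ c, F.bT.Gm_scal_mul hc, F.bT.Gm_pow, Gm_comm, h1,
    mul_smul_comm, mul_smul_comm, mul_smul_comm, smul_smul, map_smul, mul_comm ((j : ℚ) + 1)]
  congr 1
  rw [← F.I_p, ← F.I_p, ← map_sub, ← map_sub]
  congr 1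
  ring

theorem N_chi : F.bT.N F.chi = 0 := by
  rw [chi, map_add, map_smul, F.N_η, F.bT.N_Gm_deg1 F.N_x F.N_x, smul_zero, add_zero]

theorem kb_zero : F.kb 0 = (2 - 2 * (g : ℚ)) • (1 : O) := by
  have h : Gm F.bT.L F.x F.x = F.bT.L (F.x * F.x) := by
    simp [Gm, F.bT.deg1 F.x F.N_x]
  rw [kb, zero_add, pow_one, chi, map_add, map_smul, F.I_η, h, F.I_L, F.I_xx, map_smul,
    F.bO.L_om, smul_smul, ← add_smul]
  congr 1; ring

/-- A scalar class is determined by its three components. -/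
theorem ext_scal {a c : T} (ha : F.bT.N a = 0) (hc : F.bT.N c = 0) (h0 : F.I a = F.I c)
    (h1 : F.I (F.x * a) = F.I (F.x * c)) (h2 : F.I (F.η * a) = F.I (F.η * c)) : a = c := by
  have e1 := F.compl 0 a ha
  have e2 := F.compl 0 c hc
  simp only [Nat.cast_zero, zero_add, one_smul, pow_zero, one_mul, pow_one] at e1 e2
  rw [e1, e2, h0, h1, h2, ← e2]

end Frob

end Pool.Agent.FP
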