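import Pool.Agent.FP.Ex3
import Pool.Agent.FP.FrobA

/-! The BV structure on classes with values in the exterior algebra of homology. -/

namespace Pool.Agent.FP

variable {g : ℕ} {G G' : Type} [Group G] [Group G'] {ρ : Representation ℚ G (Hq g)}

section
variable {A A' : Type} [Ring A] [Algebra ℚ A] [Ring A'] [Algebra ℚ A'] {S : SA G A} {S' : SA G A'}
  {ψ : A →ₗ[ℚ] A'}

theorem bv1_pl (f : List G → A) : pl (MonoidHom.id G) f = f := pl_id f

theorem bv1_mem (H : LHom S S' (MonoidHom.id G) ψ) {f : List G → A} (hf : f ∈ S.Zev) :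
    cm ψ f ∈ S'.Zev := by
  have := H.mem hf
  rwa [bv1_pl] at this

theorem bv1_mk (H : LHom S S' (MonoidHom.id G) ψ) {f : List G → A} (hf : f ∈ S.Zev) :
    H.map (TT.mk f hf) = TT.mk (cm ψ f) (bv1_mem H hf) :=
  (H.map_mk hf).trans (TT.mk_congr (by rw [bv1_pl]))

theorem bv1_cst_pow {a : A} (ha : (cst a : List G → A) ∈ S.Zev) (n : ℕ) :
    ∃ h, (TT.mk _ ha) ^ n = TT.mk (S := S) (cst (a ^ n)) h := by
  induction n with
  | zero => exact ⟨by rw [pow_zero]; exact S.cst_mem S.ρ_one S.ι_one, by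
      rw [pow_zero, TT.one_def]; exact TT.mk_congr (by rw [pow_zero])⟩
  | succ n ih =>
    obtain ⟨h, e⟩ := ih
    have e' : SA.cu (cst a : List G → A) (cst (a ^ n)) = cst (a ^ (n + 1)) := by
      rw [SA.cu, cupm_cst_left _ _ (cst_nil _), cm_cst, LinearMap.mul_apply', pow_succ']
    refine ⟨e' ▸ S.cu_mem ha h, ?_⟩
    rw [pow_succ', e, TT.mk_mul]
    exact TT.mk_congr e'

end

theorem omE_mem (hρ : ∀ x, Sp (ρ x)) : (cst (omE g) : List G → Lm (Hq g)) ∈ (saE ρ).Zev := by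
  refine (saE ρ).cst_mem (fun x => emap_omE (ψ := ρ x⁻¹) (fun v => ?_) (hρ x)) invo_omE
  rw [← Module.End.mul_apply, ← map_mul, mul_inv_cancel, map_one, Module.End.one_apply]

/-- The first copy inside the doubled algebra. -/
def jT (ρ : Representation ℚ G (Hq g)) : TE ρ →ₐ[ℚ] TE (rep2 ρ) :=
  lhom_j2.mapA (map_one (j2 g)) (map_mul (j2 g))

/-- The retraction. -/
def rT (ρ : Representation ℚ G (Hq g)) : TE (rep2 ρ) →ₐ[ℚ] TE ρ :=
  lhom_r2.mapA (map_one (r2 g)) (map_mul (r2 g))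

theorem D2T_mul (a b : TE (rep2 ρ)) :
    lhom_D2.map (a * b) = lhom_D2.map a * b + a * lhom_D2.map b := by
  induction a using TT.ind
  induction b using TT.ind
  simp only [TT.mk_mul, bv1_mk, TT.mk_add]
  refine TT.mk_congr (funext fun l => ?_)
  simp only [cm_apply, cupm_apply, map_sum, Pi.add_apply, LinearMap.mul_apply',
    ← Finset.sum_add_distrib]
  exact Finset.sum_congr rfl fun i _ => der_mul _ _ _

theorem rT_jT (a : TE ρ) : rT ρ (jT ρ a) = a := by
  induction a using TT.ind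
  simp only [rT, jT, LHom.mapA_apply, bv1_mk]
  exact TT.mk_congr (funext fun l => r2_j2 _)

theorem L2T_jT_mul (hρ : ∀ x, Sp (ρ x)) (a : TE ρ) (m : TE (rep2 ρ)) :
    (lhom_L2 hρ).map (jT ρ a * m) = jT ρ a * (lhom_L2 hρ).map m := by
  induction a using TT.ind
  induction m using TT.ind
  simp only [jT, LHom.mapA_apply, TT.mk_mul, bv1_mk]
  refine TT.mk_congr (funext fun l => ?_)
  simp only [cm_apply, cupm_apply, map_sum, LinearMap.mul_apply']
  exact Finset.sum_congr rfl fun i _ => L2_j2_mul _ _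

theorem Gm_eq (hρ : ∀ x, Sp (ρ x)) (a b : TE ρ) : Gm (lhom_L hρ).map a b =
    rT ρ ((lhom_L2 hρ).map (lhom_D2.map (jT ρ a) * lhom_D2.map (jT ρ b))) := by
  induction a using TT.ind
  induction b using TT.ind
  simp only [Gm, rT, jT, LHom.mapA_apply, TT.mk_mul, bv1_mk, TT.mk_sub]
  refine TT.mk_congr (funext fun l => ?_)
  simp only [cm_apply, cupm_apply, map_sum, Pi.sub_apply, LinearMap.mul_apply',
    ← Finset.sum_sub_distrib]
  refine Finset.sum_congr rfl fun i _ => ?_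
  rw [LL_mul]
  simp only [AlgHom.toLinearMap_apply]
  abel

theorem bv_N_mul (a b : TE ρ) : lhom_N.map (a * b) = lhom_N.map a * b + a * lhom_N.map b := by
  induction a using TT.ind
  induction b using TT.ind
  simp only [TT.mk_mul, bv1_mk, TT.mk_add]
  refine TT.mk_congr (funext fun l => ?_)
  simp only [cm_apply, cupm_apply, map_sum, Pi.add_apply, LinearMap.mul_apply',
    ← Finset.sum_add_distrib]
  exact Finset.sum_congr rfl fun i _ => der_mul _ _ _

theorem bv_L_N (hρ : ∀ x, Sp (ρ x)) (a : TE ρ) : (lhom_L hρ).map (lhom_N.map a) =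
    lhom_N.map ((lhom_L hρ).map a) + (2 : ℚ) • (lhom_L hρ).map a := by
  induction a using TT.ind
  simp only [bv1_mk, TT.mk_smul, TT.mk_add]
  exact TT.mk_congr (funext fun l => Lop_NN _ _ _)

theorem bv_G_mul (hρ : ∀ x, Sp (ρ x)) (a b c : TE ρ) : Gm (lhom_L hρ).map (a * b) c =
    a * Gm (lhom_L hρ).map b c + b * Gm (lhom_L hρ).map a c := by
  rw [Gm_eq hρ, Gm_eq hρ, Gm_eq hρ, map_mul (jT ρ), D2T_mul, add_mul, mul_comm _ (jT ρ b),
    mul_assoc, mul_assoc, map_add, map_add, L2T_jT_mul hρ, L2T_jT_mul hρ, map_mul (rT ρ),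
    map_mul (rT ρ), rT_jT, rT_jT, add_comm]

theorem bv_P_N (a : TE ρ) : lhom_P.map (lhom_N.map a) = 0 := by
  induction a using TT.ind
  simp only [bv1_mk]
  refine TT.mk_congr (hh := zero_mem _) (funext fun l => ?_)
  simp only [cm_apply, AlgHom.toLinearMap_apply, PP_apply, NN, aug_der, zero_smul, Pi.zero_apply]

theorem bv_N_P (a : TE ρ) : lhom_N.map (lhom_P.map a) = 0 := by
  induction a using TT.ind
  simp only [bv1_mk]
  refine TT.mk_congr (hh := zero_mem _) (funext fun l => ?_)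
  simp only [cm_apply, AlgHom.toLinearMap_apply, PP_apply, NN, map_smul, der_one, smul_zero,
    Pi.zero_apply]

theorem bv1_lhom_aeval (r : Polynomial ℚ) :
    LHom (saE ρ) (saE ρ) (MonoidHom.id G) (Polynomial.aeval (NN (Hq g)) r) := by
  refine ⟨fun x a => aeval_NN_emap r (ρ x) a, fun a => ?_⟩
  change Polynomial.aeval (NN (Hq g)) r (invo a) = invo (Polynomial.aeval (NN (Hq g)) r a)
  induction r using Polynomial.induction_on generalizing a with
  | C c => simp [Algebra.algebraMap_eq_smul_one]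
  | add p q hp hq => simp only [map_add, LinearMap.add_apply, hp, hq]
  | monomial n c ih =>
    rw [pow_succ, ← mul_assoc, map_mul, Polynomial.aeval_X, Module.End.mul_apply,
      Module.End.mul_apply, ← ih, NN, invo_der]

theorem bv_scal (a : TE ρ) (h : lhom_N.map a = 0) : lhom_P.map a = a := by
  obtain ⟨r, hr⟩ := exists_scal (g := g)
  have key : a - lhom_P.map a = (bv1_lhom_aeval r).map (lhom_N.map a) := by
    clear h
    induction a using TT.ind
    simp only [bv1_mk, TT.mk_sub]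
    exact TT.mk_congr (funext fun l => hr _)
  rw [h, map_zero, sub_eq_zero] at key
  exact key.symm

theorem bv_L_P (hρ : ∀ x, Sp (ρ x)) (a b : TE ρ) :
    (lhom_L hρ).map (lhom_P.map a * b) = lhom_P.map a * (lhom_L hρ).map b := by
  induction a using TT.ind
  induction b using TT.ind
  simp only [TT.mk_mul, bv1_mk]
  refine TT.mk_congr (funext fun l => ?_)
  simp only [cm_apply, cupm_apply, map_sum, LinearMap.mul_apply']
  exact Finset.sum_congr rfl fun i _ => LL_PP_mul _ _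

theorem bv_deg1 (hρ : ∀ x, Sp (ρ x)) (a : TE ρ) (h : lhom_N.map a = a) :
    (lhom_L hρ).map a = 0 := by
  obtain ⟨r, hr⟩ := exists_deg1 (g := g)
  have key : (lhom_L hρ).map a =
      (lhom_L hρ).map ((bv1_lhom_aeval r).map (lhom_N.map a - a)) := by
    clear h
    induction a using TT.ind
    simp only [bv1_mk, TT.mk_sub]
    exact TT.mk_congr (funext fun l => hr _)
  rw [key, h, sub_self, map_zero, map_zero]

theorem bv_N_om (hρ : ∀ x, Sp (ρ x)) :
    lhom_N.map (TT.mk _ (omE_mem hρ)) = (2 : ℚ) • TT.mk _ (omE_mem hρ) := by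
  rw [bv1_mk, TT.mk_smul]
  exact TT.mk_congr (by rw [cm_cst, NN_omE, cst_smul])

theorem bv_L_om (hρ : ∀ x, Sp (ρ x)) :
    (lhom_L hρ).map (TT.mk _ (omE_mem hρ)) = -(g : ℚ) • (1 : TE ρ) := by
  rw [bv1_mk, TT.one_def, TT.mk_smul]
  exact TT.mk_congr (by rw [cm_cst, LL_omE, cst_smul])

theorem bv_G_om (hρ : ∀ x, Sp (ρ x)) (a : TE ρ) :
    Gm (lhom_L hρ).map (TT.mk _ (omE_mem hρ)) a = lhom_N.map a := by
  rw [Gm, bv_L_om hρ, smul_mul_assoc, one_mul]
  induction a using TT.ind with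
  | h f hf =>
    simp only [TT.mk_mul, bv1_mk, TT.mk_sub, TT.mk_smul]
    refine TT.mk_congr (funext fun l => ?_)
    rw [SA.cu, SA.cu, cupm_cst_left _ _ (TT.nil_eq hf),
      cupm_cst_left _ _ (TT.nil_eq (bv1_mem (lhom_L hρ) hf))]
    simp only [cm_apply, Pi.sub_apply, Pi.smul_apply, LinearMap.mul_apply', LL_omE_mul]
    abel

theorem bv_om_pow (hρ : ∀ x, Sp (ρ x)) : (TT.mk _ (omE_mem hρ) : TE ρ) ^ (g + 1) = 0 := by
  obtain ⟨h, e⟩ := bv1_cst_pow (omE_mem hρ) (g + 1)
  rw [e]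
  exact TT.mk_congr (hh := zero_mem _) (by rw [omE_pow, cst_zero])

theorem bv1_lhom_pow (hρ : ∀ x, Sp (ρ x)) (n : ℕ) :
    LHom (saE ρ) (saE ρ) (MonoidHom.id G) (LL g ^ n) := by
  induction n with
  | zero => exact ⟨fun _ _ => rfl, fun _ => rfl⟩
  | succ n ih =>
    refine ⟨fun x a => ?_, fun a => ?_⟩
    · rw [pow_succ, Module.End.mul_apply, Module.End.mul_apply, (lhom_L hρ).eqv x a]
      exact ih.eqv x _
    · rw [pow_succ, Module.End.mul_apply, Module.End.mul_apply, (lhom_L hρ).par a]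
      exact ih.par _

theorem bv1_pow_map (hρ : ∀ x, Sp (ρ x)) (n : ℕ) (a : TE ρ) :
    ((lhom_L hρ).map ^ n) a = (bv1_lhom_pow hρ n).map a := by
  induction n generalizing a with
  | zero =>
    induction a using TT.ind
    rw [bv1_mk]
    rfl
  | succ n ih =>
    rw [pow_succ, Module.End.mul_apply, ih]
    induction a using TT.ind
    simp only [bv1_mk]
    exact TT.mk_congr (funext fun l => by rw [pow_succ]; rfl)

theorem bv_ber (hρ : ∀ x, Sp (ρ x)) (a b : TE ρ) :
    lhom_P.map (((lhom_L hρ).map ^ g) (Gm (lhom_L hρ).map a b)) =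
      -(2 : ℚ) • lhom_P.map (((lhom_L hρ).map ^ g) ((lhom_L hρ).map a * b)) := by
  have h1 : ∀ c : TE ρ, ((lhom_L hρ).map ^ g) ((lhom_L hρ).map c) = 0 := by
    intro c
    induction c using TT.ind
    simp only [bv1_pow_map hρ, bv1_mk]
    exact TT.mk_congr (hh := zero_mem _) (funext fun l => LL_pow_LL _)
  have h2 : ((lhom_L hρ).map ^ g) (a * (lhom_L hρ).map b) =
      ((lhom_L hρ).map ^ g) ((lhom_L hρ).map a * b) := by
    induction a using TT.ind
    induction b using TT.ind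
    simp only [bv1_pow_map hρ, TT.mk_mul, bv1_mk]
    refine TT.mk_congr (funext fun l => ?_)
    simp only [cm_apply, cupm_apply, map_sum, LinearMap.mul_apply']
    exact Finset.sum_congr rfl fun i _ => LL_pow_adj _ _
  simp only [Gm, map_sub, h1, h2, map_zero]
  module

/-- The BV structure. -/
noncomputable def mkBV (hρ : ∀ x, Sp (ρ x)) : BV g (TE ρ) where
  L := (lhom_L hρ).map
  N := lhom_N.map
  P := lhom_P.mapA (map_one (PP _)) (map_mul (PP _))
  om := TT.mk _ (omE_mem hρ)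
  N_mul := bv_N_mul
  L_N := bv_L_N hρ
  G_mul := bv_G_mul hρ
  P_N := bv_P_N
  N_P := bv_N_P
  scal := bv_scal
  L_P := bv_L_P hρ
  deg1 := bv_deg1 hρ
  N_om := bv_N_om hρ
  L_om := bv_L_om hρ
  G_om := bv_G_om hρ
  om_pow := bv_om_pow hρ
  ber := bv_ber hρ

theorem mkBV_hom {ρ' : Representation ℚ G' (Hq g)} (hρ : ∀ x, Sp (ρ x)) (hρ' : ∀ x, Sp (ρ' x))
    (φ : G' →* G) (h : ∀ x, ρ' x = ρ (φ x)) : (mkBV hρ).Hom (mkBV hρ') (pullE φ h) := by
  refine ⟨fun a => ?_, fun a => ?_, fun a => ?_, ?_⟩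
  · induction a using TT.ind
    simp only [mkBV, pullE, LHom.mapA_apply, bv1_mk, (lhom_pull φ h).map_mk]
    exact TT.mk_congr rfl
  · induction a using TT.ind
    simp only [mkBV, pullE, LHom.mapA_apply, bv1_mk, (lhom_pull φ h).map_mk]
    exact TT.mk_congr rfl
  · induction a using TT.ind
    simp only [mkBV, pullE, LHom.mapA_apply, bv1_mk, (lhom_pull φ h).map_mk]
    exact TT.mk_congr rfl
  · simp only [mkBV, pullE, LHom.mapA_apply, (lhom_pull φ h).map_mk]
    exact TT.mk_congr (by rw [pl_cst, cm_id])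

theorem unitE_augE (hρ : ∀ x, Sp (ρ x)) (a : TE ρ) : unitE ρ (augE ρ a) = (mkBV hρ).P a := by
  induction a using TT.ind
  simp only [mkBV, unitE, augE, LHom.mapA_apply, bv1_mk]
  exact TT.mk_congr rfl

theorem N_unitE (hρ : ∀ x, Sp (ρ x)) (a : TQ G) : (mkBV hρ).N (unitE ρ a) = 0 := by
  induction a using TT.ind
  simp only [mkBV, unitE, LHom.mapA_apply, bv1_mk]
  refine TT.mk_congr (hh := zero_mem _) (funext fun l => ?_)
  simp only [cm_apply, Algebra.linearMap_apply, Algebra.algebraMap_eq_smul_one, NN, map_smul,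
    der_one, smul_zero, Pi.zero_apply]

theorem unitE_augE_of_N (hρ : ∀ x, Sp (ρ x)) {a : TE ρ} (ha : (mkBV hρ).N a = 0) :
    unitE ρ (augE ρ a) = a := (unitE_augE hρ a).trans ((mkBV hρ).scal a ha)

theorem dif_io_mem {c : G → Hq g} (hc : Cross ρ c) : dif (io ∘ c) ∈ (saE ρ).Zev := by
  refine (saE ρ).dif_mem (hc.map (φ := io) fun x v => ?_) fun x => invo_io _
  exact (ExteriorAlgebra.map_apply_ι (ρ x) v).symm

/-- The class of a crossed homomorphism with values in homology. -/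
def cls1 {c : G → Hq g} (hc : Cross ρ c) : TE ρ := TT.mk _ (dif_io_mem hc)

theorem N_cls1 (hρ : ∀ x, Sp (ρ x)) {c : G → Hq g} (hc : Cross ρ c) :
    (mkBV hρ).N (cls1 hc) = cls1 hc := by
  simp only [mkBV, cls1, bv1_mk]
  refine TT.mk_congr ?_
  rw [cm_dif]
  congr 1
  funext x
  exact der_io _ _

theorem pullE_cls1 {ρ' : Representation ℚ G' (Hq g)} (φ : G' →* G) (h : ∀ x, ρ' x = ρ (φ x))
    {c : G → Hq g} (hc : Cross ρ c) {c' : G' → Hq g} (hc' : Cross ρ' c')
    (e : ∀ x, c' x = c (φ x)) : pullE φ h (cls1 hc) = cls1 hc' := by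
  simp only [pullE, cls1, LHom.mapA_apply, (lhom_pull φ h).map_mk]
  refine TT.mk_congr ?_
  rw [pl_dif, cm_id]
  congr 1
  funext x
  simp only [Function.comp_apply, e]

theorem cls1_add {c c' c'' : G → Hq g} (hc : Cross ρ c) (hc' : Cross ρ c') (hc'' : Cross ρ c'')
    (e : ∀ x, c'' x = c x + c' x) : cls1 hc'' = cls1 hc + cls1 hc' := by
  simp only [cls1, TT.mk_add]
  refine TT.mk_congr ?_
  rw [← dif_add]
  congr 1
  funext x
  simp only [Function.comp_apply, e, map_add, Pi.add_apply]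

theorem cls1_zero {c : G → Hq g} (hc : Cross ρ c) (e : ∀ x, c x = 0) : cls1 hc = 0 := by
  have h := cls1_add hc hc hc fun x => by rw [e, add_zero]
  exact left_eq_add.1 h

theorem cup_om_mem (hρ : ∀ x, Sp (ρ x)) {c : G → Hq g} (hc : Cross ρ c) :
    cupm (omL g) (dif c) (dif c) ∈ (saQ G).Zev := by
  refine (saQ G).mem_Zev.2 ⟨cupm_mem_Zc (fun x u v => hρ x u v) hc.dif_mem hc.dif_mem, ?_⟩
  have hl : Len (1 + 1 + 1) (cupm (omL g) (dif c) (dif c)) := (len_dif c).cupm (len_dif c) _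
  change sg (cupm (omL g) (dif c) (dif c)) = _
  rw [sg_of_len hl]
  norm_num

/-- The self bracket of a class of degree one is minus the class of the form. -/
theorem Gm_cls1 (hρ : ∀ x, Sp (ρ x)) {c : G → Hq g} (hc : Cross ρ c) :
    Gm (mkBV hρ).L (cls1 hc) (cls1 hc) = -unitE ρ (TT.mk _ (cup_om_mem hρ hc)) := by
  have h0 : (mkBV hρ).L (cls1 hc) = 0 := (mkBV hρ).deg1 _ (N_cls1 hρ hc)
  rw [Gm, h0, zero_mul, mul_zero, sub_zero, sub_zero]
  simp only [mkBV, cls1, unitE, LHom.mapA_apply, TT.mk_mul, bv1_mk, TT.mk_neg]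
  refine TT.mk_congr (funext fun l => ?_)
  rw [← cm_dif]
  simp only [cm_apply, cupm_apply, map_sum, Pi.neg_apply, LinearMap.mul_apply', LL_io_io,
    omL_apply, Algebra.linearMap_apply, Algebra.algebraMap_eq_smul_one, neg_smul,
    Finset.sum_neg_distrib]

end Pool.Agent.FP
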