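import Pool.Agent.FP.TubeC

/-! The bridge between the cochains of the statement and the rings of classes. -/

namespace Pool.Agent.FP

open SemidirectProduct

variable {G E B : Type} [Group G] [Group E] [Group B] {g : ℕ}

theorem inv_iff {f : List G → ℚ} : Inv f ↔ f ∈ Co (triv G ℚ) :=
  Iff.rfl

omit [Group G] in
theorem cob_eq (f : List G → ℚ) : cob f = dd f :=
  rfl

omit [Group G] in
theorem cup_eq (f h : List G → ℚ) : cup f h = SA.cu f h :=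
  rfl

omit [Group G] in
theorem one_eq : (one : List G → ℚ) = cst 1 :=
  rfl

theorem bd_iff {f : List G → ℚ} : Bd f ↔ f ∈ Bc (triv G ℚ) :=
  ⟨fun ⟨h, h1, h2⟩ => ⟨h, h1, h2.symm⟩, fun ⟨h, h1, h2⟩ => ⟨h, h1, h2.symm⟩⟩

theorem isPush_iff (p : E →* B) {η f : List E → ℚ} {y : List B → ℚ} :
    IsPush p η f y ↔ TopW p (triv B ℚ) η f y :=
  ⟨fun ⟨h, h1, h2⟩ => ⟨h, h1, bd_iff.1 h2⟩, fun ⟨h, h1, h2⟩ => ⟨h, h1, bd_iff.2 h2⟩⟩

theorem Coc.mem {n : ℕ} {f : List G → ℚ} (hf : Coc (2 * n) f) : f ∈ (saQ G).Zev := by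
  refine (saQ G).mem_Zev.2 ⟨mem_Zc.2 ⟨hf.1, hf.2.1⟩, ?_⟩
  have h : sg f = (-1 : ℚ) ^ (2 * n + 1 + 1) • f := sg_of_len hf.2.2
  rw [show 2 * n + 1 + 1 = 2 * (n + 1) by ring, pow_mul, neg_one_sq, one_pow, one_smul] at h
  exact h

theorem exists_coc {n : ℕ} {a : TQ G} (ha : a.Deg n) : ∃ f hf, Coc n f ∧ a = TT.mk f hf := by
  obtain ⟨f, hf, hl, rfl⟩ := ha
  have h := mem_Zc.1 ((saQ G).mem_Zev.1 hf).1
  exact ⟨f, hf, ⟨h.1, h.2, hl⟩, rfl⟩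

theorem cpow_mem {f : List G → ℚ} (hf : f ∈ (saQ G).Zev) (n : ℕ) : cpow f n ∈ (saQ G).Zev := by
  induction n with
  | zero => exact (saQ G).cst_mem (saQ G).ρ_one (saQ G).ι_one
  | succ n ih => exact (saQ G).cu_mem hf ih

theorem mk_cpow {f : List G → ℚ} (hf : f ∈ (saQ G).Zev) (n : ℕ) :
    TT.mk (cpow f n) (cpow_mem hf n) = TT.mk f hf ^ n := by
  induction n with
  | zero => rw [pow_zero]; rfl
  | succ n ih => rw [pow_succ', ← ih]; rfl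

theorem pull_mem (φ : E →* B) {f : List B → ℚ} (hf : f ∈ (saQ B).Zev) :
    pull φ f ∈ (saQ E).Zev :=
  (lhomQ φ).mem hf

theorem mk_pull (φ : E →* B) {f : List B → ℚ} (hf : f ∈ (saQ B).Zev) :
    TT.mk (pull φ f) (pull_mem φ hf) = pullQ φ (TT.mk f hf) :=
  rfl

theorem br_up {S : ℕ → (List G → ℚ) → Prop} {S' : ℕ → TQ G → Prop}
    (h1 : ∀ k f, S k f → ∃ hf, S' k (TT.mk f hf)) {k : ℕ} {f : List G → ℚ} (hf : f ∈ Rk S k) :
    ∃ mf, TT.mk f mf ∈ RkR S' k := by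
  induction hf using Submodule.span_induction with
  | mem f hf =>
    suffices h : ∃ mf, MonR S' k (TT.mk f mf) from h.imp fun _ h => Submodule.subset_span h
    induction hf with
    | nil => exact ⟨(saQ G).cst_mem (saQ G).ρ_one (saQ G).ι_one, MonR.one⟩
    | mul hs _ ih =>
      obtain ⟨ms, hs'⟩ := h1 _ _ hs
      obtain ⟨mf, hf'⟩ := ih
      exact ⟨(saQ G).cu_mem ms mf, MonR.mul hs' hf'⟩
  | zero => exact ⟨zero_mem _, zero_mem _⟩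
  | add f h _ _ hf hh =>
    obtain ⟨mf, hf⟩ := hf
    obtain ⟨mh, hh⟩ := hh
    exact ⟨add_mem mf mh, add_mem hf hh⟩
  | smul c f _ hf =>
    obtain ⟨mf, hf⟩ := hf
    exact ⟨Submodule.smul_mem _ c mf, Submodule.smul_mem _ c hf⟩

theorem br_down {S : ℕ → (List G → ℚ) → Prop} {S' : ℕ → TQ G → Prop}
    (h2 : ∀ k a, S' k a → ∃ f hf, S k f ∧ a = TT.mk f hf) {k : ℕ} {a : TQ G}
    (ha : a ∈ RkR S' k) : ∃ f hf, f ∈ Rk S k ∧ a = TT.mk f hf := by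
  induction ha using Submodule.span_induction with
  | mem a ha =>
    suffices h : ∃ f hf, Mon S k f ∧ a = TT.mk f hf by
      obtain ⟨f, hf, h3, h4⟩ := h
      exact ⟨f, hf, Submodule.subset_span h3, h4⟩
    induction ha with
    | one => exact ⟨one, (saQ G).cst_mem (saQ G).ρ_one (saQ G).ι_one, Mon.nil, rfl⟩
    | mul hs _ ih =>
      obtain ⟨s, ms, hs', rfl⟩ := h2 _ _ hs
      obtain ⟨f, mf, hf', rfl⟩ := ih
      exact ⟨cup s f, (saQ G).cu_mem ms mf, Mon.mul hs' hf', rfl⟩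
  | zero => exact ⟨0, zero_mem _, zero_mem _, rfl⟩
  | add a b _ _ ha hb =>
    obtain ⟨f, mf, hf, rfl⟩ := ha
    obtain ⟨h, mh, hh, rfl⟩ := hb
    exact ⟨f + h, add_mem mf mh, add_mem hf hh, rfl⟩
  | smul c a _ ha =>
    obtain ⟨f, mf, hf, rfl⟩ := ha
    exact ⟨c • f, Submodule.smul_mem _ c mf, Submodule.smul_mem _ c hf, rfl⟩

/-- The Gorenstein property passes to classes. Show: `a ∈ RkR S' k` iff `a = mk f` for some
`f ∈ Rk S k` (induction on `Mon`, `MonR` and on spans). -/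
theorem Gor.toR {S : ℕ → (List G → ℚ) → Prop} {S' : ℕ → TQ G → Prop} {n : ℕ} (h : Gor S n)
    (h1 : ∀ k f, S k f → ∃ hf, S' k (TT.mk f hf))
    (h2 : ∀ k a, S' k a → ∃ f hf, S k f ∧ a = TT.mk f hf) : GorR S' n := by
  obtain ⟨-, ⟨s, hs, hs0, hs1⟩, hp⟩ := h
  refine ⟨?_, fun k hk a ha ha0 => ?_⟩
  · obtain ⟨ms, hs'⟩ := br_up h1 hs
    refine ⟨_, hs', fun e => hs0 (bd_iff.2 ((TT.mk_eq_zero (hf := ms)).1 e)), fun a ha => ?_⟩
    obtain ⟨f, hf, hf', rfl⟩ := br_down h2 ha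
    obtain ⟨c, hc⟩ := hs1 f hf'
    refine ⟨c, ?_⟩
    rw [TT.mk_smul, TT.mk_eq_mk]
    exact bd_iff.1 hc
  · obtain ⟨f, hf, hf', rfl⟩ := br_down h2 ha
    rw [TT.mk_eq_zero]
    refine bd_iff.1 (hp k hk f hf' fun y hy => ?_)
    obtain ⟨my, hy'⟩ := br_up h1 hy
    have e := ha0 _ hy'
    rw [TT.mk_mul, TT.mk_eq_zero] at e
    exact bd_iff.2 e

end Pool.Agent.FP
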