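import Pool.Agent.FP.Eul

/-! Continuation. -/

namespace Pool.Agent.FP

open SemidirectProduct

variable {g : ℕ}

theorem br2_pullQ_id {G : Type} [Group G] (a : TQ G) : pullQ (MonoidHom.id G) a = a := by
  induction a using TT.ind with
  | h f hf => exact TT.mk_congr (pl_id f)

theorem br2_IQ_mul {E B : Type} [Group E] [Group B] (X : Ext g E B) (hg : 1 ≤ g) (y : TQ B)
    (a : TQ E) : X.IQ hg (pullQ X.p y * a) = y * X.IQ hg a := X.I_mul hg (lhomQ X.p) y a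

/-- The projection to the outer automorphisms. -/
abbrev br2O (g : ℕ) : Aut g →* Out g := QuotientGroup.mk' _

section
variable (hg : 2 ≤ g)

theorem br2_e_push {e : List (Aut g) → ℚ} {k : List (Out g) → ℚ} (he : e ∈ (saQ _).Zev)
    (hk : k ∈ (saQ _).Zev) :
    IsPush (SemidirectProduct.right : Sd (MonoidHom.id (Aut g)) → Aut g) (th _)
      (cup (th _) (th _)) ((1 / (2 * g) : ℚ) • (pull QuotientGroup.mk k - (4 * g : ℚ) • e)) ↔
    pullQ (br2O g) ((extA hg).kbQ (by omega) 1) - (4 * g : ℚ) • (extA hg).chiQ (by omega) =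
      pullQ (br2O g) (TT.mk k hk) - (4 * g : ℚ) • TT.mk e he := by
  have h0 : (g : ℚ) ≠ 0 := by exact_mod_cast (by omega : g ≠ 0)
  have hy := Submodule.smul_mem _ (1 / (2 * g) : ℚ)
    (sub_mem (pull_mem (br2O g) hk) (Submodule.smul_mem _ (4 * g : ℚ) he))
  have h1 := IQ_thQ_sq hg (MonoidHom.id (Aut g))
  rw [eQ, br2_pullQ_id] at h1
  refine (isPush_iff rightHom).trans (((extS (MonoidHom.id (Aut g))).topW_iff (by omega)
    (th_mem _) ((saQ _).cu_mem (th_mem _) (th_mem _)) hy (IQ_thQ _ _)).trans ?_)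
  rw [← TT.mk_smul _ (sub_mem (pull_mem (br2O g) hk) (Submodule.smul_mem _ (4 * g : ℚ) he)),
    smul_smul, show (2 * g : ℚ) * (1 / (2 * g)) = 1 by field_simp, one_smul]
  exact Eq.congr h1 rfl

theorem br2_k_push {e : List (Aut g) → ℚ} {k : List (Out g) → ℚ} (he : e ∈ (saQ _).Zev)
    (hk : k ∈ (saQ _).Zev) (h : (extA hg).IQ (by omega) (TT.mk e he) = (2 - 2 * g : ℚ) • 1)
    (m : ℕ) : IsPush (QuotientGroup.mk : Aut g → Out g) e (cpow e (m + 1))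
      ((1 / (2 - 2 * g) : ℚ) • k) ↔
    (extA hg).IQ (by omega) (TT.mk e he ^ (m + 1)) = TT.mk k hk := by
  have h0 : (2 - 2 * g : ℚ) ≠ 0 := by
    have : (2 : ℚ) ≤ g := by exact_mod_cast hg
    linarith
  refine (isPush_iff (br2O g)).trans (((extA hg).topW_iff (by omega) he (cpow_mem he _)
    (Submodule.smul_mem _ _ hk) h).trans ?_)
  rw [← TT.mk_smul _ hk, smul_smul, mul_one_div_cancel h0, one_smul, mk_cpow]

theorem br2_IQ_chi :
    (extA hg).IQ (by omega) ((extA hg).chiQ (by omega)) = (2 - 2 * g : ℚ) • 1 := by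
  rw [← (extA hg).kbQ_zero (by omega), ← Ext.IQ_chiQ_pow, zero_add, pow_one]

end

namespace Taut
variable (t : Taut g)

theorem e_mem : t.e ∈ (saQ (Aut g)).Zev := Coc.mem (n := 1) t.e_coc

theorem κ_mem (m : ℕ) : t.κ m ∈ (saQ (Out g)).Zev := (t.κ_coc m).mem

/-- From `e_push`, `topW_iff`, `IQ_thQ`, `IQ_thQ_sq` for `r = id`: `e = χ + p c` with
`4 g c = κ 1 - kb 1`; then `∫ e = 2 - 2 g`, and `κ_push 1` gives `κ 1 = kb 1 + 2 (2 - 2 g) c`, so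
`c = 0`. -/
theorem e_eq (hg : 2 ≤ g) : TT.mk t.e t.e_mem = (extA hg).chiQ (by omega) := by
  have h0 : (2 : ℚ) ≤ g := by exact_mod_cast hg
  have h4 : (4 * g : ℚ) ≠ 0 := by linarith
  obtain ⟨c, hc⟩ : ∃ c, c = (4 * g : ℚ)⁻¹ •
    (TT.mk (t.κ 1) (t.κ_mem 1) - (extA hg).kbQ (by omega) 1) := ⟨_, rfl⟩
  have h1 : TT.mk t.e t.e_mem = (extA hg).chiQ (by omega) + pullQ (br2O g) c := by
    have := (br2_e_push hg t.e_mem (t.κ_mem 1)).1 t.e_push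
    rw [hc, map_smul, map_sub]
    refine smul_right_injective _ h4 ?_
    simp only [smul_add, smul_smul, mul_inv_cancel₀ h4, one_smul]
    linear_combination (norm := module) this
  have h2 : ∀ y a, (extA hg).IQ (by omega) (pullQ (br2O g) y * a) =
      y * (extA hg).IQ (by omega) a := br2_IQ_mul (extA hg) _
  have h3 : ∀ y, (extA hg).IQ (by omega) (pullQ (br2O g) y) = 0 := fun y => by
    rw [← mul_one (pullQ (br2O g) y), h2, (extA hg).I_deg_zero _ _ TT.Deg.one, mul_zero]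
  have h5 := (br2_k_push hg t.e_mem (t.κ_mem 1)
    (by rw [h1, map_add, h3, add_zero, br2_IQ_chi]) 1).1 (t.κ_push 1)
  rw [h1, show ((extA hg).chiQ (by omega) + pullQ (br2O g) c) ^ (1 + 1) =
    (extA hg).chiQ (by omega) ^ (1 + 1) + (2 : ℚ) • (pullQ (br2O g) c * (extA hg).chiQ (by omega)) +
      pullQ (br2O g) (c * c) by rw [map_mul, two_smul]; ring,
    map_add, map_add, map_smul, h2, h3, br2_IQ_chi, Ext.IQ_chiQ_pow, mul_smul_comm, mul_one] at h5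
  have h6 : (4 * g : ℚ) • c = TT.mk (t.κ 1) (t.κ_mem 1) - (extA hg).kbQ (by omega) 1 := by
    rw [hc, smul_smul, mul_inv_cancel₀ h4, one_smul]
  have h7 : (8 * g - 4 : ℚ) • c = 0 := by
    linear_combination (norm := module) h6 - h5
  rw [h1, (smul_eq_zero.1 h7).resolve_left (by linarith), map_zero, add_zero]

theorem κ_eq (hg : 2 ≤ g) (m : ℕ) : TT.mk (t.κ m) (t.κ_mem m) = (extA hg).kbQ (by omega) m := by
  rw [← (br2_k_push hg t.e_mem (t.κ_mem m) (by rw [t.e_eq hg, br2_IQ_chi]) m).1 (t.κ_push m),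
    t.e_eq hg, Ext.IQ_chiQ_pow]

theorem gorR0 (hg : 2 ≤ g) {n : ℕ} (h : Gor (gens0 t) n) :
    GorR (gensR0 ((extA hg).kbQ (by omega))) n := by
  refine h.toR ?_ ?_
  · rintro k _ ⟨h, rfl⟩
    exact ⟨t.κ_mem k, h, t.κ_eq hg k⟩
  · rintro k _ ⟨h, rfl⟩
    exact ⟨_, t.κ_mem k, ⟨h, rfl⟩, (t.κ_eq hg k).symm⟩

theorem gorR2 (hg : 2 ≤ g) {n : ℕ} (h : Gor (gens2 t) n) :
    GorR (gensR2 (pullQ rightHom (eQ hg t.ρ)) (eQ hg (q2 t.ρ)) (DQ hg t.ρ)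
      fun m => pullQ rightHom (kapQ hg t.ρ m)) n := by
  have a1 := pull_mem (t.ρ.comp (rightHom : Sd t.ρ →* _)) t.e_mem
  have a2 := pull_mem (q2 t.ρ) t.e_mem
  have a3 := Submodule.smul_mem _ (1 / 2 : ℚ) (add_mem (add_mem a1 a2) (th_mem t.ρ))
  have a4 := fun k => pull_mem (((br2O g).comp t.ρ).comp (rightHom : Sd t.ρ →* _)) (t.κ_mem k)
  have b1 : TT.mk _ a1 = pullQ rightHom (eQ hg t.ρ) := by
    rw [eQ, ← t.e_eq hg, mk_pull _ t.e_mem]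
    exact (pullQ_pullQ _ _ _ (fun _ => rfl) _).symm
  have b2 : TT.mk _ a2 = eQ hg (q2 t.ρ) := by
    rw [eQ, ← t.e_eq hg, mk_pull _ t.e_mem]
  have b3 : TT.mk _ a3 = DQ hg t.ρ := by
    rw [DQ_eq, ← b1, ← b2]
    rfl
  have b4 : ∀ k, TT.mk _ (a4 k) = pullQ rightHom (kapQ hg t.ρ k) := fun k => by
    rw [kapQ, ← t.κ_eq hg, mk_pull _ (t.κ_mem k)]
    exact (pullQ_pullQ _ _ _ (fun _ => rfl) _).symm
  refine h.toR ?_ ?_
  · rintro k _ (⟨h, rfl | rfl | rfl⟩ | ⟨h, rfl⟩)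
    · exact ⟨a1, Or.inl ⟨h, Or.inl b1⟩⟩
    · exact ⟨a2, Or.inl ⟨h, Or.inr (Or.inl b2)⟩⟩
    · exact ⟨a3, Or.inl ⟨h, Or.inr (Or.inr b3)⟩⟩
    · exact ⟨a4 k, Or.inr ⟨h, b4 k⟩⟩
  · rintro k _ (⟨h, rfl | rfl | rfl⟩ | ⟨h, rfl⟩)
    · exact ⟨_, a1, Or.inl ⟨h, Or.inl rfl⟩, b1.symm⟩
    · exact ⟨_, a2, Or.inl ⟨h, Or.inr (Or.inl rfl)⟩, b2.symm⟩
    · exact ⟨_, a3, Or.inl ⟨h, Or.inr (Or.inr rfl)⟩, b3.symm⟩
    · exact ⟨_, a4 k, Or.inr ⟨h, rfl⟩, (b4 k).symm⟩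

end Taut

/-- Existence: representatives of `chiQ` and `kbQ` (`deg_chiQ`, `deg_kbQ`, `exists_coc`,
`topW_iff`, `exists_rho`). -/
theorem nonempty_taut (hT : TubeStmt) (hg : 2 ≤ g) : Nonempty (Taut g) := by
  obtain ⟨e, e1, e2, e3⟩ := exists_coc ((extA hg).deg_chiQ (by omega))
  choose k k1 k2 k3 using fun m => exists_coc ((extA hg).deg_kbQ (by omega) m)
  obtain ⟨ρ, hρ⟩ := exists_rho g
  obtain ⟨ρ', hρ'⟩ := exists_rho (g + 1)
  obtain ⟨τ⟩ := hT g ρ ρ' hρ hρ'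
  obtain ⟨u1, u2⟩ := eul_both hg hρ τ e1 e2.2.2 e3
  exact ⟨e, k, ρ, e2, k2, (br2_e_push hg e1 (k1 1)).2 (by rw [← e3, ← k3]),
    fun m => (br2_k_push hg e1 (k1 m) (by rw [← e3, br2_IQ_chi]) m).2
      (by rw [← e3, ← k3, Ext.IQ_chiQ_pow]), hρ, u1, u2⟩

/-- The swap `(γ, φ) ↦ (γ⁻¹, P γ * φ)`. -/
theorem exists_swap (hP : PushStmt) {ρ : Gam g →* Aut g} (hρ : IsRho ρ) :
    ∃ σ : Sd ρ →* Sd ρ, (∀ x, (σ x).left = x.left⁻¹) ∧ (∀ x, ρ (σ x).right = q2 ρ x) ∧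
      ∀ x, q2 ρ (σ x) = ρ x.right := by
  obtain ⟨P, h1, h2⟩ := hP g ρ hρ
  refine ⟨MonoidHom.mk' (fun x => ⟨x.left⁻¹, P x.left * x.right⟩) fun x y => ?_, fun _ => rfl,
    fun x => ?_, fun x => ?_⟩
  · ext
    · simp [h1, inn, mul_assoc]
    · simp [h2, mul_assoc]
  · change ρ (P x.left * x.right) = inn x.left * ρ x.right
    rw [map_mul, h1]
  · change innH g x.left⁻¹ * ρ (P x.left * x.right) = ρ x.right
    rw [map_mul, h1, map_inv]
    exact inv_mul_cancel_left _ _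

theorem swap_thQ {ρ : Gam g →* Aut g} {σ : Sd ρ →* Sd ρ} (h : ∀ x, (σ x).left = x.left⁻¹) :
    pullQ σ (thQ ρ) = thQ ρ := by
  rw [thQ, ← mk_pull]
  refine TT.mk_congr (funext fun l => ?_)
  match l with
  | [] | [_] | [_, _] | _ :: _ :: _ :: _ :: _ => rfl
  | [x, y, z] =>
    change om (ab (σ y).left - ab (σ x).left) (ab (σ z).left - ab (σ y).left) =
      om (ab y.left - ab x.left) (ab z.left - ab y.left)
    simp only [h, ab_inv, ← neg_sub', ← omL_apply, map_neg, LinearMap.neg_apply, neg_neg]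

end Pool.Agent.FP
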