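import Pool.Agent.FP.CoDefs

/-! Formal identities between the operations on cochains. -/

namespace Pool.Agent.FP

variable {X Y Z U V W U' V' W' A B : Type} [AddCommGroup U] [Module ℚ U] [AddCommGroup V]
  [Module ℚ V] [AddCommGroup W] [Module ℚ W] [AddCommGroup U'] [Module ℚ U'] [AddCommGroup V']
  [Module ℚ V'] [AddCommGroup W'] [Module ℚ W'] [AddCommGroup A] [Module ℚ A] [AddCommGroup B]
  [Module ℚ B]

@[simp] theorem dd_nil (f : List X → V) : dd f [] = 0 := by
  simp [dd_apply]

theorem dd_cons (f : List X → V) (x : X) (l : List X) :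
    dd f (x :: l) = f l - dd (fun l' => f (x :: l')) l := by
  simp only [dd_apply, List.length_cons, Finset.sum_range_succ', List.eraseIdx_cons_succ,
    List.eraseIdx_cons_zero, pow_succ, mul_neg, mul_one, neg_smul, Finset.sum_neg_distrib,
    pow_zero, one_smul]
  abel

theorem dd_single (f : List X → V) (x : X) : dd f [x] = f [] := by
  rw [dd_cons, dd_nil, sub_zero]

theorem dd_pair (f : List X → V) (x y : X) : dd f [x, y] = f [y] - f [x] := by
  rw [dd_cons, dd_single]

theorem dd_triple (f : List X → V) (x y z : X) :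
    dd f [x, y, z] = f [y, z] - f [x, z] + f [x, y] := by
  rw [dd_cons, dd_pair]
  abel

theorem dd_quad (f : List X → V) (x y z w : X) :
    dd f [x, y, z, w] = f [y, z, w] - f [x, z, w] + f [x, y, w] - f [x, y, z] := by
  rw [dd_cons, dd_triple]
  abel

theorem co1_dd_cons (f : List X → V) (x : X) :
    (fun l => dd f (x :: l)) = f - dd (fun l' => f (x :: l')) :=
  funext fun l => dd_cons f x l

/-- Induct on the list with `dd_cons`, generalising `f`. -/
theorem dd_dd (f : List X → V) : dd (dd f) = 0 := by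
  funext l
  induction l generalizing f with
  | nil => exact dd_nil _
  | cons x l ih =>
    rw [dd_cons, co1_dd_cons, map_sub, Pi.sub_apply, ih]
    simp

/-- The coboundary with a vertex appended at the end. -/
theorem dd_concat (f : List X → V) (y : X) (l : List X) :
    dd f (l ++ [y]) = dd (fun l' => f (l' ++ [y])) l + (-1 : ℚ) ^ l.length • f l := by
  induction l generalizing f with
  | nil => simp [dd_single]
  | cons x l ih =>
    rw [List.cons_append, dd_cons, ih, dd_cons, List.length_cons, pow_succ, mul_neg, mul_one,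
      neg_smul]
    simp only [List.cons_append]
    abel

@[simp] theorem cupm_nil (μ : U →ₗ[ℚ] V →ₗ[ℚ] W) (f : List X → U) (h : List X → V) :
    cupm μ f h [] = 0 := by
  simp [cupm_apply]

theorem cupm_cons (μ : U →ₗ[ℚ] V →ₗ[ℚ] W) (f : List X → U) (h : List X → V) (x : X)
    (l : List X) :
    cupm μ f h (x :: l) = μ (f [x]) (h (x :: l)) + cupm μ (fun l' => f (x :: l')) h l := by
  simp only [cupm_apply, List.length_cons, Finset.sum_range_succ', List.take_succ_cons,
    List.drop_succ_cons, List.drop_zero, List.take_zero]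
  rw [add_comm]

theorem co1_cupm_cons (μ : U →ₗ[ℚ] V →ₗ[ℚ] W) (f : List X → U) (h : List X → V) (x : X) :
    (fun l => cupm μ f h (x :: l)) =
      (fun l => μ (f [x]) (h (x :: l))) + cupm μ (fun l' => f (x :: l')) h :=
  funext fun l => cupm_cons μ f h x l

theorem co1_dd_map (φ : V →ₗ[ℚ] W) (f : List X → V) (l : List X) :
    dd (fun l' => φ (f l')) l = φ (dd f l) := by
  simp [dd_apply]

theorem co1_sg_cons (f : List X → V) (x : X) :
    (fun l => sg f (x :: l)) = -sg (fun l' => f (x :: l')) := by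
  funext l
  simp [sg_apply, pow_succ]

theorem co1_leibniz (μ : U →ₗ[ℚ] V →ₗ[ℚ] W) (f : List X → U) {h : List X → V} (hh : h [] = 0)
    (l : List X) : dd (cupm μ f h) l + μ (f []) (h l) =
      cupm μ (dd f) h l + cupm μ (sg f) (dd h) l := by
  induction l generalizing f with
  | nil => simp [hh]
  | cons x l ih =>
    have e := ih (fun l' => f (x :: l'))
    have e1 : sg f [x] = f [x] := by simp [sg_apply]
    have e2 := co1_dd_map (μ (f [x])) (fun l' => h (x :: l')) l
    rw [dd_cons, co1_cupm_cons, map_add, Pi.add_apply, e2, eq_sub_of_add_eq e, cupm_cons,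
      cupm_cons, co1_dd_cons, co1_sg_cons, dd_single, e1, dd_cons h]
    simp only [map_sub, map_neg, LinearMap.sub_apply, LinearMap.neg_apply, Pi.sub_apply,
      Pi.neg_apply]
    abel

/-- The Leibniz rule. Hint: first prove, for all `f` and `h [] = 0`, by induction on the list with
`dd_cons` and `cupm_cons`, the version with the extra term `μ (f []) (h l)`. -/
theorem dd_cupm (μ : U →ₗ[ℚ] V →ₗ[ℚ] W) {f : List X → U} {h : List X → V} (hf : f [] = 0)
    (hh : h [] = 0) : dd (cupm μ f h) = cupm μ (dd f) h + cupm μ (sg f) (dd h) := by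
  funext l
  have e := co1_leibniz μ f hh l
  rwa [hf, map_zero, LinearMap.zero_apply, add_zero] at e

theorem cupm_assoc {μ₁ : U →ₗ[ℚ] V →ₗ[ℚ] A} {μ₂ : A →ₗ[ℚ] W →ₗ[ℚ] W'} {μ₃ : V →ₗ[ℚ] W →ₗ[ℚ] B}
    {μ₄ : U →ₗ[ℚ] B →ₗ[ℚ] W'} (hμ : ∀ u v w, μ₂ (μ₁ u v) w = μ₄ u (μ₃ v w))
    (f : List X → U) (h : List X → V) (k : List X → W) :
    cupm μ₂ (cupm μ₁ f h) k = cupm μ₄ f (cupm μ₃ h k) := by
  funext l
  induction l generalizing f with
  | nil => simp
  | cons x l ih =>
    have e : cupm μ₂ (fun l' => μ₁ (f [x]) (h (x :: l'))) k l =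
        μ₄ (f [x]) (cupm μ₃ (fun l' => h (x :: l')) k l) := by
      simp [cupm_apply, hμ]
    rw [cupm_cons, co1_cupm_cons, map_add, LinearMap.add_apply, Pi.add_apply, ih, e, cupm_cons,
      cupm_nil, add_zero, hμ, cupm_cons μ₄, cupm_cons μ₃, map_add, add_assoc]

theorem cupm_cst_left (μ : U →ₗ[ℚ] V →ₗ[ℚ] W) (u : U) {h : List X → V} (hh : h [] = 0) :
    cupm μ (cst u) h = cm (μ u) h := by
  funext l
  cases l with
  | nil => simp [hh]
  | cons x l =>
    have e : cupm μ (fun l' => cst u (x :: l')) h l = 0 := by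
      rw [cupm_apply]
      refine Finset.sum_eq_zero fun i hi => ?_
      have h1 : (x :: l.take (i + 1)).length ≠ 1 := by
        have := Finset.mem_range.1 hi
        simp only [List.length_cons, List.length_take]
        omega
      rw [cst, if_neg h1, map_zero, LinearMap.zero_apply]
    rw [cupm_cons, e, add_zero]
    rfl

theorem cupm_cst_right (μ : U →ₗ[ℚ] V →ₗ[ℚ] W) {f : List X → U} (hf : f [] = 0) (v : V) :
    cupm μ f (cst v) = cm (μ.flip v) f := by
  funext l
  rcases List.eq_nil_or_concat l with rfl | ⟨l, y, rfl⟩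
  · simp [hf]
  · rw [cupm_apply, List.length_concat, Finset.sum_range_succ, Finset.sum_eq_zero, zero_add]
    · simp [cst, List.take_of_length_le]
    · intro i hi
      have h1 : ((l.concat y).drop i).length ≠ 1 := by
        have := Finset.mem_range.1 hi
        simp only [List.length_drop, List.length_concat]
        omega
      rw [cst, if_neg h1, map_zero]

/-- The cup product of two cochains of degree one. -/
theorem cupm_triple (μ : U →ₗ[ℚ] V →ₗ[ℚ] W) {f : List X → U} {h : List X → V} (hf : Len 2 f)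
    (hh : Len 2 h) (x y z : X) : cupm μ f h [x, y, z] = μ (f [x, y]) (h [y, z]) := by
  simp [cupm_apply, Finset.sum_range_succ, hf [x] (by simp), hh [z] (by simp)]

theorem cm_cupm (φ : W →ₗ[ℚ] W') (μ : U →ₗ[ℚ] V →ₗ[ℚ] W) (f : List X → U) (h : List X → V) :
    cm φ (cupm μ f h) = cupm (μ.compr₂ φ) f h := by
  funext l
  simp [cupm_apply]

theorem cupm_cm (μ : U' →ₗ[ℚ] V' →ₗ[ℚ] W) (a : U →ₗ[ℚ] U') (b : V →ₗ[ℚ] V') (f : List X → U)
    (h : List X → V) : cupm μ (cm a f) (cm b h) = cupm (μ.compl₁₂ a b) f h := rfl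

theorem cupm_congr {μ : U →ₗ[ℚ] V →ₗ[ℚ] W} {μ' : U' →ₗ[ℚ] V' →ₗ[ℚ] W} {f : List X → U}
    {h : List X → V} {f' : List X → U'} {h' : List X → V'}
    (H : ∀ l l', μ (f l) (h l') = μ' (f' l) (h' l')) : cupm μ f h = cupm μ' f' h' := by
  funext l
  simp only [cupm_apply, H]

theorem cupm_add_bil (μ μ' : U →ₗ[ℚ] V →ₗ[ℚ] W) (f : List X → U) (h : List X → V) :
    cupm (μ + μ') f h = cupm μ f h + cupm μ' f h := by
  funext l
  simp [cupm_apply, Finset.sum_add_distrib]

theorem cupm_smul_bil (c : ℚ) (μ : U →ₗ[ℚ] V →ₗ[ℚ] W) (f : List X → U) (h : List X → V) :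
    cupm (c • μ) f h = c • cupm μ f h := by
  funext l
  simp [cupm_apply, Finset.smul_sum]

end Pool.Agent.FP
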