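import Pool.Agent.FP.Co1

/-! Continuation. -/

namespace Pool.Agent.FP

variable {X Y Z U V W U' V' W' A B : Type} [AddCommGroup U] [Module ℚ U] [AddCommGroup V]
  [Module ℚ V] [AddCommGroup W] [Module ℚ W] [AddCommGroup U'] [Module ℚ U'] [AddCommGroup V']
  [Module ℚ V'] [AddCommGroup W'] [Module ℚ W'] [AddCommGroup A] [Module ℚ A] [AddCommGroup B]
  [Module ℚ B]

theorem co1b_dd {n : ℕ} {f : List X → V} (hf : Len n f) : Len (n + 1) (dd f) := by
  intro l hl
  rw [dd_apply]
  refine Finset.sum_eq_zero fun i hi => ?_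
  have := List.length_eraseIdx_add_one (Finset.mem_range.1 hi)
  rw [hf _ (by omega), smul_zero]

theorem co1b_take {l : List X} {i : ℕ} (hi : i ∈ Finset.range l.length) :
    (l.take (i + 1)).length = i + 1 :=
  List.length_take_of_le (Finset.mem_range.1 hi)

theorem co1b_dif (k : X → V) : Len 2 (dif k) := by
  intro l hl
  rcases l with _ | ⟨x, _ | ⟨y, _ | ⟨z, l⟩⟩⟩
  · rfl
  · rfl
  · exact absurd rfl hl
  · rfl

theorem dd_cst (v : V) : dd (cst v : List X → V) = 0 := by
  funext l
  by_cases hl : l.length = 2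
  · obtain ⟨x, y, rfl⟩ := List.length_eq_two.1 hl
    simp [dd_pair, cst]
  · exact co1b_dd (n := 1) (fun l hl => if_neg hl) l hl

theorem cst_nil (v : V) : (cst v : List X → V) [] = 0 := rfl

theorem cst_zero : (cst (0 : V) : List X → V) = 0 := by
  funext l
  simp [cst]

theorem cst_add (v w : V) : (cst (v + w) : List X → V) = cst v + cst w := by
  funext l
  by_cases hl : l.length = 1 <;> simp [cst, hl]

theorem cst_smul (c : ℚ) (v : V) : (cst (c • v) : List X → V) = c • cst v := by
  funext l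
  by_cases hl : l.length = 1 <;> simp [cst, hl]

theorem cm_cst (φ : V →ₗ[ℚ] W) (v : V) : cm φ (cst v : List X → V) = cst (φ v) := by
  funext l
  by_cases hl : l.length = 1 <;> simp [cst, hl]

theorem pl_cst (p : X → Y) (v : V) : pl p (cst v) = cst v := by
  funext l
  simp [cst]

theorem sg_cst (v : V) : sg (cst v : List X → V) = cst v := by
  funext l
  by_cases hl : l.length = 1 <;> simp [cst, hl, sg_apply]

theorem sg_sg (f : List X → V) : sg (sg f) = f := by
  funext l
  rw [sg_apply, sg_apply, smul_smul, ← mul_pow]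
  simp

theorem dd_sg (f : List X → V) : dd (sg f) = -sg (dd f) := by
  funext l
  rw [Pi.neg_apply, sg_apply, dd_apply, dd_apply, Finset.smul_sum, ← Finset.sum_neg_distrib]
  refine Finset.sum_congr rfl fun i hi => ?_
  rw [sg_apply, List.length_eraseIdx_add_one (Finset.mem_range.1 hi), smul_smul, smul_smul,
    ← neg_smul]
  congr 1
  ring

theorem sg_cupm (μ : U →ₗ[ℚ] V →ₗ[ℚ] W) (f : List X → U) (h : List X → V) :
    sg (cupm μ f h) = cupm μ (sg f) (sg h) := by
  funext l
  rw [sg_apply, cupm_apply, cupm_apply, Finset.smul_sum]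
  refine Finset.sum_congr rfl fun i hi => ?_
  obtain ⟨k, hk⟩ := Nat.exists_eq_add_of_lt (Finset.mem_range.1 hi)
  rw [sg_apply, sg_apply, co1b_take hi, List.length_drop, map_smul, LinearMap.map_smul₂, smul_smul,
    show l.length - i = k + 1 by omega, hk]
  congr 1
  have h2 : ((-1 : ℚ) ^ 2) = 1 := by norm_num
  linear_combination (-(-1 : ℚ) ^ (i + k + 2)) * h2

theorem sg_cm (φ : V →ₗ[ℚ] W) (f : List X → V) : sg (cm φ f) = cm φ (sg f) := by
  funext l
  simp [sg_apply]

theorem sg_pl (p : X → Y) (f : List Y → V) : sg (pl p f) = pl p (sg f) := by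
  funext l
  simp [sg_apply]

theorem sg_of_len {n : ℕ} {f : List X → V} (hf : Len n f) : sg f = (-1 : ℚ) ^ (n + 1) • f := by
  funext l
  by_cases hl : l.length = n
  · rw [sg_apply, hl, Pi.smul_apply]
  · simp [sg_apply, hf l hl]

theorem dd_pl (p : X → Y) (f : List Y → V) : dd (pl p f) = pl p (dd f) := by
  funext l
  simp [dd_apply, List.eraseIdx_map]

theorem dd_cm (φ : V →ₗ[ℚ] W) (f : List X → V) : dd (cm φ f) = cm φ (dd f) := by
  funext l
  simp [dd_apply]

theorem pl_cupm (p : X → Y) (μ : U →ₗ[ℚ] V →ₗ[ℚ] W) (f : List Y → U) (h : List Y → V) :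
    pl p (cupm μ f h) = cupm μ (pl p f) (pl p h) := by
  funext l
  simp [cupm_apply, List.map_take, List.map_drop]

theorem pl_cm (p : X → Y) (φ : V →ₗ[ℚ] W) (f : List Y → V) : pl p (cm φ f) = cm φ (pl p f) :=
  rfl

theorem pl_pl (p : X → Y) (q : Y → Z) (f : List Z → V) : pl p (pl q f) = pl (q ∘ p) f := by
  funext l
  simp

theorem pl_id (f : List X → V) : pl id f = f := by
  funext l
  simp

theorem cm_cm (φ : V →ₗ[ℚ] W) (ψ : U →ₗ[ℚ] V) (f : List X → U) :
    cm φ (cm ψ f) = cm (φ ∘ₗ ψ) f := rfl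

theorem cm_id (f : List X → V) : cm LinearMap.id f = f := rfl

theorem pl_dif (p : X → Y) (k : Y → V) : pl p (dif k) = dif (k ∘ p) := by
  funext l
  rcases l with _ | ⟨x, _ | ⟨y, _ | ⟨z, l⟩⟩⟩ <;> rfl

theorem cm_dif (φ : V →ₗ[ℚ] W) (k : X → V) : cm φ (dif k) = dif (φ ∘ k) := by
  funext l
  rcases l with _ | ⟨x, _ | ⟨y, _ | ⟨z, l⟩⟩⟩ <;> simp [dif]

theorem dd_dif (k : X → V) : dd (dif k) = 0 := by
  funext l
  by_cases hl : l.length = 3
  · obtain ⟨x, y, z, rfl⟩ := List.length_eq_three.1 hl
    simp [dd_triple, dif]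
  · exact co1b_dd (co1b_dif k) l hl

theorem len_dif (k : X → V) : Len 2 (dif k) := co1b_dif k

theorem dif_add (k k' : X → V) : dif (k + k') = dif k + dif k' := by
  funext l
  rcases l with _ | ⟨x, _ | ⟨y, _ | ⟨z, l⟩⟩⟩ <;> simp [dif]
  abel

theorem len_cst (v : V) : Len 1 (cst v : List X → V) := fun _ hl => if_neg hl

theorem len_comp (n : ℕ) (f : List X → V) : Len n (comp n f) := fun _ hl => if_neg hl

theorem Len.comp_eq {n : ℕ} {f : List X → V} (hf : Len n f) : comp n f = f := by
  funext l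
  by_cases hl : l.length = n
  · exact if_pos hl
  · rw [hf l hl]
    exact if_neg hl

theorem Len.comp_ne {n m : ℕ} {f : List X → V} (hf : Len n f) (h : m ≠ n) : comp m f = 0 := by
  funext l
  by_cases hl : l.length = m
  · exact (if_pos hl).trans (hf l (hl ▸ h))
  · exact if_neg hl

theorem Len.zero (n : ℕ) : Len n (0 : List X → V) := fun _ _ => rfl

theorem Len.add {n : ℕ} {f h : List X → V} (hf : Len n f) (hh : Len n h) : Len n (f + h) :=
  fun l hl => by simp [hf l hl, hh l hl]

theorem Len.sub {n : ℕ} {f h : List X → V} (hf : Len n f) (hh : Len n h) : Len n (f - h) :=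
  fun l hl => by simp [hf l hl, hh l hl]

theorem Len.smul {n : ℕ} {f : List X → V} (hf : Len n f) (c : ℚ) : Len n (c • f) := fun l hl => by
  simp [hf l hl]

theorem Len.dd {n : ℕ} {f : List X → V} (hf : Len n f) : Len (n + 1) (dd f) := co1b_dd hf

theorem Len.pl {n : ℕ} {f : List Y → V} (hf : Len n f) (p : X → Y) : Len n (pl p f) := fun l hl =>
  hf _ (by rwa [List.length_map])

theorem Len.cm {n : ℕ} {f : List X → V} (hf : Len n f) (φ : V →ₗ[ℚ] W) : Len n (cm φ f) :=
  fun l hl => by simp [hf l hl]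

theorem Len.sg {n : ℕ} {f : List X → V} (hf : Len n f) : Len n (sg f) := fun l hl => by
  simp [sg_apply, hf l hl]

theorem Len.cupm {a b : ℕ} {f : List X → U} {h : List X → V} (hf : Len (a + 1) f)
    (hh : Len (b + 1) h) (μ : U →ₗ[ℚ] V →ₗ[ℚ] W) : Len (a + b + 1) (cupm μ f h) := by
  intro l hl
  rw [cupm_apply]
  refine Finset.sum_eq_zero fun i hi => ?_
  have := Finset.mem_range.1 hi
  by_cases hia : i = a
  · rw [hh _ (by rw [List.length_drop]; omega), map_zero]
  · rw [hf _ (by rw [co1b_take hi]; omega), LinearMap.map_zero₂]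

theorem dd_comp (n : ℕ) (f : List X → V) : dd (comp n f) = comp (n + 1) (dd f) := by
  funext l
  by_cases hl : l.length = n + 1
  · rw [comp_apply, if_pos hl, dd_apply, dd_apply]
    refine Finset.sum_congr rfl fun i hi => ?_
    have := List.length_eraseIdx_add_one (Finset.mem_range.1 hi)
    rw [comp_apply, if_pos (by omega)]
  · rw [comp_apply, if_neg hl]
    exact co1b_dd (len_comp n f) l hl

theorem comp_pl (n : ℕ) (p : X → Y) (f : List Y → V) : comp n (pl p f) = pl p (comp n f) := by
  funext l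
  simp [comp_apply]

theorem comp_cm (n : ℕ) (φ : V →ₗ[ℚ] W) (f : List X → V) :
    comp n (cm φ f) = cm φ (comp n f) := by
  funext l
  by_cases hl : l.length = n <;> simp [comp_apply, hl]

theorem comp_sg (n : ℕ) (f : List X → V) : comp n (sg f) = sg (comp n f) := by
  funext l
  by_cases hl : l.length = n <;> simp [comp_apply, sg_apply, hl]

/-- Components of a cup product with a homogeneous left factor. -/
theorem comp_cupm {a : ℕ} {f : List X → U} (hf : Len (a + 1) f) (μ : U →ₗ[ℚ] V →ₗ[ℚ] W)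
    (h : List X → V) (n : ℕ) : comp (a + n) (cupm μ f h) = cupm μ f (comp n h) := by
  funext l
  rw [comp_apply, cupm_apply, cupm_apply, ← Finset.sum_const_zero (s := Finset.range l.length),
    ← Finset.sum_ite_irrel]
  refine Finset.sum_congr rfl fun i hi => ?_
  have := Finset.mem_range.1 hi
  by_cases hia : i = a
  · rw [comp_apply, List.length_drop]
    by_cases hl : l.length = a + n
    · rw [if_pos hl, if_pos (by omega)]
    · rw [if_neg hl, if_neg (by omega), map_zero]
  · rw [hf _ (by rw [co1b_take hi]; omega), LinearMap.map_zero₂, LinearMap.map_zero₂, ite_self]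

theorem comp_cupm_lt {a n : ℕ} {f : List X → U} (hf : Len (a + 1) f) (μ : U →ₗ[ℚ] V →ₗ[ℚ] W)
    (h : List X → V) (hn : n ≤ a) : comp n (cupm μ f h) = 0 := by
  funext l
  by_cases hl : l.length = n
  · rw [comp_apply, if_pos hl, cupm_apply, Pi.zero_apply]
    refine Finset.sum_eq_zero fun i hi => ?_
    have := Finset.mem_range.1 hi
    rw [hf _ (by rw [co1b_take hi]; omega), LinearMap.map_zero₂]
  · exact if_neg hl

/-- A cocycle of degree zero is constant. -/
theorem eq_cst_of_len_one {f : List X → V} (hf : Len 1 f) (hd : dd f = 0) (x : X) :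
    f = cst (f [x]) := by
  funext l
  by_cases hl : l.length = 1
  · obtain ⟨y, rfl⟩ := List.length_eq_one_iff.1 hl
    have h := congrFun hd [x, y]
    rw [dd_pair] at h
    exact sub_eq_zero.1 h
  · rw [hf l hl]
    exact (if_neg hl).symm

end Pool.Agent.FP
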