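import Pool.Agent.FP.Co1b

/-! Closure properties of cochains, cocycles, coboundaries and of the filtration. -/

namespace Pool.Agent.FP

variable {G G' U V W : Type} [AddCommGroup U] [Module ℚ U] [AddCommGroup V] [Module ℚ V]
  [AddCommGroup W] [Module ℚ W] [Group G] [Group G']
  {ρU : Representation ℚ G U} {ρ ρV : Representation ℚ G V} {ρW : Representation ℚ G W}

theorem mem_Zc {f : List G → V} : f ∈ Zc ρ ↔ f ∈ Co ρ ∧ dd f = 0 := Iff.rfl

theorem mem_Bc {f : List G → V} : f ∈ Bc ρ ↔ ∃ h ∈ Co ρ, dd h = f := Iff.rfl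

theorem triv_comp (φ : G' →* G) : (triv G V).comp φ = triv G' V := rfl

theorem Eqv.comp {φ : V →ₗ[ℚ] W} (h : Eqv ρV ρW φ) (p : G' →* G) :
    Eqv (ρV.comp p) (ρW.comp p) φ := fun g v => h (p g) v

theorem Eqv₂.comp {μ : U →ₗ[ℚ] V →ₗ[ℚ] W} (h : Eqv₂ ρU ρV ρW μ) (p : G' →* G) :
    Eqv₂ (ρU.comp p) (ρV.comp p) (ρW.comp p) μ := fun g u v => h (p g) u v

theorem eqv₂_lsmul (ρ : Representation ℚ G V) : Eqv₂ (triv G ℚ) ρ ρ (LinearMap.lsmul ℚ V) := fun g u v => by simp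

theorem eqv₂_evB (ρU : Representation ℚ G U) (ρ : Representation ℚ G V) :
    Eqv₂ ρU (ρU.linHom ρ) ρ (evB U V) := fun g u T => by
  simp [Representation.linHom_apply]

theorem dd_mem_Co {f : List G → V} (hf : f ∈ Co ρ) : dd f ∈ Co ρ := by
  refine ⟨dd_nil f, fun g l => ?_⟩
  simp only [dd_apply, List.length_map, map_sum, map_smul, List.eraseIdx_map, hf.2]

theorem dd_mem_Bc {f : List G → V} (hf : f ∈ Co ρ) : dd f ∈ Bc ρ := ⟨f, hf, rfl⟩

theorem Bc_le_Zc : Bc ρ ≤ Zc ρ := by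
  rintro _ ⟨h, hh, rfl⟩
  exact mem_Zc.2 ⟨dd_mem_Co hh, dd_dd h⟩

theorem cupm_mem_Co {μ : U →ₗ[ℚ] V →ₗ[ℚ] W} (hμ : Eqv₂ ρU ρV ρW μ) {f : List G → U}
    {h : List G → V} (hf : f ∈ Co ρU) (hh : h ∈ Co ρV) : cupm μ f h ∈ Co ρW := by
  refine ⟨cupm_nil μ f h, fun g l => ?_⟩
  simp only [cupm_apply, List.length_map, map_sum, ← List.map_take, ← List.map_drop, hf.2, hh.2,
    hμ g]

theorem sg_mem_Co {f : List G → V} (hf : f ∈ Co ρ) : sg f ∈ Co ρ := by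
  refine ⟨by rw [sg_apply, hf.1, smul_zero], fun g l => ?_⟩
  simp only [sg_apply, List.length_map, map_smul, hf.2]

theorem sg_mem_Zc {f : List G → V} (hf : f ∈ Zc ρ) : sg f ∈ Zc ρ :=
  mem_Zc.2 ⟨sg_mem_Co (mem_Zc.1 hf).1, by rw [dd_sg, (mem_Zc.1 hf).2, map_zero, neg_zero]⟩

theorem sg_mem_Bc {f : List G → V} (hf : f ∈ Bc ρ) : sg f ∈ Bc ρ := by
  obtain ⟨h, hh, rfl⟩ := mem_Bc.1 hf
  exact mem_Bc.2 ⟨-sg h, neg_mem (sg_mem_Co hh), by rw [map_neg, dd_sg, neg_neg]⟩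

theorem cupm_mem_Zc {μ : U →ₗ[ℚ] V →ₗ[ℚ] W} (hμ : Eqv₂ ρU ρV ρW μ) {f : List G → U}
    {h : List G → V} (hf : f ∈ Zc ρU) (hh : h ∈ Zc ρV) : cupm μ f h ∈ Zc ρW := by
  obtain ⟨f1, f2⟩ := mem_Zc.1 hf
  obtain ⟨h1, h2⟩ := mem_Zc.1 hh
  refine mem_Zc.2 ⟨cupm_mem_Co hμ f1 h1, ?_⟩
  rw [dd_cupm μ f1.1 h1.1, f2, h2]
  simp

theorem cupm_mem_Bc_left {μ : U →ₗ[ℚ] V →ₗ[ℚ] W} (hμ : Eqv₂ ρU ρV ρW μ) {f : List G → U}
    {h : List G → V} (hf : f ∈ Bc ρU) (hh : h ∈ Zc ρV) : cupm μ f h ∈ Bc ρW := by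
  obtain ⟨k, hk, rfl⟩ := mem_Bc.1 hf
  obtain ⟨h1, h2⟩ := mem_Zc.1 hh
  refine mem_Bc.2 ⟨cupm μ k h, cupm_mem_Co hμ hk h1, ?_⟩
  rw [dd_cupm μ hk.1 h1.1, h2]
  simp

theorem cupm_mem_Bc_right {μ : U →ₗ[ℚ] V →ₗ[ℚ] W} (hμ : Eqv₂ ρU ρV ρW μ) {f : List G → U}
    {h : List G → V} (hf : f ∈ Zc ρU) (hh : h ∈ Bc ρV) : cupm μ f h ∈ Bc ρW := by
  obtain ⟨k, hk, rfl⟩ := mem_Bc.1 hh
  obtain ⟨f1, f2⟩ := mem_Zc.1 (sg_mem_Zc hf)
  refine mem_Bc.2 ⟨cupm μ (sg f) k, cupm_mem_Co hμ f1 hk, ?_⟩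
  rw [dd_cupm μ f1.1 hk.1, f2, sg_sg]
  simp

/-- The cup product respects cohomology classes. -/
theorem cupm_sub_mem_Bc {μ : U →ₗ[ℚ] V →ₗ[ℚ] W} (hμ : Eqv₂ ρU ρV ρW μ) {f f' : List G → U}
    {h h' : List G → V} (hf : f ∈ Zc ρU) (hh' : h' ∈ Zc ρV) (e1 : f - f' ∈ Bc ρU)
    (e2 : h - h' ∈ Bc ρV) : cupm μ f h - cupm μ f' h' ∈ Bc ρW := by
  have e : cupm μ f h - cupm μ f' h' = cupm μ f (h - h') + cupm μ (f - f') h' := by
    simp only [map_sub, LinearMap.sub_apply]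
    abel
  rw [e]
  exact add_mem (cupm_mem_Bc_right hμ hf e2) (cupm_mem_Bc_left hμ e1 hh')

theorem pl_mem_Co (p : G' →* G) {f : List G → V} (hf : f ∈ Co ρ) : pl p f ∈ Co (ρ.comp p) := by
  refine ⟨hf.1, fun g l => ?_⟩
  have e : (l.map (g * ·)).map p = (l.map p).map (p g * ·) := by
    simp [List.map_map, Function.comp_def]
  rw [pl_apply, pl_apply, e, hf.2]
  rfl

theorem pl_mem_Zc (p : G' →* G) {f : List G → V} (hf : f ∈ Zc ρ) : pl p f ∈ Zc (ρ.comp p) :=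
  mem_Zc.2 ⟨pl_mem_Co p (mem_Zc.1 hf).1, by rw [dd_pl, (mem_Zc.1 hf).2, map_zero]⟩

theorem pl_mem_Bc (p : G' →* G) {f : List G → V} (hf : f ∈ Bc ρ) : pl p f ∈ Bc (ρ.comp p) := by
  obtain ⟨h, hh, rfl⟩ := mem_Bc.1 hf
  exact mem_Bc.2 ⟨pl p h, pl_mem_Co p hh, dd_pl p h⟩

theorem cm_mem_Co {φ : V →ₗ[ℚ] W} (hφ : Eqv ρV ρW φ) {f : List G → V} (hf : f ∈ Co ρV) :
    cm φ f ∈ Co ρW := by
  refine ⟨by rw [cm_apply, hf.1, map_zero], fun g l => ?_⟩
  rw [cm_apply, cm_apply, hf.2, hφ g]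

theorem cm_mem_Zc {φ : V →ₗ[ℚ] W} (hφ : Eqv ρV ρW φ) {f : List G → V} (hf : f ∈ Zc ρV) :
    cm φ f ∈ Zc ρW :=
  mem_Zc.2 ⟨cm_mem_Co hφ (mem_Zc.1 hf).1, by rw [dd_cm, (mem_Zc.1 hf).2, map_zero]⟩

theorem cm_mem_Bc {φ : V →ₗ[ℚ] W} (hφ : Eqv ρV ρW φ) {f : List G → V} (hf : f ∈ Bc ρV) :
    cm φ f ∈ Bc ρW := by
  obtain ⟨h, hh, rfl⟩ := mem_Bc.1 hf
  exact mem_Bc.2 ⟨cm φ h, cm_mem_Co hφ hh, dd_cm φ h⟩

theorem cst_mem_Zc {v : V} (hv : ∀ g, ρ g v = v) : (cst v : List G → V) ∈ Zc ρ := by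
  refine mem_Zc.2 ⟨⟨cst_nil v, fun g l => ?_⟩, dd_cst v⟩
  simp only [cst, List.length_map]
  split_ifs
  · exact (hv g).symm
  · exact (map_zero _).symm

theorem comp_mem_Co (n : ℕ) {f : List G → V} (hf : f ∈ Co ρ) : comp n f ∈ Co ρ := by
  refine ⟨by rw [comp_apply, hf.1, ite_self], fun g l => ?_⟩
  simp only [comp_apply, List.length_map]
  split_ifs
  · exact hf.2 g l
  · exact (map_zero _).symm

theorem comp_mem_Zc (n : ℕ) {f : List G → V} (hf : f ∈ Zc ρ) : comp n f ∈ Zc ρ := by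
  obtain ⟨f1, f2⟩ := mem_Zc.1 hf
  exact mem_Zc.2 ⟨comp_mem_Co n f1, by rw [dd_comp, f2, map_zero]⟩

theorem comp_mem_Bc (n : ℕ) {f : List G → V} (hf : f ∈ Bc ρ) : comp n f ∈ Bc ρ := by
  obtain ⟨h, hh, rfl⟩ := mem_Bc.1 hf
  cases n with
  | zero =>
    have e : comp 0 (dd h) = 0 := by
      funext l
      rw [comp_apply]
      split_ifs with hl
      · rw [List.length_eq_zero_iff.1 hl]
        exact dd_nil h
      · rfl
    rw [e]
    exact zero_mem _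
  | succ n => exact mem_Bc.2 ⟨comp n h, comp_mem_Co n hh, dd_comp n h⟩

/-- A homogeneous coboundary has a homogeneous primitive. -/
theorem exists_len_of_mem_Bc {n : ℕ} {f : List G → V} (hf : f ∈ Bc ρ) (hl : Len (n + 1) f) :
    ∃ h ∈ Co ρ, Len n h ∧ dd h = f := by
  obtain ⟨h, hh, rfl⟩ := mem_Bc.1 hf
  exact ⟨comp n h, comp_mem_Co n hh, len_comp n h, by rw [dd_comp, hl.comp_eq]⟩

/-- A coboundary vanishes on lists of length one. -/
theorem single_eq_zero_of_mem_Bc {f : List G → V} (hf : f ∈ Bc ρ) (x : G) : f [x] = 0 := by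
  obtain ⟨h, hh, rfl⟩ := mem_Bc.1 hf
  rw [dd_single, hh.1]

/-- Choose homogeneous primitives and glue them: `h l := H (l.length + 1) l`. -/
theorem mem_Bc_of_comp {f : List G → V} (hf : ∀ n, comp n f ∈ Bc ρ) : f ∈ Bc ρ := by
  choose H hH hd using fun n => mem_Bc.1 (hf n)
  refine mem_Bc.2 ⟨fun l => H (l.length + 1) l, ⟨(hH _).1, fun g l => ?_⟩, funext fun l => ?_⟩
  · simp only [List.length_map]
    exact (hH _).2 g l
  · have e : f l = dd (H l.length) l := by rw [hd, comp_apply, if_pos rfl]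
    rw [e, dd_apply, dd_apply]
    refine Finset.sum_congr rfl fun i hi => ?_
    rw [List.length_eraseIdx_add_one (Finset.mem_range.1 hi)]

theorem of1_mem_Co (ρ : Representation ℚ G V) (F : G → V) : of1 ρ F ∈ Co ρ := by
  refine ⟨rfl, fun g l => ?_⟩
  match l with
  | [] => simp [of1]
  | [_] => simp [of1]
  | [x, y] => simp [of1, mul_assoc]
  | _ :: _ :: _ :: _ => simp [of1]

theorem len_of1 (ρ : Representation ℚ G V) (F : G → V) : Len 2 (of1 ρ F) := by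
  intro l hl
  match l with
  | [] => rfl
  | [_] => rfl
  | [x, y] => exact absurd rfl hl
  | _ :: _ :: _ :: _ => rfl

theorem dd_of1 (ρ : Representation ℚ G V) (F : G → V) (x y z : G) : dd (of1 ρ F) [x, y, z] =
    ρ x (ρ (x⁻¹ * y) (F (y⁻¹ * z)) - F (x⁻¹ * z) + F (x⁻¹ * y)) := by
  rw [dd_triple]
  simp only [of1, map_add, map_sub]
  rw [← Module.End.mul_apply, ← map_mul, mul_inv_cancel_left]

theorem Cross.one {c : G → V} (hc : Cross ρ c) : c 1 = 0 := by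
  have h := hc 1 1
  simpa using h

theorem Cross.inv {c : G → V} (hc : Cross ρ c) (x : G) : c x⁻¹ = -ρ x⁻¹ (c x) := by
  have h := hc x⁻¹ x
  rw [inv_mul_cancel, hc.one] at h
  exact eq_neg_of_add_eq_zero_left h.symm

theorem Cross.of1_eq {c : G → V} (hc : Cross ρ c) : of1 ρ c = dif c := by
  funext l
  match l with
  | [] => rfl
  | [_] => rfl
  | [x, y] =>
    have h := hc x (x⁻¹ * y)
    rw [mul_inv_cancel_left] at h
    simp only [of1, dif]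
    rw [h, add_sub_cancel_left]
  | _ :: _ :: _ :: _ => rfl

theorem Cross.dif_mem {c : G → V} (hc : Cross ρ c) : dif c ∈ Zc ρ :=
  mem_Zc.2 ⟨hc.of1_eq ▸ of1_mem_Co ρ c, dd_dif c⟩

theorem Cross.comp {c : G → V} (hc : Cross ρ c) (p : G' →* G) : Cross (ρ.comp p) (c ∘ p) := fun x y => by
  simp only [Function.comp_apply, map_mul p]
  exact hc (p x) (p y)

theorem Cross.map {c : G → V} (hc : Cross ρV c) {φ : V →ₗ[ℚ] W} (hφ : Eqv ρV ρW φ) :
    Cross ρW (φ ∘ c) := fun x y => by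
  simp only [Function.comp_apply]
  rw [hc x y, map_add, hφ x]

/-- A cocycle of degree one is a crossed homomorphism. -/
theorem cross_of_mem_Zc {f : List G → V} (hf : f ∈ Zc ρ) (hl : Len 2 f) :
    Cross ρ (fun g => f [1, g]) ∧ f = dif fun g => f [1, g] := by
  obtain ⟨f1, f2⟩ := mem_Zc.1 hf
  have key : ∀ x y : G, f [x, y] = f [1, y] - f [1, x] := fun x y => by
    have h := dd_triple f 1 x y
    rw [f2] at h
    have h' : f [x, y] - f [1, y] + f [1, x] = 0 := h.symm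
    rw [← sub_eq_zero, ← h']
    abel
  refine ⟨fun x y => ?_, funext fun l => ?_⟩
  · have h := f1.2 x [1, y]
    simp only [List.map_cons, List.map_nil, mul_one] at h
    simp only
    rw [← h, key x (x * y)]
    abel
  · match l with
    | [] => exact f1.1
    | [_] => exact hl _ (by simp)
    | [x, y] => exact key x y
    | _ :: _ :: _ :: _ => exact hl _ (by simp)

/-- Principal crossed homomorphisms are coboundaries. -/
theorem dif_principal_mem_Bc (ρ : Representation ℚ G V) (v : V) :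
    dif (fun g => ρ g v - v) ∈ Bc ρ := by
  let h : List G → V := fun l => match l with
    | [x] => ρ x v
    | _ => 0
  have hl : Len 1 h := fun l hl => by
    match l with
    | [] => rfl
    | [_] => exact absurd rfl hl
    | _ :: _ :: _ => rfl
  refine mem_Bc.2 ⟨h, ⟨rfl, fun g l => ?_⟩, funext fun l => ?_⟩
  · match l with
    | [] => simp [h]
    | [_] => simp [h]
    | _ :: _ :: _ => simp [h]
  · match l with
    | [] => exact hl.dd _ (by simp)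
    | [_] => exact hl.dd _ (by simp)
    | [x, y] =>
      rw [dd_pair]
      simp [h, dif]
    | _ :: _ :: _ :: _ => exact hl.dd _ (by simp)

/-- Two equivariant cochains of degree two that agree on triples starting at `1` are equal. -/
theorem ext_len_three {f h : List G → V} (hf : f ∈ Co ρ) (hh : h ∈ Co ρ) (lf : Len 3 f)
    (lh : Len 3 h) (H : ∀ x y, f [1, x, x * y] = h [1, x, x * y]) : f = h := by
  funext l
  match l with
  | [] => rw [hf.1, hh.1]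
  | [_] => rw [lf _ (by simp), lh _ (by simp)]
  | [_, _] => rw [lf _ (by simp), lh _ (by simp)]
  | [a, b, c] =>
    have e : [a, b, c] = [1, a⁻¹ * b, a⁻¹ * b * (b⁻¹ * c)].map (a * ·) := by simp [mul_assoc]
    rw [e, hf.2, hh.2, H]
  | _ :: _ :: _ :: _ :: _ => rw [lf _ (by simp), lh _ (by simp)]

end Pool.Agent.FP
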