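import Pool.Agent.FP.Co2

/-! Continuation. -/

namespace Pool.Agent.FP

variable {G G' U V W : Type} [AddCommGroup U] [Module ℚ U] [AddCommGroup V] [Module ℚ V]
  [AddCommGroup W] [Module ℚ W] [Group G] [Group G']
  {ρU : Representation ℚ G U} {ρ ρV : Representation ℚ G V} {ρW : Representation ℚ G W}

section Fil
variable {p : G' →* G}

theorem co2b_len {l l' : List G'} (e : l.map p = l'.map p) : l.length = l'.length := by
  simpa using congrArg List.length e

theorem co2b_fun {E B : Type} [Group E] [Group B] {q : E →* B} {φE : E →* G'} {φB : B →* G}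
    (hc : ∀ x, p (φE x) = φB (q x)) : (p : G' → G) ∘ φE = φB ∘ q := funext hc

theorem co2b_rep {E B : Type} [Group E] [Group B] {q : E →* B} {φE : E →* G'} {φB : B →* G}
    (ρ : Representation ℚ G V) (hc : ∀ x, p (φE x) = φB (q x)) :
    (ρ.comp p).comp φE = (ρ.comp φB).comp q :=
  MonoidHom.ext fun x => congrArg ρ (hc x)

theorem pl_mem_FilV {f : List G → V} (hf : f ∈ Co ρ) : pl p f ∈ FilV p ρ :=
  ⟨pl_mem_Co p hf, fun x y l l' e => by simp only [pl_apply, List.map_cons, e]⟩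

theorem mem_FilV_of_len {n : ℕ} (hn : n ≤ 2) {f : List G' → V} (hf : f ∈ Co (ρ.comp p))
    (hl : Len n f) : f ∈ FilV p ρ := by
  refine ⟨hf, fun x y l l' e => ?_⟩
  have h1 := co2b_len e
  by_cases h : (x :: y :: l).length = n
  · simp only [List.length_cons] at h
    have h2 : l = [] := List.length_eq_zero_iff.1 (by omega)
    have h3 : l' = [] := List.length_eq_zero_iff.1 (by omega)
    rw [h2, h3]
  · rw [hl _ h, hl _ (by simpa only [List.length_cons, ← h1] using h)]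

theorem cupm_pl_mem_FilV {μ : U →ₗ[ℚ] V →ₗ[ℚ] W} (hμ : Eqv₂ ρU ρV ρW μ) {f : List G' → U}
    {h : List G → V} (hf : f ∈ FilV p ρU) (hh : h ∈ Co ρV) : cupm μ f (pl p h) ∈ FilV p ρW := by
  refine ⟨cupm_mem_Co (hμ.comp p) hf.1 (pl_mem_Co p hh), fun x y l l' e => ?_⟩
  have h1 := co2b_len e
  rw [cupm_apply, cupm_apply, List.length_cons, List.length_cons, List.length_cons,
    List.length_cons, h1]
  refine Finset.sum_congr rfl fun i _ => ?_
  have h2 : f ((x :: y :: l).take (i + 1)) = f ((x :: y :: l').take (i + 1)) := by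
    cases i with
    | zero => rfl
    | succ j =>
      rw [List.take_succ_cons, List.take_succ_cons, List.take_succ_cons, List.take_succ_cons]
      exact hf.2 x y _ _ (by rw [List.map_take, List.map_take, e])
  rw [h2, pl_apply, pl_apply, List.map_drop, List.map_drop]
  simp only [List.map_cons, e]

theorem cm_mem_FilV {φ : V →ₗ[ℚ] W} (hφ : Eqv ρV ρW φ) {f : List G' → V}
    (hf : f ∈ FilV p ρV) : cm φ f ∈ FilV p ρW :=
  ⟨cm_mem_Co (hφ.comp p) hf.1, fun x y l l' e => by rw [cm_apply, cm_apply, hf.2 x y l l' e]⟩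

theorem sg_mem_FilV {f : List G' → V} (hf : f ∈ FilV p ρ) : sg f ∈ FilV p ρ :=
  ⟨sg_mem_Co hf.1, fun x y l l' e => by
    simp only [sg_apply, List.length_cons, hf.2 x y l l' e, co2b_len e]⟩

theorem comp_mem_FilV (n : ℕ) {f : List G' → V} (hf : f ∈ FilV p ρ) : comp n f ∈ FilV p ρ :=
  ⟨comp_mem_Co n hf.1, fun x y l l' e => by
    simp only [comp_apply, List.length_cons, hf.2 x y l l' e, co2b_len e]⟩

/-- Base change. -/
theorem pl_mem_FilV_of_comm {E B : Type} [Group E] [Group B] {q : E →* B} (φE : E →* G')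
    (φB : B →* G) (hc : ∀ x, p (φE x) = φB (q x)) {f : List G' → V} (hf : f ∈ FilV p ρ) :
    pl φE f ∈ FilV q (ρ.comp φB) := by
  refine ⟨co2b_rep ρ hc ▸ pl_mem_Co φE hf.1, fun x y l l' e => ?_⟩
  simp only [pl_apply, List.map_cons]
  refine hf.2 _ _ _ _ ?_
  rw [List.map_map, List.map_map, co2b_fun hc, ← List.map_map, ← List.map_map, e]

variable {η : List G' → ℚ}

theorem TopW.add {f f' : List G' → V} {y y' : List G → V} (h : TopW p ρ η f y)
    (h' : TopW p ρ η f' y') : TopW p ρ η (f + f') (y + y') := by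
  obtain ⟨k, hk, hb⟩ := h
  obtain ⟨k', hk', hb'⟩ := h'
  refine ⟨k + k', add_mem hk hk', ?_⟩
  convert add_mem hb hb' using 1
  rw [map_add, map_add]
  abel

theorem TopW.smul {f : List G' → V} {y : List G → V} (h : TopW p ρ η f y) (c : ℚ) :
    TopW p ρ η (c • f) (c • y) := by
  obtain ⟨k, hk, hb⟩ := h
  refine ⟨c • k, Submodule.smul_mem _ c hk, ?_⟩
  convert Submodule.smul_mem _ c hb using 1
  rw [map_smul, map_smul, smul_sub, smul_sub]

theorem TopW.sub {f f' : List G' → V} {y y' : List G → V} (h : TopW p ρ η f y)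
    (h' : TopW p ρ η f' y') : TopW p ρ η (f - f') (y - y') := by
  obtain ⟨k, hk, hb⟩ := h
  obtain ⟨k', hk', hb'⟩ := h'
  refine ⟨k - k', sub_mem hk hk', ?_⟩
  convert sub_mem hb hb' using 1
  rw [map_sub, map_sub]
  abel

theorem TopW.of_fil {f : List G' → V} (hf : f ∈ FilV p ρ) : TopW p ρ η f 0 :=
  ⟨f, hf, by rw [map_zero, map_zero, sub_zero, sub_self]; exact zero_mem _⟩

theorem TopW.of_Bc {f : List G' → V} (hf : f ∈ Bc (ρ.comp p)) : TopW p ρ η f 0 :=
  ⟨0, zero_mem _, by rwa [map_zero, map_zero, sub_zero, sub_zero]⟩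

theorem TopW.self (y : List G → V) : TopW p ρ η (cupm (LinearMap.lsmul ℚ V) η (pl p y)) y :=
  ⟨0, zero_mem _, by rw [sub_self, sub_zero]; exact zero_mem _⟩

theorem TopW.congr (hη : η ∈ Zc (triv G' ℚ)) {f f' : List G' → V} {y y' : List G → V}
    (h : TopW p ρ η f y) (e1 : f - f' ∈ Bc (ρ.comp p)) (e2 : y - y' ∈ Bc ρ) :
    TopW p ρ η f' y' := by
  obtain ⟨k, hk, hb⟩ := h
  refine ⟨k, hk, ?_⟩
  have h1 := cupm_mem_Bc_right (eqv₂_lsmul (ρ.comp p)) hη (pl_mem_Bc p e2)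
  convert add_mem (sub_mem hb e1) h1 using 1
  rw [map_sub, map_sub]
  abel

theorem TopW.cm {φ : V →ₗ[ℚ] W} (hφ : Eqv ρV ρW φ) {f : List G' → V} {y : List G → V}
    (h : TopW p ρV η f y) : TopW p ρW η (cm φ f) (cm φ y) := by
  obtain ⟨k, hk, hb⟩ := h
  refine ⟨FP.cm φ k, cm_mem_FilV hφ hk, ?_⟩
  have h1 := cm_mem_Bc (hφ.comp p) hb
  rw [map_sub, map_sub, cm_cupm] at h1
  convert h1 using 3
  exact cupm_congr fun l l' => by simp

theorem TopW.sg (hη : Len 3 η) {f : List G' → V} {y : List G → V} (h : TopW p ρ η f y) :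
    TopW p ρ η (sg f) (sg y) := by
  obtain ⟨k, hk, hb⟩ := h
  refine ⟨FP.sg k, sg_mem_FilV hk, ?_⟩
  have h1 := sg_mem_Bc hb
  have h2 : FP.sg η = η := by rw [sg_of_len hη]; norm_num
  rwa [map_sub, map_sub, sg_cupm, sg_pl, h2] at h1

theorem TopW.comp (hη : Len 3 η) {f : List G' → V} {y : List G → V} (h : TopW p ρ η f y)
    (n : ℕ) : TopW p ρ η (comp (n + 2) f) (comp n y) := by
  obtain ⟨k, hk, hb⟩ := h
  refine ⟨FP.comp (n + 2) k, comp_mem_FilV _ hk, ?_⟩
  have h1 := comp_mem_Bc (n + 2) hb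
  have h2 := comp_cupm (a := 2) hη (LinearMap.lsmul ℚ V) (FP.pl p y) n
  rw [add_comm 2 n, comp_pl] at h2
  rwa [map_sub, map_sub, h2] at h1

/-- The projection formula. -/
theorem TopW.cupm {μ : U →ₗ[ℚ] V →ₗ[ℚ] W} (hμ : Eqv₂ ρU ρV ρW μ) {f : List G' → U}
    {y : List G → U} (h : TopW p ρU η f y) {z : List G → V} (hz : z ∈ Zc ρV) :
    TopW p ρW η (cupm μ f (pl p z)) (cupm μ y z) := by
  obtain ⟨k, hk, hb⟩ := h
  refine ⟨FP.cupm μ k (FP.pl p z), cupm_pl_mem_FilV hμ hk hz.1, ?_⟩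
  have h1 := cupm_mem_Bc_left (hμ.comp p) hb (pl_mem_Zc p hz)
  rw [map_sub, map_sub, LinearMap.sub_apply, LinearMap.sub_apply,
    cupm_assoc (μ₃ := μ) (μ₄ := LinearMap.lsmul ℚ W) (fun u v w => by simp)] at h1
  rwa [pl_cupm]

/-- Base change. -/
theorem TopW.pl {E B : Type} [Group E] [Group B] {q : E →* B} (φE : E →* G') (φB : B →* G)
    (hc : ∀ x, p (φE x) = φB (q x)) {f : List G' → V} {y : List G → V} (h : TopW p ρ η f y) :
    TopW q (ρ.comp φB) (pl φE η) (pl φE f) (pl φB y) := by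
  obtain ⟨k, hk, hb⟩ := h
  refine ⟨FP.pl φE k, pl_mem_FilV_of_comm φE φB hc hk, ?_⟩
  have h1 := pl_mem_Bc φE hb
  rw [co2b_rep ρ hc, map_sub, map_sub, pl_cupm, pl_pl, co2b_fun hc] at h1
  rwa [pl_pl]

end Fil

end Pool.Agent.FP
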