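import Pool.Agent.FP.Co2b

/-! Cones, prisms, reversal, restriction to the fibre. -/

namespace Pool.Agent.FP

variable {X Y G G' U V W : Type} [AddCommGroup U] [Module ℚ U] [AddCommGroup V] [Module ℚ V]
  [AddCommGroup W] [Module ℚ W]

/-- Without equivariance every cocycle is a constant up to the coboundary of its cone. -/
theorem dd_cone (x : X) {f : List X → V} (h0 : f [] = 0) (hd : dd f = 0) :
    dd (cone x f) + cst (f [x]) = f := by
  funext l
  have h1 : dd f (x :: l) = 0 := by rw [hd]; rfl
  rw [dd_cons, sub_eq_zero] at h1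
  rw [Pi.add_apply]
  match l with
  | [] => rw [dd_nil, cst_nil, h0, add_zero]
  | [y] => rw [h1, dd_single, dd_single]; simp [cone, cst]
  | y :: z :: l =>
    have h2 : (cst (f [x]) : List X → V) (y :: z :: l) = 0 := by simp [cst]
    rw [h1, h2, add_zero, dd_apply, dd_apply]
    refine Finset.sum_congr rfl fun i hi => ?_
    have h3 : (y :: z :: l).eraseIdx i ≠ [] := by
      cases i <;> simp
    rw [cone, if_neg h3]

theorem cone_nil (x : X) (f : List X → V) : cone x f [] = 0 := if_pos rfl

theorem Len.cone {n : ℕ} {f : List X → V} (hf : Len (n + 1) f) (x : X) : Len n (cone x f) := by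
  intro l hl
  unfold Pool.Agent.FP.cone
  split_ifs
  · rfl
  · exact hf _ (by simpa using hl)

theorem co3_prism_cons (r s : X → Y) (f : List Y → V) (x : X) (l : List X) :
    prism r s f (x :: l) =
      f (r x :: s x :: l.map s) - prism r s (fun l' => f (r x :: l')) l := by
  rw [prism_apply, prism_apply, List.length_cons, Finset.sum_range_succ', add_comm,
    sub_eq_add_neg, ← Finset.sum_neg_distrib]
  congr 1
  · simp
  · refine Finset.sum_congr rfl fun i _ => ?_
    simp [pow_succ]

/-- Induct on the list, generalising `f`; use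
`prism r s f (x :: l) = f (r x :: s x :: l.map s) - prism r s (fun l' => f (r x :: l')) l`. -/
theorem dd_prism (r s : X → Y) (f : List Y → V) :
    dd (prism r s f) + prism r s (dd f) = pl s f - pl r f := by
  funext l
  rw [Pi.add_apply, Pi.sub_apply]
  induction l generalizing f with
  | nil => simp [prism_apply]
  | cons x l ih =>
    have e1 : (fun l' => prism r s f (x :: l')) =
        pl s (fun l' => f (r x :: s x :: l')) - prism r s (fun l' => f (r x :: l')) := by
      funext l'
      rw [co3_prism_cons]; rfl
    have e2 : (fun l' => dd f (r x :: l')) = f - dd (fun l' => f (r x :: l')) := by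
      funext l'
      rw [dd_cons]; rfl
    have ih' := ih (fun l' => f (r x :: l'))
    rw [dd_cons, co3_prism_cons, e1, e2, map_sub, map_sub, dd_pl, dd_cons, dd_cons]
    simp only [Pi.sub_apply, pl_apply, List.map_cons] at ih' ⊢
    rw [← sub_eq_zero] at ih' ⊢
    rw [← ih']
    abel

theorem prism_nil (r s : X → Y) (f : List Y → V) : prism r s f [] = 0 := by
  simp [prism_apply]

theorem Len.prism {n : ℕ} {f : List Y → V} (hf : Len (n + 1) f) (r s : X → Y) :
    Len n (prism r s f) := by
  intro l hl
  rw [prism_apply]
  refine Finset.sum_eq_zero fun i hi => ?_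
  rw [Finset.mem_range] at hi
  rw [hf, smul_zero]
  simp only [List.length_append, List.length_map, List.length_take, List.length_drop]
  omega

theorem co3_choose (n : ℕ) : (n + 1).choose 2 = n.choose 2 + n := by
  rw [Nat.choose_succ_succ' n 1, Nat.choose_one_right, add_comm]

theorem co3_choose_add (i j : ℕ) :
    (i + j + 1).choose 2 = (i + 1).choose 2 + (j + 1).choose 2 + i * j := by
  induction j with
  | zero => simp
  | succ j ih => rw [← add_assoc, co3_choose (i + j + 1), ih, co3_choose (j + 1)]; ring

theorem dd_rv (f : List X → V) : dd (rv f) = rv (dd f) := by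
  funext l
  induction l generalizing f with
  | nil => simp [rv_apply]
  | cons x l ih =>
    have e1 : (fun l' => rv f (x :: l')) = -sg (rv fun l' => f (l' ++ [x])) := by
      funext l'
      rw [Pi.neg_apply, sg_apply, rv_apply, rv_apply, List.length_cons, co3_choose,
        List.reverse_cons, smul_smul, ← neg_smul]
      congr 1
      ring
    rw [dd_cons, e1, map_neg, dd_sg, neg_neg, sg_apply, ih, rv_apply, rv_apply, rv_apply,
      List.length_cons, co3_choose, List.reverse_cons, dd_concat, List.length_reverse, smul_add,
      smul_smul, smul_smul, sub_eq_add_neg, add_comm, ← neg_smul]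
    congr 2
    · ring
    · rw [pow_add, mul_assoc, ← pow_add, ← two_mul, pow_mul]
      simp

theorem Len.rv {n : ℕ} {f : List X → V} (hf : Len n f) : Len n (rv f) := by
  intro l hl
  rw [rv_apply, hf _ (by simpa using hl), smul_zero]

/-- Reversal exchanges the factors of a cup product. -/
theorem rv_cupm {μ : U →ₗ[ℚ] V →ₗ[ℚ] W} {μ' : V →ₗ[ℚ] U →ₗ[ℚ] W} {f : List X → U}
    {h : List X → V} (H : ∀ l l', μ (f l) (h l') =
      (-1 : ℚ) ^ ((l.length + 1) * (l'.length + 1)) • μ' (h l') (f l)) :
    rv (cupm μ f h) = cupm μ' (rv h) (rv f) := by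
  funext l
  rw [rv_apply, cupm_apply, cupm_apply, List.length_reverse, Finset.smul_sum,
    ← Finset.sum_range_reflect]
  refine Finset.sum_congr rfl fun j hj => ?_
  rw [Finset.mem_range] at hj
  obtain ⟨i, hi⟩ : ∃ i, l.length = i + j + 1 := ⟨l.length - 1 - j, by omega⟩
  have e0 : l.length - 1 - j = i := by omega
  have e1 : (l.drop j).reverse = l.reverse.take (i + 1) := by
    rw [List.take_reverse]
    congr 2
    omega
  have e2 : (l.take (j + 1)).reverse = l.reverse.drop i := by
    rw [List.drop_reverse]
    congr 2
    omega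
  have l1 : (l.reverse.take (i + 1)).length = i + 1 := by
    rw [List.length_take, List.length_reverse]; omega
  have l2 : (l.reverse.drop i).length = j + 1 := by
    rw [List.length_drop, List.length_reverse]; omega
  have l3 : (l.take (j + 1)).length = j + 1 := by
    rw [List.length_take]; omega
  have l4 : (l.drop j).length = i + 1 := by
    rw [List.length_drop]; omega
  rw [e0, H, rv_apply, rv_apply, e1, e2, l1, l2, l3, l4, hi, co3_choose_add, map_smul,
    LinearMap.map_smul₂, smul_smul, smul_smul]
  congr 1
  have e3 : (i + 1 + 1) * (j + 1 + 1) = i * j + 2 * (i + j + 2) := by ring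
  have e4 : (-1 : ℚ) ^ (i * j) * (-1) ^ (i * j) = 1 := by
    rw [← pow_add, ← two_mul, pow_mul]; simp
  rw [e3, pow_add, pow_add, pow_add, pow_mul (-1 : ℚ) 2]
  simp only [even_two, Even.neg_pow, one_pow, mul_one]
  rw [mul_assoc, e4, mul_one]

end Pool.Agent.FP
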