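import Pool.Agent.FP.Co3

/-! Continuation. -/

namespace Pool.Agent.FP

variable {X Y G G' U V W : Type} [AddCommGroup U] [Module ℚ U] [AddCommGroup V] [Module ℚ V]
  [AddCommGroup W] [Module ℚ W]

variable [Group G] [Group G']

theorem rv_mem_Co {ρ : Representation ℚ G V} {f : List G → V} (hf : f ∈ Co ρ) : rv f ∈ Co ρ := by
  refine ⟨by simp [rv_apply, hf.1], fun g l => ?_⟩
  rw [rv_apply, rv_apply, List.length_map, ← List.map_reverse, hf.2, map_smul]

/-- Cochains on the lists of `G` that are invariant under the image of `j`. -/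
def CoN (j : G' →* G) (V : Type) [AddCommGroup V] [Module ℚ V] : Submodule ℚ (List G → V) where
  carrier := {f | f [] = 0 ∧ ∀ (n : G') (l : List G), f (l.map (j n * ·)) = f l}
  add_mem' := fun {f h} hf hh => ⟨by simp [hf.1, hh.1], fun g l => by simp [hf.2, hh.2]⟩
  zero_mem' := ⟨rfl, fun g l => by simp⟩
  smul_mem' := fun c f hf => ⟨by simp [hf.1], fun g l => by simp [hf.2]⟩

theorem pl_mem_Co_of_CoN {j : G' →* G} {f : List G → V} (hf : f ∈ CoN j V) :
    pl j f ∈ Co (triv G' V) := by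
  refine ⟨hf.1, fun g l => ?_⟩
  have e : (l.map (g * ·)).map j = (l.map j).map (j g * ·) := by
    simp [List.map_map, Function.comp_def]
  rw [pl_apply, pl_apply, e, hf.2]
  rfl

theorem dd_mem_CoN {j : G' →* G} {f : List G → V} (hf : f ∈ CoN j V) : dd f ∈ CoN j V := by
  refine ⟨dd_nil f, fun n l => ?_⟩
  have e : pl (j n * ·) f = f := funext fun l' => hf.2 n l'
  rw [← pl_apply (j n * ·) (dd f), ← dd_pl, e]

/-- An equivariant retraction that respects a subgroup `A` meeting every coset of the image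
of `j`. -/
theorem exists_retr (j : G' →* G) (hj : Function.Injective j) (A : Subgroup G)
    (hA : ∀ x, ∃ n, ∃ a ∈ A, x = j n * a) :
    ∃ r : G → G', (∀ n x, r (j n * x) = n * r x) ∧ r 1 = 1 ∧ ∀ a ∈ A, j (r a) ∈ A := by
  classical
  let c : G → Set G := fun x => {y | ∃ n, x = j n * y}
  have hc : ∀ n x, c (j n * x) = c x := by
    intro n x
    ext y
    constructor
    · rintro ⟨m, hm⟩
      exact ⟨n⁻¹ * m, by rw [map_mul, map_inv, mul_assoc, ← hm, inv_mul_cancel_left]⟩
    · rintro ⟨m, hm⟩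
      exact ⟨n * m, by rw [map_mul, mul_assoc, ← hm]⟩
  have hs : ∀ S : Set G, ∃ a ∈ A, ((∃ b ∈ A, b ∈ S) → a ∈ S) ∧ (1 ∈ S → a = 1) := by
    intro S
    by_cases h1 : (1 : G) ∈ S
    · exact ⟨1, A.one_mem, fun _ => h1, fun _ => rfl⟩
    · by_cases h2 : ∃ b ∈ A, b ∈ S
      · obtain ⟨b, hb, hb'⟩ := h2
        exact ⟨b, hb, fun _ => hb', fun h => absurd h h1⟩
      · exact ⟨1, A.one_mem, fun h => absurd h h2, fun _ => rfl⟩
  choose s hsA hsS hs1 using hs
  have hr : ∀ x, ∃ n, x = j n * s (c x) := fun x => by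
    obtain ⟨n, a, ha, e⟩ := hA x
    exact hsS (c x) ⟨a, ha, n, e⟩
  choose r hr using hr
  refine ⟨r, fun n x => hj ?_, hj ?_, fun a ha => ?_⟩
  · have h1 := hr (j n * x)
    rw [hc] at h1
    refine mul_right_cancel (b := s (c x)) ?_
    rw [← h1, map_mul, mul_assoc, ← hr x]
  · have h1 := hr 1
    rw [hs1 (c 1) ⟨1, by simp⟩, mul_one] at h1
    rw [← h1, map_one]
  · have h1 : j (r a) = a * (s (c a))⁻¹ := eq_mul_inv_of_mul_eq (hr a).symm
    rw [h1]
    exact A.mul_mem ha (A.inv_mem (hsA _))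

/-- Restriction to the fibre detects coboundaries, also relative to a subset `A`. With `r` from
`exists_retr` take `γ = pl r β + prism (j ∘ r) id (f - dd (pl r β))`; note `r ∘ j = id`. -/
theorem res_rel (j : G' →* G) (A : Set G) (r : G → G') (hr : ∀ n x, r (j n * x) = n * r x)
    (h1 : r 1 = 1) (hA : ∀ a ∈ A, j (r a) ∈ A) {n : ℕ} {f : List G → V} (hf : f ∈ CoN j V) (hd : dd f = 0)
    (hl : Len (n + 1) f) (hv : ∀ l : List G, (∀ a ∈ l, a ∈ A) → f l = 0) {β : List G' → V}
    (hβ : β ∈ Co (triv G' V)) (lβ : Len n β) (dβ : dd β = pl j f)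
    (vβ : ∀ l : List G', (∀ a ∈ l, j a ∈ A) → β l = 0) :
    ∃ γ ∈ CoN j V, Len n γ ∧ dd γ = f ∧ pl j γ = β ∧
      ∀ l : List G, (∀ a ∈ l, a ∈ A) → γ l = 0 := by
  have hrj : r ∘ j = id := funext fun m => by
    have := hr m 1
    rwa [mul_one, h1, mul_one] at this
  have hrj' : ∀ m, r (j m) = m := fun m => congrFun hrj m
  have hb : pl r β ∈ CoN j V := by
    refine ⟨hβ.1, fun m l => ?_⟩
    have e : (l.map (j m * ·)).map r = (l.map r).map (m * ·) := by
      simp [List.map_map, Function.comp_def, hr]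
    rw [pl_apply, pl_apply, e, hβ.2]
    rfl
  set u := f - dd (pl r β) with hu
  have uN : u ∈ CoN j V := sub_mem hf (dd_mem_CoN hb)
  have ud : dd u = 0 := by rw [hu, map_sub, hd, dd_dd, sub_zero]
  have uj : pl j u = 0 := by
    rw [hu, map_sub, ← dd_pl, pl_pl, hrj, pl_id, dβ, sub_self]
  have ul : Len (n + 1) u := hl.sub (lβ.pl r).dd
  have uA : ∀ l : List G, (∀ a ∈ l, a ∈ A) → u l = 0 := by
    intro l hlA
    rw [hu, dd_pl, dβ, Pi.sub_apply, hv l hlA, pl_apply, pl_apply, hv, sub_zero]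
    intro a ha
    obtain ⟨b, hb', rfl⟩ := List.mem_map.1 ha
    obtain ⟨c, hc, rfl⟩ := List.mem_map.1 hb'
    exact hA c (hlA c hc)
  refine ⟨pl r β + prism (j ∘ r) id u, add_mem hb ⟨prism_nil _ _ _, fun m l => ?_⟩,
    (lβ.pl r).add (ul.prism _ _), ?_, ?_, fun l hlA => ?_⟩
  · rw [prism_apply, prism_apply, List.length_map]
    refine Finset.sum_congr rfl fun i _ => ?_
    rw [← uN.2 m ((l.take (i + 1)).map (j ∘ r) ++ (l.drop i).map id)]
    congr 2
    simp [List.map_take, List.map_drop, List.map_map, Function.comp_def, hr]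
  · have h2 := dd_prism (j ∘ r) id u
    rw [ud, map_zero, add_zero, pl_id, ← pl_pl, uj, map_zero, sub_zero] at h2
    rw [map_add, h2, hu, add_sub_cancel]
  · rw [map_add, pl_pl, hrj, pl_id, add_eq_left]
    funext l
    rw [pl_apply, prism_apply]
    refine Finset.sum_eq_zero fun i _ => ?_
    have e : ((l.map j).take (i + 1)).map (j ∘ r) ++ ((l.map j).drop i).map id =
        (l.take (i + 1) ++ l.drop i).map j := by
      simp [List.map_take, List.map_drop, List.map_map, Function.comp_def, hrj']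
    rw [e, ← pl_apply j u, uj, Pi.zero_apply, smul_zero]
  · rw [Pi.add_apply, pl_apply, vβ, zero_add, prism_apply]
    · refine Finset.sum_eq_zero fun i _ => ?_
      rw [uA, smul_zero]
      intro a ha
      rcases List.mem_append.1 ha with h2 | h2
      · obtain ⟨b, hb', rfl⟩ := List.mem_map.1 h2
        exact hA b (hlA b (List.mem_of_mem_take hb'))
      · obtain ⟨b, hb', rfl⟩ := List.mem_map.1 h2
        exact hlA b (List.mem_of_mem_drop hb')
    · intro a ha
      obtain ⟨b, hb', rfl⟩ := List.mem_map.1 ha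
      exact hA b (hlA b hb')

/-- The absolute version (`A = ∅`). -/
theorem res_abs (j : G' →* G) (hj : Function.Injective j) {n : ℕ} {f : List G → V}
    (hf : f ∈ CoN j V)
    (hd : dd f = 0) (hl : Len (n + 1) f) (hb : pl j f ∈ Bc (triv G' V)) :
    ∃ γ ∈ CoN j V, Len n γ ∧ dd γ = f := by
  obtain ⟨r, hr, h1, -⟩ := exists_retr j hj ⊤ fun x => ⟨1, x, Subgroup.mem_top x, by simp⟩
  obtain ⟨β, hβ, lβ, dβ⟩ := exists_len_of_mem_Bc hb (hl.pl j)
  obtain ⟨γ, h2, h3, h4, -⟩ := res_rel j ∅ r hr h1 (fun a ha => ha.elim) hf hd hl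
    (fun l hlA => by
      rw [List.eq_nil_iff_forall_not_mem.2 hlA]
      exact hf.1) hβ lβ dβ
    (fun l hlA => by
      rw [List.eq_nil_iff_forall_not_mem.2 hlA]
      exact hβ.1)
  exact ⟨γ, h2, h3, h4⟩

end Pool.Agent.FP
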