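import Pool.Agent.FP.Co3b

/-! Dimension shifting, graded commutativity, and passage to invariants. -/

namespace Pool.Agent.FP

variable {G E B U V W : Type} [AddCommGroup U] [Module ℚ U] [AddCommGroup V] [Module ℚ V]
  [AddCommGroup W] [Module ℚ W] [Group G] [Group E] [Group B]
  {ρU : Representation ℚ G U} {ρ ρV : Representation ℚ G V} {ρW : Representation ℚ G W}

theorem eqv_iot (ρ : Representation ℚ G V) : Eqv ρ (coind ρ) (iot G V) :=
  fun _ _ => rfl

theorem iot_inj : Function.Injective (iot G V) := fun _ _ h => congrFun h 1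

theorem eqv_mkQ (ρ : Representation ℚ G V) :
    Eqv (coind ρ) (shift ρ) (LinearMap.range (iot G V)).mkQ := fun _ _ => rfl

theorem co4_inv_self (ρ : Representation ℚ G V) (g : G) (v : V) : ρ g⁻¹ (ρ g v) = v := by
  rw [← Module.End.mul_apply, ← map_mul, inv_mul_cancel, map_one, Module.End.one_apply]

theorem co4_self_inv (ρ : Representation ℚ G V) (g : G) (v : V) : ρ g (ρ g⁻¹ v) = v := by
  rw [← Module.End.mul_apply, ← map_mul, mul_inv_cancel, map_one, Module.End.one_apply]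

/-- Lift along a surjection: with a linear section `σ` put
`f' (x :: l) = ρV x (σ (ρW x⁻¹ (f (x :: l))))`. -/
theorem exists_lift {q : V →ₗ[ℚ] W} (hq : Eqv ρV ρW q) (hs : Function.Surjective q)
    {f : List G → W} (hf : f ∈ Co ρW) :
    ∃ f' ∈ Co ρV, cm q f' = f ∧ ∀ l, f l = 0 → f' l = 0 := by
  obtain ⟨σ, hσ⟩ := q.exists_rightInverse_of_surjective (LinearMap.range_eq_top.mpr hs)
  have hσ' : ∀ w, q (σ w) = w := fun w => LinearMap.congr_fun hσ w
  refine ⟨fun l => match l with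
    | [] => 0
    | x :: l => ρV x (σ (ρW x⁻¹ (f (x :: l)))), ⟨rfl, fun g l => ?_⟩, ?_, fun l hl => ?_⟩
  · cases l with
    | nil => simp
    | cons x l =>
      have e := hf.2 g (x :: l)
      rw [List.map_cons] at e
      change ρV (g * x) (σ (ρW (g * x)⁻¹ (f ((g * x) :: l.map (g * ·))))) =
        ρV g (ρV x (σ (ρW x⁻¹ (f (x :: l)))))
      rw [e, mul_inv_rev, map_mul, map_mul, Module.End.mul_apply, Module.End.mul_apply,
        co4_inv_self]
  · funext l
    cases l with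
    | nil => exact (map_zero q).trans hf.1.symm
    | cons x l =>
      change q (ρV x (σ (ρW x⁻¹ (f (x :: l))))) = f (x :: l)
      rw [hq, hσ', co4_self_inv]
  · cases l with
    | nil => rfl
    | cons x l =>
      change ρV x (σ (ρW x⁻¹ (f (x :: l)))) = 0
      rw [hl, map_zero, map_zero, map_zero]

/-- Descend along an injection. -/
theorem exists_desc {i : V →ₗ[ℚ] W} (hi : Eqv ρV ρW i) (hinj : Function.Injective i)
    {f : List G → W} (hf : f ∈ Co ρW) (hr : ∀ l, f l ∈ LinearMap.range i) :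
    ∃ u ∈ Co ρV, cm i u = f ∧ ∀ l, f l = 0 → u l = 0 := by
  choose u hu using hr
  refine ⟨u, ⟨hinj ?_, fun g l => hinj ?_⟩, funext hu, fun l hl => hinj ?_⟩
  · rw [hu, hf.1, map_zero]
  · rw [hu, hi, hu, hf.2]
  · rw [hu, hl, map_zero]

/-- Cocycles of positive degree die in the coinduced module: `ψ l b = f (b :: l)`. -/
theorem exists_contr {n : ℕ} {f : List G → V} (hf : f ∈ Zc ρ) (hl : Len (n + 2) f) :
    ∃ ψ ∈ Co (coind ρ), Len (n + 1) ψ ∧ dd ψ = cm (iot G V) f := by
  obtain ⟨h1, h2⟩ := mem_Zc.mp hf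
  refine ⟨fun l b => f (b :: l), ⟨?_, fun g l => ?_⟩, fun l h => ?_, ?_⟩
  · funext b
    exact hl [b] (by simp)
  · funext b
    rw [coind_apply, ← h1.2, List.map_cons, mul_inv_cancel_left]
  · funext b
    exact hl (b :: l) (by simpa using h)
  · funext l b
    have e := dd_cons f b l
    rw [h2, Pi.zero_apply, eq_comm, sub_eq_zero] at e
    change _ = f l
    rw [e, dd_apply, dd_apply, Finset.sum_apply]
    rfl

/-- The dimension shifting step: if `dd ψ = iot f` and `ψ` is a coboundary modulo constants, then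
`f` is a coboundary. -/
theorem mem_Bc_of_shift (p : E →* G) {f : List E → V} {ψ : List E → G → V}
    (hψ : ψ ∈ Co ((coind ρ).comp p)) (hd : dd ψ = cm (iot G V) f)
    (hb : cm (LinearMap.range (iot G V)).mkQ ψ ∈ Bc ((shift ρ).comp p)) : f ∈ Bc (ρ.comp p) := by
  obtain ⟨h, hh, e⟩ := mem_Bc.mp hb
  obtain ⟨h', hh', e', -⟩ := exists_lift ((eqv_mkQ ρ).comp p) (Submodule.mkQ_surjective _) hh
  obtain ⟨u, hu, eu, -⟩ := exists_desc ((eqv_iot ρ).comp p) iot_inj
    (sub_mem hψ (dd_mem_Co hh')) (fun l => by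
      have e2 : cm (LinearMap.range (iot G V)).mkQ (ψ - dd h') = 0 := by
        rw [map_sub, ← dd_cm, e', e, sub_self]
      exact (Submodule.Quotient.mk_eq_zero _).mp (congrFun e2 l))
  refine mem_Bc.mpr ⟨u, hu, ?_⟩
  have e3 : cm (iot G V) (dd u) = cm (iot G V) f := by
    rw [← dd_cm, eu, map_sub, dd_dd, sub_zero, hd]
  funext l
  exact iot_inj (G := G) (congrFun e3 l)

theorem co4_rv_cm {X : Type} (φ : V →ₗ[ℚ] W) (f : List X → V) : rv (cm φ f) = cm φ (rv f) := by
  funext l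
  rw [rv_apply, cm_apply, cm_apply, rv_apply, map_smul]

theorem co4_comp_rv {X : Type} (n : ℕ) (f : List X → V) : comp n (rv f) = rv (comp n f) := by
  funext l
  rw [rv_apply, comp_apply, comp_apply, rv_apply, List.length_reverse]
  split_ifs
  · rfl
  · rw [smul_zero]

theorem co4_rv_len (n : ℕ) : ∀ (V : Type) [AddCommGroup V] [Module ℚ V]
    (ρ : Representation ℚ G V) (f : List G → V), f ∈ Zc ρ → Len (n + 1) f → rv f - f ∈ Bc ρ := by
  induction n with
  | zero =>
    intro V _ _ ρ f _ hl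
    have e : rv f = f := by
      funext l
      by_cases h : l.length = 1
      · obtain ⟨x, rfl⟩ := List.length_eq_one_iff.mp h
        simp [rv_apply]
      · rw [rv_apply, hl l h, hl l.reverse (by simpa using h), smul_zero]
    rw [e, sub_self]
    exact zero_mem _
  | succ n ih =>
    intro V _ _ ρ f hf hl
    obtain ⟨ψ, hψ, lψ, dψ⟩ := exists_contr hf hl
    have hz : cm (LinearMap.range (iot G V)).mkQ ψ ∈ Zc (shift ρ) := by
      refine mem_Zc.mpr ⟨cm_mem_Co (eqv_mkQ ρ) hψ, ?_⟩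
      rw [dd_cm, dψ]
      funext l
      exact (Submodule.Quotient.mk_eq_zero _).mpr ⟨f l, rfl⟩
    have hb := ih _ (shift ρ) _ hz (lψ.cm _)
    rw [co4_rv_cm, ← map_sub] at hb
    refine mem_Bc_of_shift (ρ := ρ) (MonoidHom.id G) (ψ := rv ψ - ψ)
      (sub_mem (rv_mem_Co hψ) hψ) ?_ hb
    rw [map_sub, map_sub, dd_rv, dψ, co4_rv_cm]

/-- Reversal is homotopic to the identity. Reduce to homogeneous cocycles (`mem_Bc_of_comp`), and
induct on the length for all modules `V` at once: apply `mem_Bc_of_shift` to `rv ψ - ψ`. -/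
theorem rv_sub_mem_Bc {f : List G → V} (hf : f ∈ Zc ρ) : rv f - f ∈ Bc ρ := by
  refine mem_Bc_of_comp fun n => ?_
  rw [map_sub, co4_comp_rv]
  cases n with
  | zero =>
    have e : comp 0 f = 0 := by
      funext l
      rw [comp_apply]
      split_ifs with h
      · rw [List.length_eq_zero_iff.mp h]
        exact (mem_Zc.mp hf).1.1
      · rfl
    rw [e, map_zero, sub_self]
    exact zero_mem _
  | succ n => exact co4_rv_len n V ρ _ (comp_mem_Zc _ hf) (len_comp _ f)

/-- Graded commutativity. -/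
theorem cupm_comm {μ : U →ₗ[ℚ] V →ₗ[ℚ] W} {μ' : V →ₗ[ℚ] U →ₗ[ℚ] W} (hμ : Eqv₂ ρU ρV ρW μ)
    (hμ' : Eqv₂ ρV ρU ρW μ') {f : List G → U} {h : List G → V} (hf : f ∈ Zc ρU)
    (hh : h ∈ Zc ρV) (H : ∀ l l', μ (f l) (h l') =
      (-1 : ℚ) ^ ((l.length + 1) * (l'.length + 1)) • μ' (h l') (f l)) :
    cupm μ f h - cupm μ' h f ∈ Bc ρW := by
  have h1 := rv_sub_mem_Bc (cupm_mem_Zc hμ hf hh)
  rw [rv_cupm H] at h1
  have hr : rv f ∈ Zc ρU :=
    mem_Zc.mpr ⟨rv_mem_Co (mem_Zc.mp hf).1, by rw [dd_rv, (mem_Zc.mp hf).2, map_zero]⟩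
  have h2 := cupm_sub_mem_Bc hμ' (f' := rv h) hh hr
    (by simpa using neg_mem (rv_sub_mem_Bc hh)) (h := f) (by simpa using neg_mem (rv_sub_mem_Bc hf))
  have e : cupm μ f h - cupm μ' h f =
      -(cupm μ' (rv h) (rv f) - cupm μ f h) - (cupm μ' h f - cupm μ' (rv h) (rv f)) := by abel
  rw [e]
  exact sub_mem (neg_mem h1) h2

end Pool.Agent.FP
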