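import Pool.Agent.FP.Co4

/-! Continuation. -/

namespace Pool.Agent.FP

variable {G E B U V W : Type} [AddCommGroup U] [Module ℚ U] [AddCommGroup V] [Module ℚ V]
  [AddCommGroup W] [Module ℚ W] [Group G] [Group E] [Group B]
  {ρU : Representation ℚ G U} {ρ ρV : Representation ℚ G V} {ρW : Representation ℚ G W}

/-- The action of a group on all functions on the lists of another group. -/
def act (φ : E →* G) (ρ : Representation ℚ E V) : Representation ℚ E (List G → V) where
  toFun e := cm (ρ e) ∘ₗ pl ((φ e)⁻¹ * ·)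
  map_one' := by ext; simp
  map_mul' g h := by ext; simp [Function.comp_def, mul_assoc]

theorem act_apply (φ : E →* G) (ρ : Representation ℚ E V) (e : E) (f : List G → V)
    (l : List G) : act φ ρ e f l = ρ e (f (l.map ((φ e)⁻¹ * ·))) := rfl

/-- Evaluation of a family of cochains at the image of the first vertex. -/
def rfirst (π : G → B) : (B → List G → V) →ₗ[ℚ] (List G → V) where
  toFun F l := match l with
    | [] => 0
    | x :: l => F (π x) (x :: l)
  map_add' F F' := by ext l; cases l <;> simp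
  map_smul' c F := by ext l; cases l <;> simp

theorem rfirst_const (π : G → B) {f : List G → V} (hf : f [] = 0) :
    rfirst π (fun _ => f) = f := by
  funext l
  cases l with
  | nil => exact hf.symm
  | cons x l => rfl

theorem rfirst_zero (π : G → B) {F : B → List G → V} {l : List G} (h : ∀ b, F b l = 0) :
    rfirst π F l = 0 := by
  cases l with
  | nil => rfl
  | cons x l => exact h _

theorem rfirst_act (φ : E →* G) (ρ : Representation ℚ E V) (π : G →* B) (e : E)
    (F : B → List G → V) : rfirst π (fun b => act φ ρ e (F ((π (φ e))⁻¹ * b))) =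
      act φ ρ e (rfirst π F) := by
  funext l
  cases l with
  | nil => exact (map_zero (ρ e)).symm
  | cons x l =>
    change ρ e (F ((π (φ e))⁻¹ * π x) _) = ρ e (F (π ((φ e)⁻¹ * x)) _)
    rw [map_mul, map_inv]
    rfl

theorem act_dd (φ : E →* G) (ρ : Representation ℚ E V) (e : E) (f : List G → V) :
    act φ ρ e (dd f) = dd (act φ ρ e f) := by
  change cm (ρ e) (pl _ (dd f)) = dd (cm (ρ e) (pl _ f))
  rw [dd_cm, dd_pl]

theorem mem_Co_iff_act (φ : E →* G) (hφ : Function.Surjective φ) (ρ : Representation ℚ G V)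
    {f : List G → V} : f ∈ Co ρ ↔ f [] = 0 ∧ ∀ e, act φ (ρ.comp φ) e f = f := by
  refine and_congr_right fun _ => ⟨fun h e => funext fun l => ?_, fun h g l => ?_⟩
  · rw [act_apply, h]
    exact ρ.self_inv_apply (φ e) (f l)
  · obtain ⟨e, rfl⟩ := hφ g
    rw [← congrFun (h e) (l.map (φ e * ·)), act_apply, List.map_map]
    simp [Function.comp_def]

/-- A linear section of the differential on the cocycles. -/
theorem co4b_sec (d : V →ₗ[ℚ] V) (A C : Submodule ℚ V) (h : ∀ v ∈ C, ∃ u ∈ A, d u = v) :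
    ∃ t : V →ₗ[ℚ] V, (∀ v, t v ∈ A) ∧ ∀ v ∈ C, d (t v) = v := by
  obtain ⟨t, ht⟩ := (d.domRestrict A).rangeRestrict.exists_rightInverse_of_surjective
    (LinearMap.range_rangeRestrict _)
  obtain ⟨t', ht'⟩ := t.exists_extend
  refine ⟨A.subtype ∘ₗ t', fun v => (t' v).2, fun v hv => ?_⟩
  obtain ⟨u, hu, e⟩ := h v hv
  have h1 := LinearMap.congr_fun ht' ⟨v, ⟨u, hu⟩, e⟩
  have h2 := congrArg Subtype.val (LinearMap.congr_fun ht ⟨v, ⟨u, hu⟩, e⟩)
  exact (congrArg (fun x : A => d x) h1).trans h2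

/-- Passage to invariants. `V` is a complex of modules of `E`, graded by `gr`, on which the kernel
of `p` acts trivially, exact as a complex of vector spaces, and relatively injective through `R`.
Proof: let `B` act on the submodule `⨆ n, gr n` or argue with a set section of `p`; show by
induction on `q`, for all `m`: an equivariant `F : List B → V` supported on length `m + 1`, with
values in `gr (q + 1)`, `dd F = 0`, `d ∘ F = 0`, is `dd U` with `d ∘ U = 0` and values in
`gr (q + 1)` (if `m ≥ 1`), or the constant `d y` with `y` invariant in `gr q` (if `m = 0`). One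
lifts `F = d ∘ F'` equivariantly, applies the induction to `dd F'`, and contracts with
`U l = R (fun b => F (b :: l))`. -/
theorem inv_acyclic (p : E →* B) (hp : Function.Surjective p) (a : Representation ℚ E V)
    (d : V →ₗ[ℚ] V) (gr : ℕ → Submodule ℚ V) (R : (B → V) →ₗ[ℚ] V)
    (hda : ∀ e v, a e (d v) = d (a e v)) (hdd : ∀ n, ∀ v ∈ gr n, d (d v) = 0)
    (hdg : ∀ n, ∀ v ∈ gr n, d v ∈ gr (n + 1)) (hag : ∀ n e, ∀ v ∈ gr n, a e v ∈ gr n)
    (hker : ∀ n e, p e = 1 → ∀ v ∈ gr n, a e v = v) (h0 : gr 0 = ⊥)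
    (hex : ∀ n, ∀ v ∈ gr (n + 1), d v = 0 → ∃ u ∈ gr n, d u = v)
    (hR1 : ∀ n, ∀ v ∈ gr n, R (fun _ => v) = v)
    (hR2 : ∀ e (F : B → V), R (fun b => a e (F ((p e)⁻¹ * b))) = a e (R F))
    (hR3 : ∀ n (F : B → V), (∀ b, F b ∈ gr n) → R F ∈ gr n)
    {n : ℕ} {v : V} (hv : v ∈ gr (n + 1)) (hd : d v = 0) (hi : ∀ e, a e v = v) :
    ∃ u ∈ gr n, d u = v ∧ ∀ e, a e u = u := by
  have key : ∀ n, ∃ s : V →ₗ[ℚ] V, ∀ v ∈ gr (n + 1), d v = 0 →
      s v ∈ gr n ∧ d (s v) = v ∧ ∀ e, s (a e v) = a e (s v) := by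
    intro n
    induction n with
    | zero =>
      refine ⟨0, fun v hv hd => ⟨zero_mem _, ?_, fun e => (map_zero _).symm⟩⟩
      obtain ⟨u, hu, rfl⟩ := hex 0 v hv hd
      rw [h0, Submodule.mem_bot] at hu
      rw [hu, map_zero, map_zero, map_zero]
    | succ n ih =>
      obtain ⟨s, hs⟩ := ih
      obtain ⟨t, t1, t2⟩ := co4b_sec d (gr (n + 1)) (gr (n + 1 + 1) ⊓ LinearMap.ker d)
        fun v hv => hex _ v hv.1 hv.2
      choose σ hσ using hp
      have hmul : ∀ e e' v, a e (a e' v) = a (e * e') v := fun e e' v => by rw [map_mul]; rfl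
      have hsame : ∀ e e', p e = p e' → ∀ v ∈ gr (n + 1), a e v = a e' v := fun e e' h v hv => by
        rw [← hker _ (e⁻¹ * e') (by rw [map_mul, map_inv, h, inv_mul_cancel]) v hv, hmul,
          mul_inv_cancel_left, hker _ (e⁻¹ * e') (by rw [map_mul, map_inv, h, inv_mul_cancel]) v hv]
      let q : V →ₗ[ℚ] V := LinearMap.id - t ∘ₗ d
      have q1 : ∀ v ∈ gr (n + 1), q v ∈ gr (n + 1) := fun v hv => sub_mem hv (t1 _)
      have q2 : ∀ v ∈ gr (n + 1), d (q v) = 0 := fun v hv => by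
        change d (v - t (d v)) = 0
        rw [map_sub, t2 _ ⟨hdg _ v hv, hdd _ v hv⟩, sub_self]
      have q3 : ∀ v, d v = 0 → q v = v := fun v hv => by
        change v - t (d v) = v
        rw [hv, map_zero, sub_zero]
      have z1 : ∀ e v, d v = 0 → d (a e v) = 0 := fun e v hv => by rw [← hda, hv, map_zero]
      let r : V →ₗ[ℚ] V := d ∘ₗ R ∘ₗ LinearMap.pi fun b => s ∘ₗ a (σ b) ∘ₗ q ∘ₗ a (σ b)⁻¹
      have r0 : ∀ v, r v = d (R fun b => s (a (σ b) (q (a (σ b)⁻¹ v)))) := fun _ => rfl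
      have r1 : ∀ v ∈ gr (n + 1), R (fun b => s (a (σ b) (q (a (σ b)⁻¹ v)))) ∈ gr n :=
        fun v hv => hR3 n _ fun b =>
          (hs _ (hag _ _ _ (q1 _ (hag _ _ v hv))) (z1 _ _ (q2 _ (hag _ _ v hv)))).1
      have r2 : ∀ v ∈ gr (n + 1), d v = 0 → r v = v := fun v hv hd => by
        have : (fun b => s (a (σ b) (q (a (σ b)⁻¹ v)))) = fun _ => s v := funext fun b => by
          rw [q3 _ (z1 _ v hd), a.self_inv_apply]
        rw [r0, this, hR1 n _ (hs v hv hd).1, (hs v hv hd).2.1]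
      have r3 : ∀ e, ∀ v ∈ gr (n + 1), r (a e v) = a e (r v) := fun e v hv => by
        rw [r0, r0, hda, ← hR2]
        congr 2
        funext b
        have h1 := hag _ (σ ((p e)⁻¹ * b))⁻¹ v hv
        rw [← (hs _ (hag _ _ _ (q1 _ h1)) (z1 _ _ (q2 _ h1))).2.2, hmul, hmul,
          hsame ((σ b)⁻¹ * e) (σ ((p e)⁻¹ * b))⁻¹ (by simp [hσ]) v hv,
          hsame (σ b) (e * σ ((p e)⁻¹ * b)) (by simp [hσ]) _ (q1 _ h1)]
      refine ⟨(LinearMap.id - r) ∘ₗ t, fun v hv hd => ⟨?_, ?_, fun e => ?_⟩⟩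
      · exact sub_mem (t1 v) (hdg _ _ (r1 _ (t1 v)))
      · change d (t v - r (t v)) = v
        rw [map_sub, t2 v ⟨hv, hd⟩, r0, hdd _ _ (r1 _ (t1 v)), sub_zero]
      · change t (a e v) - r (t (a e v)) = a e (t v - r (t v))
        have h1 := r2 (t (a e v) - a e (t v)) (sub_mem (t1 _) (hag _ _ _ (t1 v))) (by
          rw [map_sub, t2 _ ⟨hag _ e v hv, z1 e v hd⟩, ← hda, t2 v ⟨hv, hd⟩, sub_self])
        rw [map_sub, r3 e _ (t1 v)] at h1
        rw [map_sub, sub_eq_sub_iff_sub_eq_sub, h1]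
  obtain ⟨s, hs⟩ := key n
  obtain ⟨h1, h2, h3⟩ := hs v hv hd
  exact ⟨s v, h1, h2, fun e => by rw [← h3, hi]⟩

end Pool.Agent.FP
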