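import Pool.Agent.FP.Co4b

/-! Cohomology of free groups and of surface groups. -/

namespace Pool.Agent.FP

variable {α V W : Type} [AddCommGroup V] [Module ℚ V] [AddCommGroup W] [Module ℚ W] {g : ℕ}

/-- Crossed homomorphisms on a free group are free on the generators. Let the generators act on
`V` by the permutations `w ↦ v a + ρ (of a) w` and evaluate at `0`. -/
theorem exists_cross (ρ : Representation ℚ (FreeGroup α) V) (v : α → V) :
    ∃ c, Cross ρ c ∧ ∀ a, c (FreeGroup.of a) = v a := by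
  let e : α → Equiv.Perm V := fun a =>
    { toFun := fun w => v a + ρ (FreeGroup.of a) w
      invFun := fun w => ρ (FreeGroup.of a)⁻¹ (w - v a)
      left_inv := fun w => by simp
      right_inv := fun w => by simp }
  let Φ : FreeGroup α →* Equiv.Perm V := FreeGroup.lift e
  have h0 : ∀ a w, Φ (FreeGroup.of a) w = v a + ρ (FreeGroup.of a) w := fun a w => by
    simp only [Φ, FreeGroup.lift_apply_of]
    rfl
  have h : ∀ x w, Φ x w = Φ x 0 + ρ x w := by
    intro x
    induction x using FreeGroup.induction_on with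
    | C1 => simp
    | of a => simp [h0]
    | inv_of a ih =>
      intro w
      apply (Φ (FreeGroup.of a)).injective
      have h1 : ∀ u, Φ (FreeGroup.of a) (Φ (FreeGroup.of a)⁻¹ u) = u := fun u => by
        rw [← Equiv.Perm.mul_apply, ← map_mul, mul_inv_cancel, map_one, Equiv.Perm.one_apply]
      have h2 := h1 0
      rw [ih] at h2
      rw [h1, ih, map_add, ← add_assoc, h2]
      simp
    | mul x y ihx ihy =>
      intro w
      rw [map_mul, map_mul, Equiv.Perm.mul_apply, Equiv.Perm.mul_apply, ihx, ihy w, ihx (Φ y 0),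
        map_add, add_assoc]
      rfl
  refine ⟨fun x => Φ x 0, fun x y => ?_, fun a => by simp [h0]⟩
  simp only [map_mul, Equiv.Perm.mul_apply]
  exact h x _

theorem Cross.ext_free {ρ : Representation ℚ (FreeGroup α) V} {c c' : FreeGroup α → V}
    (hc : Cross ρ c) (hc' : Cross ρ c') (h : ∀ a, c (FreeGroup.of a) = c' (FreeGroup.of a)) :
    c = c' := by
  funext x
  induction x using FreeGroup.induction_on with
  | C1 => rw [hc.one, hc'.one]
  | of a => exact h a
  | inv_of a ih => rw [hc.inv, hc'.inv, ih]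
  | mul x y ihx ihy => rw [hc, hc', ihx, ihy]

theorem co5_shift {G : Type} [Group G] {ρ : Representation ℚ G V} {n : ℕ} {f : List G → V}
    (hf : f ∈ Zc ρ) (hl : Len (n + 2) f) :
    ∃ ψ ∈ Co (coind ρ), dd ψ = cm (iot G V) f ∧
      cm (LinearMap.range (iot G V)).mkQ ψ ∈ Zc (shift ρ) ∧
      Len (n + 1) (cm (LinearMap.range (iot G V)).mkQ ψ) := by
  obtain ⟨ψ, h1, h2, h3⟩ := exists_contr hf hl
  refine ⟨ψ, h1, h3, mem_Zc.2 ⟨cm_mem_Co (eqv_mkQ ρ) h1, ?_⟩, h2.cm _⟩
  rw [dd_cm, h3]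
  funext l
  exact (Submodule.Quotient.mk_eq_zero _).2 ⟨f l, rfl⟩

/-- Free groups have cohomological dimension at most one. Induct on `n` for all `V`; for `n = 0`
lift the crossed homomorphism of the shifted module to the coinduced module. -/
theorem free_vanish {ρ : Representation ℚ (FreeGroup α) V} {n : ℕ} {f : List (FreeGroup α) → V}
    (hf : f ∈ Zc ρ) (hl : Len (n + 3) f) : f ∈ Bc ρ := by
  induction n generalizing V with
  | zero =>
    obtain ⟨ψ, h1, h2, h3, h4⟩ := co5_shift (n := 1) hf hl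
    obtain ⟨hc, e⟩ := cross_of_mem_Zc h3 h4
    obtain ⟨c, hc', hv⟩ := exists_cross (coind ρ) fun a => ψ [1, FreeGroup.of a]
    have e2 := (hc'.map (eqv_mkQ ρ)).ext_free hc fun a => congrArg _ (hv a)
    refine mem_Bc_of_shift (MonoidHom.id _) (ψ := ψ - dif c) (sub_mem h1 hc'.dif_mem.1) ?_ ?_
    · rw [map_sub, dd_dif, sub_zero, h2]
    · rw [map_sub, cm_dif, e2, ← e, sub_self]
      exact zero_mem _
  | succ n ih =>
    obtain ⟨ψ, h1, h2, h3, h4⟩ := co5_shift (n := n + 2) hf hl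
    exact mem_Bc_of_shift (MonoidHom.id _) h1 h2 (ih h3 h4)

/-- The quotient map to the surface group. -/
abbrev mkS (g : ℕ) : Fr g →* Sg g := PresentedGroup.mk _

theorem mkS_bdw (g : ℕ) : mkS g (bdw g) = 1 := PresentedGroup.one_of_mem rfl

theorem ab_mul (x y : Sg g) : ab (x * y) = ab x + ab y := by simp [ab]

theorem ab_one : ab (1 : Sg g) = 0 := by simp [ab]

theorem ab_inv (x : Sg g) : ab x⁻¹ = -ab x := by simp [ab]

theorem ab_of (j : Fin g × Bool) : ab (mkS g (FreeGroup.of j)) = bv j :=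
  congrArg Multiplicative.toAdd (PresentedGroup.toGroup.of _ (x := j))

theorem cross_ab : Cross (triv (Sg g) (Hq g)) ab := ab_mul

/-- A linear map killing the classes of group elements vanishes. -/
theorem eq_zero_of_ab {T : Hq g →ₗ[ℚ] V} (h : ∀ x : Sg g, T (ab x) = 0) : T = 0 := by
  refine (Pi.basisFun ℚ _).ext fun j => ?_
  have := h (mkS g (FreeGroup.of j))
  rw [ab_of] at this
  rw [Pi.basisFun_apply]
  exact this

theorem co5_lin {c : Fr g → V} (hc : Cross (triv (Fr g) V) c) :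
    ∃ T : Hq g →ₗ[ℚ] V, ∀ x, c x = T (ab (mkS g x)) := by
  refine ⟨(Pi.basisFun ℚ _).constr ℚ fun j => c (FreeGroup.of j), congrFun ?_⟩
  refine hc.ext_free (fun x y => ?_) fun j => ?_
  · rw [map_mul, ab_mul, map_add]
    rfl
  · rw [ab_of, bv, ← Pi.basisFun_apply, Module.Basis.constr_basis]

/-- Homomorphisms to a vector space kill the boundary word. -/
theorem cross_triv_bdw {c : Fr g → V} (hc : Cross (triv (Fr g) V) c) : c (bdw g) = 0 := by
  obtain ⟨T, hT⟩ := co5_lin hc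
  rw [hT, mkS_bdw, ab_one, map_zero]

/-- Homomorphisms from the free group to a vector space are linear in the homology class. -/
theorem exists_lin_of_cross {c : Fr g → V} (hc : Cross (triv (Fr g) V) c) :
    ∃ T : Hq g →ₗ[ℚ] V, ∀ x, c x = T (ab (mkS g x)) := co5_lin hc

/-- Degree two: a primitive on the free group that is trivial on the boundary word descends. The
function `r ↦ γ [1, r] - γ [1, 1]` is an equivariant homomorphism on the kernel. -/
theorem surf_two {ρ : Representation ℚ (Sg g) V} {f : List (Sg g) → V} (hf : f ∈ Zc ρ)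
    (hl : Len 3 f) {γ : List (Fr g) → V} (hγ : γ ∈ Co (ρ.comp (mkS g))) (lγ : Len 2 γ)
    (hd : dd γ = pl (mkS g) f) (hv : γ [1, bdw g] = γ [1, 1]) :
    ∃ β ∈ Co ρ, Len 2 β ∧ dd β = f ∧ pl (mkS g) β = γ := by
  have h1 : ∀ x y, γ [x, x * y] = ρ (mkS g x) (γ [1, y]) := fun x y => by
    simpa using hγ.2 x [1, y]
  have h2 : ∀ x y z, γ [y, z] - γ [x, z] + γ [x, y] = f [mkS g x, mkS g y, mkS g z] :=
    fun x y z => by rw [← dd_triple, hd]; rfl
  have h3 : ∀ r, mkS g r = 1 → γ [1, r] = γ [1, 1] → ∀ x, γ [1, x * r] = γ [1, x] := by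
    intro r hr e x
    have a1 := h2 1 x (x * r)
    have a2 := h2 1 x (x * 1)
    rw [map_mul, hr, h1, e] at a1
    rw [map_mul, map_one (mkS g), h1, mul_one x] at a2
    rw [map_one (mkS g), ← a2] at a1
    exact sub_right_injective (add_right_cancel a1)
  let K : Subgroup (Fr g) :=
    { carrier := {r | mkS g r = 1 ∧ γ [1, r] = γ [1, 1]}
      one_mem' := ⟨map_one _, rfl⟩
      mul_mem' := fun {r s} hr hs =>
        ⟨by rw [map_mul, hr.1, hs.1, mul_one], (h3 s hs.1 hs.2 r).trans hr.2⟩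
      inv_mem' := fun {r} hr => ⟨by rw [map_inv, hr.1, inv_one], by
        rw [← h3 r hr.1 hr.2 r⁻¹, inv_mul_cancel]⟩ }
  have hK : K.Normal := ⟨fun r hr x => by
    have b0 : mkS g (x * r * x⁻¹) = 1 := by
      rw [map_mul, map_mul, hr.1, mul_one, ← map_mul, mul_inv_cancel, map_one]
    refine ⟨b0, ?_⟩
    have a1 := h2 1 (x * r * x⁻¹) (x * r * x⁻¹ * x)
    have a2 := h2 1 1 x
    rw [map_mul (mkS g) _ x, h1, b0, inv_mul_cancel_right, h3 r hr.1 hr.2, one_mul,
      map_one ρ] at a1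
    rw [map_one (mkS g)] at a1 a2
    rw [← a2] at a1
    exact add_left_cancel a1⟩
  have h4 : ∀ r, mkS g r = 1 → γ [1, r] = γ [1, 1] := fun r hr =>
    (Subgroup.normalClosure_le_normal (N := K)
      (Set.singleton_subset_iff.2 ⟨mkS_bdw g, hv⟩) (PresentedGroup.mk_eq_one_iff.1 hr)).2
  obtain ⟨σ, hσ⟩ := (PresentedGroup.mk_surjective ({bdw g} : Set (Fr g))).hasRightInverse
  have h5 : ∀ x, γ [1, σ (mkS g x)] = γ [1, x] := fun x => by
    have b0 : mkS g (x⁻¹ * σ (mkS g x)) = 1 := by rw [map_mul, hσ, map_inv, inv_mul_cancel]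
    rw [← h3 _ b0 (h4 _ b0) x, mul_inv_cancel_left]
  have h6 : pl (mkS g) (of1 ρ fun y => γ [1, σ y]) = γ := by
    funext l
    match l with
    | [] => exact (lγ _ (by simp)).symm
    | [x] => exact (lγ _ (by simp)).symm
    | [x, y] =>
      change ρ (mkS g x) (γ [1, σ ((mkS g x)⁻¹ * mkS g y)]) = _
      rw [← map_inv, ← map_mul, h5, ← h1, mul_inv_cancel_left]
    | x :: y :: z :: l => exact (lγ _ (by simp)).symm
  refine ⟨_, of1_mem_Co ρ _, len_of1 ρ _, ?_, h6⟩
  rw [← h6, dd_pl] at hd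
  funext l
  have := congrFun hd (l.map σ)
  rwa [pl_apply, pl_apply, List.map_map, hσ.comp_eq_id, List.map_id] at this

omit [Module ℚ V] in
theorem co5_anti (a : ℤ → V) : ∃ S : ℤ → V, ∀ n, S n - S (n - 1) = a n := by
  refine ⟨fun n => ∑ k ∈ Finset.range n.toNat, a (k + 1) -
    ∑ k ∈ Finset.range (-n).toNat, a (-k), fun n => ?_⟩
  rcases le_or_gt n 0 with h | h
  · obtain ⟨m, rfl⟩ : ∃ m : ℕ, n = -m := ⟨(-n).toNat, by omega⟩
    simp only [show (-(m : ℤ)).toNat = 0 by omega, show (-(m : ℤ) - 1).toNat = 0 by omega,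
      show (- -(m : ℤ)).toNat = m by omega, show (-(-(m : ℤ) - 1)).toNat = m + 1 by omega,
      Finset.sum_range_succ]
    abel
  · obtain ⟨m, rfl⟩ : ∃ m : ℕ, n = m + 1 := ⟨(n - 1).toNat, by omega⟩
    simp only [show ((m : ℤ) + 1).toNat = m + 1 by omega, show ((m : ℤ) + 1 - 1).toNat = m by omega,
      show (-((m : ℤ) + 1)).toNat = 0 by omega, show (-((m : ℤ) + 1 - 1)).toNat = 0 by omega,
      Finset.sum_range_succ]
    abel

theorem co5_onto {G : Type} [Group G] (ρ : Representation ℚ G V) (h : G → ℚ)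
    (hm : ∀ x z, h (x * z) = h x + h z) {y : G} (hy : h y = 1) (W : G → V) :
    ∃ F, F - coind ρ y F = W := by
  choose S hS using fun b : G => co5_anti fun n : ℤ => ρ (y ^ n * b)⁻¹ (W (y ^ n * b))
  refine ⟨fun x => ρ x (S (y ^ (-⌊h x⌋) * x) ⌊h x⌋), funext fun x => ?_⟩
  have h1 : h (y⁻¹ * x) = h x - 1 := by
    have := hm y (y⁻¹ * x)
    rw [mul_inv_cancel_left, hy] at this
    linarith
  have h2 : y ^ (-(⌊h x⌋ - 1)) * (y⁻¹ * x) = y ^ (-⌊h x⌋) * x := by group
  have h3 : y ^ ⌊h x⌋ * (y ^ (-⌊h x⌋) * x) = x := by group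
  rw [Pi.sub_apply, coind_apply, h1, Int.floor_sub_one, h2, ← Module.End.mul_apply, ← map_mul,
    mul_inv_cancel_left, ← map_sub, hS, h3]
  simp

theorem co5_bdw {ρ : Representation ℚ (Fr (g + 1)) V} (v : V) :
    ∃ c, Cross ρ c ∧ c (bdw (g + 1)) = v - ρ (FreeGroup.of (0, false) * FreeGroup.of (0, true) *
      (FreeGroup.of (0, false))⁻¹) v := by
  classical
  obtain ⟨c, hc, hv⟩ := exists_cross ρ fun j => if j = (0, false) then v else 0
  refine ⟨c, hc, ?_⟩
  have hm : ∀ x y, c x = 0 → c y = 0 → c (x * y) = 0 := fun x y hx hy => by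
    rw [hc, hx, hy, map_zero, add_zero]
  have hi : ∀ x, c x = 0 → c x⁻¹ = 0 := fun x hx => by rw [hc.inv, hx, map_zero, neg_zero]
  have hb : ∀ i, c (FreeGroup.of (i, true)) = 0 := fun i => by simp [hv]
  have ha : ∀ i : Fin g, c (FreeGroup.of (i.succ, false)) = 0 := fun i => by simp [hv]
  rw [bdw, List.ofFn_succ, List.prod_cons, hc,
    List.prod_induction (fun x => c x = 0) hm hc.one, map_zero, add_zero, hc, hi _ (hb 0), map_zero,
    add_zero, hc, hc, hb, map_zero, add_zero, hc.inv, hv, if_pos rfl, map_neg, map_mul ρ _ _⁻¹,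
    sub_eq_add_neg]
  · rfl
  · intro x hx
    obtain ⟨i, rfl⟩ := (List.mem_ofFn' _ _).1 hx
    exact hm _ _ (hm _ _ (hm _ _ (ha i) (hb _)) (hi _ (ha i))) (hi _ (hb _))

theorem co5_two {ρ : Representation ℚ (Sg (g + 1)) V} {f : List (Sg (g + 1)) → Shift (Sg (g + 1)) V}
    (hf : f ∈ Zc (shift ρ)) (hl : Len 3 f) : f ∈ Bc (shift ρ) := by
  obtain ⟨γ, h1, h2, h3⟩ := exists_len_of_mem_Bc
    (free_vanish (n := 0) (pl_mem_Zc (mkS (g + 1)) hf) (hl.pl _)) (hl.pl _)
  obtain ⟨W, hW⟩ := Submodule.mkQ_surjective _ (γ [1, bdw (g + 1)] - γ [1, 1])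
  obtain ⟨F, hF⟩ := co5_onto ρ (fun x => ab x (0, true)) (fun x z => by rw [ab_mul]; rfl)
    (y := mkS (g + 1) (FreeGroup.of (0, false) * FreeGroup.of (0, true) *
      (FreeGroup.of (0, false))⁻¹))
    (by simp only [map_mul, map_inv, ab_mul, ab_inv, ab_of]; simp [bv]) W
  obtain ⟨c, hc, hb⟩ := co5_bdw (ρ := (shift ρ).comp (mkS (g + 1)))
    ((LinearMap.range (iot (Sg (g + 1)) V)).mkQ F)
  rw [MonoidHom.comp_apply, ← eqv_mkQ ρ, ← map_sub, hF, hW] at hb
  obtain ⟨β, b1, -, b2, -⟩ := surf_two hf hl (γ := γ - dif c) (sub_mem h1 hc.dif_mem.1)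
    (h2.sub (len_dif c)) (by rw [map_sub, dd_dif, sub_zero, h3])
    (by simp only [Pi.sub_apply, dif, hb, hc.one]; abel)
  exact ⟨β, b1, b2⟩

/-- Surface groups have cohomological dimension at most two. For `n = 0` show that every cocycle
of degree two with values in a shifted module is a coboundary: correct the primitive on the free
group by the crossed homomorphism with `c a₀ = v`, whose value on the boundary word is
`v - ρ (a₀ b₀ a₀⁻¹) v`, and `1 - y` is onto on a coinduced module when `y` has infinite order. -/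
theorem surf_vanish (hg : 1 ≤ g) {ρ : Representation ℚ (Sg g) V} {n : ℕ}
    {f : List (Sg g) → V} (hf : f ∈ Zc ρ) (hl : Len (n + 4) f) : f ∈ Bc ρ := by
  obtain ⟨g, rfl⟩ : ∃ k, g = k + 1 := ⟨g - 1, by omega⟩
  induction n generalizing V with
  | zero =>
    obtain ⟨ψ, h1, h2, h3, h4⟩ := co5_shift (n := 2) hf hl
    exact mem_Bc_of_shift (MonoidHom.id _) h1 h2 (co5_two h3 h4)
  | succ n ih =>
    obtain ⟨ψ, h1, h2, h3, h4⟩ := co5_shift (n := n + 3) hf hl
    exact mem_Bc_of_shift (MonoidHom.id _) h1 h2 (ih h3 h4)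

end Pool.Agent.FP
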