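import Pool.Agent.FP.Co5

/-! Continuation. -/

namespace Pool.Agent.FP

variable {α V W : Type} [AddCommGroup V] [Module ℚ V] [AddCommGroup W] [Module ℚ W] {g : ℕ}

/-- The unipotent representation attached to a bilinear map. -/
def co5b_rep (μ : Hq g →ₗ[ℚ] Hq g →ₗ[ℚ] W) : Representation ℚ (Fr g) (W × Hq g) where
  toFun x := LinearMap.id + LinearMap.inl ℚ W (Hq g) ∘ₗ μ (ab (mkS g x)) ∘ₗ
    LinearMap.snd ℚ W (Hq g)
  map_one' := by
    refine LinearMap.ext fun p => ?_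
    simp [ab_one]
  map_mul' x y := by
    refine LinearMap.ext fun p => ?_
    rw [map_mul, ab_mul]
    refine Prod.ext ?_ ?_
    · simp
      abel
    · simp

theorem co5b_rep_apply (μ : Hq g →ₗ[ℚ] Hq g →ₗ[ℚ] W) (x : Fr g) (p : W × Hq g) :
    co5b_rep μ x p = (p.1 + μ (ab (mkS g x)) p.2, p.2) := by
  refine Prod.ext ?_ ?_ <;> simp [co5b_rep]

/-- The quadratic part of the Magnus expansion along a bilinear map. -/
theorem exists_magnus (μ : Hq g →ₗ[ℚ] Hq g →ₗ[ℚ] W) : ∃ θ : Fr g → W,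
    (∀ x y, θ (x * y) = θ x + θ y + μ (ab (mkS g x)) (ab (mkS g y))) ∧
      ∀ j, θ (FreeGroup.of j) = 0 := by
  obtain ⟨c, hc, hv⟩ := exists_cross (co5b_rep μ) fun j => (0, bv j)
  have h2 : (fun x => (c x).2) = fun x => ab (mkS g x) := by
    refine Cross.ext_free (ρ := triv (Fr g) (Hq g)) (fun x y => ?_) (fun x y => ?_) fun j => ?_
    · simp [hc x y, co5b_rep_apply]
    · simp [ab_mul]
    · rw [hv, ab_of]
  refine ⟨fun x => (c x).1, fun x y => ?_, fun j => by simp [hv]⟩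
  have h3 : (c y).2 = ab (mkS g y) := congrFun h2 y
  simp only [hc x y, co5b_rep_apply, Prod.fst_add, h3, add_assoc]

theorem co5b_one {μ : Hq g →ₗ[ℚ] Hq g →ₗ[ℚ] W} {θ : Fr g → W}
    (hθ : ∀ x y, θ (x * y) = θ x + θ y + μ (ab (mkS g x)) (ab (mkS g y))) : θ 1 = 0 := by
  have h := hθ 1 1
  simpa [ab_one] using h

theorem co5b_inv {μ : Hq g →ₗ[ℚ] Hq g →ₗ[ℚ] W} {θ : Fr g → W}
    (hθ : ∀ x y, θ (x * y) = θ x + θ y + μ (ab (mkS g x)) (ab (mkS g y))) (x : Fr g) :
    θ x⁻¹ = μ (ab (mkS g x)) (ab (mkS g x)) - θ x := by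
  have h := hθ x x⁻¹
  rw [mul_inv_cancel, co5b_one hθ, map_inv, ab_inv, map_neg] at h
  rw [eq_sub_iff_add_eq, ← sub_eq_zero, h]
  abel

theorem co5b_prod {μ : Hq g →ₗ[ℚ] Hq g →ₗ[ℚ] W} {θ : Fr g → W}
    (hθ : ∀ x y, θ (x * y) = θ x + θ y + μ (ab (mkS g x)) (ab (mkS g y))) (l : List (Fr g))
    (hl : ∀ x ∈ l, ab (mkS g x) = 0) : θ l.prod = (l.map θ).sum := by
  induction l with
  | nil => simpa using co5b_one hθ
  | cons x l ih =>
    rw [List.prod_cons, hθ, hl x List.mem_cons_self, ih fun y hy => hl y (List.mem_cons_of_mem _ hy)]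
    simp

theorem magnus_bdw {μ : Hq g →ₗ[ℚ] Hq g →ₗ[ℚ] W} {θ : Fr g → W}
    (hθ : ∀ x y, θ (x * y) = θ x + θ y + μ (ab (mkS g x)) (ab (mkS g y))) :
    θ (bdw g) = cas μ := by
  rw [bdw, co5b_prod hθ, List.map_ofFn, List.sum_ofFn, cas]
  · refine Finset.sum_congr rfl fun i _ => ?_
    simp only [Function.comp, hθ, co5b_inv hθ, map_mul, map_inv, ab_mul, ab_inv, ab_of, map_add,
      map_neg, LinearMap.add_apply, LinearMap.neg_apply]
    abel
  · intro x hx
    obtain ⟨i, rfl⟩ := List.mem_ofFn.1 hx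
    simp only [map_mul, map_inv, ab_mul, ab_inv]
    abel

theorem co5b_mem (μ : Hq g →ₗ[ℚ] Hq g →ₗ[ℚ] W) :
    cupm μ (dif (ab : Sg g → Hq g)) (dif ab) ∈ Zc (triv (Sg g) W) :=
  cupm_mem_Zc (fun _ _ _ => rfl) cross_ab.dif_mem cross_ab.dif_mem

theorem co5b_len (μ : Hq g →ₗ[ℚ] Hq g →ₗ[ℚ] W) :
    Len 3 (cupm μ (dif (ab : Sg g → Hq g)) (dif ab)) :=
  Len.cupm (a := 1) (b := 1) (len_dif _) (len_dif _) μ

theorem co5b_val (μ : Hq g →ₗ[ℚ] Hq g →ₗ[ℚ] W) (x y : Sg g) :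
    cupm μ (dif (ab : Sg g → Hq g)) (dif ab) [1, x, x * y] = μ (ab x) (ab y) := by
  rw [cupm_triple μ (len_dif _) (len_dif _)]
  simp [dif, ab_mul, ab_one]

/-- A primitive on the free group. -/
theorem co5b_prim (μ : Hq g →ₗ[ℚ] Hq g →ₗ[ℚ] W) : ∃ γ ∈ Co (triv (Fr g) W), Len 2 γ ∧
    dd γ = pl (mkS g) (cupm μ (dif (ab : Sg g → Hq g)) (dif ab)) ∧ γ [1, bdw g] = -cas μ ∧
      γ [1, 1] = 0 := by
  obtain ⟨θ, hθ, -⟩ := exists_magnus μ
  refine ⟨of1 (triv (Fr g) W) fun x => -θ x, of1_mem_Co _ _, len_of1 _ _, ?_, ?_, ?_⟩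
  · refine ext_len_three (ρ := triv (Fr g) W) (dd_mem_Co (of1_mem_Co _ _))
      (pl_mem_Co (mkS g) (co5b_mem μ).1) (len_of1 _ _).dd ((co5b_len μ).pl _) fun x y => ?_
    rw [dd_of1, pl_apply]
    simp only [List.map_cons, List.map_nil, map_one, map_mul, co5b_val]
    simp [hθ]
    abel
  · simp [of1, magnus_bdw hθ]
  · simp [of1, co5b_one hθ]

/-- The cup product of the tautological class with itself is a coboundary exactly when the
Casimir value vanishes. -/
theorem cup_ab_mem_Bc_iff (μ : Hq g →ₗ[ℚ] Hq g →ₗ[ℚ] W) :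
    cupm μ (dif (ab : Sg g → Hq g)) (dif ab) ∈ Bc (triv (Sg g) W) ↔ cas μ = 0 := by
  constructor
  · rintro ⟨h, hh, hd⟩
    have hθ : ∀ x y : Fr g, -h [1, mkS g (x * y)] = -h [1, mkS g x] + -h [1, mkS g y] +
        μ (ab (mkS g x)) (ab (mkS g y)) := fun x y => by
      have h1 := hh.2 (mkS g x) [1, mkS g y]
      rw [← co5b_val, ← hd, dd_triple, map_mul]
      simp only [List.map_cons, List.map_nil, mul_one, Representation.trivial_apply] at h1
      rw [h1]
      abel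
    have h1 := magnus_bdw (θ := fun x => -h [1, mkS g x]) hθ
    have h2 := co5b_one (θ := fun x => -h [1, mkS g x]) hθ
    simp only [mkS_bdw, map_one] at h1 h2
    rw [← h1, h2]
  · intro h0
    obtain ⟨γ, h1, h2, h3, h4, h5⟩ := co5b_prim μ
    obtain ⟨β, hβ, -, hd, -⟩ := surf_two (co5b_mem μ) (co5b_len μ) h1 h2 h3
      (by rw [h4, h5, h0, neg_zero])
    exact ⟨β, hβ, hd⟩

theorem co5b_om_true (v : Hq g) (i : Fin g) : om v (bv (i, true)) = v (i, false) := by
  simp [om, bv, Pi.single_apply]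

theorem co5b_om_false (v : Hq g) (i : Fin g) : om v (bv (i, false)) = -v (i, true) := by
  simp [om, bv, Pi.single_apply]

theorem co5b_swap (u v : Hq g) : om u v = -om v u := by
  rw [om, om, ← Finset.sum_neg_distrib]
  exact Finset.sum_congr rfl fun i _ => by ring

theorem cas_omL_smul (w : W) :
    cas ((omL g).compr₂ (LinearMap.toSpanSingleton ℚ W w)) = (2 * g : ℚ) • w := by
  have h : ∀ i : Fin g, ((omL g).compr₂ (LinearMap.toSpanSingleton ℚ W w)) (bv (i, false))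
      (bv (i, true)) - ((omL g).compr₂ (LinearMap.toSpanSingleton ℚ W w)) (bv (i, true))
      (bv (i, false)) = (2 : ℚ) • w := fun i => by
    simp only [LinearMap.compr₂_apply, omL_apply, co5b_om_true, co5b_om_false,
      LinearMap.toSpanSingleton_apply]
    simp [bv, two_smul]
  rw [cas, Finset.sum_congr rfl fun i _ => h i, Finset.sum_const, Finset.card_univ,
    Fintype.card_fin, ← Nat.cast_smul_eq_nsmul ℚ, smul_smul, mul_comm]

/-- Every cocycle of degree two with trivial coefficients is a multiple of the fibre class. -/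
theorem surf_two_triv (hg : 1 ≤ g) {f : List (Sg g) → W} (hf : f ∈ Zc (triv (Sg g) W))
    (hl : Len 3 f) : ∃ w : W, f - cupm ((omL g).compr₂ (LinearMap.toSpanSingleton ℚ W w))
      (dif (ab : Sg g → Hq g)) (dif ab) ∈ Bc (triv (Sg g) W) := by
  obtain ⟨γ, h1, h2, h3⟩ := exists_len_of_mem_Bc (n := 2)
    (free_vanish (n := 0) (pl_mem_Zc (mkS g) hf) (hl.pl _)) (hl.pl _)
  refine ⟨(1 / (2 * g) : ℚ) • (γ [1, 1] - γ [1, bdw g]), ?_⟩
  obtain ⟨γ', k1, k2, k3, k4, k5⟩ := co5b_prim ((omL g).compr₂ (LinearMap.toSpanSingleton ℚ W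
    ((1 / (2 * g) : ℚ) • (γ [1, 1] - γ [1, bdw g]))))
  have hg' : (2 * g : ℚ) ≠ 0 := by positivity
  rw [cas_omL_smul, smul_smul, mul_one_div_cancel hg', one_smul] at k4
  obtain ⟨β, hβ, -, hd, -⟩ := surf_two (sub_mem hf (co5b_mem _)) (hl.sub (co5b_len _))
    (sub_mem h1 k1) (h2.sub k2) (by rw [map_sub, map_sub, h3, k3]) (by
      rw [Pi.sub_apply, Pi.sub_apply, k4, k5]
      abel)
  exact ⟨β, hβ, hd⟩

/-- Expansion in the symplectic basis. -/
theorem sum_om_bv (v : Hq g) :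
    ∑ i : Fin g, (om v (bv (i, true)) • bv (i, false) - om v (bv (i, false)) • bv (i, true)) = v := by
  funext ⟨j, b⟩
  simp only [co5b_om_true, co5b_om_false, Finset.sum_apply]
  cases b <;> simp [bv, Pi.single_apply]

theorem co5b_cas (μ : Hq g →ₗ[ℚ] Hq g →ₗ[ℚ] W) (a b : Fin g → Hq g)
    (H : ∀ v, ∑ i : Fin g, (om v (b i) • a i - om v (a i) • b i) = v) :
    ∑ i : Fin g, (μ (a i) (b i) - μ (b i) (a i)) = cas μ := by
  have h1 : ∀ p q, μ p q = ∑ j : Fin g, (om q (bv (j, true)) • μ p (bv (j, false)) -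
      om q (bv (j, false)) • μ p (bv (j, true))) := fun p q => by
    conv_lhs => rw [← sum_om_bv q]
    simp only [map_sum, map_sub, map_smul]
  have h2 : ∀ p q, μ p q = ∑ i : Fin g, (om p (b i) • μ (a i) q - om p (a i) • μ (b i) q) :=
    fun p q => by
      conv_lhs => rw [← H p]
      simp only [map_sum, map_sub, map_smul, LinearMap.sum_apply, LinearMap.sub_apply,
        LinearMap.smul_apply]
  rw [cas, Finset.sum_congr rfl fun i _ => by rw [h1 (a i), h1 (b i), ← Finset.sum_sub_distrib],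
    Finset.sum_comm]
  refine Finset.sum_congr rfl fun j _ => ?_
  rw [h2 (bv (j, false)), h2 (bv (j, true)), ← Finset.sum_sub_distrib]
  refine Finset.sum_congr rfl fun i _ => ?_
  rw [co5b_swap (b i), co5b_swap (b i), co5b_swap (a i), co5b_swap (a i)]
  module

/-- Invariance of the Casimir element. -/
theorem cas_comp (μ : Hq g →ₗ[ℚ] Hq g →ₗ[ℚ] W) {φ ψ : Hq g →ₗ[ℚ] Hq g} (hφ : ∀ v, φ (ψ v) = v)
    (hom : ∀ u v, om (φ u) (φ v) = om u v) : cas (μ.compl₁₂ φ φ) = cas μ := by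
  refine co5b_cas μ (fun i => φ (bv (i, false))) (fun i => φ (bv (i, true))) fun v => ?_
  have h := congrArg φ (sum_om_bv (ψ v))
  simp only [map_sum, map_sub, map_smul, ← hom (ψ v), hφ] at h
  exact h

/-- The converse: invariance of all Casimir values gives invariance of the form. Take
`μ p q = om (φ u) q • p`. -/
theorem om_of_cas {φ : Hq g →ₗ[ℚ] Hq g} (hφ : Function.Injective φ)
    (h : ∀ μ : Hq g →ₗ[ℚ] Hq g →ₗ[ℚ] Hq g, cas (μ.compl₁₂ φ φ) = cas μ) (u v : Hq g) :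
    om (φ u) (φ v) = om u v := by
  have h1 := h (LinearMap.smulRightₗ (omL g (φ u)))
  simp only [cas, LinearMap.compl₁₂_apply, LinearMap.smulRightₗ_apply, LinearMap.smulRight_apply,
    omL_apply] at h1
  rw [sum_om_bv] at h1
  have h2 : ∑ i : Fin g, (om (φ u) (φ (bv (i, true))) • bv (i, false) -
      om (φ u) (φ (bv (i, false))) • bv (i, true)) = u := by
    apply hφ
    simpa only [map_sum, map_sub, map_smul] using h1
  have h3 : ∀ j, om (φ u) (φ (bv j)) = om u (bv j) := fun ⟨j, b⟩ => by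
    have h4 := congrFun h2 (j, !b)
    rw [Finset.sum_apply] at h4
    cases b
    · rw [co5b_om_false, ← neg_eq_iff_eq_neg]
      simpa [bv, Pi.single_apply] using h4
    · rw [co5b_om_true]
      simpa [bv, Pi.single_apply] using h4
  have h5 := congrArg (omL g (φ u) ∘ₗ φ) (sum_om_bv v)
  have h6 := congrArg (omL g u) (sum_om_bv v)
  simp only [map_sum, map_sub, map_smul, LinearMap.comp_apply, omL_apply, h3] at h5 h6
  rw [← h5, ← h6]

end Pool.Agent.FP
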