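import Pool.Agent.FP.Defs

/-! Homogeneous cochains with coefficients, as functions on lists. -/

namespace Pool.Agent.FP

variable {X Y G G' U V W : Type} [AddCommGroup U] [Module ℚ U] [AddCommGroup V] [Module ℚ V]
  [AddCommGroup W] [Module ℚ W]

/-- The coboundary. -/
def dd : (List X → V) →ₗ[ℚ] (List X → V) where
  toFun f l := ∑ i ∈ Finset.range l.length, (-1 : ℚ) ^ i • f (l.eraseIdx i)
  map_add' f h := by ext l; simp [Finset.sum_add_distrib]
  map_smul' c f := by ext l; simp [Finset.smul_sum, smul_comm c]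

/-- The cup product along a bilinear map. -/
def cupm (μ : U →ₗ[ℚ] V →ₗ[ℚ] W) : (List X → U) →ₗ[ℚ] (List X → V) →ₗ[ℚ] (List X → W) :=
  LinearMap.mk₂ ℚ
    (fun f h l => ∑ i ∈ Finset.range l.length, μ (f (l.take (i + 1))) (h (l.drop i)))
    (fun f f' h => by ext l; simp [Finset.sum_add_distrib])
    (fun c f h => by ext l; simp [Finset.smul_sum])
    (fun f h h' => by ext l; simp [Finset.sum_add_distrib])
    (fun c f h => by ext l; simp [Finset.smul_sum])

/-- The sign `(-1) ^ degree`. -/
def sg : (List X → V) →ₗ[ℚ] (List X → V) where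
  toFun f l := (-1 : ℚ) ^ (l.length + 1) • f l
  map_add' f h := by ext l; simp
  map_smul' c f := by ext l; simp [smul_comm c]

/-- Pull-back along a map. -/
def pl (p : X → Y) : (List Y → V) →ₗ[ℚ] (List X → V) := LinearMap.funLeft ℚ V (List.map p)

/-- Change of coefficients. -/
def cm (φ : V →ₗ[ℚ] W) : (List X → V) →ₗ[ℚ] (List X → W) := φ.compLeft (List X)

/-- The constant cochain of degree zero. -/
def cst (v : V) (l : List X) : V := if l.length = 1 then v else 0

/-- The component on lists of length `n`. -/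
def comp (n : ℕ) : (List X → V) →ₗ[ℚ] (List X → V) where
  toFun f l := if l.length = n then f l else 0
  map_add' f h := by ext l; by_cases hl : l.length = n <;> simp [hl]
  map_smul' c f := by ext l; by_cases hl : l.length = n <;> simp [hl]

/-- Supported on lists of length `n`. -/
def Len (n : ℕ) (f : List X → V) : Prop := ∀ l, l.length ≠ n → f l = 0

/-- Signed reversal. -/
def rv : (List X → V) →ₗ[ℚ] (List X → V) where
  toFun f l := (-1 : ℚ) ^ (l.length.choose 2) • f l.reverse
  map_add' f h := by ext l; simp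
  map_smul' c f := by ext l; simp [smul_comm c]

/-- The cone from a vertex. -/
def cone (x : X) (f : List X → V) (l : List X) : V := if l = [] then 0 else f (x :: l)

/-- The prism operator of two maps. -/
def prism (r s : X → Y) : (List Y → V) →ₗ[ℚ] (List X → V) where
  toFun f l := ∑ i ∈ Finset.range l.length,
    (-1 : ℚ) ^ i • f ((l.take (i + 1)).map r ++ (l.drop i).map s)
  map_add' f h := by ext l; simp [Finset.sum_add_distrib]
  map_smul' c f := by ext l; simp [Finset.smul_sum, smul_comm c]

/-- The cochain of degree one given by differences of a function. -/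
def dif (k : X → V) : List X → V
  | [x, y] => k y - k x
  | _ => 0

@[simp] theorem pl_apply (p : X → Y) (f : List Y → V) (l : List X) : pl p f l = f (l.map p) := rfl

@[simp] theorem cm_apply (φ : V →ₗ[ℚ] W) (f : List X → V) (l : List X) :
    cm φ f l = φ (f l) := rfl

theorem dd_apply (f : List X → V) (l : List X) :
    dd f l = ∑ i ∈ Finset.range l.length, (-1 : ℚ) ^ i • f (l.eraseIdx i) := rfl

theorem cupm_apply (μ : U →ₗ[ℚ] V →ₗ[ℚ] W) (f : List X → U) (h : List X → V) (l : List X) :
    cupm μ f h l = ∑ i ∈ Finset.range l.length, μ (f (l.take (i + 1))) (h (l.drop i)) := rfl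

theorem sg_apply (f : List X → V) (l : List X) :
    sg f l = (-1 : ℚ) ^ (l.length + 1) • f l := rfl

theorem comp_apply (n : ℕ) (f : List X → V) (l : List X) :
    comp n f l = if l.length = n then f l else 0 := rfl

theorem rv_apply (f : List X → V) (l : List X) :
    rv f l = (-1 : ℚ) ^ (l.length.choose 2) • f l.reverse := rfl

theorem prism_apply (r s : X → Y) (f : List Y → V) (l : List X) :
    prism r s f l = ∑ i ∈ Finset.range l.length,
      (-1 : ℚ) ^ i • f ((l.take (i + 1)).map r ++ (l.drop i).map s) := rfl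

section Grp
variable [Group G] [Group G']

/-- Equivariant cochains. -/
def Co (ρ : Representation ℚ G V) : Submodule ℚ (List G → V) where
  carrier := {f | f [] = 0 ∧ ∀ (g : G) (l : List G), f (l.map (g * ·)) = ρ g (f l)}
  add_mem' := fun {f h} hf hh => ⟨by simp [hf.1, hh.1], fun g l => by simp [hf.2, hh.2]⟩
  zero_mem' := ⟨rfl, fun g l => by simp⟩
  smul_mem' := fun c f hf => ⟨by simp [hf.1], fun g l => by simp [hf.2]⟩

/-- Cocycles. -/
def Zc (ρ : Representation ℚ G V) : Submodule ℚ (List G → V) := Co ρ ⊓ LinearMap.ker dd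

/-- Coboundaries. -/
def Bc (ρ : Representation ℚ G V) : Submodule ℚ (List G → V) := (Co ρ).map dd

/-- The trivial representation. -/
abbrev triv (G V : Type) [Group G] [AddCommGroup V] [Module ℚ V] : Representation ℚ G V :=
  Representation.trivial ℚ G V

/-- Equivariant linear maps. -/
def Eqv (ρ : Representation ℚ G V) (ρ' : Representation ℚ G W) (φ : V →ₗ[ℚ] W) : Prop :=
  ∀ g v, φ (ρ g v) = ρ' g (φ v)

/-- Equivariant bilinear maps. -/
def Eqv₂ (ρU : Representation ℚ G U) (ρV : Representation ℚ G V) (ρW : Representation ℚ G W)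
    (μ : U →ₗ[ℚ] V →ₗ[ℚ] W) : Prop :=
  ∀ g u v, μ (ρU g u) (ρV g v) = ρW g (μ u v)

/-- Crossed homomorphisms. -/
def Cross (ρ : Representation ℚ G V) (c : G → V) : Prop := ∀ x y, c (x * y) = c x + ρ x (c y)

/-- The homogeneous form of an inhomogeneous cochain of degree one. -/
def of1 (ρ : Representation ℚ G V) (F : G → V) : List G → V
  | [x, y] => ρ x (F (x⁻¹ * y))
  | _ => 0

/-- The coinduced module. -/
def coind (ρ : Representation ℚ G V) : Representation ℚ G (G → V) where
  toFun g := (ρ g).compLeft G ∘ₗ LinearMap.funLeft ℚ V (g⁻¹ * ·)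
  map_one' := by ext; simp [LinearMap.funLeft]
  map_mul' g h := by ext; simp [LinearMap.funLeft, mul_assoc]

theorem coind_apply (ρ : Representation ℚ G V) (g : G) (F : G → V) (x : G) :
    coind ρ g F x = ρ g (F (g⁻¹ * x)) := rfl

/-- The constant functions. -/
def iot (G V : Type) [AddCommGroup V] [Module ℚ V] : V →ₗ[ℚ] (G → V) :=
  LinearMap.pi fun _ => LinearMap.id

/-- The quotient of the coinduced module by the constants. -/
abbrev Shift (G V : Type) [AddCommGroup V] [Module ℚ V] : Type :=
  (G → V) ⧸ LinearMap.range (iot G V)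

/-- The action on the quotient. -/
def shift (ρ : Representation ℚ G V) : Representation ℚ G (Shift G V) :=
  (coind ρ).quotient _ (by
    rintro g _ ⟨v, rfl⟩
    exact ⟨ρ g v, rfl⟩)

/-- The step `n - 1` of the Hochschild and Serre filtration in each degree `n`. -/
def FilV (p : G' →* G) (ρ : Representation ℚ G V) : Submodule ℚ (List G' → V) where
  carrier := {f | f ∈ Co (ρ.comp p) ∧
    ∀ (x y : G') (l l' : List G'), l.map p = l'.map p → f (x :: y :: l) = f (x :: y :: l')}
  add_mem' := fun {f h} hf hh => ⟨add_mem hf.1 hh.1, fun x y l l' e => by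
    simp [hf.2 x y l l' e, hh.2 x y l l' e]⟩
  zero_mem' := ⟨zero_mem _, fun _ _ _ _ _ => rfl⟩
  smul_mem' := fun c f hf => ⟨Submodule.smul_mem _ c hf.1, fun x y l l' e => by
    simp [hf.2 x y l l' e]⟩

/-- `y` is the top component of `f` with respect to the fibre class `η`. -/
def TopW (p : G' →* G) (ρ : Representation ℚ G V) (η : List G' → ℚ) (f : List G' → V)
    (y : List G → V) : Prop :=
  ∃ h ∈ FilV p ρ, f - cupm (LinearMap.lsmul ℚ V) η (pl p y) - h ∈ Bc (ρ.comp p)

end Grp

/-- Evaluation of a linear map. -/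
def evB (U V : Type) [AddCommGroup U] [Module ℚ U] [AddCommGroup V] [Module ℚ V] :
    U →ₗ[ℚ] (U →ₗ[ℚ] V) →ₗ[ℚ] V := LinearMap.applyₗ

@[simp] theorem evB_apply (u : U) (T : U →ₗ[ℚ] V) : evB U V u T = T u := rfl

/-- The intersection form as a bilinear map. -/
def omL (g : ℕ) : Hq g →ₗ[ℚ] Hq g →ₗ[ℚ] ℚ :=
  LinearMap.mk₂ ℚ om
    (fun u u' v => by simp only [om, Pi.add_apply, ← Finset.sum_add_distrib]; congr; ext; ring)
    (fun c u v => by simp only [om, Pi.smul_apply, smul_eq_mul, Finset.mul_sum]; congr; ext; ring)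
    (fun u v v' => by simp only [om, Pi.add_apply, ← Finset.sum_add_distrib]; congr; ext; ring)
    (fun c u v => by simp only [om, Pi.smul_apply, smul_eq_mul, Finset.mul_sum]; congr; ext; ring)

@[simp] theorem omL_apply {g : ℕ} (u v : Hq g) : omL g u v = om u v := rfl

/-- The basis vectors. -/
def bv {g : ℕ} (j : Fin g × Bool) : Hq g := Pi.single j 1

/-- The Casimir element evaluated on a bilinear map. -/
def cas {g : ℕ} (μ : Hq g →ₗ[ℚ] Hq g →ₗ[ℚ] W) : W :=
  ∑ i : Fin g, (μ (bv (i, false)) (bv (i, true)) - μ (bv (i, true)) (bv (i, false)))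

/-- An extension with kernel the surface group, with a crossed homomorphism extending the
abelianisation. -/
structure Ext (g : ℕ) (E B : Type) [Group E] [Group B] where
  p : E →* B
  j : Sg g →* E
  ρH : Representation ℚ B (Hq g)
  k : E → Hq g
  p_surj : Function.Surjective p
  j_inj : Function.Injective j
  ker_p : ∀ x, p x = 1 ↔ x ∈ j.range
  ρH_om : ∀ b u v, om (ρH b u) (ρH b v) = om u v
  k_cross : Cross (ρH.comp p) k
  k_j : ∀ γ, k (j γ) = ab γ

/-- The normalised fibre class. -/
def Ext.eta {g : ℕ} {E B : Type} [Group E] [Group B] (X : Ext g E B) : List E → ℚ :=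
  (1 / (2 * g) : ℚ) • cupm (omL g) (dif X.k) (dif X.k)

/-- Integration along the fibre, as a relation between cochains. -/
abbrev Ext.Top {g : ℕ} {E B : Type} [Group E] [Group B] (X : Ext g E B)
    (ρ : Representation ℚ B V) (f : List E → V) (y : List B → V) : Prop :=
  TopW X.p ρ X.eta f y

end Pool.Agent.FP
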