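import Mathlib

/-!
Rational group cohomology through homogeneous cochains, as functions on lists.
-/

namespace Pool.Agent.FP

section Cochains
variable {G E B : Type}

/-- A homogeneous rational cochain: its degree `n` part is its restriction to lists of
length `n + 1`. -/
def Inv [Group G] (f : List G → ℚ) : Prop :=
  f [] = 0 ∧ ∀ (g : G) (l : List G), f (l.map (g * ·)) = f l

/-- The coboundary. -/
def cob (f : List G → ℚ) (l : List G) : ℚ :=
  ∑ i ∈ Finset.range l.length, (-1) ^ i * f (l.eraseIdx i)

/-- The cup product (Alexander and Whitney). -/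
def cup (f h : List G → ℚ) (l : List G) : ℚ :=
  ∑ i ∈ Finset.range l.length, f (l.take (i + 1)) * h (l.drop i)

/-- The unit cocycle. -/
def one (l : List G) : ℚ := if l.length = 1 then 1 else 0

/-- Cup powers. -/
def cpow (f : List G → ℚ) : ℕ → List G → ℚ
  | 0 => one
  | n + 1 => cup f (cpow f n)

/-- Pull-back along a map of groups. -/
def pull (p : E → B) (f : List B → ℚ) (l : List E) : ℚ := f (l.map p)

/-- Coboundaries. -/
def Bd [Group G] (f : List G → ℚ) : Prop := ∃ h, Inv h ∧ f = cob h

/-- Cocycles of degree `n`. -/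
def Coc [Group G] (n : ℕ) (f : List G → ℚ) : Prop :=
  Inv f ∧ cob f = 0 ∧ ∀ l, l.length ≠ n + 1 → f l = 0

/-- Cochains on `E` whose degree `n` part lies in the step `n - 1` of the Hochschild and Serre
filtration of `p : E → B`. -/
def Fil [Group E] (p : E → B) (f : List E → ℚ) : Prop :=
  Inv f ∧ ∀ (x y : E) (l l' : List E), l.map p = l'.map p → f (x :: y :: l) = f (x :: y :: l')

/-- Integration along the fibre of `p`, divided by the integral of the fibre class `η`:
`f` is cohomologous to `η ∪ p^* y` modulo the next step of the filtration. -/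
def IsPush [Group E] (p : E → B) (η f : List E → ℚ) (y : List B → ℚ) : Prop :=
  ∃ h, Fil p h ∧ Bd (f - cup η (pull p y) - h)

/-- Monomials of weight `k` in a family `S` of weighted generators. -/
inductive Mon (S : ℕ → (List G → ℚ) → Prop) : ℕ → (List G → ℚ) → Prop
  | nil : Mon S 0 one
  | mul {m k : ℕ} {s f : List G → ℚ} : S m s → Mon S k f → Mon S (m + k) (cup s f)

/-- The weight `k` part of the ring generated by `S`, at the level of cocycles. -/
def Rk (S : ℕ → (List G → ℚ) → Prop) (k : ℕ) : Submodule ℚ (List G → ℚ) :=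
  Submodule.span ℚ {f | Mon S k f}

/-- The subring of `H^*(G; ℚ)` generated by the classes of `S` is Gorenstein with socle in
weight `n`. -/
def Gor [Group G] (S : ℕ → (List G → ℚ) → Prop) (n : ℕ) : Prop :=
  (∀ k, n < k → ∀ f ∈ Rk S k, Bd f) ∧
  (∃ s ∈ Rk S n, ¬ Bd s ∧ ∀ f ∈ Rk S n, ∃ c : ℚ, Bd (f - c • s)) ∧
  ∀ k, k ≤ n → ∀ f ∈ Rk S k, (∀ h ∈ Rk S (n - k), Bd (cup f h)) → Bd f

end Cochains

end Pool.Agent.FP
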