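import Pool.Agent.FP.Coch

/-!
Tautological rings of the moduli spaces of curves in rational cohomology, written with group
cohomology of mapping class groups: the working form of the definitions.
-/

namespace Pool.Agent.FP


/-- The free group on `a i = of (i, false)` and `b i = of (i, true)`. -/
abbrev Fr (g : ℕ) : Type := FreeGroup (Fin g × Bool)

/-- The boundary word, the product of the commutators of `a i` and `b i`. -/
def bdw (g : ℕ) : Fr g :=
  (List.ofFn fun i : Fin g => (FreeGroup.of (i, false) : Fr g) * FreeGroup.of (i, true) *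
    (FreeGroup.of (i, false))⁻¹ * (FreeGroup.of (i, true))⁻¹).prod

/-- The surface group. -/
abbrev Sg (g : ℕ) : Type := PresentedGroup ({bdw g} : Set (Fr g))

/-- Rational first homology. -/
abbrev Hq (g : ℕ) : Type := Fin g × Bool → ℚ

/-- Abelianisation of the surface group. -/
def abM (g : ℕ) : Sg g →* Multiplicative (Hq g) :=
  PresentedGroup.toGroup (f := fun j => Multiplicative.ofAdd (Pi.single j (1 : ℚ))) (by
    rintro r rfl
    simp [bdw, map_list_prod, List.map_ofFn, Function.comp_def])

/-- The homology class of an element of the surface group. -/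
def ab {g : ℕ} (x : Sg g) : Hq g := Multiplicative.toAdd (abM g x)

/-- The intersection form. -/
def om {g : ℕ} (u v : Hq g) : ℚ :=
  ∑ i : Fin g, (u (i, false) * v (i, true) - u (i, true) * v (i, false))

/-- Orientation preserving automorphisms of the surface group. -/
def Aut (g : ℕ) : Subgroup (MulAut (Sg g)) where
  carrier := {φ | ∀ x y, om (ab (φ x)) (ab (φ y)) = om (ab x) (ab y)}
  one_mem' := fun _ _ => rfl
  mul_mem' := fun {φ ψ} hφ hψ x y => (hφ (ψ x) (ψ y)).trans (hψ x y)
  inv_mem' := fun {φ} hφ x y => by simpa using (hφ (φ⁻¹ x) (φ⁻¹ y)).symm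

/-- Inner automorphisms. -/
def inn {g : ℕ} (x : Sg g) : Aut g :=
  ⟨MulAut.conj x, fun y z => by simp [ab]⟩

/-- The mapping class group of the closed surface, `Out⁺`. -/
abbrev Out (g : ℕ) : Type := Aut g ⧸ Subgroup.normalClosure (Set.range (inn (g := g)))

/-- The mapping class group of the surface with one boundary circle. -/
abbrev Mb (g : ℕ) : Type := MulAction.stabilizer (MulAut (Fr g)) (bdw g)

/-- The boundary twist. -/
def tw (g : ℕ) : Mb g := ⟨MulAut.conj (bdw g), by simp [MulAction.mem_stabilizer_iff]⟩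

/-- The mapping class group of the surface with one marked point. -/
abbrev Gam (g : ℕ) : Type := Mb g ⧸ Subgroup.normalClosure ({tw g} : Set (Mb g))

/-- `ρ` is the action on the surface group induced by the action on the free group. -/
def IsRho {g : ℕ} (ρ : Gam g →* Aut g) : Prop :=
  ∀ (φ : Mb g) (x : Fr g), (ρ (φ : Gam g) : MulAut (Sg g)) (PresentedGroup.mk _ x) =
    PresentedGroup.mk _ ((φ : MulAut (Fr g)) x)

/-- The group of the surface bundle with section over `BQ`. -/
abbrev Sd {g : ℕ} {Q : Type} [Group Q] (r : Q →* Aut g) : Type :=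
  Sg g ⋊[(Aut g).subtype.comp r] Q

/-- The cocycle of the intersection form on a surface bundle with section. -/
def th {g : ℕ} {Q : Type} [Group Q] (r : Q →* Aut g) : List (Sd r) → ℚ
  | [x, y, z] => om (ab y.left - ab x.left) (ab z.left - ab y.left)
  | _ => 0

/-- The group of the configurations of two distinct points, the first with a tangent direction. -/
abbrev Cpl (g : ℕ) : Type :=
  Fr g ⋊[(MulAction.stabilizer (MulAut (Fr g)) (bdw g)).subtype] Mb g

/-- The Euler class `e` of the vertical tangent bundle, the classes `κ m = ∫ e ^ (m + 1)`, and the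
action `ρ`. Here `∫ θ = 2 g`, `∫ e = 2 - 2 g`, and `∫ θ ^ 2 = κ 1 - 4 g e`. The class `e` is the
Euler class of the central extension `Mb g → Gam g`, and `e₁ + e₂ + θ` dies off the diagonal. -/
structure Taut (g : ℕ) where
  e : List (Aut g) → ℚ
  κ : ℕ → List (Out g) → ℚ
  ρ : Gam g →* Aut g
  e_coc : Coc 2 e
  κ_coc : ∀ m, Coc (2 * m) (κ m)
  e_push : IsPush (SemidirectProduct.right : Sd (MonoidHom.id (Aut g)) → Aut g) (th _)
    (cup (th _) (th _))
    ((1 / (2 * g) : ℚ) • (pull QuotientGroup.mk (κ 1) - (4 * g : ℚ) • e))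
  κ_push : ∀ m, IsPush (QuotientGroup.mk : Aut g → Out g) e (cpow e (m + 1))
    ((1 / (2 - 2 * g) : ℚ) • κ m)
  ρ_def : IsRho ρ
  e_euler : ∃ η, Inv η ∧ cob η = pull (fun m : Mb g => ρ m) e ∧ η [1, 1] - η [1, tw g] = 1
  diag_off : Bd (pull (fun x : Cpl g => (⟨PresentedGroup.mk _ x.left, x.right⟩ : Sd ρ))
    (pull (fun x => ρ x.right) e + pull (fun x => inn x.left * ρ x.right) e + th ρ))

/-- Generators of the tautological ring of `M_g`. -/
def gens0 {g : ℕ} (t : Taut g) (k : ℕ) (f : List (Out g) → ℚ) : Prop := 1 ≤ k ∧ f = t.κ k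

/-- Generators of the tautological ring of the fibre square of the universal curve: the two
Euler classes, the diagonal and the kappa classes. -/
def gens2 {g : ℕ} (t : Taut g) (k : ℕ) (f : List (Sd t.ρ) → ℚ) : Prop :=
  let e₁ := pull (fun x : Sd t.ρ => t.ρ x.right) t.e
  let e₂ := pull (fun x : Sd t.ρ => inn x.left * t.ρ x.right) t.e
  (k = 1 ∧ (f = e₁ ∨ f = e₂ ∨ f = (1 / 2 : ℚ) • (e₁ + e₂ + th t.ρ))) ∨
    (1 ≤ k ∧ f = pull (fun x : Sd t.ρ => (QuotientGroup.mk (t.ρ x.right) : Out g)) (t.κ k))

/-- The target statement. -/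
def Target : Prop :=
  (∀ g, 2 ≤ g → Nonempty (Taut g)) ∧
    ∀ (s : Taut 24) (t : Taut 25), ¬ (Gor (gens0 t) 23 ∧ Gor (gens2 s) 24)

end Pool.Agent.FP
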