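import Pool.Agent.FP.Exc2

/-! Continuation. -/

namespace Pool.Agent.FP

variable {V : Type} [AddCommGroup V] [Module ℚ V] {h : ℕ} {ρ : Gam h →* Aut h}
  {ρ' : Gam (h + 1) →* Aut (h + 1)}

open SemidirectProduct

section Gen
variable {N G B E X U W : Type} [Group N] [Group G] [Group B] [Group E] [AddCommGroup U]
  [Module ℚ U] [AddCommGroup W] [Module ℚ W]

theorem exc3_dd_van {P : X → Prop} {f : List X → V} (vf : ∀ l : List X, (∀ a ∈ l, P a) → f l = 0)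
    (l : List X) (hl : ∀ a ∈ l, P a) : dd f l = 0 := by
  rw [dd_apply]
  refine Finset.sum_eq_zero fun i _ => ?_
  rw [vf _ fun a ha => hl a (List.mem_of_mem_eraseIdx ha), smul_zero]

theorem exc3_dd_len {n : ℕ} {f : List X → V} (lf : ∀ l : List X, l.length + 1 ≠ n → f l = 0) :
    Len n (dd f) := by
  intro l hl
  rw [dd_apply]
  refine Finset.sum_eq_zero fun i hi => ?_
  rw [lf _ (by rwa [List.length_eraseIdx_add_one (Finset.mem_range.1 hi)]), smul_zero]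

theorem exc3_cup_van {P : X → Prop} (μ : U →ₗ[ℚ] V →ₗ[ℚ] W) {f : List X → U} (k : List X → V)
    (vf : ∀ l : List X, (∀ a ∈ l, P a) → f l = 0) (l : List X) (hl : ∀ a ∈ l, P a) :
    cupm μ f k l = 0 := by
  rw [cupm_apply]
  refine Finset.sum_eq_zero fun i _ => ?_
  rw [vf _ fun a ha => hl a (List.mem_of_mem_take ha), map_zero, LinearMap.zero_apply]

theorem exc3_act_CoN {j : N →* G} {π : G →* B} (hk : ∀ x, π x = 1 ↔ x ∈ j.range) (φ : E →* G)
    (σ : Representation ℚ E V) (e : E) {f : List G → V} (hf : f ∈ CoN j V) :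
    act φ σ e f ∈ CoN j V := by
  refine ⟨by rw [act_apply, List.map_nil, hf.1, map_zero], fun n l => ?_⟩
  obtain ⟨n', hn⟩ := (hk ((φ e)⁻¹ * j n * φ e)).1 (by
    rw [map_mul, map_mul, (hk (j n)).2 ⟨n, rfl⟩, mul_one, ← map_mul, inv_mul_cancel, map_one])
  rw [act_apply, act_apply, ← hf.2 n' (l.map _), List.map_map, List.map_map]
  congr 3
  ext x
  simp [hn, mul_assoc]

theorem exc3_act_van {j : N →* G} {P : G → Prop} (φ : E →* G) (σ : Representation ℚ E V) (e : E)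
    {n : N} {a : G} (he : (φ e)⁻¹ = j n * a) (ha : ∀ x, P x → P (a * x)) {f : List G → V}
    (hf : f ∈ CoN j V) (vf : ∀ l : List G, (∀ x ∈ l, P x) → f l = 0) (l : List G)
    (hl : ∀ x ∈ l, P x) : act φ σ e f l = 0 := by
  have e1 : l.map ((φ e)⁻¹ * ·) = (l.map (a * ·)).map (j n * ·) := by
    rw [List.map_map]
    congr 1
    ext x
    simp [he, mul_assoc]
  rw [act_apply, e1, hf.2, vf, map_zero]
  intro x hx
  obtain ⟨y, hy, rfl⟩ := List.mem_map.1 hx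
  exact ha y (hl y hy)

theorem exc3_rfirst_CoN {j : N →* G} {π : G →* B} (hk : ∀ n, π (j n) = 1) {F : B → List G → V}
    (hF : ∀ b, F b ∈ CoN j V) : rfirst π F ∈ CoN j V := by
  refine ⟨rfl, fun n l => ?_⟩
  cases l with
  | nil => rfl
  | cons x l =>
    change F (π (j n * x)) ((x :: l).map (j n * ·)) = F (π x) (x :: l)
    rw [map_mul, hk, one_mul, (hF _).2]

theorem exc3_CoN_of_Co {j : N →* G} {σ : Representation ℚ G V} (hk : ∀ n, σ (j n) = 1)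
    {f : List G → V} (hf : f ∈ Co σ) : f ∈ CoN j V :=
  ⟨hf.1, fun n l => by rw [hf.2, hk, Module.End.one_apply]⟩

end Gen

theorem exc3_ker (x : Sd ρ) :
    (rightHom : Sd ρ →* Gam h) x = 1 ↔ x ∈ (inl : Sg h →* Sd ρ).range := by
  rw [range_inl_eq_ker_rightHom, MonoidHom.mem_ker]

theorem exc3_sec {l : List (Sd ρ)} (hl : ∀ a ∈ l, a.left = 1) :
    (l.map (rightHom : Sd ρ →* Gam h)).map (inr : Gam h →* Sd ρ) = l := by
  rw [List.map_map]
  refine (List.map_congr_left fun a ha => ?_).trans (List.map_id l)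
  exact SemidirectProduct.ext (hl a ha).symm rfl

namespace Tube
variable (τ : Tube ρ ρ')

theorem exc3_pl_van {f : List (Sd ρ) → V} (vf : ∀ l : List (Sd ρ), (∀ a ∈ l, a.left = 1) → f l = 0)
    (l : List τ.G0) (hl : ∀ a ∈ l, a ∈ τ.iM.range) : pl τ.φ0 f l = 0 := by
  refine vf _ fun a ha => ?_
  obtain ⟨y, hy, rfl⟩ := List.mem_map.1 ha
  obtain ⟨m, rfl⟩ := hl y hy
  rw [τ.φ0_iM]
  rfl

theorem exc3_pl_CoN {f : List (Sd ρ) → V} (hf : f ∈ CoN (inl : Sg h →* Sd ρ) V) :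
    pl τ.φ0 f ∈ CoN τ.iF V := by
  refine ⟨hf.1, fun x l => ?_⟩
  rw [pl_apply, pl_apply, ← hf.2 (PresentedGroup.mk _ x) (l.map _), List.map_map, List.map_map]
  congr 2
  ext1 y
  simp [τ.φ0_iF]

/-- The graded pieces of the relative mapping cone. -/
def exc3_gr (V : Type) [AddCommGroup V] [Module ℚ V] (n : ℕ) :
    Submodule ℚ ((List (Sd ρ) → V) × (List τ.G0 → V)) where
  carrier := {v | v.1 ∈ CoN (inl : Sg h →* Sd ρ) V ∧ v.2 ∈ CoN τ.iF V ∧ Len n v.1 ∧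
    (∀ l : List τ.G0, l.length + 1 ≠ n → v.2 l = 0) ∧
    (∀ l : List (Sd ρ), (∀ a ∈ l, a.left = 1) → v.1 l = 0) ∧
    ∀ l : List τ.G0, (∀ a ∈ l, a ∈ τ.iM.range) → v.2 l = 0}
  add_mem' := fun {u v} ⟨a1, a2, a3, a4, a5, a6⟩ ⟨b1, b2, b3, b4, b5, b6⟩ =>
    ⟨add_mem a1 b1, add_mem a2 b2, a3.add b3, fun l hl => by simp [a4 l hl, b4 l hl],
      fun l hl => by simp [a5 l hl, b5 l hl], fun l hl => by simp [a6 l hl, b6 l hl]⟩
  zero_mem' := ⟨zero_mem _, zero_mem _, fun _ _ => rfl, fun _ _ => rfl, fun _ _ => rfl,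
    fun _ _ => rfl⟩
  smul_mem' := fun c v ⟨a1, a2, a3, a4, a5, a6⟩ =>
    ⟨Submodule.smul_mem _ c a1, Submodule.smul_mem _ c a2, a3.smul c,
      fun l hl => by simp [a4 l hl], fun l hl => by simp [a5 l hl], fun l hl => by simp [a6 l hl]⟩

/-- The differential of the cone. -/
def exc3_d (V : Type) [AddCommGroup V] [Module ℚ V] :
    ((List (Sd ρ) → V) × (List τ.G0 → V)) →ₗ[ℚ] ((List (Sd ρ) → V) × (List τ.G0 → V)) :=
  (dd ∘ₗ LinearMap.fst _ _ _).prod (pl τ.φ0 ∘ₗ LinearMap.fst _ _ _ - dd ∘ₗ LinearMap.snd _ _ _)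

theorem exc3_d_apply (v : (List (Sd ρ) → V) × (List τ.G0 → V)) :
    τ.exc3_d V v = (dd v.1, pl τ.φ0 v.1 - dd v.2) := rfl

theorem exc3_d_mem {n : ℕ} {v : (List (Sd ρ) → V) × (List τ.G0 → V)} (hv : v ∈ τ.exc3_gr V n) :
    τ.exc3_d V v ∈ τ.exc3_gr V (n + 1) := by
  obtain ⟨a1, a2, a3, a4, a5, a6⟩ := hv
  refine ⟨dd_mem_CoN a1, sub_mem (τ.exc3_pl_CoN a1) (dd_mem_CoN a2), a3.dd, fun l hl => ?_,
    exc3_dd_van a5, fun l hl => ?_⟩
  · exact ((a3.pl τ.φ0).sub (exc3_dd_len a4)) l fun e => hl (by rw [e])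
  · change pl τ.φ0 v.1 l - dd v.2 l = 0
    rw [τ.exc3_pl_van a5 l hl, exc3_dd_van a6 l hl, sub_zero]

theorem exc3_inv (hh : 1 ≤ h) (ρV : Representation ℚ (Gam h) V) {n : ℕ}
    {v : (List (Sd ρ) → V) × (List τ.G0 → V)} (hv : v ∈ τ.exc3_gr V (n + 1))
    (hd : τ.exc3_d V v = 0) (h1 : v.1 ∈ Co (ρV.comp rightHom))
    (h2 : v.2 ∈ Co ((ρV.comp rightHom).comp τ.φ0)) : v.1 ∈ Bc (ρV.comp rightHom) := by
  let p : τ.G0 →* Gam h := rightHom.comp τ.φ0
  let σ : Representation ℚ τ.G0 V := (ρV.comp rightHom).comp τ.φ0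
  have hk : ∀ z, p z = 1 ↔ z ∈ τ.iF.range := τ.right_eq_one_iff
  obtain ⟨u, hu, du, iu⟩ := inv_acyclic p (rightHom_surjective.comp τ.φ0_surj)
    ((act τ.φ0 σ).prod (act (MonoidHom.id _) σ)) (τ.exc3_d V) (τ.exc3_gr V)
    ((rfirst rightHom ∘ₗ (LinearMap.fst ℚ _ _).compLeft _).prod
      (rfirst p ∘ₗ (LinearMap.snd ℚ _ _).compLeft _))
    (fun e v => Prod.ext (act_dd _ _ _ _) (by
      change act (MonoidHom.id _) σ e (pl τ.φ0 v.1 - dd v.2) =
        pl τ.φ0 (act τ.φ0 σ e v.1) - dd (act (MonoidHom.id _) σ e v.2)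
      rw [map_sub, act_dd]
      congr 1
      ext l
      simp [act_apply, Function.comp_def]))
    (fun n v _ => Prod.ext (dd_dd _) (by
      change pl τ.φ0 (dd v.1) - dd (pl τ.φ0 v.1 - dd v.2) = 0
      rw [map_sub, dd_dd, dd_pl, sub_zero, sub_self]))
    (fun n v hv => τ.exc3_d_mem hv)
    (by
      rintro n e v ⟨a1, a2, a3, a4, a5, a6⟩
      obtain ⟨x, m, he⟩ := τ.gen e⁻¹
      refine ⟨exc3_act_CoN exc3_ker _ _ _ a1, exc3_act_CoN hk _ _ _ a2, fun l hl => ?_,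
        fun l hl => ?_, exc3_act_van τ.φ0 σ e (n := PresentedGroup.mk _ x) (a := inr (m : Gam h))
          (by rw [← map_inv, he, map_mul, τ.φ0_iF, τ.φ0_iM]) (fun y hy => by simp [hy]) a1 a5,
        exc3_act_van (MonoidHom.id _) σ e he (fun y hy => τ.iM.range.mul_mem ⟨m, rfl⟩ hy) a2 a6⟩
      · change act τ.φ0 σ e v.1 l = 0
        rw [act_apply, a3 _ (by rwa [List.length_map]), map_zero]
      · change act (MonoidHom.id _) σ e v.2 l = 0
        rw [act_apply, a4 _ (by rwa [List.length_map]), map_zero])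
    (by
      rintro n e he v ⟨a1, a2, -⟩
      obtain ⟨x, hx⟩ := inv_mem ((hk e).1 he)
      have e1 : σ e = 1 := by
        change ρV (p e) = 1
        rw [he, map_one]
      refine Prod.ext (funext fun l => ?_) (funext fun l => ?_)
      · change act τ.φ0 σ e v.1 l = v.1 l
        rw [act_apply, e1, ← map_inv, ← hx, τ.φ0_iF, a1.2, Module.End.one_apply]
      · change act (MonoidHom.id _) σ e v.2 l = v.2 l
        rw [act_apply, e1, MonoidHom.id_apply, ← hx, a2.2, Module.End.one_apply])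
    (by
      refine eq_bot_iff.2 ?_
      rintro v ⟨a1, -, a3, a4, -⟩
      refine Prod.ext (funext fun l => ?_) (funext fun l => a4 l (Nat.succ_ne_zero _))
      cases l with
      | nil => exact a1.1
      | cons x l => exact a3 _ (Nat.succ_ne_zero _))
    (by
      rintro n v ⟨a1, a2, a3, a4, a5, a6⟩ dv
      obtain ⟨u, b1, δ, b2, b3, b4, b5, b6, b7, b8⟩ := τ.exc_fibre hh n a1 a2 (congrArg Prod.fst dv)
        a3 (fun l hl => a4 l fun e => hl (Nat.succ_injective e)) a5 a6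
        (sub_eq_zero.1 (congrArg Prod.snd dv)).symm
      exact ⟨(u, δ), ⟨b1, b2, b3, b4, b5, b6⟩, Prod.ext b7 b8⟩)
    (fun n v hv => Prod.ext (rfirst_const (rightHom : Sd ρ →* Gam h) hv.1.1)
      (rfirst_const p hv.2.1.1))
    (fun e F => Prod.ext (rfirst_act τ.φ0 σ rightHom e fun b => (F b).1)
      (rfirst_act (MonoidHom.id _) σ p e fun b => (F b).2))
    (fun n F hF => ⟨exc3_rfirst_CoN (fun _ => rightHom_inl _) fun b => (hF b).1,
      exc3_rfirst_CoN (fun x => (hk _).2 ⟨x, rfl⟩) fun b => (hF b).2.1,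
      fun l hl => rfirst_zero _ fun b => (hF b).2.2.1 l hl,
      fun l hl => rfirst_zero _ fun b => (hF b).2.2.2.1 l hl,
      fun l hl => rfirst_zero _ fun b => (hF b).2.2.2.2.1 l hl,
      fun l hl => rfirst_zero _ fun b => (hF b).2.2.2.2.2 l hl⟩)
    hv hd fun e => Prod.ext (((mem_Co_iff_act τ.φ0 τ.φ0_surj _).1 h1).2 e)
      (((mem_Co_iff_act (MonoidHom.id _) Function.surjective_id σ).1 h2).2 e)
  exact ⟨u.1, (mem_Co_iff_act τ.φ0 τ.φ0_surj _).2 ⟨hu.1.1, fun e => congrArg Prod.fst (iu e)⟩,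
    congrArg Prod.fst du⟩

/-- Excision: `inv_acyclic` for the group `G0` over `Gam h`, in each degree. -/
theorem exc (hh : 1 ≤ h) (ρV : Representation ℚ (Gam h) V) {f : List (Sd ρ) → V}
    {γ : List τ.G0 → V} (hf : f ∈ Zc (ρV.comp rightHom))
    (hγ : γ ∈ Co ((ρV.comp rightHom).comp τ.φ0))
    (vf : ∀ l : List (Sd ρ), (∀ a ∈ l, a.left = 1) → f l = 0)
    (vγ : ∀ l : List τ.G0, (∀ a ∈ l, a ∈ τ.iM.range) → γ l = 0) (hd : dd γ = pl τ.φ0 f) :
    f ∈ Bc (ρV.comp rightHom) := by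
  refine mem_Bc_of_comp fun n => ?_
  cases n with
  | zero =>
    have : comp 0 f = 0 := funext fun l => by
      cases l with
      | nil => exact hf.1.1
      | cons x l => rfl
    rw [this]
    exact zero_mem _
  | succ n =>
    have c1 := comp_mem_Co (n + 1) hf.1
    have c2 := comp_mem_Co n hγ
    refine τ.exc3_inv hh ρV (n := n) (v := (comp (n + 1) f, comp n γ)) ⟨?_, ?_, len_comp _ _,
      fun l hl => len_comp n γ l fun e => hl (by rw [e]), fun l hl => ?_, fun l hl => ?_⟩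
      (Prod.ext ?_ ?_) c1 c2
    · exact exc3_CoN_of_Co (fun x => (congrArg ρV (rightHom_inl x)).trans (map_one _)) c1
    · exact exc3_CoN_of_Co (fun x => (congrArg ρV ((τ.right_eq_one_iff _).2 ⟨x, rfl⟩)).trans
        (map_one _)) c2
    · change comp (n + 1) f l = 0
      rw [comp_apply, vf l hl, ite_self]
    · change comp n γ l = 0
      rw [comp_apply, vγ l hl, ite_self]
    · exact (comp_mem_Zc (n + 1) hf).2
    · change pl τ.φ0 (comp (n + 1) f) - dd (comp n γ) = 0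
      rw [dd_comp, hd, comp_pl, sub_self]

end Tube

/-- A class vanishing on the section has a representative vanishing on the lists of the
section: subtract the coboundary of `p^* β`. -/
theorem exists_rel (ρV : Representation ℚ (Gam h) V) {w : List (Sd ρ) → V}
    (hw : w ∈ Zc (ρV.comp rightHom)) (hs : pl inr w ∈ Bc ρV) :
    ∃ w' ∈ Zc (ρV.comp (rightHom : Sd ρ →* Gam h)), w - w' ∈ Bc (ρV.comp rightHom) ∧
      ∀ l : List (Sd ρ), (∀ a ∈ l, a.left = 1) → w' l = 0 := by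
  obtain ⟨β, hβ, dβ⟩ := hs
  have hb : dd (pl (rightHom : Sd ρ →* Gam h) β) ∈ Bc (ρV.comp rightHom) :=
    dd_mem_Bc (pl_mem_Co _ hβ)
  refine ⟨w - dd (pl (rightHom : Sd ρ →* Gam h) β), sub_mem hw (Bc_le_Zc hb),
    by rwa [sub_sub_cancel], fun l hl => ?_⟩
  rw [Pi.sub_apply, dd_pl, dβ, pl_apply, pl_apply, exc3_sec hl, sub_self]

/-- A relative cocycle that is a coboundary is a relative coboundary: `γ - p^* s^* γ`. -/
theorem exists_rel_prim (ρV : Representation ℚ (Gam h) V) {w : List (Sd ρ) → V}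
    (hw : w ∈ Bc (ρV.comp rightHom)) (vw : ∀ l : List (Sd ρ), (∀ a ∈ l, a.left = 1) → w l = 0) :
    ∃ γ ∈ Co (ρV.comp (rightHom : Sd ρ →* Gam h)), dd γ = w ∧
      ∀ l : List (Sd ρ), (∀ a ∈ l, a.left = 1) → γ l = 0 := by
  obtain ⟨γ, hγ, rfl⟩ := hw
  have e : (ρV.comp (rightHom : Sd ρ →* Gam h)).comp inr = ρV := MonoidHom.ext fun _ => rfl
  have h1 : pl (inr : Gam h →* Sd ρ) γ ∈ Co ρV := e ▸ pl_mem_Co _ hγ
  refine ⟨γ - pl (rightHom : Sd ρ →* Gam h) (pl (inr : Gam h →* Sd ρ) γ),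
    sub_mem hγ (pl_mem_Co _ h1), ?_, fun l hl => ?_⟩
  · have h2 : pl (inr : Gam h →* Sd ρ) (dd γ) = 0 := funext fun l => vw _ fun a ha => by
      obtain ⟨y, -, rfl⟩ := List.mem_map.1 ha
      rfl
    rw [map_sub, dd_pl, dd_pl, h2, map_zero, sub_zero]
  · rw [Pi.sub_apply, pl_apply, pl_apply, exc3_sec hl, sub_self]

/-- A class vanishing on the diagonal times a class vanishing off the diagonal is zero. -/
theorem Tube.exc_mul (τ : Tube ρ ρ') (hh : 1 ≤ h) (ρV : Representation ℚ (Gam h) V)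
    {w : List (Sd ρ) → V} {β : List (Sd ρ) → ℚ} (hw : w ∈ Zc (ρV.comp rightHom))
    (hs : pl inr w ∈ Bc ρV) (hβ : β ∈ Zc (triv _ ℚ)) (h0 : pl τ.φ0 β ∈ Bc (triv _ ℚ)) :
    cupm (LinearMap.lsmul ℚ V).flip w β ∈ Bc (ρV.comp rightHom) := by
  obtain ⟨w', hw', e, vw⟩ := exists_rel ρV hw hs
  obtain ⟨b, hb, db⟩ := h0
  have hμ : Eqv₂ (ρV.comp (rightHom : Sd ρ →* Gam h)) (triv _ ℚ) (ρV.comp rightHom)
      (LinearMap.lsmul ℚ V).flip := fun g u c => by simp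
  have z1 := sg_mem_Zc (pl_mem_Zc τ.φ0 hw')
  have h1 := τ.exc hh ρV (cupm_mem_Zc hμ hw' hβ) (cupm_mem_Co (hμ.comp τ.φ0) z1.1 hb)
    (exc3_cup_van _ _ vw)
    (exc3_cup_van _ _ fun l hl => by rw [sg_apply, τ.exc3_pl_van vw l hl, smul_zero])
    (by rw [dd_cupm _ z1.1.1 hb.1, (mem_Zc.1 z1).2, map_zero, LinearMap.zero_apply, zero_add, sg_sg,
      db, pl_cupm])
  have h2 := add_mem (cupm_mem_Bc_left hμ e hβ) h1
  rwa [map_sub, LinearMap.sub_apply, sub_add_cancel] at h2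

/-- The tube lemma at the level of cochains. -/
theorem Tube.tube_mul (τ : Tube ρ ρ') (hh : 1 ≤ h) {w θ x : List (Sd ρ) → ℚ}
    {c : List τ.G0 → ℚ} (hw : w ∈ Zc (triv _ ℚ)) (hθ : θ ∈ Zc (triv _ ℚ))
    (hx : x ∈ Zc (triv _ ℚ)) (hc : c ∈ Zc (triv _ ℚ)) (hs : pl inr w ∈ Bc (triv (Gam h) ℚ))
    (hwθ : cupm (LinearMap.mul ℚ ℚ) w θ ∈ Bc (triv _ ℚ))
    (e : pl τ.φ0 x - cupm (LinearMap.lsmul ℚ ℚ) (pl τ.φ0 θ) c ∈ Bc (triv _ ℚ)) :
    cupm (LinearMap.mul ℚ ℚ) w x ∈ Bc (triv _ ℚ) := by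
  obtain ⟨w', hw', e', vw⟩ := exists_rel (triv (Gam h) ℚ) hw hs
  obtain ⟨b, hb, db⟩ := e
  have hμ : ∀ (G : Type) [Group G],
      Eqv₂ (triv G ℚ) (triv G ℚ) (triv G ℚ) (LinearMap.mul ℚ ℚ) := fun _ _ _ _ _ => rfl
  have h0 := sub_mem hwθ (cupm_mem_Bc_left (hμ _) e' hθ)
  rw [map_sub, LinearMap.sub_apply, sub_sub_cancel] at h0
  obtain ⟨γ, hγ, dγ, vγ⟩ := exists_rel_prim (triv (Gam h) ℚ) h0 (exc3_cup_van _ _ vw)
  have z1 : sg (pl τ.φ0 w') ∈ Zc (triv τ.G0 ℚ) := sg_mem_Zc (pl_mem_Zc τ.φ0 hw')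
  have c1 : pl τ.φ0 γ ∈ Co (triv τ.G0 ℚ) := pl_mem_Co τ.φ0 hγ
  have h1 := τ.exc hh (triv (Gam h) ℚ) (cupm_mem_Zc (hμ _) hw' hx)
    (add_mem (cupm_mem_Co (hμ _) c1 hc.1) (cupm_mem_Co (hμ _) z1.1 hb)) (exc3_cup_van _ _ vw)
    (fun l hl => by
      rw [Pi.add_apply, exc3_cup_van _ _ (τ.exc3_pl_van vγ) l hl, zero_add]
      exact exc3_cup_van _ _
        (fun l hl => by rw [sg_apply, τ.exc3_pl_van vw l hl, smul_zero]) l hl)
    (by
      rw [map_add, dd_cupm _ c1.1 hc.1.1, dd_cupm _ z1.1.1 hb.1, (mem_Zc.1 z1).2, (mem_Zc.1 hc).2,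
        map_zero, map_zero, LinearMap.zero_apply, zero_add, add_zero, sg_sg, db, dd_pl, dγ, pl_cupm,
        pl_cupm, map_sub, cupm_assoc (μ₃ := LinearMap.lsmul ℚ ℚ) (μ₄ := LinearMap.mul ℚ ℚ)
          fun u v w => mul_assoc u v w, add_sub_cancel])
  have h2 := add_mem (cupm_mem_Bc_left (hμ _) e' hx) h1
  rwa [map_sub, LinearMap.sub_apply, sub_add_cancel] at h2

end Pool.Agent.FP
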