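import Pool.Agent.FP.Tau
import Pool.Agent.FP.Exc3

/-! The class of the diagonal dies on its complement. -/

namespace Pool.Agent.FP

open SemidirectProduct

variable {h : ℕ} {Q : Type} [Group Q] {ρ : Gam h →* Aut h} {ρ' : Gam (h + 1) →* Aut (h + 1)}

/-- The canonical section. -/
abbrev secS (r : Q →* Aut h) : TE (extS r).ρE →ₐ[ℚ] TE (extS r).ρH :=
  pullE (inr : Q →* Sd r) fun b => congrArg (extS r).ρH (rightHom_inr b).symm

theorem isSec_secS (hh : 1 ≤ h) (r : Q →* Aut h) : ((extS r).frob hh).IsSec (secS r) :=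
  (extS r).isSec hh inr rightHom_inr

theorem secS_x (r : Q →* Aut h) : secS r (extS r).xE = 0 := by
  have hc : Cross (extS r).ρH fun _ => (0 : Hq h) := fun x y => by rw [map_zero, add_zero]
  rw [← cls1_zero hc fun _ => rfl]
  exact pullE_cls1 _ _ _ hc fun _ => ab_one.symm

/-- The class `⟨k, σ⟩` for the cocycle at the level of the free group. -/
noncomputable abbrev evG (hρ : IsRho ρ) : TE (extS ρ).ρE :=
  (extS ρ).evC (sigG_cross hρ) (invo_sigG ρ)

/-- The scalar class `D₁` with `x ^ 2 = 2 ⟨k, σ⟩ + 2 om D₁`. -/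
noncomputable def D1 (hρ : IsRho ρ) : TQ (Sd ρ) :=
  -(1 / (2 * h) : ℚ) • augE _ ((mkBV (extS ρ).spE).L ((extS ρ).xE * (extS ρ).xE -
    (2 : ℚ) • evG hρ))

theorem dl_dif_ind {X V : Type} [AddCommGroup V] [Module ℚ V] {P : V → Prop} (k : X → V)
    (h0 : P 0) (h1 : ∀ x y, P (k y - k x)) (l : List X) : P (dif k l) := by
  rcases l with _ | ⟨x, _ | ⟨y, _ | ⟨z, l⟩⟩⟩
  exacts [h0, h0, h1 x y, h0]

theorem dl_N_evG (hρ : IsRho ρ) : (mkBV (extS ρ).spE).N (evG hρ) = (2 : ℚ) • evG hρ := by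
  simp only [mkBV, evG, Ext.evC, bv1_mk, TT.mk_smul]
  refine TT.mk_congr ?_
  rw [cm_cupm, ← cupm_smul_bil]
  refine cupm_congr fun l l' => ?_
  simp only [LinearMap.compr₂_apply, evB_apply, LinearMap.smul_apply, pl_apply]
  refine dl_dif_ind (P := fun T : Hq h →ₗ[ℚ] Lm (Hq h) =>
    NN _ (T (dif (extS ρ).k l)) = (2 : ℚ) • T (dif (extS ρ).k l)) (sigG ρ) ?_ ?_ _
  · simp
  · intro x y
    rw [LinearMap.sub_apply, map_sub, NN_sigG, NN_sigG, smul_sub]

theorem dl_om_mul {G : Type} [Group G] {σ : Representation ℚ G (Hq h)} (hσ : ∀ x, Sp (σ x))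
    {f : List G → Lm (Hq h)} (hf : f ∈ (saE σ).Zev) : ∃ hf',
    (mkBV hσ).om * TT.mk f hf = TT.mk (cm (LinearMap.mul ℚ _ (omE h)) f) hf' := by
  have e := cupm_cst_left (LinearMap.mul ℚ _) (omE h) (TT.nil_eq hf)
  exact ⟨e ▸ (saE σ).cu_mem (omE_mem hσ) hf, TT.mk_congr e⟩

theorem dl_evC_sigb (hh : 1 ≤ h) (hρ : IsRho ρ) :
    (extS ρ).evC (sigb_cross' hh ρ) (fun b v => invo_sigb (ρ b) v) = evG hρ +
      (1 / h : ℚ) • ((mkBV (extS ρ).spE).om * (mkBV (extS ρ).spE).L (evG hρ)) := by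
  have e0 : (mkBV (extS ρ).spE).L (evG hρ) = TT.mk _ _ := bv1_mk (lhom_L (extS ρ).spE) _
  obtain ⟨h1, e1⟩ := dl_om_mul (extS ρ).spE
    (bv1_mem (lhom_L (extS ρ).spE) ((extS ρ).ev_mem (sigG_cross hρ) (invo_sigG ρ)))
  rw [e0, e1, evG, Ext.evC, Ext.evC, TT.mk_smul, TT.mk_add]
  refine TT.mk_congr ?_
  change _ = cm (prj h) (cupm (evB _ _) (dif (extS ρ).k) (pl (extS ρ).p (dif (sigG ρ))))
  rw [cm_cupm]
  refine cupm_congr fun l l' => ?_
  have e : sigb h ∘ ρ = (LinearMap.llcomp ℚ _ _ _ (prj h)) ∘ sigG ρ :=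
    funext fun b => (prj_sigG hρ hh b).symm
  rw [e, ← cm_dif]
  rfl

theorem dl_unit_D1 (hρ : IsRho ρ) : unitE _ (D1 hρ) = -(1 / (2 * h) : ℚ) •
    (mkBV (extS ρ).spE).L ((extS ρ).xE * (extS ρ).xE - (2 : ℚ) • evG hρ) := by
  rw [D1, map_smul, unitE_augE_of_N (extS ρ).spE]
  rw [BV.N_L, map_sub (mkBV (extS ρ).spE).N, BV.N_mul, N_cls1, map_smul (mkBV (extS ρ).spE).N,
    dl_N_evG, ← two_smul ℚ, ← smul_sub, map_smul, sub_self]

/-- From `xx_eq` and `prj_sigG`. -/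
theorem xx_eq_D1 (hh : 1 ≤ h) (hρ : IsRho ρ) : (extS ρ).xE * (extS ρ).xE =
    (2 : ℚ) • evG hρ + (2 : ℚ) • ((mkBV (extS ρ).spE).om * unitE _ (D1 hρ)) := by
  have h0 : (h : ℚ) ≠ 0 := Nat.cast_ne_zero.2 (by omega)
  have e := xx_eq hh ρ
  rw [dl_evC_sigb hh hρ] at e
  rw [dl_unit_D1, map_sub, map_smul, mul_smul_comm, mul_sub, mul_smul_comm]
  refine e.trans ?_
  match_scalars <;> field_simp

section
variable (τ : Tube ρ ρ')

/-- The projection of the complement of the diagonal to the base. -/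
abbrev dl_pi : τ.G0 →* Gam h := rightHom.comp τ.φ0

theorem dl_exists_r : ∃ r : τ.G0 → Fr h, ∀ z, z = τ.iF (r z) * τ.iM (Quotient.out (dl_pi τ z)) := by
  have : ∀ z : τ.G0, ∃ x, z = τ.iF x * τ.iM (Quotient.out (dl_pi τ z)) := fun z => by
    obtain ⟨x, hx⟩ := (τ.right_eq_one_iff (z * (τ.iM (Quotient.out (dl_pi τ z)))⁻¹)).1 (by
      rw [map_mul, map_inv, τ.φ0_iM, mul_right, inv_right, right_inr, QuotientGroup.out_eq']
      exact mul_inv_cancel _)
    exact ⟨x, by rw [hx, inv_mul_cancel_right]⟩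
  exact ⟨fun z => (this z).choose, fun z => (this z).choose_spec⟩

theorem dl_exists_n : ∃ n : Gam h → Gam h → ℤ, ∀ b b' : Gam h, τ.iM (Quotient.out b) *
    τ.iM (Quotient.out b') = τ.iF (bdw h ^ n b b') * τ.iM (Quotient.out (b * b')) := by
  have : ∀ b b' : Gam h, ∃ n : ℤ, τ.iM (Quotient.out b) * τ.iM (Quotient.out b') =
      τ.iF (bdw h ^ n) * τ.iM (Quotient.out (b * b')) := fun b b' => by
    obtain ⟨k, hk⟩ := τ.exc2_iM
      (m := Quotient.out b * Quotient.out b' * (Quotient.out (b * b'))⁻¹) (by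
        rw [QuotientGroup.mk_mul, QuotientGroup.mk_mul, QuotientGroup.mk_inv,
          QuotientGroup.out_eq', QuotientGroup.out_eq', QuotientGroup.out_eq', mul_inv_cancel])
    exact ⟨k, by rw [← hk, ← map_mul, ← map_mul, inv_mul_cancel_right]⟩
  exact ⟨fun b b' => (this b b').choose, fun b b' => (this b b').choose_spec⟩

/-- The defect of the Magnus expansion on the complement of the diagonal. -/
theorem dl_exists_F (hρ : IsRho ρ) : ∃ (F : τ.G0 → Lm (Hq h)) (n : Gam h → Gam h → ℚ),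
    ∀ z z', F (z * z') = F z + emap (autRep h (ρ (dl_pi τ z))) (F z') +
      sigG ρ (dl_pi τ z) (autRep h (ρ (dl_pi τ z)) (ab (τ.φ0 z').left)) +
      (1 / 2 : ℚ) • (io (ab (τ.φ0 z).left) * io (autRep h (ρ (dl_pi τ z)) (ab (τ.φ0 z').left))) +
      n (dl_pi τ z) (dl_pi τ z') • omE h := by
  obtain ⟨r, hr⟩ := dl_exists_r τ
  obtain ⟨n, hn⟩ := dl_exists_n τ
  have hl : ∀ z, (τ.φ0 z).left = mkS h (r z) := fun z => by
    conv_lhs => rw [hr z, map_mul, τ.φ0_iF, τ.φ0_iM, mul_left, left_inl, left_inr, map_one, mul_one]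
  refine ⟨fun z => th2 h (r z), fun b b' => n b b', fun z z' => ?_⟩
  have e : r (z * z') = r z * (Quotient.out (dl_pi τ z) : Mb h).1 (r z') *
      bdw h ^ n (dl_pi τ z) (dl_pi τ z') := by
    refine τ.iF_inj (mul_right_cancel (b := τ.iM (Quotient.out (dl_pi τ (z * z')))) ?_)
    rw [← hr, map_mul τ.iF, mul_assoc, map_mul (dl_pi τ), ← hn, map_mul τ.iF, mul_assoc,
      ← mul_assoc (τ.iF _) (τ.iM _), ← τ.conj, mul_assoc, ← hr z', ← mul_assoc, ← hr z]
  have e1 := ab_mb hρ (Quotient.out (dl_pi τ z)) (r z')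
  have e2 := sigG_ab hρ (Quotient.out (dl_pi τ z)) ((Quotient.out (dl_pi τ z) : Mb h).1 (r z'))
  rw [e1] at e2
  rw [QuotientGroup.out_eq'] at e1 e2
  have e3 : ((Quotient.out (dl_pi τ z) : Mb h)⁻¹).1 ((Quotient.out (dl_pi τ z) : Mb h).1 (r z')) =
      r z' := MulAut.inv_apply_self _ _ _
  rw [e3] at e2
  simp only
  rw [e, th2_mul_bdw_zpow, th2_mul, hl, hl, e1, e2]
  abel

end

/-- The homogeneous form of a function of two variables. -/
def dl_of2 {G : Type} [Group G] (n : G → G → ℚ) : List G → ℚ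
  | [x, y, z] => n (x⁻¹ * y) (y⁻¹ * z)
  | _ => 0

theorem dl_of2_len {G : Type} [Group G] (n : G → G → ℚ) : Len 3 (dl_of2 n) := by
  intro l hl
  rcases l with _ | ⟨x, _ | ⟨y, _ | ⟨z, _ | ⟨w, l⟩⟩⟩⟩
  exacts [rfl, rfl, rfl, absurd rfl hl, rfl]

theorem dl_of2_Co {G : Type} [Group G] (n : G → G → ℚ) : dl_of2 n ∈ Co (triv G ℚ) := by
  refine ⟨rfl, fun g l => ?_⟩
  rcases l with _ | ⟨x, _ | ⟨y, _ | ⟨z, _ | ⟨w, l⟩⟩⟩⟩
  exacts [rfl, rfl, rfl, by simp [dl_of2, mul_assoc], rfl]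

theorem dl_len3 {X V : Type} [AddCommGroup V] [Module ℚ V] {f f' : List X → V} (hf : Len 3 f)
    (hf' : Len 3 f') (e : ∀ x y z, f [x, y, z] = f' [x, y, z]) : f = f' := by
  funext l
  by_cases hl : l.length = 3
  · obtain ⟨x, y, z, rfl⟩ := List.length_eq_three.1 hl
    exact e x y z
  · rw [hf l hl, hf' l hl]

/-- The cochain identity behind `D1_tube`, for a group `G` acting on homology. -/
theorem dl_dd {G : Type} [Group G] {a : Representation ℚ G (Hq h)} {k : G → Hq h}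
    (hk : Cross a k) {σ : G → Hq h →ₗ[ℚ] Lm (Hq h)} (hσ : Cross (a.linHom (extRep a)) σ)
    (ha : ∀ x, Sp (a x)) {F : G → Lm (Hq h)} {n : G → G → ℚ}
    (hF : ∀ z z', F (z * z') = F z + emap (a z) (F z') + σ z (a z (k z')) +
      (1 / 2 : ℚ) • (io (k z) * io (a z (k z'))) + n z z' • omE h) :
    dd (of1 (extRep a) F) = -cupm (evB _ _).flip (dif σ) (dif k) -
      (1 / 2 : ℚ) • SA.cu (dif (io ∘ k)) (dif (io ∘ k)) -
      cm (LinearMap.toSpanSingleton ℚ _ (omE h)) (dl_of2 n) := by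
  have l1 : Len 3 (cupm (evB _ _).flip (dif σ) (dif k)) :=
    Len.cupm (a := 1) (b := 1) (len_dif _) (len_dif _) _
  have l2 : Len 3 (SA.cu (dif (io ∘ k)) (dif (io ∘ k))) :=
    Len.cupm (a := 1) (b := 1) (len_dif _) (len_dif _) _
  refine dl_len3 (len_of1 _ F).dd ((((Len.zero 3).sub l1).sub (l2.smul _)).sub
    ((dl_of2_len n).cm _) |> fun H => by rwa [zero_sub] at H) fun x y z => ?_
  have e := hF (x⁻¹ * y) (y⁻¹ * z)
  rw [mul_assoc, mul_inv_cancel_left] at e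
  have e1 : ∀ v, a x (a (x⁻¹ * y) v) = a y v := fun v => by
    rw [← Module.End.mul_apply, ← map_mul, mul_inv_cancel_left]
  have e2 : ∀ v, a x⁻¹ (a y v) = a (x⁻¹ * y) v := fun v => by
    rw [← Module.End.mul_apply, ← map_mul]
  have e3 : emap (a x) (omE h) = omE h := emap_omE (ψ := a x⁻¹) (co4_self_inv a x) (ha x)
  rw [dd_of1, e, Pi.sub_apply, Pi.sub_apply, Pi.neg_apply, Pi.smul_apply,
    cupm_triple _ (len_dif _) (len_dif _), SA.cu, cupm_triple _ (len_dif _) (len_dif _), ← cm_dif,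
    ← hk.of1_eq, ← hσ.of1_eq]
  simp only [cm_apply, of1, dl_of2, extRep_apply, map_add, map_sub, map_smul, map_mul (emap _),
    ExteriorAlgebra.map_apply_ι, e1, e2, e3, LinearMap.flip_apply, evB_apply,
    Representation.linHom_apply, LinearMap.comp_apply, LinearMap.mul_apply',
    LinearMap.toSpanSingleton_apply]
  abel

theorem dl_key (hh : 1 ≤ h) {G : Type} [Group G] {a : Representation ℚ G (Hq h)} {k : G → Hq h}
    (hk : Cross a k) {σ : G → Hq h →ₗ[ℚ] Lm (Hq h)} (hσ : Cross (a.linHom (extRep a)) σ)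
    (ha : ∀ x, Sp (a x)) {F : G → Lm (Hq h)} {n : G → G → ℚ}
    (hF : ∀ z z', F (z * z') = F z + emap (a z) (F z') + σ z (a z (k z')) +
      (1 / 2 : ℚ) • (io (k z) * io (a z (k z'))) + n z z' • omE h) :
    dd (dl_of2 n) = 0 ∧ cm ((aug _).toLinearMap ∘ₗ LL h) (SA.cu (dif (io ∘ k)) (dif (io ∘ k)) -
      (2 : ℚ) • cupm (evB _ _) (dif k) (dif σ)) - (2 * h : ℚ) • dl_of2 n ∈ Bc (triv G ℚ) := by
  have h0 : (h : ℚ) ≠ 0 := Nat.cast_ne_zero.2 (by omega)
  have hφ : Eqv (extRep a) (triv G ℚ) ((aug _).toLinearMap ∘ₗ LL h) := fun x v => by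
    change aug _ (LL h (emap (a x) v)) = aug _ (LL h v)
    rw [LL_emap (ha x), aug_emap]
  have hev : Eqv₂ (a.linHom (extRep a)) a (extRep a) (evB _ _).flip := fun x T v =>
    eqv₂_evB a (extRep a) x v T
  have e := congrArg (cm ((aug _).toLinearMap ∘ₗ LL h)) (dl_dd hk hσ ha hF)
  have e1 : cm ((aug _).toLinearMap ∘ₗ LL h)
      (cm (LinearMap.toSpanSingleton ℚ _ (omE h)) (dl_of2 n)) = -(h : ℚ) • dl_of2 n := by
    funext l
    simp [LL_omE, mul_comm]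
  rw [map_sub, map_sub, e1, map_neg, map_smul] at e
  have b1 := cm_mem_Bc hφ (dd_mem_Bc (of1_mem_Co (extRep a) F))
  have z1 := cm_mem_Zc hφ (cupm_mem_Zc hev hσ.dif_mem hk.dif_mem)
  have z2 := cm_mem_Zc hφ (((saE a).mem_Zev.1
    ((saE a).cu_mem (dif_io_mem hk) (dif_io_mem hk))).1)
  have b2 := cm_mem_Bc hφ (cupm_comm (μ' := (-1 : ℚ) • (evB _ _).flip) (eqv₂_evB a (extRep a))
    (fun x T v => by
      simp only [LinearMap.smul_apply, map_smul]
      rw [hev x T v]) hk.dif_mem hσ.dif_mem fun l l' => by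
      by_cases hl : l.length = 2
      · by_cases hl' : l'.length = 2
        · rw [hl, hl']
          norm_num
        · rw [len_dif σ l' hl']
          simp
      · rw [len_dif k l hl]
        simp)
  rw [cupm_smul_bil, map_sub, map_smul] at b2
  constructor
  · have e2 := congrArg dd e
    rw [(mem_Zc.1 (Bc_le_Zc b1)).2, map_sub, map_sub, map_neg, map_smul, map_smul,
      (mem_Zc.1 z1).2, (mem_Zc.1 z2).2, neg_zero, smul_zero, sub_zero, zero_sub, neg_smul,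
      neg_neg] at e2
    exact (smul_eq_zero.1 e2.symm).resolve_left h0
  · rw [e] at b1
    have b3 := sub_mem (Submodule.smul_mem _ (-2 : ℚ) b1) (Submodule.smul_mem _ (2 : ℚ) b2)
    refine (congrArg (· ∈ Bc (triv G ℚ)) ?_).mp b3
    rw [map_sub, map_smul]
    module

/-- Choose `m b : Mb h` over each `b : Gam h`; every `z : G0` is `iF (r z) * iM (m (p z))`, and
`r (z z') = r z * m (p z) (r z') * bdw ^ n (p z) (p z')`. With `F z = th2 (r z)`:
`dd (of1 F) = -(σ ∪ k) - (k ∪ k) / 2 - n • omE`. Apply `aug ∘ LL`; the homogeneous form of `n` is a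
cocycle on `Gam h` because its pull-back by the surjection is one. -/
theorem D1_tube (hh : 1 ≤ h) (hρ : IsRho ρ) (τ : Tube ρ ρ') :
    ∃ c : TQ (Gam h), pullQ τ.φ0 (D1 hρ - pullQ rightHom c) = 0 := by
  have h0 : (h : ℚ) ≠ 0 := Nat.cast_ne_zero.2 (by omega)
  obtain ⟨F, n, hF⟩ := dl_exists_F τ hρ
  have hσ : Cross (Representation.linHom ((extS ρ).ρE.comp τ.φ0)
      (extRep ((extS ρ).ρE.comp τ.φ0))) (sigG ρ ∘ dl_pi τ) := fun x y => by
    have e := sigG_cross hρ (dl_pi τ x) (dl_pi τ y)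
    rw [← map_mul, Representation.linHom_apply, ← map_inv (dl_pi τ)] at e
    exact e
  obtain ⟨k1, k2⟩ := dl_key hh ((extS ρ).k_cross.comp τ.φ0) hσ (fun x => (extS ρ).spE _)
    (n := fun z z' => n (dl_pi τ z) (dl_pi τ z')) hF
  have e : (dl_of2 fun z z' => n (dl_pi τ z) (dl_pi τ z')) = pl (dl_pi τ) (dl_of2 n) :=
    dl_len3 (dl_of2_len _) ((dl_of2_len _).pl _) fun x y z => by
      simp only [dl_of2, pl_apply, List.map_cons, List.map_nil, map_mul, map_inv]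
  rw [e] at k1 k2
  have hz : dl_of2 n ∈ (saQ (Gam h)).Zev := by
    refine (saQ _).mem_Zev.2 ⟨mem_Zc.2 ⟨dl_of2_Co n, funext fun l => ?_⟩, ?_⟩
    · obtain ⟨l', rfl⟩ := List.map_surjective_iff.2 (rightHom_surjective.comp τ.φ0_surj) l
      rw [dd_pl] at k1
      exact congrFun k1 l'
    · change sg (dl_of2 n) = _
      rw [sg_of_len (dl_of2_len n)]
      norm_num
  refine ⟨-TT.mk _ hz, ?_⟩
  simp only [D1, mkBV, evG, Ext.evC, cls1, augE, pullQ, LHom.mapA_apply, TT.mk_mul, TT.mk_smul,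
    TT.mk_sub, TT.mk_neg, bv1_mk, LHom.map_mk]
  refine TT.mk_eq_zero.2 ((congrArg (· ∈ Bc (triv τ.G0 ℚ)) ?_).mp
    (Submodule.smul_mem _ (-(1 / (2 * h) : ℚ)) k2))
  have e2 : (-(1 / (2 * h) : ℚ)) * (2 * h) = -1 := by field_simp
  rw [cm_id, cm_id, smul_sub, smul_smul, e2, neg_one_smul, map_sub (pl _), map_smul (pl _),
    map_neg (pl _), map_neg (pl _), pl_pl, cm_cm, pl_cm, map_sub (pl _), map_smul (pl _), pl_cupm,
    pl_cupm, pl_dif, pl_dif, pl_pl, pl_dif]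
  rfl

/-- Excision on classes (`exc_mul`). -/
theorem exc_class (hh : 1 ≤ h) (τ : Tube ρ ρ') {w : TE (extS ρ).ρE} {β : TQ (Sd ρ)}
    (hw : secS ρ w = 0) (hβ : pullQ τ.φ0 β = 0) : w * unitE _ β = 0 := by
  induction w using TT.ind with
  | h f hf =>
    induction β using TT.ind with
    | h b hb =>
      have h1 := (TT.mk_eq_zero (hf := (lhom_pull (σ' := (extS ρ).ρH) inr fun b =>
        congrArg (extS ρ).ρH (rightHom_inr b).symm).mem hf)).1 hw
      have h2 := (TT.mk_eq_zero (hf := (lhomQ τ.φ0).mem hb)).1 hβ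
      have h3 := τ.exc_mul hh (extRep (extS ρ).ρH) ((SA.mem_Zev _).1 hf).1 h1
        ((SA.mem_Zev _).1 hb).1 h2
      simp only [unitE, LHom.mapA_apply, bv1_mk, TT.mk_mul]
      refine TT.mk_eq_zero.2 ?_
      have e : SA.cu f (cm (Algebra.linearMap ℚ (Lm (Hq h))) b) =
          cupm (LinearMap.lsmul ℚ _).flip f b := cupm_congr fun l l' => by
        simp [Algebra.algebraMap_eq_smul_one]
      rw [e]
      exact h3

theorem dl_I_unit_p (hh : 1 ≤ h) (c : TQ (Gam h)) (a : TE (extS ρ).ρE) :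
    (extS ρ).IE hh (a * unitE _ (pullQ rightHom c)) = unitE _ c * (extS ρ).IE hh a := by
  have e : unitE _ (pullQ rightHom c) = (extS ρ).pE (unitE _ c) :=
    (pullE_unitE (extS ρ).p _ c).symm
  rw [mul_comm, e]
  exact (extS ρ).I_mul hh (extS ρ).lhE _ _

theorem dl_I_om (hh : 1 ≤ h) (a : TE (extS ρ).ρE) :
    (extS ρ).IE hh ((mkBV (extS ρ).spE).om * a) = (mkBV (extS ρ).sp).om * (extS ρ).IE hh a := by
  have e : (mkBV (extS ρ).spE).om = (extS ρ).pE (mkBV (extS ρ).sp).om :=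
    ((extS ρ).mkPre hh).p_hom.map_om.symm
  rw [e]
  exact ((extS ρ).mkPre hh).I_p _ _

theorem dl_I_D1 (hh : 1 ≤ h) (hρ : IsRho ρ) : (extS ρ).IE hh (unitE _ (D1 hρ)) = 1 := by
  have h0 : (h : ℚ) ≠ 0 := Nat.cast_ne_zero.2 (by omega)
  have e := congrArg ((extS ρ).IE hh) (xx_eq_D1 hh hρ)
  rw [Ext.IE_xx, map_add, map_smul, map_smul, evG, Ext.IE_evC, smul_zero, zero_add, dl_I_om,
    Ext.IE_unitE] at e
  have e' := congrArg (mkBV (extS ρ).sp).L e
  rw [map_smul, map_smul, mul_comm, BV.L_scal _ (N_unitE _ _), BV.L_om, mul_smul_comm, mul_one,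
    smul_smul, smul_smul] at e'
  rw [Ext.IE_unitE]
  exact (smul_right_injective _ (mul_ne_zero two_ne_zero (neg_ne_zero.2 h0)) e').symm

/-- With `D = D1 - p c`: `I D = 1` (apply `L` to the integral of `xx_eq_D1`), `x D = 0` and
`(η - p s η) D = 0` by `exc_class`; so `D = Dl` by `IsSec.eq_Dl`. -/
theorem Dl_tube (hh : 1 ≤ h) (hρ : IsRho ρ) (τ : Tube ρ ρ') :
    pullQ τ.φ0 (augE _ (((extS ρ).frob hh).Dl (secS ρ))) = 0 := by
  obtain ⟨c, hc⟩ := D1_tube hh hρ τ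
  have hs := isSec_secS hh ρ
  have h1 : ((extS ρ).frob hh).I (unitE _ (D1 hρ - pullQ rightHom c)) = 1 := by
    change (extS ρ).IE hh _ = 1
    have e := dl_I_unit_p (ρ := ρ) hh c 1
    rw [one_mul, show (extS ρ).IE hh 1 = 0 from ((extS ρ).mkPre hh).I_one, mul_zero] at e
    rw [map_sub, map_sub, dl_I_D1, e, sub_zero]
  have e := hs.eq_Dl (D := unitE _ (D1 hρ - pullQ rightHom c)) (N_unitE (extS ρ).spE _) h1 (by
    change (extS ρ).IE hh ((extS ρ).xE * _) = secS ρ (extS ρ).xE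
    rw [exc_class hh τ (secS_x ρ) hc, map_zero, secS_x]) (by
    have e := exc_class hh τ (w := ((extS ρ).frob hh).η -
      ((extS ρ).frob hh).p (secS ρ ((extS ρ).frob hh).η)) (by rw [map_sub, hs.s_p, sub_self]) hc
    rw [sub_mul, sub_eq_zero] at e
    rw [e, PreFrob.I_p, h1, mul_one])
  rw [← e, augE_unitE, hc]

theorem tau_gam (hh : 1 ≤ h) (hρ : IsRho ρ) (τ : Tube ρ ρ') :
    (extS ρ).IE hh ((extS ρ).xE ^ 3) =
      (2 : ℚ) • TT.mk _ ((extS ρ).alt_mem (sigG_cross hρ) (invo_sigG ρ)) := by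
  obtain ⟨c, hc⟩ := D1_tube hh hρ τ
  have e := exc_class hh τ (secS_x ρ) hc
  rw [map_sub, mul_sub, sub_eq_zero] at e
  have e1 : (extS ρ).IE hh (extS ρ).xE = 0 := ((extS ρ).mkPre hh).I_x
  rw [pow_three, xx_eq_D1 hh hρ, mul_add, mul_smul_comm, mul_smul_comm, map_add, map_smul,
    map_smul, evG, Ext.IE_x_evC, mul_left_comm, dl_I_om, e, dl_I_unit_p, e1, mul_zero, mul_zero,
    smul_zero, add_zero]

end Pool.Agent.FP
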