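import Pool.Agent.FP.Br

/-! The Euler class of the boundary twist and the class of the diagonal. -/

namespace Pool.Agent.FP

open SemidirectProduct

variable {g : ℕ} {ρ : Gam g →* Aut g} {ρ' : Gam (g + 1) →* Aut (g + 1)}

/-- A class of degree two and integral one restricts to the fibre class. -/
theorem eul_fibre {E B : Type} [Group E] [Group B] (X : Ext g E B) {f : List E → ℚ}
    (hf : f ∈ Zc (triv E ℚ)) (lf : Len 3 f) (h : X.Top (triv B ℚ) f (cst 1)) :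
    pl X.j f - pl X.j X.eta ∈ Bc (triv (Sg g) ℚ) := by
  obtain ⟨k, hk, hb⟩ := h
  have e : cupm (LinearMap.lsmul ℚ ℚ) X.eta (pl X.p (cst 1)) = X.eta := by
    rw [pl_cst, cupm_cst_right _ X.eta_mem.1.1]
    funext l
    simp
  rw [e] at hb
  have h3 := comp_mem_Bc 3 hb
  rw [map_sub, map_sub, lf.comp_eq, X.len_eta.comp_eq] at h3
  have hd : dd (comp 3 k) = 0 := by
    have := (mem_Zc.1 (Bc_le_Zc h3)).2
    rwa [map_sub, map_sub, (mem_Zc.1 hf).2, (mem_Zc.1 X.eta_mem).2, sub_zero, zero_sub,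
      neg_eq_zero] at this
  have h4 := add_mem (pl_mem_Bc X.j h3) (X.fil_res (comp_mem_FilV 3 hk) hd (len_comp 3 k))
  rwa [map_sub, map_sub, sub_add_cancel] at h4

/-- A primitive off the diagonal of a class of integral one, on the boundary word. -/
theorem eul_bdw (hg : 1 ≤ g) (τ : Tube ρ ρ') {D : List (Sd ρ) → ℚ} (hD : D ∈ Zc (triv _ ℚ))
    (lD : Len 3 D) (h : (extS ρ).Top (triv _ ℚ) D (cst 1)) {b : List τ.G0 → ℚ}
    (hb : b ∈ Co (triv _ ℚ)) (db : dd b = pl τ.φ0 D) :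
    b [1, 1] - b [1, τ.iF (bdw g)] = 1 := by
  obtain ⟨β, hβ, dβ⟩ := eul_fibre (extS ρ) hD lD h
  have h0 : (g : ℚ) ≠ 0 := by exact_mod_cast (by omega : g ≠ 0)
  let γ : List (Fr g) → ℚ := pl τ.iF b - pl (mkS g) β
  have hγ : γ ∈ Co (triv (Fr g) ℚ) := sub_mem (pl_mem_Co τ.iF hb) (pl_mem_Co (mkS g) hβ)
  have dγ : dd γ = pl (mkS g) (pl (extS ρ).j (extS ρ).eta) := by
    rw [map_sub, dd_pl, dd_pl, db, dβ, τ.exc2_pl, map_sub]
    exact sub_sub_cancel _ _
  have hθ : ∀ x y, -γ [1, x * y] = -γ [1, x] + -γ [1, y] +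
      ((1 / (2 * g) : ℚ) • omL g) (ab (mkS g x)) (ab (mkS g y)) := fun x y => by
    have h1 := congrFun dγ [1, x, x * y]
    have h2 : γ [x * 1, x * y] = γ [1, y] := hγ.2 x [1, y]
    rw [dd_triple, pl_apply, pl_apply, Ext.eta, Pi.smul_apply] at h1
    simp only [List.map_cons, List.map_nil] at h1
    rw [cupm_triple _ (len_dif _) (len_dif _)] at h1
    simp only [dif, (extS ρ).k_j] at h1
    simp only [map_mul, map_one, ab_mul, ab_one, sub_zero, add_sub_cancel_left] at h1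
    rw [mul_one] at h2
    simp only [LinearMap.smul_apply]
    linarith
  have h1 := magnus_bdw (θ := fun x => -γ [1, x]) hθ
  have h2 := hθ 1 1
  have h3 : cas ((1 / (2 * g) : ℚ) • omL g) = 1 := by
    have := cas_omL_smul (g := g) (1 / (2 * g) : ℚ)
    rw [smul_eq_mul, mul_one_div_cancel (by simpa using h0)] at this
    refine Eq.trans (congrArg cas ?_) this
    ext u v
    simp [mul_comm]
  simp only [γ, Pi.sub_apply, pl_apply, List.map_cons, List.map_nil, map_one, mkS_bdw, mul_one,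
    ab_one, map_zero, h3] at h1 h2
  linarith

theorem eul_both (hg : 2 ≤ g) (hρ : IsRho ρ) (τ : Tube ρ ρ') {e : List (Aut g) → ℚ}
    (he : e ∈ (saQ _).Zev) (le : Len 3 e) (e3 : (extA hg).chiQ (by omega) = TT.mk e he) :
    (∃ η, Inv η ∧ cob η = pull (fun m : Mb g => ρ m) e ∧ η [1, 1] - η [1, tw g] = 1) ∧
    Bd (pull (fun x : Cpl g => (⟨PresentedGroup.mk _ x.left, x.right⟩ : Sd ρ))
      (pull (fun x => ρ x.right) e + pull (fun x => inn x.left * ρ x.right) e + th ρ)) := by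
  have h1 : 1 ≤ g := by omega
  have a1 := pull_mem (ρ.comp (rightHom : Sd ρ →* _)) he
  have a2 := pull_mem (q2 ρ) he
  have a3 := Submodule.smul_mem _ (1 / 2 : ℚ) (add_mem (add_mem a1 a2) (th_mem ρ))
  have b1 : TT.mk _ a1 = pullQ rightHom (eQ hg ρ) := by
    rw [eQ, e3, mk_pull _ he]
    exact (pullQ_pullQ _ _ _ (fun _ => rfl) _).symm
  have b2 : TT.mk _ a2 = eQ hg (q2 ρ) := by rw [eQ, e3, mk_pull _ he]
  have b3 : TT.mk _ a3 = DQ hg ρ := by
    rw [DQ_eq, ← b1, ← b2]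
    rfl
  have l3 : Len 3 (th ρ) := by
    rw [th_eq]
    exact Len.cupm (a := 1) (b := 1) (len_dif _) (len_dif _) _
  have lD := (((le.pl (ρ.comp (rightHom : Sd ρ →* _))).add (le.pl (q2 ρ))).add l3).smul (1 / 2)
  have c1 : pullQ τ.φ0 (TT.mk _ a3) = 0 := by rw [b3]; exact Dl_tube h1 hρ τ
  rw [← mk_pull] at c1
  obtain ⟨b, hb, db⟩ := TT.mk_eq_zero.1 c1
  have c2 : (extS ρ).IQ h1 (TT.mk _ a3) = 1 := by
    rw [b3, ← mul_one (DQ hg ρ), IQ_DQ_mul, map_one]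
  have c3 := eul_bdw h1 τ ((saQ _).mem_Zev.1 a3).1 lD
    ((extS ρ).top_of_I h1 (lhomQ _) a3 _ c2) hb db
  let ψ : Cpl g →* τ.G0 := SemidirectProduct.lift τ.iF τ.iM fun m => MonoidHom.ext fun x => by
    change τ.iF (m.1 x) = τ.iM m * τ.iF x * (τ.iM m)⁻¹
    rw [τ.conj, mul_inv_cancel_right]
  have hψ : ∀ x : Cpl g, τ.φ0 (ψ x) = ⟨PresentedGroup.mk _ x.left, x.right⟩ := fun x => by
    change τ.φ0 (τ.iF x.left * τ.iM x.right) = _
    rw [map_mul, τ.φ0_iF, τ.φ0_iM, mk_eq_inl_mul_inr]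
  refine ⟨⟨pl τ.iM b, inv_iff.2 (pl_mem_Co τ.iM hb), ?_, ?_⟩, bd_iff.2 ?_⟩
  · rw [cob_eq, dd_pl, db]
    funext l
    have z : th ρ ((l.map τ.iM).map τ.φ0) = 0 := by
      match l with
      | [] | [_] | [_, _] | _ :: _ :: _ :: _ :: _ => rfl
      | [x, y, z] => simp [th, τ.φ0_iM, ← omL_apply]
    have z1 : ∀ m : Mb g, ρ.comp rightHom (τ.φ0 (τ.iM m)) = ρ m := fun m => by simp [τ.φ0_iM]
    have z2 : ∀ m : Mb g, q2 ρ (τ.φ0 (τ.iM m)) = ρ m := fun m => by rw [τ.φ0_iM, q2_inr]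
    simp only [pl_apply, pull, Pi.smul_apply, Pi.add_apply, z]
    simp only [List.map_map, Function.comp_def, z1, z2, smul_eq_mul]
    ring
  · simpa only [pl_apply, List.map_cons, List.map_nil, map_one, τ.iM_tw] using c3
  · refine ⟨(2 : ℚ) • pl ψ b, Submodule.smul_mem _ _ (pl_mem_Co ψ hb), ?_⟩
    rw [map_smul, dd_pl, db]
    funext l
    simp only [pl_apply, pull, Pi.smul_apply, smul_smul, List.map_map, Function.comp_def, hψ]
    norm_num
    rfl

end Pool.Agent.FP
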