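import Pool.Agent.FP.Co4

/-! The commutative ring of classes of even total parity with values in a superalgebra. -/

namespace Pool.Agent.FP

/-- A supercommutative algebra with an action of `G`; `ι` is the parity involution. -/
structure SA (G A : Type) [Group G] [Ring A] [Algebra ℚ A] where
  ρ : Representation ℚ G A
  ι : A →ₗ[ℚ] A
  ρ_mul : ∀ g a b, ρ g (a * b) = ρ g a * ρ g b
  ρ_one : ∀ g, ρ g 1 = 1
  ι_mul : ∀ a b, ι (a * b) = ι a * ι b
  ι_one : ι 1 = 1
  ι_ι : ∀ a, ι (ι a) = a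
  ι_ρ : ∀ g a, ι (ρ g a) = ρ g (ι a)
  comm_even : ∀ a b, ι a = a → a * b = b * a
  comm_odd : ∀ a b, ι a = -a → ι b = -b → a * b = -(b * a)

variable {G G' A A' : Type} [Group G] [Ring A] [Algebra ℚ A] [Group G'] [Ring A'] [Algebra ℚ A']

namespace SA
variable (S : SA G A)

/-- The total parity operator on cochains. -/
def par : (List G → A) →ₗ[ℚ] (List G → A) := sg ∘ₗ cm S.ι

/-- Cocycles of even total parity. -/
def Zev : Submodule ℚ (List G → A) := Zc S.ρ ⊓ LinearMap.ker (S.par - LinearMap.id)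

theorem mem_Zev {f : List G → A} : f ∈ S.Zev ↔ f ∈ Zc S.ρ ∧ S.par f = f := by
  simp [Zev, sub_eq_zero]

theorem eqv_ι : Eqv S.ρ S.ρ S.ι := S.ι_ρ

theorem eqv₂_mul : Eqv₂ S.ρ S.ρ S.ρ (LinearMap.mul ℚ A) := fun g a b => (S.ρ_mul g a b).symm

/-- The cup product of cochains with values in the algebra. -/
abbrev cu (f h : List G → A) : List G → A := cupm (LinearMap.mul ℚ A) f h

theorem tt1_par (f : List G → A) : S.par f = sg (cm S.ι f) := rfl

theorem tt1_par_apply (f : List G → A) (l : List G) :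
    S.par f l = (-1 : ℚ) ^ (l.length + 1) • S.ι (f l) := rfl

theorem par_par (f : List G → A) : S.par (S.par f) = f := by
  rw [tt1_par, tt1_par, ← sg_cm, sg_sg]
  ext l
  exact S.ι_ι _

theorem par_mem_Zc {f : List G → A} (hf : f ∈ Zc S.ρ) : S.par f ∈ Zc S.ρ :=
  sg_mem_Zc (cm_mem_Zc S.eqv_ι hf)

theorem par_mem_Bc {f : List G → A} (hf : f ∈ Bc S.ρ) : S.par f ∈ Bc S.ρ :=
  sg_mem_Bc (cm_mem_Bc S.eqv_ι hf)

theorem par_cu (f h : List G → A) : S.par (cu f h) = cu (S.par f) (S.par h) := by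
  rw [tt1_par, tt1_par, tt1_par, cu, cu, ← sg_cupm, cm_cupm]
  congr 1
  exact cupm_congr fun l l' => S.ι_mul _ _

/-- The even part of a cocycle. -/
theorem even_mem {f : List G → A} (hf : f ∈ Zc S.ρ) : (1 / 2 : ℚ) • (f + S.par f) ∈ S.Zev :=
  S.mem_Zev.2 ⟨Submodule.smul_mem _ _ (add_mem hf (S.par_mem_Zc hf)), by
    rw [map_smul, map_add, par_par, add_comm]⟩

theorem cu_mem {f h : List G → A} (hf : f ∈ S.Zev) (hh : h ∈ S.Zev) : cu f h ∈ S.Zev :=
  S.mem_Zev.2 ⟨cupm_mem_Zc S.eqv₂_mul (S.mem_Zev.1 hf).1 (S.mem_Zev.1 hh).1, by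
    rw [par_cu, (S.mem_Zev.1 hf).2, (S.mem_Zev.1 hh).2]⟩

theorem cst_mem {a : A} (ha : ∀ g, S.ρ g a = a) (hι : S.ι a = a) :
    (cst a : List G → A) ∈ S.Zev :=
  S.mem_Zev.2 ⟨cst_mem_Zc ha, by rw [tt1_par, cm_cst, hι, sg_cst]⟩

theorem comp_mem (n : ℕ) {f : List G → A} (hf : f ∈ S.Zev) : comp n f ∈ S.Zev :=
  S.mem_Zev.2 ⟨comp_mem_Zc n (S.mem_Zev.1 hf).1, by
    rw [tt1_par, ← comp_cm, ← comp_sg, ← tt1_par, (S.mem_Zev.1 hf).2]⟩

/-- Crossed homomorphisms with odd values give even cocycles. -/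
theorem dif_mem {c : G → A} (hc : Cross S.ρ c) (ho : ∀ g, S.ι (c g) = -c g) : dif c ∈ S.Zev :=
  S.mem_Zev.2 ⟨hc.dif_mem, by
    ext l
    rw [tt1_par_apply]
    match l with
    | [] => simp [dif]
    | [_] => simp [dif]
    | [x, y] =>
      simp only [dif, map_sub, ho, List.length_cons, List.length_nil]
      norm_num
      abel
    | _ :: _ :: _ :: _ => simp [dif]⟩

theorem cu_comm {f h : List G → A} (hf : f ∈ S.Zev) (hh : h ∈ S.Zev) :
    cu f h - cu h f ∈ Bc S.ρ := by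
  refine cupm_comm S.eqv₂_mul S.eqv₂_mul (S.mem_Zev.1 hf).1 (S.mem_Zev.1 hh).1 fun l l' => ?_
  have e1 := congrFun (S.mem_Zev.1 hf).2 l
  have e2 := congrFun (S.mem_Zev.1 hh).2 l'
  rw [tt1_par_apply] at e1 e2
  simp only [LinearMap.mul_apply']
  rcases Nat.even_or_odd (l.length + 1) with h1 | h1
  · rw [h1.neg_one_pow, one_smul] at e1
    rw [(h1.mul_right _).neg_one_pow, one_smul]
    exact S.comm_even _ _ e1
  · rcases Nat.even_or_odd (l'.length + 1) with h2 | h2
    · rw [h2.neg_one_pow, one_smul] at e2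
      rw [(h2.mul_left _).neg_one_pow, one_smul]
      exact (S.comm_even _ _ e2).symm
    · rw [h1.neg_one_pow, neg_one_smul, neg_eq_iff_eq_neg] at e1
      rw [h2.neg_one_pow, neg_one_smul, neg_eq_iff_eq_neg] at e2
      rw [(h1.mul h2).neg_one_pow, neg_one_smul]
      exact S.comm_odd _ _ e1 e2

end SA

/-- Classes of even total parity. -/
def TT (S : SA G A) : Type := S.Zev ⧸ (Bc S.ρ).comap S.Zev.subtype

namespace TT
variable {S : SA G A}

instance : AddCommGroup (TT S) := inferInstanceAs (AddCommGroup (_ ⧸ _))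

instance : Module ℚ (TT S) := inferInstanceAs (Module ℚ (_ ⧸ _))

/-- The class of a cocycle. -/
def mk (f : List G → A) (hf : f ∈ S.Zev) : TT S := Submodule.Quotient.mk ⟨f, hf⟩

theorem mk_eq_mk {f h : List G → A} {hf : f ∈ S.Zev} {hh : h ∈ S.Zev} :
    mk f hf = mk h hh ↔ f - h ∈ Bc S.ρ := Submodule.Quotient.eq _

theorem mk_congr {f h : List G → A} {hf : f ∈ S.Zev} {hh : h ∈ S.Zev} (e : f = h) :
    mk f hf = mk h hh := by subst e; rfl

theorem ind {P : TT S → Prop} (h : ∀ f hf, P (mk f hf)) (a : TT S) : P a := by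
  obtain ⟨⟨f, hf⟩, rfl⟩ := Submodule.Quotient.mk_surjective _ a
  exact h f hf

theorem mk_add {f h : List G → A} (hf : f ∈ S.Zev) (hh : h ∈ S.Zev) :
    mk f hf + mk h hh = mk (f + h) (add_mem hf hh) := rfl

theorem mk_sub {f h : List G → A} (hf : f ∈ S.Zev) (hh : h ∈ S.Zev) :
    mk f hf - mk h hh = mk (f - h) (sub_mem hf hh) := rfl

theorem mk_neg {f : List G → A} (hf : f ∈ S.Zev) : -mk f hf = mk (-f) (neg_mem hf) := rfl

theorem mk_smul (c : ℚ) {f : List G → A} (hf : f ∈ S.Zev) :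
    c • mk f hf = mk (c • f) (Submodule.smul_mem _ c hf) := rfl

theorem mk_zero : mk (S := S) 0 (zero_mem _) = 0 := rfl

theorem mk_eq_zero {f : List G → A} {hf : f ∈ S.Zev} : mk f hf = 0 ↔ f ∈ Bc S.ρ := by
  rw [← mk_zero, mk_eq_mk, sub_zero]

/-- The product of classes. -/
def mul' (a b : TT S) : TT S :=
  Quotient.liftOn₂' a b (fun f h => mk (SA.cu f.1 h.1) (S.cu_mem f.2 h.2)) (by
    intro f h f' h' e1 e2
    rw [Submodule.quotientRel_def] at e1 e2
    exact mk_eq_mk.2 (cupm_sub_mem_Bc S.eqv₂_mul (S.mem_Zev.1 f.2).1 (S.mem_Zev.1 h'.2).1 e1 e2))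

instance : Mul (TT S) := ⟨mul'⟩

instance : One (TT S) := ⟨mk (cst 1) (S.cst_mem S.ρ_one S.ι_one)⟩

theorem mk_mul {f h : List G → A} (hf : f ∈ S.Zev) (hh : h ∈ S.Zev) :
    mk f hf * mk h hh = mk (SA.cu f h) (S.cu_mem hf hh) := rfl

theorem one_def : (1 : TT S) = mk (cst 1) (S.cst_mem S.ρ_one S.ι_one) := rfl

theorem nil_eq {f : List G → A} (hf : f ∈ S.Zev) : f [] = 0 := (S.mem_Zev.1 hf).1.1.1

theorem mul_comm' (a b : TT S) : a * b = b * a := by
  induction a using ind
  induction b using ind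
  exact mk_eq_mk.2 (S.cu_comm ‹_› ‹_›)

theorem mul_assoc' (a b c : TT S) : a * b * c = a * (b * c) := by
  induction a using ind
  induction b using ind
  induction c using ind
  exact mk_congr (cupm_assoc (fun u v w => mul_assoc u v w) _ _ _)

theorem one_mul' (a : TT S) : 1 * a = a := by
  induction a using ind with
  | h f hf =>
    refine mk_congr ((cupm_cst_left _ _ (nil_eq hf)).trans ?_)
    ext l
    simp

theorem mul_add' (a b c : TT S) : a * (b + c) = a * b + a * c := by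
  induction a using ind
  induction b using ind
  induction c using ind
  exact mk_congr (map_add _ _ _)

theorem mul_smul' (c : ℚ) (a b : TT S) : a * (c • b) = c • (a * b) := by
  induction a using ind
  induction b using ind
  exact mk_congr (map_smul _ _ _)

theorem mul_zero' (a : TT S) : a * 0 = 0 := by
  induction a using ind
  exact mk_congr (map_zero _)

instance : CommRing (TT S) :=
  { (inferInstance : AddCommGroup (TT S)) with
    mul := (· * ·)
    one := 1
    mul_comm := mul_comm'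
    mul_assoc := mul_assoc'
    one_mul := one_mul'
    mul_one := fun a => (mul_comm' a 1).trans (one_mul' a)
    left_distrib := mul_add'
    right_distrib := fun a b c => by
      rw [mul_comm' (a + b) c, mul_add', mul_comm' c a, mul_comm' c b]
    mul_zero := mul_zero'
    zero_mul := fun a => (mul_comm' 0 a).trans (mul_zero' a) }

instance : Algebra ℚ (TT S) :=
  Algebra.ofModule (fun c a b => by rw [mul_comm, mul_smul', mul_comm])
    (fun c a b => mul_smul' c a b)

end TT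

/-- A linear map of coefficients compatible with a homomorphism of groups. -/
structure LHom (S : SA G A) (S' : SA G' A') (φ : G' →* G) (ψ : A →ₗ[ℚ] A') : Prop where
  eqv : Eqv (S.ρ.comp φ) S'.ρ ψ
  par : ∀ a, ψ (S.ι a) = S'.ι (ψ a)

namespace LHom
variable {S : SA G A} {S' : SA G' A'} {φ : G' →* G} {ψ : A →ₗ[ℚ] A'}

theorem mem (H : LHom S S' φ ψ) {f : List G → A} (hf : f ∈ S.Zev) : cm ψ (pl φ f) ∈ S'.Zev :=
  S'.mem_Zev.2 ⟨cm_mem_Zc H.eqv (pl_mem_Zc φ (S.mem_Zev.1 hf).1), by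
    ext l
    have e := congrFun (S.mem_Zev.1 hf).2 (l.map φ)
    rw [SA.tt1_par_apply, List.length_map] at e
    rw [SA.tt1_par_apply, cm_apply, pl_apply, ← H.par, ← map_smul, e]⟩

/-- The induced map on classes. -/
def map (H : LHom S S' φ ψ) : TT S →ₗ[ℚ] TT S' :=
  Submodule.mapQ _ _ (((cm ψ ∘ₗ pl φ).domRestrict S.Zev).codRestrict S'.Zev fun f => H.mem f.2)
    (fun _ hf => cm_mem_Bc H.eqv (pl_mem_Bc φ hf))

theorem map_mk (H : LHom S S' φ ψ) {f : List G → A} (hf : f ∈ S.Zev) :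
    H.map (TT.mk f hf) = TT.mk (cm ψ (pl φ f)) (H.mem hf) := rfl

/-- The induced algebra map, for a multiplicative map of coefficients. -/
def mapA (H : LHom S S' φ ψ) (h1 : ψ 1 = 1) (hm : ∀ a b, ψ (a * b) = ψ a * ψ b) :
    TT S →ₐ[ℚ] TT S' :=
  AlgHom.ofLinearMap H.map (by
    rw [TT.one_def, TT.one_def, map_mk]
    exact TT.mk_congr (by rw [pl_cst, cm_cst, h1])) (by
    intro a b
    induction a using TT.ind
    induction b using TT.ind
    rw [TT.mk_mul, map_mk, map_mk, map_mk, TT.mk_mul]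
    refine TT.mk_congr ?_
    rw [pl_cupm, cm_cupm]
    exact cupm_congr fun l l' => hm _ _)

theorem mapA_apply (H : LHom S S' φ ψ) (h1 : ψ 1 = 1) (hm : ∀ a b, ψ (a * b) = ψ a * ψ b)
    (a : TT S) : H.mapA h1 hm a = H.map a := rfl

end LHom

/-- The rational numbers with the trivial action. -/
def saQ (G : Type) [Group G] : SA G ℚ where
  ρ := triv G ℚ
  ι := LinearMap.id
  ρ_mul := fun _ _ _ => rfl
  ρ_one := fun _ => rfl
  ι_mul := fun _ _ => rfl
  ι_one := rfl
  ι_ι := fun _ => rfl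
  ι_ρ := fun _ _ => rfl
  comm_even := fun a b _ => mul_comm a b
  comm_odd := fun a b ha _ => by
    have : a = 0 := by simp only [LinearMap.id_coe, id_eq] at ha; linarith
    simp [this]

/-- Even rational cohomology. -/
abbrev TQ (G : Type) [Group G] : Type := TT (saQ G)

theorem lhomQ (φ : G' →* G) : LHom (saQ G) (saQ G') φ LinearMap.id :=
  ⟨fun _ _ => rfl, fun _ => rfl⟩

/-- Pull-back in rational cohomology. -/
def pullQ (φ : G' →* G) : TQ G →ₐ[ℚ] TQ G' := (lhomQ φ).mapA rfl fun _ _ => rfl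

/-- Classes of cohomological degree `n`. -/
def TT.Deg {S : SA G A} (n : ℕ) (a : TT S) : Prop :=
  ∃ f hf, Len (n + 1) f ∧ a = TT.mk f hf

end Pool.Agent.FP
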