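import Pool.Agent.FP.ExDefs
import Pool.Agent.FP.TT1

/-! Basic identities in exterior algebras. Most proofs are inductions with
`CliffordAlgebra.left_induction` or `ExteriorAlgebra.induction`. -/

namespace Pool.Agent.FP

variable {V V' : Type} [AddCommGroup V] [Module ℚ V] [AddCommGroup V'] [Module ℚ V'] {g : ℕ}

theorem ex1_ind {P : Lm V → Prop} (h1 : ∀ c : ℚ, P (c • 1)) (h2 : ∀ a b, P a → P b → P (a + b))
    (h3 : ∀ v a, P a → P (io v * a)) (a : Lm V) : P a := by
  induction a using CliffordAlgebra.left_induction with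
  | algebraMap r => rw [Algebra.algebraMap_eq_smul_one]; exact h1 r
  | add x y hx hy => exact h2 x y hx hy
  | ι_mul x m hx => exact h3 m x hx

theorem invo_io (v : V) : invo (io v) = -io v :=
  CliffordAlgebra.involute_ι v

theorem invo_mul (a b : Lm V) : invo (a * b) = invo a * invo b :=
  map_mul (CliffordAlgebra.involute : Lm V →ₐ[ℚ] Lm V) a b

theorem invo_one : invo (1 : Lm V) = 1 :=
  map_one (CliffordAlgebra.involute : Lm V →ₐ[ℚ] Lm V)

theorem invo_invo (a : Lm V) : invo (invo a) = a :=
  CliffordAlgebra.involute_involute a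

theorem invo_emap (φ : V →ₗ[ℚ] V') (a : Lm V) : invo (emap φ a) = emap φ (invo a) := by
  induction a using ex1_ind with
  | h1 c => simp only [map_smul, map_one, invo_one]
  | h2 a b ha hb => simp only [map_add, ha, hb]
  | h3 v a ha =>
    simp only [map_mul, invo_mul, ExteriorAlgebra.map_apply_ι, invo_io, ha, map_neg]

theorem io_mul_comm (v : V) (a : Lm V) : io v * a = invo a * io v := by
  induction a using ex1_ind with
  | h1 c => simp only [map_smul, invo_one, mul_smul_comm, smul_mul_assoc, mul_one, one_mul]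
  | h2 a b ha hb => simp only [map_add, mul_add, add_mul, ha, hb]
  | h3 u a ha =>
    rw [invo_mul, invo_io, mul_assoc, ← ha, ← mul_assoc, ← mul_assoc, neg_mul,
      eq_neg_of_add_eq_zero_left (ExteriorAlgebra.ι_add_mul_swap v u)]

theorem comm_even (a b : Lm V) (ha : invo a = a) : a * b = b * a := by
  induction b using ex1_ind with
  | h1 c => simp only [mul_smul_comm, smul_mul_assoc, mul_one, one_mul]
  | h2 b c hb hc => simp only [mul_add, add_mul, hb, hc]
  | h3 v b hb =>
    have h := io_mul_comm v a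
    rw [ha] at h
    rw [← mul_assoc, ← h, mul_assoc, hb, mul_assoc]

theorem comm_odd (a b : Lm V) (ha : invo a = -a) (hb : invo b = -b) : a * b = -(b * a) := by
  have h : ∀ c : Lm V, a * c = invo c * a := by
    intro c
    induction c using ex1_ind with
    | h1 c => simp only [map_smul, invo_one, mul_smul_comm, smul_mul_assoc, mul_one, one_mul]
    | h2 b c hb hc => simp only [map_add, mul_add, add_mul, hb, hc]
    | h3 v c hc =>
      have h := io_mul_comm v a
      rw [ha, neg_mul] at h
      rw [invo_mul, invo_io, mul_assoc, ← hc, ← mul_assoc, ← mul_assoc, neg_mul, h, neg_neg]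
  rw [h, hb, neg_mul]

theorem cL_one (f : Module.Dual ℚ V) : cL f 1 = 0 :=
  CliffordAlgebra.contractLeft_one _ f

theorem cL_io (f : Module.Dual ℚ V) (v : V) : cL f (io v) = f v • (1 : Lm V) :=
  (CliffordAlgebra.contractLeft_ι _ f v).trans (Algebra.algebraMap_eq_smul_one _)

theorem cL_io_mul (f : Module.Dual ℚ V) (v : V) (a : Lm V) :
    cL f (io v * a) = f v • a - io v * cL f a :=
  CliffordAlgebra.contractLeft_ι_mul f v a

theorem cL_mul (f : Module.Dual ℚ V) (a b : Lm V) :
    cL f (a * b) = cL f a * b + invo a * cL f b := by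
  induction a using ex1_ind with
  | h1 c => simp only [map_smul, smul_mul_assoc, one_mul, cL_one, invo_one, smul_zero, zero_mul,
      zero_add]
  | h2 a c ha hc =>
    simp only [map_add, add_mul, ha, hc]
    abel
  | h3 v a ha =>
    rw [mul_assoc, cL_io_mul, cL_io_mul, ha, invo_mul, invo_io]
    simp only [mul_add, sub_mul, smul_mul_assoc, mul_assoc, neg_mul]
    abel

theorem cL_cL (f : Module.Dual ℚ V) (a : Lm V) : cL f (cL f a) = 0 :=
  CliffordAlgebra.contractLeft_contractLeft f a

theorem cL_comm (f f' : Module.Dual ℚ V) (a : Lm V) : cL f (cL f' a) = -cL f' (cL f a) :=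
  CliffordAlgebra.contractLeft_comm f f' a

theorem cL_add (f f' : Module.Dual ℚ V) : cL (f + f') = cL f + cL f' :=
  map_add (CliffordAlgebra.contractLeft (Q := (0 : QuadraticForm ℚ V))) f f'

theorem cL_smul (c : ℚ) (f : Module.Dual ℚ V) : cL (c • f) = c • cL f :=
  map_smul (CliffordAlgebra.contractLeft (Q := (0 : QuadraticForm ℚ V))) c f

theorem cL_zero : cL (0 : Module.Dual ℚ V) = 0 :=
  map_zero (CliffordAlgebra.contractLeft (Q := (0 : QuadraticForm ℚ V)))

theorem cL_emap (f : Module.Dual ℚ V') (φ : V →ₗ[ℚ] V') (a : Lm V) :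
    cL f (emap φ a) = emap φ (cL (f ∘ₗ φ) a) := by
  induction a using ex1_ind with
  | h1 c => simp only [map_smul, map_one, cL_one, map_zero]
  | h2 a b ha hb => simp only [map_add, ha, hb]
  | h3 v a ha =>
    simp only [map_mul, ExteriorAlgebra.map_apply_ι, cL_io_mul, ha, map_sub, map_smul,
      LinearMap.comp_apply]

theorem invo_cL (f : Module.Dual ℚ V) (a : Lm V) : invo (cL f a) = -cL f (invo a) := by
  induction a using ex1_ind with
  | h1 c => simp only [map_smul, invo_one, cL_one, smul_zero, map_zero, neg_zero]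
  | h2 a b ha hb => simp only [map_add, ha, hb, neg_add]
  | h3 v a ha =>
    simp only [cL_io_mul, map_sub, map_smul, invo_mul, invo_io, ha, neg_mul, map_neg, neg_neg,
      mul_neg]

theorem ex1_der (φ : V →ₗ[ℚ] V) (a : Lm V) : der φ a = (derA φ a).snd := rfl

theorem ex1_derA (φ : V →ₗ[ℚ] V) (v : V) :
    derA φ (io v) = TrivSqZeroExt.inl (io v) + TrivSqZeroExt.inr (io (φ v)) :=
  ExteriorAlgebra.lift_ι_apply _ _ _ v

theorem ex1_fst (φ : V →ₗ[ℚ] V) (a : Lm V) : (derA φ a).fst = a := by
  induction a using ex1_ind with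
  | h1 c => simp only [map_smul, map_one, TrivSqZeroExt.fst_smul, TrivSqZeroExt.fst_one]
  | h2 a b ha hb => simp only [map_add, TrivSqZeroExt.fst_add, ha, hb]
  | h3 v a ha =>
    rw [map_mul, TrivSqZeroExt.fst_mul, ha, ex1_derA]
    simp

theorem der_one (φ : V →ₗ[ℚ] V) : der φ 1 = 0 := by
  rw [ex1_der, map_one, TrivSqZeroExt.snd_one]

theorem der_io (φ : V →ₗ[ℚ] V) (v : V) : der φ (io v) = io (φ v) := by
  rw [ex1_der, ex1_derA]
  simp

theorem der_mul (φ : V →ₗ[ℚ] V) (a b : Lm V) : der φ (a * b) = der φ a * b + a * der φ b := by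
  rw [ex1_der, ex1_der, ex1_der, map_mul, TrivSqZeroExt.snd_mul, ex1_fst, ex1_fst, add_comm]
  rfl

theorem emap_der {φ : V →ₗ[ℚ] V} {φ' : V' →ₗ[ℚ] V'} {ψ : V →ₗ[ℚ] V'} (h : ψ ∘ₗ φ = φ' ∘ₗ ψ)
    (a : Lm V) : emap ψ (der φ a) = der φ' (emap ψ a) := by
  have h1 : ∀ v, ψ (φ v) = φ' (ψ v) := fun v => LinearMap.congr_fun h v
  induction a using ex1_ind with
  | h1 c => simp only [map_smul, map_one, der_one, map_zero]
  | h2 a b ha hb => simp only [map_add, ha, hb]
  | h3 v a ha =>
    simp only [der_mul, der_io, map_add, map_mul, ExteriorAlgebra.map_apply_ι, ha, h1]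

theorem invo_der (φ : V →ₗ[ℚ] V) (a : Lm V) : invo (der φ a) = der φ (invo a) := by
  induction a using ex1_ind with
  | h1 c => simp only [map_smul, invo_one, der_one, map_zero]
  | h2 a b ha hb => simp only [map_add, ha, hb]
  | h3 v a ha =>
    simp only [der_mul, der_io, map_add, invo_mul, invo_io, ha, map_neg]

theorem cL_der (f : Module.Dual ℚ V) (φ : V →ₗ[ℚ] V) (a : Lm V) :
    cL f (der φ a) = der φ (cL f a) + cL (f ∘ₗ φ) a := by
  induction a using ex1_ind with
  | h1 c => simp only [map_smul, der_one, cL_one, map_zero, smul_zero, add_zero]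
  | h2 a b ha hb =>
    simp only [map_add, ha, hb]
    abel
  | h3 v a ha =>
    simp only [der_mul, der_io, map_add, cL_io_mul, ha, map_sub, map_smul, mul_add,
      LinearMap.comp_apply]
    abel

theorem ex1_aug (v : V) : aug V (io v) = 0 := ExteriorAlgebra.lift_ι_apply _ _ _ v

theorem aug_emap (φ : V →ₗ[ℚ] V') (a : Lm V) : aug V' (emap φ a) = aug V a := by
  induction a using ex1_ind with
  | h1 c => simp only [map_smul, map_one]
  | h2 a b ha hb => simp only [map_add, ha, hb]
  | h3 v a ha => simp only [map_mul, ExteriorAlgebra.map_apply_ι, ex1_aug, zero_mul]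

theorem aug_invo (a : Lm V) : aug V (invo a) = aug V a := by
  induction a using ex1_ind with
  | h1 c => simp only [map_smul, invo_one]
  | h2 a b ha hb => simp only [map_add, ha, hb]
  | h3 v a ha => simp only [invo_mul, invo_io, map_mul, map_neg, ex1_aug, zero_mul, neg_zero]

theorem aug_der (φ : V →ₗ[ℚ] V) (a : Lm V) : aug V (der φ a) = 0 := by
  induction a using ex1_ind with
  | h1 c => simp only [map_smul, der_one, map_zero, smul_zero]
  | h2 a b ha hb => simp only [map_add, ha, hb, add_zero]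
  | h3 v a ha => simp only [der_mul, der_io, map_add, map_mul, ex1_aug, zero_mul, add_zero]

theorem PP_apply (a : Lm V) : PP V a = aug V a • (1 : Lm V) :=
  Algebra.algebraMap_eq_smul_one (A := Lm V) (aug V a)

theorem ιInv_emap (φ : V →ₗ[ℚ] V') (a : Lm V) :
    ExteriorAlgebra.ιInv (emap φ a) = φ (ExteriorAlgebra.ιInv a) :=
  LinearMap.congr_fun (ExteriorAlgebra.ιInv_comp_map φ) a

theorem Lop_apply (α β : Fin g → Module.Dual ℚ V) (a : Lm V) :
    Lop α β a = ∑ i, cL (α i) (cL (β i) a) := by
  simp only [Lop, LinearMap.sum_apply, LinearMap.comp_apply]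

theorem invo_Lop (α β : Fin g → Module.Dual ℚ V) (a : Lm V) :
    invo (Lop α β a) = Lop α β (invo a) := by
  simp only [Lop_apply, map_sum, invo_cL, map_neg, neg_neg]

theorem Lop_mul (α β : Fin g → Module.Dual ℚ V) (a b : Lm V) :
    Lop α β (a * b) = Lop α β a * b + a * Lop α β b +
      ∑ i, (cL (α i) (invo a) * cL (β i) b - cL (β i) (invo a) * cL (α i) b) := by
  simp only [Lop_apply, Finset.sum_mul, Finset.mul_sum, ← Finset.sum_add_distrib]
  refine Finset.sum_congr rfl fun i _ => ?_
  simp only [cL_mul, map_add, invo_cL, invo_invo, neg_mul]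
  abel

theorem Lop_NN (α β : Fin g → Module.Dual ℚ V) (a : Lm V) :
    Lop α β (NN V a) = NN V (Lop α β a) + (2 : ℚ) • Lop α β a := by
  simp only [Lop_apply, NN, map_sum, Finset.smul_sum, ← Finset.sum_add_distrib]
  refine Finset.sum_congr rfl fun i _ => ?_
  simp only [cL_der, map_add, LinearMap.comp_id, two_smul]
  abel

theorem Lop_io_io (α β : Fin g → Module.Dual ℚ V) (u v : V) :
    Lop α β (io u * io v) = (∑ i, (β i u * α i v - α i u * β i v)) • (1 : Lm V) := by
  simp only [Lop_apply, Finset.sum_smul]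
  refine Finset.sum_congr rfl fun i _ => ?_
  simp only [cL_io_mul, cL_io, map_sub, map_smul, mul_smul_comm, mul_one, smul_smul, sub_smul,
    mul_comm]

theorem ex1_sum {ι : Type} [Fintype ι] (b : Module.Basis ι ℚ V) (f : Module.Dual ℚ V) (a : Lm V) :
    cL f a = ∑ k, f (b k) • cL (b.coord k) a := by
  have h := congrArg (fun f' => CliffordAlgebra.contractLeft (Q := (0 : QuadraticForm ℚ V)) f' a)
    (b.sum_dual_apply_smul_coord f)
  simp only [map_sum, map_smul, LinearMap.sum_apply, LinearMap.smul_apply] at h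
  exact h.symm

theorem ex1_sum2 {ι : Type} [Fintype ι] (b : Module.Basis ι ℚ V) (f f' : Module.Dual ℚ V)
    (a : Lm V) :
    cL f (cL f' a) = ∑ k, ∑ l, (f (b k) * f' (b l)) • cL (b.coord k) (cL (b.coord l) a) := by
  rw [ex1_sum b f, ex1_sum b f']
  simp only [map_sum, map_smul, Finset.smul_sum, smul_smul]

theorem ex1_two {ι : Type} [Fintype ι] (b : Module.Basis ι ℚ V) (α β : Fin g → Module.Dual ℚ V)
    (a : Lm V) : (2 : ℚ) • Lop α β a = ∑ k, ∑ l, (∑ i, (α i (b k) * β i (b l) -
      β i (b k) * α i (b l))) • cL (b.coord k) (cL (b.coord l) a) := by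
  have h : ∀ i, (2 : ℚ) • cL (α i) (cL (β i) a) = ∑ k, ∑ l, (α i (b k) * β i (b l) -
      β i (b k) * α i (b l)) • cL (b.coord k) (cL (b.coord l) a) := by
    intro i
    simp only [sub_smul, Finset.sum_sub_distrib]
    rw [← ex1_sum2, ← ex1_sum2, cL_comm (β i), sub_neg_eq_add, two_smul]
  rw [Lop_apply, Finset.smul_sum, Finset.sum_congr rfl fun i _ => h i, Finset.sum_comm]
  refine Finset.sum_congr rfl fun k _ => ?_
  rw [Finset.sum_comm]
  simp only [Finset.sum_smul]

/-- A double contraction depends only on the alternating form of the covectors. Expand the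
covectors in the dual basis of `b`. -/
theorem Lop_congr {ι : Type} [Fintype ι] (b : Module.Basis ι ℚ V)
    {α β α' β' : Fin g → Module.Dual ℚ V}
    (h : ∀ u v, ∑ i, (α i u * β i v - β i u * α i v) = ∑ i, (α' i u * β' i v - β' i u * α' i v)) :
    Lop α β = Lop α' β' := by
  refine LinearMap.ext fun a => ?_
  refine smul_right_injective (Lm V) (two_ne_zero (α := ℚ)) ?_
  simp only [ex1_two b, h]

theorem Lop_emap (α β : Fin g → Module.Dual ℚ V') (φ : V →ₗ[ℚ] V') (a : Lm V) :
    Lop α β (emap φ a) = emap φ (Lop (fun i => α i ∘ₗ φ) (fun i => β i ∘ₗ φ) a) := by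
  simp only [Lop_apply, map_sum, cL_emap]

/-- The exterior algebra of a representation. -/
def saE {G : Type} [Group G] (ρ : Representation ℚ G V) : SA G (Lm V) where
  ρ := extRep ρ
  ι := invo
  ρ_mul := fun x a b => map_mul (emap (ρ x)) a b
  ρ_one := fun x => map_one (emap (ρ x))
  ι_mul := invo_mul
  ι_one := invo_one
  ι_ι := invo_invo
  ι_ρ := fun x a => invo_emap (ρ x) a
  comm_even := comm_even
  comm_odd := comm_odd

end Pool.Agent.FP
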