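import Pool.Agent.FP.Ex1
import Pool.Agent.FP.Co5b

/-! Pointwise BV identities for the symplectic space. -/

namespace Pool.Agent.FP

variable {g : ℕ}

/-- Linear maps preserving the form. -/
def Sp (φ : Hq g →ₗ[ℚ] Hq g) : Prop := ∀ u v, om (φ u) (φ v) = om u v

theorem LL_emap {φ : Hq g →ₗ[ℚ] Hq g} (hφ : Sp φ) (a : Lm (Hq g)) :
    LL g (emap φ a) = emap φ (LL g a) := by
  rw [LL, Lop_emap, Lop_congr (Pi.basisFun ℚ (Fin g × Bool)) (α := fun i => cv (i, false) ∘ₗ φ)
    (β := fun i => cv (i, true) ∘ₗ φ) (α' := fun i => cv (i, false))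
    (β' := fun i => cv (i, true)) fun u v => hφ u v]

theorem invo_LL (a : Lm (Hq g)) : invo (LL g a) = LL g (invo a) :=
  invo_Lop _ _ a

theorem ex2_swap (u v : Hq g) : (io u * io v : Lm (Hq g)) = -(io v * io u) :=
  eq_neg_of_add_eq_zero_left (ExteriorAlgebra.ι_add_mul_swap u v)

theorem two_smul_omE : (2 : ℚ) • omE g = cas ((LinearMap.mul ℚ _).compl₁₂ io io) := by
  rw [omE, cas, Finset.smul_sum]
  refine Finset.sum_congr rfl fun i _ => ?_
  rw [LinearMap.compl₁₂_apply, LinearMap.compl₁₂_apply, LinearMap.mul_apply', LinearMap.mul_apply',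
    ex2_swap (bv (i, true)), sub_neg_eq_add, two_smul]

theorem emap_omE {φ ψ : Hq g →ₗ[ℚ] Hq g} (hψ : ∀ v, φ (ψ v) = v) (hφ : Sp φ) :
    emap φ (omE g) = omE g := by
  refine smul_right_injective _ (two_ne_zero (α := ℚ)) ?_
  simp only
  rw [← map_smul, two_smul_omE]
  refine Eq.trans ?_ (cas_comp _ hψ hφ)
  simp only [cas, LinearMap.compl₁₂_apply, LinearMap.mul_apply', map_sum, map_sub, map_mul,
    ExteriorAlgebra.map_apply_ι]

theorem invo_omE : invo (omE g) = omE g := by
  simp only [omE, map_sum, invo_mul, invo_io, neg_mul_neg]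

theorem LL_io (v : Hq g) : LL g (io v) = 0 := by
  simp only [LL, Lop_apply, cL_io, map_smul, cL_one, smul_zero, Finset.sum_const_zero]

theorem LL_io_io (u v : Hq g) : LL g (io u * io v) = -om u v • (1 : Lm (Hq g)) := by
  rw [LL, Lop_io_io, om, ← Finset.sum_neg_distrib]
  exact congrArg (· • (1 : Lm (Hq g))) (Finset.sum_congr rfl fun i _ => (neg_sub _ _).symm)

theorem LL_omE : LL g (omE g) = -(g : ℚ) • (1 : Lm (Hq g)) := by
  have h : ∀ i : Fin g, om (bv (i, false)) (bv (i, true)) = 1 := fun i => by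
    simp [om, bv, Pi.single_apply]
  simp only [omE, map_sum, LL_io_io, h, Finset.sum_const, Finset.card_univ, Fintype.card_fin]
  rw [← Nat.cast_smul_eq_nsmul ℚ, smul_smul, mul_neg_one]

theorem ex2_NN_io (v : Hq g) : NN _ (io v) = io v := der_io _ v

theorem ex2_NN_mul (a b : Lm (Hq g)) : NN _ (a * b) = NN _ a * b + a * NN _ b := der_mul _ a b

theorem ex2_NN_one : NN (Hq g) 1 = 0 := der_one _

theorem ex2_LL_one : LL g 1 = 0 := by
  simp only [LL, Lop_apply, cL_one, map_zero, Finset.sum_const_zero]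

theorem NN_omE : NN _ (omE g) = (2 : ℚ) • omE g := by
  simp only [omE, map_sum, ex2_NN_mul, ex2_NN_io, Finset.smul_sum, two_smul, Finset.sum_add_distrib]

theorem ex2_cv_bv (i j : Fin g × Bool) : cv i (bv j) = if i = j then 1 else 0 := by
  simp [cv, bv, Pi.single_apply]

theorem ex2_cL_false (i : Fin g) : cL (cv (i, false)) (omE g) = io (bv (i, true)) := by
  simp [omE, map_sum, cL_io_mul, cL_io, ex2_cv_bv]

theorem ex2_cL_true (i : Fin g) : cL (cv (i, true)) (omE g) = -io (bv (i, false)) := by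
  simp [omE, map_sum, cL_io_mul, cL_io, ex2_cv_bv]

theorem ex2_euler (a : Lm (Hq g)) : ∑ j, io (bv j) * cL (cv j) a = NN _ a := by
  induction a using CliffordAlgebra.left_induction with
  | algebraMap r =>
    rw [Algebra.algebraMap_eq_smul_one]
    simp only [map_smul, cL_one, ex2_NN_one, smul_zero, mul_zero, Finset.sum_const_zero]
  | add x y hx hy => simp only [map_add, mul_add, Finset.sum_add_distrib, hx, hy]
  | ι_mul x v hx =>
    have h1 : ∑ j, cv j v • (io (bv j) : Lm (Hq g)) = io v := by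
      simp only [← map_smul, ← map_sum]
      congr 1
      funext k
      simp [cv, bv, Pi.single_apply]
    change ∑ j, io (bv j) * cL (cv j) (io v * x) = NN _ (io v * x)
    rw [ex2_NN_mul, ex2_NN_io, ← hx, Finset.mul_sum]
    conv_rhs => rw [← h1, Finset.sum_mul, h1, ← Finset.sum_add_distrib]
    refine Finset.sum_congr rfl fun j _ => ?_
    rw [cL_io_mul, mul_sub, ← mul_assoc, ← mul_assoc, ex2_swap (bv j), neg_mul, sub_neg_eq_add,
      mul_smul_comm, smul_mul_assoc]

theorem LL_omE_mul (a : Lm (Hq g)) :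
    LL g (omE g * a) = -(g : ℚ) • a + omE g * LL g a + NN _ a := by
  have h := LL_omE (g := g)
  rw [LL] at h
  rw [LL, Lop_mul, h, invo_omE, smul_mul_assoc, one_mul, ← ex2_euler, Fintype.sum_prod_type]
  congr 1
  refine Finset.sum_congr rfl fun i _ => ?_
  rw [ex2_cL_false, ex2_cL_true, Fintype.sum_bool, neg_mul, sub_neg_eq_add]

theorem ex2_pow {A ι : Type} [Ring A] (x : ι → A) (hc : ∀ i j, Commute (x i) (x j))
    (h2 : ∀ i, x i ^ 2 = 0) (s : Finset ι) : (∑ i ∈ s, x i) ^ (s.card + 1) = 0 := by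
  classical
  induction s using Finset.induction_on with
  | empty => simp
  | insert i s hi ih =>
    rw [Finset.sum_insert hi, Finset.card_insert_of_notMem hi]
    exact (Commute.sum_right _ _ _ fun j _ =>
      hc i j).add_pow_eq_zero_of_add_le_succ_of_pow_eq_zero (h2 i) ih (by omega)

theorem omE_pow : omE g ^ (g + 1) = 0 := by
  have h := ex2_pow (fun i : Fin g => (io (bv (i, false)) * io (bv (i, true)) : Lm (Hq g)))
    (fun i j => comm_even _ _ (by rw [invo_mul, invo_io, invo_io, neg_mul_neg]))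
    (fun i => by
      rw [pow_two, mul_assoc, ← mul_assoc (io (bv (i, true))), ex2_swap (bv (i, true)), neg_mul,
        mul_assoc, ExteriorAlgebra.ι_sq_zero, mul_zero, neg_zero, mul_zero]) Finset.univ
  rwa [Finset.card_univ, Fintype.card_fin] at h

theorem LL_PP_mul (a b : Lm (Hq g)) : LL g (PP _ a * b) = PP _ a * LL g b := by
  rw [PP_apply, smul_mul_assoc, smul_mul_assoc, one_mul, one_mul, map_smul]

theorem ex2_NN_multi (n : ℕ) (v : Fin n → Hq g) :
    NN _ (ExteriorAlgebra.ιMulti ℚ n v) = (n : ℚ) • ExteriorAlgebra.ιMulti ℚ n v := by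
  induction n with
  | zero => simp [ex2_NN_one]
  | succ n ih =>
    rw [ExteriorAlgebra.ιMulti_succ_apply, ex2_NN_mul, ex2_NN_io, ih, mul_smul_comm, Nat.cast_succ,
      add_smul, one_smul, add_comm]

theorem ex2_ext {W : Type} [AddCommGroup W] [Module ℚ W] {S T : Lm (Hq g) →ₗ[ℚ] W}
    (h : ∀ n ≤ 2 * g, ∀ v : Fin n → Hq g,
      S (ExteriorAlgebra.ιMulti ℚ n v) = T (ExteriorAlgebra.ιMulti ℚ n v)) (a : Lm (Hq g)) :
    S a = T a := by
  refine LinearMap.congr_fun (LinearMap.ext_on_range (ExteriorAlgebra.ιMulti_span ℚ _) ?_) a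
  rintro ⟨n, v⟩
  by_cases hn : n ≤ 2 * g
  · exact h n hn v
  · have h0 : ExteriorAlgebra.ιMulti ℚ n v = 0 :=
      AlternatingMap.map_linearDependent _ v fun hv => hn (by
        simpa [mul_comm] using hv.fintype_card_le_finrank)
    simp only [h0, map_zero]

theorem ex2_interp (f : ℕ → ℚ) : ∃ r : Polynomial ℚ, ∀ n ≤ 2 * g, ∀ v : Fin n → Hq g,
    Polynomial.aeval (NN (Hq g)) r (ExteriorAlgebra.ιMulti ℚ n v) =
      f n • ExteriorAlgebra.ιMulti ℚ n v := by
  refine ⟨Lagrange.interpolate (Finset.range (2 * g + 1)) (fun n => (n : ℚ)) f, fun n hn v => ?_⟩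
  rw [Module.End.aeval_apply_of_mem_apply_eq_smul (ex2_NN_multi n v),
    Lagrange.eval_interpolate_at_node f Nat.cast_injective.injOn
      (Finset.mem_range.2 (Nat.lt_succ_of_le hn))]

/-- The degree operator is invertible on positive degrees: take
`1 - X * r = ∏ j ∈ Icc 1 (2 g), (1 - X / j)` and check on products of vectors
(`ExteriorAlgebra.ιMulti`, which vanish above degree `2 g`). -/
theorem exists_scal : ∃ r : Polynomial ℚ, ∀ a : Lm (Hq g),
    a - PP _ a = Polynomial.aeval (NN (Hq g)) r (NN _ a) := by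
  obtain ⟨r, hr⟩ := ex2_interp (g := g) fun n => 1 / n
  refine ⟨r, ex2_ext (S := LinearMap.id - (PP _).toLinearMap)
    (T := Polynomial.aeval (NN (Hq g)) r ∘ₗ NN _) fun n hn v => ?_⟩
  rw [LinearMap.comp_apply, ex2_NN_multi, map_smul, hr n hn, smul_smul, LinearMap.sub_apply,
    LinearMap.id_apply, AlgHom.toLinearMap_apply]
  cases n with
  | zero => simp
  | succ n =>
    have h0 : PP _ (io (v 0)) = 0 := by
      rw [PP_apply, ← ex2_NN_io, NN, aug_der, zero_smul]
    rw [mul_one_div_cancel (Nat.cast_ne_zero.2 n.succ_ne_zero), one_smul,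
      ExteriorAlgebra.ιMulti_succ_apply, map_mul, h0, zero_mul, sub_zero]

theorem ex2_deg1 : ∃ r : Polynomial ℚ, ∀ n ≤ 2 * g, ∀ v : Fin n → Hq g,
    (Polynomial.aeval (NN (Hq g)) r ∘ₗ (NN _ - LinearMap.id)) (ExteriorAlgebra.ιMulti ℚ n v) =
      if n = 1 then 0 else ExteriorAlgebra.ιMulti ℚ n v := by
  obtain ⟨r, hr⟩ := ex2_interp (g := g) fun n => 1 / (n - 1)
  refine ⟨r, fun n hn v => ?_⟩
  rw [LinearMap.comp_apply, LinearMap.sub_apply, LinearMap.id_apply, ex2_NN_multi, map_sub,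
    map_smul, hr n hn, smul_smul, ← sub_smul, ← sub_one_mul]
  split_ifs with h
  · simp [h]
  · rw [mul_one_div_cancel (sub_ne_zero.2 (by exact_mod_cast h)), one_smul]

/-- The same in degree one, where `LL` vanishes. -/
theorem exists_deg1 : ∃ r : Polynomial ℚ, ∀ a : Lm (Hq g),
    LL g a = LL g (Polynomial.aeval (NN (Hq g)) r (NN _ a - a)) := by
  obtain ⟨r, hr⟩ := ex2_deg1 (g := g)
  refine ⟨r, ex2_ext (S := LL g)
    (T := LL g ∘ₗ Polynomial.aeval (NN (Hq g)) r ∘ₗ (NN _ - LinearMap.id)) fun n hn v => ?_⟩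
  rw [LinearMap.comp_apply, hr n hn]
  split_ifs with h
  · subst h
    rw [ExteriorAlgebra.ιMulti_succ_apply, ExteriorAlgebra.ιMulti_zero_apply, mul_one, LL_io,
      map_zero]
  · rfl

theorem aeval_NN_emap (r : Polynomial ℚ) (φ : Hq g →ₗ[ℚ] Hq g) (a : Lm (Hq g)) :
    Polynomial.aeval (NN (Hq g)) r (emap φ a) = emap φ (Polynomial.aeval (NN (Hq g)) r a) := by
  induction r using Polynomial.induction_on generalizing a with
  | C c => simp [Module.algebraMap_end_apply]
  | add p q hp hq => simp only [map_add, LinearMap.add_apply, hp, hq]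
  | monomial n c ih =>
    have h : NN _ (emap φ a) = emap φ (NN _ a) :=
      (emap_der (φ := LinearMap.id) (φ' := LinearMap.id) (ψ := φ) rfl a).symm
    rw [pow_succ, ← mul_assoc, map_mul, Polynomial.aeval_X, Module.End.mul_apply,
      Module.End.mul_apply, h, ih]

/-- `LL` is a sum of `g` commuting operators of square zero, so its `g`-th power kills the image
of every coordinate contraction. -/
theorem LL_pow_cL (j : Fin g × Bool) (a : Lm (Hq g)) : (LL g ^ g) (cL (cv j) a) = 0 := by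
  let T : Fin g → Module.End ℚ (Lm (Hq g)) := fun i => cL (cv (i, false)) ∘ₗ cL (cv (i, true))
  have hc : ∀ i k, Commute (T i) (T k) := fun i k => LinearMap.ext fun x => by
    simp only [T, Module.End.mul_apply, LinearMap.comp_apply]
    rw [cL_comm (cv (i, true)), map_neg, cL_comm (cv (i, false)), neg_neg, cL_comm (cv (i, true)),
      map_neg, map_neg, cL_comm (cv (i, false)), map_neg, neg_neg]
  have h2 : ∀ i, T i ^ 2 = 0 := fun i => LinearMap.ext fun x => by
    simp only [T, pow_two, Module.End.mul_apply, LinearMap.comp_apply]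
    rw [cL_comm (cv (i, true)), map_neg, cL_cL, neg_zero, LinearMap.zero_apply]
  have h3 : T j.1 (cL (cv j) a) = 0 := by
    obtain ⟨i, b⟩ := j
    simp only [T, LinearMap.comp_apply]
    cases b
    · rw [cL_comm (cv (i, true)), map_neg, cL_cL, neg_zero]
    · rw [cL_cL, map_zero]
  have h4 := ex2_pow T hc h2 (Finset.univ.erase j.1)
  have hg : (Finset.univ.erase j.1).card + 1 = g := by
    rw [Finset.card_erase_add_one (Finset.mem_univ _), Finset.card_univ, Fintype.card_fin]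
  have h5 : LL g = ∑ i ∈ Finset.univ.erase j.1, T i + T j.1 :=
    (Finset.sum_erase_add _ T (Finset.mem_univ j.1)).symm
  have h6 : Commute (LL g) (∑ i ∈ Finset.univ.erase j.1, T i) :=
    Commute.sum_left _ _ _ fun i _ => Commute.sum_right _ _ _ fun k _ => hc i k
  rw [hg] at h4
  generalize ∑ i ∈ Finset.univ.erase j.1, T i = S at h4 h5 h6
  have h7 : ∀ n, (LL g ^ n) (cL (cv j) a) = (S ^ n) (cL (cv j) a) := fun n => by
    induction n with
    | zero => rfl
    | succ n ih =>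
      have h8 : LL g (cL (cv j) a) = S (cL (cv j) a) := by
        rw [h5, LinearMap.add_apply, h3, add_zero]
      rw [pow_succ, Module.End.mul_apply, h8, ← Module.End.mul_apply, (h6.pow_left n).eq,
        Module.End.mul_apply, ih, ← Module.End.mul_apply, ← pow_succ']
  rw [h7, h4, LinearMap.zero_apply]

theorem ex2_LL (a : Lm (Hq g)) : LL g a = ∑ i, cL (cv (i, false)) (cL (cv (i, true)) a) :=
  Lop_apply _ _ a

theorem LL_pow_LL (a : Lm (Hq g)) : (LL g ^ g) (LL g a) = 0 := by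
  simp only [ex2_LL a, map_sum, LL_pow_cL, Finset.sum_const_zero]

theorem LL_pow_adj (a b : Lm (Hq g)) : (LL g ^ g) (a * LL g b) = (LL g ^ g) (LL g a * b) := by
  have h : ∀ j (x y : Lm (Hq g)), (LL g ^ g) (x * cL (cv j) y) =
      -(LL g ^ g) (cL (cv j) (invo x) * y) := fun j x y => by
    have h1 := LL_pow_cL j (invo x * y)
    rw [cL_mul, invo_invo, map_add] at h1
    exact eq_neg_of_add_eq_zero_right h1
  rw [ex2_LL a, ex2_LL b, Finset.mul_sum, Finset.sum_mul, map_sum, map_sum]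
  refine Finset.sum_congr rfl fun i _ => ?_
  rw [h, h, neg_neg, invo_cL, invo_invo, map_neg, cL_comm (cv (i, true)), neg_neg]

theorem ex2_LL_NN (a : Lm (Hq g)) : LL g (NN _ a) = NN _ (LL g a) + (2 : ℚ) • LL g a :=
  Lop_NN _ _ a

theorem ex2_prj (a : Lm (Hq g)) : prj g a = a + (1 / g : ℚ) • (omE g * LL g a) := rfl

theorem ex2_prim (a : Lm (Hq g)) : prim g a = a - (1 / (1 - g) : ℚ) • (omE g * LL g a) := rfl

theorem LL_prj {a : Lm (Hq g)} (hg : 1 ≤ g) (ha : NN _ a = (2 : ℚ) • a) : LL g (prj g a) = 0 := by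
  have h1 : NN _ (LL g a) = 0 := by
    have h := ex2_LL_NN a
    rw [ha, map_smul] at h
    exact left_eq_add.1 (h.trans (add_comm _ _))
  have h2 : LL g (LL g a) = 0 := by
    obtain ⟨r, hr⟩ := exists_scal (g := g)
    have h := hr (LL g a)
    rw [h1, map_zero, sub_eq_zero, PP_apply] at h
    rw [h, map_smul, ex2_LL_one, smul_zero]
  have hg' : (g : ℚ) ≠ 0 := by positivity
  rw [ex2_prj, map_add, map_smul, LL_omE_mul, h1, h2, mul_zero, add_zero, add_zero, smul_smul,
    mul_neg, one_div_mul_cancel hg', neg_one_smul, add_neg_cancel]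

theorem prj_omE (hg : 1 ≤ g) : prj g (omE g) = 0 := by
  have hg' : (g : ℚ) ≠ 0 := by positivity
  rw [ex2_prj, LL_omE, mul_smul_comm, mul_one, smul_smul, mul_neg, one_div_mul_cancel hg',
    neg_one_smul, add_neg_cancel]

theorem ex2_aux (hg : 2 ≤ g) (b : Lm (Hq g)) : (1 / (1 - g) : ℚ) • (-(g : ℚ) • b + b) = b := by
  have h : (1 - g : ℚ) ≠ 0 := sub_ne_zero.2 (by exact_mod_cast (show 1 ≠ g by omega))
  have h1 : -(g : ℚ) • b + b = (1 - g : ℚ) • b := by module
  rw [h1, smul_smul, one_div_mul_cancel h, one_smul]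

theorem prim_omE_mul (hg : 2 ≤ g) (v : Hq g) : prim g (omE g * io v) = 0 := by
  rw [ex2_prim, LL_omE_mul, LL_io, mul_zero, add_zero, ex2_NN_io, ← mul_smul_comm, ex2_aux hg,
    sub_self]

theorem LL_prim {a : Lm (Hq g)} (hg : 2 ≤ g) (ha : NN _ a = (3 : ℚ) • a) :
    LL g (prim g a) = 0 := by
  have h1 : NN _ (LL g a) = LL g a := by
    have h := ex2_LL_NN a
    rw [ha, map_smul] at h
    rw [← sub_eq_iff_eq_add.2 h]
    module
  have h2 : LL g (LL g a) = 0 := by
    obtain ⟨r, hr⟩ := exists_deg1 (g := g)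
    rw [hr, h1, sub_self, map_zero, map_zero]
  rw [ex2_prim, map_sub, map_smul, LL_omE_mul, h1, h2, mul_zero, add_zero, ex2_aux hg, sub_self]

theorem prj_emap {φ ψ : Hq g →ₗ[ℚ] Hq g} (hψ : ∀ v, φ (ψ v) = v) (hφ : Sp φ) (a : Lm (Hq g)) :
    prj g (emap φ a) = emap φ (prj g a) := by
  rw [ex2_prj, ex2_prj, map_add, map_smul, map_mul, emap_omE hψ hφ, LL_emap hφ]

theorem prim_emap {φ ψ : Hq g →ₗ[ℚ] Hq g} (hψ : ∀ v, φ (ψ v) = v) (hφ : Sp φ) (a : Lm (Hq g)) :
    prim g (emap φ a) = emap φ (prim g a) := by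
  rw [ex2_prim, ex2_prim, map_sub, map_smul, map_mul, emap_omE hψ hφ, LL_emap hφ]

theorem ex2_alt (T : Hq g →ₗ[ℚ] Lm (Hq g)) :
    alt g T = cas ((LinearMap.mul ℚ _).compl₁₂ io T) := rfl

theorem alt_emap {φ ψ : Hq g →ₗ[ℚ] Hq g} (hψ : ∀ v, φ (ψ v) = v) (hφ : Sp φ)
    (T : Hq g →ₗ[ℚ] Lm (Hq g)) :
    alt g ((emap φ).toLinearMap ∘ₗ T ∘ₗ ψ) = emap φ (alt g T) := by
  have h : ∀ v, ψ (φ v) = v :=
    LinearMap.congr_fun ((LinearMap.comp_eq_id_comm ℚ (Hq g)).1
      (LinearMap.ext hψ : φ ∘ₗ ψ = LinearMap.id))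
  rw [ex2_alt, ex2_alt]
  refine (cas_comp _ hψ hφ).symm.trans ?_
  simp only [cas, LinearMap.compl₁₂_apply, LinearMap.mul_apply', LinearMap.comp_apply, h, map_sum,
    map_sub, map_mul, ExteriorAlgebra.map_apply_ι, AlgHom.toLinearMap_apply]

/-- Elements of degree one are vectors. -/
theorem io_ιInv {a : Lm (Hq g)} (ha : NN _ a = a) : io (ExteriorAlgebra.ιInv a) = a := by
  obtain ⟨r, hr⟩ := ex2_deg1 (g := g)
  have h := ex2_ext (S := LinearMap.id - io ∘ₗ ExteriorAlgebra.ιInv)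
    (T := Polynomial.aeval (NN (Hq g)) r ∘ₗ (NN _ - LinearMap.id)) (fun n hn v => by
      rw [hr n hn, LinearMap.sub_apply, LinearMap.id_apply, LinearMap.comp_apply]
      split_ifs with h
      · subst h
        rw [ExteriorAlgebra.ιMulti_succ_apply, ExteriorAlgebra.ιMulti_zero_apply, mul_one,
          ExteriorAlgebra.ι_leftInverse, sub_self]
      · have h1 := ιInv_emap ((2 : ℚ) • LinearMap.id) (ExteriorAlgebra.ιMulti ℚ n v)
        have h2 : ((2 : ℚ) • LinearMap.id : Hq g →ₗ[ℚ] Hq g) ∘ v = fun i => (2 : ℚ) • v i := rfl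
        rw [ExteriorAlgebra.map_apply_ιMulti, h2, AlternatingMap.map_smul_univ, map_smul,
          Finset.prod_const, Finset.card_univ, Fintype.card_fin, LinearMap.smul_apply,
          LinearMap.id_apply, ← sub_eq_zero, ← sub_smul, smul_eq_zero] at h1
        have h3 : (2 : ℚ) ^ n - 2 ≠ 0 := fun e => h (Nat.pow_right_injective le_rfl (by
          have e' : (2 : ℚ) ^ n = 2 ^ 1 := by rw [pow_one, sub_eq_zero.1 e]
          exact_mod_cast e'))
        rw [h1.resolve_left h3, map_zero, sub_zero]) a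
  rw [LinearMap.comp_apply, LinearMap.sub_apply (NN (Hq g)), ha, LinearMap.id_apply, sub_self, map_zero,
    LinearMap.sub_apply, sub_eq_zero] at h
  exact h.symm

end Pool.Agent.FP
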