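import Pool.Agent.FP.Ex2

/-! The doubled exterior algebra. -/

namespace Pool.Agent.FP

variable {g : ℕ}

theorem ex3_map_map {U V W : Type} [AddCommGroup U] [Module ℚ U] [AddCommGroup V] [Module ℚ V]
    [AddCommGroup W] [Module ℚ W] (φ : U →ₗ[ℚ] V) (ψ : V →ₗ[ℚ] W) (a : Lm U) :
    emap ψ (emap φ a) = emap (ψ ∘ₗ φ) a :=
  AlgHom.congr_fun (ExteriorAlgebra.map_comp_map φ ψ) a

theorem ex3_der_zero {V : Type} [AddCommGroup V] [Module ℚ V] (a : Lm V) : der 0 a = 0 := by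
  induction a using ExteriorAlgebra.induction with
  | algebraMap r => rw [Algebra.algebraMap_eq_smul_one, map_smul, der_one, smul_zero]
  | ι v => rw [der_io, LinearMap.zero_apply, map_zero]
  | mul a b ha hb => rw [der_mul, ha, hb, zero_mul, mul_zero, add_zero]
  | add a b ha hb => rw [map_add, ha, hb, add_zero]

theorem ex3_cL_j2 (f : Module.Dual ℚ (Hq g)) (a : Lm (Hq g)) :
    cL (f ∘ₗ LinearMap.snd ℚ _ _) (j2 g a) = 0 := by
  rw [j2, cL_emap, LinearMap.comp_assoc, LinearMap.snd_comp_inl, LinearMap.comp_zero, cL_zero,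
    LinearMap.zero_apply, map_zero]

theorem ex3_L2_j2 (a : Lm (Hq g)) : L2 g (j2 g a) = 0 := by
  rw [L2, Lop_apply]
  simp only [ex3_cL_j2, map_zero, Finset.sum_const_zero]

theorem ex3_L2_io (v w : Hq g) : L2 g (io2 g v * io2 g w) = -om v w • (1 : Lm (H2 g)) := by
  rw [L2, io2, LinearMap.comp_apply, LinearMap.comp_apply, Lop_io_io, om,
    ← Finset.sum_neg_distrib]
  congr 1
  exact Finset.sum_congr rfl fun i _ => by simp [cv]

theorem ex3_sharp (T : Hq g →ₗ[ℚ] Lm (Hq g)) : sharp g T =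
    ∑ i : Fin g, (io2 g (bv (i, false)) * j2 g (T (bv (i, true))) -
      io2 g (bv (i, true)) * j2 g (T (bv (i, false)))) := rfl

theorem r2_j2 (a : Lm (Hq g)) : r2 g (j2 g a) = a := by
  rw [r2, j2, ex3_map_map, LinearMap.fst_comp_inl]
  exact AlgHom.congr_fun ExteriorAlgebra.map_id a

theorem r2_D2 (a : Lm (H2 g)) : r2 g (D2 g a) = 0 := by
  rw [r2, D2, emap_der (φ' := 0) (by ext <;> simp), ex3_der_zero]

theorem D2_j2_io (v : Hq g) : D2 g (j2 g (io v)) = io2 g v := by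
  rw [j2, ExteriorAlgebra.map_apply_ι, D2, der_io]
  rfl

theorem D2_j2_PP (a : Lm (Hq g)) : D2 g (j2 g (PP _ a)) = 0 := by
  rw [PP_apply, map_smul, map_one, map_smul, D2, der_one, smul_zero]

theorem r2_cL_D2 (f : Module.Dual ℚ (Hq g)) (a : Lm (Hq g)) :
    r2 g (cL (f ∘ₗ LinearMap.snd ℚ _ _) (D2 g (j2 g a))) = cL f a := by
  rw [D2, cL_der, map_add, ← D2, r2_D2, zero_add, j2, cL_emap, ← j2, r2_j2]
  congr 2

/-- The bracket of `LL` through the doubled algebra. -/
theorem LL_mul (a b : Lm (Hq g)) : LL g (a * b) = LL g a * b + a * LL g b +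
    r2 g (L2 g (D2 g (j2 g a) * D2 g (j2 g b))) := by
  have h1 : invo (D2 g (j2 g a)) = D2 g (j2 g (invo a)) := by
    rw [D2, invo_der, j2, invo_emap]
  rw [L2, Lop_mul, map_add, map_add, map_mul (r2 g), map_mul (r2 g), r2_D2, r2_D2, mul_zero,
    zero_mul, zero_add, zero_add, map_sum, h1, LL, Lop_mul]
  simp only [map_sub, map_mul, r2_cL_D2]

theorem L2_j2_mul (a : Lm (Hq g)) (m : Lm (H2 g)) : L2 g (j2 g a * m) = j2 g a * L2 g m := by
  rw [L2, Lop_mul, ← L2, ex3_L2_j2, zero_mul, zero_add, j2, invo_emap, ← j2]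
  simp only [ex3_cL_j2, zero_mul, sub_zero, Finset.sum_const_zero, add_zero]

theorem L2_mul_j2 (a : Lm (Hq g)) (m : Lm (H2 g)) : L2 g (m * j2 g a) = L2 g m * j2 g a := by
  rw [L2, Lop_mul, ← L2, ex3_L2_j2, mul_zero, add_zero]
  simp only [ex3_cL_j2, mul_zero, sub_zero, Finset.sum_const_zero, add_zero]

theorem invo_L2 (m : Lm (H2 g)) : invo (L2 g m) = L2 g (invo m) := invo_Lop _ _ m

theorem L2_emap {φ : Hq g →ₗ[ℚ] Hq g} (hφ : Sp φ) (m : Lm (H2 g)) :
    L2 g (emap (φ.prodMap φ) m) = emap (φ.prodMap φ) (L2 g m) := by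
  rw [L2, Lop_emap]
  congr 2
  exact Lop_congr (Module.finBasis ℚ (H2 g)) fun u v => hφ u.2 v.2

theorem D2_emap (φ : Hq g →ₗ[ℚ] Hq g) (m : Lm (H2 g)) :
    D2 g (emap (φ.prodMap φ) m) = emap (φ.prodMap φ) (D2 g m) :=
  (emap_der (by ext <;> simp) m).symm

theorem j2_emap (φ : Hq g →ₗ[ℚ] Hq g) (a : Lm (Hq g)) :
    j2 g (emap φ a) = emap (φ.prodMap φ) (j2 g a) := by
  rw [j2, ex3_map_map, ex3_map_map]
  congr 2
  ext <;> simp

theorem r2_emap (φ : Hq g →ₗ[ℚ] Hq g) (m : Lm (H2 g)) :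
    r2 g (emap (φ.prodMap φ) m) = emap φ (r2 g m) := by
  rw [r2, ex3_map_map, ex3_map_map]
  rfl

theorem flat_sharp (T : Hq g →ₗ[ℚ] Lm (Hq g)) (v : Hq g) :
    r2 g (L2 g (io2 g v * sharp g T)) = T v := by
  have h : ∀ (w : Hq g) (t : Lm (Hq g)),
      r2 g (L2 g (io2 g v * (io2 g w * j2 g t))) = -om v w • t := fun w t => by
    rw [← mul_assoc, L2_mul_j2, ex3_L2_io, map_mul, r2_j2, map_smul, map_one, smul_mul_assoc,
      one_mul]
  rw [ex3_sharp, Finset.mul_sum, map_sum, map_sum]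
  conv_rhs => rw [← sum_om_bv v, map_sum]
  refine Finset.sum_congr rfl fun i _ => ?_
  rw [mul_sub, map_sub, map_sub, h, h, map_sub, map_smul, map_smul]
  module

theorem invo_sharp (T : Hq g →ₗ[ℚ] Lm (Hq g)) : invo (sharp g T) = -sharp g (invo ∘ₗ T) := by
  have h : ∀ (w : Hq g) (t : Lm (Hq g)),
      invo (io2 g w * j2 g t) = -(io2 g w * j2 g (invo t)) := fun w t => by
    rw [invo_mul, j2, invo_emap, io2, LinearMap.comp_apply, invo_io, neg_mul]
  rw [ex3_sharp, ex3_sharp, map_sum, ← Finset.sum_neg_distrib]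
  refine Finset.sum_congr rfl fun i _ => ?_
  rw [map_sub, h, h, LinearMap.comp_apply, LinearMap.comp_apply]
  abel

theorem sharp_emap {φ ψ : Hq g →ₗ[ℚ] Hq g} (hψ : ∀ v, φ (ψ v) = v) (hφ : Sp φ)
    (T : Hq g →ₗ[ℚ] Lm (Hq g)) :
    sharp g ((emap φ).toLinearMap ∘ₗ T ∘ₗ ψ) = emap (φ.prodMap φ) (sharp g T) := by
  have hinj : Function.Injective φ :=
    LinearMap.injective_iff_surjective.2 fun v => ⟨ψ v, hψ v⟩
  have h1 : ∀ w, ψ (φ w) = w := fun w => hinj (hψ _)
  have h2 : ∀ w, emap (φ.prodMap φ) (io2 g w) = io2 g (φ w) := fun w => by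
    rw [io2, LinearMap.comp_apply, LinearMap.comp_apply, ExteriorAlgebra.map_apply_ι]
    simp
  have h3 := cas_comp ((LinearMap.mul ℚ _).compl₁₂ (io2 g)
    ((j2 g).toLinearMap ∘ₗ ((emap φ).toLinearMap ∘ₗ T ∘ₗ ψ))) hψ hφ
  refine h3.symm.trans ?_
  rw [ex3_sharp, map_sum, cas]
  refine Finset.sum_congr rfl fun i _ => ?_
  simp only [LinearMap.compl₁₂_apply, LinearMap.mul_apply', LinearMap.comp_apply,
    AlgHom.toLinearMap_apply, h1, map_sub, map_mul, h2, j2_emap]

/-- The diagonal action on the doubled space. -/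
def rep2 {G : Type} [Group G] (ρ : Representation ℚ G (Hq g)) : Representation ℚ G (H2 g) where
  toFun x := (ρ x).prodMap (ρ x)
  map_one' := by rw [map_one]; rfl
  map_mul' x y := by rw [map_mul]; rfl

variable {G G' : Type} [Group G] [Group G'] {ρ : Representation ℚ G (Hq g)}

theorem lhom_L (hρ : ∀ x, Sp (ρ x)) : LHom (saE ρ) (saE ρ) (MonoidHom.id G) (LL g) :=
  ⟨fun x a => LL_emap (hρ x) a, fun a => (invo_LL a).symm⟩

theorem lhom_N : LHom (saE ρ) (saE ρ) (MonoidHom.id G) (NN _) :=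
  ⟨fun _ a => (emap_der (by ext; rfl) a).symm, fun a => (invo_der _ a).symm⟩

theorem lhom_P : LHom (saE ρ) (saE ρ) (MonoidHom.id G) (PP _).toLinearMap :=
  ⟨fun x a => by
    change PP _ (emap (ρ x) a) = emap (ρ x) (PP _ a)
    rw [PP_apply, PP_apply, aug_emap, map_smul, map_one], fun a => by
    change PP _ (invo a) = invo (PP _ a)
    rw [PP_apply, PP_apply, aug_invo, map_smul, invo_one]⟩

theorem lhom_j2 : LHom (saE ρ) (saE (rep2 ρ)) (MonoidHom.id G) (j2 g).toLinearMap :=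
  ⟨fun x a => j2_emap (ρ x) a, fun a => (invo_emap _ a).symm⟩

theorem lhom_r2 : LHom (saE (rep2 ρ)) (saE ρ) (MonoidHom.id G) (r2 g).toLinearMap :=
  ⟨fun x a => r2_emap (ρ x) a, fun a => (invo_emap _ a).symm⟩

theorem lhom_D2 : LHom (saE (rep2 ρ)) (saE (rep2 ρ)) (MonoidHom.id G) (D2 g) :=
  ⟨fun x a => D2_emap (ρ x) a, fun a => (invo_der _ a).symm⟩

theorem lhom_L2 (hρ : ∀ x, Sp (ρ x)) :
    LHom (saE (rep2 ρ)) (saE (rep2 ρ)) (MonoidHom.id G) (L2 g) :=
  ⟨fun x a => L2_emap (hρ x) a, fun a => (invo_L2 a).symm⟩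

theorem lhom_pull {V : Type} [AddCommGroup V] [Module ℚ V] {σ : Representation ℚ G V}
    {σ' : Representation ℚ G' V} (φ : G' →* G) (h : ∀ x, σ' x = σ (φ x)) :
    LHom (saE σ) (saE σ') φ LinearMap.id :=
  ⟨fun x a => by
    change emap (σ (φ x)) a = emap (σ' x) a
    rw [h], fun _ => rfl⟩

theorem lhom_unit {V : Type} [AddCommGroup V] [Module ℚ V] (σ : Representation ℚ G V) :
    LHom (saQ G) (saE σ) (MonoidHom.id G) (Algebra.linearMap ℚ (Lm V)) :=
  ⟨fun x a => ((emap (σ x)).commutes a).symm, fun a => by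
    change algebraMap ℚ (Lm V) a = invo (algebraMap ℚ (Lm V) a)
    rw [Algebra.algebraMap_eq_smul_one, map_smul, invo_one]⟩

theorem lhom_aug {V : Type} [AddCommGroup V] [Module ℚ V] (σ : Representation ℚ G V) :
    LHom (saE σ) (saQ G) (MonoidHom.id G) (aug V).toLinearMap :=
  ⟨fun x a => aug_emap (σ x) a, fun a => aug_invo a⟩

/-- Classes with values in the exterior algebra. -/
abbrev TE {V : Type} [AddCommGroup V] [Module ℚ V] (σ : Representation ℚ G V) : Type :=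
  TT (saE σ)

/-- Rational classes as classes with values in the exterior algebra. -/
def unitE {V : Type} [AddCommGroup V] [Module ℚ V] (σ : Representation ℚ G V) :
    TQ G →ₐ[ℚ] TE σ := (lhom_unit σ).mapA (map_one (algebraMap ℚ (Lm V)))
      (map_mul (algebraMap ℚ (Lm V)))

/-- The scalar part. -/
def augE {V : Type} [AddCommGroup V] [Module ℚ V] (σ : Representation ℚ G V) :
    TE σ →ₐ[ℚ] TQ G := (lhom_aug σ).mapA (map_one (aug V)) (map_mul (aug V))

/-- Pull-back. -/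
def pullE {V : Type} [AddCommGroup V] [Module ℚ V] {σ : Representation ℚ G V}
    {σ' : Representation ℚ G' V} (φ : G' →* G) (h : ∀ x, σ' x = σ (φ x)) : TE σ →ₐ[ℚ] TE σ' :=
  (lhom_pull φ h).mapA rfl fun _ _ => rfl

theorem augE_unitE {V : Type} [AddCommGroup V] [Module ℚ V] (σ : Representation ℚ G V)
    (a : TQ G) : augE σ (unitE σ a) = a := by
  induction a using TT.ind with
  | h f hf =>
    refine TT.mk_congr (funext fun l => ?_)
    simp

theorem augE_pullE {V : Type} [AddCommGroup V] [Module ℚ V] {σ : Representation ℚ G V}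
    {σ' : Representation ℚ G' V} (φ : G' →* G) (h : ∀ x, σ' x = σ (φ x)) (a : TE σ) :
    augE σ' (pullE φ h a) = pullQ φ (augE σ a) := by
  induction a using TT.ind with
  | h f hf =>
    refine TT.mk_congr (funext fun l => ?_)
    simp

theorem pullE_unitE {V : Type} [AddCommGroup V] [Module ℚ V] {σ : Representation ℚ G V}
    {σ' : Representation ℚ G' V} (φ : G' →* G) (h : ∀ x, σ' x = σ (φ x)) (a : TQ G) :
    pullE φ h (unitE σ a) = unitE σ' (pullQ φ a) := by
  induction a using TT.ind with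
  | h f hf =>
    refine TT.mk_congr (funext fun l => ?_)
    simp

theorem pullE_pullE {V G'' : Type} [AddCommGroup V] [Module ℚ V] [Group G'']
    {σ : Representation ℚ G V} {σ' : Representation ℚ G' V} {σ'' : Representation ℚ G'' V}
    (φ : G' →* G) (h : ∀ x, σ' x = σ (φ x)) (ψ : G'' →* G') (h' : ∀ x, σ'' x = σ' (ψ x))
    (χ : G'' →* G) (h'' : ∀ x, σ'' x = σ (χ x)) (e : ∀ x, φ (ψ x) = χ x) (a : TE σ) :
    pullE ψ h' (pullE φ h a) = pullE χ h'' a := by
  induction a using TT.ind with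
  | h f hf =>
    refine TT.mk_congr (funext fun l => ?_)
    simp [Function.comp_def, e]

theorem pullE_id {V : Type} [AddCommGroup V] [Module ℚ V] {σ : Representation ℚ G V}
    (φ : G →* G) (h : ∀ x, σ x = σ (φ x)) (e : ∀ x, φ x = x) (a : TE σ) : pullE φ h a = a := by
  induction a using TT.ind with
  | h f hf =>
    refine TT.mk_congr (funext fun l => ?_)
    have : (φ : G → G) = id := funext e
    simp [this]

theorem pullQ_pullQ {G'' : Type} [Group G''] (φ : G' →* G) (ψ : G'' →* G') (χ : G'' →* G)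
    (e : ∀ x, φ (ψ x) = χ x) (a : TQ G) : pullQ ψ (pullQ φ a) = pullQ χ a := by
  induction a using TT.ind with
  | h f hf =>
    refine TT.mk_congr (funext fun l => ?_)
    simp [Function.comp_def, e]

end Pool.Agent.FP
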