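import Pool.Agent.FP.CoDefs

/-! Operators on exterior algebras. -/

namespace Pool.Agent.FP

variable {V V' : Type} [AddCommGroup V] [Module ℚ V] [AddCommGroup V'] [Module ℚ V'] {g : ℕ}

/-- The exterior algebra. -/
abbrev Lm (V : Type) [AddCommGroup V] [Module ℚ V] : Type := ExteriorAlgebra ℚ V

/-- The generators. -/
abbrev io : V →ₗ[ℚ] Lm V := ExteriorAlgebra.ι ℚ

/-- Functoriality. -/
abbrev emap (φ : V →ₗ[ℚ] V') : Lm V →ₐ[ℚ] Lm V' := ExteriorAlgebra.map φ

/-- The parity involution. -/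
def invo : Lm V →ₗ[ℚ] Lm V := (CliffordAlgebra.involute : Lm V →ₐ[ℚ] Lm V).toLinearMap

/-- Contraction with a covector. -/
def cL (f : Module.Dual ℚ V) : Lm V →ₗ[ℚ] Lm V := CliffordAlgebra.contractLeft f

/-- The algebra map to dual numbers that encodes the derivation extending `φ`. -/
def derA (φ : V →ₗ[ℚ] V) : Lm V →ₐ[ℚ] TrivSqZeroExt (Lm V) (Lm V) :=
  ExteriorAlgebra.lift ℚ ⟨(TrivSqZeroExt.inlAlgHom ℚ (Lm V) (Lm V)).toLinearMap ∘ₗ io +
    (TrivSqZeroExt.inrHom (Lm V) (Lm V)).restrictScalars ℚ ∘ₗ io ∘ₗ φ, fun v => by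
      ext
      · simp
      · simp [ExteriorAlgebra.ι_add_mul_swap]⟩

/-- The even derivation extending `φ`. -/
def der (φ : V →ₗ[ℚ] V) : Lm V →ₗ[ℚ] Lm V :=
  (TrivSqZeroExt.sndHom (Lm V) (Lm V)).restrictScalars ℚ ∘ₗ (derA φ).toLinearMap

/-- The degree operator. -/
def NN (V : Type) [AddCommGroup V] [Module ℚ V] : Lm V →ₗ[ℚ] Lm V := der LinearMap.id

/-- The augmentation. -/
abbrev aug (V : Type) [AddCommGroup V] [Module ℚ V] : Lm V →ₐ[ℚ] ℚ :=
  ExteriorAlgebra.algebraMapInv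

/-- The projection to degree zero. -/
def PP (V : Type) [AddCommGroup V] [Module ℚ V] : Lm V →ₐ[ℚ] Lm V :=
  (Algebra.ofId ℚ (Lm V)).comp (aug V)

/-- A sum of double contractions. -/
def Lop (α β : Fin g → Module.Dual ℚ V) : Lm V →ₗ[ℚ] Lm V := ∑ i, cL (α i) ∘ₗ cL (β i)

/-- The coordinate covectors. -/
def cv (j : Fin g × Bool) : Module.Dual ℚ (Hq g) := LinearMap.proj j

/-- Contraction with the symplectic form. -/
def LL (g : ℕ) : Lm (Hq g) →ₗ[ℚ] Lm (Hq g) := Lop (fun i => cv (i, false)) fun i => cv (i, true)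

/-- The symplectic element. -/
def omE (g : ℕ) : Lm (Hq g) := ∑ i : Fin g, io (bv (i, false)) * io (bv (i, true))

/-- The doubled space. -/
abbrev H2 (g : ℕ) : Type := Hq g × Hq g

/-- Contraction on the second copy. -/
def L2 (g : ℕ) : Lm (H2 g) →ₗ[ℚ] Lm (H2 g) :=
  Lop (fun i => cv (i, false) ∘ₗ LinearMap.snd ℚ _ _) fun i => cv (i, true) ∘ₗ LinearMap.snd ℚ _ _

/-- The derivation moving the first copy to the second. -/
def D2 (g : ℕ) : Lm (H2 g) →ₗ[ℚ] Lm (H2 g) := der (LinearMap.inr ℚ _ _ ∘ₗ LinearMap.fst ℚ _ _)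

/-- The inclusion of the first copy. -/
def j2 (g : ℕ) : Lm (Hq g) →ₐ[ℚ] Lm (H2 g) := emap (LinearMap.inl ℚ _ _)

/-- The retraction to the first copy. -/
def r2 (g : ℕ) : Lm (H2 g) →ₐ[ℚ] Lm (Hq g) := emap (LinearMap.fst ℚ _ _)

/-- Generators of the second copy. -/
def io2 (g : ℕ) : Hq g →ₗ[ℚ] Lm (H2 g) := io ∘ₗ LinearMap.inr ℚ _ _

/-- A linear map on homology as an element of degree one in the second copy. -/
def sharp (g : ℕ) : (Hq g →ₗ[ℚ] Lm (Hq g)) →ₗ[ℚ] Lm (H2 g) where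
  toFun T := cas ((LinearMap.mul ℚ _).compl₁₂ (io2 g) ((j2 g).toLinearMap ∘ₗ T))
  map_add' T T' := by simp [cas, mul_add, Finset.sum_add_distrib]; abel
  map_smul' c T := by simp [cas, Finset.smul_sum, smul_sub]

/-- Antisymmetrisation of a linear map on homology. -/
def alt (g : ℕ) : (Hq g →ₗ[ℚ] Lm (Hq g)) →ₗ[ℚ] Lm (Hq g) where
  toFun T := cas ((LinearMap.mul ℚ _).compl₁₂ io T)
  map_add' T T' := by simp [cas, mul_add, Finset.sum_add_distrib]; abel
  map_smul' c T := by simp [cas, Finset.smul_sum, smul_sub]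

/-- The primitive part in degree two. -/
def prj (g : ℕ) : Lm (Hq g) →ₗ[ℚ] Lm (Hq g) :=
  LinearMap.id + (1 / g : ℚ) • (LinearMap.mulLeft ℚ (omE g) ∘ₗ LL g)

/-- The primitive part in degree three. -/
def prim (g : ℕ) : Lm (Hq g) →ₗ[ℚ] Lm (Hq g) :=
  LinearMap.id - (1 / (1 - g) : ℚ) • (LinearMap.mulLeft ℚ (omE g) ∘ₗ LL g)

/-- The action on the exterior algebra. -/
def extRep {G : Type} [Group G] (ρ : Representation ℚ G V) : Representation ℚ G (Lm V) where
  toFun x := (emap (ρ x)).toLinearMap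
  map_one' := by
    rw [map_one]
    exact congrArg AlgHom.toLinearMap ExteriorAlgebra.map_id
  map_mul' x y := by
    rw [map_mul]
    exact congrArg AlgHom.toLinearMap (ExteriorAlgebra.map_comp_map (ρ y) (ρ x)).symm

theorem extRep_apply {G : Type} [Group G] (ρ : Representation ℚ G V) (x : G) (a : Lm V) :
    extRep ρ x a = emap (ρ x) a := rfl

end Pool.Agent.FP
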