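import Pool.Agent.FP.Defs

/-! Interface of the group layer: the tube around the divisor of one-nodal curves. -/

namespace Pool.Agent.FP

/-- The inclusion of the free group of genus `h` in that of genus `h + 1`. -/
def incF (h : ℕ) : Fr h →* Fr (h + 1) := FreeGroup.map (Prod.map Fin.castSucc id)

/-- The vanishing cycle. -/
def cc (h : ℕ) : Fr (h + 1) := FreeGroup.of (Fin.last h, false)

/-- The dual loop. -/
def tt (h : ℕ) : Fr (h + 1) := FreeGroup.of (Fin.last h, true)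

/-- The retraction killing the last handle. -/
def retF (h : ℕ) : Fr (h + 1) →* Fr h :=
  FreeGroup.lift fun j => Fin.lastCases 1 (fun i => FreeGroup.of (i, j.2)) j.1

/-- The free group on the first `h` handles and the vanishing cycle. -/
def Fc (h : ℕ) : Subgroup (Fr (h + 1)) :=
  Subgroup.closure (insert (cc h) (Set.range (incF h)))

/-- `ψ` comes from the two-holed surface of genus `h` and lies over the pair `(x, m)`. -/
def Str {h : ℕ} (ψ : Mb (h + 1)) (x : Fr h) (m : Mb h) : Prop :=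
  ∃ u ∈ Fc h, retF h u = x ∧ ψ.1 (tt h) = tt h * u ∧ ψ.1 (cc h) = u⁻¹ * cc h * u ∧
    ∀ y, ψ.1 (incF h y) ∈ Fc h ∧ retF h (ψ.1 (incF h y)) = m.1 y

/-- `G0` is the group of the complement of the diagonal and `S` that of the tube. -/
structure Tube {h : ℕ} (ρ : Gam h →* Aut h) (ρ' : Gam (h + 1) →* Aut (h + 1)) where
  G0 : Type
  S : Type
  [gG0 : Group G0]
  [gS : Group S]
  iF : Fr h →* G0
  iM : Mb h →* G0
  φ0 : G0 →* Sd ρ
  q : S →* G0
  ℓ : S →* Out (h + 1)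
  T2 : S
  iF_inj : Function.Injective iF
  φ0_iF : ∀ x, φ0 (iF x) = SemidirectProduct.inl (PresentedGroup.mk _ x)
  φ0_iM : ∀ m, φ0 (iM m) = SemidirectProduct.inr (m : Gam h)
  gen : ∀ z, ∃ x m, z = iF x * iM m
  conj : ∀ x m, iM m * iF x = iF (m.1 x) * iM m
  iM_tw : iM (tw h) = iF (bdw h)
  q_surj : Function.Surjective q
  ker_q : ∀ s, q s = 1 ↔ s ∈ Subgroup.zpowers T2
  lift : ∀ s, ∃ (ψ : Mb (h + 1)) (x : Fr h) (m : Mb h),
    ℓ s = (ρ' (ψ : Gam (h + 1)) : Out (h + 1)) ∧ q s = iF x * iM m ∧ Str ψ x m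
  lift_T2 : ∃ ψ : Mb (h + 1),
    ℓ T2 = (ρ' (ψ : Gam (h + 1)) : Out (h + 1)) ∧ ψ.1 (tt h) = tt h * cc h

attribute [instance] Tube.gG0 Tube.gS

/-- Output 1 of the group layer. -/
def TubeStmt : Prop :=
  ∀ (h : ℕ) (ρ : Gam h →* Aut h) (ρ' : Gam (h + 1) →* Aut (h + 1)), IsRho ρ → IsRho ρ' →
    Nonempty (Tube ρ ρ')

/-- Output 2 of the group layer: the equivariant point-pushing map. -/
def PushStmt : Prop :=
  ∀ (h : ℕ) (ρ : Gam h →* Aut h), IsRho ρ → ∃ P : Sg h →* Gam h,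
    (∀ x, ρ (P x) = inn x) ∧ ∀ (φ : Gam h) (x : Sg h), P ((ρ φ).1 x) = φ * P x * φ⁻¹

end Pool.Agent.FP
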