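import Pool.Agent.FP.Co5b
import Pool.Agent.FP.GrpDefs

/-! Excision of the diagonal. -/

namespace Pool.Agent.FP

variable {V : Type} [AddCommGroup V] [Module ℚ V] {h : ℕ} {ρ : Gam h →* Aut h}
  {ρ' : Gam (h + 1) →* Aut (h + 1)}

open SemidirectProduct

theorem tw_comm (m : Mb h) : m * tw h = tw h * m := by
  have hm : (m : MulAut (Fr h)) (bdw h) = bdw h := m.2
  refine Subtype.ext (MulEquiv.ext fun x => ?_)
  change (m : MulAut (Fr h)) (bdw h * x * (bdw h)⁻¹) = bdw h * (m : MulAut (Fr h)) x * (bdw h)⁻¹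
  rw [map_mul, map_mul, map_inv, hm]

theorem gam_eq_one_iff (m : Mb h) : (m : Gam h) = 1 ↔ m ∈ Subgroup.zpowers (tw h) := by
  rw [QuotientGroup.eq_one_iff]
  have hn : (Subgroup.zpowers (tw h)).Normal := ⟨by
    rintro _ ⟨k, rfl⟩ g
    refine ⟨k, ?_⟩
    have : Commute g (tw h ^ k) := (show Commute g (tw h) from tw_comm g).zpow_right k
    change tw h ^ k = g * tw h ^ k * g⁻¹
    rw [this.eq, mul_inv_cancel_right]⟩
  constructor
  · exact fun hm => Subgroup.normalClosure_le_normal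
      (Set.singleton_subset_iff.2 (Subgroup.mem_zpowers _)) hm
  · exact fun hm => Subgroup.zpowers_le.2
      (Subgroup.subset_normalClosure (Set.mem_singleton _)) hm

omit [Module ℚ V] in
theorem exc_zpow {G : Type} [Group G] {b : G} {c : G → V}
    (hc : ∀ x ∈ Subgroup.zpowers b, ∀ y ∈ Subgroup.zpowers b, c (x * y) = c x + c y) (k : ℤ) :
    c (b ^ k) = k • c b := by
  have hz : ∀ i : ℤ, b ^ i ∈ Subgroup.zpowers b := fun i => ⟨i, rfl⟩
  induction k using Int.induction_on with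
  | zero =>
    have := hc 1 (one_mem _) 1 (one_mem _)
    rw [one_mul] at this
    rw [zpow_zero, zero_smul]
    exact left_eq_add.1 this
  | succ i ih => rw [zpow_add_one, hc _ (hz _) _ (Subgroup.mem_zpowers b), ih, add_smul, one_smul]
  | pred i ih =>
    have := hc _ (hz (-(i : ℤ) - 1)) _ (Subgroup.mem_zpowers b)
    rw [← zpow_add_one, sub_add_cancel, ih] at this
    rw [sub_smul, one_smul, this, add_sub_cancel_right]

theorem exc_mk_eq_one {a : Fr h} (ha : a ∈ Subgroup.zpowers (bdw h)) : mkS h a = 1 := by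
  obtain ⟨k, rfl⟩ := ha
  change mkS h (bdw h ^ k) = 1
  rw [map_zpow, mkS_bdw, one_zpow]

theorem exc_magnus (hh : 1 ≤ h) (w : V) : ∃ (μ : Hq h →ₗ[ℚ] Hq h →ₗ[ℚ] V) (θ : Fr h → V),
    (∀ x y, θ (x * y) = θ x + θ y + μ (ab (mkS h x)) (ab (mkS h y))) ∧
      ∀ k : ℤ, θ (bdw h ^ k) = k • w := by
  have h0 : (2 * h : ℚ) ≠ 0 := by positivity
  obtain ⟨θ, h1, -⟩ := exists_magnus
    ((omL h).compr₂ (LinearMap.toSpanSingleton ℚ V ((2 * h : ℚ)⁻¹ • w)))
  refine ⟨_, θ, h1, fun k => ?_⟩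
  rw [exc_zpow (c := θ) (fun x hx y _ => by
      rw [h1, exc_mk_eq_one hx, ab_one, LinearMap.map_zero₂, add_zero]) k,
    magnus_bdw h1, cas_omL_smul, smul_smul (2 * h : ℚ), mul_inv_cancel₀ h0, one_smul]

theorem bdw_zpow_inj (hh : 1 ≤ h) {a b : ℤ} (e : bdw h ^ a = bdw h ^ b) : a = b := by
  obtain ⟨-, θ, -, h2⟩ := exc_magnus hh (1 : ℚ)
  have h3 := h2 a
  rw [e, h2 b] at h3
  simpa using h3.symm

theorem exc_inv {G : Type} [Group G] {f : List G → V} (hf : f ∈ Co (triv G V)) (g : G)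
    (l : List G) : f (l.map (g * ·)) = f l := hf.2 g l

theorem exc_len_one {G : Type} [Group G] {f : List G → V} (hf : f ∈ Co (triv G V))
    (hl : Len 1 f) (h1 : f [1] = 0) : f = 0 := by
  funext l
  by_cases e : l.length = 1
  · obtain ⟨x, rfl⟩ := List.length_eq_one_iff.1 e
    have := exc_inv hf x [1]
    rw [List.map_singleton, mul_one, h1] at this
    exact this
  · exact hl l e

/-- A primitive that vanishes on the constant lists. -/
theorem exc_prim {G : Type} [Group G] {n : ℕ} {f : List G → V} (hf : f ∈ Bc (triv G V))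
    (lf : Len (n + 1) f) (vf : ∀ l : List G, (∀ a ∈ l, a = 1) → f l = 0) :
    ∃ u ∈ Co (triv G V), Len n u ∧ (∀ l : List G, (∀ a ∈ l, a = 1) → u l = 0) ∧ dd u = f := by
  obtain ⟨u, h1, h2, h3⟩ := exists_len_of_mem_Bc hf lf
  refine ⟨u - pl (fun _ => 1) u, sub_mem h1 ⟨h1.1, fun g l => ?_⟩, h2.sub (h2.pl _), fun l hl => ?_,
    ?_⟩
  · rw [pl_apply, pl_apply, List.map_map]
    rfl
  · rw [Pi.sub_apply, pl_apply, List.map_congr_left (g := id) fun a ha => (hl a ha).symm,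
      List.map_id, sub_self]
  · rw [map_sub, dd_pl, h3, sub_eq_self]
    funext l
    exact vf _ fun a ha => by
      obtain ⟨_, _, rfl⟩ := List.mem_map.1 ha
      rfl

/-- Invariant cochains extend from a subgroup. -/
theorem exc_extend {G G' : Type} [Group G] [Group G'] (j : G' →* G) (hj : Function.Injective j)
    {n : ℕ} {ε : List G' → V} (hε : ε ∈ Co (triv G' V)) (lε : Len n ε) :
    ∃ ε' ∈ Co (triv G V), Len n ε' ∧ pl j ε' = ε := by
  obtain ⟨r, hr⟩ := hj.hasLeftInverse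
  refine ⟨fun l => ε (l.map fun a => r ((l.headD 1)⁻¹ * a)), ⟨hε.1, fun g l => ?_⟩,
    fun l hl => lε _ (by rwa [List.length_map]), ?_⟩
  · cases l with
    | nil => rfl
    | cons x l =>
      change ε _ = ε _
      rw [List.map_map]
      congr 1
      refine List.map_congr_left fun a _ => ?_
      simp [mul_assoc]
  · funext l
    cases l with
    | nil => rfl
    | cons x l =>
      rw [pl_apply, List.map_map, ← exc_inv hε x⁻¹ (x :: l)]
      congr 1
      refine List.map_congr_left fun a _ => ?_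
      change r ((j x)⁻¹ * j a) = x⁻¹ * a
      rw [← map_inv, ← map_mul, hr]

theorem exc_high (hh : 1 ≤ h) {n : ℕ} {δ : List (Fr h) → V} (hδ : δ ∈ Co (triv _ V))
    (lδ : Len (n + 3) δ)
    (vδ : ∀ l : List (Fr h), (∀ a ∈ l, a ∈ Subgroup.zpowers (bdw h)) → dd δ l = 0) :
    ∃ δ' ∈ Co (triv (Fr h) V), Len (n + 3) δ' ∧ dd δ' = dd δ ∧
      ∀ l : List (Fr h), (∀ a ∈ l, a ∈ Subgroup.zpowers (bdw h)) → δ' l = 0 := by
  let j : FreeGroup Unit →* Fr h := FreeGroup.lift fun _ => bdw h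
  have h0 : ∀ k : ℤ, j (FreeGroup.of () ^ k) = bdw h ^ k := fun k => by
    rw [map_zpow, FreeGroup.lift_apply_of]
  have h1 : ∀ x : FreeGroup Unit, ∃ k : ℤ, x = FreeGroup.of () ^ k := fun x => by
    have : x ∈ Subgroup.zpowers (FreeGroup.of ()) := by
      induction x using FreeGroup.induction_on with
      | C1 => exact one_mem _
      | of _ => exact Subgroup.mem_zpowers _
      | inv_of _ ih => exact inv_mem ih
      | mul _ _ i1 i2 => exact mul_mem i1 i2
    obtain ⟨k, hk⟩ := this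
    exact ⟨k, hk.symm⟩
  have hj : Function.Injective j := fun x y e => by
    obtain ⟨a, rfl⟩ := h1 x
    obtain ⟨b, rfl⟩ := h1 y
    rw [h0, h0] at e
    rw [bdw_zpow_inj hh e]
  have h2 : pl j δ ∈ Zc (triv (FreeGroup Unit) V) := ⟨pl_mem_Co j hδ, by
    change dd (pl j δ) = 0
    rw [dd_pl]
    funext l
    exact vδ _ fun a ha => by
      obtain ⟨x, -, rfl⟩ := List.mem_map.1 ha
      obtain ⟨k, rfl⟩ := h1 x
      exact ⟨k, (h0 k).symm⟩⟩
  obtain ⟨ε, e1, e2, e3⟩ := exists_len_of_mem_Bc (free_vanish h2 (lδ.pl j)) (lδ.pl j)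
  obtain ⟨ε', e4, e5, e6⟩ := exc_extend j hj e1 e2
  refine ⟨δ - dd ε', sub_mem hδ (dd_mem_Co e4), lδ.sub e5.dd, by rw [map_sub, dd_dd, sub_zero],
    fun l hl => ?_⟩
  have e7 : pl j (δ - dd ε') = 0 := by rw [map_sub, ← dd_pl, e6, e3, sub_self]
  obtain ⟨l', rfl⟩ : ∃ l' : List (FreeGroup Unit), l = l'.map j := by
    refine ⟨l.map (Function.invFun j), ?_⟩
    rw [List.map_map, List.map_congr_left (g := id) fun a ha => ?_, List.map_id]
    obtain ⟨k, hk⟩ := hl a ha
    exact Function.invFun_eq ⟨_, (h0 k).trans hk⟩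
  exact congrFun e7 l'

theorem exc_mid (hh : 1 ≤ h) {δ : List (Fr h) → V} (hδ : δ ∈ Co (triv _ V)) (lδ : Len 2 δ)
    (vδ : ∀ l : List (Fr h), (∀ a ∈ l, a ∈ Subgroup.zpowers (bdw h)) → dd δ l = 0) :
    ∃ ω ∈ Zc (triv (Sg h) V), ∃ δ' ∈ Co (triv (Fr h) V), Len 3 ω ∧ Len 2 δ' ∧
      (∀ l : List (Sg h), (∀ a ∈ l, a = 1) → ω l = 0) ∧ dd δ' = dd δ + pl (mkS h) ω ∧
      ∀ l : List (Fr h), (∀ a ∈ l, a ∈ Subgroup.zpowers (bdw h)) → δ' l = 0 := by
  obtain ⟨μ, θ, h1, h2⟩ := exc_magnus hh (δ [1, bdw h])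
  have ha := (cross_ab (g := h)).dif_mem
  have hω : cupm μ (dif (ab : Sg h → Hq h)) (dif ab) ∈ Zc (triv (Sg h) V) :=
    cupm_mem_Zc (fun _ _ _ => rfl) ha ha
  have lω : Len 3 (cupm μ (dif (ab : Sg h → Hq h)) (dif ab)) :=
    Len.cupm (a := 1) (b := 1) (len_dif _) (len_dif _) μ
  have e3 : ∀ x y z : Sg h, cupm μ (dif (ab : Sg h → Hq h)) (dif ab) [x, y, z] =
      μ (ab y - ab x) (ab z - ab y) := fun x y z => cupm_triple μ (len_dif _) (len_dif _) x y z
  have e4 : dd (of1 (triv (Fr h) V) θ) =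
      -pl (mkS h) (cupm μ (dif (ab : Sg h → Hq h)) (dif ab)) := by
    refine ext_len_three (dd_mem_Co (of1_mem_Co _ θ)) (neg_mem (pl_mem_Co (mkS h) hω.1))
      (len_of1 _ θ).dd (fun l hl => by rw [Pi.neg_apply, lω.pl _ l hl, neg_zero]) fun x y => ?_
    rw [dd_of1, Pi.neg_apply, pl_apply, Representation.trivial_apply,
      Representation.trivial_apply]
    simp only [List.map_cons, List.map_nil, e3, map_one, ab_one, sub_zero, map_mul, ab_mul,
      add_sub_cancel_left, inv_one, one_mul, inv_mul_cancel_left, h1]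
    abel
  have e5 : ∀ x y : Fr h, δ [x, y] = δ [1, x⁻¹ * y] := fun x y => by
    have := exc_inv hδ x⁻¹ [x, y]
    simp only [List.map_cons, List.map_nil, inv_mul_cancel] at this
    exact this.symm
  have e6 : ∀ k : ℤ, δ [1, bdw h ^ k] = k • δ [1, bdw h] :=
    exc_zpow (c := fun x => δ [1, x]) fun x hx y hy => by
      have := vδ [1, x, x * y] (by simp [hx, one_mem, mul_mem hx hy])
      rw [dd_triple, e5 x, inv_mul_cancel_left] at this
      rw [← sub_eq_zero, ← neg_eq_zero, ← this]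
      abel
  refine ⟨_, hω, δ - of1 _ θ, sub_mem hδ (of1_mem_Co _ θ), lω, lδ.sub (len_of1 _ θ),
    fun l hl => ?_, by rw [map_sub, e4, sub_neg_eq_add], fun l hl => ?_⟩
  · by_cases e : l.length = 3
    · obtain ⟨x, y, z, rfl⟩ := List.length_eq_three.1 e
      rw [e3, hl x (by simp), hl y (by simp), sub_self, LinearMap.map_zero₂]
    · exact lω l e
  · by_cases e : l.length = 2
    · obtain ⟨x, y, rfl⟩ := List.length_eq_two.1 e
      obtain ⟨k, hk⟩ := mul_mem (inv_mem (hl x (by simp))) (hl y (by simp))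
      have hk' : bdw h ^ k = x⁻¹ * y := hk
      change δ [x, y] - θ (x⁻¹ * y) = 0
      rw [e5, ← hk', e6, h2, sub_self]
    · exact (lδ.sub (len_of1 _ θ)) l e

/-- The pair (free group, boundary subgroup) has the cohomology of the pair (surface group, point):
exactness of the cone `d (f, γ) = (dd f, mkS^* f - dd γ)` with trivial coefficients. -/
theorem exc_base (hh : 1 ≤ h) (n : ℕ) {f : List (Sg h) → V} {γ : List (Fr h) → V}
    (hf : f ∈ Zc (triv _ V)) (hγ : γ ∈ Co (triv _ V)) (lf : Len (n + 1) f) (lγ : Len n γ)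
    (vf : ∀ l : List (Sg h), (∀ a ∈ l, a = 1) → f l = 0)
    (vγ : ∀ l : List (Fr h), (∀ a ∈ l, a ∈ Subgroup.zpowers (bdw h)) → γ l = 0)
    (hd : dd γ = pl (mkS h) f) :
    ∃ u ∈ Co (triv (Sg h) V), ∃ δ ∈ Co (triv (Fr h) V), Len n u ∧
      (∀ l : List (Fr h), l.length + 1 ≠ n → δ l = 0) ∧
      (∀ l : List (Sg h), (∀ a ∈ l, a = 1) → u l = 0) ∧
      (∀ l : List (Fr h), (∀ a ∈ l, a ∈ Subgroup.zpowers (bdw h)) → δ l = 0) ∧
      dd u = f ∧ pl (mkS h) u - dd δ = γ := by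
  have hs : Function.Surjective (mkS h) := PresentedGroup.mk_surjective _
  match n, lf, lγ with
  | 0, lf, lγ =>
    have e1 : f = 0 := exc_len_one hf.1 lf (vf _ (by simp))
    have e2 : γ = 0 := funext fun l => by
      cases l with
      | nil => exact hγ.1
      | cons x l => exact lγ _ (by simp)
    exact ⟨0, zero_mem _, 0, zero_mem _, Len.zero _, fun _ _ => rfl, fun _ _ => rfl,
      fun _ _ => rfl, by rw [e1, map_zero], by rw [e2, map_zero, map_zero, sub_zero]⟩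
  | 1, lf, lγ =>
    have e2 : γ = 0 := exc_len_one hγ lγ (vγ _ (by simp))
    have e1 : f = 0 := funext fun l => by
      obtain ⟨l', rfl⟩ := hs.list_map l
      rw [← pl_apply (mkS h) f, ← hd, e2, map_zero]
      rfl
    exact ⟨0, zero_mem _, 0, zero_mem _, Len.zero _, fun _ _ => rfl, fun _ _ => rfl,
      fun _ _ => rfl, by rw [e1, map_zero], by rw [e2, map_zero, map_zero, sub_zero]⟩
  | 2, lf, lγ =>
    obtain ⟨β, h1, h2, h3, h4⟩ := surf_two hf lf hγ lγ hd
      ((vγ _ (by simp)).trans (vγ _ (by simp)).symm)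
    refine ⟨β, h1, 0, zero_mem _, h2, fun _ _ => rfl, fun l hl => ?_, fun _ _ => rfl, h3,
      by rw [h4, map_zero, sub_zero]⟩
    have e : l = (l.map fun _ => (1 : Fr h)).map (mkS h) := by
      rw [List.map_map, List.map_congr_left (g := id) fun a ha => ?_, List.map_id]
      exact (map_one (mkS h)).trans (hl a ha).symm
    rw [e, ← pl_apply (mkS h) β, h4]
    exact vγ _ fun a ha => by
      obtain ⟨_, _, rfl⟩ := List.mem_map.1 ha
      exact one_mem _
  | m + 3, lf, lγ =>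
    obtain ⟨u, u1, u2, u3, u4⟩ := exc_prim (surf_vanish hh hf lf) lf vf
    have z1 : pl (mkS h) u - γ ∈ Zc (triv (Fr h) V) := ⟨sub_mem (pl_mem_Co (mkS h) u1) hγ, by
      change dd (pl (mkS h) u - γ) = 0
      rw [map_sub, dd_pl, u4, hd, sub_self]⟩
    have z2 : Len (m + 3) (pl (mkS h) u - γ) := (u2.pl _).sub lγ
    obtain ⟨δ, d1, d2, d3⟩ := exists_len_of_mem_Bc (free_vanish z1 z2) z2
    have d4 : ∀ l : List (Fr h), (∀ a ∈ l, a ∈ Subgroup.zpowers (bdw h)) → dd δ l = 0 :=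
      fun l hl => by
        rw [d3, Pi.sub_apply, vγ l hl, sub_zero]
        exact u3 _ fun a ha => by
          obtain ⟨x, hx, rfl⟩ := List.mem_map.1 ha
          exact exc_mk_eq_one (hl x hx)
    cases m with
    | zero =>
      obtain ⟨ω, o1, δ', o2, o3, o4, o5, o6, o7⟩ := exc_mid hh d1 d2 d4
      refine ⟨u + ω, add_mem u1 o1.1, δ', o2, u2.add o3, fun l hl => o4 l (by omega),
        fun l hl => by rw [Pi.add_apply, u3 l hl, o5 l hl, add_zero], o7, ?_, ?_⟩
      · rw [map_add, u4, (mem_Zc.1 o1).2, add_zero]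
      · rw [map_add, o6, d3]
        abel
    | succ m =>
      obtain ⟨δ', o1, o2, o3, o4⟩ := exc_high hh d1 d2 d4
      refine ⟨u, u1, δ', o1, u2, fun l hl => o2 l (by omega), u3, o4, u4, ?_⟩
      rw [o3, d3, sub_sub_cancel]

end Pool.Agent.FP
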