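import Pool.Agent.FP.Exc

/-! Continuation. -/

namespace Pool.Agent.FP

variable {V : Type} [AddCommGroup V] [Module ℚ V] {h : ℕ} {ρ : Gam h →* Aut h}
  {ρ' : Gam (h + 1) →* Aut (h + 1)}

open SemidirectProduct

namespace Tube
variable (τ : Tube ρ ρ')

theorem φ0_surj : Function.Surjective τ.φ0 := fun z => by
  obtain ⟨x, hx⟩ := PresentedGroup.mk_surjective _ z.left
  obtain ⟨m, hm⟩ := QuotientGroup.mk_surjective z.right
  exact ⟨τ.iF x * τ.iM m, by rw [map_mul, τ.φ0_iF, τ.φ0_iM, hx, hm, inl_left_mul_inr_right]⟩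

theorem exc2_iM {m : Mb h} (hm : (m : Gam h) = 1) : ∃ k : ℤ, τ.iM m = τ.iF (bdw h ^ k) := by
  obtain ⟨k, rfl⟩ := Subgroup.mem_zpowers_iff.1 ((gam_eq_one_iff m).1 hm)
  exact ⟨k, by rw [map_zpow, map_zpow, τ.iM_tw]⟩

theorem right_eq_one_iff (z : τ.G0) : (τ.φ0 z).right = 1 ↔ z ∈ τ.iF.range := by
  constructor
  · intro hz
    obtain ⟨x, m, rfl⟩ := τ.gen z
    rw [map_mul, τ.φ0_iF, τ.φ0_iM, mul_right, right_inl, right_inr, one_mul] at hz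
    obtain ⟨k, hk⟩ := τ.exc2_iM hz
    exact ⟨x * bdw h ^ k, by rw [map_mul, hk]⟩
  · rintro ⟨x, rfl⟩
    rw [τ.φ0_iF, right_inl]

theorem iF_mem_range_iff (x : Fr h) : τ.iF x ∈ τ.iM.range ↔ x ∈ Subgroup.zpowers (bdw h) := by
  constructor
  · rintro ⟨m, hm⟩
    have h1 := (τ.right_eq_one_iff _).2 ⟨x, hm.symm⟩
    rw [τ.φ0_iM, right_inr] at h1
    obtain ⟨k, hk⟩ := τ.exc2_iM h1
    exact ⟨k, τ.iF_inj (hk.symm.trans hm)⟩
  · rintro ⟨k, rfl⟩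
    exact ⟨tw h ^ k, by rw [map_zpow, τ.iM_tw, ← map_zpow]⟩

theorem exc2_pl (f : List (Sd ρ) → V) : pl τ.iF (pl τ.φ0 f) = pl (mkS h) (pl inl f) := by
  rw [pl_pl, pl_pl]
  exact congrArg (fun p => pl p f) (funext τ.φ0_iF)

theorem exc2_mem {u : List (Sd ρ) → V} (hu : u ∈ CoN (inl : Sg h →* Sd ρ) V) :
    pl τ.φ0 u ∈ CoN τ.iF V := ⟨hu.1, fun x l => by
  rw [pl_apply, pl_apply, ← hu.2 (mkS h x) (l.map τ.φ0), List.map_map, List.map_map]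
  exact congrArg (fun p => u (l.map p)) (funext fun z => by
    simp only [Function.comp_apply, map_mul, τ.φ0_iF])⟩

/-- The same on the lists of the two total groups, before taking invariants (`res_rel` twice). -/
theorem exc_fibre (hh : 1 ≤ h) (n : ℕ) {f : List (Sd ρ) → V} {γ : List τ.G0 → V}
    (hf : f ∈ CoN (inl : Sg h →* Sd ρ) V) (hγ : γ ∈ CoN τ.iF V) (df : dd f = 0)
    (lf : Len (n + 1) f) (lγ : Len n γ) (vf : ∀ l : List (Sd ρ), (∀ a ∈ l, a.left = 1) → f l = 0)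
    (vγ : ∀ l : List τ.G0, (∀ a ∈ l, a ∈ τ.iM.range) → γ l = 0) (hd : dd γ = pl τ.φ0 f) :
    ∃ u ∈ CoN (inl : Sg h →* Sd ρ) V, ∃ δ ∈ CoN τ.iF V, Len n u ∧
      (∀ l : List τ.G0, l.length + 1 ≠ n → δ l = 0) ∧
      (∀ l : List (Sd ρ), (∀ a ∈ l, a.left = 1) → u l = 0) ∧
      (∀ l : List τ.G0, (∀ a ∈ l, a ∈ τ.iM.range) → δ l = 0) ∧
      dd u = f ∧ pl τ.φ0 u - dd δ = γ := by
  obtain ⟨u0, hu0, δ0, hδ0, lu0, lδ0, vu0, vδ0, du0, e0⟩ := exc_base hh n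
    (f := pl (inl : Sg h →* Sd ρ) f) (γ := pl τ.iF γ)
    (mem_Zc.2 ⟨pl_mem_Co_of_CoN hf, by rw [dd_pl, df, map_zero]⟩) (pl_mem_Co_of_CoN hγ)
    (lf.pl _) (lγ.pl _) (fun l hl => vf _ (List.forall_mem_map.2 hl))
    (fun l hl => vγ _ (List.forall_mem_map.2 fun a ha => (τ.iF_mem_range_iff a).2 (hl a ha)))
    (by rw [dd_pl, hd, exc2_pl])
  obtain ⟨u, hu, lu, du, pu, vu⟩ := res_rel (inl : Sg h →* Sd ρ) {a | a.left = 1} left
    (fun x y => by simp) rfl (fun a ha => ha) hf df lf vf hu0 lu0 du0 vu0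
  have hg : pl τ.φ0 u - γ ∈ CoN τ.iF V := sub_mem (τ.exc2_mem hu) hγ
  have lg : Len n (pl τ.φ0 u - γ) := (lu.pl _).sub lγ
  refine ⟨u, hu, ?_⟩
  rcases n with _ | n
  · refine ⟨0, zero_mem _, lu, fun _ _ => rfl, vu, fun _ _ => rfl, du, ?_⟩
    rw [map_zero, sub_zero, ← sub_eq_zero]
    funext l
    rcases l with _ | ⟨a, l⟩
    · exact hg.1
    · exact lg _ (Nat.succ_ne_zero _)
  · obtain ⟨r, r1, r2, r3⟩ := exists_retr τ.iF τ.iF_inj τ.iM.range fun z =>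
      let ⟨x, m, e⟩ := τ.gen z; ⟨x, _, ⟨m, rfl⟩, e⟩
    obtain ⟨δ, hδ, lδ, dδ, -, vδ⟩ := res_rel τ.iF τ.iM.range r r1 r2 r3 hg
      (by rw [map_sub, dd_pl, du, hd, sub_self]) lg (fun l hl => by
        rw [Pi.sub_apply, vγ l hl, sub_zero]
        refine vu _ (List.forall_mem_map.2 fun a ha => ?_)
        obtain ⟨m, rfl⟩ := hl a ha
        show (τ.φ0 (τ.iM m)).left = 1
        rw [τ.φ0_iM, left_inr]) hδ0 (fun l hl => lδ0 l fun e => hl (Nat.succ_injective e))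
      (by rw [map_sub, exc2_pl, pu, ← e0, sub_sub_cancel])
      fun l hl => vδ0 l fun a ha => (τ.iF_mem_range_iff a).1 (hl a ha)
    exact ⟨δ, hδ, lu, fun l hl => lδ l fun e => hl (congrArg (· + 1) e), vu, vδ, du,
      by rw [dδ, sub_sub_cancel]⟩

end Tube

end Pool.Agent.FP
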