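import Mathlib

/-! The relations among kappa classes used in the numerical layer. -/

namespace Pool.Agent.FP

open Finset Polynomial

namespace Z

/-- The recursion for the coefficients of the free energy, below order `N`. -/
structure Rec (N : ℕ) (A : ℕ → ℕ → ℚ) : Prop where
  z00 : A 0 0 = 0
  z01 : A 0 1 = 0
  z02 : A 0 2 = 0
  z10 : A 1 0 = 0
  step : ∀ h n, 5 * h + 2 * n < N + 5 → 2 * ((3 * h + n - 3 : ℕ) : ℚ) * A h n =
    (if h = 0 then 0 else ((n : ℚ) + 1) * (n + 2) * A (h - 1) (n + 2)) +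
      ∑ i ∈ range (h + 1), ∑ j ∈ range (n + 1),
        ((j : ℚ) + 1) * A i (j + 1) * ((((n - j : ℕ) : ℚ) + 1) * A (h - i) (n - j + 1))

/-- The coefficient of `κ m * y ^ n` in the exponent. -/
def gam (A : ℕ → ℕ → ℚ) (δ m n : ℕ) : ℚ :=
  if n ≤ m + 1 then A (m + 1 - n) n * δ ^ n + (if m = 1 ∧ n = 2 then (δ : ℚ) ^ 2 / 2 else 0)
  else 0

/-- The coefficient of `κ m` in the exponent. -/
noncomputable def gamP (A : ℕ → ℕ → ℚ) (δ S m : ℕ) : ℚ[X] :=
  ∑ n ∈ range S, monomial n (gam A δ m n)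

/-- The truncated exponential of `(2 g - 2) y`. -/
noncomputable def expP (g S : ℕ) : ℚ[X] :=
  ∑ n ∈ range S, monomial n ((2 * (g : ℚ) - 2) ^ n / n.factorial)

/-- The degree `r` part of the product of `e0` and of the exponentials of `κ m * γ m`, `m ≤ M`,
the last exponential being cut after `c` terms. -/
noncomputable def fzF {O : Type} [CommRing O] [Algebra ℚ O] (κ : ℕ → O) (γ : ℕ → ℚ[X])
    (e0 : ℚ[X]) : ℕ → ℕ → ℕ → O[X]
  | 0, _, r => if r = 0 then e0.map (algebraMap ℚ O) else 0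
  | M + 1, c, r => fzF κ γ e0 M 0 r +
      if M + 1 ≤ r then ((c : ℚ) + 1)⁻¹ • (C (κ (M + 1)) * (γ (M + 1)).map (algebraMap ℚ O) *
        fzF κ γ e0 (M + 1) (c + 1) (r - (M + 1))) else 0
  termination_by M _ r => (M, r)
  decreasing_by
    · exact Prod.Lex.left _ _ (by omega)
    · exact Prod.Lex.right _ (by omega)

theorem fzF_map {O O' : Type} [CommRing O] [Algebra ℚ O] [CommRing O'] [Algebra ℚ O']
    (f : O →ₐ[ℚ] O') (κ : ℕ → O) (γ : ℕ → ℚ[X]) (e0 : ℚ[X]) (M c r : ℕ) :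
    (fzF κ γ e0 M c r).map (f : O →+* O') = fzF (fun m => f (κ m)) γ e0 M c r := by
  have h : (f : O →+* O').comp (algebraMap ℚ O) = algebraMap ℚ O' := f.comp_algebraMap
  induction M, c, r using fzF.induct with
  | case1 c => simp [fzF, Polynomial.map_map, h]
  | case2 c r hr => simp [fzF, hr]
  | case3 M c r h1 h2 =>
    rw [fzF, fzF.eq_2 (fun m => f (κ m)), Polynomial.map_add, h1]
    split_ifs with hh
    · rw [Algebra.smul_def, Algebra.smul_def, Polynomial.map_mul, Polynomial.map_mul,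
        Polynomial.map_mul, h2 hh, Polynomial.map_map, h, map_C, Polynomial.algebraMap_apply,
        Polynomial.algebraMap_apply, map_C]
      simp only [RingHom.coe_coe, AlgHom.commutes]
    · simp

end Z

/-- The relations of Faber and Zagier with insertions of weight one hold for the family `κ`. -/
def FZ {O : Type} [CommRing O] [Algebra ℚ O] (g : ℕ) (κ : ℕ → O) : Prop :=
  ∀ (N : ℕ) (A : ℕ → ℕ → ℚ) (δ S r s t : ℕ), Z.Rec N A → A 0 3 = δ / 6 → 5 * r < N → s < S →
    3 * r = s + g + 1 + 2 * t → (Z.fzF κ (Z.gamP A δ S) (Z.expP g S) r 0 r).coeff s = 0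

theorem FZ.map {O O' : Type} [CommRing O] [Algebra ℚ O] [CommRing O'] [Algebra ℚ O'] {g : ℕ}
    {κ : ℕ → O} (f : O →ₐ[ℚ] O') (h : FZ g κ) : FZ g fun m => f (κ m) := by
  intro N A δ S r s t h1 h2 h3 h4 h5
  rw [← Z.fzF_map, coeff_map, h N A δ S r s t h1 h2 h3 h4 h5, map_zero]

theorem FZ.of_inj {O O' : Type} [CommRing O] [Algebra ℚ O] [CommRing O'] [Algebra ℚ O'] {g : ℕ}
    {κ : ℕ → O} (f : O →ₐ[ℚ] O') (hf : Function.Injective f) (h : FZ g fun m => f (κ m)) :
    FZ g κ := by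
  intro N A δ S r s t h1 h2 h3 h4 h5
  have := h N A δ S r s t h1 h2 h3 h4 h5
  rw [← Z.fzF_map, coeff_map] at this
  exact hf (this.trans (map_zero f).symm)

end Pool.Agent.FP
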