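import Pool.Agent.FP.FinData
import Pool.Agent.FP.FinSoc

/-! The tests run by the kernel. -/

namespace Pool.Agent.FP.Fn

/-- Replace parts by codes, two exponents. -/
def cdW (W : List (ℕ × ℕ × List (ℕ × List ℕ))) : List (ℕ × ℕ × List (ℕ × ℕ)) :=
  W.map fun t => (t.1, t.2.1, cd t.2.2)

/-- Replace parts by codes, one exponent. -/
def cdD (W : List (ℕ × List (ℕ × List ℕ))) : List (ℕ × List (ℕ × ℕ)) :=
  W.map fun t => (t.1, cd t.2)

/-- All monomials have positive parts and degree `d - a`. -/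
def okL (d a : ℕ) (L : List (ℕ × List ℕ)) : Prop :=
  ∀ t ∈ L, (∀ i ∈ t.2, 1 ≤ i) ∧ a + t.2.sum = d

instance (d a : ℕ) (L : List (ℕ × List ℕ)) : Decidable (okL d a L) := by
  unfold okL; infer_instance

/-- The test for the product with the diagonal. -/
noncomputable def c2 (a : ℕ) : Bool :=
  al (fun c => Nat.beq (sD t24.get wpc a c + s1 t24.get dnc (a + 1) c)
    (sD t24.get wnc a c + s1 t24.get dpc (a + 1) c)) (cn (11 - a))

/-- The value against `(K₁ + K₂) K₁ ^ a K₂ ^ b`. -/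
noncomputable def v3 (W : List (ℕ × ℕ × List (ℕ × ℕ))) (D : List (ℕ × List (ℕ × ℕ)))
    (a b c : ℕ) : ℕ :=
  s2 t24.get W (a + 1) b c + s2 t24.get W a (b + 1) c + 2 * s1 t24.get D (a + b + 1) c

/-- The test for the product with `K₁ + K₂`. -/
noncomputable def c3 (a b : ℕ) : Bool :=
  al (fun c => Nat.beq (v3 wpc dpc a b c) (v3 wnc dnc a b c)) (cn (11 - (a + b)))

/-- The value against the lift of a polynomial. -/
noncomputable def v4 (X : List (ℕ × List ℕ)) (W : List (ℕ × ℕ × List (ℕ × ℕ)))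
    (D : List (ℕ × List (ℕ × ℕ))) : ℕ :=
  sm (fun x => x.1 * sm (fun t => t.1 * force (code t.2.2) fun c =>
    s2 t24.get W t.2.1 0 c + s1 t24.get D t.2.1 c) (ex x.2)) X

end Pool.Agent.FP.Fn
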