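import Pool.Agent.FP.FrobDefs

/-! Programs for the numerical checks. Monomials in the kappa classes are coded by products of
primes. -/

namespace Pool.Agent.FP.Fn

/-- Evaluate `n` before passing it on. -/
def force {α : Type} (n : ℕ) (f : ℕ → α) : α :=
  Nat.rec (motive := fun _ => α) (f 0) (fun k _ => f k.succ) n

theorem force_eq {α : Type} (n : ℕ) (f : ℕ → α) : force n f = f n := by cases n <;> rfl

/-- The `m`-th prime for `1 ≤ m ≤ 24`, and `1` for `m = 0`. -/
def pr (m : ℕ) : ℕ := Nat.shiftRight 0x59534f4947433d3b352f2b29251f1d1713110d0b0705030201 (8 * m) % 256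

/-- The code of a monomial. -/
def code (l : List ℕ) : ℕ := (l.map pr).prod

/-- Search trees. -/
inductive Tr
  | leaf : Tr
  | node : Tr → ℕ → ℕ → Tr → Tr

/-- Look-up. -/
noncomputable def Tr.get (t : Tr) (c : ℕ) : ℕ :=
  Tr.rec (motive := fun _ => ℕ) 0
    (fun _ k v _ il ir => cond (Nat.blt c k) il (cond (Nat.blt k c) ir v)) t

/-- All monomials of degree `d` are multiples of one class. -/
def Soc {O : Type} [CommRing O] [Algebra ℚ O] (d : ℕ) (v : ℕ → ℕ) (κ : ℕ → O) : Prop :=
  ∃ s : O, ∀ l : List ℕ, (∀ i ∈ l, 1 ≤ i) → l.sum = d → (l.map κ).prod = (v (code l) : ℚ) • s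

/-- The sum of a function over a list. -/
noncomputable def sm {α : Type} (f : α → ℕ) (L : List α) : ℕ :=
  List.rec (motive := fun _ => ℕ) 0 (fun a _ ih => f a + ih) L

theorem sm_eq {α : Type} (f : α → ℕ) (L : List α) : sm f L = (L.map f).sum := by
  induction L with
  | nil => rfl
  | cons a L ih => exact congrArg (f a + ·) ih

/-- A test on all entries of a list. -/
noncomputable def al {α : Type} (f : α → Bool) (L : List α) : Bool :=
  List.rec (motive := fun _ => Bool) true (fun a _ ih => f a && ih) L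

theorem al_iff {α : Type} (f : α → Bool) (L : List α) : al f L = true ↔ ∀ a ∈ L, f a = true := by
  induction L with
  | nil => simp [al]
  | cons a L ih =>
    change (f a && al f L) = true ↔ _
    simp [ih]

section
variable (v : ℕ → ℕ)

/-- The pairing of a list of (coefficient, code) with a monomial. -/
noncomputable def dot (L : List (ℕ × ℕ)) (c : ℕ) : ℕ :=
  force c fun c => sm (fun t => t.1 * force (c * t.2) v) L

/-- The factor of the fibre integral of `K ^ a`. -/
def mu (a : ℕ) : ℕ := cond (Nat.beq a 0) 0 (cond (Nat.beq a 1) 46 1)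

/-- The value of `K ^ a` times a polynomial. -/
noncomputable def e1 (a : ℕ) (L : List (ℕ × ℕ)) (c : ℕ) : ℕ :=
  cond (Nat.beq a 0) 0 (mu a * dot v L (pr (a - 1) * c))

/-- The value of `K₁ ^ a K₂ ^ b` times a polynomial. -/
noncomputable def e2 (a b : ℕ) (L : List (ℕ × ℕ)) (c : ℕ) : ℕ :=
  cond (Nat.beq b 0) 0 (mu b * e1 v a L (pr (b - 1) * c))

/-- The part without diagonal, against `K₁ ^ a K₂ ^ b`. -/
noncomputable def s2 (W : List (ℕ × ℕ × List (ℕ × ℕ))) (a b c : ℕ) : ℕ :=
  sm (fun t => e2 v (t.1 + a) (t.2.1 + b) t.2.2 c) W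

/-- The part without diagonal, against the diagonal times `K ^ a`. -/
noncomputable def sD (W : List (ℕ × ℕ × List (ℕ × ℕ))) (a c : ℕ) : ℕ :=
  sm (fun t => e1 v (t.1 + t.2.1 + a) t.2.2 c) W

/-- The diagonal part, against `K ^ a`. -/
noncomputable def s1 (W : List (ℕ × List (ℕ × ℕ))) (a c : ℕ) : ℕ :=
  sm (fun t => e1 v (t.1 + a) t.2 c) W

end

/-- Expansion of a product of `κ m + (1 + (-1) ^ m) K ^ m`: (factor, power of `K`, parts). -/
def ex : List ℕ → List (ℕ × ℕ × List ℕ)
  | [] => [(1, 0, [])]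
  | m :: l => (ex l).map (fun t => (t.1, t.2.1, m :: t.2.2)) ++
      cond (Nat.beq (m % 2) 0) ((ex l).map fun t => (2 * t.1, t.2.1 + m, t.2.2)) []

/-- Replace parts by codes. -/
def cd (L : List (ℕ × List ℕ)) : List (ℕ × ℕ) := L.map fun t => (t.1, code t.2)

end Pool.Agent.FP.Fn
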