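import Pool.Agent.FP.FinDefs

/-! Weighted monomials, and the ring of the fibre square. -/

namespace Pool.Agent.FP.Fn

section
variable {R R' : Type} [CommRing R] [Algebra ℚ R] [CommRing R'] [Algebra ℚ R']

omit [Algebra ℚ R] in
theorem monR_mul {S : ℕ → R → Prop} {a b : ℕ} {f h : R} (hf : MonR S a f) (hh : MonR S b h) :
    MonR S (a + b) (f * h) := by
  induction hf with
  | one => simpa using hh
  | mul hs _ ih => rw [add_assoc, mul_assoc]; exact MonR.mul hs ih

theorem rk_mul {S : ℕ → R → Prop} {a b : ℕ} {f h : R} (hf : f ∈ RkR S a) (hh : h ∈ RkR S b) :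
    f * h ∈ RkR S (a + b) := by
  induction hf using Submodule.span_induction with
  | zero => simp
  | add x y _ _ hx hy => rw [add_mul]; exact add_mem hx hy
  | smul c x _ hx => rw [smul_mul_assoc]; exact Submodule.smul_mem _ _ hx
  | mem x hx =>
    induction hh using Submodule.span_induction with
    | zero => simp
    | add x y _ _ hx hy => rw [mul_add]; exact add_mem hx hy
    | smul c x _ hx => rw [mul_smul_comm]; exact Submodule.smul_mem _ _ hx
    | mem y hy => exact Submodule.subset_span (monR_mul hx hy)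

theorem rk_one (S : ℕ → R → Prop) : (1 : R) ∈ RkR S 0 := Submodule.subset_span MonR.one

theorem rk_gen {S : ℕ → R → Prop} {m : ℕ} {s : R} (h : S m s) : s ∈ RkR S m := by
  have := MonR.mul h (MonR.one (S := S))
  rw [mul_one] at this
  exact Submodule.subset_span this

theorem rk_pow {S : ℕ → R → Prop} {s : R} (h : s ∈ RkR S 1) (n : ℕ) : s ^ n ∈ RkR S n := by
  induction n with
  | zero => simpa using rk_one S
  | succ n ih => rw [pow_succ]; exact rk_mul ih h

theorem rk_le {S S' : ℕ → R → Prop} (h : ∀ m s, S m s → s ∈ RkR S' m) (k : ℕ) :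
    RkR S k ≤ RkR S' k := by
  refine Submodule.span_le.2 fun f hf => ?_
  have hf' : MonR S k f := hf
  clear hf
  induction hf' with
  | one => exact rk_one S'
  | mul hs _ ih => exact rk_mul (h _ _ hs) ih

theorem gorR_congr {S S' : ℕ → R → Prop} (h : ∀ k, RkR S k = RkR S' k) {n : ℕ} (H : GorR S n) :
    GorR S' n := by
  unfold GorR at *
  simpa only [h] using H

/-- All parts are positive. -/
def Pos (l : List ℕ) : Prop := ∀ i ∈ l, 1 ≤ i

theorem Pos.cons {l : List ℕ} {m : ℕ} (hm : 1 ≤ m) (h : Pos l) : Pos (m :: l) := by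
  intro i hi
  rcases List.mem_cons.1 hi with rfl | hi
  exacts [hm, h i hi]

theorem Pos.append {l l' : List ℕ} (h : Pos l) (h' : Pos l') : Pos (l ++ l') := by
  intro i hi
  rcases List.mem_append.1 hi with hi | hi
  exacts [h i hi, h' i hi]

theorem Pos.tail {l : List ℕ} {m : ℕ} (h : Pos (m :: l)) : Pos l :=
  fun i hi => h i (List.mem_cons_of_mem _ hi)

theorem Pos.nil : Pos [] := by intro i hi; simp at hi

/-- A monomial. -/
def mon (κ : ℕ → R) (l : List ℕ) : R := (l.map κ).prod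

omit [Algebra ℚ R] in
@[simp] theorem mon_nil (κ : ℕ → R) : mon κ [] = 1 := rfl

omit [Algebra ℚ R] in
theorem mon_cons (κ : ℕ → R) (m : ℕ) (l : List ℕ) : mon κ (m :: l) = κ m * mon κ l := by
  simp [mon]

omit [Algebra ℚ R] in
theorem mon_append (κ : ℕ → R) (l l' : List ℕ) : mon κ (l ++ l') = mon κ l * mon κ l' := by
  simp [mon]

theorem code_cons (m : ℕ) (l : List ℕ) : code (m :: l) = pr m * code l := by simp [code]

theorem code_append (l l' : List ℕ) : code (l ++ l') = code l * code l' := by simp [code]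

theorem map_mon (φ : R →ₐ[ℚ] R') (κ : ℕ → R) (l : List ℕ) :
    φ (mon κ l) = mon (fun m => φ (κ m)) l := by
  induction l with
  | nil => simp
  | cons m l ih => rw [mon_cons, mon_cons, map_mul, ih]

omit [Algebra ℚ R] in
theorem mon_congr {κ κ' : ℕ → R} (h : ∀ m, 1 ≤ m → κ m = κ' m) {l : List ℕ} (hl : Pos l) :
    mon κ l = mon κ' l := by
  induction l with
  | nil => simp
  | cons m l ih => rw [mon_cons, mon_cons, ih hl.tail, h m (hl m (by simp))]

theorem mon_mem {S : ℕ → R → Prop} {κ : ℕ → R} (h : ∀ m, 1 ≤ m → κ m ∈ RkR S m) {l : List ℕ}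
    (hl : Pos l) : mon κ l ∈ RkR S l.sum := by
  induction l with
  | nil => simpa using rk_one S
  | cons m l ih =>
    rw [mon_cons, List.sum_cons]
    exact rk_mul (h m (hl m (by simp))) (ih hl.tail)

/-- A polynomial with natural coefficients. -/
def poly (κ : ℕ → R) (L : List (ℕ × List ℕ)) : R := (L.map fun t => (t.1 : ℚ) • mon κ t.2).sum

@[simp] theorem poly_nil (κ : ℕ → R) : poly κ [] = 0 := rfl

theorem poly_cons (κ : ℕ → R) (t : ℕ × List ℕ) (L : List (ℕ × List ℕ)) :
    poly κ (t :: L) = (t.1 : ℚ) • mon κ t.2 + poly κ L := by simp [poly]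

theorem map_poly (φ : R →ₐ[ℚ] R') (κ : ℕ → R) (L : List (ℕ × List ℕ)) :
    φ (poly κ L) = poly (fun m => φ (κ m)) L := by
  induction L with
  | nil => simp
  | cons t L ih => rw [poly_cons, poly_cons, map_add, map_smul, ih, map_mon]

theorem poly_congr {κ κ' : ℕ → R} (h : ∀ m, 1 ≤ m → κ m = κ' m) {L : List (ℕ × List ℕ)}
    (hL : ∀ t ∈ L, Pos t.2) : poly κ L = poly κ' L := by
  induction L with
  | nil => simp
  | cons t L ih =>
    rw [poly_cons, poly_cons, ih fun u hu => hL u (List.mem_cons_of_mem _ hu),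
      mon_congr h (hL t (by simp))]

theorem poly_mem {S : ℕ → R → Prop} {κ : ℕ → R} (h : ∀ m, 1 ≤ m → κ m ∈ RkR S m) {n : ℕ}
    {L : List (ℕ × List ℕ)} (hL : ∀ t ∈ L, Pos t.2 ∧ t.2.sum = n) : poly κ L ∈ RkR S n := by
  induction L with
  | nil => simp
  | cons t L ih =>
    rw [poly_cons]
    refine add_mem (Submodule.smul_mem _ _ ?_) (ih fun u hu => hL u (List.mem_cons_of_mem _ hu))
    obtain ⟨h1, h2⟩ := hL t (by simp)
    exact h2 ▸ mon_mem h h1

theorem dot_nil (v : ℕ → ℕ) (c : ℕ) : dot v [] c = 0 := by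
  rw [dot, force_eq]; rfl

theorem dot_cons (v : ℕ → ℕ) (x : ℕ × ℕ) (L : List (ℕ × ℕ)) (c : ℕ) :
    dot v (x :: L) c = x.1 * v (c * x.2) + dot v L c := by
  rw [dot, dot, force_eq, force_eq, sm_eq, sm_eq, List.map_cons, List.sum_cons, force_eq]

/-- The pairing with a monomial in the socle. -/
theorem mon_poly {κ : ℕ → R} {v : ℕ → ℕ} {s : R} {d : ℕ}
    (hs : ∀ l : List ℕ, Pos l → l.sum = d → mon κ l = (v (code l) : ℚ) • s) {l : List ℕ}
    (hl : Pos l) {L : List (ℕ × List ℕ)} (hL : ∀ t ∈ L, Pos t.2 ∧ l.sum + t.2.sum = d) :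
    mon κ l * poly κ L = (dot v (cd L) (code l) : ℚ) • s := by
  induction L with
  | nil => simp [cd, dot_nil]
  | cons t L ih =>
    obtain ⟨h1, h2⟩ := hL t (by simp)
    have e : cd (t :: L) = (t.1, code t.2) :: cd L := rfl
    rw [poly_cons, mul_add, ih fun u hu => hL u (List.mem_cons_of_mem _ hu), e, dot_cons,
      mul_smul_comm, ← mon_append, hs _ (hl.append h1) (by simpa using h2), code_append]
    push_cast
    rw [add_smul, mul_smul]

omit [Algebra ℚ R] in
/-- Monomials in the classes of the base. -/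
theorem monR0 {κ : ℕ → R} {k : ℕ} {f : R} (h : MonR (gensR0 κ) k f) :
    ∃ l, Pos l ∧ l.sum = k ∧ f = mon κ l := by
  induction h with
  | one => exact ⟨[], Pos.nil, rfl, rfl⟩
  | mul hs _ ih =>
    obtain ⟨l, h1, h2, h3⟩ := ih
    obtain ⟨h4, h5⟩ := hs
    exact ⟨_ :: l, h1.cons h4, by simp [h2], by rw [mon_cons, h3, h5]⟩

theorem eq_zero0 {κ : ℕ → R} {n k : ℕ} (H : GorR (gensR0 κ) n) (hk : k ≤ n) {f : R}
    (hf : f ∈ RkR (gensR0 κ) k) (h : ∀ l, Pos l → l.sum = n - k → f * mon κ l = 0) : f = 0 := by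
  refine H.2 k hk f hf fun u hu => ?_
  have : RkR (gensR0 κ) (n - k) ≤ LinearMap.ker (LinearMap.mulLeft ℚ f) := by
    refine Submodule.span_le.2 fun u hu => ?_
    obtain ⟨l, h1, h2, rfl⟩ := monR0 hu
    exact h l h1 h2
  exact this hu

end

end Pool.Agent.FP.Fn
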