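import Pool.Agent.FP.FinR1

/-! The ring of the fibre square: spanning set, multiplication table, evaluation in top degree. -/

namespace Pool.Agent.FP.Fn

theorem mu_zero : mu 0 = 0 := rfl
theorem mu_one : mu 1 = 46 := rfl
theorem mu_two (a : ℕ) : mu (a + 1 + 1) = 1 := rfl
theorem pr_zero : pr 0 = 1 := by decide

/-- The data of the fibre square, with `K` the canonical class. -/
structure Sq (O T : Type) [CommRing O] [Algebra ℚ O] [CommRing T] [Algebra ℚ T] where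
  κ : ℕ → O
  K : O
  p : O →ₐ[ℚ] T
  I : T →ₗ[ℚ] O
  E : T
  D : T
  σ : T →ₐ[ℚ] T
  κ0 : κ 0 = (46 : ℚ) • (1 : O)
  I_p : ∀ y f, I (p y * f) = y * I f
  I_one : I 1 = 0
  I_E : ∀ m, I (E ^ (m + 1)) = κ m
  I_D : I D = 1
  DE : D * E = D * p K
  DD : D * D = -(D * p K)
  σK : σ (p K) = E
  σE : σ E = p K
  σD : σ D = D
  σκ : ∀ m, σ (p (κ m)) = p (κ m)
  gor : GorR (gensR2 (p K) E D fun m => p (κ m)) 24

namespace Sq

variable {O T : Type} [CommRing O] [Algebra ℚ O] [CommRing T] [Algebra ℚ T] (q : Sq O T)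

/-- The graded pieces. -/
def R (k : ℕ) : Submodule ℚ T := RkR (gensR2 (q.p q.K) q.E q.D fun m => q.p (q.κ m)) k

/-- Monomials without diagonal. -/
def A (a b : ℕ) (l : List ℕ) : T := q.p (q.K ^ a * mon q.κ l) * q.E ^ b

/-- Monomials with diagonal. -/
def B (a : ℕ) (l : List ℕ) : T := q.D * q.p (q.K ^ a * mon q.κ l)

theorem K_mem : q.p q.K ∈ q.R 1 := rk_gen (Or.inl ⟨rfl, Or.inl rfl⟩)
theorem E_mem : q.E ∈ q.R 1 := rk_gen (Or.inl ⟨rfl, Or.inr (Or.inl rfl)⟩)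
theorem D_mem : q.D ∈ q.R 1 := rk_gen (Or.inl ⟨rfl, Or.inr (Or.inr rfl)⟩)
theorem κ_mem (m : ℕ) (h : 1 ≤ m) : q.p (q.κ m) ∈ q.R m := rk_gen (Or.inr ⟨h, rfl⟩)

theorem mul_mem {a b n : ℕ} {f h : T} (hf : f ∈ q.R a) (hh : h ∈ q.R b) (e : a + b = n) :
    f * h ∈ q.R n := e ▸ rk_mul hf hh

theorem A_mem {a b n : ℕ} {l : List ℕ} (hl : Pos l) (e : a + b + l.sum = n) :
    q.A a b l ∈ q.R n := by
  rw [A, map_mul, map_pow, map_mon]
  exact q.mul_mem (q.mul_mem (rk_pow q.K_mem a) (mon_mem q.κ_mem hl) rfl) (rk_pow q.E_mem b)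
    (by omega)

theorem B_eq (a : ℕ) (l : List ℕ) : q.B a l = q.D * q.A a 0 l := by simp [A, B]

theorem B_mem {a n : ℕ} {l : List ℕ} (hl : Pos l) (e : a + 1 + l.sum = n) : q.B a l ∈ q.R n := by
  rw [B_eq]
  exact q.mul_mem q.D_mem (q.A_mem hl rfl) (by omega)

theorem D_pow (b : ℕ) : q.D * q.E ^ b = q.D * q.p q.K ^ b := by
  induction b with
  | zero => simp
  | succ b ih => rw [pow_succ, pow_succ]; linear_combination q.E * ih + q.p q.K ^ b * q.DE

theorem D_A (a b : ℕ) (l : List ℕ) : q.D * q.A a b l = q.B (a + b) l := by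
  simp only [A, B, map_mul, map_pow, pow_add]
  linear_combination q.p q.K ^ a * q.p (mon q.κ l) * q.D_pow b

theorem D_B (a : ℕ) (l : List ℕ) : q.D * q.B a l = -q.B (a + 1) l := by
  simp only [B, map_mul, map_pow, pow_succ]
  linear_combination q.p q.K ^ a * q.p (mon q.κ l) * q.DD

theorem K_A (a b : ℕ) (l : List ℕ) : q.p q.K * q.A a b l = q.A (a + 1) b l := by
  simp only [A, map_mul, map_pow]; ring

theorem E_A (a b : ℕ) (l : List ℕ) : q.E * q.A a b l = q.A a (b + 1) l := by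
  simp only [A, map_mul, map_pow]; ring

theorem κ_A (m a b : ℕ) (l : List ℕ) : q.p (q.κ m) * q.A a b l = q.A a b (m :: l) := by
  simp only [A, map_mul, map_pow, mon_cons]; ring

theorem monR2 {k : ℕ} {f : T} (h : MonR (gensR2 (q.p q.K) q.E q.D fun m => q.p (q.κ m)) k f) :
    (∃ a b l, Pos l ∧ a + b + l.sum = k ∧ f = q.A a b l) ∨
      ∃ a l, Pos l ∧ a + 1 + l.sum = k ∧ (f = q.B a l ∨ f = -q.B a l) := by
  induction h with
  | one => exact Or.inl ⟨0, 0, [], Pos.nil, rfl, by simp [A]⟩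
  | @mul m k s f hs _ ih =>
    rcases ih with ⟨a, b, l, h1, rfl, rfl⟩ | ⟨a, l, h1, rfl, h3⟩
    · rcases hs with ⟨rfl, rfl | rfl | rfl⟩ | ⟨h4, rfl⟩
      · exact Or.inl ⟨a + 1, b, l, h1, by omega, q.K_A a b l⟩
      · exact Or.inl ⟨a, b + 1, l, h1, by omega, q.E_A a b l⟩
      · exact Or.inr ⟨a + b, l, h1, by omega, Or.inl (q.D_A a b l)⟩
      · exact Or.inl ⟨a, b, m :: l, h1.cons h4, by simp; omega, q.κ_A m a b l⟩
    · have key : ∃ a' l', Pos l' ∧ a' + 1 + l'.sum = m + (a + 1 + l.sum) ∧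
          (s * q.B a l = q.B a' l' ∨ s * q.B a l = -q.B a' l') := by
        rcases hs with ⟨rfl, rfl | rfl | rfl⟩ | ⟨h4, rfl⟩
        · refine ⟨a + 1, l, h1, by omega, Or.inl ?_⟩
          rw [B_eq, B_eq, mul_left_comm, K_A]
        · refine ⟨a + 1, l, h1, by omega, Or.inl ?_⟩
          rw [B_eq, mul_left_comm, E_A, D_A]
        · exact ⟨a + 1, l, h1, by omega, Or.inr (q.D_B a l)⟩
        · refine ⟨a, m :: l, h1.cons h4, by simp; omega, Or.inl ?_⟩
          rw [B_eq, B_eq, mul_left_comm, κ_A]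
      obtain ⟨a', l', k1, k2, k3⟩ := key
      refine Or.inr ⟨a', l', k1, k2, ?_⟩
      rcases h3 with rfl | rfl
      · exact k3
      · rw [mul_neg]
        rcases k3 with k3 | k3
        · exact Or.inr (by rw [k3])
        · exact Or.inl (by rw [k3, neg_neg])

theorem eq_zero {k n : ℕ} (hk : k + n = 24) {f : T} (hf : f ∈ q.R k)
    (hA : ∀ a b l, Pos l → a + b + l.sum = n → f * q.A a b l = 0)
    (hB : ∀ a l, Pos l → a + 1 + l.sum = n → f * q.B a l = 0) : f = 0 := by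
  refine q.gor.2 k (by omega) f hf fun u hu => ?_
  have e : 24 - k = n := by omega
  rw [e] at hu
  have : q.R n ≤ LinearMap.ker (LinearMap.mulLeft ℚ f) := by
    refine Submodule.span_le.2 fun u hu => ?_
    rcases q.monR2 hu with ⟨a, b, l, h1, h2, rfl⟩ | ⟨a, l, h1, h2, rfl | rfl⟩
    · exact hA a b l h1 h2
    · exact hB a l h1 h2
    · exact neg_mem (hB a l h1 h2)
  exact this hu

theorem I_A (a b : ℕ) (l : List ℕ) : q.I (q.A a b l) = q.K ^ a * mon q.κ l * q.I (q.E ^ b) :=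
  q.I_p _ _

theorem I_B (a : ℕ) (l : List ℕ) : q.I (q.B a l) = q.K ^ a * mon q.κ l := by
  rw [B, mul_comm, q.I_p, q.I_D, mul_one]

theorem σ_A (a b : ℕ) (l : List ℕ) : q.σ (q.A a b l) = q.A b a l := by
  simp only [A, map_mul, map_pow, map_mon, q.σK, q.σE, q.σκ]; ring

theorem σ_B (a : ℕ) (l : List ℕ) : q.σ (q.B a l) = q.B a l := by
  rw [B_eq, map_mul, q.σD, σ_A, D_A, D_A, zero_add, add_zero]

theorem exists_B : ∃ a l, Pos l ∧ a + 1 + l.sum = 24 ∧ q.B a l ≠ 0 := by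
  by_contra hc
  push Not at hc
  have hD : q.D = 0 := by
    refine q.eq_zero (n := 23) rfl q.D_mem (fun a b l h1 h2 => ?_) fun a l h1 h2 => ?_
    · rw [D_A]; exact hc _ _ h1 (by omega)
    · rw [D_B, hc _ _ h1 (by omega), neg_zero]
  have h1 : (1 : O) = 0 := by rw [← q.I_D, hD, map_zero]
  obtain ⟨s, -, hs, -⟩ := q.gor.1
  apply hs
  rw [← mul_one s, ← map_one q.p, h1, map_zero, mul_zero]

/-- In top degree every class is a multiple of one class supported on the diagonal. -/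
theorem top : ∃ a l, Pos l ∧ a + l.sum = 23 ∧ q.K ^ a * mon q.κ l ≠ 0 ∧
    ∀ f ∈ q.R 24, ∃ c : ℚ, f = c • q.B a l := by
  obtain ⟨a, l, h1, h2, h3⟩ := q.exists_B
  obtain ⟨s, -, -, hs⟩ := q.gor.1
  refine ⟨a, l, h1, by omega, fun h => h3 (by rw [B, h, map_zero, mul_zero]), fun f hf => ?_⟩
  obtain ⟨c, hc⟩ := hs _ (q.B_mem h1 h2)
  obtain ⟨c', hc'⟩ := hs f hf
  have c0 : c ≠ 0 := by rintro rfl; exact h3 (by rw [hc, zero_smul])
  exact ⟨c' / c, by rw [hc, hc', smul_smul, div_mul_cancel₀ _ c0]⟩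

theorem σ_top {f : T} (hf : f ∈ q.R 24) : q.σ f = f := by
  obtain ⟨a, l, -, -, -, h⟩ := q.top
  obtain ⟨c, rfl⟩ := h f hf
  rw [map_smul, σ_B]

theorem I_inj {f : T} (hf : f ∈ q.R 24) (h0 : (46 : ℚ) • q.I f = 0) : f = 0 := by
  obtain ⟨a, l, -, -, h1, h⟩ := q.top
  obtain ⟨c, rfl⟩ := h f hf
  rw [map_smul, I_B, smul_smul, smul_eq_zero] at h0
  rcases h0 with h0 | h0
  · have : c = 0 := by simpa using h0
    rw [this, zero_smul]
  · exact absurd h0 h1

variable {v : ℕ → ℕ} {s : O}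

/-- The value of a monomial of top degree on the universal curve. -/
theorem val1 (hs : ∀ l : List ℕ, Pos l → l.sum = 22 → mon q.κ l = (v (code l) : ℚ) • s)
    {a : ℕ} {l : List ℕ} (hl : Pos l) (e : a + l.sum = 23) :
    (46 : ℚ) • (q.K ^ a * mon q.κ l) =
      ((mu a * v (pr (a - 1) * code l) : ℕ) : ℚ) • (q.K * s) := by
  have h := congrArg q.I (q.σ_top (q.A_mem (a := a) (b := 1) hl (by omega)))
  have h1 : q.I (q.E ^ 1) = (46 : ℚ) • (1 : O) := (q.I_E 0).trans q.κ0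
  rw [σ_A, I_A, I_A, h1, mul_smul_comm, mul_one] at h
  rw [← h]
  rcases a with _ | _ | a
  · simp [q.I_one, mu_zero]
  · rw [zero_add, h1, hs l hl (by omega)]
    simp [mu_one, pr_zero, smul_smul, mul_comm]
  · rw [q.I_E, mul_assoc, mul_comm (mon q.κ l), ← mon_cons,
      hs _ (hl.cons (by omega)) (by simp; omega), code_cons]
    simp [mu_two]

theorem t_ne (hs : ∀ l : List ℕ, Pos l → l.sum = 22 → mon q.κ l = (v (code l) : ℚ) • s) :
    q.K * s ≠ 0 := by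
  obtain ⟨a, l, h1, h2, h3, -⟩ := q.top
  intro h
  have := q.val1 hs h1 h2
  rw [h, smul_zero, smul_eq_zero] at this
  rcases this with h | h
  · norm_num at h
  · exact h3 h

end Sq

end Pool.Agent.FP.Fn
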