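import Pool.Agent.FP.FinR2
import Pool.Agent.FP.FinChk

/-! The programs compute the values of products in top degree. -/

namespace Pool.Agent.FP.Fn

theorem e1_zero (v : ℕ → ℕ) (L : List (ℕ × ℕ)) (c : ℕ) : e1 v 0 L c = 0 := rfl

theorem e1_succ (v : ℕ → ℕ) (a : ℕ) (L : List (ℕ × ℕ)) (c : ℕ) :
    e1 v (a + 1) L c = mu (a + 1) * dot v L (pr a * c) := rfl

theorem e1_nil (v : ℕ → ℕ) (a c : ℕ) : e1 v a [] c = 0 := by
  cases a with
  | zero => rfl
  | succ a => rw [e1_succ, dot_nil, mul_zero]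

theorem e1_cons (v : ℕ → ℕ) (a : ℕ) (x : ℕ × ℕ) (L : List (ℕ × ℕ)) (c : ℕ) :
    e1 v a (x :: L) c = x.1 * (mu a * v (pr (a - 1) * (c * x.2))) + e1 v a L c := by
  cases a with
  | zero => simp [e1_zero, mu_zero]
  | succ a => rw [e1_succ, e1_succ, dot_cons, Nat.add_sub_cancel, mul_assoc (pr a)]; ring

theorem e2_zero (v : ℕ → ℕ) (a : ℕ) (L : List (ℕ × ℕ)) (c : ℕ) : e2 v a 0 L c = 0 := rfl

theorem e2_succ (v : ℕ → ℕ) (a b : ℕ) (L : List (ℕ × ℕ)) (c : ℕ) :
    e2 v a (b + 1) L c = mu (b + 1) * e1 v a L (pr b * c) := rfl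

theorem ex_ok {l : List ℕ} (hl : Pos l) : ∀ t ∈ ex l, Pos t.2.2 ∧ t.2.1 + t.2.2.sum = l.sum := by
  induction l with
  | nil => intro t ht; simp [ex] at ht; subst ht; exact ⟨Pos.nil, rfl⟩
  | cons m l ih =>
    intro t ht
    rw [ex, List.mem_append] at ht
    rcases ht with ht | ht
    · obtain ⟨u, hu, rfl⟩ := List.mem_map.1 ht
      obtain ⟨h1, h2⟩ := ih hl.tail u hu
      exact ⟨h1.cons (hl m (by simp)), by simp; omega⟩
    · cases hb : Nat.beq (m % 2) 0
      · simp [hb] at ht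
      · rw [hb, cond_true] at ht
        obtain ⟨u, hu, rfl⟩ := List.mem_map.1 ht
        obtain ⟨h1, h2⟩ := ih hl.tail u hu
        exact ⟨h1, by simp; omega⟩

namespace Sq

variable {O T : Type} [CommRing O] [Algebra ℚ O] [CommRing T] [Algebra ℚ T] (q : Sq O T)

/-- The part without diagonal. -/
def WA (W : List (ℕ × ℕ × List (ℕ × List ℕ))) : T :=
  (W.map fun t => q.p (q.K ^ t.1 * poly q.κ t.2.2) * q.E ^ t.2.1).sum

/-- The diagonal part. -/
def WB (W : List (ℕ × List (ℕ × List ℕ))) : T :=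
  (W.map fun t => q.D * q.p (q.K ^ t.1 * poly q.κ t.2)).sum

theorem WA_mem {W : List (ℕ × ℕ × List (ℕ × List ℕ))} {n : ℕ}
    (h : ∀ t ∈ W, okL n (t.1 + t.2.1) t.2.2) (hn : ∀ t ∈ W, t.1 + t.2.1 ≤ n) : q.WA W ∈ q.R n := by
  refine list_sum_mem fun x hx => ?_
  obtain ⟨t, ht, rfl⟩ := List.mem_map.1 hx
  rw [map_mul, map_pow, map_poly]
  have := hn t ht
  refine q.mul_mem (q.mul_mem (rk_pow q.K_mem _)
    (poly_mem (n := n - (t.1 + t.2.1)) q.κ_mem fun u hu => ?_) rfl) (rk_pow q.E_mem _) (by omega)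
  obtain ⟨h1, h2⟩ := h t ht u hu
  exact ⟨h1, by omega⟩

theorem WB_mem {W : List (ℕ × List (ℕ × List ℕ))} {n : ℕ}
    (h : ∀ t ∈ W, okL n t.1 t.2) (hn : ∀ t ∈ W, t.1 ≤ n) : q.WB W ∈ q.R (n + 1) := by
  refine list_sum_mem fun x hx => ?_
  obtain ⟨t, ht, rfl⟩ := List.mem_map.1 hx
  rw [map_mul, map_pow, map_poly]
  have := hn t ht
  refine q.mul_mem q.D_mem (q.mul_mem (rk_pow q.K_mem _)
    (poly_mem (n := n - t.1) q.κ_mem fun u hu => ?_) rfl) (by omega)
  obtain ⟨h1, h2⟩ := h t ht u hu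
  exact ⟨h1, by omega⟩

variable {v : ℕ → ℕ} {s : O}
  (hs : ∀ l : List ℕ, Pos l → l.sum = 22 → mon q.κ l = (v (code l) : ℚ) • s)
include hs

theorem e1_spec {a : ℕ} {l : List ℕ} (hl : Pos l) {L : List (ℕ × List ℕ)}
    (hL : okL 23 (a + l.sum) L) :
    (46 : ℚ) • (q.K ^ a * mon q.κ l * poly q.κ L) =
      (e1 v a (cd L) (code l) : ℚ) • (q.K * s) := by
  induction L with
  | nil => simp [cd, e1_nil]
  | cons t L ih =>
    obtain ⟨h1, h2⟩ := hL t (by simp)
    have e : cd (t :: L) = (t.1, code t.2) :: cd L := rfl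
    have h3 := q.val1 hs (a := a) (hl.append h1) (by simp; omega)
    rw [code_append, mon_append, ← mul_assoc] at h3
    rw [poly_cons, mul_add, smul_add, ih fun u hu => hL u (List.mem_cons_of_mem _ hu), e, e1_cons,
      mul_smul_comm, smul_comm, h3, Nat.cast_add, add_smul, Nat.cast_mul t.1, mul_smul]

theorem e2_spec {a b : ℕ} {l : List ℕ} (hl : Pos l) {L : List (ℕ × List ℕ)}
    (hL : okL 24 (a + b + l.sum) L) :
    (46 : ℚ) • q.I (q.p (q.K ^ a * mon q.κ l * poly q.κ L) * q.E ^ b) =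
      (e2 v a b (cd L) (code l) : ℚ) • (q.K * s) := by
  rw [q.I_p]
  rcases b with _ | _ | b
  · simp [q.I_one, e2_zero]
  · rw [q.I_E, q.κ0, mul_smul_comm, mul_one,
      q.e1_spec hs hl fun t ht => ⟨(hL t ht).1, by have := (hL t ht).2; omega⟩, e2_succ, pr_zero,
      one_mul, mu_one, smul_smul]
    simp
  · rw [q.I_E, e2_succ, mu_two, one_mul, ← code_cons,
      ← q.e1_spec hs (hl.cons (by omega)) fun t ht =>
        ⟨(hL t ht).1, by have := (hL t ht).2; simp; omega⟩, mon_cons]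
    congr 1
    ring

theorem s2_spec {a b n : ℕ} {l : List ℕ} (hl : Pos l) (e : n + (a + b + l.sum) = 24)
    {W : List (ℕ × ℕ × List (ℕ × List ℕ))} (h : ∀ t ∈ W, okL n (t.1 + t.2.1) t.2.2) :
    (46 : ℚ) • q.I (q.WA W * q.A a b l) = (s2 v (cdW W) a b (code l) : ℚ) • (q.K * s) := by
  induction W with
  | nil => simp [WA, cdW, s2, sm_eq]
  | cons t W ih =>
    have e1 : q.WA (t :: W) * q.A a b l = q.p (q.K ^ (t.1 + a) * mon q.κ l * poly q.κ t.2.2) *
        q.E ^ (t.2.1 + b) + q.WA W * q.A a b l := by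
      simp only [WA, A, List.map_cons, List.sum_cons, map_mul, map_pow]; ring
    have e2' : s2 v (cdW (t :: W)) a b (code l) =
        e2 v (t.1 + a) (t.2.1 + b) (cd t.2.2) (code l) + s2 v (cdW W) a b (code l) := rfl
    rw [e1, e2', map_add, smul_add, ih fun u hu => h u (List.mem_cons_of_mem _ hu),
      q.e2_spec hs hl fun u hu => ⟨(h t (by simp) u hu).1, by
        have := (h t (by simp) u hu).2; omega⟩, Nat.cast_add, add_smul]

theorem sD_spec {a n : ℕ} {l : List ℕ} (hl : Pos l) (e : n + (a + l.sum) = 23)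
    {W : List (ℕ × ℕ × List (ℕ × List ℕ))} (h : ∀ t ∈ W, okL n (t.1 + t.2.1) t.2.2) :
    (46 : ℚ) • q.I (q.WA W * q.B a l) = (sD v (cdW W) a (code l) : ℚ) • (q.K * s) := by
  induction W with
  | nil => simp [WA, cdW, sD, sm_eq]
  | cons t W ih =>
    have e0 : q.WA (t :: W) * q.B a l = q.p (q.K ^ (t.1 + t.2.1 + a) * mon q.κ l *
        poly q.κ t.2.2) * q.D + q.WA W * q.B a l := by
      simp only [WA, B, List.map_cons, List.sum_cons, map_mul, map_pow, pow_add]
      linear_combination q.p q.K ^ t.1 * q.p q.K ^ a * q.p (mon q.κ l) * q.p (poly q.κ t.2.2) *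
        q.D_pow t.2.1
    have e2' : sD v (cdW (t :: W)) a (code l) =
        e1 v (t.1 + t.2.1 + a) (cd t.2.2) (code l) + sD v (cdW W) a (code l) := rfl
    rw [e0, e2', map_add, smul_add, ih fun u hu => h u (List.mem_cons_of_mem _ hu), q.I_p, q.I_D,
      mul_one, q.e1_spec hs hl fun u hu => ⟨(h t (by simp) u hu).1, by
        have := (h t (by simp) u hu).2; omega⟩, Nat.cast_add, add_smul]

theorem s1_spec {a b n : ℕ} {l : List ℕ} (hl : Pos l) (e : n + (a + b + l.sum) = 23)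
    {W : List (ℕ × List (ℕ × List ℕ))} (h : ∀ t ∈ W, okL n t.1 t.2) :
    (46 : ℚ) • q.I (q.WB W * q.A a b l) = (s1 v (cdD W) (a + b) (code l) : ℚ) • (q.K * s) := by
  induction W with
  | nil => simp [WB, cdD, s1, sm_eq]
  | cons t W ih =>
    have e0 : q.WB (t :: W) * q.A a b l = q.p (q.K ^ (t.1 + (a + b)) * mon q.κ l *
        poly q.κ t.2) * q.D + q.WB W * q.A a b l := by
      simp only [WB, A, List.map_cons, List.sum_cons, map_mul, map_pow, pow_add]
      linear_combination q.p q.K ^ t.1 * q.p q.K ^ a * q.p (mon q.κ l) * q.p (poly q.κ t.2) *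
        q.D_pow b
    have e2' : s1 v (cdD (t :: W)) (a + b) (code l) =
        e1 v (t.1 + (a + b)) (cd t.2) (code l) + s1 v (cdD W) (a + b) (code l) := rfl
    rw [e0, e2', map_add, smul_add, ih fun u hu => h u (List.mem_cons_of_mem _ hu), q.I_p, q.I_D,
      mul_one, q.e1_spec hs hl fun u hu => ⟨(h t (by simp) u hu).1, by
        have := (h t (by simp) u hu).2; omega⟩, Nat.cast_add, add_smul]

omit hs in
theorem WB_B (W : List (ℕ × List (ℕ × List ℕ))) (a : ℕ) (l : List ℕ) :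
    q.WB W * q.B a l = -(q.WB W * q.A (a + 1) 0 l) := by
  induction W with
  | nil => simp [WB]
  | cons t W ih =>
    have e0 : q.WB (t :: W) = q.D * q.p (q.K ^ t.1 * poly q.κ t.2) + q.WB W := by simp [WB]
    have h1 := q.D_B a l
    have h2 := q.D_A (a + 1) 0 l
    rw [add_zero] at h2
    rw [e0]
    linear_combination ih + q.p (q.K ^ t.1 * poly q.κ t.2) * (h1 + h2)

variable {W : List (ℕ × ℕ × List (ℕ × List ℕ))} {Dl : List (ℕ × List (ℕ × List ℕ))}
  (hW : ∀ t ∈ W, okL 12 (t.1 + t.2.1) t.2.2) (hD : ∀ t ∈ Dl, okL 11 t.1 t.2)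
include hW hD

theorem u_A {a b : ℕ} {l : List ℕ} (hl : Pos l) (e : a + b + l.sum = 12) :
    (46 : ℚ) • q.I ((q.WA W + q.WB Dl) * q.A a b l) =
      ((s2 v (cdW W) a b (code l) + s1 v (cdD Dl) (a + b) (code l) : ℕ) : ℚ) • (q.K * s) := by
  rw [add_mul, map_add, smul_add, q.s2_spec hs hl (by omega) hW, q.s1_spec hs hl (by omega) hD,
    Nat.cast_add, add_smul]

theorem u_B {a : ℕ} {l : List ℕ} (hl : Pos l) (e : a + l.sum = 11) :
    (46 : ℚ) • q.I ((q.WA W + q.WB Dl) * q.B a l) =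
      ((sD v (cdW W) a (code l) : ℚ) - (s1 v (cdD Dl) (a + 1) (code l) : ℚ)) • (q.K * s) := by
  rw [add_mul, WB_B, map_add, map_neg, smul_add, smul_neg, q.sD_spec hs hl (by omega) hW,
    q.s1_spec hs hl (by omega) hD, sub_smul, sub_eq_add_neg]

omit hs hW hD in
/-- The reduced lift of a monomial. -/
def exS (l : List ℕ) : T := ((ex l).map fun t => (t.1 : ℚ) • q.A t.2.1 0 t.2.2).sum

theorem u_ex {l : List ℕ} (hl : Pos l) (e : l.sum = 12) :
    (46 : ℚ) • q.I ((q.WA W + q.WB Dl) * q.exS l) =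
      (sm (fun t => t.1 * force (code t.2.2) fun c =>
        s2 v (cdW W) t.2.1 0 c + s1 v (cdD Dl) t.2.1 c) (ex l) : ℚ) • (q.K * s) := by
  have key : ∀ M : List (ℕ × ℕ × List ℕ), (∀ t ∈ M, Pos t.2.2 ∧ t.2.1 + t.2.2.sum = 12) →
      (46 : ℚ) • q.I ((q.WA W + q.WB Dl) * (M.map fun t => (t.1 : ℚ) • q.A t.2.1 0 t.2.2).sum) =
      (sm (fun t => t.1 * force (code t.2.2) fun c =>
        s2 v (cdW W) t.2.1 0 c + s1 v (cdD Dl) t.2.1 c) M : ℚ) • (q.K * s) := by
    intro M hM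
    rw [sm_eq]
    induction M with
    | nil => simp
    | cons t M ih =>
      obtain ⟨h1, h2⟩ := hM t (by simp)
      rw [List.map_cons, List.sum_cons, List.map_cons, List.sum_cons, mul_add, map_add, smul_add,
        ih fun u hu => hM u (List.mem_cons_of_mem _ hu), mul_smul_comm, map_smul, smul_comm,
        q.u_A hs hW hD h1 (by omega), force_eq, Nat.cast_add _ (List.sum _), add_smul,
        Nat.cast_mul, mul_smul, add_zero]
  exact key _ fun t ht => e ▸ ex_ok hl t ht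

omit hs hW hD in
theorem exS_cons (m : ℕ) (l : List ℕ) :
    q.exS (m :: l) = (q.p (q.κ m) + q.p q.K ^ m + (-q.p q.K) ^ m) * q.exS l := by
  have k1 : ∀ M : List (ℕ × ℕ × List ℕ),
      ((M.map fun t => (t.1, t.2.1, m :: t.2.2)).map fun t => (t.1 : ℚ) • q.A t.2.1 0 t.2.2).sum =
        q.p (q.κ m) * (M.map fun t => (t.1 : ℚ) • q.A t.2.1 0 t.2.2).sum := by
    intro M
    induction M with
    | nil => simp
    | cons t M ih =>
      simp only [List.map_cons, List.sum_cons, ih, mul_add, mul_smul_comm, κ_A]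
  have k2 : ∀ M : List (ℕ × ℕ × List ℕ),
      ((M.map fun t => ((2 * t.1, t.2.1 + m, t.2.2) : ℕ × ℕ × List ℕ)).map
        fun t => (t.1 : ℚ) • q.A t.2.1 0 t.2.2).sum =
        (q.p q.K ^ m + q.p q.K ^ m) * (M.map fun t => (t.1 : ℚ) • q.A t.2.1 0 t.2.2).sum := by
    intro M
    induction M with
    | nil => simp
    | cons t M ih =>
      have : q.A (t.2.1 + m) 0 t.2.2 = q.p q.K ^ m * q.A t.2.1 0 t.2.2 := by
        simp only [A, map_mul, map_pow]; ring
      simp only [List.map_cons, List.sum_cons, ih, mul_add, mul_smul_comm, this]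
      rw [Nat.cast_mul, mul_comm ((2 : ℕ) : ℚ), mul_smul, Nat.cast_ofNat, two_smul, add_mul, add_mul]
  rw [exS.eq_1 q (m :: l), ex, List.map_append, List.sum_append, k1]
  rcases Nat.even_or_odd m with hm | hm
  · have : Nat.beq (m % 2) 0 = true := by rw [Nat.even_iff.1 hm]; rfl
    rw [this, cond_true, k2, hm.neg_pow, exS]; ring
  · have : Nat.beq (m % 2) 0 = false := by rw [Nat.odd_iff.1 hm]; rfl
    rw [this, cond_false, hm.neg_pow, exS]; simp

omit hs hW hD in
theorem mul_lift {w : T} (hw : w * (q.p q.K + q.E) = 0) (l : List ℕ) :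
    w * mon (fun m => q.p (q.κ m) + q.p q.K ^ m + q.E ^ m) l = w * q.exS l := by
  have hp : ∀ m : ℕ, w * q.E ^ m = w * (-q.p q.K) ^ m := by
    intro m
    induction m with
    | zero => simp
    | succ m ih => rw [pow_succ, pow_succ]; linear_combination q.E * ih + (-q.p q.K) ^ m * hw
  induction l with
  | nil => simp [exS, ex, A]
  | cons m l ih =>
    rw [mon_cons, exS_cons]
    linear_combination (q.p (q.κ m) + q.p q.K ^ m + q.E ^ m) * ih + q.exS l * hp m

end Sq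

end Pool.Agent.FP.Fn
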