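import Pool.Agent.FP.FrobA

/-! Admissible bases, change of basis, base change and sections. -/

namespace Pool.Agent.FP

variable {O T O' T' : Type} [CommRing O] [Algebra ℚ O] [CommRing T] [Algebra ℚ T]
  [CommRing O'] [Algebra ℚ O'] [CommRing T'] [Algebra ℚ T'] {g : ℕ}

namespace PreFrob
variable (F : PreFrob g O T)

/-- First normalisation of the fibre class. -/
def η1 : T := F.η - Gm F.bT.L (F.p (F.I (F.x * F.η))) F.x

/-- The admissible fibre class. -/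
def η2 : T := F.η1 - F.p ((1 / 2 : ℚ) • F.I (F.η1 * F.η1))

theorem frobb_zero (c : T) : Gm F.bT.L (F.p 0) c = 0 := by
  rw [map_zero, F.bT.Gm_scal (map_zero _)]

theorem frobb_I_Gm (y : O) : F.I (Gm F.bT.L (F.p y) F.x) = 0 := by
  rw [F.I_Gm, F.I_x, Gm_comm, F.bO.Gm_scal (map_zero _)]

theorem frobb_I_mul {a : T} (ha : F.bT.N a = 0) (y : O) :
    F.I (a * Gm F.bT.L (F.p y) F.x) = Gm F.bO.L y (F.I (F.x * a)) := by
  rw [Gm_comm, ← F.bT.Gm_scal_mul ha, Gm_comm, F.I_Gm, mul_comm]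

theorem frobb_p_Gm (y z : O) : Gm F.bT.L (F.p y) (F.p z) = F.p (Gm F.bO.L y z) :=
  (BV.Hom.map_Gm F.bO F.p_hom y z).symm

theorem frobb_sq (a : T) (c : O) :
    F.I ((a - F.p c) * (a - F.p c)) = F.I (a * a) - 2 * c * F.I a := by
  rw [show (a - F.p c) * (a - F.p c) = a * a - F.p c * a - F.p c * a + F.p c * F.p c by ring,
    map_add, map_sub, map_sub, F.I_p, F.I_p, F.I_p_one]
  ring

theorem frobb_x (a : T) (c : O) : F.I (F.x * (a - F.p c)) = F.I (F.x * a) := by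
  rw [mul_sub, map_sub, mul_comm _ (F.p c), F.I_p, F.I_x, mul_zero, sub_zero]

theorem frobb_half (c : O) : 2 * ((1 / 2 : ℚ) • c) = c := by
  rw [two_mul, ← add_smul, add_halves, one_smul]

theorem frobb_N1 : F.bT.N F.η1 = 0 := by
  rw [η1, map_sub, F.N_η, F.N_Gm_x (F.N_I_x F.N_η), sub_zero]

theorem frobb_I1 : F.I F.η1 = 1 := by
  rw [η1, map_sub, F.I_η, F.frobb_I_Gm, sub_zero]

theorem N_η2 : F.bT.N F.η2 = 0 := by
  rw [η2, map_sub, F.frobb_N1, F.N_p, map_smul,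
    F.N_I_scal (F.bT.N_mul_scal F.frobb_N1 F.frobb_N1), smul_zero, map_zero, sub_zero]

theorem I_η2 : F.I F.η2 = 1 := by
  rw [η2, map_sub, F.frobb_I1, F.I_p_one, sub_zero]

theorem I_xη2 : F.I (F.x * F.η2) = 0 := by
  rw [η2, F.frobb_x, η1, mul_sub, map_sub, F.I_x_Gm (F.N_I_x F.N_η), sub_self]

theorem I_η2η2 : F.I (F.η2 * F.η2) = 0 := by
  rw [η2, F.frobb_sq, frobb_half, F.frobb_I1, mul_one, sub_self]

theorem dec2 (i : ℕ) (a : T) (ha : F.bT.N a = 0) : ∃ f0 f2 : O, ((i : ℚ) + 1) • (F.x ^ i * a) =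
    F.p f0 + Gm F.bT.L (F.p (F.I (F.x ^ (i + 1) * a))) F.x +
      F.p f2 * (F.η2 - Gm F.bT.L (F.p (F.I (F.x * F.η2))) F.x) := by
  obtain ⟨f0, f2, h⟩ := F.dec' i a ha
  refine ⟨f0 + f2 * ((1 / 2 : ℚ) • F.I (F.η1 * F.η1)), f2, ?_⟩
  rw [h, F.I_xη2, F.frobb_zero, map_add, map_mul F.p, η2, ← η1]
  ring

/-- The bundle with its admissible basis. -/
def toFrob : Frob g O T :=
  { F with
    η := F.η2
    N_η := F.N_η2
    I_η := F.I_η2
    dec' := F.dec2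
    I_xη := F.I_xη2
    I_ηη := F.I_η2η2 }

end PreFrob

namespace Frob
variable (F : Frob g O T)

/-- Uniqueness of the admissible fibre class (`ext_scal` or `compl 0`). -/
theorem eta_unique {e : T} (hN : F.bT.N e = 0) (h1 : F.I e = 1) (hx : F.I (F.x * e) = 0)
    (hee : F.I (e * e) = 0) : e = F.η := by
  have h := F.compl 0 e hN
  simp only [Nat.cast_zero, zero_add, one_smul, pow_zero, one_mul, pow_one] at h
  rw [h1, hx, F.frobb_zero, map_one, one_mul, add_zero] at h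
  have h2 : e = F.η - F.p (-F.I (F.η * e)) := by
    rw [map_neg, sub_neg_eq_add, add_comm]
    exact h
  rw [h2, F.frobb_sq, F.I_ηη, F.I_η, mul_one, zero_sub, neg_eq_zero, two_mul, ← two_smul ℚ] at hee
  rw [h2, (smul_eq_zero_iff_right two_ne_zero).1 hee, map_zero, sub_zero]

/-- The fibre class after a shift of `x` by `y`. -/
def shη (y : O) : T := F.η + Gm F.bT.L (F.p y) F.x - F.p ((1 / 2 : ℚ) • Gm F.bO.L y y)

theorem sh_N_x {y : O} (hy : F.bO.N y = y) : F.bT.N (F.x - F.p y) = F.x - F.p y := by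
  rw [map_sub, F.N_x, F.N_p, hy]

theorem sh_N_η {y : O} (hy : F.bO.N y = y) : F.bT.N (F.shη y) = 0 := by
  rw [shη, map_sub, map_add, F.N_η, F.N_Gm_x hy, F.N_p, map_smul, F.bO.N_Gm_deg1 hy hy, smul_zero,
    map_zero, add_zero, sub_zero]

theorem sh_I_x (y : O) : F.I (F.x - F.p y) = 0 := by
  rw [map_sub, F.I_x, F.I_p_one, sub_zero]

theorem sh_I_η (y : O) : F.I (F.shη y) = 1 := by
  rw [shη, map_sub, map_add, F.I_η, F.I_Gm_x, F.I_p_one, add_zero, sub_zero]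

theorem sh_I_xx (y : O) : F.I ((F.x - F.p y) * (F.x - F.p y)) = (2 : ℚ) • F.bO.om := by
  rw [F.frobb_sq, F.I_xx, F.I_x, mul_zero, sub_zero]

theorem sh_I_xη {y : O} (hy : F.bO.N y = y) : F.I ((F.x - F.p y) * F.shη y) = 0 := by
  rw [sub_mul, map_sub, F.I_p, F.sh_I_η, shη, F.frobb_x, mul_add, map_add, F.I_xη, F.I_x_Gm hy]
  ring

theorem sh_I_ηη {y : O} (hy : F.bO.N y = y) : F.I (F.shη y * F.shη y) = 0 := by
  rw [shη, F.frobb_sq, PreFrob.frobb_half, add_mul, mul_add, mul_add,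
    mul_comm (Gm _ _ _) F.η]
  simp only [map_add]
  rw [F.I_ηη, F.I_η_Gm, F.frobb_I_mul (F.N_Gm_x hy), F.I_x_Gm hy, F.I_η, F.I_Gm_x]
  ring

/-- `t1` and `t2` are the derivatives of `t` with respect to `x` and to `y`. -/
def frobb_R (y : O) (a t t1 t2 : T) : Prop :=
  Gm F.bT.L (F.p (F.I (t * a))) F.x = t1 * a - F.p (F.I (F.η * (t1 * a))) -
    F.p (F.I (t1 * a)) * F.η + F.p (F.I (t2 * a)) * Gm F.bT.L (F.p y) F.x

theorem frobb_R0 (y : O) {a : T} (ha : F.bT.N a = 0) (j : ℕ) :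
    F.frobb_R y a (F.x ^ j) ((j : ℚ) • F.x ^ (j - 1)) 0 := by
  unfold frobb_R
  cases j with
  | zero =>
    rw [pow_zero, one_mul, F.bT.Gm_scal (by rw [F.N_p, F.N_I_scal ha, map_zero])]
    simp
  | succ j =>
    have h := F.compl j a ha
    simp only [Nat.add_sub_cancel, Nat.cast_succ, smul_mul_assoc, mul_smul_comm, map_smul,
      zero_mul, map_zero, add_zero]
    rw [h, smul_add]
    abel

theorem frobb_Rs {y : O} {a t t1 t2 u u1 u2 : T} (h : F.frobb_R y a t t1 t2)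
    (h' : F.frobb_R y a u u1 u2) :
    F.frobb_R y a (t - F.p y * u) (t1 - F.p y * u1) (t2 - (F.p y * u2 + u)) := by
  unfold frobb_R at h h' ⊢
  simp only [sub_mul, add_mul, mul_sub, map_sub, map_add, mul_assoc, mul_left_comm F.η (F.p y),
    F.I_p, map_mul, Gm_sub_left, F.bT.G_mul, h, h']
  ring

theorem frobb_Rk (y : O) {a : T} (ha : F.bT.N a = 0) (k : ℕ) : ∀ j : ℕ,
    F.frobb_R y a (F.x ^ j * (F.x - F.p y) ^ k)
      ((j : ℚ) • F.x ^ (j - 1) * (F.x - F.p y) ^ k + F.x ^ j * (k : ℚ) • (F.x - F.p y) ^ (k - 1))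
      (-(F.x ^ j * (k : ℚ) • (F.x - F.p y) ^ (k - 1))) := by
  have h1 : ∀ (z : T) (n : ℕ), (n : T) * z ^ (n - 1) * z = n * z ^ n := fun z n => by
    cases n with
    | zero => simp
    | succ n => rw [Nat.add_sub_cancel, pow_succ, mul_assoc]
  induction k with
  | zero => intro j; simpa using F.frobb_R0 y ha j
  | succ k ih =>
    intro j
    have h := F.frobb_Rs (ih (j + 1)) (ih j)
    simp only [Nat.add_sub_cancel, Algebra.smul_def, map_natCast] at h ⊢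
    have e1 : F.x ^ j * (F.x - F.p y) ^ (k + 1) =
        F.x ^ (j + 1) * (F.x - F.p y) ^ k - F.p y * (F.x ^ j * (F.x - F.p y) ^ k) := by ring
    have e2 : (j : T) * F.x ^ (j - 1) * (F.x - F.p y) ^ (k + 1) +
        F.x ^ j * (((k + 1 : ℕ) : T) * (F.x - F.p y) ^ k) =
        ((j + 1 : ℕ) : T) * F.x ^ j * (F.x - F.p y) ^ k +
          F.x ^ (j + 1) * (k * (F.x - F.p y) ^ (k - 1)) -
          F.p y * (j * F.x ^ (j - 1) * (F.x - F.p y) ^ k +
            F.x ^ j * (k * (F.x - F.p y) ^ (k - 1))) := by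
      push_cast
      linear_combination (F.x - F.p y) ^ k * h1 F.x j - F.x ^ j * h1 (F.x - F.p y) k
    have e3 : -(F.x ^ j * (((k + 1 : ℕ) : T) * (F.x - F.p y) ^ k)) =
        -(F.x ^ (j + 1) * (k * (F.x - F.p y) ^ (k - 1))) -
          (F.p y * -(F.x ^ j * (k * (F.x - F.p y) ^ (k - 1))) + F.x ^ j * (F.x - F.p y) ^ k) := by
      push_cast
      linear_combination F.x ^ j * h1 (F.x - F.p y) k
    rw [e1, e2, e3]
    exact h

/-- Expand `(x - p y) ^ (i + 1)` by the binomial theorem, use `G_mul` for the factors `y ^ m` and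
`compl` for each power of `x`. Modulo the span of `1` and `shη y` over the base,
`Gm (p (I (x' ^ (i + 1) a))) x = (i + 1) x' ^ i a - (i + 1) p (I (x' ^ i a)) (η + Gm (p y) x)`. -/
theorem sh_dec {y : O} (hy : F.bO.N y = y) (i : ℕ) (a : T) (ha : F.bT.N a = 0) :
    ∃ f0 f2 : O, ((i : ℚ) + 1) • ((F.x - F.p y) ^ i * a) =
      F.p f0 + Gm F.bT.L (F.p (F.I ((F.x - F.p y) ^ (i + 1) * a))) (F.x - F.p y) +
        F.p f2 * (F.shη y - Gm F.bT.L (F.p (F.I ((F.x - F.p y) * F.shη y))) (F.x - F.p y)) := by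
  have h := F.frobb_Rk y ha (i + 1) 0
  simp only [frobb_R, pow_zero, one_mul, Nat.cast_zero, zero_smul, zero_mul, zero_add,
    Nat.add_sub_cancel, Nat.cast_succ, neg_mul, map_neg, smul_mul_assoc] at h
  generalize ((i : ℚ) + 1) • ((F.x - F.p y) ^ i * a) = W at h ⊢
  refine ⟨Gm F.bO.L (F.I ((F.x - F.p y) ^ (i + 1) * a)) y + F.I (F.η * W) +
    F.I W * ((1 / 2 : ℚ) • Gm F.bO.L y y), F.I W, ?_⟩
  rw [F.sh_I_xη hy, F.frobb_zero, Gm_sub_right, h, F.frobb_p_Gm, map_add, map_add, map_mul F.p,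
    shη]
  ring

/-- Change of basis. -/
def shift (y : O) (hy : F.bO.N y = y) : Frob g O T :=
  { F with
    x := F.x - F.p y
    η := F.shη y
    N_x := F.sh_N_x hy
    N_η := F.sh_N_η hy
    I_x := F.sh_I_x y
    I_η := F.sh_I_η y
    I_xx := F.sh_I_xx y
    dec' := F.sh_dec hy
    I_xη := F.sh_I_xη hy
    I_ηη := F.sh_I_ηη hy }

theorem chi_shift (y : O) (hy : F.bO.N y = y) : (F.shift y hy).chi = F.chi := by
  change Gm F.bT.L (F.x - F.p y) (F.x - F.p y) + (2 : ℚ) • F.shη y = _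
  rw [chi, shη, Gm_sub_left, Gm_sub_right, Gm_sub_right, F.frobb_p_Gm, Gm_comm _ F.x (F.p y),
    map_smul]
  module

theorem Dl_shift (y : O) (hy : F.bO.N y = y) {s : T →ₐ[ℚ] O} (hs : F.IsSec s) :
    (F.shift y hy).Dl s = F.Dl s := by
  change F.shη y + Gm F.bT.L (F.p (s (F.x - F.p y))) (F.x - F.p y) + F.p (s (F.shη y)) = _
  simp only [Dl, shη, map_sub, map_add, map_smul, hs.s_p, hs.hom.map_Gm, Gm_sub_left, Gm_sub_right,
    F.frobb_p_Gm, Gm_comm F.bO.L y (s F.x)]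
  module

theorem IsSec.shift {F : Frob g O T} {s : T →ₐ[ℚ] O} (hs : F.IsSec s) (y : O)
    (hy : F.bO.N y = y) : (F.shift y hy).IsSec s := ⟨hs.hom, hs.s_p⟩

/-- After the shift by `I (x ν) / n` the admissible class is `ν / n` up to the base. -/
theorem shη_eq {ν : T} {n : ℚ} (hn : n ≠ 0) (hN : F.bT.N ν = 0) (hI : F.I ν = n • (1 : O)) :
    F.shη (n⁻¹ • F.I (F.x * ν)) = n⁻¹ • ν - F.p ((2 * n ^ 2)⁻¹ • F.I (ν * ν)) := by
  have hy : F.bO.N (n⁻¹ • F.I (F.x * ν)) = n⁻¹ • F.I (F.x * ν) := by rw [map_smul, F.N_I_x hN]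
  have h0 : F.I (n⁻¹ • ν) = 1 := by rw [map_smul, hI, smul_smul, inv_mul_cancel₀ hn, one_smul]
  have h1 : F.I (n⁻¹ • ν - F.p ((2 * n ^ 2)⁻¹ • F.I (ν * ν))) = 1 := by
    rw [map_sub, h0, F.I_p_one, sub_zero]
  refine ((F.shift _ hy).eta_unique ?_ h1 ?_ ?_).symm
  · change F.bT.N _ = 0
    rw [map_sub, map_smul, hN, F.N_p, map_smul, F.N_I_scal (F.bT.N_mul_scal hN hN), smul_zero,
      smul_zero, map_zero, sub_zero]
  · change F.I ((F.x - F.p _) * _) = 0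
    rw [sub_mul, map_sub, F.I_p, h1, F.frobb_x, mul_smul_comm, map_smul, mul_one, sub_self]
  · change F.I _ = 0
    rw [F.frobb_sq, h0, mul_one, smul_mul_smul_comm, map_smul, two_mul, ← add_smul, ← sub_smul,
      show n⁻¹ * n⁻¹ - ((2 * n ^ 2)⁻¹ + (2 * n ^ 2)⁻¹) = 0 by field_simp; ring, zero_smul]

section Hom
variable {F} {F' : Frob g O' T'} {fO : O →ₐ[ℚ] O'} {fT : T →ₐ[ℚ] T'} {y : O'}

theorem Hom.frobb_N (H : F.Hom F' fO fT y) : F'.bO.N (-y) = -y := by rw [map_neg, H.N_y]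

theorem Hom.frobb_x (H : F.Hom F' fO fT y) : fT F.x = (F'.shift (-y) H.frobb_N).x := by
  change _ = F'.x - F'.p (-y)
  rw [H.map_x, map_neg, sub_neg_eq_add]

theorem Hom.frobb_η (H : F.Hom F' fO fT y) : fT F.η = (F'.shift (-y) H.frobb_N).η := by
  refine (F'.shift (-y) H.frobb_N).eta_unique ?_ ?_ ?_ ?_
  · exact (H.homT.map_N _).symm.trans (by rw [F.N_η, map_zero])
  · exact (H.map_I _).symm.trans (by rw [F.I_η, map_one])
  · rw [← H.frobb_x, ← map_mul]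
    exact (H.map_I _).symm.trans (by rw [F.I_xη, map_zero])
  · rw [← map_mul]
    exact (H.map_I _).symm.trans (by rw [F.I_ηη, map_zero])

/-- Shift `F'` by `-y` and use `eta_unique`. -/
theorem Hom.map_chi (H : F.Hom F' fO fT y) : fT F.chi = F'.chi := by
  rw [← F'.chi_shift (-y) H.frobb_N, chi, map_add, map_smul, H.homT.map_Gm, H.frobb_x, H.frobb_η]
  rfl

theorem Hom.map_kb (H : F.Hom F' fO fT y) (m : ℕ) : fO (F.kb m) = F'.kb m := by
  rw [kb, H.map_I, map_pow, H.map_chi, kb]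

theorem Hom.map_Dl (H : F.Hom F' fO fT y) {s : T →ₐ[ℚ] O} {s' : T' →ₐ[ℚ] O'} (hs : F.IsSec s)
    (hs' : F'.IsSec s') (e : ∀ a, s' (fT a) = fO (s a)) : fT (F.Dl s) = F'.Dl s' := by
  rw [← F'.Dl_shift (-y) H.frobb_N hs', Dl, map_add, map_add, H.homT.map_Gm, H.map_p, H.map_p,
    ← e, ← e, H.frobb_x, H.frobb_η]
  rfl

end Hom

section Sec
variable {F} {s : T →ₐ[ℚ] O} (hs : F.IsSec s)
include hs

theorem IsSec.N_sx : F.bO.N (s F.x) = s F.x := by rw [← hs.hom.map_N, F.N_x]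

theorem IsSec.frobb_N {a : T} (ha : F.bT.N a = 0) : F.bT.N (F.p (s a)) = 0 := by
  rw [F.N_p, ← hs.hom.map_N, ha, map_zero, map_zero]

theorem IsSec.N_Dl : F.bT.N (F.Dl s) = 0 := by
  rw [Dl, map_add, map_add, F.N_η, F.N_Gm_x hs.N_sx, hs.frobb_N F.N_η, add_zero, add_zero]

theorem IsSec.I_Dl (i : ℕ) {a : T} (ha : F.bT.N a = 0) :
    F.I (F.x ^ i * (F.Dl s * a)) = s F.x ^ i * s a := by
  have h := congrArg s (F.compl i a ha)
  simp only [map_smul, map_add, map_mul, map_pow, hs.s_p, hs.hom.map_Gm] at h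
  have h1 := F.I_Gm (s F.x) (F.x ^ (i + 1) * a)
  rw [Gm_comm, mul_comm _ a, F.bT.Gm_scal_mul ha, F.bT.Gm_pow, mul_smul_comm, map_smul,
    Gm_comm _ F.x, Gm_comm _ (s F.x), mul_comm a (F.x ^ (i + 1))] at h1
  have h2 : F.x ^ i * (F.Dl s * a) = F.η * (F.x ^ i * a) + F.p (s F.η) * (F.x ^ i * a) +
      a * (F.x ^ i * Gm F.bT.L (F.p (s F.x)) F.x) := by rw [Dl]; ring
  refine smul_right_injective O (Nat.cast_add_one_ne_zero (R := ℚ) i) ?_
  dsimp only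
  rw [h, ← h1, h2, map_add, map_add, F.I_p, mul_comm (s F.η), smul_add]

theorem IsSec.I_Dl_one : F.I (F.Dl s) = 1 := by
  simpa using hs.I_Dl 0 F.bT.N_one

theorem IsSec.I_Dl_mul {a : T} (ha : F.bT.N a = 0) : F.I (F.Dl s * a) = s a := by
  simpa using hs.I_Dl 0 ha

theorem IsSec.Dl_mul {a : T} (ha : F.bT.N a = 0) : F.Dl s * a = F.Dl s * F.p (s a) := by
  have hb := hs.frobb_N ha
  refine F.ext_scal (F.bT.N_mul_scal hs.N_Dl ha) (F.bT.N_mul_scal hs.N_Dl hb) ?_ ?_ ?_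
  · rw [hs.I_Dl_mul ha, hs.I_Dl_mul hb, hs.s_p]
  · have h1 := hs.I_Dl 1 ha
    have h2 := hs.I_Dl 1 hb
    rw [pow_one] at h1 h2
    rw [h1, h2, hs.s_p]
  · rw [mul_left_comm, mul_left_comm F.η, hs.I_Dl_mul (F.bT.N_mul_scal F.N_η ha),
      hs.I_Dl_mul (F.bT.N_mul_scal F.N_η hb), map_mul, map_mul, hs.s_p]

theorem IsSec.s_Dl : s (F.Dl s) = s F.chi := by
  simp only [Dl, chi, map_add, map_smul, hs.s_p, hs.hom.map_Gm]
  module

theorem IsSec.s_Dl_comm {s' : T →ₐ[ℚ] O} (hs' : F.IsSec s') : s' (F.Dl s) = s (F.Dl s') := by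
  simp only [Dl, map_add, hs.s_p, hs.hom.map_Gm, hs'.s_p, hs'.hom.map_Gm,
    Gm_comm F.bO.L (s F.x) (s' F.x)]
  ring

theorem IsSec.Gm_sub : Gm F.bT.L (F.x - F.p (s F.x)) (F.x - F.p (s F.x)) =
    F.chi + F.p (s F.chi) - (2 : ℚ) • F.Dl s := by
  simp only [Dl, chi, map_add, map_smul, hs.hom.map_Gm, Gm_sub_left, Gm_sub_right, F.frobb_p_Gm,
    Gm_comm F.bT.L F.x (F.p (s F.x))]
  module

/-- Recognition of the class of a section. -/
theorem IsSec.eq_Dl {D : T} (hN : F.bT.N D = 0) (h1 : F.I D = 1) (hx : F.I (F.x * D) = s F.x)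
    (hη : F.I (F.η * D) = s F.η) : D = F.Dl s := by
  refine F.ext_scal hN hs.N_Dl (h1.trans hs.I_Dl_one.symm) (hx.trans ?_) (hη.trans ?_)
  · simpa using (hs.I_Dl 1 F.bT.N_one).symm
  · rw [mul_comm, hs.I_Dl_mul F.N_η]

/-- The integral of the square of `θ = -Gm x x` when the section kills `x`. -/
theorem IsSec.I_th_sq (h0 : s F.x = 0) :
    F.I (Gm F.bT.L F.x F.x * Gm F.bT.L F.x F.x) = F.kb 1 - (4 * g : ℚ) • s F.chi := by
  have h := hs.Gm_sub
  rw [h0, map_zero, sub_zero] at h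
  have h1 : F.I F.chi = (2 - 2 * (g : ℚ)) • (1 : O) := by
    rw [← F.kb_zero, kb, zero_add, pow_one]
  have h2 : Gm F.bT.L F.x F.x * Gm F.bT.L F.x F.x = F.chi ^ (1 + 1) +
      (2 : ℚ) • (F.p (s F.chi) * F.chi) - (4 : ℚ) • (F.Dl s * F.chi) +
      F.p (s F.chi) * F.p (s F.chi) - (4 : ℚ) • (F.p (s F.chi) * F.Dl s) +
      (4 : ℚ) • (F.Dl s * F.Dl s) := by
    simp only [h, Algebra.smul_def, map_ofNat]
    ring
  rw [h2]
  simp only [map_add, map_sub, map_smul, F.I_p, F.I_p_one, h1, hs.I_Dl_one, hs.I_Dl_mul F.N_chi,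
    hs.I_Dl_mul hs.N_Dl, hs.s_Dl, mul_smul_comm, mul_one, mul_zero, kb]
  module

end Sec

end Frob

end Pool.Agent.FP
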