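import Pool.Agent.FP.FrobB

/-! The kappa classes on the tube: pure algebra. -/

namespace Pool.Agent.FP

variable {O T O' T' : Type} [CommRing O] [Algebra ℚ O] [CommRing T] [Algebra ℚ T]
  [CommRing O'] [Algebra ℚ O'] [CommRing T'] [Algebra ℚ T'] {g h : ℕ}

namespace Frob
variable (F : Frob g O T)

theorem frobc_Gxx : Gm F.bT.L F.x F.x = F.chi - (2 : ℚ) • F.η := by
  rw [chi]; abel

theorem frobc_L (n : ℕ) {a : T} (ha : F.bT.N a = 0) : F.bO.L (F.I (F.x ^ (n + 2) * a)) =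
    (((n : ℚ) + 2) * (n + 1) / 2) •
      (F.I (F.x ^ n * (a * F.chi)) - (2 : ℚ) • F.I (F.x ^ n * (a * F.η))) := by
  rw [← F.I_L, mul_comm, F.bT.L_scal ha, F.bT.L_pow F.N_x, frobc_Gxx, mul_smul_comm, map_smul,
    ← map_smul F.I (2 : ℚ), ← map_sub]
  congr 2
  algebra

theorem frobc_NB : F.bO.N (F.I (F.x ^ 2 * F.η)) = (2 : ℚ) • F.I (F.x ^ 2 * F.η) := by
  rw [← F.I_N, F.bT.N_mul, F.N_η, F.bT.N_pow F.N_x, mul_zero, add_zero, smul_mul_assoc, map_smul]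
  norm_num

theorem frobc_Ix2 : F.I (F.x ^ 2) = (2 : ℚ) • F.bO.om := by rw [pow_two, F.I_xx]

theorem frobc_Iη2 : F.I (F.η ^ 2) = 0 := by rw [pow_two, F.I_ηη]

theorem frobc_Gττ : Gm F.bO.L ((1 / 6 : ℚ) • F.I (F.x ^ 3)) ((1 / 6 : ℚ) • F.I (F.x ^ 3)) =
    (1 / 4 : ℚ) • F.I (F.x ^ 4) - F.bO.om * F.I (F.x ^ 2 * F.η) := by
  have h := F.compl2 2 2 1 1 F.bT.N_one F.bT.N_one
  simp only [mul_one, mul_comm F.η, frobc_Ix2] at h
  rw [Gm_smul_left, Gm_smul_right, h]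
  push_cast; algebra

theorem frobc_GτB : Gm F.bO.L ((1 / 6 : ℚ) • F.I (F.x ^ 3)) (F.I (F.x ^ 2 * F.η)) =
    F.I (F.x ^ 3 * F.η) - (2 : ℚ) • (F.bO.om * F.I (F.x * F.η ^ 2)) := by
  have h := F.compl2 2 1 1 F.η F.bT.N_one F.N_η
  simp only [mul_one, one_mul, pow_one, frobc_Ix2, F.I_xη, mul_zero, sub_zero,
    show F.η * (F.x * F.η) = F.x * F.η ^ 2 by ring] at h
  rw [Gm_smul_left, h]
  push_cast; algebra

theorem frobc_GBB : Gm F.bO.L (F.I (F.x ^ 2 * F.η)) (F.I (F.x ^ 2 * F.η)) =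
    (4 : ℚ) • F.I (F.x ^ 2 * F.η ^ 2) := by
  have h := F.compl2 1 1 F.η F.η F.N_η F.N_η
  simp only [pow_one, F.I_xη, mul_zero, zero_mul, sub_zero, ← pow_two F.η] at h
  rw [h]; norm_num

/-- With `τ = I (x ^ 3) / 6` and `B = I (x ^ 2 η) / 2`. All four formulas follow from `compl2`,
`BV.L_pow`, `BV.L_scal`, `L_mul`, `G_om` and `Gm x x = chi - 2 η`. -/
theorem u_L_tau : F.bO.L ((1 / 6 : ℚ) • F.I (F.x ^ 3)) = (1 / 2 : ℚ) • F.I (F.x * F.chi) := by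
  have h := F.frobc_L 1 F.bT.N_one
  simp only [mul_one, one_mul, pow_one, F.I_xη, smul_zero, sub_zero] at h
  rw [map_smul, h, smul_smul]
  norm_num

theorem frobc_L_B : F.bO.L (F.I (F.x ^ 2 * F.η)) = F.I (F.η * F.chi) := by
  have h := F.frobc_L 0 F.N_η
  simp only [zero_add, pow_zero, one_mul, F.I_ηη, smul_zero, sub_zero] at h
  rw [h]; norm_num

theorem u_one : F.bO.L (Gm F.bO.L ((1 / 6 : ℚ) • F.I (F.x ^ 3)) ((1 / 6 : ℚ) • F.I (F.x ^ 3))) =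
    (3 / 2 : ℚ) • F.I (F.x ^ 2 * F.chi) + ((g : ℚ) - 5) • F.I (F.x ^ 2 * F.η) -
      F.I (F.η * F.chi) * F.bO.om := by
  have h := F.frobc_L 2 F.bT.N_one
  simp only [mul_one, one_mul] at h
  rw [frobc_Gττ, map_sub, map_smul, h, L_mul, F.bO.G_om, F.bO.L_om, frobc_NB, frobc_L_B]
  push_cast; algebra

theorem u_L_B : F.bO.L (F.I (F.x ^ 2 * F.η)) = F.I (F.η * F.chi) := F.frobc_L_B

theorem u_two : F.bO.L (Gm F.bO.L ((1 / 6 : ℚ) • F.I (F.x ^ 3)) (F.I (F.x ^ 2 * F.η))) =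
    (3 : ℚ) • F.I (F.x * (F.η * F.chi)) + (2 * (g : ℚ) - 8) • F.I (F.x * F.η ^ 2) := by
  have h := F.frobc_L 1 F.N_η
  simp only [pow_one, ← pow_two F.η] at h
  rw [frobc_GτB, map_sub, map_smul, h,
    F.bO.L_mul_om (F.N_I_x (F.bT.N_pow_scal F.N_η 2))]
  push_cast; algebra

theorem u_three : F.bO.L (Gm F.bO.L (F.I (F.x ^ 2 * F.η)) (F.I (F.x ^ 2 * F.η))) =
    (4 : ℚ) • F.I (F.η ^ 2 * F.chi) - (8 : ℚ) • F.I (F.η ^ 3) := by
  have h := F.frobc_L 0 (F.bT.N_pow_scal F.N_η 2)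
  simp only [zero_add, pow_zero, one_mul, ← pow_succ F.η] at h
  rw [frobc_GBB, map_smul, h]
  push_cast; algebra

theorem u_recA (r : ℕ) : Gm F.bO.L (F.I (F.x ^ 2 * F.η)) (F.I (F.x * F.η ^ r)) =
    (2 : ℚ) • (F.I (F.x * F.η ^ (r + 1)) - F.I (F.x * F.η ^ 2) * F.I (F.η ^ r)) := by
  have h := F.compl2 1 0 F.η (F.η ^ r) F.N_η (F.bT.N_pow_scal F.N_η r)
  simp only [zero_add, add_zero, pow_zero, pow_one, one_mul, F.I_xη, zero_mul, sub_zero,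
    ← pow_succ' F.η, show F.η * (F.x * F.η) = F.x * F.η ^ 2 by ring] at h
  rw [h]; norm_num

theorem u_recC (r : ℕ) : Gm F.bO.L (F.I (F.x * F.η ^ 2)) (F.I (F.x * F.η ^ r)) =
    F.I (F.η ^ (r + 2)) - F.I (F.η ^ 3) * F.I (F.η ^ r) := by
  have h := F.compl2 0 0 (F.η ^ 2) (F.η ^ r) (F.bT.N_pow_scal F.N_η 2) (F.bT.N_pow_scal F.N_η r)
  simp only [zero_add, pow_zero, pow_one, one_mul, frobc_Iη2, zero_mul, sub_zero,
    ← pow_succ' F.η, ← pow_add F.η, add_comm 2 r] at h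
  rw [h]; norm_num

end Frob

/-- A relation between classes in genus `h + 1` and pairs `α + ζ γ` of classes in genus `h`. -/
structure DegRel (b' : BV (h + 1) O') (b : BV h O) (R : O' → O → O → Prop) : Prop where
  add : ∀ {a a' α α' γ γ'}, R a α γ → R a' α' γ' → R (a + a') (α + α') (γ + γ')
  smul : ∀ (c : ℚ) {a α γ}, R a α γ → R (c • a) (c • α) (c • γ)
  mul : ∀ {a a' α α' γ γ'}, R a α γ → R a' α' γ' → R (a * a') (α * α') (α * γ' + γ * α')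
  L : ∀ {a α γ}, R a α γ → R (b'.L a) (b.L α - γ) (b.L γ)
  one : R 1 1 0
  om : R b'.om b.om 1
  scal : ∀ {a α γ}, R a α γ → b'.N a = 0 → b.N α = 0 → R a α 0

omit [CommRing O] [Algebra ℚ O] [CommRing O'] [Algebra ℚ O'] in
theorem DegRel.frobc_congr {R : O' → O → O → Prop} {a a' : O'} {α α' γ γ' : O} (h1 : R a α γ)
    (e1 : a = a') (e2 : α = α') (e3 : γ = γ') : R a' α' γ' := by
  subst e1 e2 e3; exact h1

theorem DegRel.frobc_sub {b' : BV (h + 1) O'} {b : BV h O} {R : O' → O → O → Prop}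
    (H : DegRel b' b R) {a a' : O'} {α α' γ γ' : O} (h1 : R a α γ) (h2 : R a' α' γ') :
    R (a - a') (α - α') (γ - γ') :=
  DegRel.frobc_congr (H.add h1 (H.smul (-1) h2)) (by module) (by module) (by module)

theorem DegRel.frobc_div {b' : BV (h + 1) O'} {b : BV h O} {R : O' → O → O → Prop}
    (H : DegRel b' b R) {a : O'} {α γ : O} {t : ℚ} (ht : t ≠ 0)
    (h1 : R (t • a) (t • α) (t • γ)) : R a α γ := by
  have := H.smul t⁻¹ h1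
  simpa only [smul_smul, inv_mul_cancel₀ ht, one_smul] using this

theorem DegRel.Gm {b' : BV (h + 1) O'} {b : BV h O} {R : O' → O → O → Prop} (H : DegRel b' b R)
    {a a' : O'} {α α' γ γ' : O} (h1 : R a α γ) (h2 : R a' α' γ') :
    R (Gm b'.L a a') (Gm b.L α α') (Gm b.L α γ' + Gm b.L γ α' + (2 : ℚ) • (γ * γ')) := by
  refine DegRel.frobc_congr (H.frobc_sub (H.frobc_sub (H.L (H.mul h1 h2))
    (H.mul (H.L h1) h2)) (H.mul h1 (H.L h2))) rfl ?_ ?_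
  · simp only [FP.Gm]; ring
  · simp only [FP.Gm, map_add, two_smul]; ring

namespace Frob
variable {F : Frob g O T} {s : T →ₐ[ℚ] O}

theorem IsSec.frobc_sx (hs : F.IsSec s) : F.I (F.x ^ (0 + 1) * F.Dl s) = s F.x := by
  have h := hs.I_Dl 1 F.bT.N_one
  simpa only [mul_one, map_one, pow_one, zero_add] using h

theorem IsSec.frobc_ηD (hs : F.IsSec s) : F.I (F.η * F.Dl s) = s F.η := by
  rw [mul_comm, hs.I_Dl_mul F.N_η]

theorem IsSec.frobc_Gτ (hs : F.IsSec s) : Gm F.bO.L ((1 / 6 : ℚ) • F.I (F.x ^ 3)) (s F.x) =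
    (1 / 2 : ℚ) • (s F.x ^ 2 - F.I (F.x ^ 2 * F.η) - (2 : ℚ) • (F.bO.om * s F.η)) := by
  have h := F.compl2 2 0 1 (F.Dl s) F.bT.N_one hs.N_Dl
  have h2 := hs.I_Dl 2 F.bT.N_one
  rw [hs.frobc_sx] at h
  simp only [mul_one, one_mul, map_one, pow_zero, add_zero, hs.I_Dl_one, hs.frobc_ηD,
    frobc_Ix2, mul_comm F.η (F.x ^ 2)] at h h2
  rw [Gm_smul_left, h, h2]
  push_cast; algebra

theorem IsSec.frobc_GB (hs : F.IsSec s) : Gm F.bO.L (s F.x) (F.I (F.x ^ 2 * F.η)) =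
    (2 : ℚ) • (s F.x * s F.η - F.I (F.x * F.η ^ 2)) := by
  have h := F.compl2 0 1 (F.Dl s) F.η hs.N_Dl F.N_η
  have h2 := hs.I_Dl 1 F.N_η
  rw [hs.frobc_sx] at h
  simp only [one_mul, pow_zero, pow_one, zero_add, hs.I_Dl_one, F.I_xη, mul_zero,
    sub_zero, show F.η * (F.x * F.η) = F.x * F.η ^ 2 by ring] at h h2
  rw [h, h2]
  norm_num

theorem IsSec.frobc_Lsq (hs : F.IsSec s) :
    F.bO.L (s F.x ^ 2) = s F.chi - (2 : ℚ) • s F.η := by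
  have h := F.bT.L_pow F.N_x 0
  rw [← map_pow, ← hs.hom.map_L, show F.x ^ 2 = F.x ^ (0 + 2) from rfl, h, frobc_Gxx]
  simp

theorem IsSec.frobc_Lmix (hs : F.IsSec s) {s' : T →ₐ[ℚ] O} (hs' : F.IsSec s') :
    F.bO.L (s F.x * s' F.x) = s' (F.Dl s) - s F.η - s' F.η := by
  have h := F.compl2 0 0 (F.Dl s) (F.Dl s') hs.N_Dl hs'.N_Dl
  rw [hs.frobc_sx, hs'.frobc_sx, mul_comm (F.Dl s) (F.Dl s')] at h
  simp only [mul_one, one_mul, pow_zero, add_zero, hs.I_Dl_one, hs'.I_Dl_one, hs.frobc_ηD,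
    hs'.frobc_ηD, hs'.I_Dl_mul hs.N_Dl, Nat.cast_zero, zero_add, one_smul] at h
  rw [L_mul, F.bO.deg1 _ hs.N_sx, F.bO.deg1 _ hs'.N_sx, h]
  ring

theorem frobc_I_lin (F : Frob g O T) (n : ℚ) (c : O) (a : T) :
    F.I (a * (n • (F.η + F.p c))) = n • (F.I (a * F.η) + c * F.I a) := by
  rw [mul_smul_comm, map_smul, mul_add, map_add, mul_comm a (F.p c), F.I_p]

end Frob

/-- The normalised case. Put `n = -2 h`, `τ = I (x ^ 3) / 6`, `B = I (x ^ 2 η)`, `δ = x₂ - x₁`.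
From `u_one` on both sides, after removing `δ ^ 2 / 2`:
`R ((-2 h - 4) B' + 2 n c' om') ((-2 h - 4) B + 2 n c om) (8 c)`; apply `L` and `scal` to get
`R c' c 0`, then `R B' B (-2 c)`; `u_two` gives `R A' A 0` for `A = I (x η ^ 2)`, `u_three` gives
`R C' C 0` for `C = I (η ^ 3)`; then induct with `u_recA`, `u_recC`. One uses
`s_i η = -c`, `L (x_i ^ 2) = s_i chi + 2 c`, `L (δ ^ 2) = 0`. -/
theorem tube_norm (hh : 1 ≤ h) (F' : Frob (h + 1) O' T') (F : Frob h O T) {s₁ s₂ : T →ₐ[ℚ] O}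
    (h₁ : F.IsSec s₁) (h₂ : F.IsSec s₂) {R : O' → O → O → Prop} (H : DegRel F'.bO F.bO R)
    {c' : O'} {c : O} (hc' : F'.bO.N c' = 0) (hc : F.bO.N c = 0)
    (e' : F'.chi = (-2 * h : ℚ) • (F'.η + F'.p c'))
    (e : F.chi - F.Dl s₁ - F.Dl s₂ = (-2 * h : ℚ) • (F.η + F.p c))
    (h12 : s₂ (F.Dl s₁) = 0) (hχ : s₁ F.chi + s₂ F.chi = 0) (hδ : R 0 (s₂ F.x - s₁ F.x) 0)
    (hτ : R ((1 / 6 : ℚ) • F'.I (F'.x ^ 3)) ((1 / 6 : ℚ) • F.I (F.x ^ 3))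
      ((1 / 2 : ℚ) • (s₁ F.x + s₂ F.x))) :
    R c' c 0 ∧ ∀ r, R (F'.I (F'.η ^ r)) (F.I (F.η ^ r)) 0 := by
  have hq : (1 : ℚ) ≤ h := by exact_mod_cast hh
  have hn : (-2 * h : ℚ) ≠ 0 := by nlinarith
  have h21 : s₁ (F.Dl s₂) = 0 := by rw [← h₁.s_Dl_comm h₂, h12]
  have η₁ : s₁ F.η = -c := by
    have e1 := congrArg s₁ e
    rw [map_sub, map_sub, h₁.s_Dl, h21, map_smul, map_add, h₁.s_p, sub_self, sub_zero] at e1
    exact eq_neg_of_add_eq_zero_left ((smul_eq_zero_iff_right hn).1 e1.symm)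
  have η₂ : s₂ F.η = -c := by
    have e1 := congrArg s₂ e
    rw [map_sub, map_sub, h₂.s_Dl, h12, map_smul, map_add, h₂.s_p, sub_zero, sub_self] at e1
    exact eq_neg_of_add_eq_zero_left ((smul_eq_zero_iff_right hn).1 e1.symm)
  have eχ : F.chi = (-2 * h : ℚ) • (F.η + F.p c) + F.Dl s₁ + F.Dl s₂ := by rw [← e]; ring
  have key : ∀ (i : ℕ) {a : T}, F.bT.N a = 0 → F.I (F.x ^ i * a * F.chi) =
      (-2 * h : ℚ) • (F.I (F.x ^ i * a * F.η) + c * F.I (F.x ^ i * a)) +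
        s₁ F.x ^ i * s₁ a + s₂ F.x ^ i * s₂ a := by
    intro i a ha
    rw [← h₁.I_Dl i ha, ← h₂.I_Dl i ha, ← F.frobc_I_lin, ← map_add, ← map_add]
    congr 1
    conv_lhs => rw [eχ]
    ring
  have key' : ∀ a : T', F'.I (a * F'.chi) = (-2 * h : ℚ) • (F'.I (a * F'.η) + c' * F'.I a) := by
    intro a
    rw [e', F'.frobc_I_lin]
  have k1 := key 2 F.bT.N_one
  have k2 := key 0 F.N_η
  have k3 := key 1 F.N_η
  have k4 := key 0 (F.bT.N_pow_scal F.N_η 2)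
  have k1' := key' (F'.x ^ 2)
  have k2' := key' F'.η
  have k3' := key' (F'.x * F'.η)
  have k4' := key' (F'.η ^ 2)
  simp only [mul_one, one_mul, map_one, pow_zero, pow_one, Frob.frobc_Ix2, Frob.frobc_Iη2,
    F.I_η, F'.I_η, F.I_xη, F'.I_xη, mul_assoc F.x, mul_assoc F'.x,
    ← pow_two F.η, ← pow_two F'.η, ← pow_succ F.η, ← pow_succ F'.η, map_pow, η₁, η₂]
    at k1 k2 k3 k4 k1' k2' k3' k4'
  have Lom : F.bO.L (F.bO.om * c) = -(h : ℚ) • c := by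
    rw [mul_comm, F.bO.L_scal hc, F.bO.L_om]; algebra
  have Lom' : F'.bO.L (F'.bO.om * c') = -((h : ℚ) + 1) • c' := by
    rw [mul_comm, F'.bO.L_scal hc', F'.bO.L_om]; push_cast; algebra
  have hU : R ((-2 * h - 4 : ℚ) • F'.I (F'.x ^ 2 * F'.η) + (-4 * h : ℚ) • (F'.bO.om * c'))
      ((-2 * h - 4 : ℚ) • F.I (F.x ^ 2 * F.η) + (-4 * h : ℚ) • (F.bO.om * c)) ((8 : ℚ) • c) := by
    have g1 : Gm F.bO.L ((1 / 6 : ℚ) • F.I (F.x ^ 3)) ((1 / 2 : ℚ) • (s₁ F.x + s₂ F.x)) +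
        Gm F.bO.L ((1 / 2 : ℚ) • (s₁ F.x + s₂ F.x)) ((1 / 6 : ℚ) • F.I (F.x ^ 3)) +
        (2 : ℚ) • (((1 / 2 : ℚ) • (s₁ F.x + s₂ F.x)) * ((1 / 2 : ℚ) • (s₁ F.x + s₂ F.x))) =
        s₁ F.x ^ 2 + s₂ F.x ^ 2 + s₁ F.x * s₂ F.x - F.I (F.x ^ 2 * F.η) +
          (2 : ℚ) • (F.bO.om * c) := by
      rw [Gm_comm _ ((1 / 2 : ℚ) • (s₁ F.x + s₂ F.x)), Gm_smul_right, Gm_add_right,
        h₁.frobc_Gτ, h₂.frobc_Gτ, η₁, η₂]
      algebra
    refine DegRel.frobc_congr (H.frobc_sub (H.L (H.Gm hτ hτ))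
      (H.smul (1 / 2) (H.mul hδ hδ))) ?_ ?_ ?_
    · rw [F'.u_one, k1', k2']; push_cast; algebra
    · rw [g1, F.u_one, k1, k2]; algebra
    · rw [g1, map_add, map_sub, map_add, map_add, map_smul, h₁.frobc_Lsq, h₂.frobc_Lsq,
        h₁.frobc_Lmix h₂, F.u_L_B, k2, Lom, h12, η₁, η₂, eq_neg_of_add_eq_zero_left hχ]
      algebra
  have hcc : R c' c 0 := by
    have ht : (-2 * h * (-4 * h - 6) : ℚ) ≠ 0 := by nlinarith
    refine H.frobc_div ht (DegRel.frobc_congr (H.L hU) ?_ ?_ ?_)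
    · rw [map_add, map_smul, map_smul, F'.u_L_B, k2', Lom']; algebra
    · rw [map_add, map_smul, map_smul, F.u_L_B, k2, Lom]; algebra
    · rw [map_smul, F.bO.L_of_scal hc, smul_zero, smul_zero]
  have hB : R (F'.I (F'.x ^ 2 * F'.η)) (F.I (F.x ^ 2 * F.η)) ((-2 : ℚ) • c) := by
    have ht : (-2 * h - 4 : ℚ) ≠ 0 := by nlinarith
    refine H.frobc_div ht (DegRel.frobc_congr
      (H.frobc_sub hU (H.smul (-4 * h) (H.mul H.om hcc))) ?_ ?_ ?_) <;> algebra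
  have hc2 : F.bO.N ((-2 : ℚ) • c) = 0 := by rw [map_smul, hc, smul_zero]
  have hA : R (F'.I (F'.x * F'.η ^ 2)) (F.I (F.x * F.η ^ 2)) 0 := by
    have ht : (-4 * h - 6 : ℚ) ≠ 0 := by nlinarith
    have g1 : Gm F.bO.L ((1 / 6 : ℚ) • F.I (F.x ^ 3)) ((-2 : ℚ) • c) +
        Gm F.bO.L ((1 / 2 : ℚ) • (s₁ F.x + s₂ F.x)) (F.I (F.x ^ 2 * F.η)) +
        (2 : ℚ) • (((1 / 2 : ℚ) • (s₁ F.x + s₂ F.x)) * ((-2 : ℚ) • c)) =
        (-3 : ℚ) • (c * s₁ F.x + c * s₂ F.x) - (2 : ℚ) • F.I (F.x * F.η ^ 2) := by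
      rw [Gm_comm _ _ ((-2 : ℚ) • c), F.bO.Gm_scal hc2, Gm_smul_left, Gm_add_left,
        h₁.frobc_GB, h₂.frobc_GB, η₁, η₂]
      algebra
    refine H.frobc_div ht (DegRel.frobc_congr (H.L (H.Gm hτ hB)) ?_ ?_ ?_)
    · rw [F'.u_two, k3']; push_cast; algebra
    · rw [g1, F.u_two, k3]; algebra
    · rw [g1, map_sub, map_smul, map_smul, map_add, F.bO.L_scal hc, F.bO.L_scal hc,
        F.bO.deg1 _ h₁.N_sx, F.bO.deg1 _ h₂.N_sx,
        F.bO.deg1 _ (F.N_I_x (F.bT.N_pow_scal F.N_η 2))]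
      algebra
  have hC : R (F'.I (F'.η ^ 3)) (F.I (F.η ^ 3)) 0 := by
    have ht : (-8 * h - 8 : ℚ) ≠ 0 := by nlinarith
    have g1 : Gm F.bO.L (F.I (F.x ^ 2 * F.η)) ((-2 : ℚ) • c) +
        Gm F.bO.L ((-2 : ℚ) • c) (F.I (F.x ^ 2 * F.η)) +
        (2 : ℚ) • (((-2 : ℚ) • c) * ((-2 : ℚ) • c)) = (8 : ℚ) • (c * c) := by
      rw [Gm_comm _ _ ((-2 : ℚ) • c), F.bO.Gm_scal hc2]
      algebra
    refine H.frobc_div ht (DegRel.frobc_congr (H.L (H.Gm hB hB)) ?_ ?_ ?_)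
    · rw [F'.u_three, k4']; algebra
    · rw [g1, F.u_three, k4]; algebra
    · rw [g1, map_smul, F.bO.L_of_scal (F.bO.N_mul_scal hc hc), smul_zero, smul_zero]
  have hz : R 0 0 0 := by simpa only [zero_smul] using H.smul 0 H.one
  have main : ∀ r, R (F'.I (F'.x * F'.η ^ r)) (F.I (F.x * F.η ^ r)) 0 ∧
      R (F'.I (F'.η ^ r)) (F.I (F.η ^ r)) 0 ∧ R (F'.I (F'.η ^ (r + 1))) (F.I (F.η ^ (r + 1))) 0 := by
    intro r
    induction r with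
    | zero =>
      simp only [pow_zero, mul_one, zero_add, pow_one, F.I_x, F'.I_x, F.I_one, F'.I_one, F.I_η,
        F'.I_η]
      exact ⟨hz, hz, H.one⟩
    | succ r ih =>
      obtain ⟨a1, a2, a3⟩ := ih
      have z0 : ∀ a : O, Gm F.bO.L a 0 = 0 := fun a => by simp [Gm]
      have z1 : ∀ a : O, Gm F.bO.L 0 a = 0 := fun a => by simp [Gm]
      refine ⟨?_, a3, ?_⟩
      · refine DegRel.frobc_congr (H.add (H.smul (1 / 2) (H.Gm hB a1)) (H.mul hA a2)) ?_ ?_ ?_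
        · rw [F'.u_recA]; algebra
        · rw [F.u_recA]; algebra
        · rw [z0, F.bO.Gm_scal hc2]; algebra
      · refine DegRel.frobc_congr (H.add (H.Gm hA a1) (H.mul hC a2)) ?_ ?_ ?_
        · rw [F'.u_recC]; ring
        · rw [F.u_recC]; ring
        · rw [z0, z1]; algebra
  exact ⟨hcc, fun r => (main r).2.1⟩

theorem Frob.frobc_tau_sh (F : Frob g O T) (y : O) :
    (1 / 6 : ℚ) • F.I ((F.x - F.p y) ^ 3) = (1 / 6 : ℚ) • F.I (F.x ^ 3) - y * F.bO.om := by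
  have e : (F.x - F.p y) ^ 3 = F.x ^ 3 - (3 : ℚ) • (F.p y * F.x ^ 2) +
      (3 : ℚ) • (F.p (y ^ 2) * F.x) - F.p (y ^ 3) := by
    simp only [map_pow]; algebra
  rw [e, map_sub, map_add, map_sub, map_smul, map_smul, F.I_p, F.I_p, F.I_p_one, F.I_x,
    F.frobc_Ix2]
  algebra

theorem frobc_pow_orth {A : Type} [CommRing A] {a b c : A} (h1 : a * b = 0) (h2 : a * c = 0)
    (h3 : b * c = 0) (m : ℕ) : (a + b + c) ^ (m + 1) = a ^ (m + 1) + b ^ (m + 1) + c ^ (m + 1) := by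
  induction m with
  | zero => simp
  | succ m ih =>
    rw [pow_succ, ih]
    linear_combination (a ^ m + b ^ m) * h1 + (a ^ m + c ^ m) * h2 + (b ^ m + c ^ m) * h3

theorem Frob.IsSec.frobc_I_pow {F : Frob g O T} {s : T →ₐ[ℚ] O} (hs : F.IsSec s) (m : ℕ) :
    F.I (F.Dl s ^ (m + 1)) = s F.chi ^ m := by
  rw [pow_succ', hs.I_Dl_mul (F.bT.N_pow_scal hs.N_Dl m), map_pow, hs.s_Dl]

theorem DegRel.frobc_binom {F' : Frob (h + 1) O' T'} {F : Frob h O T} {R : O' → O → O → Prop}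
    (H : DegRel F'.bO F.bO R) {c' : O'} {c : O} (hc : R c' c 0) {e' : T'} {e : T}
    (he : ∀ r, R (F'.I (e' ^ r)) (F.I (e ^ r)) 0) (k : ℕ) :
    ∀ r, R (F'.I ((e' + F'.p c') ^ k * e' ^ r)) (F.I ((e + F.p c) ^ k * e ^ r)) 0 := by
  induction k with
  | zero => simpa only [pow_zero, one_mul] using he
  | succ k ih =>
    intro r
    refine DegRel.frobc_congr (H.add (ih (r + 1)) (H.mul hc (ih r))) ?_ ?_ (by ring)
    · rw [← F'.I_p, ← map_add]; congr 1; ring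
    · rw [← F.I_p, ← map_add]; congr 1; ring

/-- The kappa classes on the tube. Shift `F'` by `I (x chi) / n` and `F` by `I (x ν) / n` with
`ν = chi - Dl s₁ - Dl s₂` (`shη_eq`); the shifted `τ'` is the primitive part, and `y` is the shift
because of `hy` and `u_L_tau`. Then `tube_norm`, the binomial theorem, and `ν * Dl s_i = 0`. -/
theorem tube_alg (hh : 1 ≤ h) (F' : Frob (h + 1) O' T') (F : Frob h O T) {s₁ s₂ : T →ₐ[ℚ] O}
    (h₁ : F.IsSec s₁) (h₂ : F.IsSec s₂) {R : O' → O → O → Prop} (H : DegRel F'.bO F.bO R)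
    (h12 : s₂ (F.Dl s₁) = 0) (hχ : s₁ F.chi + s₂ F.chi = 0) (hδ : R 0 (s₂ F.x - s₁ F.x) 0)
    {y : O} (hN : F.bO.N y = y)
    (hy : F.bO.L ((1 / 6 : ℚ) • F.I (F.x ^ 3) - y * F.bO.om) =
      (1 / 2 : ℚ) • (s₁ F.x + s₂ F.x) - y)
    (hτ : R ((1 / 6 : ℚ) • F'.I (F'.x ^ 3) + (1 / h : ℚ) •
        (F'.bO.om * F'.bO.L ((1 / 6 : ℚ) • F'.I (F'.x ^ 3))))
      ((1 / 6 : ℚ) • F.I (F.x ^ 3) - y * F.bO.om) ((1 / 2 : ℚ) • (s₁ F.x + s₂ F.x) - y))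
    (m : ℕ) (hm : 1 ≤ m) : R (F'.kb m) (F.kb m - s₁ F.chi ^ m - s₂ F.chi ^ m) 0 := by
  have _ := hm
  have hq : (1 : ℚ) ≤ h := by exact_mod_cast hh
  have hn : (-2 * h : ℚ) ≠ 0 := by nlinarith
  have hh0 : (h : ℚ) ≠ 0 := by nlinarith
  have h21 : s₁ (F.Dl s₂) = 0 := by rw [← h₁.s_Dl_comm h₂, h12]
  obtain ⟨ν, hν⟩ : ∃ ν, ν = F.chi - F.Dl s₁ - F.Dl s₂ := ⟨_, rfl⟩
  have Nν : F.bT.N ν = 0 := by
    rw [hν, map_sub, map_sub, F.N_chi, h₁.N_Dl, h₂.N_Dl, sub_zero, sub_zero]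
  have k0 := F.kb_zero
  have k0' := F'.kb_zero
  rw [Frob.kb, zero_add, pow_one] at k0 k0'
  have Iν : F.I ν = (-2 * h : ℚ) • (1 : O) := by
    rw [hν, map_sub, map_sub, k0, h₁.I_Dl_one, h₂.I_Dl_one]; algebra
  have Iχ : F'.I F'.chi = (-2 * h : ℚ) • (1 : O') := by
    rw [k0']; push_cast; algebra
  have hy0 : y = (-2 * h : ℚ)⁻¹ • F.I (F.x * ν) := by
    have a1 := h₁.frobc_sx
    have a2 := h₂.frobc_sx
    rw [zero_add, pow_one] at a1 a2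
    rw [map_sub, F.u_L_tau, mul_comm y, F.bO.L_mul_om hN] at hy
    have a3 : F.I (F.x * ν) = (-2 * h : ℚ) • y := by
      rw [hν, mul_sub, mul_sub, map_sub, map_sub, a1, a2]
      linear_combination (norm := module) (2 : ℚ) • hy
    rw [a3, smul_smul, inv_mul_cancel₀ hn, one_smul]
  obtain ⟨y', hy'⟩ : ∃ y', y' = (-2 * h : ℚ)⁻¹ • F'.I (F'.x * F'.chi) := ⟨_, rfl⟩
  have hN' : F'.bO.N y' = y' := by rw [hy', map_smul, F'.N_I_x F'.N_chi]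
  have s0 := F.shη_eq hn Nν Iν
  have s0' := F'.shη_eq hn F'.N_chi Iχ
  rw [← hy0] at s0
  rw [← hy'] at s0'
  obtain ⟨c, hc⟩ : ∃ c, c = (2 * (-2 * h : ℚ) ^ 2)⁻¹ • F.I (ν * ν) := ⟨_, rfl⟩
  obtain ⟨c', hc'⟩ : ∃ c', c' = (2 * (-2 * h : ℚ) ^ 2)⁻¹ • F'.I (F'.chi * F'.chi) := ⟨_, rfl⟩
  rw [← hc] at s0
  rw [← hc'] at s0'
  have Nc : F.bO.N c = 0 := by
    rw [hc, map_smul, F.N_I_scal (F.bT.N_mul_scal Nν Nν), smul_zero]
  have Nc' : F'.bO.N c' = 0 := by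
    rw [hc', map_smul, F'.N_I_scal (F'.bT.N_mul_scal F'.N_chi F'.N_chi), smul_zero]
  have e : ν = (-2 * h : ℚ) • (F.shη y + F.p c) := by
    rw [s0, sub_add_cancel, smul_smul, mul_inv_cancel₀ hn, one_smul]
  have e' : F'.chi = (-2 * h : ℚ) • (F'.shη y' + F'.p c') := by
    rw [s0', sub_add_cancel, smul_smul, mul_inv_cancel₀ hn, one_smul]
  have tn := tube_norm hh (F'.shift y' hN') (F.shift y hN) (h₁.shift y hN) (h₂.shift y hN)
    (R := R) H (c' := c') (c := c) Nc' Nc (by rw [F'.chi_shift]; exact e')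
    (by rw [F.chi_shift, F.Dl_shift y hN h₁, F.Dl_shift y hN h₂, ← hν]; exact e)
    (by rw [F.Dl_shift y hN h₁]; exact h12) (by rw [F.chi_shift]; exact hχ)
    (DegRel.frobc_congr hδ rfl (by
      change _ = s₂ (F.x - F.p y) - s₁ (F.x - F.p y)
      rw [map_sub, map_sub, h₁.s_p, h₂.s_p]; ring) rfl)
    (DegRel.frobc_congr hτ (by
      change _ = (1 / 6 : ℚ) • F'.I ((F'.x - F'.p y') ^ 3)
      rw [F'.frobc_tau_sh, F'.u_L_tau, hy', mul_smul_comm, smul_smul, smul_mul_assoc,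
        mul_comm F'.bO.om, sub_eq_add_neg, ← neg_smul]
      congr 2
      field_simp) (F.frobc_tau_sh y).symm (by
      change _ = (1 / 2 : ℚ) • (s₁ (F.x - F.p y) + s₂ (F.x - F.p y))
      rw [map_sub, map_sub, h₁.s_p, h₂.s_p]; module))
  have hb := H.smul ((-2 * h : ℚ) ^ (m + 1))
    (H.frobc_binom tn.1 (e' := F'.shη y') (e := F.shη y) tn.2 (m + 1) 0)
  have o1 : ν * F.Dl s₁ = 0 := by
    rw [mul_comm, h₁.Dl_mul Nν, hν, map_sub s₁, map_sub s₁, h₁.s_Dl, h21, sub_self, sub_zero,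
      map_zero, mul_zero]
  have o2 : ν * F.Dl s₂ = 0 := by
    rw [mul_comm, h₂.Dl_mul Nν, hν, map_sub s₂, map_sub s₂, h₂.s_Dl, h12, sub_zero, sub_self,
      map_zero, mul_zero]
  have o3 : F.Dl s₁ * F.Dl s₂ = 0 := by
    rw [h₁.Dl_mul h₂.N_Dl, h21, map_zero, mul_zero]
  refine DegRel.frobc_congr hb ?_ ?_ (smul_zero _)
  · rw [pow_zero, mul_one, ← map_smul, ← smul_pow, ← e', Frob.kb]
  · have eχ : F.chi = ν + F.Dl s₁ + F.Dl s₂ := by rw [hν]; ring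
    have e3 : F.kb m = F.I (ν ^ (m + 1)) + s₁ F.chi ^ m + s₂ F.chi ^ m := by
      rw [← h₁.frobc_I_pow, ← h₂.frobc_I_pow, ← map_add, ← map_add,
        ← frobc_pow_orth o1 o2 o3, ← eχ, Frob.kb]
    rw [pow_zero, mul_one, ← map_smul, ← smul_pow, ← e, e3]
    ring

end Pool.Agent.FP
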