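import Pool.Agent.FP.FZDefs

/-! Abstract algebra of a surface bundle: BV operators and the Leray and Hirsch structure. -/

namespace Pool.Agent.FP

section
variable {R R' O T O' T' : Type} [CommRing R] [Algebra ℚ R] [CommRing R'] [Algebra ℚ R']
  [CommRing O] [Algebra ℚ O] [CommRing T] [Algebra ℚ T]
  [CommRing O'] [Algebra ℚ O'] [CommRing T'] [Algebra ℚ T']

/-- The bracket of a second order operator. -/
def Gm (L : R →ₗ[ℚ] R) (a b : R) : R := L (a * b) - L a * b - a * L b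

/-- Contraction `L`, exterior degree `N`, projection `P` to exterior degree zero and the
symplectic element `om`, for a symplectic space of dimension `2 g`. -/
structure BV (g : ℕ) (R : Type) [CommRing R] [Algebra ℚ R] where
  L : R →ₗ[ℚ] R
  N : R →ₗ[ℚ] R
  P : R →ₐ[ℚ] R
  om : R
  N_mul : ∀ a b, N (a * b) = N a * b + a * N b
  L_N : ∀ a, L (N a) = N (L a) + (2 : ℚ) • L a
  G_mul : ∀ a b c, Gm L (a * b) c = a * Gm L b c + b * Gm L a c
  P_N : ∀ a, P (N a) = 0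
  N_P : ∀ a, N (P a) = 0
  scal : ∀ a, N a = 0 → P a = a
  L_P : ∀ a b, L (P a * b) = P a * L b
  deg1 : ∀ a, N a = a → L a = 0
  N_om : N om = (2 : ℚ) • om
  L_om : L om = -(g : ℚ) • (1 : R)
  G_om : ∀ a, Gm L om a = N a
  om_pow : om ^ (g + 1) = 0
  ber : ∀ a b, P ((L ^ g) (Gm L a b)) = -(2 : ℚ) • P ((L ^ g) (L a * b))

/-- Morphisms of BV algebras. -/
structure BV.Hom {g : ℕ} (b : BV g R) (b' : BV g R') (f : R →ₐ[ℚ] R') : Prop where
  map_L : ∀ a, f (b.L a) = b'.L (f a)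
  map_N : ∀ a, f (b.N a) = b'.N (f a)
  map_P : ∀ a, f (b.P a) = b'.P (f a)
  map_om : f b.om = b'.om

/-- A surface bundle before the normalisation of the fibre class. -/
structure PreFrob (g : ℕ) (O T : Type) [CommRing O] [Algebra ℚ O] [CommRing T] [Algebra ℚ T] where
  bO : BV g O
  bT : BV g T
  p : O →ₐ[ℚ] T
  I : T →ₗ[ℚ] O
  x : T
  η : T
  p_hom : bO.Hom bT p
  I_p : ∀ y f, I (p y * f) = y * I f
  I_L : ∀ f, I (bT.L f) = bO.L (I f)
  I_N : ∀ f, I (bT.N f) = bO.N (I f)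
  N_x : bT.N x = x
  N_η : bT.N η = 0
  I_one : I 1 = 0
  I_x : I x = 0
  I_η : I η = 1
  I_xx : I (x * x) = (2 : ℚ) • bO.om
  dec' : ∀ (i : ℕ) (a : T), bT.N a = 0 → ∃ f0 f2 : O, ((i : ℚ) + 1) • (x ^ i * a) =
    p f0 + Gm bT.L (p (I (x ^ (i + 1) * a))) x + p f2 * (η - Gm bT.L (p (I (x * η))) x)

/-- A surface bundle with an admissible basis. -/
structure Frob (g : ℕ) (O T : Type) [CommRing O] [Algebra ℚ O] [CommRing T] [Algebra ℚ T]
    extends PreFrob g O T where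
  I_xη : I (x * η) = 0
  I_ηη : I (η * η) = 0

namespace Frob
variable {g : ℕ}

/-- The Euler class of the vertical tangent bundle. -/
def chi (F : Frob g O T) : T := Gm F.bT.L F.x F.x + (2 : ℚ) • F.η

/-- The classes `∫ χ ^ (m + 1)`. -/
def kb (F : Frob g O T) (m : ℕ) : O := F.I (F.chi ^ (m + 1))

/-- Sections. -/
structure IsSec (F : Frob g O T) (s : T →ₐ[ℚ] O) : Prop where
  hom : F.bT.Hom F.bO s
  s_p : ∀ y, s (F.p y) = y

/-- The class of a section. -/
def Dl (F : Frob g O T) (s : T →ₐ[ℚ] O) : T :=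
  F.η + Gm F.bT.L (F.p (s F.x)) F.x + F.p (s F.η)

/-- Base change; the class `x` is respected up to a class `y` from the base. -/
structure Hom (F : Frob g O T) (F' : Frob g O' T') (fO : O →ₐ[ℚ] O') (fT : T →ₐ[ℚ] T')
    (y : O') : Prop where
  homO : F.bO.Hom F'.bO fO
  homT : F.bT.Hom F'.bT fT
  map_p : ∀ a, fT (F.p a) = F'.p (fO a)
  map_I : ∀ f, fO (F.I f) = F'.I (fT f)
  N_y : F'.bO.N y = y
  map_x : fT F.x = F'.x + F'.p y

end Frob

/-- Monomials of weight `k` in weighted generators of a commutative ring. -/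
inductive MonR (S : ℕ → R → Prop) : ℕ → R → Prop
  | one : MonR S 0 1
  | mul {m k : ℕ} {s f : R} : S m s → MonR S k f → MonR S (m + k) (s * f)

/-- The weight `k` part of the subring generated by `S`. -/
def RkR (S : ℕ → R → Prop) (k : ℕ) : Submodule ℚ R := Submodule.span ℚ {f | MonR S k f}

/-- One-dimensional socle in weight `n` and non-degenerate pairings. -/
def GorR (S : ℕ → R → Prop) (n : ℕ) : Prop :=
  (∃ s ∈ RkR S n, s ≠ 0 ∧ ∀ f ∈ RkR S n, ∃ c : ℚ, f = c • s) ∧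
  ∀ k, k ≤ n → ∀ f ∈ RkR S k, (∀ h ∈ RkR S (n - k), f * h = 0) → f = 0

end

/-- Output of the Berezin integration layer. -/
def FZStmt : Prop :=
  ∀ (g : ℕ) (O T : Type) [CommRing O] [Algebra ℚ O] [CommRing T] [Algebra ℚ T] (F : Frob g O T),
    FZ g F.kb

/-- Generators of the ring of `M_g`. -/
def gensR0 {O : Type} (κ : ℕ → O) (k : ℕ) (f : O) : Prop := 1 ≤ k ∧ f = κ k

/-- Generators of the ring of the fibre square. -/
def gensR2 {T : Type} (e1 e2 D : T) (κ : ℕ → T) (k : ℕ) (f : T) : Prop :=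
  (k = 1 ∧ (f = e1 ∨ f = e2 ∨ f = D)) ∨ (1 ≤ k ∧ f = κ k)

/-- Output of the numerical layer: the final contradiction in pure commutative algebra. -/
def FinalStmt : Prop :=
  ∀ (O T O' : Type) [CommRing O] [Algebra ℚ O] [CommRing T] [Algebra ℚ T] [CommRing O']
    [Algebra ℚ O'] (κ' : ℕ → O') (κ : ℕ → O) (χ : O) (p : O →ₐ[ℚ] T) (I : T →ₗ[ℚ] O)
    (e D : T) (σ : T →ₐ[ℚ] T),
    FZ 25 κ' → FZ 24 κ → κ 0 = (-46 : ℚ) • (1 : O) →
    (∀ y f, I (p y * f) = y * I f) → I 1 = 0 → (∀ m, I (e ^ (m + 1)) = κ m) → I D = 1 →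
    D * e = D * p χ → D * D = D * p χ →
    σ (p χ) = e → σ e = p χ → σ D = D → (∀ m, σ (p (κ m)) = p (κ m)) →
    GorR (gensR0 κ') 23 → GorR (gensR2 (p χ) e D fun m => p (κ m)) 24 →
    (∀ X : MvPolynomial ℕ ℚ, MvPolynomial.aeval (fun m => κ' (m + 1)) X = 0 →
      ∀ w ∈ RkR (gensR2 (p χ) e D fun m => p (κ m)) 12, w * D = 0 → w * (p χ + e) = 0 →
      w * MvPolynomial.aeval (fun m => p (κ (m + 1)) - p χ ^ (m + 1) - e ^ (m + 1)) X = 0) →
    False

end Pool.Agent.FP
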