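import Pool.Agent.FP.Defs

/-! The centre of the surface group is trivial (Fox calculus and the trace argument). -/

set_option linter.unusedSectionVars false

namespace Pool.Agent.FP.C
open MonoidAlgebra

variable {G : Type} [Group G] {α : Type} [DecidableEq α]

/-- The Fox derivatives. -/
structure Fox (p : FreeGroup α →* G) where
  D : FreeGroup α → α → MonoidAlgebra ℚ G
  gen : ∀ x, D (FreeGroup.of x) = Pi.single x 1
  mul : ∀ u w, D (u * w) = D u + of ℚ G (p u) • D w

/-- The affine permutation attached to a vector and a group element. -/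
noncomputable def aff (v : α → MonoidAlgebra ℚ G) (g : G) : Equiv.Perm (α → MonoidAlgebra ℚ G) where
  toFun w := v + of ℚ G g • w
  invFun w := of ℚ G g⁻¹ • (w - v)
  left_inv w := by simp [smul_smul, single_mul_single, ← one_def]
  right_inv w := by simp [smul_smul, single_mul_single, ← one_def]

theorem exists_fox (p : FreeGroup α →* G) : Nonempty (Fox p) := by
  let s : FreeGroup α →* Equiv.Perm (α → MonoidAlgebra ℚ G) :=
    FreeGroup.lift fun x => aff (Pi.single x 1) (p (FreeGroup.of x))
  have hs : ∀ u w, s u w = s u 0 + of ℚ G (p u) • w := fun u => by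
    induction u using FreeGroup.induction_on with
    | C1 => simp [← one_def]
    | of x => simp [s, aff]
    | inv_of x _ =>
      intro w
      simp only [s, map_inv, FreeGroup.lift_apply_of]
      change of ℚ G _ • (w - _) = of ℚ G _ • (0 - _) + _
      rw [← smul_add]; congr 1; abel
    | mul u v a b =>
      intro w
      simp only [map_mul, Equiv.Perm.mul_apply]
      rw [a (s v w), a (s v 0), b w, smul_add, smul_smul, add_assoc]
  exact ⟨fun u => s u 0, fun x => by simp [s, aff], fun u w => by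
    simp only [map_mul, Equiv.Perm.mul_apply]; exact hs u _⟩

namespace Fox
variable {p : FreeGroup α →* G} (F : Fox p)

lemma one : F.D 1 = 0 := by
  have := F.mul 1 1
  rw [mul_one, map_one, map_one, one_smul] at this
  exact left_eq_add.1 this

lemma inv (u) : F.D u⁻¹ = -(of ℚ G (p u⁻¹) • F.D u) := by
  have := F.mul u⁻¹ u
  rw [inv_mul_cancel, F.one] at this
  exact eq_neg_of_add_eq_zero_left this.symm

lemma conj (w n) (hn : p n = 1) : F.D (w * n * w⁻¹) = of ℚ G (p w) • F.D n := by
  rw [F.mul, F.mul, F.inv, map_mul, hn, mul_one, smul_neg, smul_smul, ← map_mul, ← map_mul,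
    mul_inv_cancel, map_one, map_one, one_smul]
  abel

variable {r : FreeGroup α} (hk : p.ker = Subgroup.normalClosure {r})
include hk

lemma ind {P : FreeGroup α → Prop} (h1 : P 1) (h2 : ∀ w, P (w * r * w⁻¹))
    (h3 : ∀ n m, p n = 1 → p m = 1 → P n → P m → P (n * m)) (h4 : ∀ n, p n = 1 → P n → P n⁻¹)
    (n) (hn : p n = 1) : P n := by
  have hn' : n ∈ Subgroup.normalClosure {r} := hk ▸ hn
  have mem : ∀ m, m ∈ Subgroup.closure (Group.conjugatesOfSet {r}) → p m = 1 := fun m hm =>
    (show m ∈ p.ker from hk ▸ hm)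
  induction hn' using Subgroup.closure_induction with
  | mem x hx =>
    obtain ⟨_, rfl, hc⟩ := Group.mem_conjugatesOfSet_iff.1 hx
    obtain ⟨w, rfl⟩ := isConj_iff.1 hc
    exact h2 w
  | one => exact h1
  | mul x y hx hy a b => exact h3 _ _ (mem _ hx) (mem _ hy) (a (mem _ hx)) (b (mem _ hy))
  | inv x hx a => exact h4 _ (mem _ hx) (a (mem _ hx))

lemma p_r : p r = 1 := (show r ∈ p.ker from hk ▸ Subgroup.subset_normalClosure rfl)

lemma exists_lam (n) (hn : p n = 1) : ∃ s : MonoidAlgebra ℚ G, F.D n = s • F.D r := by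
  refine ind hk (P := fun n => ∃ s : MonoidAlgebra ℚ G, F.D n = s • F.D r) ⟨0, by simp [F.one]⟩
    (fun w => ⟨_, F.conj w r (p_r hk)⟩) ?_ ?_ n hn
  · rintro n m hn - ⟨s, hs⟩ ⟨t, ht⟩
    exact ⟨s + t, by rw [F.mul, hn, map_one, one_smul, hs, ht, add_smul]⟩
  · rintro n hn ⟨s, hs⟩
    exact ⟨-s, by rw [F.inv, map_inv, hn, inv_one, map_one, one_smul, hs, neg_smul]⟩

end Fox

/-- The identification of the relation module with the group ring. -/
structure Lam (p : FreeGroup α →* G) (r : FreeGroup α) where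
  l : FreeGroup α → MonoidAlgebra ℚ G
  rel : l r = 1
  mul : ∀ n m, p n = 1 → p m = 1 → l (n * m) = l n + l m
  conj : ∀ w n, p n = 1 → l (w * n * w⁻¹) = of ℚ G (p w) * l n

theorem exists_Lam {p : FreeGroup α →* G} (F : Fox p) {r : FreeGroup α}
    (hk : p.ker = Subgroup.normalClosure {r})
    (hinj : ∀ s : MonoidAlgebra ℚ G, s • F.D r = 0 → s = 0) :
    ∃ L : Lam p r, ∀ n, p n = 1 → F.D n = L.l n • F.D r := by
  classical
  have : ∀ n, ∃ s : MonoidAlgebra ℚ G, p n = 1 → F.D n = s • F.D r := fun n => by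
    by_cases hn : p n = 1
    · obtain ⟨s, hs⟩ := F.exists_lam hk n hn
      exact ⟨s, fun _ => hs⟩
    · exact ⟨0, fun h => absurd h hn⟩
  choose l hl using this
  have u : ∀ s t : MonoidAlgebra ℚ G, s • F.D r = t • F.D r → s = t := fun s t e =>
    sub_eq_zero.1 (hinj _ (by rw [sub_smul, e, sub_self]))
  refine ⟨⟨l, u _ _ (by rw [← hl r (Fox.p_r hk), one_smul]), fun n m hn hm => u _ _ ?_,
    fun w n hn => u _ _ ?_⟩, hl⟩
  · rw [← hl _ (by simp [hn, hm]), F.mul, hn, map_one, one_smul, add_smul, ← hl n hn, ← hl m hm]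
  · rw [← hl _ (by simp [hn]), F.conj w n hn, mul_smul, ← hl n hn]

lemma eq_zero_of_mul_one_sub {y : G} (hy : ∀ n : ℕ, y ^ n = 1 → n = 0) (s : MonoidAlgebra ℚ G)
    (h : s * (1 - of ℚ G y) = 0) : s = 0 := by
  by_contra hs
  have h1 : ∀ x, s.coeff (x * y) = s.coeff x := fun x => by
    rw [mul_sub, mul_one, sub_eq_zero] at h
    conv_lhs => rw [h]
    simp
  obtain ⟨x, hx⟩ : ∃ x, s.coeff x ≠ 0 := by
    by_contra hc
    push Not at hc
    exact hs (MonoidAlgebra.ext (Finsupp.ext hc))
  have h2 : ∀ n : ℕ, s.coeff (x * y ^ n) = s.coeff x := fun n => by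
    induction n with
    | zero => simp
    | succ n ih => rw [pow_succ, ← mul_assoc, h1, ih]
  have hinj : Function.Injective fun n : ℕ => x * y ^ n := fun a b e => by
    have e' : y ^ a = y ^ b := mul_left_cancel e
    rcases le_total a b with c | c
    · obtain ⟨d, rfl⟩ := Nat.exists_eq_add_of_le c
      rw [pow_add, left_eq_mul] at e'
      simp [hy d e']
    · obtain ⟨d, rfl⟩ := Nat.exists_eq_add_of_le c
      rw [pow_add, mul_eq_left] at e'
      simp [hy d e']
  exact Set.infinite_of_injective_forall_mem hinj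
    (fun n => by simp [h2, hx] : ∀ n, x * y ^ n ∈ (s.coeff.support : Set G)) (Finset.finite_toSet _)

lemma Fox.fund [Fintype α] {p : FreeGroup α →* G} (F : Fox p) (w) :
    ∑ x, F.D w x * (of ℚ G (p (FreeGroup.of x)) - 1) = of ℚ G (p w) - 1 := by
  induction w using FreeGroup.induction_on with
  | C1 => simp [F.one, ← one_def]
  | of x =>
    rw [F.gen, Finset.sum_eq_single x (fun y _ h => by simp [Pi.single_eq_of_ne h]) (by simp)]
    simp
  | inv_of x ih =>
    simp only [F.inv, Pi.neg_apply, Pi.smul_apply, smul_eq_mul, neg_mul, mul_assoc,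
      Finset.sum_neg_distrib, ← Finset.mul_sum, ih]
    rw [mul_sub, ← map_mul, ← map_mul, inv_mul_cancel, map_one, map_one, mul_one, neg_sub]
  | mul u v a b =>
    simp only [F.mul, Pi.add_apply, Pi.smul_apply, smul_eq_mul, add_mul, mul_assoc,
      Finset.sum_add_distrib, ← Finset.mul_sum, a, b, map_mul]
    noncomm_ring

lemma coeff_one_comm (s t : MonoidAlgebra ℚ G) : (s * t).coeff 1 = (t * s).coeff 1 := by
  induction s using MonoidAlgebra.induction_linear with
  | zero => simp
  | add s s' a b => simp [add_mul, mul_add, a, b]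
  | single g c => simp [mul_comm]

/-- The trace argument of Gottlieb and Stallings. -/
theorem central_eq_one [Fintype α] {p : FreeGroup α →* G} (hp : Function.Surjective p) (F : Fox p)
    {r : FreeGroup α} (hk : p.ker = Subgroup.normalClosure {r})
    (hinj : ∀ s : MonoidAlgebra ℚ G, s • F.D r = 0 → s = 0) (hα : Fintype.card α ≠ 2)
    (z : G) (hz : ∀ x, z * x = x * z) : z = 1 := by
  classical
  obtain ⟨L, hL⟩ := exists_Lam F hk hinj
  obtain ⟨w, rfl⟩ := hp z
  set Z := of ℚ G (p w) with hZ
  have hc : ∀ s : MonoidAlgebra ℚ G, s * Z = Z * s := fun s => by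
    induction s using MonoidAlgebra.induction_linear with
    | zero => simp
    | add s s' a b => simp only [add_mul, mul_add, a, b]
    | single g c => simp [hZ, single_mul_single, hz]
  let s : α → MonoidAlgebra ℚ G := fun x => L.l (w * FreeGroup.of x * w⁻¹ * (FreeGroup.of x)⁻¹)
  have hs : ∀ x, s x • F.D r =
      (Z - 1) • Pi.single x 1 - (of ℚ G (p (FreeGroup.of x)) - 1) • F.D w := fun x => by
    have h1 : p (w * FreeGroup.of x * w⁻¹ * (FreeGroup.of x)⁻¹) = 1 := by simp [hz]
    have h2 := F.mul (w * FreeGroup.of x * w⁻¹ * (FreeGroup.of x)⁻¹) (FreeGroup.of x * w)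
    rw [h1, map_one, one_smul, hL _ h1, show w * FreeGroup.of x * w⁻¹ * (FreeGroup.of x)⁻¹ *
      (FreeGroup.of x * w) = w * FreeGroup.of x by group, F.mul, F.mul, F.gen] at h2
    rw [sub_smul, sub_smul, one_smul, one_smul]
    rw [eq_sub_of_add_eq h2.symm]
    abel
  have h1 : ∑ x, F.D r x * s x = Z - 1 := by
    rw [← sub_eq_zero]
    apply hinj
    rw [sub_smul, Finset.sum_smul]
    simp only [mul_smul, hs]
    simp only [smul_sub, smul_smul, Finset.sum_sub_distrib, ← Finset.sum_smul,
      F.fund, Fox.p_r hk, map_one, sub_self, zero_smul, sub_zero]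
    funext y
    simp only [Pi.sub_apply, Finset.sum_apply, Pi.smul_apply, smul_eq_mul, Pi.zero_apply]
    rw [Finset.sum_eq_single y (fun x _ h => by simp [Pi.single_eq_of_ne h.symm]) (by simp)]
    simp [mul_sub, sub_mul, hc]
  have h2 : ∀ x, (s x * F.D r x).coeff 1 =
      (Z - 1).coeff 1 - (F.D w x * (of ℚ G (p (FreeGroup.of x)) - 1)).coeff 1 := fun x => by
    have := congrFun (hs x) x
    simp only [Pi.smul_apply, smul_eq_mul, Pi.sub_apply, Pi.single_eq_same, mul_one] at this
    rw [this, coeff_one_comm (F.D w x)]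
    rfl
  have h3 : ∀ f : α → MonoidAlgebra ℚ G, (∑ x, f x).coeff 1 = ∑ x, (f x).coeff 1 := fun f => by
    simp
  have h4 := congrArg (fun t => t.coeff 1) h1
  have h6 := congrArg (fun t => t.coeff 1) (F.fund w)
  simp only [h3] at h6
  simp only [h3, coeff_one_comm (F.D r _), h2, Finset.sum_sub_distrib] at h4
  rw [h6, ← hZ, Finset.sum_const, Finset.card_univ, nsmul_eq_mul] at h4
  have h5 : (Z - 1).coeff 1 = 0 := by
    have : ((Fintype.card α : ℚ) - 2) * (Z - 1).coeff 1 = 0 := by linear_combination h4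
    exact (mul_eq_zero.1 this).resolve_left (sub_ne_zero.2 (by exact_mod_cast hα))
  by_contra hne
  simp [hZ, one_def, Finsupp.single_apply, hne] at h5

/-- The product of commutators in the letters `ι (i, false)`, `ι (i, true)`. -/
def bdI {g : ℕ} {A : Type} (ι : Fin g × Bool → A) : FreeGroup A := FreeGroup.map ι (bdw g)

section surf
variable {g : ℕ} {A : Type} (ι : Fin g × Bool → A)

lemma bdI_eq : bdI ι = (List.ofFn fun i : Fin g => FreeGroup.of (ι (i, false)) *
    FreeGroup.of (ι (i, true)) * (FreeGroup.of (ι (i, false)))⁻¹ *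
    (FreeGroup.of (ι (i, true)))⁻¹).prod := by
  simp [bdI, bdw, map_list_prod, List.map_ofFn, Function.comp_def]

lemma map_bdI {H : Type} [CommGroup H] (f : FreeGroup A →* H) : f (bdI ι) = 1 := by
  simp [bdI_eq, map_list_prod, List.map_ofFn, Function.comp_def]

end surf

lemma fox_inj {g : ℕ} {A G : Type} [DecidableEq A] [Group G] {ι : Fin g × Bool → A} (hg : 1 ≤ g)
    (hι : Function.Injective ι) {p : FreeGroup A →* G}
    (hk : p.ker = Subgroup.normalClosure {bdI ι}) (F : Fox p) (s : MonoidAlgebra ℚ G)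
    (h : s • F.D (bdI ι) = 0) : s = 0 := by
  obtain ⟨g, rfl⟩ : ∃ k, g = k + 1 := ⟨g - 1, by omega⟩
  set a := ι (0, false)
  set b := ι (0, true)
  have hab : a ≠ b := fun e => by simpa using hι e
  have hz : ∀ L : List (FreeGroup A), (∀ w ∈ L, F.D w a = 0) → F.D L.prod a = 0 := fun L hL => by
    induction L with
    | nil => simp [F.one]
    | cons w L ih =>
      simp [F.mul, hL w (by simp), ih fun v hv => hL v (by simp [hv])]
  have hD : F.D (bdI ι) a =
      1 - of ℚ G (p (FreeGroup.of a * FreeGroup.of b * (FreeGroup.of a)⁻¹)) := by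
    rw [bdI_eq, List.ofFn_succ, List.prod_cons, F.mul, Pi.add_apply, Pi.smul_apply, hz]
    · simp [F.mul, F.inv, F.gen, a, b, Pi.single_eq_of_ne hab, single_mul_single, sub_eq_add_neg]
    · intro w hw
      obtain ⟨i, rfl⟩ := (List.mem_ofFn' _ _).1 hw
      have : ∀ c, a ≠ ι (i.succ, c) := fun c e =>
        Fin.succ_ne_zero i (congrArg Prod.fst (hι e)).symm
      simp [F.mul, F.inv, F.gen, Pi.single_eq_of_ne (this _)]
  refine eq_zero_of_mul_one_sub (fun n hn => ?_) s (by rw [← hD]; exact congrFun h a)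
  let χ : FreeGroup A →* Multiplicative ℤ :=
    FreeGroup.lift fun x => Multiplicative.ofAdd (if x = b then 1 else 0)
  have hle : p.ker ≤ χ.ker := hk ▸ Subgroup.normalClosure_le_normal (by
    rintro _ rfl; exact map_bdI ι χ)
  have := hle (show (FreeGroup.of a * FreeGroup.of b * (FreeGroup.of a)⁻¹) ^ n ∈ p.ker by
    rw [MonoidHom.mem_ker, map_pow, hn])
  simpa [χ, hab, ← ofAdd_nsmul] using this

end Pool.Agent.FP.C

namespace Pool.Agent.FP
open C

/-- The centre of the surface group of genus at least two is trivial. -/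
theorem inn_injective {g : ℕ} (hg : 2 ≤ g) : Function.Injective (inn (g := g)) := by
  obtain ⟨F⟩ := exists_fox (PresentedGroup.mk ({bdw g} : Set (Fr g)))
  have e : bdI (id : Fin g × Bool → Fin g × Bool) = bdw g := by simp [bdI]
  have hk : (PresentedGroup.mk ({bdw g} : Set (Fr g))).ker = Subgroup.normalClosure {bdw g} :=
    QuotientGroup.ker_mk' _
  intro x y hxy
  have := central_eq_one (PresentedGroup.mk_surjective _) F hk
    (fun s hs => fox_inj (ι := id) (by omega) Function.injective_id (by rw [e, hk]) F s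
      (by rw [e, hs]))
    (by simp; omega) (y⁻¹ * x) fun z => by
      have := DFunLike.congr_fun (congrArg Subtype.val hxy) z
      simp only [inn, MulAut.conj_apply] at this
      rw [mul_assoc, eq_mul_of_mul_inv_eq this]
      group
  exact (inv_mul_eq_one.1 this).symm

theorem center_trivial {g : ℕ} (hg : 2 ≤ g) {z : Sg g} (hz : ∀ x, z * x = x * z) : z = 1 :=
  inn_injective hg (Subtype.ext (MulEquiv.ext fun x => by simp [inn, hz]))

end Pool.Agent.FP
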