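import Pool.Agent.FP.GrpOmega
import Pool.Agent.FP.GrpDefs

/-! The group of pairs attached to the two-holed surface. -/

namespace Pool.Agent.FP.G
open FreeGroup hiding map_mul map_inv map_one

variable {h : ℕ}

/-- A homomorphism out of the free group of genus `h + 1`. -/
def ext3 {H : Type} [Group H] (f : Fr h →* H) (c t : H) : Fr (h + 1) →* H :=
  lift fun j => Fin.lastCases (if j.2 then t else c) (fun i => f (of (i, j.2))) j.1

section
variable {H : Type} [Group H] (f : Fr h →* H) (c t : H)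
@[simp] lemma ext3_inc (y : Fr h) : ext3 f c t (incF h y) = f y := by
  have : (ext3 f c t).comp (incF h) = f := by ext ⟨i, b⟩; simp [ext3, incF]
  exact DFunLike.congr_fun this y
@[simp] lemma ext3_cc : ext3 f c t (cc h) = c := by simp [ext3, cc]
@[simp] lemma ext3_tt : ext3 f c t (tt h) = t := by simp [ext3, tt]
end

lemma hom_ext3 {H : Type} [Group H] {f g : Fr (h + 1) →* H} (h1 : ∀ y, f (incF h y) = g (incF h y))
    (h2 : f (cc h) = g (cc h)) (h3 : f (tt h) = g (tt h)) : f = g := by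
  ext ⟨i, b⟩
  induction i using Fin.lastCases with
  | last => cases b; exacts [h2, h3]
  | cast i => exact h1 (of (i, b))

lemma aut_ext3 {f g : MulAut (Fr (h + 1))} (h1 : ∀ y, f (incF h y) = g (incF h y))
    (h2 : f (cc h) = g (cc h)) (h3 : f (tt h) = g (tt h)) : f = g :=
  MulEquiv.toMonoidHom_injective (hom_ext3 h1 h2 h3)

@[simp] lemma ret_inc (y : Fr h) : retF h (incF h y) = y := by
  have : (retF h).comp (incF h) = MonoidHom.id _ := by ext ⟨i, b⟩; simp [retF, incF]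
  exact DFunLike.congr_fun this y
@[simp] lemma ret_cc : retF h (cc h) = 1 := by simp [retF, cc]
@[simp] lemma ret_tt : retF h (tt h) = 1 := by simp [retF, tt]

lemma inc_mem (y : Fr h) : incF h y ∈ Fc h := Subgroup.subset_closure (.inr ⟨y, rfl⟩)
lemma cc_mem : cc h ∈ Fc h := Subgroup.subset_closure (.inl rfl)

lemma Fc_ind {p : Fr (h + 1) → Prop} (h1 : ∀ y, p (incF h y)) (h2 : p (cc h))
    (h3 : ∀ u v, p u → p v → p (u * v)) (h4 : ∀ u, p u → p u⁻¹) {v} (hv : v ∈ Fc h) : p v := by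
  induction hv using Subgroup.closure_induction with
  | mem x hx => rcases hx with rfl | ⟨y, rfl⟩; exacts [h2, h1 y]
  | one => simpa using h1 1
  | mul x y _ _ a b => exact h3 _ _ a b
  | inv x _ a => exact h4 _ a

/-- The standard word. -/
def W0 (h : ℕ) : List ((Fin h × Bool) × Bool) :=
  Z.sw (fun i => (i, false)) (fun i => (i, true)) (List.finRange h)

lemma mk_W0 : mk (W0 h) = bdw h := by
  rw [W0, Z.mk_sw, bdw, List.ofFn_eq_map]

lemma hab_bij : Function.Bijective (Sum.elim (fun i : Fin h => (i, false)) fun i => (i, true)) := by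
  constructor
  · rintro (i | i) (j | j) e <;> simp_all
  · rintro ⟨i, _ | _⟩
    exacts [⟨.inl i, rfl⟩, ⟨.inr i, rfl⟩]

/-- The boundary loop opposite to the vanishing cycle. -/
def dl (h : ℕ) : Fr (h + 1) := incF h (bdw h) * cc h

lemma dl_mem : dl h ∈ Fc h := mul_mem (inc_mem _) cc_mem
@[simp] lemma ret_dl : retF h (dl h) = bdw h := by simp [dl]

lemma bdw_succ : bdw (h + 1) = dl h * (tt h * (cc h)⁻¹ * (tt h)⁻¹) := by
  rw [bdw, List.ofFn_succ_last, List.prod_append, dl, bdw, map_list_prod, List.map_ofFn]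
  simp [cc, tt, incF, Function.comp_def, mul_assoc]

/-- An automorphism from two mutually inverse triples. -/
def aut3 (f g : Fr (h + 1) →* Fr (h + 1)) (h1 : ∀ y, g (f (incF h y)) = incF h y)
    (h2 : g (f (cc h)) = cc h) (h3 : g (f (tt h)) = tt h) (h4 : ∀ y, f (g (incF h y)) = incF h y)
    (h5 : f (g (cc h)) = cc h) (h6 : f (g (tt h)) = tt h) : MulAut (Fr (h + 1)) :=
  MonoidHom.toMulEquiv f g (hom_ext3 h1 h2 h3) (hom_ext3 h4 h5 h6)

@[simp] lemma aut3_apply (f g : Fr (h + 1) →* Fr (h + 1)) (h1 h2 h3 h4 h5 h6) (v) :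
    aut3 f g h1 h2 h3 h4 h5 h6 v = f v := rfl
@[simp] lemma aut3_inv_apply (f g : Fr (h + 1) →* Fr (h + 1)) (h1 h2 h3 h4 h5 h6) (v) :
    (aut3 f g h1 h2 h3 h4 h5 h6)⁻¹ v = g v := rfl

@[simp] lemma aut3_symm_apply (f g : Fr (h + 1) →* Fr (h + 1)) (h1 h2 h3 h4 h5 h6) (v) :
    MulEquiv.symm (aut3 f g h1 h2 h3 h4 h5 h6) v = g v := rfl

/-- The group of the bordered surface with one marked point. -/
abbrev FM (h : ℕ) : Type :=
  Fr h ⋊[(MulAction.stabilizer (MulAut (Fr h)) (bdw h)).subtype] Mb h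

/-- The ambient group of pairs. -/
abbrev PP (h : ℕ) : Type := MulAut (Fr (h + 1)) × FM h

/-- The first component lies over the second. -/
def Rel (z : PP h) : Prop :=
  ∃ u ∈ Fc h, retF h u = z.2.left ∧ z.1 (tt h) = tt h * u ∧ z.1 (cc h) = u⁻¹ * cc h * u ∧
    ∀ y, z.1 (incF h y) ∈ Fc h ∧ retF h (z.1 (incF h y)) = z.2.right.1 y

lemma Rel.act {z : PP h} (hz : Rel z) {v} (hv : v ∈ Fc h) :
    z.1 v ∈ Fc h ∧ retF h (z.1 v) = z.2.right.1 (retF h v) := by
  obtain ⟨u, hu, -, -, h3, h4⟩ := hz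
  refine Fc_ind (p := fun v => z.1 v ∈ Fc h ∧ retF h (z.1 v) = z.2.right.1 (retF h v))
    (fun y => by simpa using h4 y) ?_ ?_ ?_ hv
  · rw [h3]; exact ⟨mul_mem (mul_mem (inv_mem hu) cc_mem) hu, by simp⟩
  · exact fun u v a b => ⟨by rw [map_mul]; exact mul_mem a.1 b.1, by simp [a.2, b.2]⟩
  · exact fun u a => ⟨by rw [map_inv]; exact inv_mem a.1, by simp [a.2]⟩

lemma Rel.mul {z z' : PP h} (hz : Rel z) (hz' : Rel z') : Rel (z * z') := by
  obtain ⟨u', hu', a1, a2, a3, a4⟩ := hz'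
  have k := hz.act hu'
  have k' := fun y => hz.act (a4 y).1
  obtain ⟨u, hu, b1, b2, b3, b4⟩ := hz
  refine ⟨u * z.1 u', mul_mem hu k.1, by simp [k.2, a1, b1], by simp [a2, b2, mul_assoc],
    by simp [a3, b3, mul_assoc], fun y => ⟨(k' y).1, ?_⟩⟩
  simpa [(a4 y).2] using (k' y).2

/-- Pairs that lie over each other together with their inverses. -/
def DD (h : ℕ) : Subgroup (PP h) where
  carrier := {z | Rel z ∧ Rel z⁻¹}
  one_mem' := by
    have : Rel (1 : PP h) := ⟨1, one_mem _, by simp, by simp, by simp, fun y => ⟨inc_mem y, by simp⟩⟩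
    exact ⟨this, by simpa using this⟩
  mul_mem' := fun a b => ⟨a.1.mul b.1, by rw [mul_inv_rev]; exact b.2.mul a.2⟩
  inv_mem' := fun a => ⟨a.2, by simpa using a.1⟩

/-- Moving the puncture along `s` without dragging the surface. -/
def al (s : Fr h) : PP h :=
  (aut3 (ext3 (incF h) (incF h s * cc h * (incF h s)⁻¹) (tt h * (incF h s)⁻¹))
    (ext3 (incF h) ((incF h s)⁻¹ * cc h * incF h s) (tt h * incF h s))
    (by simp) (by simp [mul_assoc]) (by simp) (by simp) (by simp [mul_assoc]) (by simp),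
   SemidirectProduct.inl s⁻¹)

lemma al_mem (s : Fr h) : al s ∈ DD h :=
  ⟨⟨(incF h s)⁻¹, inv_mem (inc_mem s), by simp [al], by simp [al], by simp [al],
    fun y => ⟨by simpa [al] using inc_mem y, by simp [al]⟩⟩,
   ⟨incF h s, inc_mem s, by simp [al], by simp [al], by simp [al],
    fun y => ⟨by simpa [al] using inc_mem y, by simp [al]⟩⟩⟩

/-- The map `x ↦ x d` on the generators of the small free group. -/
def bf (x : Fin h × Bool) (d : Fr (h + 1)) : Fr h →* Fr (h + 1) :=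
  lift fun y => if y = x then incF h (of y) * d else incF h (of y)

lemma bf_bf (x : Fin h × Bool) (d d' : Fr (h + 1)) (hd : ext3 (bf x d') (cc h) (tt h) d = d)
    (e : d' * d = 1) (y) : ext3 (bf x d') (cc h) (tt h) (bf x d y) = incF h y := by
  have : (ext3 (bf x d') (cc h) (tt h)).comp (bf x d) = incF h := by
    ext z
    by_cases c : z = x
    · subst c
      simp only [MonoidHom.comp_apply, bf, lift_apply_of, if_true, map_mul, ext3_inc]
      rw [show ext3 (lift fun y => if y = z then incF h (of y) * d' else incF h (of y)) (cc h)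
        (tt h) d = d from hd, mul_assoc, e, mul_one]
    · simp [bf, c]
  exact DFunLike.congr_fun this y

lemma bf_rel (x : Fin h × Bool) {d : Fr (h + 1)} (hd : d ∈ Fc h) (e : retF h d = 1) (y) :
    bf x d y ∈ Fc h ∧ retF h (bf x d y) = y := by
  induction y using FreeGroup.induction_on with
  | C1 => simp
  | of z =>
    by_cases c : z = x
    · exact ⟨by simpa [bf, c] using mul_mem (inc_mem _) hd, by simp [bf, c, e]⟩
    · exact ⟨by simpa [bf, c] using inc_mem _, by simp [bf, c]⟩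
  | inv_of z a => exact ⟨by rw [map_inv]; exact inv_mem a.1, by simp [a.2]⟩
  | mul u v a b => exact ⟨by rw [map_mul]; exact mul_mem a.1 b.1, by simp [a.2, b.2]⟩

/-- The transvection `x ↦ x c`. -/
def be (x : Fin h × Bool) : PP h :=
  (aut3 (ext3 (bf x (cc h)) (cc h) (tt h)) (ext3 (bf x (cc h)⁻¹) (cc h) (tt h))
    (fun y => by rw [ext3_inc]; exact bf_bf x _ _ (by simp) (by simp) y) (by simp) (by simp)
    (fun y => by rw [ext3_inc]; exact bf_bf x _ _ (by simp) (by simp) y) (by simp) (by simp), 1)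

lemma be_mem (x : Fin h × Bool) : be x ∈ DD h :=
  ⟨⟨1, one_mem _, by simp [be], by simp [be], by simp [be],
    fun y => by simpa [be] using bf_rel x cc_mem ret_cc y⟩,
   ⟨1, one_mem _, by simp [be], by simp [be], by simp [be],
    fun y => by simpa [be] using bf_rel x (inv_mem cc_mem) (by simp) y⟩⟩

/-- Extension by the identity on the last handle. -/
def sa (m : MulAut (Fr h)) : MulAut (Fr (h + 1)) :=
  aut3 (ext3 ((incF h).comp m.toMonoidHom) (cc h) (tt h))
    (ext3 ((incF h).comp m.symm.toMonoidHom) (cc h) (tt h))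
    (by simp) (by simp) (by simp) (by simp) (by simp) (by simp)

@[simp] lemma sa_inc (m : MulAut (Fr h)) (y) : sa m (incF h y) = incF h (m y) := by simp [sa]
@[simp] lemma sa_cc (m : MulAut (Fr h)) : sa m (cc h) = cc h := by simp [sa]
@[simp] lemma sa_tt (m : MulAut (Fr h)) : sa m (tt h) = tt h := by simp [sa]

/-- The stabilisation. -/
def sm : Mb h →* PP h :=
  MonoidHom.mk' (fun m => (sa m.1, SemidirectProduct.inr m)) fun a b =>
    Prod.ext (aut_ext3 (by simp) (by simp) (by simp)) (by simp)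

@[simp] lemma sm_fst (m : Mb h) : (sm m).1 = sa m.1 := rfl
@[simp] lemma sm_snd (m : Mb h) : (sm m).2 = SemidirectProduct.inr m := rfl

lemma sm_mem (m : Mb h) : sm m ∈ DD h := by
  have : ∀ m : Mb h, Rel (sm m) := fun m =>
    ⟨1, one_mem _, by simp, by simp, by simp, fun y => ⟨by simpa using inc_mem _, by simp⟩⟩
  exact ⟨this m, map_inv sm m ▸ this m⁻¹⟩

/-- The twist `t ↦ t c`. -/
def T2 (h : ℕ) : PP h :=
  (aut3 (ext3 (incF h) (cc h) (tt h * cc h)) (ext3 (incF h) (cc h) (tt h * (cc h)⁻¹))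
    (by simp) (by simp) (by simp) (by simp) (by simp) (by simp), 1)

lemma T2_zpow (k : ℤ) : (∀ y, (T2 h ^ k).1 (incF h y) = incF h y) ∧ (T2 h ^ k).1 (cc h) = cc h ∧
    (T2 h ^ k).1 (tt h) = tt h * cc h ^ k ∧ (T2 h ^ k).2 = 1 := by
  induction k using Int.induction_on with
  | zero => simp
  | succ k ih =>
    obtain ⟨a, b, c, d⟩ := ih
    rw [zpow_add_one, zpow_add_one]
    simp only [Prod.fst_mul, Prod.snd_mul, MulAut.mul_apply, d]
    simp only [T2, aut3_apply, ext3_inc, ext3_cc, ext3_tt, map_mul] at a b c ⊢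
    simp only [a, b, c, mul_assoc, mul_one, implies_true, and_self]
  | pred k ih =>
    obtain ⟨a, b, c, d⟩ := ih
    rw [zpow_sub_one, zpow_sub_one]
    simp only [Prod.fst_mul, Prod.snd_mul, MulAut.mul_apply, d, Prod.fst_inv, Prod.snd_inv]
    simp only [T2, aut3_inv_apply, ext3_inc, ext3_cc, ext3_tt, map_mul, map_inv] at a b c ⊢
    simp only [a, b, c, mul_assoc, inv_one, mul_one, implies_true, and_self]

lemma T2_fix {v} (hv : v ∈ Fc h) : (T2 h).1 v = v :=
  Fc_ind (p := fun v => (T2 h).1 v = v) (by simp [T2]) (by simp [T2])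
    (fun u v a b => by rw [map_mul, a, b]) (fun u a => by rw [map_inv, a]) hv

lemma T2_mem : T2 h ∈ DD h :=
  ⟨⟨cc h, cc_mem, by simp [T2], by simp [T2], by simp [T2],
    fun y => ⟨by simpa [T2] using inc_mem y, by simp [T2]⟩⟩,
   ⟨(cc h)⁻¹, inv_mem cc_mem, by simp [T2], by simp [T2], by simp [T2],
    fun y => ⟨by simpa [T2] using inc_mem y, by simp [T2]⟩⟩⟩

lemma T2_comm {z : PP h} (hz : z ∈ DD h) : Commute z (T2 h) := by
  have k := fun y => (hz.1.act (inc_mem (h := h) y)).1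
  have k' := (hz.1.act (cc_mem (h := h))).1
  obtain ⟨u, hu, -, a2, a3, -⟩ := hz.1
  refine Prod.ext (aut_ext3 (fun y => ?_) ?_ ?_) (by simp [T2])
  · simp only [Prod.fst_mul, MulAut.mul_apply, T2_fix (k y), T2_fix (inc_mem y)]
  · simp only [Prod.fst_mul, MulAut.mul_apply, T2_fix k', T2_fix cc_mem]
  · simp only [Prod.fst_mul, MulAut.mul_apply, a2, map_mul, T2_fix hu]
    simp [T2, a2, a3, mul_assoc]

lemma rigid {z : PP h} (hz : z ∈ DD h) (h1 : ∀ y, z.1 (incF h y) = incF h y)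
    (h2 : z.1 (cc h) = cc h) : ∃ k : ℤ, z = T2 h ^ k := by
  obtain ⟨u, hu, a1, a2, a3, a4⟩ := hz.1
  obtain ⟨k, hk⟩ := Z.mem_zpowers_of_commute (Fin.last h, false) u (by
    rw [h2] at a3
    change u * cc h = cc h * u
    conv_lhs => rw [a3]
    group)
  obtain ⟨b1, b2, b3, b4⟩ := T2_zpow (h := h) k
  have hk' : cc h ^ k = u := hk
  refine ⟨k, Prod.ext (aut_ext3 (fun y => by rw [h1, b1]) (by rw [h2, b2])
    (by rw [a2, b3, hk'])) ?_⟩
  rw [b4]
  refine SemidirectProduct.ext (by rw [← a1, ← hk']; simp) (Subtype.ext ?_)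
  ext y
  simpa [h1] using (a4 y).2.symm

/-- The central element of `FM`. -/
def tau (h : ℕ) : FM h := ⟨(bdw h)⁻¹, tw h⟩

lemma mb_bdw (m : Mb h) : m.1 (bdw h) = bdw h := m.2

lemma tw_comm (m : Mb h) : m * tw h = tw h * m := by
  refine Subtype.ext ?_
  ext y
  simp [tw, mb_bdw]

lemma tau_comm (z : FM h) : Commute z (tau h) := by
  refine SemidirectProduct.ext ?_ (tw_comm _)
  simp [tau, tw, mb_bdw, mul_assoc]

/-- The twist along the other boundary loop. -/
def T1 (h : ℕ) : PP h :=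
  (MulAut.conj (dl h) * aut3 (ext3 (incF h) (cc h) ((dl h)⁻¹ * tt h)) (ext3 (incF h) (cc h) (dl h * tt h))
    (by simp) (by simp) (by simp [dl, mul_assoc]) (by simp) (by simp) (by simp [dl, mul_assoc]),
   tau h)

lemma T1_Fc {v} (hv : v ∈ Fc h) : (T1 h).1 v = dl h * v * (dl h)⁻¹ :=
  Fc_ind (p := fun v => (T1 h).1 v = dl h * v * (dl h)⁻¹) (by simp [T1]) (by simp [T1])
    (fun u v a b => by rw [map_mul, a, b]; group) (fun u a => by rw [map_inv, a]; group) hv

lemma T1_tt : (T1 h).1 (tt h) = tt h * (dl h)⁻¹ := by simp [T1, mul_assoc]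

lemma T1_mem : T1 h ∈ DD h := by
  have i1 : ∀ v ∈ Fc h, (T1 h)⁻¹.1 v = (dl h)⁻¹ * v * dl h := fun v hv => by
    rw [Prod.fst_inv, MulAut.inv_apply, MulEquiv.symm_apply_eq,
      T1_Fc (mul_mem (mul_mem (inv_mem dl_mem) hv) dl_mem)]
    group
  have i2 : (T1 h)⁻¹.1 (tt h) = tt h * dl h := by
    rw [Prod.fst_inv, MulAut.inv_apply, MulEquiv.symm_apply_eq, map_mul, T1_tt, T1_Fc dl_mem]
    group
  refine ⟨⟨(dl h)⁻¹, inv_mem dl_mem, by simp [T1, tau], T1_tt, ?_, fun y => ?_⟩,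
    ⟨dl h, dl_mem, by simp [T1, tau, tw], i2, i1 _ cc_mem, fun y => ?_⟩⟩
  · rw [T1_Fc cc_mem, dl]; group
  · rw [T1_Fc (inc_mem y)]
    exact ⟨mul_mem (mul_mem dl_mem (inc_mem y)) (inv_mem dl_mem), by simp [T1, tau, tw]⟩
  · rw [i1 _ (inc_mem y)]
    exact ⟨mul_mem (mul_mem (inv_mem dl_mem) (inc_mem y)) dl_mem, by simp [T1, tau, tw]⟩

lemma T1_comm {z : PP h} (hz : z ∈ DD h) (hd : z.1 (dl h) = dl h) : Commute z (T1 h) := by
  have k := fun y => (hz.1.act (inc_mem (h := h) y)).1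
  have k' := (hz.1.act (cc_mem (h := h))).1
  obtain ⟨u, hu, -, a2, a3, -⟩ := hz.1
  refine Prod.ext (aut_ext3 (fun y => ?_) ?_ ?_) (tau_comm _)
  · simp only [Prod.fst_mul, MulAut.mul_apply, T1_Fc (k y), T1_Fc (inc_mem y), map_mul, map_inv, hd]
  · simp only [Prod.fst_mul, MulAut.mul_apply, T1_Fc k', T1_Fc cc_mem, map_mul, map_inv, hd]
  · simp only [Prod.fst_mul, MulAut.mul_apply, a2, map_mul, T1_Fc hu, T1_tt, map_inv, hd]
    group

end Pool.Agent.FP.G
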