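import Pool.Agent.FP.GrpDD

/-! The push subgroup and the group of the two-holed surface. -/

namespace Pool.Agent.FP.G
open FreeGroup hiding map_mul map_inv map_one
open Z

variable {h : ℕ}

/-- The push across the generator `x`. -/
def pu (x : Fin h × Bool) : PP h :=
  al (suf 1 (W0 h) (x, true)) * be x * al ((suf 1 (W0 h) (x, false))⁻¹ * of x)

lemma pu_mem (x : Fin h × Bool) : pu x ∈ DD h := mul_mem (mul_mem (al_mem _) (be_mem _)) (al_mem _)

lemma pu_snd (x : Fin h × Bool) : (pu x).2 = SemidirectProduct.inl (dual (W0 h) x) := by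
  simp [pu, al, be, dual, mul_assoc]

lemma W0_quad : Quad (W0 h) := sw_quad hab_bij (List.nodup_finRange h) List.mem_finRange

lemma W0_split (x : Fin h × Bool) : ∃ U V Z, W0 h = U ++ (x, true) :: (V ++ (x, false) :: Z) := by
  obtain ⟨i, b⟩ := x
  obtain ⟨A, B, e⟩ := List.append_of_mem (List.mem_finRange i)
  rw [W0, e, sw_append, sw_cons]
  cases b
  · exact ⟨_, [_], _, rfl⟩
  · exact ⟨_ ++ [_], [_], _, by simp only [List.append_assoc]; rfl⟩

lemma pu_push (x : Fin h × Bool) : Z.IsPush (incF h) (cc h) 1 (W0 h) (x, true) (pu x).1 := by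
  have hs : (pu x).1 (incF h (of x)) =
      incF h (of x) * cj (incF h) (cc h) (suf 1 (W0 h) (x, true)) := by
    simp [pu, al, be, bf, cj, mul_assoc]
  have ho : ∀ m : (Fin h × Bool) × Bool, m.1 ≠ x →
      (pu x).1 (incF h (Y 1 m)) = incF h (Y 1 m) := fun m hm => by
    rw [Y_eq]; split_ifs <;> simp [pu, al, be, bf, hm]
  have hw : ∀ V : List ((Fin h × Bool) × Bool), (∀ m ∈ V, m.1 ≠ x) →
      (pu x).1 (incF h (val 1 V)) = incF h (val 1 V) ∧ bf x (cc h) (val 1 V) = incF h (val 1 V) := by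
    intro V hV
    induction V with
    | nil => simp
    | cons m V ih =>
      obtain ⟨i1, i2⟩ := ih fun m hm => hV m (by simp [hm])
      have hm := hV m (by simp)
      rw [val_cons, map_mul, map_mul, map_mul, ho m hm, i1, i2, Y_eq]
      split_ifs <;> simp [bf, hm]
  refine ⟨?_, hs, ho⟩
  obtain ⟨U, V, Z, e⟩ := W0_split x
  have hn := (W0_quad (h := h)).1
  rw [e] at hn
  have f : ∀ m : (Fin h × Bool) × Bool, m ≠ (x, true) → m ≠ (x, false) → m.1 ≠ x :=
    fun m => fst_ne (p := (x, true))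
  have hU := (hw U fun m hm => f m (by grind) (by grind)).1
  have hV := (hw V fun m hm => f m (by grind) (by grind)).1
  have hZ := hw Z fun m hm => f m (by grind) (by grind)
  have e1 : suf 1 (W0 h) (x, true) = val 1 V * ((of x)⁻¹ * val 1 Z) := by
    rw [e, suf_mid _ _ (by grind)]; simp [Y_one_false]
  have e2 : suf 1 (W0 h) (x, false) = val 1 Z := by
    rw [e, ← List.cons_append, ← List.append_assoc]; exact suf_mid _ _ (by grind)
  have hc : (pu x).1 (cc h) = (incF h (val 1 Z))⁻¹ * incF h (of x) *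
      cj (incF h) (cc h) (suf 1 (W0 h) (x, true)) * (incF h (of x))⁻¹ * incF h (val 1 Z) := by
    have : bf x (cc h) (of x) = incF h (of x) * cc h := by simp [bf]
    simp [pu, al, be, cj, e2, hZ.2, this, mul_assoc]
  have e3 : val 1 (W0 h) = val 1 U * (of x * (val 1 V * ((of x)⁻¹ * val 1 Z))) := by
    rw [e]; simp [Y_one_true, Y_one_false]
  rw [e3]
  simp only [map_mul, map_inv, hU, hV, hZ.1, hs, hc, e1, cj]
  group

lemma push_dl {ψ : MulAut (Fr h)} {l φ} (hψ : ψ (bdw h) = bdw h) (H : Z.IsPush (incF h) (cc h) ψ (W0 h) l φ) :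
    φ (dl h) = dl h := by
  have := H.bd
  rwa [val, mk_W0, hψ] at this

/-- Products of pushes. -/
def sg : Fr h →* PP h := lift pu

lemma sg_prop (w : Fr h) : sg w ∈ DD h ∧ (sg w).1 (dl h) = dl h ∧
    (sg w).2 = SemidirectProduct.inl (lift (dual (W0 h)) w) := by
  induction w using FreeGroup.induction_on with
  | C1 => simp
  | of x => simpa [sg] using ⟨pu_mem x, push_dl rfl (pu_push x), pu_snd x⟩
  | inv_of x a =>
    rw [map_inv, map_inv, map_inv, Prod.fst_inv, MulAut.inv_apply, MulEquiv.symm_apply_eq]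
    exact ⟨inv_mem a.1, a.2.1.symm, by rw [Prod.snd_inv, a.2.2]⟩
  | mul u v a b =>
    rw [map_mul, map_mul, map_mul, Prod.fst_mul, MulAut.mul_apply, b.2.1, Prod.snd_mul]
    exact ⟨mul_mem a.1 b.1, a.2.1, by rw [a.2.2, b.2.2]⟩

lemma dual_W0 : Function.Bijective (lift (dual (W0 h))) :=
  dual_bij hab_bij (List.nodup_finRange h) List.mem_finRange

/-- The push subgroup. -/
def KK (h : ℕ) : Subgroup (PP h) where
  carrier := {z | ∃ (w : Fr h) (k : ℤ), z = sg w * T2 h ^ k}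
  one_mem' := ⟨1, 0, by simp⟩
  mul_mem' := by
    rintro _ _ ⟨w, k, rfl⟩ ⟨w', k', rfl⟩
    refine ⟨w * w', k + k', ?_⟩
    rw [map_mul, zpow_add, mul_assoc, mul_assoc, ← mul_assoc (T2 h ^ k),
      ← ((T2_comm (sg_prop w').1).zpow_right k).eq, mul_assoc]
  inv_mem' := by
    rintro _ ⟨w, k, rfl⟩
    refine ⟨w⁻¹, -k, ?_⟩
    rw [mul_inv_rev, ← map_inv, ← zpow_neg, ((T2_comm (sg_prop w⁻¹).1).zpow_right _).eq]

lemma T2_KK (k : ℤ) : T2 h ^ k ∈ KK h := ⟨1, k, by simp⟩

lemma KK_prop {z : PP h} (hz : z ∈ KK h) : z ∈ DD h ∧ z.1 (dl h) = dl h ∧ z.2.right = 1 := by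
  obtain ⟨w, k, rfl⟩ := hz
  obtain ⟨a, b, c⟩ := sg_prop w
  obtain ⟨d, e, -, f⟩ := T2_zpow (h := h) k
  refine ⟨mul_mem a (zpow_mem T2_mem k), ?_, by rw [Prod.snd_mul, f, c]; simp⟩
  rw [Prod.fst_mul, MulAut.mul_apply, dl, map_mul, d, e]
  exact b

lemma allPush_one : AllPush (incF h) (cc h) ((KK h).map (MonoidHom.fst _ _)) 1 (W0 h) := by
  rintro ⟨x, b⟩
  have m : (pu x).1 ∈ (KK h).map (MonoidHom.fst _ _) := ⟨pu x, ⟨of x, 0, by simp [sg]⟩, rfl⟩
  cases b
  exacts [⟨_, inv_mem m, (pu_push x).inv W0_quad⟩, ⟨_, m, pu_push x⟩]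

/-- An element of `DD` fixing `dl` that acts on the small free group like an element of `KK`. -/
lemma mem_KK_of {z k : PP h} (hz : z ∈ DD h) (hd : z.1 (dl h) = dl h) (hk : k ∈ KK h)
    (e : ∀ y, z.1 (incF h y) = k.1 (incF h y)) : z ∈ KK h := by
  obtain ⟨a, b, -⟩ := KK_prop hk
  have ec : z.1 (cc h) = k.1 (cc h) := by
    have := hd.trans b.symm
    rw [dl, map_mul, map_mul, e] at this
    exact mul_left_cancel this
  obtain ⟨j, hj⟩ := rigid (mul_mem (inv_mem a) hz) (fun y => by simp [e]) (by simp [ec])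
  have : z = k * T2 h ^ j := by rw [← hj]; group
  exact this ▸ mul_mem hk (T2_KK j)

lemma sa_dl (m : Mb h) : sa m.1 (dl h) = dl h := by simp [dl, mb_bdw]

lemma conj_pu (m : Mb h) (x : Fin h × Bool) : sm m * pu x * (sm m)⁻¹ ∈ KK h := by
  obtain ⟨_, ⟨k, hk, rfl⟩, H⟩ := allPush_sw hab_bij (List.nodup_finRange h) List.mem_finRange
    allPush_one m.1 (by change m.1 (mk (W0 h)) = mk (W0 h); rw [mk_W0, mb_bdw]) (x, true)
  change Z.IsPush (incF h) (cc h) m.1 (W0 h) (x, true) k.1 at H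
  have H0 := pu_push x
  have hs : ∀ (W : List ((Fin h × Bool) × Bool)) l, suf m.1 W l = m.1 (suf 1 W l) := fun W l => by
    induction W with
    | nil => simp [suf]
    | cons a W ih => rw [suf, suf, ih]; split_ifs <;> rfl
  rw [← map_inv]
  refine mem_KK_of (mul_mem (mul_mem (sm_mem _) (pu_mem _)) (sm_mem _)) ?_ hk fun y => ?_
  · simp only [Prod.fst_mul, MulAut.mul_apply, sm_fst, sa_dl, push_dl rfl H0]
  · obtain ⟨y, rfl⟩ := m.1.surjective y
    have : ((sa m.1).toMonoidHom.comp (pu x).1.toMonoidHom).comp (incF h) =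
        (k.1.toMonoidHom.comp (incF h)).comp m.1.toMonoidHom := by
      ext z
      by_cases c : z = x
      · subst c
        have a := H0.self
        have b := H.self
        simp only [Y_eq, if_true, MulAut.one_apply] at a b
        simp [a, b, cj, hs]
      · have a := H0.off (z, true) c
        have b := H.off (z, true) c
        simp only [Y_eq, if_true, MulAut.one_apply] at a b
        simp [a, b]
    simp only [Prod.fst_mul, MulAut.mul_apply, sm_fst, sa_inc]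
    simpa using DFunLike.congr_fun this y

lemma conj_KK (m : Mb h) {z : PP h} (hz : z ∈ KK h) : sm m * z * (sm m)⁻¹ ∈ KK h := by
  obtain ⟨w, k, rfl⟩ := hz
  have a : sm m * sg w * (sm m)⁻¹ ∈ KK h := by
    induction w using FreeGroup.induction_on with
    | C1 => simp
    | of x => simpa [sg] using conj_pu m x
    | inv_of x a => convert inv_mem a using 1; rw [map_inv]; group
    | mul u v a b => convert mul_mem a b using 1; rw [map_mul]; group
  convert mul_mem a (T2_KK k) using 1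
  rw [mul_assoc, mul_assoc, mul_assoc, mul_assoc, ← map_inv,
    ((T2_comm (sm_mem m⁻¹)).zpow_right k).eq]

/-- The group of the two-holed surface. -/
def SS (h : ℕ) : Subgroup (PP h) where
  carrier := {z | ∃ k ∈ KK h, ∃ m, z = k * sm m}
  one_mem' := ⟨1, one_mem _, 1, by simp⟩
  mul_mem' := by
    rintro _ _ ⟨k, hk, m, rfl⟩ ⟨k', hk', m', rfl⟩
    exact ⟨_, mul_mem hk (conj_KK m hk'), m * m', by rw [map_mul]; group⟩
  inv_mem' := by
    rintro _ ⟨k, hk, m, rfl⟩
    exact ⟨_, conj_KK m⁻¹ (inv_mem hk), m⁻¹, by rw [map_inv]; group⟩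

lemma SS_prop {z : PP h} (hz : z ∈ SS h) : z ∈ DD h ∧ z.1 (dl h) = dl h := by
  obtain ⟨k, hk, m, rfl⟩ := hz
  obtain ⟨a, b, -⟩ := KK_prop hk
  exact ⟨mul_mem a (sm_mem m), by rw [Prod.fst_mul, MulAut.mul_apply, sm_fst, sa_dl, b]⟩

lemma sm_SS (m : Mb h) : sm m ∈ SS h := ⟨1, one_mem _, m, by simp⟩
lemma T2_SS : T2 h ∈ SS h := ⟨_, T2_KK 1, 1, by simp⟩

lemma T1_SS : T1 h ∈ SS h := by
  obtain ⟨_, ⟨k, hk, rfl⟩, -, H⟩ := omega hab_bij (List.nodup_finRange h) List.mem_finRange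
    (allPush_one (h := h))
  have hd : (T1 h).1 (dl h) = dl h := by rw [T1_Fc dl_mem]; group
  have : (T1 h)⁻¹ * sm (tw h) ∈ KK h := by
    refine mem_KK_of (mul_mem (inv_mem T1_mem) (sm_mem _)) ?_ hk fun y => ?_
    · rw [Prod.fst_mul, MulAut.mul_apply, sm_fst, sa_dl, Prod.fst_inv, MulAut.inv_apply,
        MulEquiv.symm_apply_eq, hd]
    · have H' : k.1 (incF h y) = (cc h)⁻¹ * incF h y * cc h := H y
      rw [H', Prod.fst_mul, MulAut.mul_apply, Prod.fst_inv, MulAut.inv_apply,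
        MulEquiv.symm_apply_eq, T1_Fc (mul_mem (mul_mem (inv_mem cc_mem) (inc_mem y)) cc_mem)]
      simp [tw, dl, mul_assoc]
  have e : T1 h = sm (tw h) * ((T1 h)⁻¹ * sm (tw h))⁻¹ := by group
  exact e ▸ mul_mem (sm_SS _) (inv_mem ⟨_, this, 1, by simp⟩)

lemma SS_surj (y : FM h) : ∃ z ∈ SS h, z.2 = y := by
  obtain ⟨w, hw⟩ := dual_W0.2 y.left
  refine ⟨_, ⟨sg w, ⟨w, 0, by simp⟩, y.right, rfl⟩, ?_⟩
  rw [Prod.snd_mul, (sg_prop w).2.2, hw, sm_snd, SemidirectProduct.inl_left_mul_inr_right]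

lemma SS_ker {z : PP h} (hz : z ∈ SS h) (e : z.2 = 1) : ∃ k : ℤ, z = T2 h ^ k := by
  obtain ⟨_, ⟨w, k, rfl⟩, m, rfl⟩ := hz
  rw [Prod.snd_mul, Prod.snd_mul, (sg_prop w).2.2, (T2_zpow k).2.2.2, mul_one, sm_snd] at e
  have h1 : m = 1 := by simpa using congrArg SemidirectProduct.right e
  have h2 : lift (dual (W0 h)) w = 1 := by simpa using congrArg SemidirectProduct.left e
  rw [map_eq_one_iff _ dual_W0.1] at h2
  exact ⟨k, by simp [h1, h2]⟩

end Pool.Agent.FP.G
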