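import Pool.Agent.FP.GrpMove

/-! The Nielsen measure. -/

set_option linter.unusedSectionVars false

namespace Pool.Agent.FP.Z
open FreeGroup hiding map_mul map_inv map_one

variable {α : Type*}

/-! ### cancellation -/

lemma isReduced_invRev {u : List (α × Bool)} (h : IsReduced u) : IsReduced (invRev u) := by
  classical
  rw [isReduced_iff_reduce_eq, reduce_invRev, h.reduce_eq]

lemma red_mid {A B C : List (α × Bool)} (h : IsReduced (A ++ B ++ C)) : IsReduced B :=
  List.IsChain.right_of_append (List.IsChain.left_of_append h)

lemma cancel : ∀ (v u : List (α × Bool)), IsReduced u → IsReduced v →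
    ∃ u' p v', u = u' ++ invRev p ∧ v = p ++ v' ∧ IsReduced (u' ++ v')
  | [], u, hu, _ => ⟨u, [], [], by simp, rfl, by simpa using hu⟩
  | b :: v, u, hu, hv => by
    by_cases h : IsReduced (u ++ b :: v)
    · exact ⟨u, [], b :: v, by simp, rfl, h⟩
    · rcases List.eq_nil_or_concat u with rfl | ⟨u₁, a, rfl⟩
      · exact absurd hv h
      · rw [List.concat_eq_append] at hu h ⊢
        have hab : a = linv b := by
          by_contra hne
          apply h
          have h1 : IsReduced ([a] ++ [b]) := by
            simp only [List.cons_append, List.nil_append, isReduced_cons_cons,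
              IsReduced.singleton, and_true]
            intro e
            rcases eq_or_linv e with e' | e'
            · rw [e']
            · exact absurd e' hne
          have h2 := IsReduced.append_overlap hu h1 (by simp)
          have h3 := IsReduced.append_overlap (L₁ := u₁ ++ [a]) (L₂ := [b]) (L₃ := v) h2 hv (by simp)
          simpa using h3
        obtain ⟨u', p, v', e1, e2, h3⟩ := cancel v u₁
          (List.IsChain.left_of_append hu) (List.IsChain.right_of_append (l₁ := [b]) hv)
        refine ⟨u', b :: p, v', ?_, by simp [e2], h3⟩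
        rw [invRev_cons, invRev_single, e1, hab, List.append_assoc]

section measure
variable [Fintype α] [DecidableEq α]

/-- code of a letter -/
noncomputable def enc (l : α × Bool) : ℕ := (Fintype.equivFin (α × Bool) l : ℕ)
lemma enc_lt (l : α × Bool) : enc l < Fintype.card (α × Bool) := (Fintype.equivFin _ l).2
lemma enc_inj {l m : α × Bool} (h : enc l = enc m) : l = m :=
  (Fintype.equivFin (α × Bool)).injective (Fin.ext h)

/-- code of a word -/
noncomputable def num : List (α × Bool) → ℕ
  | [] => 0
  | l :: w => enc l + Fintype.card (α × Bool) * num w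

lemma num_append (p t : List (α × Bool)) :
    num (p ++ t) = num p + Fintype.card (α × Bool) ^ p.length * num t := by
  induction p with
  | nil => simp [num]
  | cons l p ih => simp only [List.cons_append, num, ih, List.length_cons]; ring

lemma num_inj : ∀ {p q : List (α × Bool)}, p.length = q.length → num p = num q → p = q
  | [], [], _, _ => rfl
  | [], _ :: _, h, _ => by simp at h
  | _ :: _, [], h, _ => by simp at h
  | l :: p, m :: q, h, e => by
    simp only [num] at e
    have h1 := enc_lt l
    have h2 := enc_lt m
    have h3 : enc l = enc m := by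
      have := congrArg (· % Fintype.card (α × Bool)) e
      simpa only [Nat.add_mul_mod_self_left, Nat.mod_eq_of_lt h1, Nat.mod_eq_of_lt h2] using this
    have h4 : num p = num q := by
      rw [h3] at e
      exact Nat.eq_of_mul_eq_mul_left (by omega) (Nat.add_left_cancel e)
    rw [enc_inj h3, num_inj (by simpa using h) h4]

/-- code of the left half -/
noncomputable def hf (w : List (α × Bool)) : ℕ := num (w.take (w.length / 2))

/-- the tie-breaking weight -/
noncomputable def wt (y : FreeGroup α) : ℕ := hf y.toWord + hf (invRev y.toWord)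

lemma wt_inv (y : FreeGroup α) : wt y⁻¹ = wt y := by simp [wt, add_comm]

/-- the measure -/
noncomputable def meas (ψ : MulAut (FreeGroup α)) : ℕ × ℕ :=
  (∑ x, (ψ (of x)).norm, ∑ x, wt (ψ (of x)))

lemma sum_lt_off {f f' : α → ℕ} {x : α} (h : ∀ y, y ≠ x → f' y = f y) (hx : f' x < f x) :
    ∑ y, f' y < ∑ y, f y :=
  Finset.sum_lt_sum (fun y _ => by by_cases e : y = x; exacts [e ▸ hx.le, (h y e).le])
    ⟨x, Finset.mem_univ _, hx⟩

lemma meas_lt {ψ ψ' : MulAut (FreeGroup α)} {p : α × Bool} (ho : Off ψ ψ' p.1)
    (h : (Y ψ' p).norm < (Y ψ p).norm ∨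
      ((Y ψ' p).norm = (Y ψ p).norm ∧ wt (Y ψ' p) < wt (Y ψ p))) :
    Prod.Lex (· < ·) (· < ·) (meas ψ') (meas ψ) := by
  have e1 : ∀ χ : MulAut (FreeGroup α), (Y χ p).norm = (χ (of p.1)).norm := fun χ => by
    rw [Y_eq]; split_ifs <;> simp
  have e2 : ∀ χ : MulAut (FreeGroup α), wt (Y χ p) = wt (χ (of p.1)) := fun χ => by
    rw [Y_eq]; split_ifs <;> simp [wt_inv]
  simp only [e1, e2] at h
  rcases h with h | ⟨h, h'⟩
  · exact Prod.Lex.left _ _ (sum_lt_off (fun y hy => by rw [ho y hy]) h)
  · have : ∑ x, (ψ' (of x)).norm = ∑ x, (ψ (of x)).norm :=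
      Finset.sum_congr rfl fun y _ => by by_cases e : y = p.1; exacts [e ▸ h, by rw [ho y e]]
    unfold meas
    rw [this]
    exact Prod.Lex.right _ (sum_lt_off (fun y hy => by rw [ho y hy]) h')

lemma hf_append_lt {p p' r : List (α × Bool)} (hl : p'.length = p.length)
    (hr : p.length ≤ r.length) (h : num p' < num p) : hf (p' ++ r) < hf (p ++ r) := by
  unfold hf
  have h1 : p.length ≤ (p.length + r.length) / 2 := by omega
  rw [List.take_append, List.take_append, List.length_append, List.length_append, hl,
    List.take_of_length_le h1, List.take_of_length_le (hl ▸ h1), num_append, num_append, hl]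
  omega

lemma hf_append_eq {p p' r : List (α × Bool)} (hl : p'.length = p.length)
    (hr : p.length ≤ r.length) : hf (r ++ p') = hf (r ++ p) := by
  unfold hf
  have h1 : (r.length + p.length) / 2 ≤ r.length := by omega
  rw [List.length_append, List.length_append, hl, List.take_append_of_le_length h1,
    List.take_append_of_le_length h1]

lemma hf_half {p r : List (α × Bool)} (h : p.length = r.length) : hf (p ++ r) = num p := by
  unfold hf
  have : (p ++ r).length / 2 = p.length := by simp; omega
  rw [this, List.take_left']
  rfl

lemma wt_lt {y y' : FreeGroup α} {p p' r : List (α × Bool)} (hy : y.toWord = p ++ r)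
    (hy' : y'.toWord = p' ++ r) (hl : p'.length = p.length) (hr : p.length ≤ r.length)
    (h : num p' < num p) : wt y' < wt y := by
  unfold wt
  rw [hy, hy', invRev_append, invRev_append,
    hf_append_eq (p := invRev p) (p' := invRev p') (by simpa using hl) (by simpa using hr)]
  have := hf_append_lt hl hr h
  omega

/-- the Nielsen condition for two neighbours -/
def Nice (u v p : List (α × Bool)) : Prop :=
  ∃ u' v', u = u' ++ invRev p ∧ v = p ++ v' ∧ IsReduced (u' ++ v') ∧
    p.length ≤ u'.length ∧ p.length ≤ v'.length ∧
    (p.length = u'.length → hf (invRev u) < hf u) ∧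
    (p.length = v'.length → hf v < hf (invRev v))

lemma nice_or {y z : FreeGroup α} (hy : y ≠ 1) (hz : z ≠ 1) :
    (∃ p, Nice y.toWord z.toWord p) ∨
    ((y * z).norm < y.norm ∨ ((y * z).norm = y.norm ∧ wt (y * z) < wt y)) ∨
    ((y * z).norm < z.norm ∨ ((y * z).norm = z.norm ∧ wt (y * z) < wt z)) := by
  obtain ⟨u', p, v', e1, e2, h3⟩ := cancel z.toWord y.toWord isReduced_toWord isReduced_toWord
  have hyz : (y * z).toWord = u' ++ v' := by
    have : y * z = mk (u' ++ v') := by
      rw [← mk_toWord (x := y), ← mk_toWord (x := z), e1, e2, ← mul_mk, ← mul_mk, ← mul_mk,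
        ← inv_mk]
      group
    rw [this, toWord_mk, h3.reduce_eq]
  have n1 : y.norm = u'.length + p.length := by simp [FreeGroup.norm, e1]
  have n2 : z.norm = p.length + v'.length := by simp [FreeGroup.norm, e2]
  have n3 : (y * z).norm = u'.length + v'.length := by simp only [FreeGroup.norm, hyz]; simp
  by_cases c1 : v'.length < p.length
  · right; left; left; omega
  by_cases c2 : u'.length < p.length
  · right; right; left; omega
  by_cases c3 : p.length = u'.length ∧ num u' < num p
  · right; right; right
    exact ⟨by omega, wt_lt e2 hyz c3.1.symm (by omega) c3.2⟩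
  by_cases c4 : p.length = v'.length ∧ num (invRev v') < num p
  · right; left; right
    refine ⟨by omega, ?_⟩
    rw [← wt_inv, ← wt_inv y]
    refine wt_lt (p := p) (p' := invRev v') (r := invRev u') (by simp [e1])
      (by rw [toWord_inv, hyz]; simp) (by simp [c4.1]) (by simp; omega) c4.2
  left
  refine ⟨p, u', v', e1, e2, h3, by omega, by omega, fun h => ?_, fun h => ?_⟩
  · have : num u' ≠ num p := fun e => hy (by
      have := num_inj h.symm e
      rw [← mk_toWord (x := y), e1, this, ← mul_mk, ← inv_mk, mul_inv_cancel])
    rw [e1, invRev_append, invRev_invRev, hf_half (by simpa using h),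
      hf_half (by simpa using h.symm)]
    omega
  · have : num (invRev v') ≠ num p := fun e => hz (by
      have := num_inj (by simpa using h.symm) e
      rw [← mk_toWord (x := z), e2, ← this, ← mul_mk, ← inv_mk, inv_mul_cancel])
    rw [e2, invRev_append, hf_half h, hf_half (by simpa using h.symm)]
    omega

end measure

end Pool.Agent.FP.Z
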