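import Mathlib

/-! Zieschang's Nielsen-move lemma for quadratic words. -/

set_option linter.unusedSectionVars false

namespace Pool.Agent.FP.Z
open FreeGroup hiding map_mul map_inv map_one

variable {α : Type*}

/-- the inverse letter -/
def linv (l : α × Bool) : α × Bool := (l.1, !l.2)

@[simp] lemma linv_fst (l : α × Bool) : (linv l).1 = l.1 := rfl
@[simp] lemma linv_linv (l : α × Bool) : linv (linv l) = l := by simp [linv]
lemma linv_ne (l : α × Bool) : linv l ≠ l := by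
  obtain ⟨x, b⟩ := l; cases b <;> simp [linv]
lemma invRev_single (l : α × Bool) : invRev [l] = [linv l] := by simp [invRev, linv]
lemma mk_linv (l : α × Bool) : (mk [linv l] : FreeGroup α) = (mk [l])⁻¹ := by
  rw [inv_mk, invRev_single]
lemma eq_or_linv {l m : α × Bool} (h : l.1 = m.1) : l = m ∨ l = linv m := by
  obtain ⟨x, b⟩ := l; obtain ⟨y, c⟩ := m
  simp only at h; subst h
  cases b <;> cases c <;> simp [linv]
lemma mk_cons (l : α × Bool) (W : List (α × Bool)) :
    (mk (l :: W) : FreeGroup α) = mk [l] * mk W := by rw [mul_mk]; rfl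
lemma mk_nil : (mk [] : FreeGroup α) = 1 := rfl
lemma mk_single (l : α × Bool) :
    (mk [l] : FreeGroup α) = if l.2 then of l.1 else (of l.1)⁻¹ := by
  obtain ⟨x, b⟩ := l
  cases b
  · simp only [Bool.false_eq_true, if_false, of, inv_mk, invRev_single]; rfl
  · rfl

/-- every signed letter occurs exactly once -/
def Quad (W : List (α × Bool)) : Prop := W.Nodup ∧ ∀ l, l ∈ W

/-- value of a signed letter -/
def Y (ψ : MulAut (FreeGroup α)) (l : α × Bool) : FreeGroup α := ψ (mk [l])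

/-- value of a word -/
def val (ψ : MulAut (FreeGroup α)) (W : List (α × Bool)) : FreeGroup α := ψ (mk W)

@[simp] lemma val_nil (ψ : MulAut (FreeGroup α)) : val ψ [] = 1 := by simp [val, mk_nil]
@[simp] lemma val_cons (ψ : MulAut (FreeGroup α)) (l W) : val ψ (l :: W) = Y ψ l * val ψ W := by
  rw [val, mk_cons, map_mul]; rfl
@[simp] lemma val_append (ψ : MulAut (FreeGroup α)) (V W) :
    val ψ (V ++ W) = val ψ V * val ψ W := by rw [val, ← mul_mk, map_mul]; rfl
@[simp] lemma Y_linv (ψ : MulAut (FreeGroup α)) (l) : Y ψ (linv l) = (Y ψ l)⁻¹ := by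
  rw [Y, mk_linv, map_inv]; rfl
lemma Y_eq (ψ : MulAut (FreeGroup α)) (l : α × Bool) :
    Y ψ l = if l.2 then ψ (of l.1) else (ψ (of l.1))⁻¹ := by
  rw [Y, mk_single]; split_ifs <;> simp

/-- two automorphisms agree off the letter `x` -/
def Off (ψ ψ' : MulAut (FreeGroup α)) (x : α) : Prop := ∀ y, y ≠ x → ψ' (of y) = ψ (of y)

lemma Off.single {ψ ψ' : MulAut (FreeGroup α)} {x : α} (h : Off ψ ψ' x) {l : α × Bool}
    (hl : l.1 ≠ x) : Y ψ' l = Y ψ l := by
  rw [Y_eq, Y_eq, h _ hl]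

lemma Off.word {ψ ψ' : MulAut (FreeGroup α)} {x : α} (h : Off ψ ψ' x) :
    ∀ {W : List (α × Bool)}, (∀ l ∈ W, l.1 ≠ x) → val ψ' W = val ψ W
  | [], _ => by simp
  | l :: W, hW => by
    rw [val_cons, val_cons, h.single (hW l (by simp)),
      Off.word h (fun m hm => hW m (by simp [hm]))]

/-- the four elementary moves -/
inductive Step (ψ ψ' : MulAut (FreeGroup α)) : List (α × Bool) → List (α × Bool) → Prop
  | r1 (U p q V Z) : Off ψ ψ' p.1 → Y ψ' p = Y ψ p * Y ψ q →
      Step ψ ψ' (U ++ p :: q :: (V ++ linv p :: Z)) (U ++ p :: (V ++ q :: linv p :: Z))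
  | r2 (U p q V Z) : Off ψ ψ' p.1 → Y ψ' p = Y ψ p * Y ψ q →
      Step ψ ψ' (U ++ linv p :: (V ++ p :: q :: Z)) (U ++ q :: linv p :: (V ++ p :: Z))
  | l1 (U p q V Z) : Off ψ ψ' q.1 → Y ψ' q = Y ψ p * Y ψ q →
      Step ψ ψ' (U ++ p :: q :: (V ++ linv q :: Z)) (U ++ q :: (V ++ linv q :: p :: Z))
  | l2 (U p q V Z) : Off ψ ψ' q.1 → Y ψ' q = Y ψ p * Y ψ q →
      Step ψ ψ' (U ++ linv q :: (V ++ p :: q :: Z)) (U ++ linv q :: p :: (V ++ q :: Z))

lemma Step.perm {ψ ψ' : MulAut (FreeGroup α)} {W W'} (h : Step ψ ψ' W W') : W'.Perm W := by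
  classical
  cases h <;> (rw [List.perm_iff_count]; intro a; simp [List.count_cons]; try omega)

lemma Step.quad {ψ ψ' : MulAut (FreeGroup α)} {W W'} (h : Step ψ ψ' W W') (hW : Quad W) :
    Quad W' := ⟨h.perm.nodup_iff.2 hW.1, fun l => h.perm.mem_iff.2 (hW.2 l)⟩

lemma fst_ne {l p : α × Bool} (h1 : l ≠ p) (h2 : l ≠ linv p) : l.1 ≠ p.1 :=
  fun h => (eq_or_linv h).elim h1 h2

lemma Step.val_eq {ψ ψ' : MulAut (FreeGroup α)} {W W'} (h : Step ψ ψ' W W') (hW : W.Nodup) :
    val ψ' W' = val ψ W := by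
  cases h with
  | r1 U p q V Z ho hp | r2 U p q V Z ho hp =>
    have hU : val ψ' U = val ψ U := ho.word fun l hl => fst_ne (by grind) (by grind)
    have hV : val ψ' V = val ψ V := ho.word fun l hl => fst_ne (by grind) (by grind)
    have hZ : val ψ' Z = val ψ Z := ho.word fun l hl => fst_ne (by grind) (by grind)
    have hq : Y ψ' q = Y ψ q := ho.single (fst_ne (by grind) (by grind))
    simp [hU, hV, hZ, hq, hp, mul_assoc]
  | l1 U p q V Z ho hp | l2 U p q V Z ho hp =>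
    have hU : val ψ' U = val ψ U := ho.word fun l hl => fst_ne (by grind) (by grind)
    have hV : val ψ' V = val ψ V := ho.word fun l hl => fst_ne (by grind) (by grind)
    have hZ : val ψ' Z = val ψ Z := ho.word fun l hl => fst_ne (by grind) (by grind)
    have hq : Y ψ' p = Y ψ p := ho.single (fst_ne (by grind) (by grind))
    simp [hU, hV, hZ, hq, hp, mul_assoc]

section transv
variable [DecidableEq α]

/-- `x ↦ u x v` -/
def tv (x : α) (u v : FreeGroup α) : FreeGroup α →* FreeGroup α :=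
  lift fun y => if y = x then u * of y * v else of y

lemma tv_self (x : α) (u v) : tv x u v (of x) = u * of x * v := by simp [tv]
lemma tv_ne {x y : α} (u v) (h : y ≠ x) : tv x u v (of y) = of y := by simp [tv, h]
lemma tv_single {x : α} (u v) {l : α × Bool} (h : l.1 ≠ x) : tv x u v (mk [l]) = mk [l] := by
  rw [mk_single]; split_ifs <;> simp [tv_ne _ _ h]

/-- the transvection as an automorphism -/
def tvE (x : α) (u v : FreeGroup α) (hu : ∀ u' v', tv x u' v' u = u) (hv : ∀ u' v', tv x u' v' v = v) :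
    MulAut (FreeGroup α) :=
  MonoidHom.toMulEquiv (tv x u v) (tv x u⁻¹ v⁻¹)
    (by
      ext y
      by_cases h : y = x
      · subst h; simp [tv_self, hu, hv, mul_assoc]
      · simp [tv_ne _ _ h])
    (by
      ext y
      by_cases h : y = x
      · subst h; simp [tv_self, hu, hv, mul_assoc]
      · simp [tv_ne _ _ h])

lemma exists_mulR (ψ : MulAut (FreeGroup α)) {p q : α × Bool} (h : q.1 ≠ p.1) :
    ∃ ψ' : MulAut (FreeGroup α), Off ψ ψ' p.1 ∧ Y ψ' p = Y ψ p * Y ψ q := by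
  unfold Y
  obtain ⟨x, b⟩ := p
  cases b
  · refine ⟨ψ * tvE x (mk [q])⁻¹ 1 (fun _ _ => by rw [map_inv, tv_single _ _ h])
      (fun _ _ => map_one _), fun y hy => ?_, ?_⟩
    · simp [tvE, tv_ne _ _ hy]
    · rw [mk_single (x, false)]; simp [tvE, tv_self]
  · refine ⟨ψ * tvE x 1 (mk [q]) (fun _ _ => map_one _) (fun _ _ => tv_single _ _ h),
      fun y hy => ?_, ?_⟩
    · simp [tvE, tv_ne _ _ hy]
    · rw [mk_single (x, true)]; simp [tvE, tv_self]

lemma exists_mulL (ψ : MulAut (FreeGroup α)) {p q : α × Bool} (h : p.1 ≠ q.1) :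
    ∃ ψ' : MulAut (FreeGroup α), Off ψ ψ' q.1 ∧ Y ψ' q = Y ψ p * Y ψ q := by
  obtain ⟨ψ', h1, h2⟩ := exists_mulR ψ (p := linv q) (q := linv p) h
  refine ⟨ψ', h1, ?_⟩
  simp only [Y_linv] at h2
  rw [← inv_inj, h2, mul_inv_rev]

end transv

lemma exists_stepR [DecidableEq α] (ψ : MulAut (FreeGroup α)) {A B : List (α × Bool)} {p q}
    (hW : Quad (A ++ p :: q :: B)) (h : q ≠ linv p) :
    ∃ ψ' W', Step ψ ψ' (A ++ p :: q :: B) W' ∧ Off ψ ψ' p.1 ∧
      Y ψ' p = Y ψ p * Y ψ q := by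
  have hn := hW.1
  obtain ⟨ψ', h1, h2⟩ := exists_mulR ψ (p := p) (q := q) (fst_ne (by grind) h)
  have hm := hW.2 (linv p)
  simp only [List.mem_append, List.mem_cons, linv_ne p, h.symm, false_or] at hm
  rcases hm with hm | hm
  · obtain ⟨U, V, rfl⟩ := List.append_of_mem hm
    exact ⟨ψ', _, by simpa using Step.r2 U p q V B h1 h2, h1, h2⟩
  · obtain ⟨V, Z, rfl⟩ := List.append_of_mem hm
    exact ⟨ψ', _, Step.r1 A p q V Z h1 h2, h1, h2⟩

lemma exists_stepL [DecidableEq α] (ψ : MulAut (FreeGroup α)) {A B : List (α × Bool)} {p q}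
    (hW : Quad (A ++ p :: q :: B)) (h : q ≠ linv p) :
    ∃ ψ' W', Step ψ ψ' (A ++ p :: q :: B) W' ∧ Off ψ ψ' q.1 ∧
      Y ψ' q = Y ψ p * Y ψ q := by
  have hn := hW.1
  have h' : linv q ≠ p := fun e => h (by rw [← e, linv_linv])
  obtain ⟨ψ', h1, h2⟩ := exists_mulL ψ (p := p) (q := q) (fst_ne (by grind) h'.symm)
  have hm := hW.2 (linv q)
  simp only [List.mem_append, List.mem_cons, linv_ne q, h', false_or] at hm
  rcases hm with hm | hm
  · obtain ⟨U, V, rfl⟩ := List.append_of_mem hm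
    exact ⟨ψ', _, by simpa using Step.l2 U p q V B h1 h2, h1, h2⟩
  · obtain ⟨V, Z, rfl⟩ := List.append_of_mem hm
    exact ⟨ψ', _, Step.l1 A p q V Z h1 h2, h1, h2⟩

end Pool.Agent.FP.Z
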