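import Pool.Agent.FP.GrpPush

/-! The product of all pushes around the vertex, the dual basis, and centralisers. -/

set_option linter.unusedSectionVars false
set_option linter.unusedSimpArgs false

namespace Pool.Agent.FP.Z
open FreeGroup hiding map_mul map_inv map_one

variable {α κ : Type*} [DecidableEq α] {G : Type*} [Group G]

lemma Y_one_true (x : α) : Y 1 (x, true) = of x := rfl
lemma Y_one_false (x : α) : Y 1 (x, false) = (of x)⁻¹ := Y_linv 1 (x, true)
lemma val_one (W : List (α × Bool)) : val 1 W = mk W := rfl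
lemma sw_append (x y : κ → α) (A B : List κ) : sw x y (A ++ B) = sw x y A ++ sw x y B := by
  simp [sw]

lemma mk_sw_cons (x y : κ → α) (i : κ) (B : List κ) : (mk (sw x y (i :: B)) : FreeGroup α) =
    of (x i) * of (y i) * (of (x i))⁻¹ * (of (y i))⁻¹ * mk (sw x y B) := by
  rw [mk_sw, mk_sw, List.map_cons, List.prod_cons]

variable {x y : κ → α}

lemma inj_x (hab : Function.Injective (Sum.elim x y)) {i j : κ} : x i = x j ↔ i = j :=
  ⟨fun e => Sum.inl_injective (hab (a₁ := .inl _) (a₂ := .inl _) e), fun e => e ▸ rfl⟩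
lemma inj_y (hab : Function.Injective (Sum.elim x y)) {i j : κ} : y i = y j ↔ i = j :=
  ⟨fun e => Sum.inr_injective (hab (a₁ := .inr _) (a₂ := .inr _) e), fun e => e ▸ rfl⟩
lemma x_ne_y (hab : Function.Injective (Sum.elim x y)) (i j : κ) : x i ≠ y j := fun e =>
  Sum.inl_ne_inr (hab (a₁ := .inl _) (a₂ := .inr _) e)

lemma suf_sw (hab : Function.Injective (Sum.elim x y)) {A B : List κ} {i : κ} (hi : i ∉ A) :
    suf 1 (sw x y (A ++ i :: B)) (x i, true) =
      of (y i) * ((of (x i))⁻¹ * ((of (y i))⁻¹ * mk (sw x y B))) ∧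
    suf 1 (sw x y (A ++ i :: B)) (y i, true) = (of (x i))⁻¹ * ((of (y i))⁻¹ * mk (sw x y B)) ∧
    suf 1 (sw x y (A ++ i :: B)) (x i, false) = (of (y i))⁻¹ * mk (sw x y B) ∧
    suf 1 (sw x y (A ++ i :: B)) (y i, false) = mk (sw x y B) := by
  have h1 : ∀ b, (x i, b) ∉ sw x y A := fun b h => by
    obtain ⟨j, hj, e | e⟩ := mem_sw.1 h
    · exact hi ((inj_x hab).1 e ▸ hj)
    · exact x_ne_y hab _ _ e
  have h2 : ∀ b, (y i, b) ∉ sw x y A := fun b h => by
    obtain ⟨j, hj, e | e⟩ := mem_sw.1 h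
    · exact x_ne_y hab _ _ e.symm
    · exact hi ((inj_y hab).1 e ▸ hj)
  have h3 := x_ne_y hab i i
  simp only [sw_append, suf_append_notMem _ _ (h1 _), suf_append_notMem _ _ (h2 _), sw_cons]
  simp [suf, h3, h3.symm, Y_one_true, Y_one_false, val_one]

variable {ι : FreeGroup α →* G} {a : G} {P : Subgroup (MulAut G)}

lemma omega_handle (hab : Function.Bijective (Sum.elim x y)) {A B : List κ} {i : κ}
    (hq : Quad (sw x y (A ++ i :: B))) (hi : i ∉ A)
    (h : AllPush ι a P 1 (sw x y (A ++ i :: B))) :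
    ∃ Ψ ∈ P, Ψ (ι (mk (sw x y (A ++ i :: B))) * a) = ι (mk (sw x y (A ++ i :: B))) * a ∧
      Ψ (cj ι a (mk (sw x y (i :: B)))) = cj ι a (mk (sw x y B)) ∧
      (∀ z, z = x i ∨ z = y i →
        Ψ (ι (of z)) = (cj ι a (mk (sw x y B)))⁻¹ * ι (of z) * cj ι a (mk (sw x y B))) ∧
      ∀ z, z ≠ x i → z ≠ y i → Ψ (ι (of z)) = ι (of z) := by
  obtain ⟨s1, s2, s3, s4⟩ := suf_sw hab.1 (B := B) hi
  obtain ⟨φ1, m1, h1⟩ := h (x i, false)
  obtain ⟨φ2, m2, h2⟩ := h (y i, true)
  obtain ⟨φ3, m3, h3⟩ := h (x i, true)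
  obtain ⟨φ4, m4, h4⟩ := h (y i, false)
  have hxy := x_ne_y hab.1 i i
  have k1 := h1.key hq
  have k2 := h2.key hq
  have k3 := h3.key hq
  have k4 := h4.key hq
  have e1 := h1.self
  have e2 := h2.self
  have e3 := h3.self
  have e4 := h4.self
  have o1 := h1.off (y i, true) hxy.symm
  have o2 := h2.off (x i, true) hxy
  have o3 := h3.off (y i, true) hxy.symm
  have o4 := h4.off (x i, true) hxy
  simp only [linv, Bool.not_true, Bool.not_false, s1, s2, s3, s4, Y_one_true, Y_one_false, inv_inv,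
    map_inv] at k1 k2 k3 k4 e1 e2 e3 e4 o1 o2 o3 o4
  rw [inv_eq_iff_eq_inv, mul_inv_rev, inv_inv] at e1 e4
  refine ⟨φ4 * φ3 * φ2 * φ1, mul_mem (mul_mem (mul_mem m4 m3) m2) m1, ?_, ?_, ?_, ?_⟩
  · simp only [MulAut.mul_apply]
    rw [← val_one, h1.bd, h2.bd, h3.bd, h4.bd]
  · have : (mk (sw x y (i :: B)) : FreeGroup α) =
        of (x i) * (of (y i) * ((of (x i))⁻¹ * ((of (y i))⁻¹ * mk (sw x y B)))) := by
      rw [mk_sw_cons]; simp only [mul_assoc]
    simp only [MulAut.mul_apply]
    rw [this, k1, k2, k3, k4]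
  · rintro z (rfl | rfl)
    · simp only [MulAut.mul_apply, e1, map_mul, map_inv, k2, o2, k3, e3, k4, o4, mul_assoc]
    · simp only [MulAut.mul_apply, o1, e2, map_mul, o3, k3, e4, k4]
  · intro z h5 h6
    simp only [MulAut.mul_apply]
    rw [← Y_one_true, h1.off _ h5, h2.off _ h6, h3.off _ h5, h4.off _ h6]

lemma omega_aux (hab : Function.Bijective (Sum.elim x y)) {L : List κ} (hL : L.Nodup)
    (hq : Quad (sw x y L)) (h : AllPush ι a P 1 (sw x y L)) : ∀ (B A : List κ), L = A ++ B →
    ∃ Ω ∈ P, Ω (ι (mk (sw x y L)) * a) = ι (mk (sw x y L)) * a ∧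
      Ω (cj ι a (mk (sw x y B))) = a ∧
      (∀ j ∈ B, ∀ z, z = x j ∨ z = y j → Ω (ι (of z)) = a⁻¹ * ι (of z) * a) ∧
      ∀ j ∉ B, ∀ z, z = x j ∨ z = y j → Ω (ι (of z)) = ι (of z)
  | [], A, _ => ⟨1, one_mem _, rfl, by simp [cj, mk_nil], by simp, fun _ _ _ _ => rfl⟩
  | i :: B, A, e => by
    obtain ⟨Ω, m1, b1, c1, d1, f1⟩ := omega_aux hab hL hq h B (A ++ [i]) (by simp [e])
    subst e
    have hi : i ∉ A ∧ i ∉ B := by grind
    obtain ⟨Ψ, m2, b2, c2, d2, f2⟩ := omega_handle hab hq hi.1 h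
    have hne : ∀ j, j ≠ i → ∀ z, z = x j ∨ z = y j → z ≠ x i ∧ z ≠ y i := by
      rintro j hj z (rfl | rfl)
      · exact ⟨fun e => hj ((inj_x hab.1).1 e), x_ne_y hab.1 _ _⟩
      · exact ⟨(x_ne_y hab.1 _ _).symm, fun e => hj ((inj_y hab.1).1 e)⟩
    refine ⟨Ω * Ψ, mul_mem m1 m2, by rw [MulAut.mul_apply, b2, b1],
      by rw [MulAut.mul_apply, c2, c1], fun j hj z hz => ?_, fun j hj z hz => ?_⟩
    · rw [MulAut.mul_apply]
      by_cases e : j = i
      · subst e
        rw [d2 z hz, map_mul, map_mul, map_inv, c1, f1 j hi.2 z hz]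
      · rw [f2 z (hne j e z hz).1 (hne j e z hz).2, d1 j (by simpa [e] using hj) z hz]
    · have e : j ≠ i := fun e => hj (by simp [e])
      rw [MulAut.mul_apply, f2 z (hne j e z hz).1 (hne j e z hz).2,
        f1 j (fun e => hj (by simp [e])) z hz]

/-- pushing the puncture once around the boundary -/
theorem omega (hab : Function.Bijective (Sum.elim x y)) {L : List κ} (hL : L.Nodup)
    (hL' : ∀ i, i ∈ L) (h : AllPush ι a P 1 (sw x y L)) :
    ∃ Ω ∈ P, Ω (ι (mk (sw x y L)) * a) = ι (mk (sw x y L)) * a ∧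
      ∀ w, Ω (ι w) = a⁻¹ * ι w * a := by
  obtain ⟨Ω, m, b, -, d, -⟩ := omega_aux hab hL (sw_quad hab hL hL') h L [] rfl
  refine ⟨Ω, m, b, fun w => ?_⟩
  induction w using FreeGroup.induction_on with
  | C1 => simp
  | of z =>
    obtain ⟨j | j, rfl⟩ := hab.2 z
    exacts [d j (hL' j) _ (.inl rfl), d j (hL' j) _ (.inr rfl)]
  | inv_of z ih => rw [map_inv, map_inv, ih]; group
  | mul u v hu hv => rw [map_mul, map_mul, hu, hv]; group

/-! ### the dual basis -/

/-- the loop along which the push across the generator `z` moves the puncture -/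
def dual (W : List (α × Bool)) (z : α) : FreeGroup α :=
  (suf 1 W (z, true))⁻¹ * (of z)⁻¹ * suf 1 W (z, false)

/-- the reversed product of twisted commutators -/
def rk (x y : κ → α) : List κ → FreeGroup α
  | [] => 1
  | i :: B => rk x y B * (of (x i) * of (y i) * (of (x i))⁻¹ * (of (y i))⁻¹)

/-- the part of a list after `i` -/
def aft [DecidableEq κ] (i : κ) : List κ → List κ
  | [] => []
  | j :: B => if i = j then B else aft i B

lemma aft_mid [DecidableEq κ] {i : κ} (B : List κ) : ∀ {A : List κ}, i ∉ A → aft i (A ++ i :: B) = B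
  | [], _ => by simp [aft]
  | j :: A, h => by
    have : i ≠ j := fun e => h (by simp [e])
    have h' : i ∉ A := fun e => h (by simp [e])
    simp [aft, this, aft_mid B h']

theorem dual_bij [DecidableEq κ] (hab : Function.Bijective (Sum.elim x y)) {L : List κ}
    (hL : L.Nodup) (hL' : ∀ i, i ∈ L) : Function.Bijective (lift (dual (sw x y L))) := by
  let e := Equiv.ofBijective _ hab
  have ex : ∀ i, e.symm (x i) = .inl i := fun i => e.symm_apply_apply (.inl i)
  have ey : ∀ i, e.symm (y i) = .inr i := fun i => e.symm_apply_apply (.inr i)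
  let ix : α → κ := fun z => (e.symm z).elim id id
  let C : FreeGroup α →* FreeGroup α :=
    lift fun z => (mk (sw x y (aft (ix z) L)))⁻¹ * of z * mk (sw x y (aft (ix z) L))
  let D : FreeGroup α →* FreeGroup α :=
    lift fun z => rk x y (aft (ix z) L) * of z * (rk x y (aft (ix z) L))⁻¹
  let y0 : FreeGroup α →* FreeGroup α := lift fun z => (e.symm z).elim
    (fun i => of (y i) * of (x i) * (of (y i))⁻¹ * (of (x i))⁻¹ * (of (y i))⁻¹)
    (fun i => of (y i) * of (x i) * (of (y i))⁻¹)
  let y1 : FreeGroup α →* FreeGroup α := lift fun z => (e.symm z).elim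
    (fun i => (of (y i))⁻¹ * of (x i) * of (y i) * (of (x i))⁻¹ * of (y i))
    (fun i => (of (y i))⁻¹ * (of (x i))⁻¹ * of (y i))
  have hCD : ∀ B A, L = A ++ B → D (mk (sw x y B)) = rk x y B ∧ C (rk x y B) = mk (sw x y B) := by
    intro B
    induction B with
    | nil => intro _ _; simp [mk_nil, rk]
    | cons i B ih =>
      intro A hA
      obtain ⟨i1, i2⟩ := ih (A ++ [i]) (by simp [hA])
      have hi : aft i L = B := by rw [hA] at hL ⊢; exact aft_mid _ (by grind)
      rw [mk_sw_cons, rk]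
      simp only [map_mul, map_inv, i1, i2]
      simp only [C, D, lift_apply_of, ix, ex, ey, Sum.elim_inl, Sum.elim_inr, id, hi]
      constructor <;> group
  have haft : ∀ i, D (mk (sw x y (aft i L))) = rk x y (aft i L) ∧
      C (rk x y (aft i L)) = mk (sw x y (aft i L)) := fun i => by
    obtain ⟨A, B, e⟩ := List.append_of_mem (hL' i)
    have hi : aft i L = B := by rw [e] at hL ⊢; exact aft_mid _ (by grind)
    rw [hi]; exact hCD B (A ++ [i]) (by simp [e])
  have b1 : Function.Bijective C := (MonoidHom.toMulEquiv C D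
    (by ext z; simp only [MonoidHom.comp_apply, C, lift_apply_of, map_mul, map_inv, (haft _).1]
        simp only [D, lift_apply_of, MonoidHom.id_apply]; group)
    (by ext z; simp only [MonoidHom.comp_apply, D, lift_apply_of, map_mul, map_inv, (haft _).2]
        simp only [C, lift_apply_of, MonoidHom.id_apply]; group)).bijective
  have b2 : Function.Bijective y0 := (MonoidHom.toMulEquiv y0 y1
    (by ext z; obtain ⟨i | i, rfl⟩ := hab.2 z <;> simp [y0, y1, ex, ey] <;> group)
    (by ext z; obtain ⟨i | i, rfl⟩ := hab.2 z <;> simp [y0, y1, ex, ey] <;> group)).bijective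
  have : lift (dual (sw x y L)) = C.comp y0 := by
    ext z
    have key : ∀ i, dual (sw x y L) (x i) = C (y0 (of (x i))) ∧
        dual (sw x y L) (y i) = C (y0 (of (y i))) := fun i => by
      obtain ⟨A, B, e⟩ := List.append_of_mem (hL' i)
      have hA : i ∉ A := by rw [e] at hL; grind
      have hi : aft i L = B := by rw [e]; exact aft_mid _ hA
      obtain ⟨s1, s2, s3, s4⟩ := suf_sw hab.1 (B := B) hA
      rw [← e] at s1 s2 s3 s4
      simp only [dual, s1, s2, s3, s4, y0, lift_apply_of, ex, ey, Sum.elim_inl, Sum.elim_inr,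
        map_mul, map_inv, C, ix, id, hi]
      constructor <;> group
    obtain ⟨i | i, rfl⟩ := hab.2 z
    exacts [by simpa using (key i).1, by simpa using (key i).2]
  rw [this]
  exact b1.comp b2

/-! ### centraliser of a generator -/

lemma mem_zpowers_of_commute (c : α) (w : FreeGroup α) (h : w * of c = of c * w) :
    w ∈ Subgroup.zpowers (of c : FreeGroup α) := by
  induction hn : w.toWord.length generalizing w with
  | zero => rw [toWord_eq_nil_iff.1 (List.length_eq_zero_iff.1 hn)]; exact one_mem _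
  | succ n ih =>
    obtain ⟨l, u, e⟩ := List.exists_cons_of_length_eq_add_one hn
    have hr : IsReduced (l :: u) := e ▸ isReduced_toWord
    have hu : IsReduced u := List.IsChain.right_of_append (l₁ := [l]) hr
    have hw : w = mk [l] * mk u := by rw [← mk_cons, ← e, mk_toWord]
    by_cases hl : l.1 = c
    · have hm : (mk [l] : FreeGroup α) ∈ Subgroup.zpowers (of c : FreeGroup α) := by
        rw [mk_single, hl]; split_ifs
        exacts [Subgroup.mem_zpowers _, inv_mem (Subgroup.mem_zpowers _)]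
      rw [hw]
      refine mul_mem hm (ih _ ?_ (by rw [toWord_mk, hu.reduce_eq]; simpa [e] using hn))
      obtain ⟨k, hk⟩ := hm
      have hc : Commute (mk [l] : FreeGroup α) (of c) := hk ▸ (Commute.refl _).zpow_left k
      rw [hw, mul_assoc, ← mul_assoc (of c), ← hc.eq, mul_assoc] at h
      exact mul_left_cancel h
    · exfalso
      have h1 : (of c * w).toWord = (c, true) :: l :: u := by
        rw [← mk_toWord (x := w), e, of, ← mk_cons, toWord_mk, IsReduced.reduce_eq]
        exact isReduced_cons_cons.2 ⟨fun e => absurd e.symm hl, hr⟩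
      have h2 := toWord_mul_sublist w (of c)
      rw [h, h1, e, toWord_of] at h2
      have h3 := h2.eq_of_length (by simp)
      simp only [List.cons_append, List.cons.injEq] at h3
      exact hl (h3.1 ▸ rfl)

lemma eq_one_of_central {c d : α} (hcd : c ≠ d) (w : FreeGroup α) (h : ∀ v, w * v = v * w) :
    w = 1 := by
  obtain ⟨i, hi⟩ := mem_zpowers_of_commute c w (h _)
  obtain ⟨j, hj⟩ := mem_zpowers_of_commute d w (h _)
  let f : FreeGroup α →* FreeGroup α := lift fun z => if z = c then of c else 1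
  have h1 : f w = w := by rw [← hi]; simp [f]
  have h2 : f w = 1 := by rw [← hj]; simp [f, hcd.symm]
  rw [← h1, h2]

end Pool.Agent.FP.Z
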