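import Pool.Agent.FP.GrpStd

/-! Point pushes are normalised by the stabiliser of the boundary word. -/

set_option linter.unusedSectionVars false
set_option linter.unusedSimpArgs false

namespace Pool.Agent.FP.Z
open FreeGroup hiding map_mul map_inv map_one

variable {α : Type*} [DecidableEq α] {G : Type*} [Group G]

/-- value of the part of `W` after the first occurrence of `l` -/
def suf (ψ : MulAut (FreeGroup α)) : List (α × Bool) → α × Bool → FreeGroup α
  | [], _ => 1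
  | x :: W, l => if l = x then val ψ W else suf ψ W l

@[simp] lemma suf_cons_self (ψ : MulAut (FreeGroup α)) (W l) : suf ψ (l :: W) l = val ψ W := by
  simp [suf]
lemma suf_cons_ne (ψ : MulAut (FreeGroup α)) (W) {l x} (h : l ≠ x) :
    suf ψ (x :: W) l = suf ψ W l := by simp [suf, h]
lemma suf_append_mem (ψ : MulAut (FreeGroup α)) (B) {l} :
    ∀ {A}, l ∈ A → suf ψ (A ++ B) l = suf ψ A l * val ψ B
  | x :: A, h => by
    by_cases e : l = x
    · subst e; simp
    · rw [List.cons_append, suf_cons_ne _ _ e, suf_cons_ne _ _ e,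
        suf_append_mem ψ B ((List.mem_cons.1 h).resolve_left e)]
lemma suf_append_notMem (ψ : MulAut (FreeGroup α)) (B) {l} :
    ∀ {A}, l ∉ A → suf ψ (A ++ B) l = suf ψ B l
  | [], _ => rfl
  | x :: A, h => by
    rw [List.cons_append, suf_cons_ne _ _ (fun e => h (by simp [e])),
      suf_append_notMem ψ B (fun e => h (by simp [e]))]
lemma suf_mid (ψ : MulAut (FreeGroup α)) {A : List (α × Bool)} (B) {l} (h : l ∉ A) :
    suf ψ (A ++ l :: B) l = val ψ B := by rw [suf_append_notMem _ _ h, suf_cons_self]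
lemma Off.suf {ψ ψ' : MulAut (FreeGroup α)} {x : α} (h : Off ψ ψ' x) (l) :
    ∀ {W : List (α × Bool)}, (∀ l ∈ W, l.1 ≠ x) → suf ψ' W l = suf ψ W l
  | [], _ => rfl
  | m :: W, hW => by
    simp only [Z.suf, h.word fun m hm => hW m (List.mem_cons_of_mem _ hm),
      Off.suf h l fun m hm => hW m (List.mem_cons_of_mem _ hm)]

variable (ι : FreeGroup α →* G) (a : G)

/-- the loop around the puncture reached along `w` -/
def cj (w : FreeGroup α) : G := ι w * a * (ι w)⁻¹

lemma cj_mul (u w : FreeGroup α) : cj ι a (u * w) = ι u * cj ι a w * (ι u)⁻¹ := by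
  simp [cj, mul_assoc]

/-- `φ` pushes the puncture across the side `l` of the polygon `(ψ, W)` -/
structure IsPush (ψ : MulAut (FreeGroup α)) (W : List (α × Bool)) (l : α × Bool)
    (φ : MulAut G) : Prop where
  bd : φ (ι (val ψ W) * a) = ι (val ψ W) * a
  self : φ (ι (Y ψ l)) = ι (Y ψ l) * cj ι a (suf ψ W l)
  off : ∀ m, m.1 ≠ l.1 → φ (ι (Y ψ m)) = ι (Y ψ m)

variable {ι a}

lemma IsPush.word {ψ W l φ} (h : IsPush ι a ψ W l φ) :
    ∀ {V : List (α × Bool)}, (∀ m ∈ V, m.1 ≠ l.1) → φ (ι (val ψ V)) = ι (val ψ V)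
  | [], _ => by simp
  | m :: V, hV => by
    rw [val_cons, map_mul, map_mul, h.off m (hV m (by simp)),
      IsPush.word h fun m hm => hV m (by simp [hm])]

lemma IsPush.key {ψ W l φ} (h : IsPush ι a ψ W l φ) (hW : Quad W) :
    φ (cj ι a ((Y ψ l)⁻¹ * suf ψ W (linv l))) = cj ι a (suf ψ W l) := by
  obtain ⟨A, B, rfl⟩ := List.append_of_mem (hW.2 l)
  have hn := hW.1
  have hm := hW.2 (linv l)
  have hl := linv_ne l
  simp only [List.mem_append, List.mem_cons, hl, false_or] at hm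
  have h1 := h.bd
  have h2 := h.self
  rcases hm with hm | hm
  · obtain ⟨U, V, rfl⟩ := List.append_of_mem hm
    have hU := h.word (V := U) fun l hl => fst_ne (by grind) (by grind)
    have hV := h.word (V := V) fun l hl => fst_ne (by grind) (by grind)
    have hZ := h.word (V := B) fun l hl => fst_ne (by grind) (by grind)
    have e1 : suf ψ (U ++ linv l :: V ++ l :: B) l = val ψ B := suf_mid _ _ (by grind)
    have e2 : suf ψ (U ++ linv l :: V ++ l :: B) (linv l) = val ψ (V ++ l :: B) := by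
      rw [List.append_assoc]; exact suf_mid _ _ (by grind)
    rw [e1] at h2
    rw [e1, e2]
    simp only [val_append, val_cons, Y_linv, map_mul, map_inv, hU, hV, hZ, h2, cj] at h1 ⊢
    rw [← eq_inv_mul_iff_mul_eq] at h1
    rw [h1]; group
  · obtain ⟨V, Z, rfl⟩ := List.append_of_mem hm
    have hU := h.word (V := A) fun l hl => fst_ne (by grind) (by grind)
    have hV := h.word (V := V) fun l hl => fst_ne (by grind) (by grind)
    have hZ := h.word (V := Z) fun l hl => fst_ne (by grind) (by grind)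
    have e1 : suf ψ (A ++ l :: (V ++ linv l :: Z)) l = val ψ (V ++ linv l :: Z) :=
      suf_mid _ _ (by grind)
    have e2 : suf ψ (A ++ l :: (V ++ linv l :: Z)) (linv l) = val ψ Z := by
      rw [← List.cons_append, ← List.append_assoc]; exact suf_mid _ _ (by grind)
    rw [e1] at h2
    rw [e1, e2]
    simp only [val_append, val_cons, Y_linv, map_mul, map_inv, hU, hV, hZ, h2, cj] at h1 ⊢
    rw [← eq_inv_mul_iff_mul_eq] at h1
    rw [h1]; group

lemma IsPush.inv {ψ W l φ} (h : IsPush ι a ψ W l φ) (hW : Quad W) :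
    IsPush ι a ψ W (linv l) φ⁻¹ := by
  refine ⟨?_, ?_, fun m hm => ?_⟩
  · rw [MulAut.inv_apply, MulEquiv.symm_apply_eq, h.bd]
  · have e : suf ψ W (linv l) = Y ψ l * ((Y ψ l)⁻¹ * suf ψ W (linv l)) := by group
    rw [MulAut.inv_apply, MulEquiv.symm_apply_eq, e, cj_mul]
    simp only [Y_linv, map_mul, map_inv, h.key hW, h.self]
    group
  · rw [MulAut.inv_apply, MulEquiv.symm_apply_eq, h.off m hm]

/-- all pushes of the polygon `(ψ, W)` lie in `P` -/
def AllPush (ι : FreeGroup α →* G) (a : G) (P : Subgroup (MulAut G))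
    (ψ : MulAut (FreeGroup α)) (W : List (α × Bool)) : Prop :=
  ∀ l, ∃ φ ∈ P, IsPush ι a ψ W l φ

variable {P : Subgroup (MulAut G)} {ψ ψ' : MulAut (FreeGroup α)} {W W' : List (α × Bool)}

lemma allPush_R {p q : α × Bool} (hW : Quad W) (hpq : q.1 ≠ p.1) (ho : Off ψ ψ' p.1)
    (hp : Y ψ' p = Y ψ p * Y ψ q) (hv : val ψ' W' = val ψ W)
    (s1 : ∀ l, l ≠ p → l ≠ q → suf ψ' W' l = suf ψ W l) (s2 : suf ψ' W' p = suf ψ W q)
    (s3 : suf ψ W p = Y ψ q * suf ψ W q) (s4 : suf ψ' W' q = (Y ψ' p)⁻¹ * suf ψ W (linv p))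
    (h : AllPush ι a P ψ' W') : AllPush ι a P ψ W := by
  have hq : Y ψ' q = Y ψ q := ho.single hpq
  have hp' : Y ψ p = Y ψ' p * (Y ψ' q)⁻¹ := by rw [hp, hq]; group
  -- the push across `p`
  obtain ⟨φ, hφ, h1⟩ := h p
  have H1 : IsPush ι a ψ W p φ := by
    refine ⟨hv ▸ h1.bd, ?_, fun m hm => ho.single hm ▸ h1.off m hm⟩
    rw [hp', map_mul, map_mul, map_inv, map_inv, h1.self, h1.off q hpq, s2, s3, cj_mul, hq]
    group
  -- the push across `q`
  obtain ⟨χ, hχ, h2⟩ := h q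
  have k1 : φ (ι (Y ψ q)) = ι (Y ψ q) := H1.off q hpq
  have k2 : φ (χ (ι (Y ψ q))) = ι (Y ψ q) * cj ι a (suf ψ W q) := by
    have e : (Y ψ' p)⁻¹ * suf ψ W (linv p) = (Y ψ q)⁻¹ * ((Y ψ p)⁻¹ * suf ψ W (linv p)) := by
      rw [hp]; group
    rw [← hq, h2.self, s4, e, cj_mul, hq, map_mul, map_mul, map_mul, H1.key hW]
    simp only [map_inv, k1, s3, cj_mul]
    group
  have H2 : IsPush ι a ψ W q (φ * χ) := by
    refine ⟨?_, k2, fun m hm => ?_⟩
    · rw [MulAut.mul_apply, ← hv, h2.bd, h1.bd]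
    · have k3 : φ (χ (ι (Y ψ p))) = ι (Y ψ p) := by
        rw [hp', map_mul, map_mul, map_inv, map_inv, map_mul, map_inv, h2.off p hpq.symm, h1.self,
          hq, k2, s2]
        group
      rw [MulAut.mul_apply]
      by_cases e : m.1 = p.1
      · rcases eq_or_linv e with rfl | rfl
        · exact k3
        · simp [k3]
      · rw [← ho.single e, h2.off m hm, h1.off m e]
  intro l
  by_cases e1 : l.1 = p.1
  · rcases eq_or_linv e1 with rfl | rfl
    exacts [⟨φ, hφ, H1⟩, ⟨φ⁻¹, inv_mem hφ, H1.inv hW⟩]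
  by_cases e2 : l.1 = q.1
  · rcases eq_or_linv e2 with rfl | rfl
    exacts [⟨_, mul_mem hφ hχ, H2⟩, ⟨_, inv_mem (mul_mem hφ hχ), H2.inv hW⟩]
  obtain ⟨θ, hθ, h3⟩ := h l
  refine ⟨θ, hθ, hv ▸ h3.bd, ?_, fun m hm => ?_⟩
  · rw [← ho.single e1, h3.self, s1 l (fun e => e1 (e ▸ rfl)) (fun e => e2 (e ▸ rfl))]
  · have k3 : θ (ι (Y ψ p)) = ι (Y ψ p) := by
      rw [hp', map_mul, map_mul, map_inv, map_inv, h3.off p (Ne.symm e1), h3.off q (Ne.symm e2)]
    by_cases e : m.1 = p.1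
    · rcases eq_or_linv e with rfl | rfl
      · exact k3
      · simp [k3]
    · rw [← ho.single e, h3.off m hm]

lemma allPush_L {p q : α × Bool} (hW : Quad W) (hpq : p.1 ≠ q.1) (ho : Off ψ ψ' q.1)
    (hp : Y ψ' q = Y ψ p * Y ψ q) (hv : val ψ' W' = val ψ W)
    (s1 : ∀ l, l ≠ p → l ≠ linv q → suf ψ' W' l = suf ψ W l)
    (s2 : suf ψ' W' p = suf ψ W (linv q)) (s3 : suf ψ W p = Y ψ q * suf ψ W q)
    (h : AllPush ι a P ψ' W') : AllPush ι a P ψ W := by
  have hq : Y ψ' p = Y ψ p := ho.single hpq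
  have hp' : Y ψ q = (Y ψ' p)⁻¹ * Y ψ' q := by rw [hp, hq]; group
  -- the push across `q`
  obtain ⟨φ, hφ, h1⟩ := h q
  have H1 : IsPush ι a ψ W q φ := by
    refine ⟨hv ▸ h1.bd, ?_, fun m hm => ho.single hm ▸ h1.off m hm⟩
    rw [hp', map_mul, map_mul, map_inv, map_inv, h1.self, h1.off p hpq,
      s1 q (fun e => hpq (e ▸ rfl)) (linv_ne q).symm]
    group
  -- the push across `p`
  obtain ⟨χ, hχ, h2⟩ := h p
  have k1 : φ (ι (Y ψ p)) = ι (Y ψ p) := H1.off p hpq
  have k2 : φ (χ (ι (Y ψ p))) = ι (Y ψ p) * cj ι a (suf ψ W p) := by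
    have e : suf ψ W (linv q) = Y ψ q * ((Y ψ q)⁻¹ * suf ψ W (linv q)) := by group
    rw [← hq, h2.self, s2, e, cj_mul, hq, map_mul, map_mul, map_mul, H1.key hW]
    simp only [map_inv, k1, s3, cj_mul, H1.self]
    group
  have H2 : IsPush ι a ψ W p (φ * χ) := by
    refine ⟨?_, k2, fun m hm => ?_⟩
    · rw [MulAut.mul_apply, ← hv, h2.bd, h1.bd]
    · have k3 : φ (χ (ι (Y ψ q))) = ι (Y ψ q) := by
        have k4 := H1.self
        conv_lhs => rw [hp', map_mul, map_mul, map_inv, map_inv, map_mul, map_inv,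
          h2.off q hpq.symm, hq, k2, hp, map_mul, map_mul, k1, k4, s3, cj_mul]
        group
      rw [MulAut.mul_apply]
      by_cases e : m.1 = q.1
      · rcases eq_or_linv e with rfl | rfl
        · exact k3
        · simp [k3]
      · rw [← ho.single e, h2.off m hm, h1.off m e]
  intro l
  by_cases e1 : l.1 = q.1
  · rcases eq_or_linv e1 with rfl | rfl
    exacts [⟨φ, hφ, H1⟩, ⟨φ⁻¹, inv_mem hφ, H1.inv hW⟩]
  by_cases e2 : l.1 = p.1
  · rcases eq_or_linv e2 with rfl | rfl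
    exacts [⟨_, mul_mem hφ hχ, H2⟩, ⟨_, inv_mem (mul_mem hφ hχ), H2.inv hW⟩]
  obtain ⟨θ, hθ, h3⟩ := h l
  refine ⟨θ, hθ, hv ▸ h3.bd, ?_, fun m hm => ?_⟩
  · rw [← ho.single e1, h3.self, s1 l (fun e => e2 (e ▸ rfl)) (fun e => e1 (e ▸ rfl))]
  · have k3 : θ (ι (Y ψ q)) = ι (Y ψ q) := by
      rw [hp', map_mul, map_mul, map_inv, map_inv, h3.off p (Ne.symm e2), h3.off q (Ne.symm e1)]
    by_cases e : m.1 = q.1
    · rcases eq_or_linv e with rfl | rfl
      · exact k3
      · simp [k3]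
    · rw [← ho.single e, h3.off m hm]

lemma allPush_step (hW : Quad W) (s : Step ψ ψ' W W') (h : AllPush ι a P ψ' W') :
    AllPush ι a P ψ W := by
  have hv := s.val_eq hW.1
  have hn := hW.1
  cases s with
  | r1 U p q V Z ho hp | r2 U p q V Z ho hp =>
    have fU : ∀ l ∈ U, l.1 ≠ p.1 := fun l hl => fst_ne (by grind) (by grind)
    have fV : ∀ l ∈ V, l.1 ≠ p.1 := fun l hl => fst_ne (by grind) (by grind)
    have fZ : ∀ l ∈ Z, l.1 ≠ p.1 := fun l hl => fst_ne (by grind) (by grind)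
    have fq : q.1 ≠ p.1 := fst_ne (by grind) (by grind)
    have hl := linv_ne p
    have n1 : p ∉ U ∧ p ∉ V ∧ q ∉ U ∧ q ∉ V ∧ linv p ∉ U ∧ linv p ∉ V ∧ p ≠ q ∧ linv p ≠ q := by
      grind
    obtain ⟨n1, n2, n3, n4, n5, n6, n7, n8⟩ := n1
    refine allPush_R hW fq ho hp hv (fun l l1 l2 => ?_) ?_ ?_ ?_ h
    · by_cases c1 : l ∈ U <;> by_cases c2 : l ∈ V <;>
        simp [suf, suf_append_mem, suf_append_notMem, c1, c2, l1, l2, ho.word fU, ho.word fV,
          ho.word fZ, ho.suf _ fU, ho.suf _ fV, ho.suf _ fZ, ho.single fq, hp, mul_assoc]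
    all_goals
      simp [suf, suf_append_notMem, n1, n2, n3, n4, n5, n6, n7, n8, n7.symm, n8.symm, hl, hl.symm,
        ho.word fU, ho.word fV, ho.word fZ, ho.single fq, hp, mul_assoc]
  | l1 U p q V Z ho hp | l2 U p q V Z ho hp =>
    have fU : ∀ l ∈ U, l.1 ≠ q.1 := fun l hl => fst_ne (by grind) (by grind)
    have fV : ∀ l ∈ V, l.1 ≠ q.1 := fun l hl => fst_ne (by grind) (by grind)
    have fZ : ∀ l ∈ Z, l.1 ≠ q.1 := fun l hl => fst_ne (by grind) (by grind)
    have fq : p.1 ≠ q.1 := fst_ne (by grind) (by grind)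
    have hl := linv_ne q
    have n1 : p ∉ U ∧ p ∉ V ∧ q ∉ U ∧ q ∉ V ∧ linv q ∉ U ∧ linv q ∉ V ∧ p ≠ q ∧ linv q ≠ p := by
      grind
    obtain ⟨n1, n2, n3, n4, n5, n6, n7, n8⟩ := n1
    refine allPush_L hW fq ho hp hv (fun l l1 l2 => ?_) ?_ ?_ h
    · by_cases c1 : l ∈ U <;> by_cases c2 : l ∈ V <;>
        simp [suf, suf_append_mem, suf_append_notMem, c1, c2, l1, l2, ho.word fU, ho.word fV,
          ho.word fZ, ho.suf _ fU, ho.suf _ fV, ho.suf _ fZ, ho.single fq, hp, mul_assoc]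
    all_goals
      simp [suf, suf_append_notMem, n1, n2, n3, n4, n5, n6, n7, n8, n7.symm, n8.symm, hl, hl.symm,
        ho.word fU, ho.word fV, ho.word fZ, ho.single fq, hp, mul_assoc]

lemma suf_map {W₀ : List (α × Bool)} {β : α × Bool → α × Bool} (hβ : Function.Injective β)
    (hY : ∀ l, Y ψ (β l) = Y ψ' l) (l) :
    val ψ (W₀.map β) = val ψ' W₀ ∧ suf ψ (W₀.map β) (β l) = suf ψ' W₀ l := by
  induction W₀ with
  | nil => simp [suf]
  | cons x W ih => simp [suf, ih, hY, hβ.eq_iff]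

lemma Y_one_inj {l m : α × Bool} (h : Y 1 l = Y 1 m) : l = m := by
  have := congrArg toWord h
  simpa [Y] using this

lemma allPush_base {W₀ : List (α × Bool)} (h0 : Quad W₀) (hW : Quad W)
    (e : W.map (Y ψ) = W₀.map (Y 1)) (h : AllPush ι a P 1 W₀) : AllPush ι a P ψ W := by
  have hl : W.length = W₀.length := by simpa using congrArg List.length e
  have hi : ∀ i (h1 : i < W.length) (h2 : i < W₀.length), Y ψ W[i] = Y 1 W₀[i] := fun i h1 h2 => by
    have := List.getElem_of_eq e (i := i) (by simpa using h1)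
    simpa using this
  have hY : ∀ {l m}, Y ψ l = Y ψ m → l = m := fun h => Y_one_inj (ψ.injective h)
  have : ∀ l, ∃ m, Y ψ m = Y 1 l := fun l => by
    obtain ⟨i, h2, rfl⟩ := List.getElem_of_mem (h0.2 l)
    exact ⟨_, hi i (hl ▸ h2) h2⟩
  choose β hβ using this
  have hinj : Function.Injective β := fun l m e => Y_one_inj (by rw [← hβ, e, hβ])
  have hWβ : W = W₀.map β := List.ext_getElem (by simp [hl]) fun i h1 h2 =>
    hY (by rw [List.getElem_map, hβ, hi])
  have hsurj : ∀ m, ∃ l, β l = m := fun m => by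
    have := hW.2 m
    rw [hWβ, List.mem_map] at this
    obtain ⟨l, -, e⟩ := this
    exact ⟨l, e⟩
  intro l
  obtain ⟨l, rfl⟩ := hsurj l
  obtain ⟨φ, hφ, h1⟩ := h l
  obtain ⟨v1, v2⟩ := suf_map (W₀ := W₀) hinj hβ l
  refine ⟨φ, hφ, ?_, ?_, fun m hm => ?_⟩
  · rw [hWβ, v1, h1.bd]
  · rw [hWβ, v2, hβ, h1.self]
  · obtain ⟨m, rfl⟩ := hsurj m
    rw [hβ]
    refine h1.off m fun e => hm ?_
    rcases eq_or_linv e with rfl | rfl
    · rfl
    · rw [hY (l := β (linv l)) (m := linv (β l)) (by simp [hβ])]; rfl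

/-- every automorphism fixing the boundary word has its pushes in `P` -/
theorem allPush_sw [Fintype α] {κ : Type*} [DecidableEq κ] {x y : κ → α}
    (hab : Function.Bijective (Sum.elim x y)) {L : List κ} (hL : L.Nodup) (hL' : ∀ i, i ∈ L)
    (h : AllPush ι a P 1 (sw x y L)) (ψ : MulAut (FreeGroup α))
    (hψ : ψ (mk (sw x y L)) = mk (sw x y L)) : AllPush ι a P ψ (sw x y L) :=
  zieschang_sw hab hL hL' (AllPush ι a P)
    (fun _ _ hW e => allPush_base (sw_quad hab hL hL') hW e h)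
    (fun _ _ _ _ hW _ s h' => allPush_step hW s h') ψ hψ

end Pool.Agent.FP.Z
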