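import Pool.Agent.FP.GrpZies

/-! The standard surface word satisfies the hypotheses of Zieschang's lemma. -/

set_option linter.unusedSectionVars false

namespace Pool.Agent.FP.Z
open FreeGroup hiding map_mul map_inv map_one

variable {α ι : Type*}

/-- the word `∏ a_i b_i a_i⁻¹ b_i⁻¹` over a list of indices -/
def sw (a b : ι → α) (L : List ι) : List (α × Bool) :=
  L.flatMap fun i => [(a i, true), (b i, true), (a i, false), (b i, false)]

@[simp] lemma sw_nil (a b : ι → α) : sw a b [] = [] := rfl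
@[simp] lemma sw_cons (a b : ι → α) (i L) : sw a b (i :: L) =
    (a i, true) :: (b i, true) :: (a i, false) :: (b i, false) :: sw a b L := rfl

lemma mk_sw (a b : ι → α) (L : List ι) :
    (mk (sw a b L) : FreeGroup α) = (L.map fun i => of (a i) * of (b i) * (of (a i))⁻¹ * (of (b i))⁻¹).prod := by
  induction L with
  | nil => rfl
  | cons i L ih =>
    rw [sw_cons, mk_cons, mk_cons _ (_ :: _), mk_cons _ (_ :: _), mk_cons _ (sw a b L), ih]
    simp [mk_single, mul_assoc]

lemma mem_sw {a b : ι → α} {L : List ι} {l : α × Bool} :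
    l ∈ sw a b L ↔ ∃ i ∈ L, l.1 = a i ∨ l.1 = b i := by
  obtain ⟨x, c⟩ := l
  cases c <;> simp [sw]

lemma sw_vertex (a b : ι → α) : ∀ (L : List ι) (p : ℕ → ℕ),
    (∀ i j (hi : i < (sw a b L).length) (hj : j < (sw a b L).length),
      (sw a b L)[j] = linv (sw a b L)[i] → p j = p (i + 1)) →
    ∀ j ≤ (sw a b L).length, p j = p 0
  | [], p, _, j, hj => by simp at hj; rw [hj]
  | k :: L, p, h, j, hj => by
    have h0 := h 0 2 (by simp) (by simp) rfl
    have h1 := h 1 3 (by simp) (by simp) rfl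
    have h2 := h 2 0 (by simp) (by simp) rfl
    have h3 := h 3 1 (by simp) (by simp) rfl
    have ih := sw_vertex a b L (fun j => p (j + 4)) fun i j hi hj e =>
      h (i + 4) (j + 4) (by simpa using hi) (by simpa using hj) e
    by_cases c : j < 4
    · interval_cases j <;> simp_all
    · obtain ⟨j, rfl⟩ : ∃ i, j = i + 4 := ⟨j - 4, by omega⟩
      have := ih j (by simpa using hj)
      simp_all

variable {a b : ι → α}

lemma sw_nodup (hab : Function.Injective (Sum.elim a b)) :
    ∀ {L : List ι}, L.Nodup → (sw a b L).Nodup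
  | [], _ => by simp
  | i :: L, h => by
    have ha : ∀ {i j}, a i = a j → i = j := fun e =>
      Sum.inl_injective (hab (a₁ := .inl _) (a₂ := .inl _) e)
    have hb : ∀ {i j}, b i = b j → i = j := fun e =>
      Sum.inr_injective (hab (a₁ := .inr _) (a₂ := .inr _) e)
    have hc : ∀ i j, a i ≠ b j := fun i j e =>
      Sum.inl_ne_inr (hab (a₁ := .inl _) (a₂ := .inr _) e)
    have ih := sw_nodup hab (List.nodup_cons.1 h).2
    have hi := (List.nodup_cons.1 h).1
    simp only [sw_cons, List.nodup_cons, List.mem_cons, mem_sw, ih]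
    grind

lemma sw_reduced (hab : Function.Injective (Sum.elim a b)) :
    ∀ {L : List ι}, L.Nodup → IsReduced (sw a b L)
  | [], _ => by simp
  | [i], _ => by
    have hc : ∀ i j, a i ≠ b j := fun i j e =>
      Sum.inl_ne_inr (hab (a₁ := .inl _) (a₂ := .inr _) e)
    simp [hc, (hc _ _).symm]
  | i :: j :: L, h => by
    have hc : ∀ i j, a i ≠ b j := fun i j e =>
      Sum.inl_ne_inr (hab (a₁ := .inl _) (a₂ := .inr _) e)
    have ih := sw_reduced hab (List.nodup_cons.1 h).2
    rw [sw_cons] at ih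
    simp only [sw_cons, isReduced_cons_cons] at ih ⊢
    simp [hc, (hc _ _).symm, ih]

lemma sw_quad (hab : Function.Bijective (Sum.elim a b)) {L : List ι} (hL : L.Nodup)
    (hL' : ∀ i, i ∈ L) : Quad (sw a b L) := by
  refine ⟨sw_nodup hab.1 hL, fun l => mem_sw.2 ?_⟩
  obtain ⟨i | i, e⟩ := hab.2 l.1
  · exact ⟨i, hL' i, .inl e.symm⟩
  · exact ⟨i, hL' i, .inr e.symm⟩

/-- the integral Heisenberg group -/
@[ext] structure Heis where
  x : ℤ
  y : ℤ
  z : ℤ

instance : Mul Heis := ⟨fun u v => ⟨u.x + v.x, u.y + v.y, u.z + v.z + u.x * v.y⟩⟩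
instance : One Heis := ⟨⟨0, 0, 0⟩⟩
instance : Inv Heis := ⟨fun u => ⟨-u.x, -u.y, -u.z + u.x * u.y⟩⟩
@[simp] lemma Heis.mul_x (u v : Heis) : (u * v).x = u.x + v.x := rfl
@[simp] lemma Heis.mul_y (u v : Heis) : (u * v).y = u.y + v.y := rfl
@[simp] lemma Heis.mul_z (u v : Heis) : (u * v).z = u.z + v.z + u.x * v.y := rfl
@[simp] lemma Heis.one_x : (1 : Heis).x = 0 := rfl
@[simp] lemma Heis.one_y : (1 : Heis).y = 0 := rfl
@[simp] lemma Heis.one_z : (1 : Heis).z = 0 := rfl
@[simp] lemma Heis.inv_x (u : Heis) : u⁻¹.x = -u.x := rfl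
@[simp] lemma Heis.inv_y (u : Heis) : u⁻¹.y = -u.y := rfl
@[simp] lemma Heis.inv_z (u : Heis) : u⁻¹.z = -u.z + u.x * u.y := rfl
instance : Group Heis := Group.ofLeftAxioms (fun _ _ _ => by ext <;> simp <;> ring)
  (fun _ => by ext <;> simp) (fun _ => by ext <;> simp)

lemma heis_sw (Θ : FreeGroup α →* Heis) (L : List ι) :
    Θ (mk (sw a b L)) = ⟨0, 0, (L.map fun i => (Θ (of (a i))).x * (Θ (of (b i))).y -
      (Θ (of (b i))).x * (Θ (of (a i))).y).sum⟩ := by
  rw [mk_sw]
  induction L with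
  | nil => exact map_one Θ
  | cons i L ih =>
    rw [List.map_cons, List.prod_cons, map_mul, ih]
    ext <;> simp
    ring

lemma sw_nondeg [DecidableEq α] [DecidableEq ι] (hab : Function.Bijective (Sum.elim a b))
    {L : List ι} (hL : L.Nodup) (hL' : ∀ i, i ∈ L) (ψ : MulAut (FreeGroup α)) (x : α)
    (W : List (α × Bool)) (hW : ∀ l ∈ W, l.1 ≠ x) : val ψ W ≠ mk (sw a b L) := by
  intro e
  -- a family of homomorphisms whose first coordinate is the exponent of `ψ x`
  let Θ : (α → ℤ) → FreeGroup α →* Heis := fun h =>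
    (lift fun y => (⟨if y = x then 1 else 0, h y, 0⟩ : Heis)).comp ψ.symm.toMonoidHom
  have hΘ : ∀ h y, Θ h (ψ (of y)) = ⟨if y = x then 1 else 0, h y, 0⟩ := fun h y => by simp [Θ]
  have hz : ∀ h, (Θ h (val ψ W)).z = 0 := fun h => by
    suffices (Θ h (val ψ W)).x = 0 ∧ (Θ h (val ψ W)).z = 0 from this.2
    clear e
    induction W with
    | nil => simp
    | cons l W ih =>
      obtain ⟨i1, i2⟩ := ih fun m hm => hW m (by simp [hm])
      have hl := hW l (by simp)
      rw [val_cons, map_mul, Y_eq]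
      split_ifs <;> simp [hΘ, hl, i1, i2]
  -- the first coordinate does not depend on `h`
  have hx : ∀ h w, (Θ h w).x = (Θ 0 w).x := fun h w => by
    obtain ⟨w, rfl⟩ := ψ.surjective w
    induction w using FreeGroup.induction_on with
    | C1 => simp
    | of y => simp [hΘ]
    | inv_of y ih => simp [hΘ]
    | mul u v hu hv => simp [hu, hv]
  -- the second coordinate can be any character
  have hy : ∀ c : α, ∃ h, ∀ y, (Θ h (of y)).y = if y = c then 1 else 0 := fun c => by
    let χ : FreeGroup α →* Heis := lift fun y => (⟨0, if y = c then 1 else 0, 0⟩ : Heis)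
    have : ∀ w, (Θ (fun y => (χ (ψ (of y))).y) w).y = (χ w).y := fun w => by
      obtain ⟨w, rfl⟩ := ψ.surjective w
      induction w using FreeGroup.induction_on with
      | C1 => simp
      | of y => simp [hΘ]
      | inv_of y ih => simp [hΘ]
      | mul u v hu hv => simp [hu, hv]
    exact ⟨_, fun y => by rw [this]; simp [χ]⟩
  have ha : ∀ {i j}, a i = a j ↔ i = j := ⟨fun e =>
    Sum.inl_injective (hab.1 (a₁ := .inl _) (a₂ := .inl _) e), fun e => e ▸ rfl⟩
  have hb : ∀ {i j}, b i = b j ↔ i = j := ⟨fun e =>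
    Sum.inr_injective (hab.1 (a₁ := .inr _) (a₂ := .inr _) e), fun e => e ▸ rfl⟩
  have hc : ∀ i j, a i ≠ b j := fun i j e =>
    Sum.inl_ne_inr (hab.1 (a₁ := .inl _) (a₂ := .inr _) e)
  have hsum : ∀ (f : ι → ℤ) (k : ι), (L.map fun i => f i * if i = k then 1 else 0).sum = f k :=
    fun f k => by
      rw [← List.sum_toFinset _ hL]
      simp [hL' k]
  have h0 : ∀ y, (Θ 0 (of y)).x = 0 := fun y => by
    obtain ⟨k | k, rfl⟩ := hab.2 y
    · obtain ⟨h, hh⟩ := hy (b k)
      have := hz h
      rw [e, heis_sw] at this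
      simp only [hh, hx h, hb, hc, if_false, mul_zero, sub_zero, hsum] at this
      exact this
    · obtain ⟨h, hh⟩ := hy (a k)
      have := hz h
      rw [e, heis_sw] at this
      simp only [hh, hx h, ha, (hc _ _).symm, if_false, mul_zero, zero_sub, ← neg_mul,
        hsum, neg_eq_zero] at this
      exact this
  have h1 : ∀ w, (Θ 0 w).x = 0 := fun w => by
    induction w using FreeGroup.induction_on with
    | C1 => simp
    | of y => exact h0 y
    | inv_of y ih => simp [ih]
    | mul u v hu hv => simp [hu, hv]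
  have := h1 (ψ (of x))
  simp [hΘ] at this

/-- Zieschang's lemma for the standard surface word. -/
theorem zieschang_sw [Fintype α] [DecidableEq α] [DecidableEq ι]
    (hab : Function.Bijective (Sum.elim a b)) {L : List ι} (hL : L.Nodup) (hL' : ∀ i, i ∈ L)
    (Φ : MulAut (FreeGroup α) → List (α × Bool) → Prop)
    (base : ∀ ψ W, Quad W → W.map (Y ψ) = (sw a b L).map (Y 1) → Φ ψ W)
    (step : ∀ ψ ψ' W W', Quad W → val ψ W = mk (sw a b L) → Step ψ ψ' W W' → Φ ψ' W' → Φ ψ W)
    (ψ : MulAut (FreeGroup α)) (hψ : ψ (mk (sw a b L)) = mk (sw a b L)) : Φ ψ (sw a b L) :=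
  zieschang (sw_quad hab hL hL') (sw_reduced hab.1 hL)
    (fun p _ h h0 j hj => (sw_vertex a b L p h j hj).trans h0) (sw_nondeg hab hL hL')
    Φ base step ψ _ (sw_quad hab hL hL') hψ

end Pool.Agent.FP.Z
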