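import Pool.Agent.FP.GrpMeas

/-! The terminal state and the induction principle. -/

set_option linter.unusedSectionVars false

namespace Pool.Agent.FP.Z
open FreeGroup hiding map_mul map_inv map_one

variable {α : Type*}

section measure
variable [Fintype α] [DecidableEq α]

/-! ### the terminal state -/

lemma flatten_singletons {β : Type*} : ∀ (L : List (List β)), (∀ m ∈ L, m ≠ []) →
    L.length ≤ L.flatten.length ∧
      (L.flatten.length = L.length → L = L.flatten.map fun x => [x])
  | [], _ => by simp
  | m :: L, h => by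
    obtain ⟨h1, h2⟩ := flatten_singletons L fun m' hm => h m' (by simp [hm])
    have h3 : 0 < m.length := List.length_pos_iff.2 (h m (by simp))
    simp only [List.flatten_cons, List.length_append, List.length_cons]
    refine ⟨by omega, fun e => ?_⟩
    obtain ⟨x, rfl⟩ := List.length_eq_one_iff.1 (show m.length = 1 by omega)
    rw [List.map_append, ← h2 (by simp only [List.length_singleton] at e; omega)]
    rfl

lemma terminal {n : ℕ} {y P : ℕ → List (α × Bool)} {W₀ : List (α × Bool)} (hW : IsReduced W₀)
    (hn : W₀.length = n) (h0 : P 0 = []) (h1 : P n = [])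
    (hr : ∀ j < n, IsReduced (y j)) (hne : ∀ j < n, y j ≠ [])
    (hN : ∀ j, j + 1 < n → Nice (y j) (y (j + 1)) (P (j + 1)))
    (hprod : ((List.range n).map fun j => (mk (y j) : FreeGroup α)).prod = mk W₀) :
    (∀ j (hj : j < n), y j = P j ++ W₀[j] :: invRev (P (j + 1))) ∧
    ∀ i < n, ∀ j < n, y j = invRev (y i) → (P j).length = (P (i + 1)).length := by
  have hA : ∀ j < n, ∃ v', y j = P j ++ v' ∧ (P j).length ≤ v'.length ∧
      ((P j).length = v'.length → hf (y j) < hf (invRev (y j))) := by
    intro j hj
    rcases j with _ | j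
    · refine ⟨y 0, by simp [h0], by simp [h0], fun e => absurd ?_ (hne 0 hj)⟩
      rw [h0] at e; exact List.length_eq_zero_iff.1 e.symm
    · obtain ⟨u', v', -, e2, -, -, h3, -, h4⟩ := hN j hj
      exact ⟨v', e2, h3, h4⟩
  have hB : ∀ j < n, ∃ u', y j = u' ++ invRev (P (j + 1)) ∧ (P (j + 1)).length ≤ u'.length ∧
      ((P (j + 1)).length = u'.length → hf (invRev (y j)) < hf (y j)) := by
    intro j hj
    by_cases e : j + 1 = n
    · refine ⟨y j, by simp [e, h1], by simp [e, h1], fun e' => absurd ?_ (hne j hj)⟩
      rw [e, h1] at e'; exact List.length_eq_zero_iff.1 e'.symm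
    · obtain ⟨u', v', e1, -, -, h3, -, h4, -⟩ := hN j (by omega)
      exact ⟨u', e1, h3, h4⟩
  have hM : ∀ j, ∃ m, j < n → y j = P j ++ m ++ invRev (P (j + 1)) ∧ m ≠ [] := by
    intro j
    by_cases hj : j < n
    swap
    · exact ⟨[], fun h => absurd h hj⟩
    obtain ⟨v', a1, a2, a3⟩ := hA j hj
    obtain ⟨u', b1, b2, b3⟩ := hB j hj
    have hl := congrArg List.length (a1.symm.trans b1)
    simp only [List.length_append, invRev_length] at hl
    have hlt : (P j).length < u'.length := by
      by_contra hc
      have := a3 (by omega)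
      have := b3 (by omega)
      omega
    rcases List.append_eq_append_iff.1 (a1.symm.trans b1) with ⟨m, c1, c2⟩ | ⟨m, c1, c2⟩
    · refine ⟨m, fun _ => ⟨by rw [b1, c1], ?_⟩⟩
      rintro rfl; simp [c1] at hlt
    · rw [c1] at hlt; simp at hlt
  choose m hm using hM
  have hmm : ∀ j, j + 1 < n → IsReduced (m j ++ m (j + 1)) := by
    intro j hj
    obtain ⟨u', v', e1, e2, h3, -⟩ := hN j hj
    have c1 : u' = P j ++ m j := List.append_cancel_right (e1.symm.trans (hm j (by omega)).1)
    have c2 : v' = m (j + 1) ++ invRev (P (j + 2)) :=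
      List.append_cancel_left (e2.symm.trans (by rw [(hm (j + 1) hj).1, List.append_assoc]))
    refine red_mid (A := P j) (C := invRev (P (j + 2))) ?_
    simpa [c1, c2] using h3
  have hred : ∀ k, k < n → IsReduced (((List.range k).map m).flatten ++ m k) := by
    intro k
    induction k with
    | zero =>
      intro hk
      have := hr 0 hk
      rw [(hm 0 hk).1] at this
      simpa using red_mid this
    | succ k ih =>
      intro hk
      have := IsReduced.append_overlap (ih (by omega)) (hmm k hk) (hm k (by omega)).2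
      simpa [List.range_succ] using this
  have hpr : ∀ k, k ≤ n → ((List.range k).map fun j => (mk (y j) : FreeGroup α)).prod =
      mk ((List.range k).map m).flatten * (mk (P k))⁻¹ := by
    intro k
    induction k with
    | zero => intro _; simp [h0, mk_nil]
    | succ k ih =>
      intro hk
      rw [List.range_succ, List.map_append, List.prod_append, ih (by omega), List.map_append,
        List.flatten_append, ← mul_mk]
      simp only [List.map_cons, List.map_nil, List.prod_cons, List.prod_nil, mul_one,
        List.flatten_cons, List.flatten_nil, List.append_nil]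
      rw [(hm k hk).1, ← mul_mk, ← mul_mk, ← inv_mk]
      group
  have hfl : ((List.range n).map m).flatten = W₀ := by
    have e := hpr n le_rfl
    rw [hprod, h1, mk_nil, inv_one, mul_one] at e
    have hr' : IsReduced ((List.range n).map m).flatten := by
      rcases n with _ | n
      · simp
      · simpa [List.range_succ] using hred n (by omega)
    have := congrArg toWord e
    rw [toWord_mk, toWord_mk, hW.reduce_eq, hr'.reduce_eq] at this
    exact this.symm
  have hs := (flatten_singletons ((List.range n).map m) (by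
    intro x hx
    obtain ⟨j, hj, rfl⟩ := List.mem_map.1 hx
    exact (hm j (List.mem_range.1 hj)).2)).2 (by simp [hfl, hn])
  rw [hfl] at hs
  have hy : ∀ j (hj : j < n), y j = P j ++ W₀[j] :: invRev (P (j + 1)) := by
    intro j hj
    have : m j = [W₀[j]] := by
      have := List.getElem_of_eq hs (i := j) (by simpa using hj)
      simpa using this
    rw [(hm j hj).1, this]; simp
  refine ⟨hy, fun i hi j hj e => ?_⟩
  obtain ⟨v, a1, a2, a3⟩ := hA i hi
  obtain ⟨u, b1, b2, b3⟩ := hB i hi
  obtain ⟨v', c1, c2, c3⟩ := hA j hj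
  obtain ⟨u', d1, d2, d3⟩ := hB j hj
  have l1 := congrArg List.length (hy i hi)
  have l2 := congrArg List.length (hy j hj)
  have l3 := congrArg List.length e
  have l4 := congrArg List.length a1
  have l5 := congrArg List.length b1
  have l6 := congrArg List.length c1
  have l7 := congrArg List.length d1
  simp only [List.length_append, List.length_cons, invRev_length] at l1 l2 l3 l4 l5 l6 l7
  rw [e, invRev_invRev] at c3 d3
  omega

/-- **Zieschang's lemma**: every quadratic presentation of the boundary word by a basis is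
connected to the standard one by elementary moves. -/
theorem zieschang {W₀ : List (α × Bool)} (hq : Quad W₀) (hred : IsReduced W₀)
    (hv : ∀ p : ℕ → ℕ, p W₀.length = 0 →
      (∀ i j (hi : i < W₀.length) (hj : j < W₀.length), W₀[j] = linv W₀[i] → p j = p (i + 1)) →
      p 0 = 0 → ∀ j ≤ W₀.length, p j = 0)
    (hnd : ∀ (ψ : MulAut (FreeGroup α)) (x : α) (W : List (α × Bool)), (∀ l ∈ W, l.1 ≠ x) →
      val ψ W ≠ mk W₀)
    (Φ : MulAut (FreeGroup α) → List (α × Bool) → Prop)
    (base : ∀ ψ W, Quad W → W.map (Y ψ) = W₀.map (Y 1) → Φ ψ W)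
    (step : ∀ ψ ψ' W W', Quad W → val ψ W = mk W₀ → Step ψ ψ' W W' → Φ ψ' W' → Φ ψ W)
    (ψ : MulAut (FreeGroup α)) (W : List (α × Bool)) (hW : Quad W) (hψ : val ψ W = mk W₀) :
    Φ ψ W := by
  have wf : WellFounded (InvImage (Prod.Lex (· < ·) (· < ·)) (meas (α := α))) :=
    InvImage.wf _ (WellFounded.prod_lex wellFounded_lt wellFounded_lt)
  induction ψ using wf.induction generalizing W with
  | _ ψ ih =>
  have hY : ∀ l, Y ψ l ≠ 1 := fun l e => by
    rw [Y, map_eq_one_iff _ ψ.injective, mk_single] at e
    split_ifs at e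
    · exact of_ne_one _ e
    · exact of_ne_one _ (inv_eq_one.1 e)
  by_cases hc : ∀ A p q B, W = A ++ p :: q :: B → ∃ P, Nice (Y ψ p).toWord (Y ψ q).toWord P
  swap
  · push Not at hc
    obtain ⟨A, p, q, B, rfl, hc⟩ := hc
    have hpq : q ≠ linv p := by
      rintro rfl
      have hn := hW.1
      refine hnd ψ p.1 (A ++ B) (fun l hl => fst_ne (by grind) (by grind)) ?_
      simpa using hψ
    rcases nice_or (hY p) (hY q) with ⟨P, h⟩ | h | h
    · exact absurd h (hc P)
    · obtain ⟨ψ', W', s, ho, e⟩ := exists_stepR ψ hW hpq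
      exact step ψ ψ' _ W' hW hψ s
        (ih ψ' (meas_lt ho (e ▸ h)) W' (s.quad hW) ((s.val_eq hW.1).trans hψ))
    · obtain ⟨ψ', W', s, ho, e⟩ := exists_stepL ψ hW hpq
      exact step ψ ψ' _ W' hW hψ s
        (ih ψ' (meas_lt ho (e ▸ h)) W' (s.quad hW) ((s.val_eq hW.1).trans hψ))
  have hlen : W₀.length = W.length :=
    ((List.perm_ext_iff_of_nodup hq.1 hW.1).2 fun l => by simp [hq.2 l, hW.2 l]).length_eq
  set n := W.length with hn
  let y : ℕ → List (α × Bool) := fun j => if h : j < n then (Y ψ W[j]).toWord else []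
  have hy : ∀ j (h : j < n), y j = (Y ψ W[j]).toWord := fun j h => dif_pos h
  have hP : ∀ j, ∃ P, (j = 0 → P = []) ∧ (j = n → P = []) ∧
      ∀ i, j = i + 1 → j < n → Nice (y i) (y j) P := by
    intro j
    by_cases h : 0 < j ∧ j < n
    swap
    · exact ⟨[], fun _ => rfl, fun _ => rfl, fun i e hj => absurd ⟨by omega, hj⟩ h⟩
    obtain ⟨i, rfl⟩ : ∃ i, j = i + 1 := ⟨j - 1, by omega⟩
    obtain ⟨P, hP⟩ := hc (W.take i) (W[i]'(by omega)) (W[i + 1]'h.2) (W.drop (i + 2)) (by
      rw [← List.drop_eq_getElem_cons, ← List.drop_eq_getElem_cons, List.take_append_drop])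
    refine ⟨P, by omega, by omega, fun i' e _ => ?_⟩
    obtain rfl : i = i' := by omega
    rwa [hy i (by omega), hy (i + 1) h.2]
  choose P hP0 hPn hPN using hP
  obtain ⟨t1, t2⟩ := terminal (n := n) (y := y) (P := P) hred hlen (hP0 0 rfl) (hPn n rfl)
    (fun j hj => hy j hj ▸ isReduced_toWord)
    (fun j hj => by rw [hy j hj, Ne, toWord_eq_nil_iff]; exact hY _)
    (fun j hj => hPN (j + 1) j rfl hj) (by
      rw [← hψ]
      have : ∀ V : List (α × Bool), val ψ V = (V.map (Y ψ)).prod := fun V => by
        induction V <;> simp [*]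
      rw [this]
      congr 1
      refine List.ext_getElem (by simp [hn]) fun i h1 h2 => ?_
      have : i < n := by simpa using h1
      simp [hy i this, mk_toWord])
  have hz : ∀ j ≤ W₀.length, (P j).length = 0 := by
    refine hv (fun j => (P j).length) (by simp [hlen, hPn n rfl]) (fun i j hi hj e => ?_)
      (by simp [hP0 0 rfl])
    obtain ⟨j', hj', e'⟩ := List.getElem_of_mem (hW.2 (linv (W[i]'(by omega))))
    have e1 : y j' = invRev (y i) := by
      rw [hy j' hj', hy i (by omega), e', Y_linv, toWord_inv]
    have e2 := t2 i (by omega) j' hj' e1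
    have e3 : W₀[j'] = linv W₀[i] := by
      rw [t1 j' hj', t1 i (by omega), invRev_append, invRev_cons, invRev_invRev, invRev_single,
        List.append_assoc] at e1
      have := (List.append_inj e1 e2).2
      simp only [List.cons_append, List.cons.injEq] at this
      exact this.1
    have : j = j' := (List.Nodup.getElem_inj_iff hq.1).1 (e.trans e3.symm)
    rw [this]; exact e2
  refine base ψ W hW (List.ext_getElem (by simp [hlen, hn]) fun i h1 h2 => ?_)
  have hi : i < n := by simpa using h1
  have := t1 i hi
  rw [hy i hi, List.length_eq_zero_iff.1 (hz i (by omega)),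
    List.length_eq_zero_iff.1 (hz (i + 1) (by omega))] at this
  simp only [List.getElem_map]
  rw [← mk_toWord (x := Y ψ _), this]
  simp [Y]

end measure

end Pool.Agent.FP.Z
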