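import Pool.Agent.FP.Co5b

/-! The Gysin sequence of an extension with infinite cyclic kernel. -/

namespace Pool.Agent.FP

variable {S B : Type} [Group S] [Group B]

theorem gys_eq_zero {X : Type} {f : List X → ℚ} (z : f [] = 0) (h : Len 0 f) : f = 0 := by
  funext l
  cases l with
  | nil => exact z
  | cons x l => exact h _ (by simp)

theorem gys_len_cup {X : Type} {a m : ℕ} {f h : List X → ℚ} (hf : Len (a + 1) f) (hh : Len m h)
    (z : h [] = 0) : Len (m + a) (cupm (LinearMap.lsmul ℚ ℚ) f h) := by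
  cases m with
  | zero =>
    rw [gys_eq_zero z hh, map_zero]
    exact Len.zero _
  | succ b =>
    have e : b + 1 + a = a + b + 1 := by omega
    rw [e]
    exact hf.cupm hh _

theorem gys_cup_cst {X : Type} {f : List X → ℚ} (z : f [] = 0) (c : ℚ) :
    cupm (LinearMap.lsmul ℚ ℚ) f (cst c) = c • f := by
  rw [cupm_cst_right _ z]
  funext l
  simp [mul_comm]

theorem gys_dd_cone {X : Type} (x : X) {f : List X → ℚ} (z : f [] = 0) (hd : dd f = 0)
    (hx : f [x] = 0) : dd (cone x f) = f := by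
  have h := dd_cone x z hd
  rwa [hx, cst_zero, add_zero] at h

theorem gys_pl_mem {N : Type} [Group N] (q : S →* B) (j : N →* S) (hq : ∀ u, q (j u) = 1)
    {u : List B → ℚ} (z : u [] = 0) : pl q u ∈ CoN j ℚ :=
  ⟨z, fun g l => by simp [List.map_map, Function.comp_def, hq]⟩

theorem gys_mem_of_co {N : Type} [Group N] (j : N →* S) {φ : List S → ℚ}
    (hφ : φ ∈ Co (triv S ℚ)) : φ ∈ CoN j ℚ :=
  ⟨hφ.1, fun g l => hφ.2 (j g) l⟩

theorem gys_cup_mem {N : Type} [Group N] (j : N →* S) {f h : List S → ℚ} (hf : f ∈ CoN j ℚ)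
    (hh : h ∈ CoN j ℚ) : cupm (LinearMap.lsmul ℚ ℚ) f h ∈ CoN j ℚ :=
  ⟨cupm_nil _ _ _, fun g l => by
    rw [cupm_apply, cupm_apply, List.length_map]
    refine Finset.sum_congr rfl fun i _ => ?_
    rw [← List.map_take, ← List.map_drop, hf.2, hh.2]⟩

theorem gys_res_mem {N : Type} [Group N] {j : N →* S} {γ : List S → ℚ} (hγ : γ ∈ CoN j ℚ)
    (hd : dd γ = 0) : pl j γ ∈ Zc (triv N ℚ) :=
  mem_Zc.2 ⟨pl_mem_Co_of_CoN hγ, by rw [dd_pl, hd, map_zero]⟩

/-- A closed cochain of degree one that vanishes on the generator is exact. -/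
theorem gys_one (j : FreeGroup Unit →* S) (hj : Function.Injective j) {γ : List S → ℚ}
    (hγ : γ ∈ CoN j ℚ) (hl : Len 2 γ) (hd : dd γ = 0) (h0 : γ [1, j (FreeGroup.of ())] = 0) :
    ∃ δ ∈ CoN j ℚ, Len 1 δ ∧ dd δ = γ := by
  refine res_abs j hj hγ hd hl ?_
  obtain ⟨h1, h2⟩ := cross_of_mem_Zc (gys_res_mem hγ hd) (hl.pl j)
  have h3 : (fun g => pl j γ [1, g]) = fun _ => (0 : ℚ) :=
    h1.ext_free (fun x y => by simp) fun a => by simpa using h0
  have h4 : pl j γ = 0 := by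
    rw [h2, h3]
    funext l
    unfold dif
    split <;> simp
  rw [h4]
  exact zero_mem _

/-- The case `f0 = 0`, `f1 = 0`. -/
theorem gys_closed (q : S →* B) (j : FreeGroup Unit →* S) (hj : Function.Injective j)
    (hq : ∀ u, q (j u) = 1) {φ : List S → ℚ} {β : List B → ℚ} (hφ : φ ∈ Co (triv S ℚ))
    (lφ : Len 2 φ) (hβ : β ∈ Zc (triv B ℚ)) (lβ : Len 3 β) (hd : dd φ = pl q β)
    (hne : φ [1, j (FreeGroup.of ())] ≠ φ [1, 1]) (m : ℕ) {γ : List S → ℚ} (hγ : γ ∈ CoN j ℚ)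
    (lγ : Len (m + 1) γ) (dγ : dd γ = 0) :
    ∃ (u0 u1 : List B → ℚ) (δ : List S → ℚ), u0 [] = 0 ∧ u1 [] = 0 ∧ δ ∈ CoN j ℚ ∧
      Len (m + 1) u0 ∧ Len m u1 ∧ Len m δ ∧
      dd u0 + cupm (LinearMap.lsmul ℚ ℚ) β u1 = 0 ∧ dd u1 = 0 ∧
      pl q u0 + cupm (LinearMap.lsmul ℚ ℚ) φ (pl q u1) - dd δ = γ := by
  obtain ⟨hβ1, hβ2⟩ := mem_Zc.1 hβ
  match m, lγ with
  | 0, lγ =>
    refine ⟨cst (γ [1]), 0, 0, cst_nil _, rfl, zero_mem _, len_cst _, Len.zero _, Len.zero _,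
      ?_, map_zero _, ?_⟩
    · rw [dd_cst, map_zero, add_zero]
    · rw [pl_cst, map_zero, map_zero, map_zero, add_zero, sub_zero]
      exact (eq_cst_of_len_one lγ dγ 1).symm
  | 1, lγ =>
    have c1 : dd (cone 1 β) = β := gys_dd_cone 1 hβ1.1 hβ2 (lβ _ (by simp))
    have l1 : Len 2 (cone 1 β) := lβ.cone 1
    set ψ : List S → ℚ := φ - pl q (cone 1 β) with hψ
    have m1 : ψ ∈ CoN j ℚ := sub_mem (gys_mem_of_co j hφ) (gys_pl_mem q j hq (cone_nil _ _))
    have d1 : dd ψ = 0 := by rw [hψ, map_sub, dd_pl, c1, hd, sub_self]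
    have l2 : Len 2 ψ := lφ.sub (l1.pl q)
    have e1 : ψ [1, 1] = 0 := by
      have h := dd_triple ψ 1 1 1
      rw [d1, sub_self, zero_add] at h
      exact h.symm
    have e2 : ψ [1, j (FreeGroup.of ())] ≠ 0 := fun h => hne (by
      have h2 := h.trans e1.symm
      simpa [hψ, hq] using h2)
    set c : ℚ := γ [1, j (FreeGroup.of ())] / ψ [1, j (FreeGroup.of ())] with hc
    obtain ⟨δ, m2, l3, d2⟩ := gys_one j hj (γ := γ - c • ψ)
      (sub_mem hγ (Submodule.smul_mem _ c m1)) (lγ.sub (l2.smul c))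
      (by rw [map_sub, map_smul, dγ, d1, smul_zero, sub_zero])
      (by rw [Pi.sub_apply, Pi.smul_apply, smul_eq_mul, hc, div_mul_cancel₀ _ e2, sub_self])
    refine ⟨(-c) • cone 1 β, cst c, (-1 : ℚ) • δ, by rw [Pi.smul_apply, cone_nil, smul_zero],
      cst_nil _, Submodule.smul_mem _ _ m2, l1.smul _, len_cst _, l3.smul _, ?_, dd_cst _, ?_⟩
    · rw [map_smul, c1, gys_cup_cst hβ1.1, neg_smul, neg_add_cancel]
    · rw [pl_cst, gys_cup_cst hφ.1, map_smul, map_smul, d2, hψ]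
      module
  | k + 2, lγ =>
    obtain ⟨δ, m2, l3, d2⟩ := res_abs j hj hγ dγ lγ (free_vanish (gys_res_mem hγ dγ) (lγ.pl j))
    refine ⟨0, 0, (-1 : ℚ) • δ, rfl, rfl, Submodule.smul_mem _ _ m2, Len.zero _, Len.zero _,
      l3.smul _, ?_, map_zero _, ?_⟩
    · rw [map_zero, map_zero, add_zero]
    · rw [map_zero, map_zero, map_smul, d2]
      module

/-- Exactness of the mapping cone before taking invariants, with
`d (f0, f1, γ) = (dd f0 + β ∪ f1, -dd f1, q^* f0 + φ ∪ q^* f1 - dd γ)`. -/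
theorem gysin_fibre (q : S →* B) (j : FreeGroup Unit →* S) (hj : Function.Injective j)
    (hq : ∀ u, q (j u) = 1) {φ : List S → ℚ} {β : List B → ℚ} (hφ : φ ∈ Co (triv S ℚ))
    (lφ : Len 2 φ) (hβ : β ∈ Zc (triv B ℚ)) (lβ : Len 3 β) (hd : dd φ = pl q β)
    (hne : φ [1, j (FreeGroup.of ())] ≠ φ [1, 1]) (n : ℕ) {f0 f1 : List B → ℚ} {γ : List S → ℚ}
    (z0 : f0 [] = 0) (z1 : f1 [] = 0) (hγ : γ ∈ CoN j ℚ)
    (l0 : ∀ l : List B, l.length ≠ n + 1 → f0 l = 0)
    (l1 : ∀ l : List B, l.length + 1 ≠ n + 1 → f1 l = 0)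
    (lγ : ∀ l : List S, l.length + 1 ≠ n + 1 → γ l = 0)
    (d0 : dd f0 + cupm (LinearMap.lsmul ℚ ℚ) β f1 = 0) (d1 : dd f1 = 0)
    (dγ : dd γ = pl q f0 + cupm (LinearMap.lsmul ℚ ℚ) φ (pl q f1)) :
    ∃ (u0 u1 : List B → ℚ) (δ : List S → ℚ), u0 [] = 0 ∧ u1 [] = 0 ∧ δ ∈ CoN j ℚ ∧
      (∀ l : List B, l.length ≠ n → u0 l = 0) ∧ (∀ l : List B, l.length + 1 ≠ n → u1 l = 0) ∧
      (∀ l : List S, l.length + 1 ≠ n → δ l = 0) ∧
      dd u0 + cupm (LinearMap.lsmul ℚ ℚ) β u1 = f0 ∧ -dd u1 = f1 ∧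
      pl q u0 + cupm (LinearMap.lsmul ℚ ℚ) φ (pl q u1) - dd δ = γ := by
  obtain ⟨hβ1, hβ2⟩ := mem_Zc.1 hβ
  have L1 : Len n f1 := fun l hl => l1 l (by omega)
  have Lγ : Len n γ := fun l hl => lγ l (by omega)
  cases n with
  | zero =>
    have e1 := gys_eq_zero z1 L1
    have e2 := gys_eq_zero hγ.1 Lγ
    subst e1 e2
    rw [map_zero, add_zero] at d0
    rw [map_zero, map_zero, map_zero, add_zero] at dγ
    have e3 : f0 [1] = 0 := by simpa using (congrFun dγ [1]).symm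
    have e4 := eq_cst_of_len_one l0 d0 1
    rw [e3, cst_zero] at e4
    subst e4
    exact ⟨0, 0, 0, rfl, rfl, zero_mem _, fun _ _ => rfl, fun _ _ => rfl, fun _ _ => rfl,
      by simp, by simp, by simp⟩
  | succ m =>
    have e1 : f1 [1] = 0 := by
      cases m with
      | succ k => exact L1 _ (by simp)
      | zero =>
        rw [eq_cst_of_len_one L1 d1 1, pl_cst, gys_cup_cst hφ.1] at dγ
        have h1 := congrFun dγ [1, j (FreeGroup.of ())]
        have h2 := congrFun dγ [1, 1]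
        have h3 := hγ.2 (FreeGroup.of ()) [1]
        rw [dd_pair] at h1 h2
        simp only [List.map_cons, List.map_nil, mul_one] at h3
        simp only [Pi.add_apply, pl_apply, List.map_cons, List.map_nil, map_one, hq, Pi.smul_apply,
          smul_eq_mul, h3, sub_self] at h1 h2
        have h4 : f1 [1] * (φ [1, j (FreeGroup.of ())] - φ [1, 1]) = 0 := by linarith
        exact (mul_eq_zero.1 h4).resolve_right (sub_ne_zero.2 hne)
    set w1 : List B → ℚ := cone 1 f1 with hw1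
    have zw1 : w1 [] = 0 := cone_nil _ _
    have lw1 : Len m w1 := L1.cone 1
    have dw1 : dd w1 = f1 := gys_dd_cone 1 z1 d1 e1
    have sβ : sg β = β := by rw [sg_of_len lβ]; norm_num
    have sφ : sg φ = -φ := by rw [sg_of_len lφ]; norm_num
    set g0 : List B → ℚ := f0 + cupm (LinearMap.lsmul ℚ ℚ) β w1 with hg0
    have zg0 : g0 [] = 0 := by rw [hg0, Pi.add_apply, z0, cupm_nil, add_zero]
    have lg0 : Len (m + 2) g0 := Len.add l0 (gys_len_cup lβ lw1 zw1)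
    have dg0 : dd g0 = 0 := by
      rw [hg0, map_add, dd_cupm _ hβ1.1 zw1, hβ2, map_zero, LinearMap.zero_apply, zero_add, sβ,
        dw1, d0]
    set w0 : List B → ℚ := cone 1 g0 with hw0
    have zw0 : w0 [] = 0 := cone_nil _ _
    have lw0 : Len (m + 1) w0 := lg0.cone 1
    have dw0 : dd w0 = g0 := gys_dd_cone 1 zg0 dg0 (lg0 _ (by simp))
    have zp : pl q w1 [] = 0 := zw1
    obtain ⟨u0, u1, δ, a0, a1, a2, a3, a4, a5, a6, a7, a8⟩ := gys_closed q j hj hq hφ lφ hβ lβ hd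
      hne m (γ := γ - pl q w0 + cupm (LinearMap.lsmul ℚ ℚ) φ (pl q w1))
      (add_mem (sub_mem hγ (gys_pl_mem q j hq zw0))
        (gys_cup_mem j (gys_mem_of_co j hφ) (gys_pl_mem q j hq zw1)))
      ((Lγ.sub (lw0.pl q)).add (gys_len_cup lφ (lw1.pl q) zp))
      (by
        rw [map_add, map_sub, dd_cupm _ hφ.1 zp, dd_pl, dd_pl, dw0, dw1, dγ, hd, sφ, hg0, map_add,
          pl_cupm, map_neg, LinearMap.neg_apply]
        abel)
    refine ⟨w0 + u0, u1 - w1, δ, by rw [Pi.add_apply, zw0, a0, add_zero],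
      by rw [Pi.sub_apply, zw1, a1, sub_zero], a2, lw0.add a3,
      fun l hl => (a4.sub lw1) l (by omega), fun l hl => a5 l (by omega), ?_, ?_, ?_⟩
    · rw [map_add, map_sub, dw0, hg0]
      linear_combination a6
    · rw [map_sub, a7, dw1, zero_sub, neg_neg]
    · rw [map_add, map_sub, map_sub]
      linear_combination a8

end Pool.Agent.FP
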