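import Pool.Agent.FP.Gys

/-! Continuation. -/

namespace Pool.Agent.FP

variable {S B : Type} [Group S] [Group B]

/-- The underlying space of the mapping cone. -/
abbrev Gys2V (S B : Type) : Type := (List B → ℚ) × (List B → ℚ) × (List S → ℚ)

/-- The action on the mapping cone. -/
noncomputable def gys2_a (q : S →* B) : Representation ℚ S (Gys2V S B) :=
  (act q (triv S ℚ)).prod ((act q (triv S ℚ)).prod (act (MonoidHom.id S) (triv S ℚ)))

theorem gys2_a_apply (q : S →* B) (e : S) (v : Gys2V S B) : gys2_a q e v =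
    (pl ((q e)⁻¹ * ·) v.1, pl ((q e)⁻¹ * ·) v.2.1, pl (e⁻¹ * ·) v.2.2) := rfl

/-- The differential of the mapping cone. -/
def gys2_d (q : S →* B) (φ : List S → ℚ) (β : List B → ℚ) : Gys2V S B →ₗ[ℚ] Gys2V S B where
  toFun v := (dd v.1 + cupm (LinearMap.lsmul ℚ ℚ) β v.2.1, -dd v.2.1,
    pl q v.1 + cupm (LinearMap.lsmul ℚ ℚ) φ (pl q v.2.1) - dd v.2.2)
  map_add' v w := by
    simp only [Prod.fst_add, Prod.snd_add, map_add, Prod.mk_add_mk]
    refine Prod.ext ?_ (Prod.ext ?_ ?_) <;> (dsimp only; abel)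
  map_smul' c v := by
    simp only [Prod.smul_fst, Prod.smul_snd, map_smul, RingHom.id_apply, Prod.smul_mk, smul_add,
      smul_neg, smul_sub]

theorem gys2_d_apply (q : S →* B) (φ : List S → ℚ) (β : List B → ℚ) (v : Gys2V S B) :
    gys2_d q φ β v = (dd v.1 + cupm (LinearMap.lsmul ℚ ℚ) β v.2.1, -dd v.2.1,
      pl q v.1 + cupm (LinearMap.lsmul ℚ ℚ) φ (pl q v.2.1) - dd v.2.2) := rfl

/-- The grading of the mapping cone. -/
def gys2_gr (j : FreeGroup Unit →* S) (B : Type) (n : ℕ) : Submodule ℚ (Gys2V S B) where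
  carrier := {v | v.1 [] = 0 ∧ v.2.1 [] = 0 ∧ v.2.2 ∈ CoN j ℚ ∧
    (∀ l : List B, l.length ≠ n → v.1 l = 0) ∧ (∀ l : List B, l.length + 1 ≠ n → v.2.1 l = 0) ∧
    ∀ l : List S, l.length + 1 ≠ n → v.2.2 l = 0}
  add_mem' := fun {v w} hv hw => ⟨by simp [hv.1, hw.1], by simp [hv.2.1, hw.2.1],
    add_mem hv.2.2.1 hw.2.2.1, fun l h => by simp [hv.2.2.2.1 l h, hw.2.2.2.1 l h],
    fun l h => by simp [hv.2.2.2.2.1 l h, hw.2.2.2.2.1 l h],
    fun l h => by simp [hv.2.2.2.2.2 l h, hw.2.2.2.2.2 l h]⟩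
  zero_mem' := ⟨rfl, rfl, zero_mem _, fun _ _ => rfl, fun _ _ => rfl, fun _ _ => rfl⟩
  smul_mem' := fun c v hv => ⟨by simp [hv.1], by simp [hv.2.1],
    Submodule.smul_mem _ c hv.2.2.1, fun l h => by simp [hv.2.2.2.1 l h],
    fun l h => by simp [hv.2.2.2.2.1 l h], fun l h => by simp [hv.2.2.2.2.2 l h]⟩

/-- The retraction that expresses relative injectivity. -/
def gys2_R (q : S →* B) : (B → Gys2V S B) →ₗ[ℚ] Gys2V S B where
  toFun F := (rfirst (MonoidHom.id B) fun b => (F b).1,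
    rfirst (MonoidHom.id B) fun b => (F b).2.1, rfirst q fun b => (F b).2.2)
  map_add' F G := by
    refine Prod.ext ?_ (Prod.ext ?_ ?_)
    · exact (rfirst (MonoidHom.id B)).map_add (fun b => (F b).1) fun b => (G b).1
    · exact (rfirst (MonoidHom.id B)).map_add (fun b => (F b).2.1) fun b => (G b).2.1
    · exact (rfirst q).map_add (fun b => (F b).2.2) fun b => (G b).2.2
  map_smul' c F := by
    refine Prod.ext ?_ (Prod.ext ?_ ?_)
    · exact (rfirst (MonoidHom.id B)).map_smul c fun b => (F b).1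
    · exact (rfirst (MonoidHom.id B)).map_smul c fun b => (F b).2.1
    · exact (rfirst q).map_smul c fun b => (F b).2.2

theorem gys2_pl_inv {G : Type} [Group G] {f : List G → ℚ} (hf : f ∈ Co (triv G ℚ)) (g : G) :
    pl (g * ·) f = f := by
  funext l
  exact hf.2 g l

theorem gys2_cases {X : Type} {n : ℕ} {f : List X → ℚ} (h0 : f [] = 0)
    (h : ∀ l : List X, l.length + 1 ≠ n → f l = 0) : f = 0 ∨ ∃ m, n = m + 2 ∧ Len (m + 1) f := by
  by_cases hn : 2 ≤ n
  · exact Or.inr ⟨n - 2, by omega, fun l hl => h l (by omega)⟩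
  · refine Or.inl (funext fun l => ?_)
    cases l with
    | nil => exact h0
    | cons x l => exact h _ (by simp only [List.length_cons]; omega)

theorem gys2_pl_CoN {q : S →* B} {j : FreeGroup Unit →* S} (hq : ∀ u, q (j u) = 1)
    (f : List B → ℚ) (u : FreeGroup Unit) : pl (j u * ·) (pl q f) = pl q f := by
  rw [pl_pl]
  congr 2
  funext x
  simp [hq]

theorem gys2_hda (q : S →* B) {φ : List S → ℚ} {β : List B → ℚ} (hφ : φ ∈ Co (triv S ℚ))
    (hβ : β ∈ Co (triv B ℚ)) (e : S) (v : Gys2V S B) :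
    gys2_a q e (gys2_d q φ β v) = gys2_d q φ β (gys2_a q e v) := by
  have h : ∀ f : List B → ℚ, pl (e⁻¹ * ·) (pl q f) = pl q (pl ((q e)⁻¹ * ·) f) := fun f => by
    rw [pl_pl, pl_pl]
    congr 2
    funext x
    simp
  simp only [gys2_a_apply, gys2_d_apply, map_add, map_neg, map_sub, pl_cupm, dd_pl,
    gys2_pl_inv hφ, gys2_pl_inv hβ, h]

theorem gys2_hdd (q : S →* B) (j : FreeGroup Unit →* S) {φ : List S → ℚ} {β : List B → ℚ}
    (hφ : φ ∈ Co (triv S ℚ)) (lφ : Len 2 φ) (hβ : β ∈ Zc (triv B ℚ)) (lβ : Len 3 β)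
    (hd : dd φ = pl q β) (n : ℕ) (v : Gys2V S B) (hv : v ∈ gys2_gr j B n) :
    gys2_d q φ β (gys2_d q φ β v) = 0 := by
  have s1 : sg β = β := by rw [sg_of_len lβ]; norm_num
  have s2 : sg φ = -φ := by rw [sg_of_len lφ]; norm_num
  have e1 := dd_cupm (LinearMap.lsmul ℚ ℚ) hβ.1.1 hv.2.1
  have e2 := dd_cupm (LinearMap.lsmul ℚ ℚ) hφ.1 (h := pl q v.2.1) hv.2.1
  rw [(mem_Zc.1 hβ).2, s1] at e1
  rw [hd, s2] at e2
  simp only [gys2_d_apply, map_add, map_neg, map_sub, dd_dd, e1, e2, pl_cupm, dd_pl, map_zero,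
    LinearMap.zero_apply, LinearMap.neg_apply]
  refine Prod.ext (by simp) (Prod.ext (by simp) ?_)
  change _ - _ = (0 : List S → ℚ)
  abel

theorem gys2_hdg {q : S →* B} {j : FreeGroup Unit →* S} (hq : ∀ u, q (j u) = 1)
    {φ : List S → ℚ} {β : List B → ℚ} (hφ : φ ∈ Co (triv S ℚ)) (lφ : Len 2 φ) (lβ : Len 3 β)
    (n : ℕ) (v : Gys2V S B) (hv : v ∈ gys2_gr j B n) :
    gys2_d q φ β v ∈ gys2_gr j B (n + 1) := by
  obtain ⟨f0, f1, γ⟩ := v
  obtain ⟨z0, z1, hγ, l0, l1, lγ⟩ := hv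
  dsimp only at z0 z1 hγ l0 l1 lγ
  have L0 : Len n f0 := l0
  have L1 : Len (n + 1) (cupm (LinearMap.lsmul ℚ ℚ) β f1) ∧ Len n (dd f1) ∧
      Len n (cupm (LinearMap.lsmul ℚ ℚ) φ (pl q f1)) := by
    rcases gys2_cases z1 l1 with h | ⟨m, rfl, h⟩
    · simp only [h, map_zero]
      exact ⟨Len.zero _, Len.zero _, Len.zero _⟩
    · refine ⟨?_, h.dd, ?_⟩
      · have := Len.cupm (a := 2) lβ h (LinearMap.lsmul ℚ ℚ)
        rwa [show 2 + m + 1 = m + 2 + 1 by omega] at this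
      · have := Len.cupm (a := 1) lφ (h.pl q) (LinearMap.lsmul ℚ ℚ)
        rwa [show 1 + m + 1 = m + 2 by omega] at this
  have L2 : Len n (dd γ) := by
    rcases gys2_cases hγ.1 lγ with h | ⟨m, rfl, h⟩
    · simp only [h, map_zero]
      exact Len.zero _
    · exact h.dd
  rw [gys2_d_apply]
  refine ⟨by simp, by simp, sub_mem (add_mem ⟨z0, fun u l => ?_⟩ ⟨by simp, fun u l => ?_⟩)
    (dd_mem_CoN hγ), L0.dd.add L1.1, fun l hl => ?_, fun l hl => ?_⟩
  · exact congrFun (gys2_pl_CoN hq f0 u) l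
  · have : pl (j u * ·) (cupm (LinearMap.lsmul ℚ ℚ) φ (pl q f1)) =
        cupm (LinearMap.lsmul ℚ ℚ) φ (pl q f1) := by
      rw [pl_cupm, gys2_pl_inv hφ, gys2_pl_CoN hq]
    exact congrFun this l
  · have := L1.2.1 l (by omega)
    simp [this]
  · exact (((L0.pl q).add L1.2.2).sub L2) l (by omega)

theorem gys2_hag {q : S →* B} {j : FreeGroup Unit →* S} (hq : ∀ s, q s = 1 ↔ ∃ u, j u = s)
    (n : ℕ) (e : S) (v : Gys2V S B) (hv : v ∈ gys2_gr j B n) :
    gys2_a q e v ∈ gys2_gr j B n := by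
  obtain ⟨z0, z1, hγ, l0, l1, lγ⟩ := hv
  rw [gys2_a_apply]
  refine ⟨z0, z1, ⟨hγ.1, fun u l => ?_⟩, fun l hl => l0 _ (by simpa using hl),
    fun l hl => l1 _ (by simpa using hl), fun l hl => lγ _ (by simpa using hl)⟩
  obtain ⟨u', hu⟩ := (hq (e⁻¹ * j u * e)).1 (by simp [(hq _).2 ⟨u, rfl⟩])
  have := hγ.2 u' (l.map (e⁻¹ * ·))
  simp only [pl_apply, List.map_map] at this ⊢
  have h : ((fun x => e⁻¹ * x) ∘ fun x => j u * x) =
      ((fun x => j u' * x) ∘ fun x => e⁻¹ * x) := by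
    funext x
    simp [hu, mul_assoc]
  rw [h, this]

theorem gys2_hker {q : S →* B} {j : FreeGroup Unit →* S} (hq : ∀ s, q s = 1 ↔ ∃ u, j u = s)
    (n : ℕ) (e : S) (he : q e = 1) (v : Gys2V S B) (hv : v ∈ gys2_gr j B n) :
    gys2_a q e v = v := by
  obtain ⟨u, hu⟩ := (hq e⁻¹).1 (by simp [he])
  rw [gys2_a_apply, he, ← hu]
  refine Prod.ext ?_ (Prod.ext ?_ ?_)
  · funext l
    simp
  · funext l
    simp
  · funext l
    exact hv.2.2.1.2 u l

theorem gys2_h0 (j : FreeGroup Unit →* S) : gys2_gr j B 0 = ⊥ := by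
  refine (Submodule.eq_bot_iff _).2 fun v hv => ?_
  obtain ⟨z0, -, -, l0, l1, lγ⟩ := hv
  refine Prod.ext (funext fun l => ?_) (Prod.ext (funext fun l => l1 l (by omega))
    (funext fun l => lγ l (by omega)))
  cases l with
  | nil => exact z0
  | cons x l => exact l0 _ (by simp)

theorem gys2_hR3 {q : S →* B} {j : FreeGroup Unit →* S} (hq : ∀ u, q (j u) = 1) (n : ℕ)
    (F : B → Gys2V S B) (hF : ∀ b, F b ∈ gys2_gr j B n) : gys2_R q F ∈ gys2_gr j B n := by
  refine ⟨rfl, rfl, ⟨rfl, fun u l => ?_⟩, fun l hl => rfirst_zero _ fun b => (hF b).2.2.2.1 l hl,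
    fun l hl => rfirst_zero _ fun b => (hF b).2.2.2.2.1 l hl,
    fun l hl => rfirst_zero _ fun b => (hF b).2.2.2.2.2 l hl⟩
  cases l with
  | nil => rfl
  | cons x l =>
    change (F (q (j u * x))).2.2 ((x :: l).map (j u * ·)) = (F (q x)).2.2 (x :: l)
    rw [map_mul, hq, one_mul]
    exact (hF _).2.2.1.2 u _

theorem gys2_inj {q : S →* B} {T : S} (hT : q T = 1) {φ : List S → ℚ} {β : List B → ℚ}
    (hφ : φ ∈ Co (triv S ℚ)) (hd : dd φ = pl q β) (hne : φ [1, T] ≠ φ [1, 1]) :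
    Function.Injective (FreeGroup.lift fun _ : Unit => T) := by
  have key : ∀ u v : S, q u = 1 → q v = 1 →
      φ [1, v] - φ [1, u * v] + φ [1, u] = β [1, 1, 1] := fun u v hu hv => by
    have h1 := congrFun hd [1, u, u * v]
    have h2 : φ [u, u * v] = φ [1, v] := by simpa using hφ.2 u [1, v]
    rw [dd_triple, h2] at h1
    simpa [hu, hv] using h1
  have k1 := key 1 1 (map_one q) (map_one q)
  rw [mul_one] at k1
  have hp : ∀ n : ℕ, φ [1, T ^ n] - φ [1, 1] = n * (φ [1, T] - φ [1, 1]) := fun n => by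
    induction n with
    | zero => simp
    | succ n ih =>
      have := key (T ^ n) T (by rw [map_pow, hT, one_pow]) hT
      rw [pow_succ]
      push_cast
      linarith
  have hf : ¬IsOfFinOrder T := fun h => by
    obtain ⟨n, hn, e⟩ := h.exists_pow_eq_one
    have := hp n
    rw [e, sub_self] at this
    rcases mul_eq_zero.1 this.symm with h | h
    · exact hn.ne' (by exact_mod_cast h)
    · exact hne (sub_eq_zero.1 h)
  intro u v e
  obtain ⟨a, rfl⟩ := FreeGroup.freeGroupUnitEquivInt.symm.surjective u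
  obtain ⟨b, rfl⟩ := FreeGroup.freeGroupUnitEquivInt.symm.surjective v
  change FreeGroup.lift (fun _ : Unit => T) (FreeGroup.of () ^ a) =
    FreeGroup.lift (fun _ : Unit => T) (FreeGroup.of () ^ b) at e
  simp only [map_zpow, FreeGroup.lift_apply_of] at e
  rw [injective_zpow_iff_not_isOfFinOrder.2 hf e]

theorem gys2_step (q : S →* B) (hq : Function.Surjective q) (T : S)
    (hT : ∀ s, q s = 1 ↔ s ∈ Subgroup.zpowers T) {φ : List S → ℚ} {β : List B → ℚ}
    (hφ : φ ∈ Co (triv S ℚ)) (lφ : Len 2 φ) (hβ : β ∈ Zc (triv B ℚ)) (lβ : Len 3 β)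
    (hd : dd φ = pl q β) (hne : φ [1, T] ≠ φ [1, 1]) {x : List B → ℚ} (hx : x ∈ Zc (triv B ℚ))
    (h : pl q x ∈ Bc (triv S ℚ)) (n : ℕ) :
    ∃ u1 : List B → ℚ, u1 ∈ Zc (triv B ℚ) ∧ (∀ l : List B, l.length + 1 ≠ n → u1 l = 0) ∧
      comp (n + 1) x - cupm (LinearMap.lsmul ℚ ℚ) β u1 ∈ Bc (triv B ℚ) := by
  obtain ⟨γ, hγ, dγ⟩ := h
  let j : FreeGroup Unit →* S := FreeGroup.lift fun _ : Unit => T
  have hj : Function.Injective j := gys2_inj ((hT T).2 (Subgroup.mem_zpowers T)) hφ hd hne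
  have jT : j (FreeGroup.of ()) = T := by simp [j]
  have hk : ∀ s, q s = 1 ↔ ∃ u, j u = s := fun s => by
    rw [hT]
    constructor
    · rintro ⟨k, rfl⟩
      exact ⟨FreeGroup.of () ^ k, by rw [map_zpow, jT]⟩
    · rintro ⟨u, rfl⟩
      obtain ⟨a, rfl⟩ := FreeGroup.freeGroupUnitEquivInt.symm.surjective u
      exact ⟨a, by
        change T ^ a = j (FreeGroup.of () ^ a)
        rw [map_zpow, jT]⟩
  have hqj : ∀ u, q (j u) = 1 := fun u => (hk _).2 ⟨u, rfl⟩
  have cx := comp_mem_Zc (n + 1) hx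
  have cγ := comp_mem_Co n hγ
  obtain ⟨u, hu, du, iu⟩ := inv_acyclic q hq (gys2_a q) (gys2_d q φ β) (gys2_gr j B) (gys2_R q)
    (gys2_hda q hφ hβ.1) (gys2_hdd q j hφ lφ hβ lβ hd) (gys2_hdg hqj hφ lφ lβ) (gys2_hag hk)
    (gys2_hker hk) (gys2_h0 j)
    (fun n v hv dv => by
      obtain ⟨z0, z1, hγ, l0, l1, lγ⟩ := hv
      have d0 := congrArg (fun w : Gys2V S B => w.1) dv
      have d1 := congrArg (fun w : Gys2V S B => w.2.1) dv
      have d2 := congrArg (fun w : Gys2V S B => w.2.2) dv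
      obtain ⟨u0, u1, δ, a1, a2, a3, a4, a5, a6, b1, b2, b3⟩ := gysin_fibre q j hj hqj hφ lφ hβ lβ
        hd (by rwa [jT]) n z0 z1 hγ l0 l1 lγ d0 (neg_eq_zero.1 d1) (sub_eq_zero.1 d2).symm
      exact ⟨(u0, u1, δ), ⟨a1, a2, a3, a4, a5, a6⟩, Prod.ext b1 (Prod.ext b2 b3)⟩)
    (fun n v hv => Prod.ext (rfirst_const _ hv.1)
      (Prod.ext (rfirst_const _ hv.2.1) (rfirst_const _ hv.2.2.1.1)))
    (fun e F => Prod.ext (rfirst_act q (triv S ℚ) (MonoidHom.id B) e fun b => (F b).1)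
      (Prod.ext (rfirst_act q (triv S ℚ) (MonoidHom.id B) e fun b => (F b).2.1)
        (rfirst_act (MonoidHom.id S) (triv S ℚ) q e fun b => (F b).2.2)))
    (gys2_hR3 hqj) (n := n) (v := (comp (n + 1) x, 0, comp n γ))
    ⟨cx.1.1, rfl, ⟨cγ.1, fun u l => cγ.2 _ l⟩, len_comp _ _, fun _ _ => rfl,
      fun l hl => len_comp n γ l (by omega)⟩
    (by
      rw [gys2_d_apply]
      refine Prod.ext ?_ (Prod.ext ?_ ?_)
      · simpa using (mem_Zc.1 cx).2
      · simp
      · simp only [map_zero, add_zero, dd_comp, dγ, comp_pl, sub_self]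
        rfl)
    (fun e => by
      rw [gys2_a_apply, gys2_pl_inv cx.1, gys2_pl_inv cγ, map_zero])
  have c0 : u.1 ∈ Co (triv B ℚ) := (mem_Co_iff_act q hq (triv B ℚ)).2
    ⟨hu.1, fun e => congrArg (fun w : Gys2V S B => w.1) (iu e)⟩
  have c1 : u.2.1 ∈ Co (triv B ℚ) := (mem_Co_iff_act q hq (triv B ℚ)).2
    ⟨hu.2.1, fun e => congrArg (fun w : Gys2V S B => w.2.1) (iu e)⟩
  have d0 : dd u.1 + cupm (LinearMap.lsmul ℚ ℚ) β u.2.1 = comp (n + 1) x :=
    congrArg (fun w : Gys2V S B => w.1) du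
  have d1 : -dd u.2.1 = 0 := congrArg (fun w : Gys2V S B => w.2.1) du
  refine ⟨u.2.1, mem_Zc.2 ⟨c1, neg_eq_zero.1 d1⟩, hu.2.2.2.2.1, u.1, c0, ?_⟩
  rw [← d0, add_sub_cancel_right]

/-- A class that dies on `S` is a multiple of the Euler class. First show that `T` has infinite
order (`u ↦ φ [1, u] - φ [1, 1]` is additive on the kernel), then use `inv_acyclic`,
`gysin_fibre` in each degree, and glue. -/
theorem gysin (q : S →* B) (hq : Function.Surjective q) (T : S)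
    (hT : ∀ s, q s = 1 ↔ s ∈ Subgroup.zpowers T) {φ : List S → ℚ} {β : List B → ℚ}
    (hφ : φ ∈ Co (triv S ℚ)) (lφ : Len 2 φ) (hβ : β ∈ Zc (triv B ℚ)) (lβ : Len 3 β)
    (hd : dd φ = pl q β) (hne : φ [1, T] ≠ φ [1, 1]) {x : List B → ℚ} (hx : x ∈ Zc (triv B ℚ))
    (h : pl q x ∈ Bc (triv S ℚ)) :
    ∃ c ∈ Zc (triv B ℚ), x - cupm (LinearMap.lsmul ℚ ℚ) β c ∈ Bc (triv B ℚ) := by
  choose u hu lu bu using gys2_step q hq T hT hφ lφ hβ lβ hd hne hx h
  let c : List B → ℚ := fun l => u (l.length + 1) l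
  have hc : ∀ m, comp m c = u (m + 1) := fun m => by
    funext l
    rw [comp_apply]
    split_ifs with e
    · rw [← e]
    · exact (lu _ l (by omega)).symm
  refine ⟨c, mem_Zc.2 ⟨⟨(hu _).1.1, fun g l => ?_⟩, funext fun l => ?_⟩,
    mem_Bc_of_comp fun n => ?_⟩
  · have := (hu (l.length + 1)).1.2 g l
    simpa only [c, List.length_map] using this
  · cases l with
    | nil => simp
    | cons y l =>
      have := congrFun (dd_comp l.length c) (y :: l)
      rw [hc, (mem_Zc.1 (hu _)).2, comp_apply, if_pos List.length_cons] at this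
      exact this.symm
  · rw [map_sub]
    rcases n with _ | _ | n
    · have e : comp 0 x = 0 := by
        funext l
        rw [comp_apply]
        split_ifs with e
        · rw [List.length_eq_zero_iff.1 e]
          exact hx.1.1
        · rfl
      rw [e, comp_cupm_lt (a := 2) lβ _ _ (by omega), sub_zero]
      exact zero_mem _
    · have e : u 0 = 0 := funext fun l => lu 0 l (by omega)
      have := bu 0
      rw [e, map_zero] at this
      rwa [comp_cupm_lt (a := 2) lβ _ _ (by omega)]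
    · have e := comp_cupm (a := 2) lβ (LinearMap.lsmul ℚ ℚ) c n
      rw [show 2 + n = n + 1 + 1 by omega, hc] at e
      rw [e]
      exact bu (n + 1)

end Pool.Agent.FP
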