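import Pool.Agent.FP.Co5b

/-! The Leray and Hirsch theorem for extensions with kernel a surface group. -/

namespace Pool.Agent.FP

variable {E B V : Type} [AddCommGroup V] [Module ℚ V] [Group E] [Group B] {g : ℕ}

namespace Ext
variable (X : Ext g E B)

theorem eqv₂_om : Eqv₂ X.ρH X.ρH (triv B ℚ) (omL g) := X.ρH_om

theorem dif_mem : dif X.k ∈ Zc (X.ρH.comp X.p) := X.k_cross.dif_mem

theorem p_j (γ : Sg g) : X.p (X.j γ) = 1 := (X.ker_p _).2 ⟨γ, rfl⟩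

theorem eta_mem : X.eta ∈ Zc (triv E ℚ) :=
  Submodule.smul_mem _ _ (cupm_mem_Zc (X.eqv₂_om.comp X.p) X.dif_mem X.dif_mem)

theorem len_eta : Len 3 X.eta :=
  (Len.cupm (a := 1) (b := 1) (len_dif X.k) (len_dif X.k) _).smul _

theorem pl_j_dif : pl X.j (dif X.k) = dif ab := by
  rw [pl_dif]
  exact congrArg dif (funext X.k_j)

/-- The map from three cochains on the base to a cochain on the total group. -/
def Phi (f0 : List B → V) (f1 : List B → Hq g →ₗ[ℚ] V) (f2 : List B → V) : List E → V :=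
  pl X.p f0 + cupm (evB (Hq g) V) (dif X.k) (pl X.p f1) +
    cupm (LinearMap.lsmul ℚ V) X.eta (pl X.p f2)

theorem dd_Phi {f0 : List B → V} {f1 : List B → Hq g →ₗ[ℚ] V} {f2 : List B → V}
    (h1 : f1 [] = 0) (h2 : f2 [] = 0) :
    dd (X.Phi f0 f1 f2) = X.Phi (dd f0) (-dd f1) (dd f2) := by
  rw [Phi, Phi, map_add, map_add, dd_cupm _ X.dif_mem.1.1 (show pl X.p f1 [] = 0 from h1),
    dd_cupm _ X.eta_mem.1.1 (show pl X.p f2 [] = 0 from h2), dd_dif,
    show dd X.eta = 0 from X.eta_mem.2, sg_of_len (len_dif X.k), sg_of_len X.len_eta, dd_pl, dd_pl,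
    dd_pl]
  norm_num

theorem lh_cupm_len {Y U W : Type} [AddCommGroup U] [Module ℚ U] [AddCommGroup W] [Module ℚ W]
    (μ : U →ₗ[ℚ] W →ₗ[ℚ] V) {a n : ℕ} {f : List Y → U} {h : List Y → W} (hf : Len (a + 1) f)
    (hh : ∀ l : List Y, l.length + a ≠ n → h l = 0) : Len n (cupm μ f h) := fun l hl => by
  rw [cupm_apply]
  refine Finset.sum_eq_zero fun i hi => ?_
  have hi' := Finset.mem_range.1 hi
  by_cases e : i = a
  · rw [hh _ (by rw [List.length_drop]; omega), map_zero]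
  · rw [hf _ (by rw [List.length_take]; omega), map_zero, LinearMap.zero_apply]

theorem lh_cone_len {Y : Type} (x : Y) {a n : ℕ} {f : List Y → V}
    (hf : ∀ l : List Y, l.length + a ≠ n + 1 → f l = 0) (l : List Y) (hl : l.length + a ≠ n) :
    cone x f l = 0 := by
  rw [cone]
  split_ifs
  · rfl
  · exact hf _ (by rw [List.length_cons]; omega)

theorem lh_cst_len {Y : Type} {a n : ℕ} {v : V} (hv : n ≠ a + 1 → v = 0) (l : List Y)
    (hl : l.length + a ≠ n) : cst v l = 0 := by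
  rw [cst]
  split_ifs with h
  · exact hv (by omega)
  · rfl

theorem lh_len_Phi {n : ℕ} {u0 : List B → V} {u1 : List B → Hq g →ₗ[ℚ] V} {u2 : List B → V}
    (l0 : ∀ l : List B, l.length + 0 ≠ n → u0 l = 0)
    (l1 : ∀ l : List B, l.length + 1 ≠ n → u1 l = 0)
    (l2 : ∀ l : List B, l.length + 2 ≠ n → u2 l = 0) : Len n (X.Phi u0 u1 u2) :=
  Len.add (Len.add (fun l hl => l0 _ (by rwa [List.length_map]))
    (lh_cupm_len _ (len_dif X.k) fun l hl => l1 _ (by rwa [List.length_map])))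
    (lh_cupm_len _ X.len_eta fun l hl => l2 _ (by rwa [List.length_map]))

theorem lh_Phi_add (u0 w0 : List B → V) (u1 w1 : List B → Hq g →ₗ[ℚ] V) (u2 w2 : List B → V) :
    X.Phi (u0 + w0) (u1 + w1) (u2 + w2) = X.Phi u0 u1 u2 + X.Phi w0 w1 w2 := by
  simp only [Phi, map_add]
  abel

theorem lh_Phi_mem {u0 : List B → V} (h0 : u0 [] = 0) (u1 : List B → Hq g →ₗ[ℚ] V)
    (u2 : List B → V) : X.Phi u0 u1 u2 ∈ CoN X.j V := by
  refine ⟨by simp [Phi, h0], fun n l => ?_⟩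
  have e0 : (X.p : E → B) ∘ (X.j n * ·) = X.p := funext fun x => by simp [X.p_j]
  have e1 : pl (X.j n * ·) (dif X.k) = dif X.k := funext fun l => by
    rw [pl_apply, X.dif_mem.1.2]
    simp [X.p_j]
  have e2 : pl (X.j n * ·) X.eta = X.eta := funext fun l => X.eta_mem.1.2 _ l
  refine congrFun (show pl (X.j n * ·) (X.Phi u0 u1 u2) = _ from ?_) l
  rw [Phi, map_add, map_add, pl_cupm, pl_cupm, pl_pl, pl_pl, pl_pl, e0, e1, e2]

theorem lh_res_cst (a0 : V) (a1 : Hq g →ₗ[ℚ] V) (a2 : V) :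
    pl X.j (X.Phi (cst a0) (cst a1) (cst a2)) = cst a0 + cm a1 (dif ab) +
      cupm ((omL g).compr₂ (LinearMap.toSpanSingleton ℚ V ((1 / (2 * g) : ℚ) • a2)))
        (dif (ab : Sg g → Hq g)) (dif ab) := by
  rw [Phi, pl_cst, pl_cst, pl_cst, cupm_cst_right _ X.dif_mem.1.1, cupm_cst_right _ X.eta_mem.1.1,
    map_add, map_add, pl_cst, pl_cm, pl_cm, pl_j_dif, eta, map_smul, pl_cupm, pl_j_dif, map_smul,
    cm_cupm, ← cupm_smul_bil]
  congr 1
  exact cupm_congr fun l l' => by simp [smul_comm (om _ _)]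

theorem lh_mono_cst (hg : 1 ≤ g) {a0 : V} {a1 : Hq g →ₗ[ℚ] V} {a2 : V} {β : List E → V}
    (hβ : β ∈ CoN X.j V) (h : dd β = X.Phi (cst a0) (cst a1) (cst a2)) :
    a0 = 0 ∧ a1 = 0 ∧ a2 = 0 := by
  have h1 := pl_mem_Co_of_CoN hβ
  have h2 := congrArg (pl X.j) h
  rw [← dd_pl, lh_res_cst] at h2
  have h3 := Len.cupm (a := 1) (b := 1) (len_dif (ab : Sg g → Hq g)) (len_dif ab)
    ((omL g).compr₂ (LinearMap.toSpanSingleton ℚ V ((1 / (2 * g) : ℚ) • a2)))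
  have e0 : a0 = 0 := by
    have := congrFun h2 [1]
    rw [dd_single, h1.1, Pi.add_apply, Pi.add_apply, h3 _ (by simp)] at this
    simpa [cst, dif] using this.symm
  have e1 : a1 = 0 := eq_zero_of_ab fun x => by
    have := congrFun h2 [1, x]
    have e := h1.2 x [1]
    rw [List.map_singleton, mul_one] at e
    rw [dd_pair, e, Pi.add_apply, Pi.add_apply, h3 _ (by simp)] at this
    simpa [cst, dif, ab_one] using this.symm
  have e2 : cm (0 : Hq g →ₗ[ℚ] V) (dif (ab : Sg g → Hq g)) = 0 := rfl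
  rw [e0, e1, cst_zero, e2, add_zero, zero_add] at h2
  have e3 := (cup_ab_mem_Bc_iff _).1 ⟨_, h1, h2⟩
  have hg' : (2 * g : ℚ) ≠ 0 := by positivity
  rw [cas_omL_smul, smul_smul, mul_one_div_cancel hg', one_smul] at e3
  exact ⟨e0, e1, e3⟩

theorem lh_epi_cst (hg : 1 ≤ g) {n : ℕ} {f : List (Sg g) → V} (hf : f ∈ Zc (triv (Sg g) V))
    (hl : Len (n + 1) f) : ∃ (a0 : V) (a1 : Hq g →ₗ[ℚ] V) (a2 : V), (n + 1 ≠ 0 + 1 → a0 = 0) ∧
      (n + 1 ≠ 1 + 1 → a1 = 0) ∧ (n + 1 ≠ 2 + 1 → a2 = 0) ∧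
      f - pl X.j (X.Phi (cst a0) (cst a1) (cst a2)) ∈ Bc (triv (Sg g) V) := by
  have e1 : cm (0 : Hq g →ₗ[ℚ] V) (dif (ab : Sg g → Hq g)) = 0 := rfl
  have e2 : cupm ((omL g).compr₂ (LinearMap.toSpanSingleton ℚ V ((1 / (2 * g) : ℚ) • (0 : V))))
      (dif (ab : Sg g → Hq g)) (dif ab) = 0 := funext fun l => by simp [cupm_apply]
  simp only [lh_res_cst]
  match n with
  | 0 =>
    refine ⟨f [1], 0, 0, fun h => (h rfl).elim, fun _ => rfl, fun _ => rfl, ?_⟩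
    rw [e1, e2, add_zero, add_zero, ← eq_cst_of_len_one hl hf.2, sub_self]
    exact zero_mem _
  | 1 =>
    obtain ⟨h1, h2⟩ := cross_of_mem_Zc hf hl
    obtain ⟨T, hT⟩ := exists_lin_of_cross (h1.comp (mkS g))
    refine ⟨0, T, 0, fun _ => rfl, fun h => (h rfl).elim, fun _ => rfl, ?_⟩
    have e : (fun x => f [1, x]) = T ∘ ab := funext fun x => by
      obtain ⟨y, rfl⟩ := PresentedGroup.mk_surjective _ x
      exact hT y
    rw [e2, cst_zero, add_zero, zero_add, cm_dif, ← e, ← h2, sub_self]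
    exact zero_mem _
  | 2 =>
    obtain ⟨w, hw⟩ := surf_two_triv hg hf hl
    have hg' : (2 * g : ℚ) ≠ 0 := by positivity
    refine ⟨0, 0, (2 * g : ℚ) • w, fun _ => rfl, fun _ => rfl, fun h => (h rfl).elim, ?_⟩
    rwa [e1, cst_zero, add_zero, zero_add, smul_smul, one_div_mul_cancel hg', one_smul]
  | n + 3 =>
    refine ⟨0, 0, 0, fun _ => rfl, fun _ => rfl, fun _ => rfl, ?_⟩
    rw [e1, e2, cst_zero, add_zero, add_zero, sub_zero]
    exact surf_vanish hg hf hl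

theorem lh_epi_fibre (hg : 1 ≤ g) {n : ℕ} {f : List E → V} (hf : f ∈ CoN X.j V) (hd : dd f = 0)
    (hl : Len n f) : ∃ (a0 : V) (a1 : Hq g →ₗ[ℚ] V) (a2 : V), ∃ β ∈ CoN X.j V,
      (n ≠ 0 + 1 → a0 = 0) ∧ (n ≠ 1 + 1 → a1 = 0) ∧ (n ≠ 2 + 1 → a2 = 0) ∧
      (∀ l : List E, l.length + 1 ≠ n → β l = 0) ∧
      dd β = f - X.Phi (cst a0) (cst a1) (cst a2) := by
  cases n with
  | zero =>
    refine ⟨0, 0, 0, 0, zero_mem _, fun _ => rfl, fun _ => rfl, fun _ => rfl, fun _ _ => rfl, ?_⟩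
    have : f = 0 := funext fun l => by
      cases l with
      | nil => exact hf.1
      | cons x l => exact hl _ (by simp)
    simp [this, Phi, cst_zero]
  | succ n =>
    obtain ⟨a0, a1, a2, h0, h1, h2, h⟩ := X.lh_epi_cst hg
      (mem_Zc.2 ⟨pl_mem_Co_of_CoN hf, by rw [dd_pl, hd, map_zero]⟩) (hl.pl X.j)
    obtain ⟨β, hβ, lβ, dβ⟩ := res_abs X.j X.j_inj
      (sub_mem hf (X.lh_Phi_mem (cst_nil a0) (cst a1) (cst a2)))
      (by
        rw [map_sub, hd, X.dd_Phi (cst_nil _) (cst_nil _), dd_cst, dd_cst, dd_cst]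
        simp [Phi])
      (hl.sub (X.lh_len_Phi (lh_cst_len h0) (lh_cst_len h1) (lh_cst_len h2)))
      (by rwa [map_sub])
    exact ⟨a0, a1, a2, β, hβ, h0, h1, h2, fun l e => lβ l (by omega), dβ⟩

/-- Exactness of the mapping cone before taking invariants. Contract `f0 f1 f2` on the base with
`dd_cone`; restrict to the fibre with `res_abs` and use the cohomology of the surface group. -/
theorem cone_fibre (hg : 1 ≤ g) (n : ℕ) {f0 : List B → V} {f1 : List B → Hq g →ₗ[ℚ] V}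
    {f2 : List B → V} {γ : List E → V} (z0 : f0 [] = 0) (z1 : f1 [] = 0) (z2 : f2 [] = 0)
    (hγ : γ ∈ CoN X.j V) (l0 : ∀ l : List B, l.length ≠ n + 1 → f0 l = 0)
    (l1 : ∀ l : List B, l.length + 1 ≠ n + 1 → f1 l = 0)
    (l2 : ∀ l : List B, l.length + 2 ≠ n + 1 → f2 l = 0)
    (lγ : ∀ l : List E, l.length + 1 ≠ n + 1 → γ l = 0)
    (d0 : dd f0 = 0) (d1 : dd f1 = 0) (d2 : dd f2 = 0) (dγ : dd γ = X.Phi f0 f1 f2) :
    ∃ (u0 : List B → V) (u1 : List B → Hq g →ₗ[ℚ] V) (u2 : List B → V) (β : List E → V),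
      u0 [] = 0 ∧ u1 [] = 0 ∧ u2 [] = 0 ∧ β ∈ CoN X.j V ∧
      (∀ l : List B, l.length ≠ n → u0 l = 0) ∧ (∀ l : List B, l.length + 1 ≠ n → u1 l = 0) ∧
      (∀ l : List B, l.length + 2 ≠ n → u2 l = 0) ∧ (∀ l : List E, l.length + 1 ≠ n → β l = 0) ∧
      dd u0 = f0 ∧ -dd u1 = f1 ∧ dd u2 = f2 ∧ X.Phi u0 u1 u2 - dd β = γ := by
  have c0 := dd_cone 1 z0 d0
  have c1 := dd_cone 1 z1 d1
  have c2 := dd_cone 1 z2 d2
  have n1 : (-cone 1 f1) [] = 0 := by rw [Pi.neg_apply, cone_nil, neg_zero]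
  have m1 := sub_mem hγ (X.lh_Phi_mem (cone_nil 1 f0) (-cone 1 f1) (cone 1 f2))
  have e1 : dd (γ - X.Phi (cone 1 f0) (-cone 1 f1) (cone 1 f2)) =
      X.Phi (cst (f0 [1])) (cst (f1 [1])) (cst (f2 [1])) := by
    rw [map_sub, dγ, X.dd_Phi n1 (cone_nil 1 f2), map_neg, neg_neg, sub_eq_iff_eq_add',
      ← lh_Phi_add, c0, c1, c2]
  obtain ⟨a0, a1, a2⟩ := X.lh_mono_cst hg m1 e1
  rw [a0, cst_zero, add_zero] at c0
  rw [a1, cst_zero, add_zero] at c1
  rw [a2, cst_zero, add_zero] at c2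
  have k0 := lh_cone_len (a := 0) 1 l0
  have k1 : ∀ l : List B, l.length + 1 ≠ n → (-cone 1 f1) l = 0 := fun l hl => by
    rw [Pi.neg_apply, lh_cone_len 1 l1 l hl, neg_zero]
  have k2 := lh_cone_len 1 l2
  obtain ⟨b0, b1, b2, β, hβ, h0, h1, h2, lβ, dβ⟩ := X.lh_epi_fibre hg (n := n) m1
    (by
      rw [e1, a0, a1, a2]
      simp [Phi, cst_zero])
    (Len.sub (fun l hl => lγ l (by omega)) (X.lh_len_Phi k0 k1 k2))
  refine ⟨cone 1 f0 + cst b0, -cone 1 f1 + cst b1, cone 1 f2 + cst b2, -β, ?_, ?_, ?_,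
    neg_mem hβ, fun l hl => ?_, fun l hl => ?_, fun l hl => ?_, fun l hl => ?_, ?_, ?_, ?_, ?_⟩
  · rw [Pi.add_apply, cone_nil, cst_nil, add_zero]
  · rw [Pi.add_apply, n1, cst_nil, add_zero]
  · rw [Pi.add_apply, cone_nil, cst_nil, add_zero]
  · rw [Pi.add_apply, k0 l hl, lh_cst_len h0 l hl, add_zero]
  · rw [Pi.add_apply, k1 l hl, lh_cst_len h1 l hl, add_zero]
  · rw [Pi.add_apply, k2 l hl, lh_cst_len h2 l hl, add_zero]
  · rw [Pi.neg_apply, lβ l hl, neg_zero]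
  · rw [map_add, dd_cst, add_zero, c0]
  · rw [map_add, dd_cst, add_zero, map_neg, neg_neg, c1]
  · rw [map_add, dd_cst, add_zero, c2]
  · rw [lh_Phi_add, map_neg, dβ]
    abel

end Ext

end Pool.Agent.FP
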