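import Pool.Agent.FP.LH

/-! Continuation. -/

namespace Pool.Agent.FP

variable {E B V : Type} [AddCommGroup V] [Module ℚ V] [Group E] [Group B] {g : ℕ}


section Aux
variable {G G' U W Y Z : Type} [AddCommGroup U] [Module ℚ U] [AddCommGroup W] [Module ℚ W]
  [Group G] [Group G']

/-- The part on lists whose length plus `k` is `m`. -/
def lh2_cut (k m : ℕ) (f : List Y → V) (l : List Y) : V := if l.length + k = m then f l else 0

omit [Module ℚ V] in
theorem lh2_cut_len (k m : ℕ) (f : List Y → V) (l : List Y) (h : l.length + k ≠ m) :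
    lh2_cut k m f l = 0 := if_neg h

theorem lh2_cut_add (k m : ℕ) (f : List Y → V) : lh2_cut k (m + k) f = comp m f := by
  ext l
  simp [lh2_cut, comp_apply]

theorem lh2_cut_mem {ρ : Representation ℚ G V} (k m : ℕ) {f : List G → V} (hf : f ∈ Zc ρ) :
    lh2_cut k m f ∈ Zc ρ := by
  rcases le_or_gt k m with h | h
  · obtain ⟨m, rfl⟩ := Nat.exists_eq_add_of_le' h
    rw [lh2_cut_add]
    exact comp_mem_Zc m hf
  · rw [show lh2_cut k m f = 0 from funext fun l => lh2_cut_len k m f l (by omega)]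
    exact zero_mem _

theorem lh2_Bc {ρ : Representation ℚ G V} (k : ℕ) {f : List G → V} (h0 : f [] = 0)
    (h : ∀ n, lh2_cut k (n + 1) f ∈ Bc ρ) : f ∈ Bc ρ := by
  refine mem_Bc_of_comp fun m => ?_
  rcases m with _ | m
  · rw [show comp 0 f = 0 from funext fun l => by
      cases l <;> simp [comp_apply, h0]]
    exact zero_mem _
  · rw [← lh2_cut_add k, Nat.add_right_comm]
    exact h _

theorem lh2_glue {ρ : Representation ℚ G V} (k : ℕ) (u : ℕ → List G → V)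
    (hu : ∀ m, u m ∈ Co ρ) (hd : ∀ m, dd (u m) = 0)
    (hl : ∀ m (l : List G), l.length + k ≠ m → u m l = 0) :
    ∃ f ∈ Zc ρ, ∀ m, lh2_cut k m f = u m := by
  have key : ∀ m, lh2_cut k m (fun l => u (l.length + k) l) = u m := fun m => funext fun l => by
    by_cases h : l.length + k = m
    · simp only [lh2_cut, h, if_true]
    · rw [lh2_cut_len _ _ _ _ h, hl m l h]
  refine ⟨fun l => u (l.length + k) l, ⟨⟨(hu _).1, fun x l => ?_⟩, ?_⟩, key⟩
  · simpa using (hu _).2 x l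
  · refine funext fun l => ?_
    rcases l with _ | ⟨x, l⟩
    · exact dd_nil _
    · have := congrFun (dd_comp l.length fun l => u (l.length + k) l) (x :: l)
      rw [← lh2_cut_add k, key, hd, comp_apply, if_pos (List.length_cons ..)] at this
      exact this.symm

theorem lh2_dd_len {k n : ℕ} {f : List Y → V} (h : ∀ l : List Y, l.length + k ≠ n → f l = 0)
    (l : List Y) (hl : l.length + k ≠ n + 1) : dd f l = 0 := by
  rw [dd_apply]
  refine Finset.sum_eq_zero fun i hi => ?_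
  rw [Finset.mem_range] at hi
  rw [h _ (by rw [List.length_eraseIdx_of_lt hi]; omega), smul_zero]

theorem lh2_cupm_len {a n : ℕ} {f : List Y → U} (hf : Len (a + 1) f) (μ : U →ₗ[ℚ] V →ₗ[ℚ] W)
    {h : List Y → V} (hh : ∀ l : List Y, l.length + a ≠ n → h l = 0) (l : List Y)
    (hl : l.length ≠ n) : cupm μ f h l = 0 := by
  rw [cupm_apply]
  refine Finset.sum_eq_zero fun i hi => ?_
  rw [Finset.mem_range] at hi
  by_cases e : i = a
  · rw [hh _ (by rw [List.length_drop]; omega), map_zero]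
  · rw [hf _ (by rw [List.length_take]; omega), map_zero, LinearMap.zero_apply]

theorem lh2_comp_cupm {a : ℕ} {f : List Y → U} (hf : Len (a + 1) f) (μ : U →ₗ[ℚ] V →ₗ[ℚ] W)
    (h : List Y → V) (m : ℕ) : comp m (cupm μ f h) = cupm μ f (lh2_cut a m h) := by
  ext l
  rw [comp_apply]
  split_ifs with e
  · rw [cupm_apply, cupm_apply]
    refine Finset.sum_congr rfl fun i hi => ?_
    rw [Finset.mem_range] at hi
    by_cases e' : i = a
    · rw [lh2_cut, if_pos (by rw [List.length_drop]; omega)]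
    · rw [hf _ (by rw [List.length_take]; omega), map_zero, LinearMap.zero_apply,
        LinearMap.zero_apply]
  · exact (lh2_cupm_len hf μ (lh2_cut_len a m h) l e).symm

theorem lh2_pl_cut (p : Y → Z) (k m : ℕ) (f : List Z → V) :
    pl p (lh2_cut k m f) = lh2_cut k m (pl p f) := by
  ext l
  simp [lh2_cut]

theorem lh2_act_pl (p : G' →* G) (ρ : Representation ℚ G' V) (e : G') (f : List G → V) :
    act (MonoidHom.id G') ρ e (pl p f) = pl p (act p ρ e f) := by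
  ext l
  simp [act_apply, Function.comp_def]

theorem lh2_act_cupm {ρU : Representation ℚ G U} {ρV : Representation ℚ G V}
    {ρW : Representation ℚ G W} {μ : U →ₗ[ℚ] V →ₗ[ℚ] W} (hμ : Eqv₂ ρU ρV ρW μ) {f : List G → U}
    (hf : f ∈ Co ρU) (h : List G → V) (e : G) : act (MonoidHom.id G) ρW e (cupm μ f h) =
      cupm μ f (act (MonoidHom.id G) ρV e h) := by
  have e1 := ((mem_Co_iff_act (MonoidHom.id G) Function.surjective_id ρU).1 hf).2 e
  ext l
  simp only [act_apply, cupm_apply, map_sum, List.length_map]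
  refine Finset.sum_congr rfl fun i _ => ?_
  rw [← hμ, ← List.map_take, ← List.map_drop]
  exact congrArg (fun t => μ t _) (congrFun e1 _)

theorem lh2_act_one (φ : G' →* G) (p : G' →* B) (ρ : Representation ℚ B V) {e : G'}
    (h1 : φ e = 1) (h2 : p e = 1) (f : List G → V) : act φ (ρ.comp p) e f = f := by
  ext l
  simp [act_apply, h1, h2]

end Aux

namespace Ext
variable (X : Ext g E B)

theorem lh2_CoN (ρ : Representation ℚ B V) {γ : List E → V} : γ ∈ CoN X.j V ↔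
    γ [] = 0 ∧ ∀ e, X.p e = 1 → act (MonoidHom.id E) (ρ.comp X.p) e γ = γ := by
  refine and_congr_right fun _ => ⟨fun h e he => ?_, fun h n l => ?_⟩
  · obtain ⟨n, rfl⟩ := (X.ker_p e).1 he
    ext l
    simpa [act_apply, he] using h n⁻¹ l
  · simpa [act_apply, X.p_j] using congrFun (h (X.j n)⁻¹ (by simp [X.p_j])) l

theorem lh2_act_Phi (ρ : Representation ℚ B V) (e : E) (f0 : List B → V)
    (f1 : List B → Hq g →ₗ[ℚ] V) (f2 : List B → V) :
    act (MonoidHom.id E) (ρ.comp X.p) e (X.Phi f0 f1 f2) = X.Phi (act X.p (ρ.comp X.p) e f0)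
      (act X.p ((X.ρH.linHom ρ).comp X.p) e f1) (act X.p (ρ.comp X.p) e f2) := by
  rw [Phi, Phi, map_add, map_add, lh2_act_cupm ((eqv₂_evB X.ρH ρ).comp X.p) X.dif_mem.1,
    lh2_act_cupm (eqv₂_lsmul (ρ.comp X.p)) X.eta_mem.1, lh2_act_pl, lh2_act_pl, lh2_act_pl]

theorem lh2_comp_Phi (m : ℕ) (f0 : List B → V) (f1 : List B → Hq g →ₗ[ℚ] V) (f2 : List B → V) :
    comp m (X.Phi f0 f1 f2) = X.Phi (lh2_cut 0 m f0) (lh2_cut 1 m f1) (lh2_cut 2 m f2) := by
  rw [Phi, Phi, map_add, map_add, lh2_comp_cupm (len_dif _), lh2_comp_cupm X.len_eta, lh2_pl_cut,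
    lh2_pl_cut, lh2_pl_cut, ← lh2_cut_add 0, add_zero]

/-- The underlying space of the mapping cone. -/
abbrev lh2_W (g : ℕ) (E B V : Type) [AddCommGroup V] [Module ℚ V] : Type :=
  (List B → V) × (List B → Hq g →ₗ[ℚ] V) × (List B → V) × (List E → V)

/-- The differential of the mapping cone. -/
def lh2_d : lh2_W g E B V →ₗ[ℚ] lh2_W g E B V where
  toFun w := (dd w.1, -dd w.2.1, dd w.2.2.1, X.Phi w.1 w.2.1 w.2.2.1 - dd w.2.2.2)
  map_add' v w := by
    simp only [Phi, Prod.fst_add, Prod.snd_add, map_add, Prod.mk_add_mk, Prod.mk.injEq, true_and]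
    constructor <;> abel
  map_smul' c w := by
    simp only [Phi, Prod.smul_fst, Prod.smul_snd, map_smul, Prod.smul_mk, RingHom.id_apply,
      smul_neg, smul_sub, smul_add]

/-- The grading of the mapping cone. -/
def lh2_gr (n : ℕ) : Submodule ℚ (lh2_W g E B V) where
  carrier := {w | w.1 [] = 0 ∧ w.2.1 [] = 0 ∧ w.2.2.1 [] = 0 ∧ w.2.2.2 ∈ CoN X.j V ∧
    (∀ l : List B, l.length ≠ n → w.1 l = 0) ∧ (∀ l : List B, l.length + 1 ≠ n → w.2.1 l = 0) ∧
    (∀ l : List B, l.length + 2 ≠ n → w.2.2.1 l = 0) ∧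
    ∀ l : List E, l.length + 1 ≠ n → w.2.2.2 l = 0}
  add_mem' := fun {v w} ⟨a, b, c, d, e, f, h, i⟩ ⟨a', b', c', d', e', f', h', i'⟩ =>
    ⟨by simp [a, a'], by simp [b, b'], by simp [c, c'], add_mem d d',
      fun l hl => by simp [e l hl, e' l hl], fun l hl => by simp [f l hl, f' l hl],
      fun l hl => by simp [h l hl, h' l hl], fun l hl => by simp [i l hl, i' l hl]⟩
  zero_mem' := ⟨rfl, rfl, rfl, zero_mem _, fun _ _ => rfl, fun _ _ => rfl, fun _ _ => rfl,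
    fun _ _ => rfl⟩
  smul_mem' := fun t w ⟨a, b, c, d, e, f, h, i⟩ =>
    ⟨by simp [a], by simp [b], by simp [c], Submodule.smul_mem _ t d,
      fun l hl => by simp [e l hl], fun l hl => by simp [f l hl],
      fun l hl => by simp [h l hl], fun l hl => by simp [i l hl]⟩

/-- The action on the mapping cone. -/
noncomputable def lh2_a (ρ : Representation ℚ B V) : Representation ℚ E (lh2_W g E B V) :=
  (act X.p (ρ.comp X.p)).prod ((act X.p ((X.ρH.linHom ρ).comp X.p)).prod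
    ((act X.p (ρ.comp X.p)).prod (act (MonoidHom.id E) (ρ.comp X.p))))

theorem lh2_a_apply (ρ : Representation ℚ B V) (e : E) (w : lh2_W g E B V) :
    X.lh2_a ρ e w = (act X.p (ρ.comp X.p) e w.1, act X.p ((X.ρH.linHom ρ).comp X.p) e w.2.1,
      act X.p (ρ.comp X.p) e w.2.2.1, act (MonoidHom.id E) (ρ.comp X.p) e w.2.2.2) := rfl

/-- The retraction from the coinduced module. -/
def lh2_R : (B → lh2_W g E B V) →ₗ[ℚ] lh2_W g E B V where
  toFun F := (rfirst (MonoidHom.id B) fun b => (F b).1, rfirst (MonoidHom.id B) fun b => (F b).2.1,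
    rfirst (MonoidHom.id B) fun b => (F b).2.2.1, rfirst X.p fun b => (F b).2.2.2)
  map_add' F F' := by
    simp only [Prod.mk_add_mk, ← map_add]
    rfl
  map_smul' c F := by
    simp only [Prod.smul_mk, RingHom.id_apply, ← map_smul]
    rfl

/-- Exactness of the mapping cone: `inv_acyclic` on the product of the four function spaces with
`d (f0, f1, f2, γ) = (dd f0, -dd f1, dd f2, Phi f0 f1 f2 - dd γ)`, the product of the actions `act`
and the product of the maps `rfirst`. -/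
theorem cone_exact (hg : 1 ≤ g) (ρ : Representation ℚ B V) (n : ℕ) {f0 : List B → V}
    {f1 : List B → Hq g →ₗ[ℚ] V} {f2 : List B → V} {γ : List E → V} (h0 : f0 ∈ Zc ρ)
    (h1 : f1 ∈ Zc (X.ρH.linHom ρ)) (h2 : f2 ∈ Zc ρ) (hγ : γ ∈ Co (ρ.comp X.p))
    (l0 : ∀ l : List B, l.length ≠ n + 1 → f0 l = 0)
    (l1 : ∀ l : List B, l.length + 1 ≠ n + 1 → f1 l = 0)
    (l2 : ∀ l : List B, l.length + 2 ≠ n + 1 → f2 l = 0)
    (lγ : ∀ l : List E, l.length + 1 ≠ n + 1 → γ l = 0) (dγ : dd γ = X.Phi f0 f1 f2) :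
    ∃ u0 ∈ Co ρ, ∃ u1 ∈ Co (X.ρH.linHom ρ), ∃ u2 ∈ Co ρ, ∃ β ∈ Co (ρ.comp X.p),
      dd u0 = f0 ∧ -dd u1 = f1 ∧ dd u2 = f2 ∧ X.Phi u0 u1 u2 - dd β = γ ∧
      (∀ l : List B, l.length ≠ n → u0 l = 0) ∧ (∀ l : List B, l.length + 1 ≠ n → u1 l = 0) ∧
      (∀ l : List B, l.length + 2 ≠ n → u2 l = 0) := by
  have key := inv_acyclic X.p X.p_surj (X.lh2_a ρ) X.lh2_d X.lh2_gr X.lh2_R ?_ ?_ ?_ ?_ ?_ ?_ ?_
    ?_ ?_ ?_ (n := n) (v := (f0, f1, f2, γ)) ?_ ?_ ?_
  · obtain ⟨⟨u0, u1, u2, β⟩, ⟨a, b, c, d, e, f, h, -⟩, hd, hi⟩ := key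
    simp only [lh2_a_apply, Prod.mk.injEq] at hi
    obtain ⟨d0, d1, d2, d3⟩ : dd u0 = f0 ∧ -dd u1 = f1 ∧ dd u2 = f2 ∧
        X.Phi u0 u1 u2 - dd β = γ := by simpa only [lh2_d, LinearMap.coe_mk, AddHom.coe_mk,
          Prod.mk.injEq] using hd
    exact ⟨u0, (mem_Co_iff_act X.p X.p_surj _).2 ⟨a, fun x => (hi x).1⟩,
      u1, (mem_Co_iff_act X.p X.p_surj _).2 ⟨b, fun x => (hi x).2.1⟩,
      u2, (mem_Co_iff_act X.p X.p_surj _).2 ⟨c, fun x => (hi x).2.2.1⟩,
      β, (mem_Co_iff_act (MonoidHom.id E) Function.surjective_id _).2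
        ⟨d.1, fun x => (hi x).2.2.2⟩, d0, d1, d2, d3, e, f, h⟩
  · intro e v
    simp only [lh2_a_apply, lh2_d, LinearMap.coe_mk, AddHom.coe_mk, map_neg, map_sub, act_dd,
      lh2_act_Phi]
  · rintro m v ⟨-, b, c, -⟩
    simp only [lh2_d, LinearMap.coe_mk, AddHom.coe_mk, map_neg, map_sub, dd_dd, X.dd_Phi b c,
      neg_zero, sub_zero, sub_self]
    rfl
  · rintro m v ⟨a, b, c, d, e, f, h, i⟩
    refine ⟨dd_nil _, neg_eq_zero.2 (dd_nil _), dd_nil _, sub_mem ((X.lh2_CoN ρ).2 ⟨?_,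
      fun x hx => ?_⟩) (dd_mem_CoN d), lh2_dd_len (k := 0) e,
      fun l hl => neg_eq_zero.2 (lh2_dd_len f l hl), lh2_dd_len h, fun l hl => ?_⟩
    · simp [Phi, a]
    · rw [lh2_act_Phi, lh2_act_one _ _ _ hx hx, lh2_act_one _ _ _ hx hx, lh2_act_one _ _ _ hx hx]
    · replace hl : l.length ≠ m := by omega
      change X.Phi v.1 v.2.1 v.2.2.1 l - dd v.2.2.2 l = 0
      rw [lh2_dd_len i l (by omega), Phi, Pi.add_apply, Pi.add_apply, pl_apply,
        e _ (by simpa using hl), lh2_cupm_len (len_dif _) _ (h := pl X.p v.2.1)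
        (fun l hl => f _ (by simpa using hl)) l hl, lh2_cupm_len X.len_eta _
        (h := pl X.p v.2.2.1) (fun l hl => h _ (by simpa using hl)) l hl]
      simp
  · rintro m x v ⟨a, b, c, d, e, f, h, i⟩
    rw [X.lh2_CoN ρ] at d
    rw [lh2_a_apply]
    refine ⟨by simp [act_apply, a], by simp [act_apply, b], by simp [act_apply, c],
      (X.lh2_CoN ρ).2 ⟨by simp [act_apply, d.1], fun y hy => ?_⟩,
      fun l hl => ?_, fun l hl => ?_, fun l hl => ?_, fun l hl => ?_⟩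
    · have := congrArg (act (MonoidHom.id E) (ρ.comp X.p) x) (d.2 (x⁻¹ * y * x) (by simp [hy]))
      rw [← Module.End.mul_apply, ← map_mul, ← mul_assoc, mul_inv_cancel_left, map_mul] at this
      exact this
    · exact (act_apply ..).trans (by rw [e _ (by simpa using hl), map_zero])
    · exact (act_apply ..).trans (by rw [f _ (by simpa using hl), map_zero])
    · exact (act_apply ..).trans (by rw [h _ (by simpa using hl), map_zero])
    · exact (act_apply ..).trans (by rw [i _ (by simpa using hl), map_zero])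
  · rintro m x hx v ⟨-, -, -, d, -⟩
    rw [lh2_a_apply, lh2_act_one _ _ _ hx hx, lh2_act_one _ _ _ hx hx, lh2_act_one _ _ _ hx hx,
      ((X.lh2_CoN ρ).1 d).2 x hx]
  · refine eq_bot_iff.2 ?_
    rintro v ⟨a, -, -, -, e, f, h, i⟩
    refine Prod.ext (funext fun l => ?_) (Prod.ext (funext fun l => f l (by omega))
      (Prod.ext (funext fun l => h l (by omega)) (funext fun l => i l (by omega))))
    cases l
    · exact a
    · exact e _ (by simp)
  · rintro m ⟨v0, v1, v2, v3⟩ ⟨a, b, c, d, e, f, h, i⟩ hd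
    obtain ⟨d0, d1, d2, d3⟩ : dd v0 = 0 ∧ -dd v1 = 0 ∧ dd v2 = 0 ∧
        X.Phi v0 v1 v2 - dd v3 = 0 := by simpa only [lh2_d, LinearMap.coe_mk, AddHom.coe_mk,
          Prod.mk_eq_zero] using hd
    obtain ⟨u0, u1, u2, β, a', b', c', d', e', f', h', i', k0, k1, k2, k3⟩ := X.cone_fibre hg m
      a b c d e f h i d0 (neg_eq_zero.1 d1) d2 (sub_eq_zero.1 d3).symm
    exact ⟨(u0, u1, u2, β), ⟨a', b', c', d', e', f', h', i'⟩,
      Prod.ext k0 (Prod.ext k1 (Prod.ext k2 k3))⟩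
  · rintro m v ⟨a, b, c, d, -⟩
    exact Prod.ext (rfirst_const _ a) (Prod.ext (rfirst_const _ b)
      (Prod.ext (rfirst_const _ c) (rfirst_const _ d.1)))
  · intro e F
    exact Prod.ext (rfirst_act X.p _ (MonoidHom.id B) e fun b => (F b).1)
      (Prod.ext (rfirst_act X.p ((X.ρH.linHom ρ).comp X.p) (MonoidHom.id B) e fun b => (F b).2.1)
      (Prod.ext (rfirst_act X.p _ (MonoidHom.id B) e fun b => (F b).2.2.1)
      (rfirst_act (MonoidHom.id E) _ X.p e fun b => (F b).2.2.2)))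
  · intro m F hF
    refine ⟨rfl, rfl, rfl, ⟨rfl, fun x l => ?_⟩,
      fun l hl => rfirst_zero _ fun b => (hF b).2.2.2.2.1 l hl,
      fun l hl => rfirst_zero _ fun b => (hF b).2.2.2.2.2.1 l hl,
      fun l hl => rfirst_zero _ fun b => (hF b).2.2.2.2.2.2.1 l hl,
      fun l hl => rfirst_zero _ fun b => (hF b).2.2.2.2.2.2.2 l hl⟩
    rcases l with _ | ⟨y, l⟩
    · rfl
    · change (F (X.p (X.j x * y))).2.2.2 ((y :: l).map (X.j x * ·)) = (F (X.p y)).2.2.2 (y :: l)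
      rw [map_mul, X.p_j, one_mul]
      exact (hF _).2.2.2.1.2 x _
  · exact ⟨h0.1.1, h1.1.1, h2.1.1, ⟨hγ.1, fun x l => by simp [hγ.2, X.p_j]⟩, l0, l1, l2, lγ⟩
  · exact Prod.ext h0.2 (Prod.ext (neg_eq_zero.2 h1.2) (Prod.ext h2.2 (sub_eq_zero.2 dγ.symm)))
  · intro e
    exact Prod.ext (((mem_Co_iff_act X.p X.p_surj _).1 h0.1).2 e)
      (Prod.ext (((mem_Co_iff_act X.p X.p_surj _).1 h1.1).2 e)
      (Prod.ext (((mem_Co_iff_act X.p X.p_surj _).1 h2.1).2 e)
      (((mem_Co_iff_act (MonoidHom.id E) Function.surjective_id _).1 hγ).2 e)))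

/-- Every cocycle has a Leray and Hirsch decomposition. Apply `cone_exact` to `(0, 0, 0, f)` in
each degree and glue the homogeneous pieces. -/
theorem lh_epi (hg : 1 ≤ g) (ρ : Representation ℚ B V) {f : List E → V}
    (hf : f ∈ Zc (ρ.comp X.p)) : ∃ f0 ∈ Zc ρ, ∃ f1 ∈ Zc (X.ρH.linHom ρ), ∃ f2 ∈ Zc ρ,
      f - X.Phi f0 f1 f2 ∈ Bc (ρ.comp X.p) := by
  have key := fun m => X.cone_exact hg ρ m (zero_mem _) (zero_mem _) (zero_mem _)
    (comp_mem_Co m hf.1) (fun _ _ => rfl) (fun _ _ => rfl) (fun _ _ => rfl)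
    (fun l hl => len_comp m f l (by omega)) ((comp_mem_Zc m hf).2.trans (by simp [Phi]))
  choose u0 a0 u1 a1 u2 a2 β a3 d0 d1 d2 d3 l0 l1 l2 using key
  obtain ⟨f0, b0, c0⟩ := lh2_glue 0 u0 a0 d0 l0
  obtain ⟨f1, b1, c1⟩ := lh2_glue 1 u1 a1 (fun m => neg_eq_zero.1 (d1 m)) l1
  obtain ⟨f2, b2, c2⟩ := lh2_glue 2 u2 a2 d2 l2
  refine ⟨f0, b0, f1, b1, f2, b2, mem_Bc_of_comp fun m => ?_⟩
  rw [map_sub, lh2_comp_Phi, c0, c1, c2, ← d3, sub_sub_cancel_left]
  exact neg_mem (dd_mem_Bc (a3 m))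

/-- The decomposition is unique. -/
theorem lh_mono (hg : 1 ≤ g) (ρ : Representation ℚ B V) {f0 : List B → V}
    {f1 : List B → Hq g →ₗ[ℚ] V} {f2 : List B → V} (h0 : f0 ∈ Zc ρ)
    (h1 : f1 ∈ Zc (X.ρH.linHom ρ)) (h2 : f2 ∈ Zc ρ) (h : X.Phi f0 f1 f2 ∈ Bc (ρ.comp X.p)) :
    f0 ∈ Bc ρ ∧ f1 ∈ Bc (X.ρH.linHom ρ) ∧ f2 ∈ Bc ρ := by
  obtain ⟨γ, hγ, dγ⟩ := mem_Bc.1 h
  have key := fun m => X.cone_exact hg ρ m (lh2_cut_mem 0 (m + 1) h0) (lh2_cut_mem 1 (m + 1) h1)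
    (lh2_cut_mem 2 (m + 1) h2) (comp_mem_Co m hγ) (lh2_cut_len 0 _ _) (lh2_cut_len 1 _ _)
    (lh2_cut_len 2 _ _) (fun l hl => len_comp m γ l (by omega))
    (by rw [dd_comp, dγ, lh2_comp_Phi])
  choose u0 a0 u1 a1 u2 a2 β a3 d0 d1 d2 _ using key
  exact ⟨lh2_Bc 0 h0.1.1 fun m => d0 m ▸ dd_mem_Bc (a0 m),
    lh2_Bc 1 h1.1.1 fun m => d1 m ▸ neg_mem (dd_mem_Bc (a1 m)),
    lh2_Bc 2 h2.1.1 fun m => d2 m ▸ dd_mem_Bc (a2 m)⟩

end Ext

end Pool.Agent.FP
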