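import Pool.Agent.FP.Ex2
import Pool.Agent.FP.GrpCent

/-! Actions on homology, the action on the surface group, the quadratic Magnus expansion. -/

namespace Pool.Agent.FP

variable {g : ℕ}

/-- The linear map with prescribed values on the basis. -/
def ofBv {W : Type} [AddCommGroup W] [Module ℚ W] (w : Fin g × Bool → W) : Hq g →ₗ[ℚ] W :=
  ∑ j, (cv j).smulRight (w j)

theorem ofBv_bv {W : Type} [AddCommGroup W] [Module ℚ W] (w : Fin g × Bool → W)
    (j : Fin g × Bool) : ofBv w (bv j) = w j := by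
  simp only [ofBv, LinearMap.coe_sum, Finset.sum_apply, LinearMap.smulRight_apply, ex2_cv_bv]
  rw [Finset.sum_eq_single j (fun i _ h => by simp [h]) (by simp)]
  simp

theorem mg1_ext {W : Type} [AddCommGroup W] [Module ℚ W] {T T' : Hq g →ₗ[ℚ] W}
    (h : ∀ x : Sg g, T (ab x) = T' (ab x)) : T = T' :=
  sub_eq_zero.1 (eq_zero_of_ab fun x => by rw [LinearMap.sub_apply, h, sub_self])

/-- A homomorphism on the free group is the linear map given by its values on generators. -/
theorem ofBv_ab {W : Type} [AddCommGroup W] [Module ℚ W] {c : Fr g → W}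
    (hc : ∀ x y, c (x * y) = c x + c y) (x : Fr g) :
    ofBv (fun j => c (FreeGroup.of j)) (ab (mkS g x)) = c x := by
  obtain ⟨T, hT⟩ := exists_lin_of_cross (c := c) fun x y => by simp [hc]
  have : ofBv (fun j => c (FreeGroup.of j)) = T := (Pi.basisFun ℚ _).ext fun j => by
    have h := hT (FreeGroup.of j)
    rw [ab_of] at h
    rw [Pi.basisFun_apply]
    exact (ofBv_bv _ j).trans h
  rw [this]
  exact (hT x).symm

theorem mg1_hom (φ : Sg g →* Sg g) (x : Sg g) :
    ofBv (fun j => ab (φ (mkS g (FreeGroup.of j)))) (ab x) = ab (φ x) := by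
  obtain ⟨w, rfl⟩ := PresentedGroup.mk_surjective _ x
  exact ofBv_ab (c := fun x => ab (φ (mkS g x))) (fun x y => by rw [map_mul, map_mul, ab_mul]) w

/-- The action of an automorphism on homology. -/
def autH (φ : MulAut (Sg g)) : Hq g →ₗ[ℚ] Hq g :=
  ofBv fun j => ab (φ (mkS g (FreeGroup.of j)))

theorem autH_ab (φ : MulAut (Sg g)) (x : Sg g) : autH φ (ab x) = ab (φ x) :=
  mg1_hom φ.toMonoidHom x

theorem autH_one : autH (1 : MulAut (Sg g)) = 1 := mg1_ext fun x => autH_ab 1 x

theorem autH_mul (φ ψ : MulAut (Sg g)) : autH (φ * ψ) = autH φ * autH ψ :=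
  mg1_ext fun x => by
    rw [Module.End.mul_apply, autH_ab, autH_ab, autH_ab]
    rfl

/-- The symplectic representation. -/
def autRep (g : ℕ) : Representation ℚ (Aut g) (Hq g) where
  toFun φ := autH φ.1
  map_one' := autH_one
  map_mul' φ ψ := autH_mul φ.1 ψ.1

theorem autRep_ab (φ : Aut g) (x : Sg g) : autRep g φ (ab x) = ab (φ.1 x) := autH_ab φ.1 x

theorem autRep_sp (φ : Aut g) : Sp (autRep g φ) := fun u v => by
  have : (omL g).compl₁₂ (autRep g φ) (autRep g φ) = omL g := mg1_ext fun x => mg1_ext fun y => by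
    rw [LinearMap.compl₁₂_apply, autRep_ab, autRep_ab]
    exact φ.2 x y
  exact LinearMap.congr_fun₂ this u v

theorem mg1_inn (x y : Sg g) : (inn x).1 y = x * y * x⁻¹ := rfl

theorem autRep_inn (x : Sg g) : autRep g (inn x) = 1 := mg1_ext fun y => by
  rw [autRep_ab, mg1_inn, ab_mul, ab_mul, ab_inv, Module.End.one_apply]
  abel

/-- Inner automorphisms as a homomorphism. -/
def innH (g : ℕ) : Sg g →* Aut g where
  toFun := inn
  map_one' := Subtype.ext (map_one MulAut.conj)
  map_mul' x y := Subtype.ext (map_mul MulAut.conj x y)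

theorem mul_inn (φ : Aut g) (x : Sg g) : φ * inn x = inn (φ.1 x) * φ :=
  Subtype.ext (MulEquiv.ext fun y => by simp [mg1_inn])

theorem out_eq_one_iff (φ : Aut g) : (φ : Out g) = 1 ↔ φ ∈ (innH g).range := by
  rw [QuotientGroup.eq_one_iff]
  refine ⟨fun h => ?_, fun ⟨x, h⟩ => Subgroup.subset_normalClosure ⟨x, h⟩⟩
  have : (innH g).range.Normal := ⟨by
    rintro _ ⟨x, rfl⟩ ψ
    exact ⟨ψ.1 x, eq_mul_inv_iff_mul_eq.2 (mul_inn ψ x).symm⟩⟩
  exact Subgroup.normalClosure_le_normal (N := (innH g).range) (fun _ h => h) h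

theorem innH_inj (hg : 2 ≤ g) : Function.Injective (innH g) := inn_injective hg

/-- The symplectic representation of the outer automorphism group. -/
def outRep (g : ℕ) : Representation ℚ (Out g) (Hq g) :=
  QuotientGroup.lift _ (autRep g) (Subgroup.normalClosure_le_normal (N := (autRep g).ker) (by
    rintro _ ⟨x, rfl⟩
    exact autRep_inn x))

theorem outRep_mk (φ : Aut g) : outRep g (φ : Out g) = autRep g φ := rfl

theorem outRep_sp (b : Out g) : Sp (outRep g b) := by
  obtain ⟨φ, rfl⟩ := QuotientGroup.mk_surjective b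
  exact autRep_sp φ

/-- An automorphism fixing the boundary word acts on the surface group. -/
def mg1_desc (φ : Mb g) : Sg g →* Sg g :=
  PresentedGroup.toGroup (f := fun j => mkS g (φ.1 (FreeGroup.of j))) (by
    rintro r rfl
    have : FreeGroup.lift (fun j => mkS g (φ.1 (FreeGroup.of j))) =
        (mkS g).comp φ.1.toMonoidHom := FreeGroup.ext_hom _ _ fun j => by simp
    have h : φ.1 (bdw g) = bdw g := φ.2
    rw [this]
    exact (congrArg (mkS g) h).trans (mkS_bdw g))

theorem mg1_desc_mk (φ : Mb g) (x : Fr g) : mg1_desc φ (mkS g x) = mkS g (φ.1 x) :=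
  DFunLike.congr_fun (FreeGroup.ext_hom ((mg1_desc φ).comp (mkS g))
    ((mkS g).comp φ.1.toMonoidHom) fun j => by
      change mg1_desc φ (PresentedGroup.of j) = _
      rw [mg1_desc, PresentedGroup.toGroup.of]
      rfl) x

theorem mg1_desc_mul (φ ψ : Mb g) (x : Sg g) :
    mg1_desc (φ * ψ) x = mg1_desc φ (mg1_desc ψ x) := by
  obtain ⟨w, rfl⟩ := PresentedGroup.mk_surjective _ x
  simp only [mg1_desc_mk]
  rfl

theorem mg1_desc_one (x : Sg g) : mg1_desc (1 : Mb g) x = x := by
  obtain ⟨w, rfl⟩ := PresentedGroup.mk_surjective _ x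
  simp only [mg1_desc_mk]
  rfl

theorem mg1_desc_om (φ : Mb g) (x y : Sg g) :
    om (ab (mg1_desc φ x)) (ab (mg1_desc φ y)) = om (ab x) (ab y) := by
  have h := fun χ : Mb g => mg1_hom (mg1_desc χ)
  rw [← h, ← h]
  refine om_of_cas (Function.LeftInverse.injective
    (g := ofBv fun j => ab (mg1_desc φ⁻¹ (mkS g (FreeGroup.of j)))) fun v =>
    LinearMap.congr_fun (mg1_ext (T := ofBv _ ∘ₗ ofBv _) (T' := LinearMap.id) fun x => ?_) v)
    (fun μ => ?_) _ _
  · rw [LinearMap.comp_apply, h, h, ← mg1_desc_mul, inv_mul_cancel, mg1_desc_one]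
    rfl
  · obtain ⟨θ, hθ, -⟩ := exists_magnus μ
    have e : φ.1 (bdw g) = bdw g := φ.2
    refine (magnus_bdw (θ := fun x => θ (φ.1 x)) fun x y => ?_).symm.trans
      ((congrArg θ e).trans (magnus_bdw hθ))
    rw [map_mul, hθ, LinearMap.compl₁₂_apply, h, h, mg1_desc_mk, mg1_desc_mk]

/-- The action of the mapping class group of the bordered surface on the surface group. -/
def mg1_descA (g : ℕ) : Mb g →* Aut g :=
  MonoidHom.mk' (fun φ => ⟨MonoidHom.toMulEquiv (mg1_desc φ) (mg1_desc φ⁻¹)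
    (MonoidHom.ext fun x => by
      rw [MonoidHom.comp_apply, ← mg1_desc_mul, inv_mul_cancel, mg1_desc_one]; rfl)
    (MonoidHom.ext fun x => by
      rw [MonoidHom.comp_apply, ← mg1_desc_mul, mul_inv_cancel, mg1_desc_one]; rfl),
      mg1_desc_om φ⟩)
    fun φ ψ => Subtype.ext (MulEquiv.ext (mg1_desc_mul φ ψ))

/-- An automorphism fixing the boundary word induces an automorphism of the surface group
(`QuotientGroup.congr`); it preserves the form by `om_of_cas`: for a bilinear `μ` and the Magnus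
functions `θ` of `μ` and `θ'` of `μ ∘ (φ, φ)`, the function `θ ∘ φ - θ'` is additive, so it kills
the boundary word. The twist acts trivially. -/
theorem exists_rho (g : ℕ) : ∃ ρ : Gam g →* Aut g, IsRho ρ := by
  refine ⟨QuotientGroup.lift _ (mg1_descA g) (Subgroup.normalClosure_le_normal ?_),
    fun φ x => mg1_desc_mk φ x⟩
  rintro _ rfl
  refine Subtype.ext (MulEquiv.ext fun x => ?_)
  obtain ⟨w, rfl⟩ := PresentedGroup.mk_surjective _ x
  refine (mg1_desc_mk (tw g) w).trans ?_
  simp [tw, mkS_bdw]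

/-- Half the exterior product of two vectors. -/
def muE (g : ℕ) : Hq g →ₗ[ℚ] Hq g →ₗ[ℚ] Lm (Hq g) :=
  (1 / 2 : ℚ) • (LinearMap.mul ℚ _).compl₁₂ io io

/-- The quadratic Magnus expansion. -/
noncomputable def th2 (g : ℕ) : Fr g → Lm (Hq g) := (exists_magnus (muE g)).choose

theorem th2_mul (x y : Fr g) : th2 g (x * y) =
    th2 g x + th2 g y + (1 / 2 : ℚ) • (io (ab (mkS g x)) * io (ab (mkS g y))) :=
  (exists_magnus (muE g)).choose_spec.1 x y

theorem th2_of (j : Fin g × Bool) : th2 g (FreeGroup.of j) = 0 :=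
  (exists_magnus (muE g)).choose_spec.2 j

theorem mg1_spec (x y : Fr g) :
    th2 g (x * y) = th2 g x + th2 g y + muE g (ab (mkS g x)) (ab (mkS g y)) := th2_mul x y

theorem th2_one : th2 g 1 = 0 := co5b_one mg1_spec

theorem th2_inv (x : Fr g) : th2 g x⁻¹ = -th2 g x := by
  rw [co5b_inv mg1_spec]
  change (1 / 2 : ℚ) • (io (ab (mkS g x)) * io (ab (mkS g x))) - _ = _
  rw [ExteriorAlgebra.ι_sq_zero, smul_zero, zero_sub]

theorem th2_bdw : th2 g (bdw g) = omE g := by
  have h : cas (muE g) = (1 / 2 : ℚ) • cas ((LinearMap.mul ℚ (Lm (Hq g))).compl₁₂ io io) := by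
    simp only [cas, muE, Finset.smul_sum, smul_sub, LinearMap.smul_apply]
  rw [magnus_bdw mg1_spec, h, ← two_smul_omE, smul_smul]
  norm_num

theorem th2_conj (u x : Fr g) :
    th2 g (u⁻¹ * x * u) = th2 g x + io (ab (mkS g x)) * io (ab (mkS g u)) := by
  rw [th2_mul, th2_mul, th2_inv, map_mul, map_inv, ab_mul, ab_inv, map_add, map_neg, add_mul,
    neg_mul, neg_mul, ExteriorAlgebra.ι_sq_zero, ex2_swap (ab (mkS g u))]
  module

theorem mg1_mul {r : Fr g} (hr : mkS g r = 1) (x : Fr g) : th2 g (x * r) = th2 g x + th2 g r := by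
  rw [th2_mul, hr, ab_one, map_zero, mul_zero, smul_zero, add_zero]

theorem th2_mul_bdw_zpow (x : Fr g) (n : ℤ) :
    th2 g (x * bdw g ^ n) = th2 g x + (n : ℚ) • omE g := by
  induction n using Int.induction_on with
  | zero => simp
  | succ n ih =>
    rw [zpow_add_one, ← mul_assoc, mg1_mul (mkS_bdw g), ih, th2_bdw]
    push_cast
    module
  | pred n ih =>
    rw [zpow_sub_one, ← mul_assoc, mg1_mul (by rw [map_inv, mkS_bdw, inv_one]), ih, th2_inv,
      th2_bdw]
    push_cast
    module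

theorem NN_th2 (x : Fr g) : NN _ (th2 g x) = (2 : ℚ) • th2 g x := by
  induction x using FreeGroup.induction_on with
  | C1 => simp [th2_one]
  | of j => simp [th2_of]
  | inv_of j _ => simp [th2_inv, th2_of]
  | mul x y hx hy =>
    rw [th2_mul, map_add, map_add, hx, hy, map_smul, ex2_NN_mul, ex2_NN_io, ex2_NN_io]
    module

theorem invo_th2 (x : Fr g) : invo (th2 g x) = th2 g x := by
  induction x using FreeGroup.induction_on with
  | C1 => simp [th2_one]
  | of j => simp [th2_of]
  | inv_of j _ => simp [th2_inv, th2_of]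
  | mul x y hx hy =>
    rw [th2_mul, map_add, map_add, hx, hy, map_smul, invo_mul, invo_io, invo_io, neg_mul_neg]

/-- The primitive part descends to the surface group. -/
noncomputable def tb2 (g : ℕ) (γ : Sg g) : Lm (Hq g) := prj g (th2 g (Quotient.out γ))

theorem mg1_ker (hg : 1 ≤ g) {r : Fr g} (hr : mkS g r = 1) : prj g (th2 g r) = 0 := by
  let N : Subgroup (Fr g) :=
    { carrier := {r | mkS g r = 1 ∧ prj g (th2 g r) = 0}
      one_mem' := ⟨map_one _, by rw [th2_one, map_zero]⟩
      mul_mem' := fun {a b} ha hb => ⟨by rw [map_mul, ha.1, hb.1, one_mul], by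
        rw [mg1_mul hb.1, map_add, ha.2, hb.2, add_zero]⟩
      inv_mem' := fun {a} ha => ⟨by rw [map_inv, ha.1, inv_one], by
        rw [th2_inv, map_neg, ha.2, neg_zero]⟩ }
  have : N.Normal := ⟨fun a ha u => ⟨by rw [map_mul, map_mul, ha.1, mul_one, map_inv,
    mul_inv_cancel], by
      have h := th2_conj u⁻¹ a
      rw [inv_inv, ha.1, ab_one, map_zero, zero_mul, add_zero] at h
      rw [h, ha.2]⟩⟩
  exact (Subgroup.normalClosure_le_normal (N := N) (Set.singleton_subset_iff.2
    ⟨mkS_bdw g, by rw [th2_bdw, prj_omE hg]⟩) (PresentedGroup.mk_eq_one_iff.1 hr)).2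

theorem tb2_mk (hg : 1 ≤ g) (x : Fr g) : tb2 g (mkS g x) = prj g (th2 g x) := by
  have h0 : mkS g (Quotient.out (mkS g x)) = mkS g x := Quotient.out_eq _
  have h1 : mkS g (x⁻¹ * Quotient.out (mkS g x)) = 1 := by
    rw [map_mul, h0, map_inv, inv_mul_cancel]
  have h2 := mg1_mul h1 x
  rw [mul_inv_cancel_left] at h2
  rw [tb2, h2, map_add, mg1_ker hg h1, add_zero]

theorem tb2_mul (hg : 1 ≤ g) (x y : Sg g) : tb2 g (x * y) =
    tb2 g x + tb2 g y + (1 / 2 : ℚ) • prj g (io (ab x) * io (ab y)) := by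
  obtain ⟨u, rfl⟩ := PresentedGroup.mk_surjective _ x
  obtain ⟨v, rfl⟩ := PresentedGroup.mk_surjective _ y
  have h := tb2_mk hg (u * v)
  rw [map_mul, th2_mul, map_add, map_add, map_smul, ← tb2_mk hg, ← tb2_mk hg] at h
  exact h

end Pool.Agent.FP
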