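import Pool.Agent.FP.Mg1
import Pool.Agent.FP.Exc

/-! The Johnson cocycles and the two basic extensions. -/

namespace Pool.Agent.FP

variable {g : ℕ}

theorem mg2_ext {V : Type} [AddCommGroup V] [Module ℚ V] {T T' : Hq g →ₗ[ℚ] V}
    (h : ∀ x : Fr g, T (ab (mkS g x)) = T' (ab (mkS g x))) : T = T' :=
  (Pi.basisFun ℚ _).ext fun j => by
    have := h (FreeGroup.of j)
    rwa [ab_of, bv, ← Pi.basisFun_apply] at this

theorem mg2_inv {G : Type} [Group G] (ρ : Representation ℚ G (Hq g)) (x : G) (v : Hq g) :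
    ρ x (ρ x⁻¹ v) = v := ρ.self_inv_apply x v

theorem mg2_emap_io (φ : Hq g →ₗ[ℚ] Hq g) (v : Hq g) : emap φ (io v) = io (φ v) :=
  ExteriorAlgebra.map_apply_ι φ v

theorem mg2_NN_emap (φ : Hq g →ₗ[ℚ] Hq g) (a : Lm (Hq g)) : NN _ (emap φ a) = emap φ (NN _ a) :=
  (emap_der (by ext; rfl) a).symm

theorem mg2_NN_LL {a : Lm (Hq g)} {c : ℚ} (ha : NN _ a = c • a) :
    NN _ (LL g a) = (c - 2) • LL g a := by
  have h := ex2_LL_NN a
  rw [ha, map_smul] at h
  rw [sub_smul, h, add_sub_cancel_right]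

theorem mg2_NN_prj {a : Lm (Hq g)} (ha : NN _ a = (2 : ℚ) • a) :
    NN _ (prj g a) = (2 : ℚ) • prj g a := by
  rw [ex2_prj, map_add, map_smul, ex2_NN_mul, mg2_NN_LL ha, NN_omE, ha, sub_self, zero_smul,
    mul_zero, add_zero, smul_mul_assoc, smul_add, smul_comm (2 : ℚ)]

theorem mg2_invo_prj (a : Lm (Hq g)) : invo (prj g a) = prj g (invo a) := by
  rw [ex2_prj, ex2_prj, map_add, map_smul, invo_mul, invo_omE, invo_LL]

theorem mg2_invo_prim (a : Lm (Hq g)) : invo (prim g a) = prim g (invo a) := by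
  rw [ex2_prim, ex2_prim, map_sub, map_smul, invo_mul, invo_omE, invo_LL]

theorem mg2_ofBv {W : Type} [AddCommGroup W] [Module ℚ W] (w : Fin g × Bool → W) (F : W →ₗ[ℚ] W)
    (c : ℚ) (h : ∀ j, F (w j) = c • w j) (v : Hq g) : F (ofBv w v) = c • ofBv w v :=
  LinearMap.congr_fun ((Pi.basisFun ℚ _).ext (f₁ := F ∘ₗ ofBv w) (f₂ := c • ofBv w) fun j => by
    rw [Pi.basisFun_apply]
    exact (congrArg F (ofBv_bv w j)).trans ((h j).trans (congrArg (c • ·) (ofBv_bv w j).symm))) v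

theorem mg2_tb2 (γ : Sg g) : NN _ (tb2 g γ) = (2 : ℚ) • tb2 g γ ∧ invo (tb2 g γ) = tb2 g γ :=
  ⟨mg2_NN_prj (NN_th2 _), by rw [tb2, mg2_invo_prj, invo_th2]⟩

theorem mg2_alt (T : Hq g →ₗ[ℚ] Lm (Hq g)) : alt g T = ∑ i : Fin g,
    (io (bv (i, false)) * T (bv (i, true)) - io (bv (i, true)) * T (bv (i, false))) := rfl

theorem mg2_emap_mul {G : Type} [Group G] (ρ : Representation ℚ G (Hq g)) (x y : G)
    (a : Lm (Hq g)) : emap (ρ (x * y)) a = emap (ρ x) (emap (ρ y) a) :=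
  LinearMap.congr_fun (map_mul (extRep ρ) x y) a

/-- The Johnson cocycle on automorphisms of the surface group. -/
noncomputable def sigb (g : ℕ) (φ : Aut g) : Hq g →ₗ[ℚ] Lm (Hq g) :=
  ofBv fun j => tb2 g (mkS g (FreeGroup.of j)) -
    emap (autRep g φ) (tb2 g (φ⁻¹.1 (mkS g (FreeGroup.of j))))

theorem sigb_ab (hg : 1 ≤ g) (φ : Aut g) (γ : Sg g) :
    sigb g φ (ab γ) = tb2 g γ - emap (autRep g φ) (tb2 g (φ⁻¹.1 γ)) := by
  obtain ⟨x, rfl⟩ := PresentedGroup.mk_surjective _ γ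
  refine ofBv_ab (c := fun x => tb2 g (mkS g x) - emap (autRep g φ) (tb2 g (φ⁻¹.1 (mkS g x))))
    (fun x y => ?_) x
  simp only [map_mul, tb2_mul hg, map_add, map_smul]
  rw [← prj_emap (mg2_inv _ φ) (autRep_sp φ), map_mul (emap _), mg2_emap_io, mg2_emap_io, ← autRep_ab,
    ← autRep_ab, mg2_inv, mg2_inv]
  abel

theorem sigb_cross (hg : 1 ≤ g) : Cross ((autRep g).linHom (extRep (autRep g))) (sigb g) :=
  fun φ ψ => mg2_ext fun x => by
    change _ = sigb g φ _ + emap (autRep g φ) (sigb g ψ (autRep g φ⁻¹ _))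
    rw [autRep_ab, sigb_ab hg, sigb_ab hg, sigb_ab hg, mg2_emap_mul, mul_inv_rev, map_sub]
    exact (sub_add_sub_cancel _ _ _).symm

theorem NN_sigb (φ : Aut g) (v : Hq g) : NN _ (sigb g φ v) = (2 : ℚ) • sigb g φ v :=
  mg2_ofBv _ _ _ (fun j => by
    rw [map_sub, mg2_NN_emap, (mg2_tb2 _).1, (mg2_tb2 _).1, map_smul, smul_sub]) v

theorem invo_sigb (φ : Aut g) (v : Hq g) : invo (sigb g φ v) = sigb g φ v :=
  (mg2_ofBv _ _ 1 (fun j => by
    rw [map_sub, invo_emap, (mg2_tb2 _).2, (mg2_tb2 _).2, one_smul]) v).trans (one_smul _ _)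

theorem LL_sigb (hg : 1 ≤ g) (φ : Aut g) (v : Hq g) : LL g (sigb g φ v) = 0 :=
  (mg2_ofBv _ _ 0 (fun j => by
    rw [map_sub, LL_emap (autRep_sp φ), tb2, tb2, LL_prj hg (NN_th2 _), LL_prj hg (NN_th2 _),
      map_zero, sub_zero, zero_smul]) v).trans (zero_smul _ _)

theorem sigb_inn (hg : 1 ≤ g) (γ : Sg g) (v : Hq g) :
    sigb g (inn γ) v = prj g (io (ab γ) * io v) := by
  refine LinearMap.congr_fun (mg2_ext (T' := prj g ∘ₗ LinearMap.mulLeft ℚ (io (ab γ)) ∘ₗ io)
    fun x => ?_) v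
  obtain ⟨u, rfl⟩ := PresentedGroup.mk_surjective _ γ
  have h : (inn (mkS g u))⁻¹.1 (mkS g x) = mkS g (u⁻¹ * x * u) := by simp [inn]
  rw [sigb_ab hg, h, autRep_inn, tb2_mk hg, tb2_mk hg, th2_conj, ex2_swap, map_add, map_neg]
  rw [Module.End.one_eq_id, emap, ExteriorAlgebra.map_id, AlgHom.id_apply]
  change _ = prj g (io (ab (mkS g u)) * io (ab (mkS g x)))
  abel

theorem mg2_alt_om (w : Hq g) {T : Hq g →ₗ[ℚ] Lm (Hq g)} (hT : ∀ v, T v = om w v • omE g) :
    alt g T = omE g * io w := by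
  rw [mg2_alt]
  conv_rhs => rw [← sum_om_bv w]
  simp only [hT, map_sum, map_sub, map_smul, Finset.mul_sum, mul_sub, mul_smul_comm,
    ← comm_even _ _ invo_omE]

theorem alt_sigb_inn (hg : 1 ≤ g) (γ : Sg g) :
    alt g (sigb g (inn γ)) = -(2 + 1 / g : ℚ) • (omE g * io (ab γ)) := by
  have h : sigb g (inn γ) = LinearMap.mulLeft ℚ (io (ab γ)) ∘ₗ io -
      (1 / g : ℚ) • (omL g (ab γ)).smulRight (omE g) := LinearMap.ext fun v => by
    rw [sigb_inn hg, ex2_prj, LL_io_io]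
    simp [sub_eq_add_neg]
  have h2 : ∀ u v : Hq g, (io u * (io (ab γ) * io v) : Lm (Hq g)) = -(io u * io v * io (ab γ)) :=
    fun u v => by rw [ex2_swap (ab γ), mul_neg, mul_assoc]
  rw [h, map_sub, map_smul, mg2_alt_om (T := (omL g (ab γ)).smulRight (omE g)) (ab γ) fun _ => rfl, neg_smul, add_smul, neg_add,
    ← sub_eq_add_neg, ← smul_mul_assoc (2 : ℚ), two_smul_omE, cas, Finset.sum_mul, mg2_alt,
    ← Finset.sum_neg_distrib]
  congr 1
  refine Finset.sum_congr rfl fun i _ => ?_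
  simp only [LinearMap.comp_apply, LinearMap.mulLeft_apply, h2, LinearMap.compl₁₂_apply,
    LinearMap.mul_apply', sub_mul]
  abel

theorem NN_alt {T : Hq g →ₗ[ℚ] Lm (Hq g)} (hT : ∀ v, NN _ (T v) = (2 : ℚ) • T v) :
    NN _ (alt g T) = (3 : ℚ) • alt g T := by
  simp only [mg2_alt, map_sum, map_sub, ex2_NN_mul, ex2_NN_io, hT, mul_smul_comm, Finset.smul_sum]
  exact Finset.sum_congr rfl fun i _ => by module

theorem invo_alt {T : Hq g →ₗ[ℚ] Lm (Hq g)} (hT : ∀ v, invo (T v) = T v) :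
    invo (alt g T) = -alt g T := by
  simp only [mg2_alt, map_sum, map_sub, invo_mul, invo_io, hT, neg_mul, ← Finset.sum_neg_distrib]
  exact Finset.sum_congr rfl fun i _ => by abel

theorem eqv_alt {G : Type} [Group G] {ρ : Representation ℚ G (Hq g)} (hρ : ∀ x, Sp (ρ x)) :
    Eqv (ρ.linHom (extRep ρ)) (extRep ρ) (alt g) := fun x T => alt_emap (mg2_inv ρ x) (hρ x) T

/-- The primitive part of `alt` does not see the projection `prj`. -/
theorem prim_alt_prj (hg : 2 ≤ g) {T : Hq g →ₗ[ℚ] Lm (Hq g)}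
    (hT : ∀ v, NN _ (T v) = (2 : ℚ) • T v) :
    prim g (alt g (prj g ∘ₗ T)) = prim g (alt g T) := by
  obtain ⟨r, hr⟩ := exists_scal (g := g)
  have h1 : ∀ v, LL g (T v) = aug _ (LL g (T v)) • 1 := fun v => by
    rw [← PP_apply, ← sub_eq_zero, hr, mg2_NN_LL (hT v), sub_self, zero_smul, map_zero]
  have h2 : alt g (prj g ∘ₗ T) = alt g T + omE g * io ((1 / g : ℚ) • ∑ i : Fin g,
      (aug _ (LL g (T (bv (i, true)))) • bv (i, false) -
        aug _ (LL g (T (bv (i, false)))) • bv (i, true))) := by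
    simp only [mg2_alt, LinearMap.comp_apply, ex2_prj, map_smul, map_sum, map_sub, mul_smul_comm,
      Finset.mul_sum, Finset.smul_sum, ← Finset.sum_add_distrib, mul_sub, mul_add]
    refine Finset.sum_congr rfl fun i _ => ?_
    rw [h1 (bv (i, true)), h1 (bv (i, false))]
    simp only [mul_smul_comm, mul_one, map_smul, map_one, smul_eq_mul, ← comm_even _ _ invo_omE]
    module
  rw [h2, map_add, prim_omE_mul hg, add_zero]

/-- The Johnson cocycle of the group with a marked point, at the level of the free group. -/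
noncomputable def sigG (ρ : Gam g →* Aut g) (b : Gam g) : Hq g →ₗ[ℚ] Lm (Hq g) :=
  ofBv fun j => -emap (autRep g (ρ b)) (th2 g ((Quotient.out b : Mb g)⁻¹.1 (FreeGroup.of j)))

section
variable {ρ : Gam g →* Aut g} (hρ : IsRho ρ)
include hρ

theorem ab_mb (m : Mb g) (x : Fr g) :
    ab (mkS g (m.1 x)) = autRep g (ρ (m : Gam g)) (ab (mkS g x)) := by
  rw [autRep_ab, hρ]

theorem sigG_ab (m : Mb g) (x : Fr g) : sigG ρ (m : Gam g) (ab (mkS g x)) =
    th2 g x - emap (autRep g (ρ (m : Gam g))) (th2 g (m⁻¹.1 x)) := by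
  have key : ∀ m : Mb g, ofBv (fun j => -emap (autRep g (ρ (m : Gam g)))
      (th2 g (m⁻¹.1 (FreeGroup.of j)))) (ab (mkS g x)) =
      th2 g x - emap (autRep g (ρ (m : Gam g))) (th2 g (m⁻¹.1 x)) := fun m => by
    have := ofBv_ab (c := fun x => th2 g x - emap (autRep g (ρ (m : Gam g))) (th2 g (m⁻¹.1 x)))
      (fun x y => by
        simp only [map_mul m⁻¹.1, th2_mul, map_add, map_smul, map_mul (emap _), mg2_emap_io,
          ab_mb hρ, QuotientGroup.mk_inv, map_inv ρ, mg2_inv]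
        abel) x
    simpa only [th2_of, zero_sub] using this
  obtain ⟨m', hm'⟩ : ∃ m' : Mb g, m' = Quotient.out (m : Gam g) := ⟨_, rfl⟩
  have e : (m' : Gam g) = m := hm' ▸ Quotient.out_eq _
  obtain ⟨n, hn⟩ := (gam_eq_one_iff (m'⁻¹ * m)).1 (by
    rw [QuotientGroup.mk_mul, QuotientGroup.mk_inv, e, inv_mul_cancel])
  have e2 : m'⁻¹.1 x = (bdw g ^ (-n))⁻¹ * m⁻¹.1 x * bdw g ^ (-n) := by
    rw [show m'⁻¹ = tw g ^ n * m⁻¹ by rw [show tw g ^ n = _ from hn]; group]
    simp [tw, ← map_zpow]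
  rw [sigG, ← hm', ← e, key, e2, th2_conj, map_zpow, mkS_bdw, one_zpow, ab_one, map_zero, mul_zero,
    add_zero]

theorem sigG_cross :
    Cross (Representation.linHom ((autRep g).comp ρ) (extRep ((autRep g).comp ρ))) (sigG ρ) := by
  intro b c
  obtain ⟨m, rfl⟩ := QuotientGroup.mk_surjective b
  obtain ⟨n, rfl⟩ := QuotientGroup.mk_surjective c
  refine mg2_ext fun x => ?_
  change _ = sigG ρ _ _ + emap (autRep g (ρ m)) (sigG ρ n (autRep g (ρ (m⁻¹ : Mb g)) _))
  rw [← ab_mb hρ, ← QuotientGroup.mk_mul, sigG_ab hρ, sigG_ab hρ, sigG_ab hρ, QuotientGroup.mk_mul,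
    map_mul, mg2_emap_mul, mul_inv_rev, map_sub]
  exact (sub_add_sub_cancel _ _ _).symm

theorem prj_sigG (hg : 1 ≤ g) (b : Gam g) : prj g ∘ₗ sigG ρ b = sigb g (ρ b) := by
  obtain ⟨m, rfl⟩ := QuotientGroup.mk_surjective b
  refine mg2_ext fun x => ?_
  rw [LinearMap.comp_apply, sigG_ab hρ, sigb_ab hg, ← map_inv, ← QuotientGroup.mk_inv, hρ,
    tb2_mk hg, tb2_mk hg, map_sub, prj_emap (mg2_inv _ _) (autRep_sp _)]

/-- The explicit formula, by invariance of the Casimir element. -/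
theorem alt_sigG (m : Mb g) : alt g (sigG ρ (m : Gam g)) = ∑ i : Fin g,
    (io (ab (mkS g (m.1 (FreeGroup.of (i, false))))) * th2 g (m.1 (FreeGroup.of (i, true))) -
      io (ab (mkS g (m.1 (FreeGroup.of (i, true))))) * th2 g (m.1 (FreeGroup.of (i, false)))) := by
  rw [ex2_alt, ← cas_comp _ (mg2_inv _ (ρ (m : Gam g))) (autRep_sp _), cas]
  refine Finset.sum_congr rfl fun i _ => ?_
  simp only [LinearMap.compl₁₂_apply, LinearMap.mul_apply', ← ab_of, ← ab_mb hρ, sigG_ab hρ]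
  simp [th2_of]

end

theorem NN_sigG (ρ : Gam g →* Aut g) (b : Gam g) (v : Hq g) :
    NN _ (sigG ρ b v) = (2 : ℚ) • sigG ρ b v :=
  mg2_ofBv _ _ _ (fun j => by rw [map_neg, mg2_NN_emap, NN_th2, map_smul, smul_neg]) v

theorem invo_sigG (ρ : Gam g →* Aut g) (b : Gam g) (v : Hq g) :
    invo (sigG ρ b v) = sigG ρ b v :=
  (mg2_ofBv _ _ 1 (fun j => by rw [map_neg, invo_emap, invo_th2, one_smul]) v).trans (one_smul _ _)

/-- The crossed homomorphism of Morita. -/
noncomputable def kA (g : ℕ) (φ : Aut g) : Hq g :=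
  ((2 + 1 / g) * (g - 1) : ℚ)⁻¹ • ExteriorAlgebra.ιInv (LL g (alt g (sigb g φ)))

theorem kA_cross (hg : 1 ≤ g) : Cross (autRep g) (kA g) := fun φ ψ => by
  rw [kA, (sigb_cross hg).map (eqv_alt autRep_sp) φ ψ |> fun h => (h : alt g _ = alt g _ + _),
    extRep_apply, map_add, LL_emap (autRep_sp φ), map_add, ιInv_emap, smul_add, kA, kA, map_smul]
  rfl

theorem kA_inn (hg : 2 ≤ g) (γ : Sg g) : kA g (inn γ) = ab γ := by
  have h : (2 : ℚ) ≤ g := by exact_mod_cast hg
  have h1 : (2 + 1 / g : ℚ) ≠ 0 := by positivity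
  have h2 : (g - 1 : ℚ) ≠ 0 := by linarith
  rw [kA, alt_sigb_inn (by omega), map_smul, LL_omE_mul, LL_io, mul_zero, add_zero, ex2_NN_io,
    map_smul, map_add, map_smul, ExteriorAlgebra.ι_leftInverse, smul_smul]
  nth_rewrite 2 [← one_smul ℚ (ab γ)]
  rw [← add_smul, smul_smul]
  convert one_smul ℚ (ab γ)
  field_simp
  ring

/-- The universal curve. -/
noncomputable def extA (hg : 2 ≤ g) : Ext g (Aut g) (Out g) where
  p := QuotientGroup.mk' _
  j := innH g
  ρH := outRep g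
  k := kA g
  p_surj := QuotientGroup.mk'_surjective _
  j_inj := innH_inj hg
  ker_p := out_eq_one_iff
  ρH_om := outRep_sp
  k_cross := kA_cross (by omega)
  k_j := kA_inn hg

variable {Q : Type} [Group Q]

theorem sd_ker (r : Q →* Aut g) (x : Sd r) :
    SemidirectProduct.rightHom x = 1 ↔ x ∈ (SemidirectProduct.inl : Sg g →* Sd r).range := by
  rw [SemidirectProduct.range_inl_eq_ker_rightHom]
  rfl

theorem sd_cross (r : Q →* Aut g) :
    Cross (MonoidHom.comp ((autRep g).comp r) SemidirectProduct.rightHom)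
      fun x : Sd r => ab x.left := fun x y => by
  simp only [SemidirectProduct.mul_left, ab_mul]
  exact congrArg _ (autRep_ab (r x.right) y.left).symm

/-- Surface bundles with a section. -/
def extS (r : Q →* Aut g) : Ext g (Sd r) Q where
  p := SemidirectProduct.rightHom
  j := SemidirectProduct.inl
  ρH := (autRep g).comp r
  k := fun x => ab x.left
  p_surj := SemidirectProduct.rightHom_surjective
  j_inj := SemidirectProduct.inl_injective
  ker_p := sd_ker r
  ρH_om := fun b => autRep_sp (r b)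
  k_cross := sd_cross r
  k_j := fun _ => rfl

theorem q2_mul (r : Q →* Aut g) (x y : Sd r) : inn (x * y).left * r (x * y).right =
    inn x.left * r x.right * (inn y.left * r y.right) := by
  rw [mul_assoc, ← mul_assoc (r x.right), mul_inn, SemidirectProduct.mul_right, map_mul,
    ← mul_assoc, ← mul_assoc, ← mul_assoc]
  exact congrArg (· * _ * _) (map_mul (innH g) _ _)

/-- The classifying map of the second point. -/
def q2 (r : Q →* Aut g) : Sd r →* Aut g :=
  MonoidHom.mk' (fun x => inn x.left * r x.right) (q2_mul r)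

theorem q2_mk (r : Q →* Aut g) (x : Sd r) : (q2 r x : Out g) = (r x.right : Out g) := by
  change ((inn x.left * r x.right : Aut g) : Out g) = _
  rw [QuotientGroup.mk_mul, (out_eq_one_iff (inn x.left)).2 ⟨x.left, rfl⟩, one_mul]

theorem q2_inl (r : Q →* Aut g) (γ : Sg g) : q2 r (SemidirectProduct.inl γ) = inn γ := by
  change inn γ * r 1 = _
  rw [map_one, mul_one]

theorem q2_inr (r : Q →* Aut g) (b : Q) : q2 r (SemidirectProduct.inr b) = r b := by
  change innH g 1 * r b = _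
  rw [map_one, one_mul]

/-- Base change of bundles with a section. -/
def sdMap {Q' : Type} [Group Q'] (r : Q →* Aut g) (f : Q' →* Q) : Sd (r.comp f) →* Sd r :=
  MonoidHom.mk' (fun x => ⟨x.left, f x.right⟩) fun x y => by
    ext
    · rfl
    · exact map_mul f x.right y.right

/-- The primitive Johnson cocycle. -/
noncomputable def tauA (g : ℕ) (φ : Aut g) : Lm (Hq g) := (1 / 3 : ℚ) • prim g (alt g (sigb g φ))

theorem tauA_cross (hg : 1 ≤ g) : Cross (extRep (autRep g)) (tauA g) := fun φ ψ => by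
  rw [tauA, (sigb_cross hg).map (eqv_alt autRep_sp) φ ψ |> fun h => (h : alt g _ = alt g _ + _),
    extRep_apply, map_add, prim_emap (mg2_inv _ φ) (autRep_sp φ), smul_add, tauA, tauA, map_smul]
  rfl

theorem tauA_inn (hg : 2 ≤ g) (γ : Sg g) : tauA g (inn γ) = 0 := by
  rw [tauA, alt_sigb_inn (by omega), map_smul, prim_omE_mul hg, smul_zero, smul_zero]

theorem invo_tauA (φ : Aut g) : invo (tauA g φ) = -tauA g φ := by
  rw [tauA, map_smul, mg2_invo_prim, invo_alt (invo_sigb φ), map_neg, smul_neg]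

/-- The same on the outer automorphism group. -/
noncomputable def tauO (g : ℕ) (b : Out g) : Lm (Hq g) := tauA g (Quotient.out b)

theorem tauO_mk (hg : 2 ≤ g) (φ : Aut g) : tauO g (φ : Out g) = tauA g φ := by
  obtain ⟨ψ, hψ⟩ : ∃ ψ : Aut g, ψ = Quotient.out (φ : Out g) := ⟨_, rfl⟩
  have e : (ψ : Out g) = φ := hψ ▸ Quotient.out_eq _
  obtain ⟨γ, hγ⟩ := (out_eq_one_iff (φ⁻¹ * ψ)).1 (by
    rw [QuotientGroup.mk_mul, QuotientGroup.mk_inv, e, inv_mul_cancel])
  rw [tauO, ← hψ, show ψ = φ * inn γ by rw [show inn γ = _ from hγ]; group, tauA_cross (by omega),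
    tauA_inn hg, map_zero, add_zero]

theorem tauO_cross (hg : 2 ≤ g) : Cross (extRep (outRep g)) (tauO g) := by
  intro b c
  obtain ⟨φ, rfl⟩ := QuotientGroup.mk_surjective b
  obtain ⟨ψ, rfl⟩ := QuotientGroup.mk_surjective c
  rw [← QuotientGroup.mk_mul, tauO_mk hg, tauO_mk hg, tauO_mk hg, tauA_cross (by omega)]
  rfl

theorem tauO_mem (hg : 2 ≤ g) : dif (tauO g) ∈ (saE (outRep g)).Zev :=
  (saE (outRep g)).dif_mem (tauO_cross hg) fun _ => invo_tauA _

end Pool.Agent.FP
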