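import Pool.Agent.FP.LH2

/-! Integration along the fibre is well defined. -/

namespace Pool.Agent.FP

variable {E B V W : Type} [AddCommGroup V] [Module ℚ V] [AddCommGroup W] [Module ℚ W] [Group E]
  [Group B] {g : ℕ}

/-- Composition with a linear map. -/
def topL (g : ℕ) (φ : V →ₗ[ℚ] W) : (Hq g →ₗ[ℚ] V) →ₗ[ℚ] (Hq g →ₗ[ℚ] W) :=
  LinearMap.llcomp ℚ (Hq g) V W φ

theorem topL_apply (φ : V →ₗ[ℚ] W) (T : Hq g →ₗ[ℚ] V) : topL g φ T = φ ∘ₗ T := rfl

namespace Ext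
variable (X : Ext g E B)

theorem top_dif_fil : dif X.k ∈ FilV X.p X.ρH :=
  mem_FilV_of_len le_rfl X.dif_mem.1 (len_dif _)

theorem top_Phi_fil {ρ : Representation ℚ B V} {f0 : List B → V} {f1 : List B → Hq g →ₗ[ℚ] V}
    (h0 : f0 ∈ Co ρ) (h1 : f1 ∈ Co (X.ρH.linHom ρ)) : X.Phi f0 f1 0 ∈ FilV X.p ρ := by
  rw [Phi, map_zero, map_zero, add_zero]
  exact add_mem (pl_mem_FilV h0) (cupm_pl_mem_FilV (eqv₂_evB X.ρH ρ) X.top_dif_fil h1)

theorem top_Phi_eq (f0 : List B → V) (f1 : List B → Hq g →ₗ[ℚ] V) (f2 : List B → V) :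
    X.Phi f0 f1 f2 = X.Phi f0 f1 0 + cupm (LinearMap.lsmul ℚ V) X.eta (pl X.p f2) := by
  rw [Phi, Phi, map_zero, map_zero, add_zero]

theorem top_smul_Phi (c : ℚ) (f0 : List B → V) (f1 : List B → Hq g →ₗ[ℚ] V) :
    c • X.Phi f0 f1 0 = X.Phi (c • f0) (c • f1) 0 := by
  simp only [Phi, map_zero, add_zero, map_smul, smul_add]

theorem top_cm_Phi (φ : V →ₗ[ℚ] W) (f0 : List B → V) (f1 : List B → Hq g →ₗ[ℚ] V) :
    cm φ (X.Phi f0 f1 0) = X.Phi (cm φ f0) (cm (topL g φ) f1) 0 := by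
  simp only [Phi, map_zero, add_zero, map_add]
  congr 1
  rw [cm_cupm]
  exact cupm_congr fun _ _ => rfl

theorem top_comp_eta (n : ℕ) (f2 : List B → V) :
    comp (n + 2) (cupm (LinearMap.lsmul ℚ V) X.eta (pl X.p f2)) =
      cupm (LinearMap.lsmul ℚ V) X.eta (pl X.p (comp n f2)) := by
  rw [add_comm n 2, comp_cupm (a := 2) X.len_eta, comp_pl]

theorem top_comp_Phi (n : ℕ) (f0 : List B → V) (f1 : List B → Hq g →ₗ[ℚ] V) (f2 : List B → V) :
    comp (n + 2) (X.Phi f0 f1 f2) = X.Phi (comp (n + 2) f0) (comp (n + 1) f1) (comp n f2) := by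
  rw [Phi, Phi, map_add, map_add, top_comp_eta, comp_pl, show n + 2 = 1 + (n + 1) by omega,
    comp_cupm (a := 1) (len_dif _), comp_pl]

theorem top_res_rep (ρ : Representation ℚ B V) : (ρ.comp X.p).comp X.j = triv (Sg g) V := by
  ext γ v
  simp [X.p_j]

theorem top_Phi {ρ : Representation ℚ B V} {f0 : List B → V} {f1 : List B → Hq g →ₗ[ℚ] V}
    (f2 : List B → V) (h0 : f0 ∈ Co ρ) (h1 : f1 ∈ Co (X.ρH.linHom ρ)) :
    X.Top ρ (X.Phi f0 f1 f2) f2 := by
  refine ⟨_, X.top_Phi_fil h0 h1, ?_⟩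
  rw [X.top_Phi_eq f0 f1 f2, add_sub_cancel_right, sub_self]
  exact zero_mem _

theorem exists_top (hg : 1 ≤ g) (ρ : Representation ℚ B V) {f : List E → V}
    (hf : f ∈ Zc (ρ.comp X.p)) : ∃ y ∈ Zc ρ, X.Top ρ f y := by
  obtain ⟨f0, h0, f1, h1, f2, h2, hb⟩ := X.lh_epi hg ρ hf
  refine ⟨f2, h2, TopW.congr X.eta_mem (X.top_Phi f2 h0.1 h1.1) ?_ ?_⟩
  · rw [← neg_sub]
    exact neg_mem hb
  · rw [sub_self]
    exact zero_mem _

/-- A cocycle of degree two in the filtration step restricts to a constant on the fibre. -/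
theorem fil_res {ρ : Representation ℚ B V} {h : List E → V} (hh : h ∈ FilV X.p ρ)
    (hd : dd h = 0) (hl : Len 3 h) : pl X.j h ∈ Bc (triv (Sg g) V) := by
  have hC : pl X.j h ∈ Co (triv (Sg g) V) := X.top_res_rep ρ ▸ pl_mem_Co X.j hh.1
  have h1 : ∀ x y z z' : Sg g, pl X.j h [x, y, z] = pl X.j h [x, y, z'] := fun x y z z' =>
    hh.2 _ _ _ _ (by simp [X.p_j])
  have h2 : ∀ x y z : Sg g, pl X.j h [x, z, 1] = pl X.j h [y, z, 1] := fun x y z => by
    have e := dd_quad (pl X.j h) x y z 1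
    rw [dd_pl, hd, map_zero, Pi.zero_apply, h1 x y 1 z, add_sub_cancel_right] at e
    exact (sub_eq_zero.1 e.symm).symm
  have h3 : ∀ x y z : Sg g, pl X.j h [x, y, z] = pl X.j h [1, 1, 1] := fun x y z => by
    have e := hC.2 y [1, 1, 1]
    simp only [List.map_cons, List.map_nil, mul_one, Representation.trivial_apply] at e
    rw [h1 x y z 1, h2 x y y, h1 y y 1 y, e]
  have hγ : (fun l : List (Sg g) => if l.length = 2 then pl X.j h [1, 1, 1] else 0) ∈
      Co (triv (Sg g) V) := ⟨by simp, fun n l => by simp⟩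
  refine ⟨_, hγ, ext_len_three (dd_mem_Co hγ) hC (Len.dd (n := 2) fun l e => if_neg e)
    (hl.pl _) fun x y => ?_⟩
  rw [dd_triple, h3 1 x (x * y)]
  simp

/-- The restriction to the fibre of a cocycle of degree two. -/
theorem top_fibre {ρ : Representation ℚ B V} {f : List E → V} (hd : dd f = 0) (hl : Len 3 f)
    {v : V} (h : X.Top ρ f (cst v)) :
    pl X.j f - (1 / (2 * g) : ℚ) • cupm ((omL g).compr₂ (LinearMap.toSpanSingleton ℚ V v))
      (dif (ab : Sg g → Hq g)) (dif ab) ∈ Bc (triv (Sg g) V) := by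
  obtain ⟨h, hh, hb⟩ := h
  have e1 : dd h = 0 := by
    have e := (mem_Zc.1 (Bc_le_Zc hb)).2
    rw [map_sub, map_sub, hd, dd_cupm _ X.eta_mem.1.1 (by simp [cst_nil]),
      (mem_Zc.1 X.eta_mem).2, dd_pl, dd_cst] at e
    simpa using e
  have e2 := comp_mem_Bc (1 + 2) hb
  rw [map_sub, map_sub, hl.comp_eq, top_comp_eta, (len_cst v).comp_eq] at e2
  have e3 := X.fil_res (comp_mem_FilV 3 hh) (by rw [dd_comp, e1, map_zero]) (len_comp 3 h)
  have e4 := pl_mem_Bc X.j e2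
  rw [X.top_res_rep, map_sub, map_sub] at e4
  have e5 := add_mem e4 e3
  rw [sub_add_cancel, pl_cupm, pl_cst, pl_cst, cupm_cst_right _ (by simp [X.eta_mem.1.1]), eta,
    map_smul, map_smul, pl_cupm, X.pl_j_dif, cm_cupm] at e5
  exact e5

theorem top_last {ρ : Representation ℚ B V} {n : ℕ} {h : List E → V} (hh : h ∈ FilV X.p ρ)
    (hl : Len (n + 3) h) (l : List E) {a a' : E} (e : X.p a = X.p a') :
    h (l ++ [a]) = h (l ++ [a']) := by
  match l with
  | [] => rw [hl _ (by simp), hl _ (by simp)]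
  | [x] => rw [hl _ (by simp), hl _ (by simp)]
  | x :: y :: l => exact hh.2 x y _ _ (by simp [e])

theorem top_eqv_L {ρ : Representation ℚ B V} {ρ' : Representation ℚ B W} {φ : V →ₗ[ℚ] W}
    (hφ : Eqv ρ ρ' φ) :
    Eqv (X.ρH.linHom ρ) (X.ρH.linHom ρ') (topL g φ) := fun b T => by
  ext u
  simp [Representation.linHom_apply, topL_apply, hφ b]

theorem top_base (hg : 1 ≤ g) (ρ : Representation ℚ B V) {h : List E → V}
    (hh : h ∈ FilV X.p ρ) (hd : dd h = 0) (hl : Len 3 h) :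
    ∃ f0 ∈ Zc ρ, ∃ f1 ∈ Zc (X.ρH.linHom ρ), h - X.Phi f0 f1 0 ∈ Bc (ρ.comp X.p) := by
  obtain ⟨f0, h0, f1, h1, f2, h2, hb⟩ := X.lh_epi hg ρ (f := h) ⟨hh.1, hd⟩
  have e1 := comp_mem_Bc (1 + 2) hb
  have e2 := eq_cst_of_len_one (len_comp 1 f2) (comp_mem_Zc 1 h2).2 1
  rw [map_sub, hl.comp_eq, top_comp_Phi, e2] at e1
  have e3 : X.Top ρ h (cst (comp 1 f2 [1])) := by
    refine ⟨_, X.top_Phi_fil (comp_mem_Co (1 + 2) h0.1) (comp_mem_Co (1 + 1) h1.1), ?_⟩
    rw [top_Phi_eq] at e1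
    rwa [sub_sub, add_comm]
  have e4 := sub_mem (X.fil_res hh hd hl) (X.top_fibre hd hl e3)
  have hg' : (2 * g : ℚ) ≠ 0 := by positivity
  have e5 := Submodule.smul_mem _ (2 * g : ℚ) e4
  rw [sub_sub_cancel, smul_smul, mul_one_div_cancel hg', one_smul, cup_ab_mem_Bc_iff,
    cas_omL_smul, smul_eq_zero_iff_right hg'] at e5
  rw [e5, cst_zero] at e1
  exact ⟨_, comp_mem_Zc _ h0, _, comp_mem_Zc _ h1, e1⟩

theorem top_step (n : ℕ) (ρ : Representation ℚ B V) {h : List E → V}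
    (hh : h ∈ FilV X.p ρ) (hd : dd h = 0) (hl : Len (n + 1 + 3) h)
    (ih : ∀ h ∈ FilV X.p (shift ρ), dd h = 0 → Len (n + 3) h → ∃ f0 ∈ Zc (shift ρ),
      ∃ f1 ∈ Zc (X.ρH.linHom (shift ρ)), h - X.Phi f0 f1 0 ∈ Bc ((shift ρ).comp X.p)) :
    ∃ f0 ∈ Zc ρ, ∃ f1 ∈ Zc (X.ρH.linHom ρ), h - X.Phi f0 f1 0 ∈ Bc (ρ.comp X.p) := by
  obtain ⟨σ, hσ⟩ := X.p_surj.hasRightInverse
  obtain ⟨ψ, hψ⟩ : ∃ ψ : List E → B → V, ∀ l b, ψ l b = h (l ++ [σ b]) := ⟨_, fun _ _ => rfl⟩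
  have lψ : Len (n + 3) ψ := fun l e => funext fun b => by
    rw [hψ]
    exact hl _ (by simpa using e)
  have fψ : ψ ∈ FilV X.p (coind ρ) := by
    refine ⟨⟨lψ _ (by simp), fun e l => funext fun b => ?_⟩, fun x y l l' e => funext fun b => ?_⟩
    · have e1 := hh.1.2 e (l ++ [e⁻¹ * σ b])
      rw [List.map_append, List.map_cons, List.map_nil, mul_inv_cancel_left] at e1
      rw [hψ, e1, MonoidHom.comp_apply, MonoidHom.comp_apply, coind_apply, hψ,
        X.top_last hh hl l (a' := σ ((X.p e)⁻¹ * b)) (by rw [map_mul, map_inv, hσ, hσ])]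
    · rw [hψ, hψ]
      exact hh.2 x y _ _ (by simp [e])
  have dψ : dd ψ = cm (iot B V) (sg h) := by
    funext l b
    have e := dd_concat h (σ b) l
    rw [hd, Pi.zero_apply] at e
    have e1 : dd ψ l b = dd (fun l' => h (l' ++ [σ b])) l := by
      simp only [dd_apply, Finset.sum_apply, Pi.smul_apply, hψ]
    rw [e1, eq_neg_of_add_eq_zero_left e.symm]
    change _ = sg h l
    rw [sg_apply, pow_succ, mul_neg_one, neg_smul]
  have qi : ∀ v : V, (LinearMap.range (iot B V)).mkQ (iot B V v) = 0 := fun v =>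
    (Submodule.Quotient.mk_eq_zero _).2 ⟨v, rfl⟩
  obtain ⟨f0, h0, f1, h1, hb⟩ := ih _ (cm_mem_FilV (eqv_mkQ ρ) fψ) (by
    rw [dd_cm, dψ]
    exact funext fun l => qi _) (lψ.cm _)
  obtain ⟨τ, hτ⟩ := LinearMap.exists_rightInverse_of_surjective (LinearMap.range (iot B V)).mkQ
    (Submodule.range_mkQ _)
  obtain ⟨F0, H0, e0, -⟩ := exists_lift (eqv_mkQ ρ) (Submodule.mkQ_surjective _) h0.1
  obtain ⟨F1, H1, e1, -⟩ := exists_lift (X.top_eqv_L (eqv_mkQ ρ))
    (fun T => ⟨τ ∘ₗ T, by rw [topL_apply, ← LinearMap.comp_assoc, hτ]; rfl⟩) h1.1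
  have inj1 : Function.Injective (topL g (iot B V)) :=
    fun T T' e => LinearMap.ext fun u => iot_inj (G := B) (by
      exact DFunLike.congr_fun (F := Hq g →ₗ[ℚ] B → V) e u)
  obtain ⟨u0, U0, d0, -⟩ := exists_desc (eqv_iot ρ) iot_inj (dd_mem_Co H0) fun l => by
    refine (Submodule.Quotient.mk_eq_zero _).1 ?_
    have e : cm (LinearMap.range (iot B V)).mkQ (dd F0) = 0 := by
      rw [← dd_cm, e0]
      exact h0.2
    exact congrFun e l
  obtain ⟨u1, U1, d1, -⟩ := exists_desc (X.top_eqv_L (eqv_iot ρ)) inj1 (dd_mem_Co H1)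
    fun l => by
      have e : cm (topL g (LinearMap.range (iot B V)).mkQ) (dd F1) = 0 := by
        rw [← dd_cm, e1]
        exact h1.2
      refine ⟨LinearMap.proj 1 ∘ₗ dd F1 l, LinearMap.ext fun u => ?_⟩
      have e2 : (LinearMap.range (iot B V)).mkQ (dd F1 l u) = 0 :=
        DFunLike.congr_fun (F := Hq g →ₗ[ℚ] Shift B V) (congrFun e l) u
      obtain ⟨v, hv⟩ := (Submodule.Quotient.mk_eq_zero _).1 e2
      change iot B V (dd F1 l u 1) = dd F1 l u
      rw [← hv]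
      rfl
  have z0 : dd u0 = 0 := funext fun l => iot_inj (G := B) (by
    have e : cm (iot B V) (dd u0) = 0 := by rw [← dd_cm, d0, dd_dd]
    exact (congrFun e l).trans (map_zero _).symm)
  have z1 : dd u1 = 0 := funext fun l => inj1 (by
    have e : cm (topL g (iot B V)) (dd u1) = 0 := by
      rw [← dd_cm, d1, dd_dd]
    exact (congrFun e l).trans (map_zero _).symm)
  have key : sg h - X.Phi u0 (-u1) 0 ∈ Bc (ρ.comp X.p) := by
    refine mem_Bc_of_shift X.p (sub_mem fψ.1 (X.top_Phi_fil H0 H1).1) ?_ ?_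
    · rw [map_sub, map_sub, dψ, X.dd_Phi H1.1 rfl, top_cm_Phi, map_neg, d0, d1, map_zero]
    · rw [map_sub, top_cm_Phi, e0, e1]
      exact hb
  have key2 := Submodule.smul_mem _ ((-1 : ℚ) ^ (n + 1 + 3 + 1)) key
  rw [smul_sub, sg_of_len hl, smul_smul, ← mul_pow, neg_one_mul, neg_neg, one_pow, one_smul,
    top_smul_Phi] at key2
  exact ⟨_, Submodule.smul_mem _ _ ⟨U0, z0⟩, _, Submodule.smul_mem _ _ (neg_mem ⟨U1, z1⟩), key2⟩

/-- A homogeneous cocycle in the filtration step has no top component. Induct on `n` for all `V`.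
For `n = 0` use `lh_epi`, `fil_res` and `cup_ab_mem_Bc_iff`. For the step put
`ψ l b = h (l ++ [σ b])` with `σ` a section of `p` (see `dd_concat`), apply the induction to `ψ`
modulo constants, lift the two components to the coinduced module and descend. -/
theorem fil_lh (hg : 1 ≤ g) (n : ℕ) (ρ : Representation ℚ B V) {h : List E → V}
    (hh : h ∈ FilV X.p ρ) (hd : dd h = 0) (hl : Len (n + 3) h) :
    ∃ f0 ∈ Zc ρ, ∃ f1 ∈ Zc (X.ρH.linHom ρ), h - X.Phi f0 f1 0 ∈ Bc (ρ.comp X.p) := by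
  induction n generalizing V with
  | zero => exact X.top_base hg ρ hh hd hl
  | succ n ih => exact X.top_step n ρ hh hd hl fun h' a b c => ih (shift ρ) a b c

/-- Uniqueness of the top component. -/
theorem top_unique (hg : 1 ≤ g) {ρ : Representation ℚ B V} {y : List B → V} (hy : y ∈ Zc ρ)
    (h : X.Top ρ 0 y) : y ∈ Bc ρ := by
  obtain ⟨h, hh, hb⟩ := h
  have e1 : dd h = 0 := by
    have e := (mem_Zc.1 (Bc_le_Zc hb)).2
    rw [map_sub, map_sub, dd_cupm _ X.eta_mem.1.1 (by simp [hy.1.1]),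
      (mem_Zc.1 X.eta_mem).2, dd_pl, (mem_Zc.1 hy).2] at e
    simpa using e
  refine mem_Bc_of_comp fun n => ?_
  cases n with
  | zero =>
    have e : comp 0 y = 0 := funext fun l => by
      rw [comp_apply]
      split_ifs with hl
      · rw [List.length_eq_zero_iff.1 hl]
        exact hy.1.1
      · rfl
    rw [e]
    exact zero_mem _
  | succ n =>
    have e2 := comp_mem_Bc (n + 1 + 2) hb
    rw [map_sub, map_sub, map_zero, top_comp_eta] at e2
    obtain ⟨f0, h0, f1, h1, e3⟩ := X.fil_lh hg n ρ (comp_mem_FilV (n + 3) hh)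
      (by rw [dd_comp, e1, map_zero]) (len_comp _ h)
    refine (X.lh_mono hg ρ h0 h1 (comp_mem_Zc _ hy) ?_).2.2
    have e4 := neg_mem (add_mem e2 e3)
    rw [top_Phi_eq]
    refine (congrArg (· ∈ Bc (ρ.comp X.p)) ?_).mp e4
    abel

theorem top_unique' (hg : 1 ≤ g) {ρ : Representation ℚ B V} {f : List E → V}
    {y y' : List B → V} (hy : y ∈ Zc ρ) (hy' : y' ∈ Zc ρ) (h : X.Top ρ f y) (h' : X.Top ρ f y') :
    y - y' ∈ Bc ρ :=
  X.top_unique hg (sub_mem hy hy') (sub_self f ▸ TopW.sub h h')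

/-- The top component of a product of two tautological classes is the Casimir value. -/
theorem top_kk (hg : 1 ≤ g) {k' : E → Hq g} (hk : Cross (X.ρH.comp X.p) k')
    (hj : ∀ γ, k' (X.j γ) = ab γ) {ρ : Representation ℚ B W} {μ : Hq g →ₗ[ℚ] Hq g →ₗ[ℚ] W}
    (hμ : Eqv₂ X.ρH X.ρH ρ μ) : X.Top ρ (cupm μ (dif k') (dif k')) (cst (cas μ)) := by
  have hf := cupm_mem_Zc (hμ.comp X.p) hk.dif_mem hk.dif_mem
  have hl : Len 3 (cupm μ (dif k') (dif k')) := Len.cupm (a := 1) (b := 1) (len_dif _) (len_dif _) μ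
  obtain ⟨y, hy, h⟩ := X.exists_top hg ρ hf
  have h1 := TopW.comp X.len_eta h 1
  rw [hl.comp_eq, eq_cst_of_len_one (len_comp 1 y) (comp_mem_Zc 1 hy).2 1] at h1
  have h2 := X.top_fibre hf.2 hl h1
  have e : k' ∘ X.j = ab := funext hj
  have hg' : (2 * g : ℚ) ≠ 0 := by positivity
  rw [pl_cupm, pl_dif, e, sub_eq_add_neg, ← neg_smul, ← cupm_smul_bil, ← cupm_add_bil,
    cup_ab_mem_Bc_iff] at h2
  have h3 : ∀ (ν : Hq g →ₗ[ℚ] Hq g →ₗ[ℚ] W) (c : ℚ), cas (μ + c • ν) = cas μ + c • cas ν := by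
    intro ν c
    simp only [cas, LinearMap.add_apply, LinearMap.smul_apply, Finset.smul_sum,
      ← Finset.sum_add_distrib, smul_sub]
    exact Finset.sum_congr rfl fun i _ => by abel
  rw [h3, cas_omL_smul, smul_smul, neg_mul, one_div_mul_cancel hg', neg_smul, one_smul,
    add_neg_eq_zero] at h2
  rwa [h2]

theorem top_proj {η' : List E → ℚ} {c : ℚ} (hc : X.Top (triv B ℚ) η' (cst c))
    {ρ : Representation ℚ B V} {y : List B → V} (hy : y ∈ Zc ρ) :
    X.Top ρ (cupm (LinearMap.lsmul ℚ V) η' (pl X.p y)) (c • y) := by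
  have h := TopW.cupm (eqv₂_lsmul ρ) hc hy
  rw [cupm_cst_left _ _ hy.1.1] at h
  exact h

/-- Change of the fibre class. -/
theorem top_of_topW {η' : List E → ℚ} {c : ℚ} (hc : X.Top (triv B ℚ) η' (cst c))
    {ρ : Representation ℚ B V} {f : List E → V} {y : List B → V} (hy : y ∈ Zc ρ)
    (h : TopW X.p ρ η' f y) : X.Top ρ f (c • y) := by
  obtain ⟨h, hh, hb⟩ := h
  have e := ((X.top_proj hc hy).add (TopW.of_fil hh)).add (TopW.of_Bc hb)
  rw [add_zero, add_zero, sub_sub, add_sub_cancel] at e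
  exact e

theorem topW_of_top {η' : List E → ℚ} {c : ℚ} (hc : X.Top (triv B ℚ) η' (cst c))
    {ρ : Representation ℚ B V} {f : List E → V} {y : List B → V} (hy : y ∈ Zc ρ)
    (h : X.Top ρ f (c • y)) : TopW X.p ρ η' f y := by
  obtain ⟨h', hh, hb⟩ := TopW.sub h (X.top_proj hc hy)
  rw [sub_self, map_zero, map_zero, sub_zero] at hb
  exact ⟨h', hh, hb⟩

/-- Two crossed homomorphisms extending the abelianisation differ by one from the base. -/
theorem exists_cross_base {k' : E → Hq g} (hk : Cross (X.ρH.comp X.p) k')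
    (hj : ∀ γ, k' (X.j γ) = ab γ) : ∃ c, Cross X.ρH c ∧ k' = X.k + c ∘ X.p := by
  obtain ⟨σ, hσ⟩ := X.p_surj.hasRightInverse
  have h1 : ∀ x y, k' (x * y) - X.k (x * y) = k' x - X.k x + X.ρH (X.p x) (k' y - X.k y) := by
    intro x y
    rw [hk x y, X.k_cross x y, map_sub, MonoidHom.comp_apply]
    abel
  have h2 : ∀ x y, X.p x = X.p y → k' x - X.k x = k' y - X.k y := by
    intro x y e
    obtain ⟨γ, hγ⟩ := (X.ker_p (x⁻¹ * y)).1 (by rw [map_mul, map_inv, e, inv_mul_cancel])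
    have e1 : y = x * X.j γ := by rw [hγ, mul_inv_cancel_left]
    rw [e1, h1, hj, X.k_j, sub_self, map_zero, add_zero]
  refine ⟨fun b => k' (σ b) - X.k (σ b), fun b b' => ?_, funext fun x => ?_⟩
  · beta_reduce
    rw [h2 (σ (b * b')) (σ b * σ b') (by rw [map_mul, hσ, hσ, hσ]), h1, hσ]
  · rw [Pi.add_apply, Function.comp_apply, h2 (σ (X.p x)) x (hσ _), add_sub_cancel]

end Ext

end Pool.Agent.FP
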