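import Pool.Agent.FP.TT1
import Pool.Agent.FP.Top

/-! Integration along the fibre on classes; cohomological degrees. -/

namespace Pool.Agent.FP

variable {E B A E' B' A' : Type} [Group E] [Group B] [Ring A] [Algebra ℚ A] [Group E'] [Group B']
  [Ring A'] [Algebra ℚ A'] {g : ℕ}

namespace Ext
variable (X : Ext g E B) {S : SA B A} {S' : SA E A}

theorem rho_eq (H : LHom S S' X.p LinearMap.id) : S'.ρ = S.ρ.comp X.p := by
  ext x a
  exact (H.eqv x a).symm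

/-- Take the even part of a top component. -/
theorem exists_top_ev (hg : 1 ≤ g) (H : LHom S S' X.p LinearMap.id) {f : List E → A}
    (hf : f ∈ S'.Zev) : ∃ y ∈ S.Zev, X.Top S.ρ f y := by
  obtain ⟨h1, h2⟩ := S'.mem_Zev.1 hf
  rw [X.rho_eq H] at h1
  obtain ⟨y, hy, hT⟩ := X.exists_top hg S.ρ h1
  have e : sg (cm S.ι f) = f := by
    have hι : S.ι = S'.ι := LinearMap.ext fun a => H.par a
    rw [hι]
    exact h2
  have hT' := (TopW.cm S.eqv_ι hT).sg X.len_eta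
  rw [e] at hT'
  refine ⟨_, S.even_mem hy, ?_⟩
  have h3 := (hT.add hT').smul (1 / 2 : ℚ)
  have e2 : (1 / 2 : ℚ) • (f + f) = f := by
    rw [← two_smul ℚ f, smul_smul]
    norm_num
  rw [e2] at h3
  exact h3

theorem tt2_congr (H : LHom S S' X.p LinearMap.id) {f f' : List E → A} {y y' : List B → A}
    {hf : f ∈ S'.Zev} {hf' : f' ∈ S'.Zev} {hy : y ∈ S.Zev} {hy' : y' ∈ S.Zev}
    (e1 : TT.mk f hf = TT.mk f' hf') (e2 : TT.mk y hy = TT.mk y' hy') (h : X.Top S.ρ f y) :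
    X.Top S.ρ f' y' := by
  have e3 := TT.mk_eq_mk.1 e1
  rw [X.rho_eq H] at e3
  exact TopW.congr X.eta_mem h e3 (TT.mk_eq_mk.1 e2)

/-- The graph of integration along the fibre. -/
def IRel (a : TT S') (b : TT S) : Prop :=
  ∃ f hf y hy, a = TT.mk f hf ∧ b = TT.mk y hy ∧ X.Top S.ρ f y

theorem exists_IRel (hg : 1 ≤ g) (H : LHom S S' X.p LinearMap.id) (a : TT S') :
    ∃ b : TT S, X.IRel a b := by
  induction a using TT.ind with
  | h f hf =>
    obtain ⟨y, hy, h⟩ := X.exists_top_ev hg H hf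
    exact ⟨_, f, hf, y, hy, rfl, rfl, h⟩

theorem IRel_unique (hg : 1 ≤ g) (H : LHom S S' X.p LinearMap.id) {a : TT S'} {b b' : TT S}
    (h : X.IRel a b) (h' : X.IRel a b') : b = b' := by
  obtain ⟨f, hf, y, hy, rfl, rfl, h⟩ := h
  obtain ⟨f', hf', y', hy', e, rfl, h'⟩ := h'
  exact TT.mk_eq_mk.2 (X.top_unique' hg (S.mem_Zev.1 hy).1 (S.mem_Zev.1 hy').1
    (X.tt2_congr H e (rfl : TT.mk y hy = TT.mk y hy) h) h')

theorem IRel_add {a a' : TT S'} {b b' : TT S} (h : X.IRel a b) (h' : X.IRel a' b') :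
    X.IRel (a + a') (b + b') := by
  obtain ⟨f, hf, y, hy, rfl, rfl, h⟩ := h
  obtain ⟨f', hf', y', hy', rfl, rfl, h'⟩ := h'
  exact ⟨_, _, _, _, TT.mk_add hf hf', TT.mk_add hy hy', h.add h'⟩

theorem IRel_smul (c : ℚ) {a : TT S'} {b : TT S} (h : X.IRel a b) :
    X.IRel (c • a) (c • b) := by
  obtain ⟨f, hf, y, hy, rfl, rfl, h⟩ := h
  exact ⟨_, _, _, _, TT.mk_smul c hf, TT.mk_smul c hy, h.smul c⟩

/-- Integration along the fibre. -/
noncomputable def I (hg : 1 ≤ g) (H : LHom S S' X.p LinearMap.id) : TT S' →ₗ[ℚ] TT S where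
  toFun a := (X.exists_IRel hg H a).choose
  map_add' a a' := X.IRel_unique hg H (X.exists_IRel hg H _).choose_spec
    (X.IRel_add (X.exists_IRel hg H a).choose_spec (X.exists_IRel hg H a').choose_spec)
  map_smul' c a := X.IRel_unique hg H (X.exists_IRel hg H _).choose_spec
    (X.IRel_smul c (X.exists_IRel hg H a).choose_spec)

variable (hg : 1 ≤ g) (H : LHom S S' X.p LinearMap.id)

theorem IRel_I (a : TT S') : X.IRel a (X.I hg H a) := (X.exists_IRel hg H a).choose_spec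

theorem I_mk {f : List E → A} {y : List B → A} (hf : f ∈ S'.Zev) (hy : y ∈ S.Zev)
    (h : X.Top S.ρ f y) : X.I hg H (TT.mk f hf) = TT.mk y hy :=
  X.IRel_unique hg H (X.IRel_I hg H _) ⟨f, hf, y, hy, rfl, rfl, h⟩

theorem top_of_I {f : List E → A} {y : List B → A} (hf : f ∈ S'.Zev) (hy : y ∈ S.Zev)
    (h : X.I hg H (TT.mk f hf) = TT.mk y hy) : X.Top S.ρ f y := by
  obtain ⟨f', hf', y', hy', e1, e2, h'⟩ := X.IRel_I hg H (TT.mk f hf)
  exact X.tt2_congr H e1.symm (e2.symm.trans h) h'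

/-- The projection formula. -/
theorem I_mul (y : TT S) (a : TT S') : X.I hg H (H.map y * a) = y * X.I hg H a := by
  induction y using TT.ind with
  | h z hz =>
    induction a using TT.ind with
    | h f hf =>
      obtain ⟨w, hw, h⟩ := X.exists_top_ev hg H hf
      rw [mul_comm, X.I_mk hg H hf hw h, mul_comm (TT.mk z hz), H.map_mk, TT.mk_mul, TT.mk_mul]
      exact X.I_mk hg H _ _ (TopW.cupm S.eqv₂_mul h (S.mem_Zev.1 hz).1)

theorem tt2_low {n : ℕ} (hn : n + 1 ≤ 2) {a : TT S'} (ha : a.Deg n) : X.I hg H a = 0 := by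
  obtain ⟨f, hf, hl, rfl⟩ := ha
  have h1 := (S'.mem_Zev.1 hf).1.1
  rw [X.rho_eq H] at h1
  exact X.I_mk hg H hf (zero_mem _) (TopW.of_fil (mem_FilV_of_len hn h1 hl))

theorem I_deg_zero {a : TT S'} (ha : a.Deg 0) : X.I hg H a = 0 :=
  X.tt2_low hg H (by norm_num) ha

theorem I_deg_one {a : TT S'} (ha : a.Deg 1) : X.I hg H a = 0 :=
  X.tt2_low hg H le_rfl ha

theorem I_deg {n : ℕ} {a : TT S'} (ha : a.Deg (n + 2)) : (X.I hg H a).Deg n := by
  obtain ⟨f, hf, hl, rfl⟩ := ha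
  obtain ⟨y, hy, h⟩ := X.exists_top_ev hg H hf
  have h' := TopW.comp X.len_eta h (n + 1)
  rw [hl.comp_eq] at h'
  exact ⟨_, S.comp_mem (n + 1) hy, len_comp _ _, X.I_mk hg H hf _ h'⟩

/-- Naturality for base change together with a change of coefficients. -/
theorem I_map (X' : Ext g E' B') {S₁ : SA B' A'} {S₁' : SA E' A'}
    (H' : LHom S₁ S₁' X'.p LinearMap.id) {φE : E' →* E} {φB : B' →* B} {ψ : A →ₗ[ℚ] A'}
    (HO : LHom S S₁ φB ψ) (HT : LHom S' S₁' φE ψ) (hc : ∀ x, X.p (φE x) = φB (X'.p x))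
    (hη : X'.Top (triv B' ℚ) (pl φE X.eta) (cst 1)) (a : TT S') :
    HO.map (X.I hg H a) = X'.I hg H' (HT.map a) := by
  induction a using TT.ind with
  | h f hf =>
    obtain ⟨y, hy, h⟩ := X.exists_top_ev hg H hf
    have h1 := X'.top_of_topW hη (S₁.mem_Zev.1 (HO.mem hy)).1
      (TopW.cm HO.eqv (TopW.pl φE φB hc h))
    rw [one_smul] at h1
    rw [X.I_mk hg H hf hy h, HO.map_mk, HT.map_mk, X'.I_mk hg H' _ (HO.mem hy) h1]

/-- Naturality for a change of coefficients. -/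
theorem I_cm {S₁ : SA B A'} {S₁' : SA E A'} (H' : LHom S₁ S₁' X.p LinearMap.id)
    {ψ : A →ₗ[ℚ] A'} (HO : LHom S S₁ (MonoidHom.id B) ψ) (HT : LHom S' S₁' (MonoidHom.id E) ψ)
    (a : TT S') : HO.map (X.I hg H a) = X.I hg H' (HT.map a) := by
  refine X.I_map hg H X H' HO HT (fun _ => rfl) ?_ a
  have h := TopW.self (p := X.p) (ρ := triv B ℚ) (η := X.eta) (cst 1)
  have e : cupm (LinearMap.lsmul ℚ ℚ) X.eta (pl X.p (cst 1)) = pl (MonoidHom.id E) X.eta := by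
    rw [pl_cst, cupm_cst_right _ X.eta_mem.1.1]
    ext l
    simp
  rw [e] at h
  exact h

include hg in
/-- The fibre class pulls back to a fibre class (`top_kk`). -/
theorem top_pl_eta (X' : Ext g E' B') {φE : E' →* E} {φB : B' →* B}
    (hc : ∀ x, X.p (φE x) = φB (X'.p x)) (hρ : ∀ b, X'.ρH b = X.ρH (φB b))
    (hj : ∀ γ, φE (X'.j γ) = X.j γ) : X'.Top (triv B' ℚ) (pl φE X.eta) (cst 1) := by
  have hk : Cross (X'.ρH.comp X'.p) (X.k ∘ φE) := fun x y => by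
    have h := X.k_cross.comp φE x y
    simpa [hρ, hc] using h
  have h := (X'.top_kk hg hk (fun γ => by simp [hj, X.k_j]) X'.eqv₂_om).smul (1 / (2 * g) : ℚ)
  have e1 : cas (omL g) = (2 * g : ℚ) := by
    have h2 := cas_omL_smul (g := g) (1 : ℚ)
    have e : (omL g).compr₂ (LinearMap.toSpanSingleton ℚ ℚ 1) = omL g := by
      refine LinearMap.ext fun u => LinearMap.ext fun v => ?_
      simp
    rw [e] at h2
    simpa using h2
  have hg' : (g : ℚ) ≠ 0 := by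
    have : (1 : ℚ) ≤ g := by exact_mod_cast hg
    linarith
  have e2 : (1 / (2 * g) : ℚ) • (2 * g : ℚ) = 1 := by
    rw [smul_eq_mul]
    field_simp
  rw [← cst_smul, e1, e2] at h
  rw [Ext.eta, map_smul, pl_cupm, pl_dif]
  exact h

end Ext

namespace TT.Deg
variable {S : SA B A} {n m : ℕ} {a b : TT S}

theorem zero : (0 : TT S).Deg n := ⟨0, zero_mem _, Len.zero _, rfl⟩

theorem one : (1 : TT S).Deg 0 := ⟨_, _, len_cst 1, TT.one_def⟩

theorem add (ha : a.Deg n) (hb : b.Deg n) : (a + b).Deg n := by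
  obtain ⟨f, hf, hl, rfl⟩ := ha
  obtain ⟨f', hf', hl', rfl⟩ := hb
  exact ⟨_, _, hl.add hl', TT.mk_add hf hf'⟩

theorem sub (ha : a.Deg n) (hb : b.Deg n) : (a - b).Deg n := by
  obtain ⟨f, hf, hl, rfl⟩ := ha
  obtain ⟨f', hf', hl', rfl⟩ := hb
  exact ⟨_, _, hl.sub hl', TT.mk_sub hf hf'⟩

theorem smul (ha : a.Deg n) (c : ℚ) : (c • a).Deg n := by
  obtain ⟨f, hf, hl, rfl⟩ := ha
  exact ⟨_, _, hl.smul c, TT.mk_smul c hf⟩

theorem mul (ha : a.Deg n) (hb : b.Deg m) : (a * b).Deg (n + m) := by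
  obtain ⟨f, hf, hl, rfl⟩ := ha
  obtain ⟨f', hf', hl', rfl⟩ := hb
  exact ⟨_, _, hl.cupm hl' _, TT.mk_mul hf hf'⟩

theorem pow (ha : a.Deg n) (k : ℕ) : (a ^ k).Deg (n * k) := by
  induction k with
  | zero =>
    rw [pow_zero, Nat.mul_zero]
    exact one
  | succ k ih =>
    rw [pow_succ, Nat.mul_succ]
    exact ih.mul ha

theorem map {S₁ : SA B' A'} {φ : B' →* B} {ψ : A →ₗ[ℚ] A'} (H : LHom S S₁ φ ψ) (ha : a.Deg n) :
    (H.map a).Deg n := by
  obtain ⟨f, hf, hl, rfl⟩ := ha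
  exact ⟨_, _, (hl.pl φ).cm ψ, H.map_mk hf⟩

end TT.Deg

end Pool.Agent.FP
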