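import Pool.Agent.FP.BV1
import Pool.Agent.FP.TT2
import Pool.Agent.FP.FrobB

/-! The Frobenius structure of an extension with kernel a surface group. -/

namespace Pool.Agent.FP

variable {g : ℕ} {E B E' B' : Type} [Group E] [Group B] [Group E'] [Group B']

theorem pre_pl_id {V : Type} [AddCommGroup V] [Module ℚ V] (f : List E → V) :
    pl (MonoidHom.id E) f = f := pl_id f

theorem pre_D_scal {ρ : Representation ℚ E (Hq g)} {a : TE ρ} (ha : lhom_N.map a = 0) :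
    lhom_D2.map (jT ρ a) = 0 := by
  rw [← bv_scal a ha]
  induction a using TT.ind with
  | h f hf =>
    refine (TT.mk_congr (hh := zero_mem _) ?_).trans TT.mk_zero
    funext l
    exact D2_j2_PP _

theorem pre_D_pow {ρ : Representation ℚ E (Hq g)} (u : TE (rep2 ρ)) (n : ℕ) :
    lhom_D2.map (u ^ (n + 1)) = ((n : ℚ) + 1) • (u ^ n * lhom_D2.map u) := by
  induction n with
  | zero => simp
  | succ n ih =>
    rw [pow_succ u (n + 1), D2T_mul, ih]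
    simp only [Algebra.smul_def, map_add, map_natCast, map_one, Nat.cast_succ]
    ring

theorem pre_deg_Gm {ρ : Representation ℚ E (Hq g)} (hρ : ∀ x, Sp (ρ x)) {a b : TE ρ} {n m : ℕ}
    (ha : a.Deg n) (hb : b.Deg m) : (Gm (mkBV hρ).L a b).Deg (n + m) :=
  (((ha.mul hb).map (lhom_L hρ)).sub ((ha.map (lhom_L hρ)).mul hb)).sub
    (ha.mul (hb.map (lhom_L hρ)))

namespace Ext
variable (X : Ext g E B) (hg : 1 ≤ g)

theorem sp (b : B) : Sp (X.ρH b) := X.ρH_om b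

theorem spE (x : E) : Sp ((X.ρH.comp X.p) x) := X.ρH_om _

/-- The action on homology of the total group. -/
abbrev ρE : Representation ℚ E (Hq g) := X.ρH.comp X.p

theorem lhE : LHom (saE X.ρH) (saE X.ρE) X.p LinearMap.id := lhom_pull X.p fun _ => rfl

theorem lhE2 : LHom (saE (rep2 X.ρH)) (saE (rep2 X.ρE)) X.p LinearMap.id :=
  lhom_pull X.p fun _ => rfl

/-- Integration of classes with values in the exterior algebra. -/
noncomputable abbrev IE : TE X.ρE →ₗ[ℚ] TE X.ρH := X.I hg X.lhE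

/-- Integration in the doubled algebra. -/
noncomputable abbrev IE2 : TE (rep2 X.ρE) →ₗ[ℚ] TE (rep2 X.ρH) := X.I hg X.lhE2

/-- Integration of rational classes. -/
noncomputable abbrev IQ : TQ E →ₗ[ℚ] TQ B := X.I hg (lhomQ X.p)

/-- Pull-back to the total group. -/
abbrev pE : TE X.ρH →ₐ[ℚ] TE X.ρE := pullE X.p fun _ => rfl

/-- The tautological class of degree one. -/
abbrev xE : TE X.ρE := cls1 X.k_cross

theorem pre_sg_eta : sg X.eta = X.eta := by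
  rw [sg_of_len X.len_eta]
  norm_num

theorem eta_mem_ev : X.eta ∈ (saQ E).Zev :=
  (saQ E).mem_Zev.2 ⟨X.eta_mem, X.pre_sg_eta⟩

/-- The fibre class. -/
def etaQ : TQ E := TT.mk _ X.eta_mem_ev

theorem IQ_etaQ : X.IQ hg X.etaQ = 1 := by
  refine X.I_mk hg _ X.eta_mem_ev _ ?_
  have h := TopW.self (p := X.p) (ρ := triv B ℚ) (η := X.eta) (cst 1)
  rw [pl_cst, cupm_cst_right _ X.eta_mem.1.1] at h
  have e : cm ((LinearMap.lsmul ℚ ℚ).flip 1) X.eta = X.eta := by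
    funext l
    simp
  rwa [e] at h

theorem IE_unitE (a : TQ E) : X.IE hg (unitE _ a) = unitE _ (X.IQ hg a) :=
  (X.I_cm hg (lhomQ X.p) X.lhE (lhom_unit _) (lhom_unit _) a).symm

theorem augE_IE (a : TE X.ρE) : augE _ (X.IE hg a) = X.IQ hg (augE _ a) :=
  X.I_cm hg X.lhE (lhomQ X.p) (lhom_aug _) (lhom_aug _) a

theorem IE_xx : X.IE hg (X.xE * X.xE) = (2 : ℚ) • (mkBV X.sp).om := by
  refine X.I_mk hg _ _ (Submodule.smul_mem _ _ (omE_mem X.sp)) ?_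
  have h := X.top_kk hg X.k_cross X.k_j (ρ := extRep X.ρH)
    (μ := (LinearMap.mul ℚ _).compl₁₂ io io) (fun b u v => by simp [extRep_apply])
  rw [← two_smul_omE, cst_smul, ← cupm_cm, cm_dif] at h
  exact h

include hg in
theorem pre_top {V W : Type} [AddCommGroup V] [Module ℚ V] [AddCommGroup W] [Module ℚ W]
    {ρV : Representation ℚ B V} {ρW : Representation ℚ B W} {μ : Hq g →ₗ[ℚ] V →ₗ[ℚ] W}
    (hμ : Eqv₂ X.ρH ρV ρW μ) {c : (Hq g →ₗ[ℚ] V) →ₗ[ℚ] W}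
    (hc : ∀ T, c T = cas (μ.compl₂ T)) {T : List B → Hq g →ₗ[ℚ] V}
    (hT : T ∈ Zc (X.ρH.linHom ρV)) :
    X.Top ρW (cupm μ (dif X.k) (cupm (evB _ _) (dif X.k) (pl X.p T))) (cm c T) := by
  have h1 := X.top_kk hg X.k_cross X.k_j (ρ := (X.ρH.linHom ρV).linHom ρW)
    (μ := (LinearMap.llcomp ℚ (Hq g →ₗ[ℚ] V) V W).compl₁₂ μ (evB _ _)) (fun b u v => by
      refine LinearMap.ext fun S => ?_
      change μ (X.ρH b u) (S (X.ρH b v)) =
        ρW b (μ u (ρV b⁻¹ (S (X.ρH b⁻¹⁻¹ v))))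
      rw [← hμ, co4_self_inv, inv_inv])
  have h2 := TopW.cupm (ρW := ρW) (μ := LinearMap.id) (fun b w S => by
    change ρW b (w ((X.ρH.linHom ρV) b⁻¹ ((X.ρH.linHom ρV) b S))) = ρW b (w S)
    rw [co4_inv_self]) h1 hT
  rw [cupm_assoc (μ₃ := evB _ _) (μ₄ := μ) (fun u v w => rfl), cupm_cst_left _ _ hT.1.1] at h2
  have e : (LinearMap.id : ((Hq g →ₗ[ℚ] V) →ₗ[ℚ] W) →ₗ[ℚ] _)
      (cas ((LinearMap.llcomp ℚ (Hq g →ₗ[ℚ] V) V W).compl₁₂ μ (evB _ _))) = c := by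
    refine LinearMap.ext fun S => ?_
    rw [hc]
    simp [cas]
  rwa [e] at h2

include hg in
/-- `∫ x ⟨x, T⟩ = alt T` for a cocycle `T` with values in linear maps. -/
theorem top_x_ev {T : List B → Hq g →ₗ[ℚ] Lm (Hq g)}
    (hT : T ∈ Zc (X.ρH.linHom (extRep X.ρH))) :
    X.Top (extRep X.ρH) (SA.cu (dif (io ∘ X.k)) (cupm (evB _ _) (dif X.k) (pl X.p T)))
      (cm (alt g) T) := by
  have h := X.pre_top hg (ρV := extRep X.ρH) (ρW := extRep X.ρH)
    (μ := (LinearMap.mul ℚ _).compl₁₂ io LinearMap.id) (fun b u v => by simp [extRep_apply])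
    (c := alt g) (fun _ => rfl) hT
  rw [← cupm_cm, cm_dif, cm_id] at h
  exact h

include hg in
/-- The same in the doubled algebra. -/
theorem top_x2_ev {T : List B → Hq g →ₗ[ℚ] Lm (Hq g)}
    (hT : T ∈ Zc (X.ρH.linHom (extRep X.ρH))) :
    X.Top (extRep (rep2 X.ρH)) (SA.cu (dif (io2 g ∘ X.k))
      (cm (j2 g).toLinearMap (cupm (evB _ _) (dif X.k) (pl X.p T)))) (cm (sharp g) T) := by
  have h := X.pre_top hg (ρV := extRep X.ρH) (ρW := extRep (rep2 X.ρH))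
    (μ := (LinearMap.mul ℚ _).compl₁₂ (io2 g) (j2 g).toLinearMap) (fun b u v => by
      change io2 g (X.ρH b u) * j2 g (emap (X.ρH b) v) =
        emap ((X.ρH b).prodMap (X.ρH b)) (io2 g u * j2 g v)
      rw [map_mul, j2_emap]
      simp [io2])
    (c := sharp g) (fun _ => rfl) hT
  rw [← cupm_cm, cm_dif] at h
  exact h

theorem pre_x2 : ∃ h, lhom_D2.map (jT _ X.xE) = TT.mk (dif (io2 g ∘ X.k)) h := by
  have e : cm (D2 g) (pl (MonoidHom.id E) (cm (j2 g).toLinearMap (pl (MonoidHom.id E)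
      (dif (io ∘ X.k))))) = dif (io2 g ∘ X.k) := by
    rw [pre_pl_id, pre_pl_id, cm_dif, cm_dif]
    congr 1
    funext x
    exact D2_j2_io _
  exact ⟨e ▸ lhom_D2.mem (lhom_j2.mem (dif_io_mem X.k_cross)), TT.mk_congr e⟩

/-- The parity operator on cochains with values in linear maps. -/
def prePar (g : ℕ) (B : Type) :
    (List B → Hq g →ₗ[ℚ] Lm (Hq g)) →ₗ[ℚ] (List B → Hq g →ₗ[ℚ] Lm (Hq g)) :=
  -(sg ∘ₗ cm (LinearMap.llcomp ℚ _ _ _ invo))

theorem prePar_apply (T : List B → Hq g →ₗ[ℚ] Lm (Hq g)) :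
    prePar g B T = -sg (cm (LinearMap.llcomp ℚ _ _ _ invo) T) := rfl

theorem prePar_prePar (T : List B → Hq g →ₗ[ℚ] Lm (Hq g)) : prePar g B (prePar g B T) = T := by
  rw [prePar_apply, prePar_apply, map_neg, map_neg, neg_neg, ← sg_cm, sg_sg]
  funext l
  exact LinearMap.ext fun v => invo_invo _

theorem prePar_mem {T : List B → Hq g →ₗ[ℚ] Lm (Hq g)}
    (hT : T ∈ Zc (X.ρH.linHom (extRep X.ρH))) : prePar g B T ∈ Zc (X.ρH.linHom (extRep X.ρH)) :=
  neg_mem (sg_mem_Zc (cm_mem_Zc (fun _ _ => LinearMap.ext fun _ => invo_emap _ _) hT))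

theorem pre_par_Phi (f0 : List B → Lm (Hq g)) (f1 : List B → Hq g →ₗ[ℚ] Lm (Hq g))
    (f2 : List B → Lm (Hq g)) : (saE X.ρE).par (X.Phi f0 f1 f2) =
      X.Phi ((saE X.ρH).par f0) (prePar g B f1) ((saE X.ρH).par f2) := by
  have e1 : cm invo (cupm (evB (Hq g) (Lm (Hq g))) (dif X.k) (pl X.p f1)) =
      cupm (evB _ _) (dif X.k) (pl X.p (cm (LinearMap.llcomp ℚ _ _ _ invo) f1)) := by
    rw [cm_cupm]
    exact cupm_congr fun l l' => rfl
  have e2 : cm invo (cupm (LinearMap.lsmul ℚ (Lm (Hq g))) X.eta (pl X.p f2)) =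
      cupm (LinearMap.lsmul ℚ _) X.eta (pl X.p (cm invo f2)) := by
    rw [cm_cupm]
    exact cupm_congr fun l l' => by simp
  have e3 : sg (dif X.k) = -dif X.k := by
    rw [sg_of_len (len_dif _)]
    norm_num
  change sg (cm invo (X.Phi f0 f1 f2)) = X.Phi (sg (cm invo f0)) (prePar g B f1) (sg (cm invo f2))
  rw [Phi, Phi, map_add, map_add, map_add, map_add, e1, e2, sg_cupm, sg_cupm, e3, X.pre_sg_eta,
    ← pl_cm, sg_pl, sg_pl, sg_pl, prePar_apply, map_neg, map_neg, map_neg, LinearMap.neg_apply]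

include hg in
theorem pre_lh_ev {f : List E → Lm (Hq g)} (hf : f ∈ (saE X.ρE).Zev) :
    ∃ f0 ∈ (saE X.ρH).Zev, ∃ f1 ∈ Zc (X.ρH.linHom (extRep X.ρH)), ∃ f2 ∈ (saE X.ρH).Zev,
      prePar g B f1 = f1 ∧ f - X.Phi f0 f1 f2 ∈ Bc (saE X.ρE).ρ := by
  obtain ⟨hf1, hf2⟩ := (saE X.ρE).mem_Zev.1 hf
  obtain ⟨f0, h0, f1, h1, f2, h2, h⟩ := X.lh_epi hg (extRep X.ρH) hf1
  have h' : f - X.Phi f0 f1 f2 ∈ Bc (saE X.ρE).ρ := h
  have h'' := (saE X.ρE).par_mem_Bc h'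
  rw [map_sub, hf2, X.pre_par_Phi] at h''
  refine ⟨_, (saE X.ρH).even_mem h0, (1 / 2 : ℚ) • (f1 + prePar g B f1),
    Submodule.smul_mem _ _ (add_mem h1 (X.prePar_mem h1)), _, (saE X.ρH).even_mem h2, ?_, ?_⟩
  · rw [map_smul, map_add, prePar_prePar, add_comm]
  · have h3 := Submodule.smul_mem _ (1 / 2 : ℚ) (add_mem h' h'')
    convert h3 using 1
    simp only [Phi, map_add, map_smul]
    module

theorem pre_sharp_mem {T : List B → Hq g →ₗ[ℚ] Lm (Hq g)}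
    (hT : T ∈ Zc (X.ρH.linHom (extRep X.ρH))) (hp : prePar g B T = T) :
    cm (sharp g) T ∈ (saE (rep2 X.ρH)).Zev := by
  refine (saE _).mem_Zev.2 ⟨cm_mem_Zc (fun b S => ?_) hT, ?_⟩
  · exact sharp_emap (co4_self_inv X.ρH b) (X.sp b) S
  · conv_rhs => rw [← hp, prePar_apply, map_neg, ← sg_cm, ← map_neg]
    change sg (cm invo (cm (sharp g) T)) = _
    congr 1
    funext l
    exact invo_sharp _

theorem pre_flat {T : List B → Hq g →ₗ[ℚ] Lm (Hq g)} (hT : cm (sharp g) T ∈ (saE _).Zev) :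
    ∃ h, rT _ ((lhom_L2 X.spE).map (lhom_D2.map (jT _ X.xE) * X.lhE2.map (TT.mk _ hT))) =
      TT.mk (cupm (evB _ _) (dif X.k) (pl X.p T)) h := by
  obtain ⟨hx, ex⟩ := X.pre_x2
  have e : cm (r2 g).toLinearMap (pl (MonoidHom.id E) (cm (L2 g) (pl (MonoidHom.id E)
      (SA.cu (dif (io2 g ∘ X.k)) (cm LinearMap.id (pl X.p (cm (sharp g) T))))))) =
      cupm (evB _ _) (dif X.k) (pl X.p T) := by
    rw [pre_pl_id, pre_pl_id, SA.cu, cm_cupm, cm_cupm, ← cm_dif]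
    exact cupm_congr fun l l' => flat_sharp _ _
  rw [ex]
  exact ⟨e ▸ lhom_r2.mem ((lhom_L2 X.spE).mem ((saE _).cu_mem hx (X.lhE2.mem hT))),
    TT.mk_congr e⟩

/-- The Leray and Hirsch decomposition on classes. -/
theorem lh_class (f : TE X.ρE) : ∃ (f0 f2 : TE X.ρH) (m : TE (rep2 X.ρH)),
    f = X.pE f0 + rT _ ((lhom_L2 X.spE).map (lhom_D2.map (jT _ X.xE) * X.lhE2.map m)) +
      X.pE f2 * unitE _ X.etaQ ∧
    X.IE2 hg (lhom_D2.map (jT _ X.xE) *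
      jT _ (rT _ ((lhom_L2 X.spE).map (lhom_D2.map (jT _ X.xE) * X.lhE2.map m)))) = m := by
  induction f using TT.ind with
  | h f hf =>
  obtain ⟨f0, h0, f1, h1, f2, h2, hp, h⟩ := X.pre_lh_ev hg hf
  have hm := X.pre_sharp_mem h1 hp
  obtain ⟨h3, e3⟩ := X.pre_flat hm
  obtain ⟨hx, ex⟩ := X.pre_x2
  refine ⟨TT.mk f0 h0, TT.mk f2 h2, TT.mk _ hm, ?_, ?_⟩
  · rw [e3, mul_comm]
    refine TT.mk_eq_mk.2 ?_
    have e : SA.cu (cm (Algebra.linearMap ℚ (Lm (Hq g))) (pl (MonoidHom.id E) X.eta))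
        (cm LinearMap.id (pl X.p f2)) = cupm (LinearMap.lsmul ℚ _) X.eta (pl X.p f2) := by
      rw [pre_pl_id]
      exact cupm_congr fun l l' => (Algebra.smul_def (X.eta l) (f2 (l'.map X.p))).symm
    rw [Phi, ← e] at h
    exact h
  · rw [e3, ex]
    refine X.I_mk hg _ _ hm ?_
    have h4 := X.top_x2_ev hg h1
    rw [← pre_pl_id (cupm (evB _ _) (dif X.k) (pl X.p f1))] at h4
    exact h4

theorem pre_j_p (y : TE X.ρH) : jT _ (X.pE y) = X.lhE2.map (jT _ y) := by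
  induction y using TT.ind with
  | h f hf =>
    refine TT.mk_congr (funext fun l => ?_)
    change j2 g (f ((l.map id).map X.p)) = j2 g (f ((l.map X.p).map id))
    rw [List.map_id, List.map_id]

theorem pre_D_p (m : TE (rep2 X.ρH)) :
    lhom_D2.map (X.lhE2.map m) = X.lhE2.map (lhom_D2.map m) := by
  induction m using TT.ind with
  | h f hf =>
    refine TT.mk_congr (funext fun l => ?_)
    change D2 g (f ((l.map id).map X.p)) = D2 g (f ((l.map X.p).map id))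
    rw [List.map_id, List.map_id]

theorem pre_p2_mul (m m' : TE (rep2 X.ρH)) :
    X.lhE2.map (m * m') = X.lhE2.map m * X.lhE2.map m' :=
  map_mul (X.lhE2.mapA rfl fun _ _ => rfl) m m'

theorem pre_I_Dj (a : TE X.ρE) :
    X.IE2 hg (lhom_D2.map (jT _ a)) = lhom_D2.map (jT _ (X.IE hg a)) :=
  (X.I_cm hg X.lhE2 X.lhE2 lhom_D2 lhom_D2 _).symm.trans
    (congrArg lhom_D2.map (X.I_cm hg X.lhE X.lhE2 lhom_j2 lhom_j2 a).symm)

theorem deg_xE : X.xE.Deg 1 := ⟨_, _, len_dif _, rfl⟩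

/-- The decomposition in terms of the bracket. -/
theorem dec_pre (i : ℕ) (a : TE X.ρE) (ha : (mkBV X.spE).N a = 0) : ∃ f0 f2 : TE X.ρH,
    ((i : ℚ) + 1) • (X.xE ^ i * a) = X.pE f0 +
      Gm (mkBV X.spE).L (X.pE (X.IE hg (X.xE ^ (i + 1) * a))) X.xE +
      X.pE f2 * (unitE _ X.etaQ -
        Gm (mkBV X.spE).L (X.pE (X.IE hg (X.xE * unitE _ X.etaQ))) X.xE) := by
  obtain ⟨f0, f2, m, h1, h2⟩ := X.lh_class hg (((i : ℚ) + 1) • (X.xE ^ i * a))
  refine ⟨f0, f2, ?_⟩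
  have hG : ∀ y : TE X.ρH, Gm (mkBV X.spE).L (X.pE y) X.xE = rT _ ((lhom_L2 X.spE).map
      (X.lhE2.map (lhom_D2.map (jT _ y)) * lhom_D2.map (jT _ X.xE))) := fun y => by
    rw [← X.pre_D_p, ← X.pre_j_p]
    exact Gm_eq X.spE _ _
  have e1 : lhom_D2.map (jT _ X.xE) * jT _ (((i : ℚ) + 1) • (X.xE ^ i * a)) =
      lhom_D2.map (jT _ (X.xE ^ (i + 1) * a)) := by
    rw [map_mul _ (X.xE ^ (i + 1)), D2T_mul, pre_D_scal ha, map_pow, pre_D_pow, map_smul, map_mul,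
      map_pow, mul_zero, add_zero, mul_smul_comm, smul_mul_assoc]
    congr 1
    ring
  have e2 : lhom_D2.map (jT _ X.xE) * jT _ (unitE _ X.etaQ) =
      lhom_D2.map (jT _ (X.xE * unitE _ X.etaQ)) := by
    rw [map_mul, D2T_mul, pre_D_scal (N_unitE X.spE _), mul_zero, add_zero]
  have e3 : X.IE2 hg (lhom_D2.map (jT _ X.xE)) = 0 := by
    rw [X.pre_I_Dj, X.I_deg_one hg _ X.deg_xE, map_zero, map_zero]
  have h3 := congrArg (fun t => X.IE2 hg (lhom_D2.map (jT _ X.xE) * jT _ t)) h1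
  simp only [map_add, mul_add] at h3
  rw [e1, h2, X.pre_I_Dj, map_mul _ (X.pE f2), X.pre_j_p, X.pre_j_p, mul_left_comm, e2,
    mul_comm _ (X.lhE2.map (jT _ f0)), X.I_mul, X.I_mul, e3, X.pre_I_Dj, mul_zero, zero_add,
    ← sub_eq_iff_eq_add] at h3
  rw [h1, hG, hG, ← h3, map_sub, mul_sub, map_sub, map_sub, X.pre_p2_mul, ← X.pre_j_p,
    mul_left_comm, L2T_jT_mul X.spE, map_mul (rT _), rT_jT, mul_comm (lhom_D2.map (jT _ X.xE)),
    mul_comm (lhom_D2.map (jT _ X.xE))]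
  ring

theorem deg_etaQ : X.etaQ.Deg 2 := ⟨_, _, X.len_eta, rfl⟩

/-- The structure before normalisation. -/
noncomputable def mkPre : PreFrob g (TE X.ρH) (TE X.ρE) where
  bO := mkBV X.sp
  bT := mkBV X.spE
  p := X.pE
  I := X.IE hg
  x := X.xE
  η := unitE _ X.etaQ
  p_hom := mkBV_hom _ _ _ _
  I_p := X.I_mul hg X.lhE
  I_L := fun f => (X.I_cm hg X.lhE X.lhE (lhom_L X.sp) (lhom_L X.spE) f).symm
  I_N := fun f => (X.I_cm hg X.lhE X.lhE lhom_N lhom_N f).symm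
  N_x := N_cls1 _ _
  N_η := N_unitE _ _
  I_one := X.I_deg_zero hg _ TT.Deg.one
  I_x := X.I_deg_one hg _ X.deg_xE
  I_η := by rw [X.IE_unitE, X.IQ_etaQ, map_one]
  I_xx := X.IE_xx hg
  dec' := X.dec_pre hg

/-- The Frobenius structure. -/
noncomputable def frob : Frob g (TE X.ρH) (TE X.ρE) := (X.mkPre hg).toFrob

/-- The Euler class as a rational class. -/
noncomputable def chiQ : TQ E := augE _ (X.frob hg).chi

/-- The kappa classes as rational classes. -/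
noncomputable def kbQ (m : ℕ) : TQ B := augE _ ((X.frob hg).kb m)

theorem unitE_chiQ : unitE _ (X.chiQ hg) = (X.frob hg).chi :=
  unitE_augE_of_N X.spE (X.frob hg).N_chi

theorem unitE_kbQ (m : ℕ) : unitE _ (X.kbQ hg m) = (X.frob hg).kb m :=
  unitE_augE_of_N X.sp
    ((X.frob hg).N_I_scal ((X.frob hg).bT.N_pow_scal (X.frob hg).N_chi (m + 1)))

theorem IQ_chiQ_pow (m : ℕ) : X.IQ hg (X.chiQ hg ^ (m + 1)) = X.kbQ hg m := by
  rw [chiQ, ← map_pow, ← X.augE_IE]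
  rfl

theorem kbQ_zero : X.kbQ hg 0 = (2 - 2 * (g : ℚ)) • 1 := by
  rw [kbQ, Frob.kb_zero, map_smul, map_one]

theorem deg_chiQ : (X.chiQ hg).Deg 2 := by
  have h1 : (unitE X.ρE X.etaQ).Deg 2 := X.deg_etaQ.map (lhom_unit _)
  have h2 : (X.mkPre hg).η1.Deg 2 :=
    h1.sub (pre_deg_Gm X.spE ((X.I_deg hg X.lhE (n := 1) (X.deg_xE.mul h1)).map X.lhE) X.deg_xE)
  have h3 : (X.mkPre hg).η2.Deg 2 :=
    h2.sub (((X.I_deg hg X.lhE (n := 2) (h2.mul h2)).smul _).map X.lhE)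
  exact ((pre_deg_Gm X.spE X.deg_xE X.deg_xE).add (h3.smul 2)).map (lhom_aug _)

theorem deg_kbQ (m : ℕ) : (X.kbQ hg m).Deg (2 * m) := by
  rw [← X.IQ_chiQ_pow]
  exact X.I_deg hg _ ((X.deg_chiQ hg).pow (m + 1))

/-- A section of groups gives a section. -/
theorem isSec (s : B →* E) (hs : ∀ b, X.p (s b) = b) :
    (X.frob hg).IsSec (pullE s fun b => congrArg X.ρH (hs b).symm) :=
  ⟨mkBV_hom X.spE X.sp _ _, fun y =>
    (pullE_pullE (σ' := X.ρE) X.p (fun _ => rfl) s _ (MonoidHom.id B) (fun _ => rfl) hs y).trans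
      (pullE_id _ _ (fun _ => rfl) y)⟩

/-- Base change (`exists_cross_base` gives `y`; `I_map` and `top_pl_eta` give `map_I`). -/
theorem frob_hom (X' : Ext g E' B') (φE : E' →* E) (φB : B' →* B)
    (hc : ∀ x, X.p (φE x) = φB (X'.p x)) (hρ : ∀ b, X'.ρH b = X.ρH (φB b))
    (hj : ∀ γ, φE (X'.j γ) = X.j γ) : ∃ y, (X.frob hg).Hom (X'.frob hg) (pullE φB hρ)
      (pullE φE fun x => (hρ _).trans (congrArg X.ρH (hc x).symm)) y ∧
      ∀ (c : B' → Hq g) (h : Cross X'.ρH c), (∀ x, X.k (φE x) = X'.k x + c (X'.p x)) →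
        y = cls1 h := by
  have hr : ∀ x, X'.ρE x = X.ρE (φE x) := fun x => (hρ _).trans (congrArg X.ρH (hc x).symm)
  have hk : Cross X'.ρE (X.k ∘ φE) := fun x y => by
    rw [hr]
    exact X.k_cross.comp φE x y
  obtain ⟨c, h1, h2⟩ := X'.exists_cross_base hk fun γ => by
    rw [Function.comp_apply, hj, X.k_j]
  refine ⟨cls1 h1, ⟨mkBV_hom X.sp X'.sp _ _, mkBV_hom X.spE X'.spE _ _, fun a => ?_,
    fun f => ?_, N_cls1 X'.sp h1, ?_⟩, fun c' h h3 => ?_⟩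
  · exact (pullE_pullE (σ' := X.ρE) X.p (fun _ => rfl) φE hr (φB.comp X'.p) (fun x => hρ _) hc
      a).trans
      (pullE_pullE φB hρ X'.p (fun _ => rfl) (φB.comp X'.p) _ (fun _ => rfl) a).symm
  · exact X.I_map hg X.lhE X' X'.lhE (lhom_pull φB hρ) (lhom_pull φE hr) hc
      (X.top_pl_eta hg X' hc hρ hj) f
  · refine (pullE_cls1 φE hr X.k_cross hk fun _ => rfl).trans
      ((cls1_add X'.k_cross (h1.comp X'.p) hk fun x => congrFun h2 x).trans ?_)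
    exact congrArg (X'.xE + ·)
      (pullE_cls1 X'.p (fun _ => rfl) h1 (h1.comp X'.p) fun _ => rfl).symm
  · have e : c = c' := by
      funext b
      obtain ⟨x, rfl⟩ := X'.p_surj b
      exact add_left_cancel ((congrFun h2 x).symm.trans (h3 x))
    subst e
    rfl

theorem pull_chiQ (X' : Ext g E' B') (φE : E' →* E) (φB : B' →* B)
    (hc : ∀ x, X.p (φE x) = φB (X'.p x)) (hρ : ∀ b, X'.ρH b = X.ρH (φB b))
    (hj : ∀ γ, φE (X'.j γ) = X.j γ) : pullQ φE (X.chiQ hg) = X'.chiQ hg := by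
  obtain ⟨y, H, -⟩ := X.frob_hom hg X' φE φB hc hρ hj
  rw [chiQ, chiQ, ← H.map_chi, augE_pullE]

theorem pull_kbQ (X' : Ext g E' B') (φE : E' →* E) (φB : B' →* B)
    (hc : ∀ x, X.p (φE x) = φB (X'.p x)) (hρ : ∀ b, X'.ρH b = X.ρH (φB b))
    (hj : ∀ γ, φE (X'.j γ) = X.j γ) (m : ℕ) : pullQ φB (X.kbQ hg m) = X'.kbQ hg m := by
  obtain ⟨y, H, -⟩ := X.frob_hom hg X' φE φB hc hρ hj
  rw [kbQ, kbQ, ← H.map_kb, augE_pullE]

/-- Comparison with the push-forward of the statement, for a fibre class of integral `c`. -/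
theorem topW_iff {η f : List E → ℚ} {y : List B → ℚ} (hη : η ∈ (saQ E).Zev)
    (hf : f ∈ (saQ E).Zev) (hy : y ∈ (saQ B).Zev) {c : ℚ} (hc : X.IQ hg (TT.mk η hη) = c • 1) :
    TopW X.p (triv B ℚ) η f y ↔ X.IQ hg (TT.mk f hf) = c • TT.mk y hy := by
  rw [TT.one_def, TT.mk_smul] at hc
  have h1 : X.Top (triv B ℚ) η (c • cst 1) := X.top_of_I hg (lhomQ X.p) hη _ hc
  rw [← cst_smul, smul_eq_mul, mul_one] at h1
  have hy' : y ∈ Zc (triv B ℚ) := ((saQ B).mem_Zev.1 hy).1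
  rw [TT.mk_smul]
  constructor
  · intro h
    have h2 : X.Top (triv B ℚ) f (c • y) := X.top_of_topW h1 hy' h
    exact X.I_mk hg (lhomQ X.p) hf _ h2
  · intro h
    have h2 : X.Top (triv B ℚ) f (c • y) := X.top_of_I hg (lhomQ X.p) hf _ h
    exact X.topW_of_top h1 hy' h2

end Ext

end Pool.Agent.FP
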