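import Pool.Agent.FP.Mg2
import Pool.Agent.FP.Pre

/-! The class `∫ x ^ 3` is given by the Johnson cocycle. -/

namespace Pool.Agent.FP

variable {g : ℕ} {E B Q : Type} [Group E] [Group B] [Group Q]

theorem tau_invo_dif {σ : B → Hq g →ₗ[ℚ] Lm (Hq g)} (he : ∀ b v, invo (σ b v) = σ b v)
    (l : List B) (v : Hq g) : invo (dif σ l v) = dif σ l v := by
  match l with
  | [] => simp [dif]
  | [_] => simp [dif]
  | [x, y] => simp [dif, he]
  | _ :: _ :: _ :: _ => simp [dif]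

theorem tau_alg {O T O' T' : Type} [CommRing O] [Algebra ℚ O] [CommRing T] [Algebra ℚ T]
    [CommRing O'] [Algebra ℚ O'] [CommRing T'] [Algebra ℚ T'] {F : Frob g O T} {F' : Frob g O' T'}
    {fO : O →ₐ[ℚ] O'} {fT : T →ₐ[ℚ] T'} {y : O'} (H : F.Hom F' fO fT y) (hg : (1 - g : ℚ) ≠ 0)
    {e : T'} {t : O'} {c : ℚ}
    (hxx : F'.x * F'.x = (2 : ℚ) • e - c • (F'.bT.om * F'.bT.L (F'.x * F'.x)))
    (ht : F'.I (F'.x * e) = t) :
    fO ((1 / 6 : ℚ) • F.I (F.x ^ 3) - (1 / (1 - g) : ℚ) •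
      (F.bO.om * F.bO.L ((1 / 6 : ℚ) • F.I (F.x ^ 3)))) =
      (1 / 3 : ℚ) • (t - (1 / (1 - g) : ℚ) • (F'.bO.om * F'.bO.L t)) := by
  have hs : F'.bT.N (F'.bT.L (F'.x * F'.x)) = 0 := by
    rw [F'.bT.N_L, F'.bT.N_mul, F'.N_x, ← two_smul ℚ, map_smul, sub_self]
  have hz := F'.N_I_x hs
  set z := F'.I (F'.x * F'.bT.L (F'.x * F'.x)) with hzd
  have h3 : F'.I (F'.x ^ 3) = (2 : ℚ) • t - c • (F'.bO.om * z) := by
    have e1 : F'.x ^ 3 = F'.x * (F'.x * F'.x) := by ring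
    rw [e1, hxx, mul_sub, mul_smul_comm, mul_smul_comm, map_sub, map_smul, map_smul, ht,
      mul_left_comm, ← F'.p_hom.map_om, F'.I_p]
  have h4 : fO (F.I (F.x ^ 3)) = F'.I (F'.x ^ 3) + (6 : ℚ) • (F'.bO.om * y) := by
    have e1 : (F'.x + F'.p y) ^ 3 = F'.x ^ 3 + (3 : ℚ) • (F'.p y * (F'.x * F'.x)) +
        (3 : ℚ) • (F'.p (y * y) * F'.x) + F'.p (y * y * y) := by
      simp only [map_mul, Algebra.smul_def, map_ofNat]
      ring
    rw [H.map_I, map_pow, H.map_x, e1, map_add, map_add, map_add, map_smul, map_smul, F'.I_p,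
      F'.I_p, F'.I_xx, F'.I_x, F'.I_p_one]
    simp only [Algebra.smul_def, map_ofNat]
    ring
  have hw : F'.bO.N (y - (c / 6) • z) = y - (c / 6) • z := by
    rw [map_sub, map_smul, H.N_y, hz]
  have h5 : fO ((1 / 6 : ℚ) • F.I (F.x ^ 3)) =
      (1 / 3 : ℚ) • t + F'.bO.om * (y - (c / 6) • z) := by
    rw [map_smul, h4, h3, mul_sub, mul_smul_comm]
    module
  rw [map_sub, map_smul fO (1 / (1 - g) : ℚ), map_mul, H.homO.map_om, H.homO.map_L, h5, map_add,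
    F'.bO.L_mul_om hw, map_smul, mul_add, mul_smul_comm, mul_smul_comm, smul_add,
    smul_smul _ (1 - g : ℚ), one_div_mul_cancel hg, one_smul]
  module

theorem tau_inj (X : Ext g E B) (hg : 1 ≤ g) {σ' : Representation ℚ E (Hq g)}
    (h : ∀ x, σ' x = X.ρH (X.p x)) : Function.Injective (pullE X.p h) := by
  obtain rfl : σ' = X.ρE := MonoidHom.ext h
  intro a b e
  have h1 := (X.frob hg).I_p a (X.frob hg).η
  have h2 := (X.frob hg).I_p b (X.frob hg).η
  rw [(X.frob hg).I_η, mul_one] at h1 h2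
  rw [← h1, ← h2]
  exact congrArg (fun t => (X.frob hg).I (t * (X.frob hg).η)) e

theorem Ext.ev_mem (X : Ext g E B) {σ : B → Hq g →ₗ[ℚ] Lm (Hq g)}
    (hσ : Cross (X.ρH.linHom (extRep X.ρH)) σ) (he : ∀ b v, invo (σ b v) = σ b v) :
    cupm (evB _ _) (dif X.k) (pl X.p (dif σ)) ∈ (saE X.ρE).Zev := by
  refine (saE X.ρE).mem_Zev.2 ⟨cupm_mem_Zc ((eqv₂_evB X.ρH (extRep X.ρH)).comp X.p)
    X.k_cross.dif_mem (pl_mem_Zc X.p hσ.dif_mem), ?_⟩
  have hl : Len (1 + 1 + 1) (cupm (evB _ (Lm (Hq g))) (dif X.k) (pl X.p (dif σ))) :=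
    (len_dif X.k).cupm ((len_dif σ).pl X.p) _
  have e : cm invo (cupm (evB _ (Lm (Hq g))) (dif X.k) (pl X.p (dif σ))) =
      cupm (evB _ (Lm (Hq g))) (dif X.k) (pl X.p (dif σ)) := by
    rw [cm_cupm]
    exact cupm_congr fun l l' => tau_invo_dif he _ _
  change sg (cm invo (cupm (evB _ (Lm (Hq g))) (dif X.k) (pl X.p (dif σ)))) = _
  rw [e, sg_of_len hl]
  norm_num

/-- The class `⟨k, σ⟩`. -/
def Ext.evC (X : Ext g E B) {σ : B → Hq g →ₗ[ℚ] Lm (Hq g)}
    (hσ : Cross (X.ρH.linHom (extRep X.ρH)) σ) (he : ∀ b v, invo (σ b v) = σ b v) : TE X.ρE :=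
  TT.mk _ (X.ev_mem hσ he)

theorem Ext.alt_mem (X : Ext g E B) {σ : B → Hq g →ₗ[ℚ] Lm (Hq g)}
    (hσ : Cross (X.ρH.linHom (extRep X.ρH)) σ) (he : ∀ b v, invo (σ b v) = σ b v) :
    dif (alt g ∘ σ) ∈ (saE X.ρH).Zev :=
  (saE X.ρH).dif_mem (hσ.map (eqv_alt X.sp)) fun b => invo_alt (he b)

theorem Ext.IE_evC (X : Ext g E B) (hg : 1 ≤ g) {σ : B → Hq g →ₗ[ℚ] Lm (Hq g)}
    (hσ : Cross (X.ρH.linHom (extRep X.ρH)) σ) (he : ∀ b v, invo (σ b v) = σ b v) :
    X.IE hg (X.evC hσ he) = 0 := by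
  have h := X.top_Phi (ρ := extRep X.ρH) (f0 := 0) (f1 := dif σ) 0 (zero_mem _) hσ.dif_mem.1
  simp only [Ext.Phi, map_zero, zero_add, add_zero] at h
  exact X.I_mk hg X.lhE (X.ev_mem hσ he) (zero_mem _) h

theorem Ext.IE_x_evC (X : Ext g E B) (hg : 1 ≤ g) {σ : B → Hq g →ₗ[ℚ] Lm (Hq g)}
    (hσ : Cross (X.ρH.linHom (extRep X.ρH)) σ) (he : ∀ b v, invo (σ b v) = σ b v) :
    X.IE hg (X.xE * X.evC hσ he) = TT.mk _ (X.alt_mem hσ he) := by
  have h := X.top_x_ev hg hσ.dif_mem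
  rw [cm_dif] at h
  exact X.I_mk hg X.lhE ((saE X.ρE).cu_mem (dif_io_mem X.k_cross) (X.ev_mem hσ he))
    (X.alt_mem hσ he) h

theorem sigb_cross' (hg : 1 ≤ g) (r : Q →* Aut g) :
    Cross ((extS r).ρH.linHom (extRep (extS r).ρH)) (sigb g ∘ r) := by
  intro x y
  have h := sigb_cross hg (r x) (r y)
  rw [← map_mul, Representation.linHom_apply, ← map_inv] at h
  exact h

theorem tau_eqv_prj {G : Type} [Group G] {ρ : Representation ℚ G (Hq g)} (hρ : ∀ x, Sp (ρ x)) :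
    Eqv (extRep ρ) (extRep ρ) (prj g) :=
  fun x a => prj_emap (ψ := ρ x⁻¹) (co4_self_inv ρ x) (hρ x) a

theorem tau_eqv_flip {G U V W : Type} [Group G] [AddCommGroup U] [Module ℚ U] [AddCommGroup V]
    [Module ℚ V] [AddCommGroup W] [Module ℚ W] {ρU : Representation ℚ G U}
    {ρV : Representation ℚ G V} {ρW : Representation ℚ G W} {μ : U →ₗ[ℚ] V →ₗ[ℚ] W}
    (h : Eqv₂ ρU ρV ρW μ) : Eqv₂ ρV ρU ρW (-μ.flip) := fun x v u => by
  simp only [LinearMap.neg_apply, LinearMap.flip_apply, map_neg, h x u v]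

theorem tau_dd (hg : 1 ≤ g) (r : Q →* Aut g) :
    dd (of1 (extRep (extS r).ρE) fun z : Sd r => tb2 g z.left) =
      cupm (-(evB _ _).flip) (pl (extS r).p (dif (sigb g ∘ r))) (dif (extS r).k) -
        (1 / 2 : ℚ) • cm (prj g) (SA.cu (dif (io ∘ (extS r).k)) (dif (io ∘ (extS r).k))) := by
  have hk := (extS r).k_cross
  have hσ := sigb_cross' hg r
  have hx := dif_io_mem hk
  refine ext_len_three (ρ := extRep (extS r).ρE) (dd_mem_Co (of1_mem_Co _ _))
    (sub_mem (cupm_mem_Co (tau_eqv_flip ((eqv₂_evB _ (extRep (extS r).ρH)).comp (extS r).p))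
      (pl_mem_Co _ hσ.dif_mem.1) hk.dif_mem.1)
      (Submodule.smul_mem _ _ (cm_mem_Co (tau_eqv_prj (extS r).spE)
        ((saE _).cu_mem hx hx).1.1)))
    (len_of1 _ _).dd
    ((Len.cupm (a := 1) (b := 1) ((len_dif _).pl _) (len_dif _) _).sub
      (((Len.cupm (a := 1) (b := 1) (len_dif _) (len_dif _) _).cm _).smul _)) fun x y => ?_
  rw [dd_of1, Pi.sub_apply, Pi.smul_apply, cm_apply, cupm_triple _ ((len_dif _).pl _) (len_dif _),
    SA.cu, cupm_triple _ (len_dif _) (len_dif _)]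
  have e1 : (extS r).k (x * y) - (extS r).k x = ab ((r x.right).1 y.left) := by
    rw [hk, add_sub_cancel_left]
    exact autRep_ab _ _
  have e2 : (x * y).left = x.left * (r x.right).1 y.left := rfl
  have e3 := sigb_ab hg (r x.right) ((r x.right).1 y.left)
  have e4 : (r x.right)⁻¹.1 ((r x.right).1 y.left) = y.left := (r x.right).1.symm_apply_apply _
  rw [e4] at e3
  have e5 : (sigb g ∘ r) 1 = 0 := hσ.one
  simp only [pl_apply, List.map_cons, List.map_nil, dif, map_one, e5, hk.one, sub_zero, inv_one,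
    one_mul, inv_mul_cancel_left, Module.End.one_apply, Function.comp_apply, ← map_sub io, e1,
    LinearMap.neg_apply, LinearMap.flip_apply, evB_apply, LinearMap.mul_apply', e2, tb2_mul hg]
  change emap (autRep g (r x.right)) (tb2 g y.left) - _ + _ =
    -(sigb g (r x.right)) _ - (1 / 2 : ℚ) • prj g (io (ab x.left) * _)
  rw [e3]
  abel

/-- On a bundle with a section, `F z = tb2 z.left` satisfies
`dd (of1 F) = -(σ ∪ k) - prj (k ∪ k) / 2`; use `cupm_comm` to exchange `σ` and `k`. -/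
theorem xx_eq (hg : 1 ≤ g) (r : Q →* Aut g) : (extS r).xE * (extS r).xE =
    (2 : ℚ) • (extS r).evC (sigb_cross' hg r) (fun b v => invo_sigb (r b) v) -
      (1 / g : ℚ) • ((mkBV (extS r).spE).om * (mkBV (extS r).spE).L ((extS r).xE * (extS r).xE)) := by
  have hk := (extS r).k_cross
  have hσ := sigb_cross' hg r
  have hx := dif_io_mem hk
  have hev := (eqv₂_evB (extS r).ρH (extRep (extS r).ρH)).comp (extS r).p
  have h1 := cupm_comm hev (tau_eqv_flip hev) hk.dif_mem (pl_mem_Zc _ hσ.dif_mem) fun l l' => by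
    by_cases e : l.length = 2
    · by_cases e' : l'.length = 2
      · rw [e, e']
        norm_num
      · rw [(len_dif _).pl _ l' e']
        simp
    · rw [len_dif _ l e]
      simp
  have h2 := dd_mem_Bc (of1_mem_Co (extRep (extS r).ρE) fun z : Sd r => tb2 g z.left)
  rw [tau_dd hg r] at h2
  simp only [mkBV, cls1, Ext.evC, TT.mk_mul, bv1_mk, TT.mk_smul, TT.mk_sub]
  rw [TT.mk_eq_mk]
  have h3 := Submodule.smul_mem _ (-2 : ℚ) (add_mem h1 h2)
  convert h3 using 1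
  · rfl
  simp only [SA.cu]
  rw [cupm_cst_left _ _ (by rw [cm_apply, cupm_nil, map_zero])]
  funext l
  simp only [Pi.sub_apply, Pi.add_apply, Pi.smul_apply, cm_apply, prj, LinearMap.add_apply,
    LinearMap.id_apply, LinearMap.smul_apply, LinearMap.comp_apply, LinearMap.mulLeft_apply,
    LinearMap.mul_apply']
  module

/-- The primitive part of `∫ x ^ 3 / 6` on the outer automorphism group. Pull back to `Aut g`
(injective, as `I (η * p y) = y`), base change to `extS (MonoidHom.id _)` along `q2` (`frob_hom`: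
`x` pulls back to `x + p y`, which changes `I (x ^ 3) / 6` by `y * om`), and use `xx_eq`,
`IE_x_evC`, `BV.L_mul_om`. -/
theorem tau_out (hg : 2 ≤ g) :
    (1 / 6 : ℚ) • (extA hg).IE (by omega) ((extA hg).xE ^ 3) - (1 / (1 - g) : ℚ) •
      ((mkBV (extA hg).sp).om *
        (mkBV (extA hg).sp).L ((1 / 6 : ℚ) • (extA hg).IE (by omega) ((extA hg).xE ^ 3))) =
      TT.mk _ (tauO_mem hg) := by
  have hg1 : 1 ≤ g := by omega
  have hg0 : (1 - g : ℚ) ≠ 0 := by
    have : (2 : ℚ) ≤ g := by exact_mod_cast hg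
    intro e
    linarith
  have hρ : ∀ b, (extS (MonoidHom.id (Aut g))).ρH b = (extA hg).ρH ((extA hg).p b) := fun _ => rfl
  obtain ⟨y, H, -⟩ := (extA hg).frob_hom hg1 (extS (MonoidHom.id (Aut g))) (q2 _) (extA hg).p
    (fun x => q2_mk _ x) hρ (fun γ => q2_inl _ γ)
  have h1 := tau_alg H hg0 (xx_eq hg1 (MonoidHom.id (Aut g)))
    ((extS (MonoidHom.id (Aut g))).IE_x_evC hg1 _ _)
  refine tau_inj (extA hg) hg1 hρ (h1.trans ?_)
  change (1 / 3 : ℚ) • (_ - (1 / (1 - g) : ℚ) • ((mkBV (extS (MonoidHom.id (Aut g))).sp).om *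
    (mkBV (extS (MonoidHom.id (Aut g))).sp).L _)) = _
  refine Eq.trans ?_ ((lhom_pull (extA hg).p hρ).map_mk (tauO_mem hg)).symm
  simp only [mkBV, TT.mk_mul, bv1_mk, TT.mk_smul, TT.mk_sub]
  refine TT.mk_congr ?_
  rw [SA.cu, cupm_cst_left _ _ (by simp [dif]), cm_id, pl_dif]
  have e : tauO g ∘ (extA hg).p = ((1 / 3 : ℚ) • prim g) ∘ (alt g ∘ sigb g ∘ MonoidHom.id (Aut g)) :=
    funext fun φ => tauO_mk hg φ
  rw [e, ← cm_dif ((1 / 3 : ℚ) • prim g)]
  funext l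
  simp only [Pi.sub_apply, Pi.smul_apply, cm_apply, prim, LinearMap.sub_apply,
    LinearMap.id_apply, LinearMap.smul_apply, LinearMap.comp_apply, LinearMap.mulLeft_apply,
    LinearMap.mul_apply']

end Pool.Agent.FP
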