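import Pool.Agent.FP.W2
import Pool.Agent.FP.Dl
import Pool.Agent.FP.Gys2

/-! The kappa classes on the tube and the tube lemma on classes. -/

namespace Pool.Agent.FP

open SemidirectProduct

variable {h : ℕ} {Q : Type} [Group Q]

theorem th_eq (r : Q →* Aut h) : th r = cupm (omL h) (dif (extS r).k) (dif (extS r).k) := by
  have hl : Len (1 + 1 + 1) (cupm (omL h) (dif (extS r).k) (dif (extS r).k)) :=
    (len_dif _).cupm (len_dif _) _
  funext l
  match l with
  | [] => exact (hl _ (by simp)).symm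
  | [_] => exact (hl _ (by simp)).symm
  | [_, _] => exact (hl _ (by simp)).symm
  | [x, y, z] =>
    rw [cupm_triple _ (len_dif _) (len_dif _)]
    rfl
  | _ :: _ :: _ :: _ :: _ => exact (hl _ (by simp)).symm

theorem th_mem (r : Q →* Aut h) : th r ∈ (saQ (Sd r)).Zev := by
  rw [th_eq]
  exact cup_om_mem (extS r).spE (extS r).k_cross

/-- The class of the intersection form. -/
def thQ (r : Q →* Aut h) : TQ (Sd r) := TT.mk _ (th_mem r)

theorem unitE_thQ (r : Q →* Aut h) : unitE (extS r).ρE (thQ r) =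
    -Gm (mkBV (extS r).spE).L (extS r).xE (extS r).xE := by
  rw [Gm_cls1, neg_neg]
  exact congrArg _ (TT.mk_congr (th_eq r))

/-- The kappa classes pulled back to `Q`. -/
noncomputable def kapQ (hh : 2 ≤ h) (r : Q →* Aut h) (m : ℕ) : TQ Q :=
  pullQ ((QuotientGroup.mk' _).comp r) ((extA hh).kbQ (by omega) m)

/-- The Euler class at the section. -/
noncomputable def eQ (hh : 2 ≤ h) (r : Q →* Aut h) : TQ Q := pullQ r ((extA hh).chiQ (by omega))

/-- The class of the diagonal. -/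
noncomputable def DQ (hh : 2 ≤ h) (r : Q →* Aut h) : TQ (Sd r) :=
  augE _ (((extS r).frob (by omega)).Dl (secS r))

theorem tubec_inj {G V : Type} [Group G] [AddCommGroup V] [Module ℚ V]
    (σ : Representation ℚ G V) {a b : TQ G} (e : unitE σ a = unitE σ b) : a = b := by
  rw [← augE_unitE σ a, e, augE_unitE]

theorem chiQ_extS (hh : 2 ≤ h) (r : Q →* Aut h) : (extS r).chiQ (by omega) = eQ hh (q2 r) :=
  ((extA hh).pull_chiQ _ (extS r) (q2 r) ((QuotientGroup.mk' _).comp r) (q2_mk r)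
    (fun _ => rfl) (q2_inl r)).symm

theorem kbQ_extS (hh : 2 ≤ h) (r : Q →* Aut h) (m : ℕ) :
    (extS r).kbQ (by omega) m = kapQ hh r m :=
  ((extA hh).pull_kbQ _ (extS r) (q2 r) ((QuotientGroup.mk' _).comp r) (q2_mk r)
    (fun _ => rfl) (q2_inl r) m).symm

theorem secS_chi (hh : 2 ≤ h) (r : Q →* Aut h) :
    secS r ((extS r).frob (by omega)).chi = unitE _ (eQ hh r) := by
  rw [← Ext.unitE_chiQ, pullE_unitE, chiQ_extS hh, eQ, pullQ_pullQ _ _ r (q2_inr r), eQ]

theorem unitE_DQ (hh : 2 ≤ h) (r : Q →* Aut h) :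
    unitE _ (DQ hh r) = ((extS r).frob (by omega)).Dl (secS r) :=
  unitE_augE_of_N (extS r).spE (isSec_secS _ r).N_Dl

theorem tubec_p (hh : 1 ≤ h) (r : Q →* Aut h) (a : TQ Q) :
    ((extS r).frob hh).p (unitE _ a) = unitE _ (pullQ rightHom a) :=
  pullE_unitE (extS r).p (fun _ => rfl) a

theorem tubec_I (hh : 1 ≤ h) (r : Q →* Aut h) (a : TQ (Sd r)) :
    ((extS r).frob hh).I (unitE _ a) = unitE _ ((extS r).IQ hh a) := (extS r).IE_unitE hh a

theorem tubec_th (hh : 1 ≤ h) (r : Q →* Aut h) :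
    Gm ((extS r).frob hh).bT.L ((extS r).frob hh).x ((extS r).frob hh).x =
      -unitE _ (thQ r) := by
  rw [unitE_thQ, neg_neg]
  rfl

/-- The formula of Morita (`IsSec.Gm_sub`). -/
theorem DQ_eq (hh : 2 ≤ h) (r : Q →* Aut h) :
    DQ hh r = (1 / 2 : ℚ) • (pullQ rightHom (eQ hh r) + eQ hh (q2 r) + thQ r) := by
  have h1 := (isSec_secS (by omega) r).Gm_sub
  have h2 : secS r ((extS r).frob (by omega)).x = 0 := secS_x r
  rw [h2, map_zero, sub_zero, tubec_th, secS_chi hh, tubec_p, ← unitE_DQ hh, ← Ext.unitE_chiQ,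
    chiQ_extS hh, ← map_neg, ← map_smul, ← map_add, ← map_sub] at h1
  have h3 := tubec_inj _ h1
  rw [← neg_neg (thQ r), h3]
  module

theorem IQ_DQ_mul (hh : 2 ≤ h) (r : Q →* Aut h) (a : TQ (Sd r)) :
    (extS r).IQ (by omega) (DQ hh r * a) = pullQ inr a := by
  refine tubec_inj (extS r).ρH ?_
  rw [← tubec_I, map_mul, unitE_DQ, (isSec_secS _ r).I_Dl_mul (N_unitE (extS r).spE a),
    pullE_unitE]

theorem DQ_mul (hh : 2 ≤ h) (r : Q →* Aut h) (a : TQ (Sd r)) :
    DQ hh r * a = DQ hh r * pullQ rightHom (pullQ inr a) := by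
  refine tubec_inj (extS r).ρE ?_
  rw [map_mul, map_mul, unitE_DQ, (isSec_secS _ r).Dl_mul (N_unitE (extS r).spE a),
    pullE_unitE, tubec_p]

theorem inr_DQ (hh : 2 ≤ h) (r : Q →* Aut h) : pullQ inr (DQ hh r) = eQ hh r := by
  refine tubec_inj (extS r).ρH ?_
  rw [← secS_chi, ← (isSec_secS _ r).s_Dl, ← unitE_DQ hh, pullE_unitE]

theorem IQ_thQ (hh : 1 ≤ h) (r : Q →* Aut h) : (extS r).IQ hh (thQ r) = (2 * h : ℚ) • 1 := by
  have h0 : (2 * h : ℚ) ≠ 0 := by
    have : (h : ℚ) ≠ 0 := Nat.cast_ne_zero.2 (by omega)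
    positivity
  have h1 : thQ r = (2 * h : ℚ) • (extS r).etaQ := by
    rw [Ext.etaQ, TT.mk_smul]
    refine TT.mk_congr ?_
    rw [Ext.eta, smul_smul, mul_one_div_cancel h0, one_smul, th_eq]
  rw [h1, map_smul, Ext.IQ_etaQ]

theorem IQ_thQ_sq (hh : 2 ≤ h) (r : Q →* Aut h) :
    (extS r).IQ (by omega) (thQ r * thQ r) = kapQ hh r 1 - (4 * h : ℚ) • eQ hh r := by
  have h1 := (isSec_secS (by omega) r).I_th_sq (secS_x r)
  rw [tubec_th, neg_mul_neg, ← map_mul, tubec_I, secS_chi hh, ← Ext.unitE_kbQ, kbQ_extS hh,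
    ← map_smul, ← map_sub] at h1
  exact tubec_inj _ h1

end Pool.Agent.FP
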