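import Pool.Agent.FP.TubeC

/-! Continuation. -/

namespace Pool.Agent.FP

open SemidirectProduct

variable {h : ℕ}

theorem tubed_om_self {g : ℕ} (u : Hq g) : om u u = 0 :=
  Finset.sum_eq_zero fun _ _ => by ring

theorem tubed_tt : tD h (tH h) = 1 := by simp [tD, tH, cv, bv]

theorem tubed_len_th {Q : Type} [Group Q] (r : Q →* Aut h) : Len 3 (th r) := fun l hl => by
  match l, hl with
  | [], _ => rfl
  | [_], _ => rfl
  | [_, _], _ => rfl
  | [_, _, _], hl => exact absurd rfl hl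
  | _ :: _ :: _ :: _ :: _, _ => rfl

namespace Tube
variable {ρ : Gam h →* Aut h} {ρ' : Gam (h + 1) →* Aut (h + 1)} (τ : Tube ρ ρ')

/-- The map from the tube to the fibre square. -/
abbrev πS : τ.S →* Sd ρ := τ.φ0.comp τ.q

/-- The map to the group with one marked point. -/
abbrev πΓ : τ.S →* Gam h := rightHom.comp τ.πS

/-- The second section. -/
def s2 : τ.S →* Sd (ρ.comp τ.πΓ) :=
  MonoidHom.mk' (fun s => ⟨(τ.πS s).left, s⟩) fun s s' => by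
    ext
    · rw [map_mul]; rfl
    · rfl

/-- The action on the homology of genus `h + 1`. -/
abbrev σS : Representation ℚ τ.S (Hq (h + 1)) := (outRep (h + 1)).comp τ.ℓ

theorem tubed_lift (s : τ.S) : ∃ (ψ : Mb (h + 1)) (x : Fr h) (m : Mb h),
    τ.σS s = autRep _ (ρ' (ψ : Gam (h + 1))) ∧ τ.πS s = inl (mkS h x) * inr (m : Gam h) ∧
      Str ψ x m := by
  obtain ⟨ψ, x, m, h1, h2, hS⟩ := τ.lift s
  refine ⟨ψ, x, m, ?_, ?_, hS⟩
  · change outRep _ (τ.ℓ s) = _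
    rw [h1, outRep_mk]
  · change τ.φ0 (τ.q s) = _
    rw [h2, map_mul, τ.φ0_iF, τ.φ0_iM]

theorem good (hρ : IsRho ρ) (hρ' : IsRho ρ') (s : τ.S) :
    Good (τ.σS s) ((extS (ρ.comp τ.πΓ)).ρH s) := by
  obtain ⟨ψ, x, m, h1, h2, hS⟩ := τ.tubed_lift s
  have e : (extS (ρ.comp τ.πΓ)).ρH s = autRep _ (ρ (m : Gam h)) := by
    change autRep _ (ρ (τ.πS s).right) = _
    rw [h2, mul_right, right_inl, right_inr, one_mul]
  rw [h1, e]
  exact hS.good hρ hρ'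

theorem ret_t (hρ : IsRho ρ) (hρ' : IsRho ρ') (s : τ.S) :
    retH h (τ.σS s (tH h) - tH h) = ab (τ.πS s).left := by
  obtain ⟨ψ, x, m, h1, h2, hS⟩ := τ.tubed_lift s
  rw [h1, h2, mul_left, left_inl, left_inr, map_one, mul_one]
  exact hS.ret_t hρ hρ'

/-- The connection form of the circle bundle. -/
def phi : List τ.S → ℚ
  | [x, y] => om (τ.σS x (tH h)) (τ.σS y (tH h))
  | _ => 0

theorem phi_mem : τ.phi ∈ Co (triv τ.S ℚ) := by
  refine ⟨rfl, fun g l => ?_⟩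
  match l with
  | [] => rfl
  | [_] => rfl
  | [x, y] =>
    change om (τ.σS (g * x) (tH h)) (τ.σS (g * y) (tH h)) = om (τ.σS x (tH h)) (τ.σS y (tH h))
    rw [map_mul, map_mul]
    exact outRep_sp (τ.ℓ g) _ _
  | _ :: _ :: _ :: _ => rfl

theorem len_phi : Len 2 τ.phi := fun l hl => by
  match l, hl with
  | [], _ => rfl
  | [_], _ => rfl
  | [_, _], hl => exact absurd rfl hl
  | _ :: _ :: _ :: _, _ => rfl

theorem dd_phi (hρ : IsRho ρ) (hρ' : IsRho ρ') : dd τ.phi = pl τ.q (pl τ.φ0 (th ρ)) := by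
  funext l
  by_cases hl : l.length = 3
  · obtain ⟨x, y, z, rfl⟩ := List.length_eq_three.1 hl
    have key : ∀ a b : τ.S, τ.phi [a, b] = om (ab (τ.πS a).left) (ab (τ.πS b).left) +
        (cD h (τ.σS a (tH h)) - cD h (τ.σS b (tH h))) := fun a b => by
      have e : ∀ s, retH h (τ.σS s (tH h)) = ab (τ.πS s).left := fun s => by
        rw [← τ.ret_t hρ hρ' s, map_sub, retH_tH, sub_zero]
      change om _ _ = _
      rw [om_succ, e, e, (τ.good hρ hρ' a).tD_eq, (τ.good hρ hρ' b).tD_eq, tubed_tt, mul_one,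
        one_mul]
    rw [dd_triple, key, key, key]
    change _ = omL h (ab (τ.πS y).left - ab (τ.πS x).left) (ab (τ.πS z).left - ab (τ.πS y).left)
    simp only [map_sub, LinearMap.sub_apply, omL_apply, tubed_om_self]
    ring
  · rw [τ.len_phi.dd l hl, (((tubed_len_th ρ).pl _).pl _) l hl]

theorem phi_ne (hρ' : IsRho ρ') : τ.phi [1, τ.T2] ≠ τ.phi [1, 1] := by
  obtain ⟨ψ, h1, h2⟩ := τ.lift_T2
  have e : τ.σS τ.T2 (tH h) = tH h + cH h := by
    change outRep _ (τ.ℓ τ.T2) _ = _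
    rw [h1, outRep_mk, ← ab_tt, ← ab_mb hρ', h2, map_mul, ab_mul, ab_cc]
  change om (τ.σS 1 (tH h)) (τ.σS τ.T2 (tH h)) ≠ om (τ.σS 1 (tH h)) (τ.σS 1 (tH h))
  rw [tubed_om_self, e, map_one, Module.End.one_apply, om_succ, retH_tH, ← omL_apply, map_zero]
  simp [cD, tD, cH, tH, cv, bv]

/-- `gysin` and `tube_mul`. -/
theorem tube_class (hh : 1 ≤ h) (hρ : IsRho ρ) (hρ' : IsRho ρ') {w x : TQ (Sd ρ)}
    (hs : pullQ inr w = 0) (hθ : w * thQ ρ = 0) (hx : pullQ τ.πS x = 0) : w * x = 0 := by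
  induction w using TT.ind with
  | h w hw =>
  induction x using TT.ind with
  | h x hx' =>
  have zw : w ∈ Zc (triv (Sd ρ) ℚ) := ((saQ _).mem_Zev.1 hw).1
  have zx : x ∈ Zc (triv (Sd ρ) ℚ) := ((saQ _).mem_Zev.1 hx').1
  have zθ : th ρ ∈ Zc (triv (Sd ρ) ℚ) := ((saQ _).mem_Zev.1 (th_mem ρ)).1
  have pz : ∀ {f : List (Sd ρ) → ℚ}, f ∈ Zc (triv (Sd ρ) ℚ) → pl τ.φ0 f ∈ Zc (triv τ.G0 ℚ) :=
    fun hf => pl_mem_Zc τ.φ0 hf
  rw [thQ, TT.mk_mul, TT.mk_eq_zero] at hθ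
  rw [pullQ, LHom.mapA_apply, LHom.map_mk, TT.mk_eq_zero, cm_id] at hs hx
  have h1 : pl τ.q (pl τ.φ0 x) ∈ Bc (triv τ.S ℚ) := by
    rw [pl_pl]
    exact hx
  obtain ⟨c, hc, e⟩ := gysin τ.q τ.q_surj τ.T2 τ.ker_q τ.phi_mem τ.len_phi (pz zθ)
    ((tubed_len_th ρ).pl τ.φ0) (τ.dd_phi hρ hρ') (τ.phi_ne hρ') (pz zx) h1
  rw [TT.mk_mul, TT.mk_eq_zero]
  exact τ.tube_mul hh zw zθ zx hc hs hθ e

end Tube

end Pool.Agent.FP
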