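import Pool.Agent.FP.Ex3
import Pool.Agent.FP.GrpDefs

/-! The subalgebra of non-negative weight in the exterior algebra of genus `h + 1`. Its elements
are `α + c β + c t γ` with `α β γ` from genus `h`. -/

namespace Pool.Agent.FP

variable {h : ℕ}

/-- The class of the vanishing cycle. -/
def cH (h : ℕ) : Hq (h + 1) := bv (Fin.last h, false)

/-- The class of the dual loop. -/
def tH (h : ℕ) : Hq (h + 1) := bv (Fin.last h, true)

/-- The coordinate of the vanishing cycle. -/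
def cD (h : ℕ) : Module.Dual ℚ (Hq (h + 1)) := cv (Fin.last h, false)

/-- The coordinate of the dual loop. -/
def tD (h : ℕ) : Module.Dual ℚ (Hq (h + 1)) := cv (Fin.last h, true)

/-- The projection killing the last handle. -/
def retH (h : ℕ) : Hq (h + 1) →ₗ[ℚ] Hq h := LinearMap.funLeft ℚ ℚ (Prod.map Fin.castSucc id)

theorem w1_cc : cD h (cH h) = 1 := by simp [cD, cH, cv, bv]

theorem w1_tt : tD h (tH h) = 1 := by simp [tD, tH, cv, bv]

theorem w1_tc : tD h (cH h) = 0 := by simp [tD, cH, cv, bv]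

theorem w1_ret_last (b : Bool) : retH h (bv (Fin.last h, b)) = 0 := by
  funext j
  simp [retH, bv, LinearMap.funLeft_apply, Prod.ext_iff]

theorem w1_ret_cast (i : Fin h) (b : Bool) : retH h (bv (i.castSucc, b)) = bv (i, b) := by
  funext j
  simp [retH, bv, LinearMap.funLeft_apply, Pi.single_apply, Prod.ext_iff]

theorem w1_tD_cast (i : Fin h) (b : Bool) : tD h (bv (i.castSucc, b)) = 0 := by
  simp [tD, cv, bv, Prod.ext_iff, (Fin.castSucc_ne_last i).symm]

theorem w1_cast_c (i : Fin h) (b : Bool) : cv (i.castSucc, b) (cH h) = 0 := by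
  simp [cH, cv, bv, Prod.ext_iff]

theorem w1_T_zeta : cL (tD h) (io (cH h) * io (tH h)) = -io (cH h) := by
  rw [cL_io_mul, cL_io, w1_tc, w1_tt, zero_smul, one_smul, mul_one, zero_sub]

theorem w1_cL_LL {g : ℕ} (f : Module.Dual ℚ (Hq g)) (w : Lm (Hq g)) :
    cL f (LL g w) = LL g (cL f w) := by
  rw [LL, Lop_apply, Lop_apply, map_sum]
  refine Finset.sum_congr rfl fun i _ => ?_
  rw [cL_comm f, cL_comm f, map_neg, neg_neg]

theorem ws_mul {a b : Lm (Hq (h + 1))} (ha : io (cH h) * cL (tD h) a = 0)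
    (hb : io (cH h) * cL (tD h) b = 0) : io (cH h) * cL (tD h) (a * b) = 0 := by
  rw [cL_mul, mul_add, ← mul_assoc, ← mul_assoc, ha, io_mul_comm (cH h) (invo a), mul_assoc, hb,
    zero_mul, mul_zero, add_zero]

/-- The subalgebra of non-negative weight. -/
def WS (h : ℕ) : Subalgebra ℚ (Lm (Hq (h + 1))) where
  carrier := {w | io (cH h) * cL (tD h) w = 0}
  mul_mem' := ws_mul
  add_mem' := fun {a b} ha hb => by
    simp only [Set.mem_ofPred_eq, map_add, mul_add] at *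
    rw [ha, hb, add_zero]
  algebraMap_mem' := fun c => by
    simp only [Set.mem_ofPred_eq, Algebra.algebraMap_eq_smul_one, map_smul, cL_one, smul_zero,
      mul_zero]

theorem mem_WS {w : Lm (Hq (h + 1))} : w ∈ WS h ↔ io (cH h) * cL (tD h) w = 0 := Iff.rfl

/-- The component `α`. -/
abbrev pr0 (h : ℕ) : Lm (Hq (h + 1)) →ₐ[ℚ] Lm (Hq h) := emap (retH h)

/-- The component `γ`. -/
def pr1 (h : ℕ) : Lm (Hq (h + 1)) →ₗ[ℚ] Lm (Hq h) :=
  -((pr0 h).toLinearMap ∘ₗ cL (cD h) ∘ₗ cL (tD h))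

/-- Linear maps that fix the vanishing cycle, preserve its orthogonal and induce `A₀`. -/
structure Good (A : Hq (h + 1) →ₗ[ℚ] Hq (h + 1)) (A₀ : Hq h →ₗ[ℚ] Hq h) : Prop where
  fix : A (cH h) = cH h
  tD_eq : ∀ v, tD h (A v) = tD h v
  ret : ∀ v, tD h v = 0 → retH h (A v) = A₀ (retH h v)

theorem w1_pr1 (w : Lm (Hq (h + 1))) : pr1 h w = -pr0 h (cL (cD h) (cL (tD h) w)) := rfl

theorem w1_pr0_io (v : Hq (h + 1)) : pr0 h (io v) = io (retH h v) :=
  ExteriorAlgebra.map_apply_ι _ _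

theorem w1_pr0_c : pr0 h (io (cH h)) = 0 := by rw [w1_pr0_io, cH, w1_ret_last, map_zero]

theorem w1_of_cL {w : Lm (Hq (h + 1))} (hw : cL (tD h) w = 0) : pr1 h w = 0 := by
  rw [w1_pr1, hw, map_zero, map_zero, neg_zero]

theorem w1_TCT (w : Lm (Hq (h + 1))) : cL (tD h) (cL (cD h) (cL (tD h) w)) = 0 := by
  rw [cL_comm, cL_cL, map_zero, neg_zero]

theorem w1_div {w : Lm (Hq (h + 1))} (hw : w ∈ WS h) :
    cL (tD h) w = io (cH h) * cL (cD h) (cL (tD h) w) := by
  have h1 := cL_io_mul (cD h) (cH h) (cL (tD h) w)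
  rw [mem_WS.1 hw, map_zero, w1_cc, one_smul] at h1
  exact sub_eq_zero.1 h1.symm

theorem w1_cL_mem {f : Module.Dual ℚ (Hq (h + 1))} (hf : f (cH h) = 0) {w : Lm (Hq (h + 1))}
    (hw : w ∈ WS h) : cL f w ∈ WS h := by
  have h1 := cL_io_mul f (cH h) (cL (tD h) w)
  rw [mem_WS.1 hw, map_zero, hf, zero_smul, zero_sub] at h1
  rw [mem_WS, cL_comm, mul_neg, ← h1]

theorem w1_T_emap {A : Hq (h + 1) →ₗ[ℚ] Hq (h + 1)} {A₀ : Hq h →ₗ[ℚ] Hq h} (hA : Good A A₀)
    (w : Lm (Hq (h + 1))) : cL (tD h) (emap A w) = emap A (cL (tD h) w) := by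
  rw [cL_emap, show tD h ∘ₗ A = tD h from LinearMap.ext hA.tD_eq]

theorem w1_emap_c {A : Hq (h + 1) →ₗ[ℚ] Hq (h + 1)} {A₀ : Hq h →ₗ[ℚ] Hq h} (hA : Good A A₀) :
    emap A (io (cH h)) = io (cH h) := by rw [ExteriorAlgebra.map_apply_ι, hA.fix]

theorem w1_key {A : Hq (h + 1) →ₗ[ℚ] Hq (h + 1)} {A₀ : Hq h →ₗ[ℚ] Hq h} (hA : Good A A₀)
    (w : Lm (Hq (h + 1))) :
    pr0 h (emap A (w - io (tH h) * cL (tD h) w)) = emap A₀ (pr0 h w) := by
  induction w using ex1_ind with
  | h1 c => simp only [map_smul, cL_one, smul_zero, mul_zero, sub_zero, map_one]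
  | h2 a b ha hb => rw [map_add, mul_add, add_sub_add_comm, map_add, map_add, ha, hb, map_add,
      map_add]
  | h3 v a ha =>
    have h1 : io v * a - io (tH h) * cL (tD h) (io v * a) =
        io (v - tD h v • tH h) * (a - io (tH h) * cL (tD h) a) := by
      have h2 : io (tH h) * io v = -(io v * io (tH h)) :=
        eq_neg_of_add_eq_zero_left (ExteriorAlgebra.ι_add_mul_swap (tH h) v)
      have h3 : io (tH h) * io (tH h) = 0 := ExteriorAlgebra.ι_sq_zero _
      rw [cL_io_mul, map_sub, map_smul]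
      simp only [mul_sub, sub_mul, smul_mul_assoc, mul_smul_comm, ← mul_assoc, h2, h3, neg_mul,
        zero_mul, smul_zero]
      abel
    have h4 : retH h (A (v - tD h v • tH h)) = A₀ (retH h v) := by
      rw [hA.ret _ (by rw [map_sub, map_smul, w1_tt, smul_eq_mul, mul_one, sub_self]), map_sub,
        map_smul, tH, w1_ret_last, smul_zero, sub_zero]
    rw [h1, map_mul, map_mul, ha, map_mul, map_mul, ExteriorAlgebra.map_apply_ι, w1_pr0_io, h4,
      w1_pr0_io, ExteriorAlgebra.map_apply_ι]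

theorem io_mem_WS {v : Hq (h + 1)} (hv : tD h v = 0) : io v ∈ WS h := by
  rw [mem_WS, cL_io, hv, zero_smul, mul_zero]

theorem zeta_mem_WS : io (cH h) * io (tH h) ∈ WS h := by
  rw [mem_WS, w1_T_zeta, mul_neg, ExteriorAlgebra.ι_sq_zero, neg_zero]

theorem omE_mem_WS : omE (h + 1) ∈ WS h := by
  refine Subalgebra.sum_mem _ fun i _ => ?_
  induction i using Fin.lastCases with
  | last => exact zeta_mem_WS
  | cast i => exact mul_mem (io_mem_WS (w1_tD_cast i _)) (io_mem_WS (w1_tD_cast i _))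

theorem invo_mem_WS {w : Lm (Hq (h + 1))} (hw : w ∈ WS h) : invo w ∈ WS h := by
  have h1 := congrArg invo (mem_WS.1 hw)
  rwa [invo_mul, invo_io, invo_cL, map_zero, neg_mul_neg] at h1

theorem LL_mem_WS {w : Lm (Hq (h + 1))} (hw : w ∈ WS h) : LL (h + 1) w ∈ WS h := by
  rw [LL, Lop_apply]
  refine Subalgebra.sum_mem _ fun i _ => ?_
  induction i using Fin.lastCases with
  | last => exact mem_WS.2 ((congrArg _ (w1_TCT w)).trans (mul_zero _))
  | cast i => exact w1_cL_mem (w1_cast_c i _) (w1_cL_mem (w1_cast_c i _) hw)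

theorem emap_mem_WS {A : Hq (h + 1) →ₗ[ℚ] Hq (h + 1)} {A₀ : Hq h →ₗ[ℚ] Hq h} (hA : Good A A₀)
    {w : Lm (Hq (h + 1))} (hw : w ∈ WS h) : emap A w ∈ WS h := by
  rw [mem_WS, w1_T_emap hA, ← w1_emap_c hA, ← map_mul, mem_WS.1 hw, map_zero]

/-- If `c * y = 0` then `y = c * cL cD y`. -/
theorem pr0_cL_tD {w : Lm (Hq (h + 1))} (hw : w ∈ WS h) : pr0 h (cL (tD h) w) = 0 := by
  rw [w1_div hw, map_mul, w1_pr0_c, zero_mul]

/-- Write `w = cL tD (t * w) + t * cL tD w`; the first term is `emap e w` for the projection `e`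
killing `t`, and the second is a multiple of `t * c`. -/
theorem pr0_emap {A : Hq (h + 1) →ₗ[ℚ] Hq (h + 1)} {A₀ : Hq h →ₗ[ℚ] Hq h} (hA : Good A A₀)
    {w : Lm (Hq (h + 1))} (hw : w ∈ WS h) : pr0 h (emap A w) = emap A₀ (pr0 h w) := by
  rw [← w1_key hA w, map_sub, map_sub, w1_div hw]
  simp only [map_mul, w1_emap_c hA, w1_pr0_c, zero_mul, mul_zero, sub_zero]

theorem pr1_emap {A : Hq (h + 1) →ₗ[ℚ] Hq (h + 1)} {A₀ : Hq h →ₗ[ℚ] Hq h} (hA : Good A A₀)
    {w : Lm (Hq (h + 1))} (hw : w ∈ WS h) : pr1 h (emap A w) = emap A₀ (pr1 h w) := by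
  have h1 : cL (cD h) (cL (tD h) w) ∈ WS h := by rw [mem_WS, w1_TCT, mul_zero]
  rw [w1_pr1, w1_pr1, map_neg, ← pr0_emap hA h1, w1_T_emap hA]
  conv_lhs => rw [w1_div hw]
  rw [map_mul, w1_emap_c hA, cL_io_mul, w1_cc, one_smul, map_sub, map_mul, w1_pr0_c, zero_mul,
    sub_zero]

theorem pr1_invo (w : Lm (Hq (h + 1))) : pr1 h (invo w) = invo (pr1 h w) := by
  rw [w1_pr1, w1_pr1, map_neg, invo_emap, invo_cL, invo_cL, map_neg (cL (cD h)), neg_neg]

theorem pr1_mul {a b : Lm (Hq (h + 1))} (ha : a ∈ WS h) (hb : b ∈ WS h) :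
    pr1 h (a * b) = pr0 h a * pr1 h b + pr1 h a * pr0 h b := by
  rw [w1_pr1, w1_pr1, w1_pr1, cL_mul, map_add, cL_mul, cL_mul, invo_invo]
  simp only [map_add, map_mul]
  rw [← invo_emap, pr0_cL_tD ha, pr0_cL_tD hb, map_zero, zero_mul, mul_zero, mul_neg, neg_mul]
  abel

theorem pr0_LL (w : Lm (Hq (h + 1))) : pr0 h (LL (h + 1) w) = LL h (pr0 h w) - pr1 h w := by
  rw [LL, LL, Lop_apply, Lop_apply, Fin.sum_univ_castSucc, map_add, map_sum, w1_pr1,
    sub_neg_eq_add]
  refine congrArg₂ _ (Finset.sum_congr rfl fun i _ => ?_) rfl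
  rw [cL_emap, cL_emap]
  rfl

theorem pr1_LL (w : Lm (Hq (h + 1))) : pr1 h (LL (h + 1) w) = LL h (pr1 h w) := by
  rw [w1_pr1, w1_cL_LL, w1_cL_LL, pr0_LL, w1_of_cL (w1_TCT w), sub_zero, w1_pr1, map_neg]

theorem pr1_one : pr1 h 1 = 0 := w1_of_cL (cL_one _)

theorem pr1_io (v : Hq (h + 1)) : pr1 h (io v) = 0 := by
  rw [w1_pr1, cL_io, map_smul, cL_one, smul_zero, map_zero, neg_zero]

theorem pr1_zeta : pr1 h (io (cH h) * io (tH h)) = 1 := by
  rw [w1_pr1, w1_T_zeta, map_neg, map_neg, neg_neg, cL_io, w1_cc, one_smul, map_one]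

theorem pr0_omE : pr0 h (omE (h + 1)) = omE h := by
  rw [omE, omE, Fin.sum_univ_castSucc, map_add, map_sum, map_mul, w1_pr0_io, w1_ret_last,
    map_zero, zero_mul, add_zero]
  refine Finset.sum_congr rfl fun i _ => ?_
  rw [map_mul, w1_pr0_io, w1_pr0_io, w1_ret_cast, w1_ret_cast]

theorem pr1_omE : pr1 h (omE (h + 1)) = 1 := by
  rw [omE, Fin.sum_univ_castSucc, map_add, map_sum, Finset.sum_eq_zero, zero_add]
  · exact pr1_zeta
  · intro i _
    refine w1_of_cL ?_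
    rw [cL_io_mul, cL_io, w1_tD_cast, w1_tD_cast, zero_smul, zero_smul, mul_zero, sub_zero]

theorem pr1_of_cL {w : Lm (Hq (h + 1))} (hw : cL (tD h) w = 0) : pr1 h w = 0 := w1_of_cL hw

theorem retH_cH : retH h (cH h) = 0 := w1_ret_last false

theorem retH_tH : retH h (tH h) = 0 := w1_ret_last true

theorem om_succ (u v : Hq (h + 1)) :
    om u v = om (retH h u) (retH h v) + (cD h u * tD h v - tD h u * cD h v) :=
  Fin.sum_univ_castSucc _

theorem retH_ab (y : Fr (h + 1)) : retH h (ab (mkS _ y)) = ab (mkS h (retF h y)) := by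
  induction y using FreeGroup.induction_on with
  | C1 => rw [map_one, map_one, map_one, ab_one, ab_one, map_zero]
  | of j =>
    obtain ⟨j, b⟩ := j
    rw [ab_of, retF, FreeGroup.lift_apply_of]
    induction j using Fin.lastCases with
    | last => rw [w1_ret_last, Fin.lastCases_last, map_one, ab_one]
    | cast i => rw [w1_ret_cast, Fin.lastCases_castSucc, ab_of]
  | inv_of j hj => rw [map_inv, map_inv, map_inv, ab_inv, ab_inv, map_neg, hj]
  | mul x y hx hy => rw [map_mul, map_mul, map_mul, ab_mul, ab_mul, map_add, hx, hy]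

theorem tD_ab {y : Fr (h + 1)} (hy : y ∈ Fc h) : tD h (ab (mkS _ y)) = 0 := by
  induction hy using Subgroup.closure_induction with
  | mem y hy =>
    rcases hy with rfl | ⟨x, rfl⟩
    · rw [cc, ab_of]
      exact w1_tc
    · induction x using FreeGroup.induction_on with
      | C1 => rw [map_one, map_one, ab_one, map_zero]
      | of j =>
        rw [incF, FreeGroup.map.of, ab_of]
        exact w1_tD_cast j.1 j.2
      | inv_of j hj => rw [map_inv, map_inv, ab_inv, map_neg, hj, neg_zero]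
      | mul x y hx hy => rw [map_mul, map_mul, ab_mul, map_add, hx, hy, add_zero]
  | one => rw [map_one, ab_one, map_zero]
  | mul x y _ _ hx hy => rw [map_mul, ab_mul, map_add, hx, hy, add_zero]
  | inv x _ hx => rw [map_inv, ab_inv, map_neg, hx, neg_zero]

theorem ab_cc : ab (mkS _ (cc h)) = cH h := ab_of _

theorem ab_tt : ab (mkS _ (tt h)) = tH h := ab_of _

variable {G : Type} [Group G] {σ : Representation ℚ G (Hq (h + 1))}
  {σ₀ : Representation ℚ G (Hq h)}

/-- The action on the subalgebra. -/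
def repW (hσ : ∀ x, Good (σ x) (σ₀ x)) : Representation ℚ G (WS h) :=
  (extRep σ).subrepresentation (WS h).toSubmodule fun x _ hw => emap_mem_WS (hσ x) hw

/-- The subalgebra as a superalgebra. -/
def saW (hσ : ∀ x, Good (σ x) (σ₀ x)) : SA G (WS h) where
  ρ := repW hσ
  ι := invo.restrict (p := (WS h).toSubmodule) (q := (WS h).toSubmodule) fun _ => invo_mem_WS
  ρ_mul := fun x a b => Subtype.ext (map_mul (emap (σ x)) a.1 b.1)
  ρ_one := fun x => Subtype.ext (map_one (emap (σ x)))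
  ι_mul := fun a b => Subtype.ext (invo_mul a.1 b.1)
  ι_one := Subtype.ext invo_one
  ι_ι := fun a => Subtype.ext (invo_invo a.1)
  ι_ρ := fun x a => Subtype.ext (invo_emap (σ x) a.1)
  comm_even := fun a b ha => Subtype.ext (comm_even a.1 b.1 (congrArg Subtype.val ha))
  comm_odd := fun a b ha hb =>
    Subtype.ext (comm_odd a.1 b.1 (congrArg Subtype.val ha) (congrArg Subtype.val hb))

theorem lhom_val (hσ : ∀ x, Good (σ x) (σ₀ x)) :
    LHom (saW hσ) (saE σ) (MonoidHom.id G) (WS h).val.toLinearMap :=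
  ⟨fun _ _ => rfl, fun _ => rfl⟩

theorem lhom_pr0 (hσ : ∀ x, Good (σ x) (σ₀ x)) :
    LHom (saW hσ) (saE σ₀) (MonoidHom.id G) ((pr0 h).comp (WS h).val).toLinearMap :=
  ⟨fun x a => pr0_emap (hσ x) a.2, fun a => (invo_emap _ a.1).symm⟩

theorem lhom_pr1 (hσ : ∀ x, Good (σ x) (σ₀ x)) :
    LHom (saW hσ) (saE σ₀) (MonoidHom.id G) (pr1 h ∘ₗ (WS h).val.toLinearMap) :=
  ⟨fun x a => pr1_emap (hσ x) a.2, fun a => pr1_invo a.1⟩

/-- The relation between a class in genus `h + 1` and a pair of classes in genus `h`. -/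
def WRel (hσ : ∀ x, Good (σ x) (σ₀ x)) (a : TE σ) (α γ : TE σ₀) : Prop :=
  ∃ w : TT (saW hσ), (lhom_val hσ).map w = a ∧ (lhom_pr0 hσ).map w = α ∧ (lhom_pr1 hσ).map w = γ

end Pool.Agent.FP
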