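import Pool.Agent.FP.W1
import Pool.Agent.FP.BV1
import Pool.Agent.FP.FrobC
import Pool.Agent.FP.Mg2

/-! The degeneration relation, and the Johnson cocycle on the tube. -/

namespace Pool.Agent.FP

variable {h : ℕ}

section Rel
variable {G B : Type} [Group G] [Group B] {σ : Representation ℚ G (Hq (h + 1))}
  {σ₀ : Representation ℚ G (Hq h)} (hσ : ∀ x, Good (σ x) (σ₀ x))

theorem w2_unit :
    LHom (saQ G) (saW hσ) (MonoidHom.id G) (Algebra.linearMap ℚ (WS h)) :=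
  ⟨fun x a => Subtype.ext ((lhom_unit σ).eqv x a), fun a => Subtype.ext ((lhom_unit σ).par a)⟩

theorem w2_mul (w w' : TT (saW hσ)) :
    (lhom_val hσ).map (w * w') = (lhom_val hσ).map w * (lhom_val hσ).map w' ∧
    (lhom_pr0 hσ).map (w * w') = (lhom_pr0 hσ).map w * (lhom_pr0 hσ).map w' ∧
    (lhom_pr1 hσ).map (w * w') = (lhom_pr0 hσ).map w * (lhom_pr1 hσ).map w' +
      (lhom_pr1 hσ).map w * (lhom_pr0 hσ).map w' := by
  refine ⟨map_mul ((lhom_val hσ).mapA (map_one (WS h).val) (map_mul (WS h).val)) w w',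
    map_mul ((lhom_pr0 hσ).mapA (map_one ((pr0 h).comp (WS h).val))
      (map_mul ((pr0 h).comp (WS h).val))) w w', ?_⟩
  induction w using TT.ind
  induction w' using TT.ind
  simp only [TT.mk_mul, bv1_mk, TT.mk_add]
  refine TT.mk_congr (funext fun l => ?_)
  simp only [cm_apply, cupm_apply, map_sum, Pi.add_apply, LinearMap.mul_apply',
    ← Finset.sum_add_distrib]
  exact Finset.sum_congr rfl fun i _ => pr1_mul (Subtype.prop _) (Subtype.prop _)

theorem w2_lhom_L (hs : ∀ x, Sp (σ x)) : LHom (saW hσ) (saW hσ) (MonoidHom.id G)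
    ((LL (h + 1)).restrict (p := (WS h).toSubmodule) (q := (WS h).toSubmodule)
      fun _ => LL_mem_WS) :=
  ⟨fun x a => Subtype.ext (LL_emap (hs x) a.1), fun a => Subtype.ext (invo_LL a.1).symm⟩

theorem w2_L (hs : ∀ x, Sp (σ x)) (h₀ : ∀ x, Sp (σ₀ x)) (w : TT (saW hσ)) :
    (lhom_val hσ).map ((w2_lhom_L hσ hs).map w) = (mkBV hs).L ((lhom_val hσ).map w) ∧
    (lhom_pr0 hσ).map ((w2_lhom_L hσ hs).map w) =
      (mkBV h₀).L ((lhom_pr0 hσ).map w) - (lhom_pr1 hσ).map w ∧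
    (lhom_pr1 hσ).map ((w2_lhom_L hσ hs).map w) = (mkBV h₀).L ((lhom_pr1 hσ).map w) := by
  induction w using TT.ind
  simp only [mkBV, bv1_mk, TT.mk_sub]
  exact ⟨TT.mk_congr rfl, TT.mk_congr (funext fun l => pr0_LL _),
    TT.mk_congr (funext fun l => pr1_LL _)⟩

theorem w2_om (hs : ∀ x, Sp (σ x)) :
    (cst ⟨omE (h + 1), omE_mem_WS⟩ : List G → WS h) ∈ (saW hσ).Zev := by
  refine (saW hσ).cst_mem (fun x => Subtype.ext
    (emap_omE (ψ := σ x⁻¹) (fun v => ?_) (hs x))) (Subtype.ext invo_omE)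
  rw [← Module.End.mul_apply, ← map_mul, mul_inv_cancel, map_one, Module.End.one_apply]

theorem WRel.aug {a : TE σ} {α γ : TE σ₀} (H : WRel hσ a α γ) : augE σ a = augE σ₀ α := by
  obtain ⟨w, rfl, rfl, -⟩ := H
  induction w using TT.ind
  simp only [augE, LHom.mapA_apply, bv1_mk]
  exact TT.mk_congr (funext fun l => (aug_emap (retH h) _).symm)

theorem wrel_unit (c : TQ G) : WRel hσ (unitE σ c) (unitE σ₀ c) 0 := by
  refine ⟨(w2_unit hσ).map c, ?_, ?_, ?_⟩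
  · induction c using TT.ind
    simp only [unitE, LHom.mapA_apply, bv1_mk]
    exact TT.mk_congr rfl
  · induction c using TT.ind
    simp only [unitE, LHom.mapA_apply, bv1_mk]
    exact TT.mk_congr (funext fun l => (pr0 h).commutes _)
  · induction c using TT.ind with
    | h f hf =>
      simp only [bv1_mk]
      refine TT.mk_congr (hh := zero_mem _) (funext fun l => ?_)
      change pr1 h (algebraMap ℚ _ (f l)) = 0
      rw [Algebra.algebraMap_eq_smul_one, map_smul, pr1_one, smul_zero]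

theorem degRel {σB : Representation ℚ B (Hq (h + 1))} (hB : ∀ b, Sp (σB b))
    (hs : ∀ x, Sp (σ x)) (h₀ : ∀ x, Sp (σ₀ x)) (ℓ : G →* B) (hℓ : ∀ x, σ x = σB (ℓ x)) :
    DegRel (mkBV hB) (mkBV h₀) fun a α γ => WRel hσ (pullE ℓ hℓ a) α γ := by
  have H := mkBV_hom hB hs ℓ hℓ
  refine ⟨?_, ?_, ?_, ?_, ?_, ?_, ?_⟩
  · rintro a a' α α' γ γ' ⟨w, e1, rfl, rfl⟩ ⟨w', e1', rfl, rfl⟩
    exact ⟨w + w', by rw [map_add, map_add, e1, e1'], map_add _ _ _, map_add _ _ _⟩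
  · rintro c a α γ ⟨w, e1, rfl, rfl⟩
    exact ⟨c • w, by rw [map_smul, map_smul, e1], map_smul _ _ _, map_smul _ _ _⟩
  · rintro a a' α α' γ γ' ⟨w, e1, rfl, rfl⟩ ⟨w', e1', rfl, rfl⟩
    obtain ⟨m1, m2, m3⟩ := w2_mul hσ w w'
    exact ⟨w * w', by rw [m1, map_mul, e1, e1'], m2, m3⟩
  · rintro a α γ ⟨w, e1, rfl, rfl⟩
    obtain ⟨m1, m2, m3⟩ := w2_L hσ hs h₀ w
    exact ⟨(w2_lhom_L hσ hs).map w, by rw [m1, e1, H.map_L], m2, m3⟩
  · have := wrel_unit hσ 1
    rwa [map_one, map_one, ← map_one (pullE ℓ hℓ)] at this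
  · rw [H.map_om]
    refine ⟨TT.mk _ (w2_om hσ hs), ?_, ?_, ?_⟩
    · rw [bv1_mk]
      exact TT.mk_congr (cm_cst _ _)
    · rw [bv1_mk]
      exact TT.mk_congr ((cm_cst _ _).trans (congrArg cst pr0_omE))
    · rw [bv1_mk, TT.one_def]
      exact TT.mk_congr ((cm_cst _ _).trans (congrArg cst pr1_omE))
  · intro a α γ hR ha hα
    have e := hR.aug
    have h1 : (mkBV hs).N (pullE ℓ hℓ a) = 0 := by rw [← H.map_N, ha, map_zero]
    have h2 := wrel_unit hσ (augE σ₀ α)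
    rwa [unitE_augE_of_N h₀ hα, ← e, unitE_augE_of_N hs h1] at h2

/-- Crossed homomorphisms with odd values in the subalgebra. -/
theorem wrel_dif {w : G → Lm (Hq (h + 1))} (hw : ∀ x, w x ∈ WS h) (hc : Cross (extRep σ) w)
    (ho : ∀ x, invo (w x) = -w x) (m : dif w ∈ (saE σ).Zev)
    (m0 : dif (pr0 h ∘ w) ∈ (saE σ₀).Zev) (m1 : dif (pr1 h ∘ w) ∈ (saE σ₀).Zev) :
    WRel hσ (TT.mk _ m) (TT.mk _ m0) (TT.mk _ m1) := by
  have hm : dif (fun x => (⟨w x, hw x⟩ : WS h)) ∈ (saW hσ).Zev :=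
    (saW hσ).dif_mem (fun x y => Subtype.ext (hc x y)) fun x => Subtype.ext (ho x)
  refine ⟨TT.mk _ hm, ?_, ?_, ?_⟩ <;> rw [bv1_mk] <;> exact TT.mk_congr (cm_dif _ _)

include hσ in
theorem cross_pr0 {w : G → Lm (Hq (h + 1))} (hw : ∀ x, w x ∈ WS h) (hc : Cross (extRep σ) w) :
    Cross (extRep σ₀) (pr0 h ∘ w) := fun x y => by
  rw [Function.comp_apply, hc x y, map_add, extRep_apply, pr0_emap (hσ x) (hw y)]
  rfl

include hσ in
theorem cross_pr1 {w : G → Lm (Hq (h + 1))} (hw : ∀ x, w x ∈ WS h) (hc : Cross (extRep σ) w) :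
    Cross (extRep σ₀) (pr1 h ∘ w) := fun x y => by
  rw [Function.comp_apply, hc x y, map_add, extRep_apply, pr1_emap (hσ x) (hw y)]
  rfl

end Rel

theorem w2_inc_of (j : Fin h × Bool) :
    incF h (FreeGroup.of j) = FreeGroup.of (j.1.castSucc, j.2) := FreeGroup.map.of

theorem w2_retF_inc (y : Fr h) : retF h (incF h y) = y := by
  have e : (retF h).comp (incF h) = MonoidHom.id _ := by
    ext j
    simp [retF, w2_inc_of]
  exact DFunLike.congr_fun e y

theorem w2_retF_cc : retF h (cc h) = 1 := by simp [retF, cc]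

theorem w2_cc_mem : cc h ∈ Fc h := Subgroup.subset_closure (Set.mem_insert _ _)

theorem w2_inc_mem (y : Fr h) : incF h y ∈ Fc h :=
  Subgroup.subset_closure (Set.mem_insert_of_mem _ ⟨y, rfl⟩)

theorem w2_tD_c : tD h (cH h) = 0 := by rw [← ab_cc, tD_ab w2_cc_mem]

theorem w2_tD_t : tD h (tH h) = 1 := by simp [tD, tH, cv, bv]

/-- The property proved by induction on words. -/
def w2_Q (y : Fr (h + 1)) : Prop := tD h (ab (mkS _ y)) = 0 ∧
  cL (tD h) (th2 (h + 1) y) = 0 ∧ pr0 h (th2 (h + 1) y) = th2 h (retF h y)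

theorem w2_Q_mul {a b : Fr (h + 1)} (ha : w2_Q a) (hb : w2_Q b) : w2_Q (a * b) := by
  refine ⟨by rw [map_mul, ab_mul, map_add, ha.1, hb.1, add_zero], ?_, ?_⟩
  · rw [th2_mul, map_add, map_add, map_smul, cL_io_mul, cL_io, ha.1, hb.1, ha.2.1, hb.2.1]
    simp only [zero_smul, mul_zero, sub_zero, smul_zero, add_zero]
  · rw [th2_mul, map_add, map_add, map_smul, map_mul, ha.2.2, hb.2.2, map_mul, th2_mul,
      ExteriorAlgebra.map_apply_ι, ExteriorAlgebra.map_apply_ι, retH_ab, retH_ab]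

theorem w2_ext {W : Type} [AddCommGroup W] [Module ℚ W] {f f' : Hq (h + 1) →ₗ[ℚ] W}
    (h1 : ∀ y, f (ab (mkS _ (incF h y))) = f' (ab (mkS _ (incF h y))))
    (h2 : f (cH h) = f' (cH h)) (h3 : f (tH h) = f' (tH h)) : f = f' := by
  refine (Pi.basisFun ℚ _).ext fun ⟨i, b⟩ => ?_
  rw [Pi.basisFun_apply]
  induction i using Fin.lastCases with
  | last =>
    cases b
    · exact h2
    · exact h3
  | cast i =>
    have h4 := h1 (FreeGroup.of (i, b))
    rwa [w2_inc_of, ab_of] at h4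

theorem w2_A_c {ρ' : Gam (h + 1) →* Aut (h + 1)} (hρ' : IsRho ρ') {ψ : Mb (h + 1)}
    {u : Fr (h + 1)} (hc : ψ.1 (cc h) = u⁻¹ * cc h * u) :
    autRep _ (ρ' (ψ : Gam (h + 1))) (cH h) = cH h := by
  rw [← ab_cc, ← ab_mb hρ', hc, map_mul, map_mul, map_inv, ab_mul, ab_mul, ab_inv]
  abel

theorem w2_A_t {ρ' : Gam (h + 1) →* Aut (h + 1)} (hρ' : IsRho ρ') {ψ : Mb (h + 1)}
    {u : Fr (h + 1)} (ht : ψ.1 (tt h) = tt h * u) :
    autRep _ (ρ' (ψ : Gam (h + 1))) (tH h) = tH h + ab (mkS _ u) := by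
  rw [← ab_tt, ← ab_mb hρ', ht, map_mul, ab_mul]

theorem w2_last {V : Type} [AddCommGroup V] [Module ℚ V] (c t u : V) (w : Lm V) :
    io c * (w + (1 / 2 : ℚ) • (io t * io u)) - io (t + u) * (io c * io u) =
      io c * w + (3 / 2 : ℚ) • (io c * io t * io u) := by
  have h1 : io t * (io c * io u) = -(io c * io t * io u) := by
    rw [← mul_assoc, eq_neg_of_add_eq_zero_left (ExteriorAlgebra.ι_add_mul_swap t c), neg_mul]
  have h2 : io u * (io c * io u) = 0 := by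
    rw [← mul_assoc, eq_neg_of_add_eq_zero_left (ExteriorAlgebra.ι_add_mul_swap u c), neg_mul,
      mul_assoc, ExteriorAlgebra.ι_sq_zero, mul_zero, neg_zero]
  rw [map_add, add_mul, h1, h2, mul_add, mul_smul_comm, ← mul_assoc]
  module

theorem th2_Fc {y : Fr (h + 1)} (hy : y ∈ Fc h) :
    cL (tD h) (th2 (h + 1) y) = 0 ∧ pr0 h (th2 (h + 1) y) = th2 h (retF h y) := by
  have hinv : ∀ {y : Fr (h + 1)}, w2_Q y → w2_Q y⁻¹ := fun {y} hy =>
    ⟨by rw [map_inv, ab_inv, map_neg, hy.1, neg_zero], by rw [th2_inv, map_neg, hy.2.1, neg_zero],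
      by rw [th2_inv, map_neg, hy.2.2, map_inv, th2_inv]⟩
  have hone : w2_Q (1 : Fr (h + 1)) :=
    ⟨tD_ab (one_mem _), by rw [th2_one, map_zero], by rw [th2_one, map_zero, map_one, th2_one]⟩
  suffices H : w2_Q y from H.2
  induction hy using Subgroup.closure_induction with
  | mem y hy =>
    rcases hy with rfl | ⟨z, rfl⟩
    · exact ⟨tD_ab w2_cc_mem, by rw [cc, th2_of, map_zero], by
        rw [w2_retF_cc, cc, th2_of, map_zero, th2_one]⟩
    · induction z using FreeGroup.induction_on with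
      | C1 => rw [map_one]; exact hone
      | of j => exact ⟨tD_ab (w2_inc_mem _), by rw [w2_inc_of, th2_of, map_zero], by
          rw [w2_retF_inc, w2_inc_of, th2_of, map_zero, th2_of]⟩
      | inv_of j ih => rw [map_inv]; exact hinv ih
      | mul a b ha hb => rw [map_mul]; exact w2_Q_mul ha hb
  | one => exact hone
  | mul a b _ _ ha hb => exact w2_Q_mul ha hb
  | inv a _ ha => exact hinv ha

section Str
variable {ρ : Gam h →* Aut h} {ρ' : Gam (h + 1) →* Aut (h + 1)} (hρ : IsRho ρ) (hρ' : IsRho ρ')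
  {ψ : Mb (h + 1)} {x : Fr h} {m : Mb h} (hS : Str ψ x m)
include hρ hρ' hS

theorem Str.good : Good (autRep _ (ρ' (ψ : Gam (h + 1)))) (autRep _ (ρ (m : Gam h))) := by
  obtain ⟨u, hu, -, ht, hc, hy⟩ := hS
  have h1 := w2_A_c hρ' hc
  have h2 := w2_A_t hρ' ht
  refine ⟨h1, fun v => ?_, fun v hv => ?_⟩
  · refine LinearMap.congr_fun (w2_ext (f := tD h ∘ₗ autRep _ (ρ' (ψ : Gam (h + 1))))
      (f' := tD h) (fun y => ?_) ?_ ?_) v
    · rw [LinearMap.comp_apply, ← ab_mb hρ', tD_ab (hy y).1, tD_ab (w2_inc_mem y)]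
    · rw [LinearMap.comp_apply, h1]
    · rw [LinearMap.comp_apply, h2, map_add, tD_ab hu, add_zero]
  · have key : retH h ∘ₗ autRep _ (ρ' (ψ : Gam (h + 1))) =
        autRep _ (ρ (m : Gam h)) ∘ₗ retH h + (tD h).smulRight (retH h (ab (mkS _ u))) := by
      refine w2_ext (fun y => ?_) ?_ ?_ <;>
        rw [LinearMap.add_apply, LinearMap.comp_apply, LinearMap.comp_apply,
          LinearMap.smulRight_apply]
      · rw [← ab_mb hρ', retH_ab, (hy y).2, retH_ab, w2_retF_inc, ← ab_mb hρ,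
          tD_ab (w2_inc_mem y), zero_smul, add_zero]
      · rw [h1, retH_cH, map_zero, w2_tD_c, zero_smul, add_zero]
      · rw [h2, map_add, retH_tH, map_zero, w2_tD_t, one_smul]
    have h3 := LinearMap.congr_fun key v
    rwa [LinearMap.add_apply, LinearMap.smulRight_apply, hv, zero_smul, add_zero] at h3

theorem Str.ret_t :
    retH h (autRep _ (ρ' (ψ : Gam (h + 1))) (tH h) - tH h) = ab (mkS h x) := by
  obtain ⟨u, -, hx, ht, -, -⟩ := hS
  rw [w2_A_t hρ' ht, add_sub_cancel_left, retH_ab, hx]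

/-- By `alt_sigG` and `Fin.sum_univ_castSucc`; the last handle contributes
`c * th2 u + (3 / 2) c t ū`. -/
theorem Str.alt_sigG : alt _ (sigG ρ' (ψ : Gam (h + 1))) ∈ WS h ∧
    pr0 h (alt _ (sigG ρ' (ψ : Gam (h + 1)))) = alt _ (sigG ρ (m : Gam h)) ∧
    pr1 h (alt _ (sigG ρ' (ψ : Gam (h + 1)))) = (3 / 2 : ℚ) • io (ab (mkS h x)) := by
  obtain ⟨u, hu, hx, ht, hc, hy⟩ := hS
  have e1 : ab (mkS _ (ψ.1 (cc h))) = cH h := (ab_mb hρ' _ _).trans (by
    rw [ab_cc, w2_A_c hρ' hc])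
  have e2 : ab (mkS _ (ψ.1 (tt h))) = tH h + ab (mkS _ u) := (ab_mb hρ' _ _).trans (by
    rw [ab_tt, w2_A_t hρ' ht])
  have e3 : th2 _ (ψ.1 (cc h)) = io (cH h) * io (ab (mkS _ u)) := by
    rw [hc, th2_conj, ab_cc, cc, th2_of, zero_add]
  have e4 : th2 _ (ψ.1 (tt h)) = th2 _ u + (1 / 2 : ℚ) • (io (tH h) * io (ab (mkS _ u))) := by
    rw [ht, th2_mul, ab_tt, tt, th2_of, zero_add]
  have e5 : alt _ (sigG ρ' (ψ : Gam (h + 1))) =
      ((∑ i : Fin h, (io (ab (mkS _ (ψ.1 (incF h (FreeGroup.of (i, false)))))) *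
          th2 _ (ψ.1 (incF h (FreeGroup.of (i, true)))) -
        io (ab (mkS _ (ψ.1 (incF h (FreeGroup.of (i, true)))))) *
          th2 _ (ψ.1 (incF h (FreeGroup.of (i, false)))))) + io (cH h) * th2 _ u) +
        (3 / 2 : ℚ) • (io (cH h) * io (tH h) * io (ab (mkS _ u))) := by
    rw [FP.alt_sigG hρ', Fin.sum_univ_castSucc, add_assoc]
    congr 1
    rw [← cc, ← tt, e1, e2, e3, e4]
    exact w2_last _ _ _ _
  have hz : ∀ {a b : Fr (h + 1)}, a ∈ Fc h → b ∈ Fc h →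
      cL (tD h) (io (ab (mkS _ a)) * th2 _ b) = 0 := fun ha hb => by
    rw [cL_io_mul, tD_ab ha, (th2_Fc hb).1, zero_smul, mul_zero, sub_zero]
  have h0 : cL (tD h) ((∑ i : Fin h, (io (ab (mkS _ (ψ.1 (incF h (FreeGroup.of (i, false)))))) *
          th2 _ (ψ.1 (incF h (FreeGroup.of (i, true)))) -
        io (ab (mkS _ (ψ.1 (incF h (FreeGroup.of (i, true)))))) *
          th2 _ (ψ.1 (incF h (FreeGroup.of (i, false)))))) + io (cH h) * th2 _ u) = 0 := by
    rw [map_add, map_sum, ← ab_cc, hz w2_cc_mem hu, add_zero]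
    exact Finset.sum_eq_zero fun i _ => by
      rw [map_sub, hz (hy _).1 (hy _).1, hz (hy _).1 (hy _).1, sub_zero]
  have hū := io_mem_WS (tD_ab hu)
  have hc0 : pr0 h (io (cH h)) = 0 := by rw [ExteriorAlgebra.map_apply_ι, retH_cH, map_zero]
  rw [e5]
  refine ⟨add_mem (mem_WS.2 (by rw [h0, mul_zero]))
    (Subalgebra.smul_mem _ (mul_mem zeta_mem_WS hū) _), ?_, ?_⟩
  · rw [FP.alt_sigG hρ]
    simp only [map_add, map_smul, map_mul, hc0, zero_mul, smul_zero, add_zero, map_sum, map_sub,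
      ExteriorAlgebra.map_apply_ι, retH_ab, (hy _).2, (th2_Fc (hy _).1).2]
  · rw [map_add, pr1_of_cL h0, zero_add, map_smul, pr1_mul zeta_mem_WS hū, pr1_io, mul_zero,
      zero_add, pr1_zeta, one_mul, ExteriorAlgebra.map_apply_ι, retH_ab, hx]

/-- The primitive cocycle: `tauA = w - v * omE` with `w = alt (sigG) / 3`,
`v = LL w / (1 - (h + 1))` a vector orthogonal to the vanishing cycle. -/
theorem Str.tauA (hh : 1 ≤ h) : tauA _ (ρ' (ψ : Gam (h + 1))) ∈ WS h ∧ ∃ y : Hq h,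
    pr0 h (tauA _ (ρ' (ψ : Gam (h + 1)))) =
      (1 / 3 : ℚ) • alt _ (sigG ρ (m : Gam h)) - io y * omE h ∧
    pr1 h (tauA _ (ρ' (ψ : Gam (h + 1)))) = (1 / 2 : ℚ) • io (ab (mkS h x)) - io y := by
  obtain ⟨h1, h2, h3⟩ := Str.alt_sigG hρ hρ' hS
  have e : FP.tauA _ (ρ' (ψ : Gam (h + 1))) =
      (1 / 3 : ℚ) • prim _ (alt _ (sigG ρ' (ψ : Gam (h + 1)))) := by
    rw [FP.tauA, ← prj_sigG hρ' (by omega), prim_alt_prj (by omega) (NN_sigG _ _)]
  have hN := NN_alt (NN_sigG ρ' (ψ : Gam (h + 1)))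
  rw [e]
  generalize alt _ (sigG ρ' (ψ : Gam (h + 1))) = W at h1 h2 h3 hN
  have hL : NN _ (LL _ W) = LL _ W := by
    have h4 : LL _ (NN _ W) = NN _ (LL _ W) + (2 : ℚ) • LL _ W := Lop_NN _ _ W
    rw [hN, map_smul] at h4
    rw [eq_sub_of_add_eq h4.symm]
    module
  have hv := io_ιInv hL
  have hm := LL_mem_WS h1
  have e2 : prim _ W = W - (1 / (1 - ((h + 1 : ℕ) : ℚ)) : ℚ) • (omE _ * LL _ W) := rfl
  have e3 : pr0 h (LL _ W) = io (retH h (ExteriorAlgebra.ιInv (LL _ W))) := by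
    conv_lhs => rw [← hv, ExteriorAlgebra.map_apply_ι]
  have e4 : pr1 h (LL _ W) = 0 := by rw [← hv, pr1_io]
  rw [e2]
  refine ⟨Subalgebra.smul_mem _ (sub_mem h1 (Subalgebra.smul_mem _ (mul_mem omE_mem_WS hm) _)) _,
    ((1 / 3 : ℚ) * (1 / (1 - ((h + 1 : ℕ) : ℚ)))) • retH h (ExteriorAlgebra.ιInv (LL _ W)),
    ?_, ?_⟩
  · rw [map_smul, map_sub, map_smul, map_mul, pr0_omE, e3, h2, comm_even _ _ invo_omE, map_smul,
      smul_mul_assoc, smul_sub, smul_smul]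
  · rw [map_smul, map_sub, map_smul, pr1_mul omE_mem_WS hm, e4, pr1_omE, e3, h3, map_smul,
      mul_zero, zero_add, one_mul]
    module

end Str

end Pool.Agent.FP
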