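import Pool.Agent.FP.ZProg

/-! Meaning of the enumeration of the terms of a relation. -/

namespace Pool.Agent.FP.Z

open Fn Finset Polynomial

/-- Sum over the leaves, with values in a module. -/
noncomputable def Tm.ev {M : Type} [AddCommMonoid M] (f : ℕ → ℕ → ℕ → M) : Tm → M
  | .nil => 0
  | .leaf c n m => f c n m
  | .node l r => l.ev f + r.ev f

/-- A property of all leaves. -/
def Tm.P (p : ℕ → ℕ → ℕ → Prop) : Tm → Prop
  | .nil => True
  | .leaf c n m => p c n m
  | .node l r => l.P p ∧ r.P p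

theorem Tm.ev_mk {M : Type} [AddCommMonoid M] (f : ℕ → ℕ → ℕ → M) (l r : Tm) :
    (Tm.mk l r).ev f = l.ev f + r.ev f := by
  cases l <;> cases r <;> simp [Tm.mk, Tm.ev]

theorem Tm.P_mk {p : ℕ → ℕ → ℕ → Prop} {l r : Tm} (h1 : l.P p) (h2 : r.P p) :
    (Tm.mk l r).P p := by
  cases l <;> cases r <;> simp_all [Tm.mk, Tm.P]

theorem Tm.sum_eq (f : ℕ → ℕ → ℕ → ℕ) (t : Tm) : t.sum f = t.ev f := by
  induction t with
  | nil => rfl
  | leaf => rfl
  | node l r h1 h2 => rw [Tm.ev, ← h1, ← h2]; rfl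

theorem Tm.all_P {f : ℕ → Bool} {t : Tm} (h : t.all f = true) : t.P fun c _ _ => f c = true := by
  induction t with
  | nil => trivial
  | leaf => exact h
  | node l r h1 h2 =>
    have : (l.all f && r.all f) = true := h
    rw [Bool.and_eq_true] at this
    exact ⟨h1 this.1, h2 this.2⟩

theorem Tm.map_ev {M M' : Type} [AddCommMonoid M] [AddCommMonoid M'] (φ : M →+ M')
    (f : ℕ → ℕ → ℕ → M) (t : Tm) : φ (t.ev f) = t.ev fun c n m => φ (f c n m) := by
  induction t with
  | nil => simp [Tm.ev]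
  | leaf => rfl
  | node l r h1 h2 => simp [Tm.ev, h1, h2]

theorem Tm.ev_congr {M : Type} [AddCommMonoid M] {f f' : ℕ → ℕ → ℕ → M}
    {p : ℕ → ℕ → ℕ → Prop} {t : Tm} (h : t.P p) (hf : ∀ c n m, p c n m → f c n m = f' c n m) :
    t.ev f = t.ev f' := by
  induction t with
  | nil => rfl
  | leaf => exact hf _ _ _ h
  | node l r h1 h2 => simp [Tm.ev, h1 h.1, h2 h.2]

theorem dfs_zero (b q q1 e0 f c r code par p : ℕ) : dfs b q q1 e0 0 f c r code par p =
    if r = 0 ∧ par = b then lf b code (p * e0 % q1 / q) else .nil := by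
  have : dfs b q q1 e0 0 f c r code par p = cond (and (Nat.beq r 0) (Nat.beq par b))
    (lf b code (p * e0 % q1 / q)) .nil := rfl
  rw [this, Bool.cond_eq_ite]
  simp

theorem dfs_succ0 (b q q1 e0 M c r code par p : ℕ) :
    dfs b q q1 e0 (M + 1) 0 c r code par p = dfs b q q1 e0 M r 0 r code par p := rfl

theorem dfs_succ (b q q1 e0 M f c r code par p : ℕ) :
    dfs b q q1 e0 (M + 1) (f + 1) c r code par p = Tm.mk (dfs b q q1 e0 M r 0 r code par p)
      (if M + 1 ≤ r then dfs b q q1 e0 (M + 1) f (c + 1) (r - (M + 1)) (code * pr (M + 1))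
        (1 - par) (del / (c + 1) * gp (M + 1) * p % q1) else .nil) := by
  have : dfs b q q1 e0 (M + 1) (f + 1) c r code par p = Tm.mk (dfs b q q1 e0 M r 0 r code par p)
      (cond (Nat.ble (M + 1) r) (dfs b q q1 e0 (M + 1) f (c + 1) (r - (M + 1)) (code * pr (M + 1))
        (1 - par) (del / (c + 1) * gp (M + 1) * p % q1)) .nil) := rfl
  rw [this, Bool.cond_eq_ite]
  simp

theorem dfs_res (b q q1 e0 M : ℕ) (hb : b ≤ 1) : ∀ f c r code par p,
    (dfs b q q1 e0 M f c r code par p).P
      fun _ n m => m ≤ 47 ∧ (47 : ℤ) ∣ m - (-1) ^ b * n := by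
  induction M with
  | zero =>
    intro f c r code par p
    rw [dfs_zero]
    split_ifs
    · generalize p * e0 % q1 / q = n
      interval_cases b
      · change n % 47 ≤ 47 ∧ (47 : ℤ) ∣ (n % 47 : ℕ) - (-1) ^ 0 * n
        omega
      · change 47 - n % 47 ≤ 47 ∧ (47 : ℤ) ∣ (47 - n % 47 : ℕ) - (-1) ^ 1 * n
        omega
    · trivial
  | succ M ih =>
    intro f
    induction f with
    | zero => intro c r code par p; exact ih _ _ _ _ _ _
    | succ f ih' =>
      intro c r code par p
      rw [dfs_succ]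
      refine Tm.P_mk (ih _ _ _ _ _ _) ?_
      split_ifs
      · exact ih' _ _ _ _ _
      · trivial

theorem digit {B : ℕ} (s : ℕ) : ∀ q : ℕ[X], q.eval 1 < B →
    q.eval B % B ^ (s + 1) / B ^ s = q.coeff s := by
  have key : ∀ (q : ℕ[X]) (x : ℕ), q.eval x = x * q.divX.eval x + q.coeff 0 := fun q x => by
    conv_lhs => rw [← X_mul_divX_add q]
    simp
  induction s with
  | zero =>
    intro q h
    rw [key] at h
    rw [key]
    simp [Nat.mod_eq_of_lt (show q.coeff 0 < B by omega)]
  | succ s ih =>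
    intro q h
    rw [key] at h
    have h0 : 0 < B := by omega
    rw [pow_succ' B s, ← Nat.div_div_eq_div_mul, pow_succ' B (s + 1), Nat.mod_mul_right_div_self,
      key, Nat.mul_add_div h0, Nat.div_eq_of_lt (show q.coeff 0 < B by omega), add_zero,
      ih _ (by omega), coeff_divX]

/-- A polynomial with twelve coefficients. -/
noncomputable def pol (f : ℕ → ℕ) : ℕ[X] := ∑ n ∈ range 12, monomial n (f n)

theorem pk_eq (f : ℕ → ℕ) (x : ℕ) : pk f x = (pol f).eval x := by
  have : ∀ n : ℕ, (Nat.rec 0 (fun n a => Nat.add a (Nat.mul (f n) (Nat.pow x n))) n : ℕ) =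
      ∑ i ∈ range n, f i * x ^ i := fun n => by
    induction n with
    | zero => rfl
    | succ n ih => rw [sum_range_succ, ← ih]; rfl
  rw [pol, eval_finsetSum, pk, this]
  simp only [eval_monomial]

theorem gs_le : ∀ m < 24, 1 ≤ m → del * pk (gm m) 1 ≤ (2 ^ 69) ^ m := by decide +kernel

theorem del_dvd : ∀ c < 23, (c + 1) ∣ del := by decide +kernel

theorem pr_spec : ∀ m < 25, 1 ≤ m → (pr m).Prime ∧ ((List.range 25).map pr).idxOf (pr m) = m := by
  decide +kernel

variable {O : Type} [CommRing O] [Algebra ℚ O]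

/-- The monomial with a given code. -/
noncomputable def mon (κ : ℕ → O) (c : ℕ) : O :=
  if c = 0 then 0 else c.factorization.prod fun p k => κ (((List.range 25).map pr).idxOf p) ^ k

omit [Algebra ℚ O] in
theorem mon_mul (κ : ℕ → O) (c c' : ℕ) : mon κ (c * c') = mon κ c * mon κ c' := by
  by_cases h : c = 0
  · simp [mon, h]
  by_cases h' : c' = 0
  · simp [mon, h']
  simp only [mon, h, h', mul_eq_zero, or_self, if_false]
  rw [Nat.factorization_mul h h', Finsupp.prod_add_index' (by simp) (by simp [pow_add])]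

omit [Algebra ℚ O] in
theorem mon_one (κ : ℕ → O) : mon κ 1 = 1 := by simp [mon]

omit [Algebra ℚ O] in
theorem mon_pr (κ : ℕ → O) {m : ℕ} (h1 : 1 ≤ m) (h2 : m < 25) : mon κ (pr m) = κ m := by
  obtain ⟨h3, h4⟩ := pr_spec m h2 h1
  rw [mon, if_neg h3.ne_zero, h3.factorization, Finsupp.prod_single_index (by simp), h4, pow_one]

omit [Algebra ℚ O] in
theorem mon_code (κ : ℕ → O) (l : List ℕ) (h : ∀ i ∈ l, 1 ≤ i ∧ i < 25) :
    mon κ (code l) = (l.map κ).prod := by
  induction l with
  | nil => simp [code, mon_one]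
  | cons a l ih =>
    have := h a (by simp)
    rw [List.map_cons, List.prod_cons, ← ih fun i hi => h i (by simp [hi]),
      ← mon_pr κ this.1 this.2, ← mon_mul]
    simp [code]

theorem pol_gm {m : ℕ} (h1 : 1 ≤ m) (h2 : m ≤ 23) : (gamP AT del 12 m).map (algebraMap ℚ O) =
    (del : O[X]) * (pol (gm m)).map (Nat.castRingHom O) := by
  simp only [gamP, pol, Polynomial.map_sum, mul_sum, Polynomial.map_monomial]
  refine sum_congr rfl fun n hn => ?_
  rw [gamTab m n h1 h2 (mem_range.1 hn), ← map_natCast C, C_mul_monomial]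
  simp

theorem pol_ec {g : ℕ} (hg : 1 ≤ g) : (pol (ec g)).map (Nat.castRingHom O) =
    (39916800 : O[X]) * (expP g 12).map (algebraMap ℚ O) := by
  simp only [expP, pol, Polynomial.map_sum, mul_sum, Polynomial.map_monomial]
  refine sum_congr rfl fun n hn => ?_
  have h : n.factorial ∣ 39916800 :=
    Nat.factorial_dvd_factorial (show n ≤ 11 by simp at hn; omega)
  have : ((ec g n : ℕ) : ℚ) = 39916800 * ((2 * (g : ℚ) - 2) ^ n / n.factorial) := by
    rw [ec, Nat.cast_mul, Nat.cast_div_charZero h, Nat.cast_pow, Nat.cast_sub (by omega)]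
    push_cast; ring
  rw [← map_ofNat C, C_mul_monomial, ← map_ofNat (algebraMap ℚ O), ← map_mul, ← this]
  simp

theorem dfs_sem (g s : ℕ) (hg : 1 ≤ g) (he : pk (ec g) 1 < 2 ^ 77) (κ : ℕ → O) (M : ℕ) :
    M ≤ 23 → ∀ (f c r code par p j : ℕ) (q : ℕ[X]), r ≤ f → c + r ≤ 23 → j + r ≤ 23 → par ≤ 1 →
    p ≡ q.eval bq [MOD bq ^ (s + 1)] → q.eval 1 ≤ (2 ^ 69) ^ j →
    (dfs 0 (bq ^ s) (bq ^ (s + 1)) (pk (ec g) bq) M f c r code par p).ev
        (fun c n _ => (n : O) * mon (fun m => ((-1 : ℚ) ^ (m + 1)) • κ m) c) -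
      (dfs 1 (bq ^ s) (bq ^ (s + 1)) (pk (ec g) bq) M f c r code par p).ev
        (fun c n _ => (n : O) * mon (fun m => ((-1 : ℚ) ^ (m + 1)) • κ m) c) =
      (-1) ^ (par + r) * 39916800 * mon (fun m => ((-1 : ℚ) ^ (m + 1)) • κ m) code *
        (q.map (Nat.castRingHom O) * fzF κ (gamP AT del 12) (expP g 12) M c r).coeff s := by
  induction M with
  | zero =>
    intro _ f c r code par p j q _ _ h3 h4 h5 h6
    rw [dfs_zero, dfs_zero, fzF]
    by_cases hr : r = 0
    swap
    · simp [hr, Tm.ev]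
    have e1 : p * pk (ec g) bq % bq ^ (s + 1) / bq ^ s = (q * pol (ec g)).coeff s := by
      rw [← digit (B := bq) s, eval_mul, pk_eq, (h5.mul_right _ : _ % _ = _)]
      rw [eval_mul, ← pk_eq]
      calc _ ≤ (2 ^ 69) ^ 23 * pk (ec g) 1 :=
            Nat.mul_le_mul_right _ (h6.trans (Nat.pow_le_pow_right (by norm_num) (by omega)))
        _ < (2 ^ 69) ^ 23 * 2 ^ 77 := Nat.mul_lt_mul_of_pos_left he (by positivity)
        _ = bq := by rw [bq, ← pow_mul, ← pow_add]
    have e2 : (((q * pol (ec g)).coeff s : ℕ) : O) = 39916800 *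
        (q.map (Nat.castRingHom O) * (expP g 12).map (algebraMap ℚ O)).coeff s := by
      rw [← eq_natCast (Nat.castRingHom O), ← coeff_map, Polynomial.map_mul, pol_ec hg,
        mul_left_comm, ← map_ofNat C, coeff_C_mul]
    rw [e1]
    interval_cases par <;> simp [hr, Tm.ev, lf, e2] <;> ring
  | succ M ih =>
    intro hM f
    induction f with
    | zero =>
      intro c r code par p j q h1 h2 h3 h4 h5 h6
      rw [dfs_succ0, dfs_succ0, fzF, if_neg (by omega), add_zero]
      exact ih (by omega) r 0 r code par p j q le_rfl (by omega) h3 h4 h5 h6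
    | succ f ih' =>
      intro c r code par p j q h1 h2 h3 h4 h5 h6
      have a1 := ih (by omega) r 0 r code par p j q le_rfl (by omega) h3 h4 h5 h6
      rw [dfs_succ, dfs_succ, fzF, Tm.ev_mk, Tm.ev_mk, mul_add, coeff_add, mul_add, ← a1]
      by_cases hh : M + 1 ≤ r
      swap
      · simp [hh, Tm.ev]
      obtain ⟨k, hk⟩ := del_dvd c (by omega)
      have hk' : del / (c + 1) = k := by rw [hk, Nat.mul_div_cancel_left _ (by omega)]
      have a2 := ih' (c + 1) (r - (M + 1)) (code * pr (M + 1)) (1 - par)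
        (k * gp (M + 1) * p % bq ^ (s + 1)) (M + 1 + j) (C k * pol (gm (M + 1)) * q) (by omega)
        (by omega) (by omega) (by omega)
        (by
          rw [eval_mul, eval_mul, eval_C, ← pk_eq]
          exact (Nat.mod_modEq _ _).trans (h5.mul_left _))
        (by
          rw [eval_mul, eval_mul, eval_C, ← pk_eq, pow_add]
          refine Nat.mul_le_mul (le_trans (Nat.mul_le_mul_right _ ?_)
            (gs_le (M + 1) (by omega) (by omega))) h6
          rw [hk]; exact Nat.le_mul_of_pos_left _ (by omega))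
      have e1 : q.map (Nat.castRingHom O) * ((c : ℚ) + 1)⁻¹ • (C (κ (M + 1)) *
          (gamP AT del 12 (M + 1)).map (algebraMap ℚ O) *
          fzF κ (gamP AT del 12) (expP g 12) (M + 1) (c + 1) (r - (M + 1))) =
          C (κ (M + 1)) * ((C k * pol (gm (M + 1)) * q).map (Nat.castRingHom O) *
            fzF κ (gamP AT del 12) (expP g 12) (M + 1) (c + 1) (r - (M + 1))) := by
        have : algebraMap ℚ O[X] ((c : ℚ) + 1)⁻¹ * ((c + 1 : ℕ) : O[X]) = 1 := by
          rw [← map_natCast (algebraMap ℚ O[X]), ← map_mul, Nat.cast_succ,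
            inv_mul_cancel₀ (by positivity), map_one]
        have hk2 : (del : O[X]) = ((c + 1 : ℕ) : O[X]) * k := by rw [← Nat.cast_mul, ← hk]
        rw [pol_gm (by omega) hM, hk2, Algebra.smul_def, Polynomial.map_mul,
          Polynomial.map_mul, map_C, eq_natCast (Nat.castRingHom O), map_natCast]
        linear_combination (q.map (Nat.castRingHom O) * C (κ (M + 1)) * k *
          (pol (gm (M + 1))).map (Nat.castRingHom O) *
          fzF κ (gamP AT del 12) (expP g 12) (M + 1) (c + 1) (r - (M + 1))) * this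
      simp only [if_pos hh, hk']
      rw [e1, coeff_C_mul, mon_mul, mon_pr _ (by omega) (by omega), Algebra.smul_def, map_pow,
        map_neg, map_one] at *
      have e2 : (-1 : O) ^ (1 - par + (r - (M + 1))) * (-1) ^ (M + 1 + 1) = (-1) ^ (par + r) := by
        rw [← pow_add]
        interval_cases par
        · rw [show 1 - 0 + (r - (M + 1)) + (M + 1 + 1) = 0 + r + 2 by omega, pow_add _ _ 2]; simp
        · congr 1; omega
      rw [← e2]
      linear_combination a2

end Pool.Agent.FP.Z
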