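import Pool.Agent.FP.ZRank
import Pool.Agent.FP.ZSem

/-! From the checks to the socle. -/

namespace Pool.Agent.FP.Z

open Fn Finset Polynomial

theorem Tm.P_and {p p' : ℕ → ℕ → ℕ → Prop} {t : Tm} (h : t.P p) (h' : t.P p') :
    t.P fun c n m => p c n m ∧ p' c n m := by
  induction t with
  | nil => trivial
  | leaf => exact ⟨h, h'⟩
  | node l r h1 h2 => exact ⟨h1 h.1 h'.1, h2 h.2 h'.2⟩

theorem okc_iff {N : ℕ} {col cd : ℕ → ℕ} {c : ℕ} :
    okc N col cd c = true ↔ cd (col c) = c ∧ col c < N := by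
  simp [okc]

theorem row_rep {N : ℕ} {col cd : ℕ → ℕ} (z : ℕ → ℤ) (c0 : ℕ) (e : ℤ) (t : Tm)
    (h : t.P fun c n m => okc N col cd (c * c0) = true ∧ m ≤ 47 ∧ (47 : ℤ) ∣ m - e * n) :
    Rep (fun l => z (cd l)) 0 N (row col t c0) (47 * t.sum fun _ _ _ => 1)
      (e * t.ev fun c n _ => n * z (c * c0)) := by
  induction t with
  | nil => simpa [row, Tm.sum, Tm.ev] using Rep.zero _ 0 N
  | leaf c n m =>
    obtain ⟨h1, h2, h3⟩ := h
    rw [okc_iff] at h1
    have e1 : row col (.leaf c n m) c0 = m <<< (22 * col (c * c0)) := by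
      change Nat.shiftLeft m (Nat.mul 22 (force (Nat.mul c c0) col)) = _
      rw [force_eq]; rfl
    rw [e1]
    refine (Rep.unit _ h1.2 m).mono _ h2 ?_
    simp only [h1.1, Tm.ev]
    rw [← mul_assoc, ← sub_mul]
    exact h3.mul_right _
  | node l r h1 h2 =>
    have := (h1 h.1).add _ (h2 h.2) 1
    rw [one_mul, one_mul, Nat.cast_one, one_mul, ← mul_add, ← mul_add] at this
    exact this

section
variable (g N : ℕ) (v col cd : ℕ → ℕ) (U : List ℕ)

/-- Row `i` comes from a relation. -/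
def Cov (i : ℕ) : Prop := ∃ r s t c0, r ≤ 23 ∧ s < 12 ∧ 3 * r = s + g + 1 + 2 * t ∧
  ((trm g r s 0).sum fun _ _ _ => 1) + ((trm g r s 1).sum fun _ _ _ => 1) ≤ 5000 ∧
  chk1 N v col cd U (trm g r s 0) (trm g r s 1) i c0 = true

/-- `w` satisfies the relations. -/
def Sat (w : ℕ → ℚ) : Prop := ∀ r s t c0, r ≤ 23 → s < 12 → 3 * r = s + g + 1 + 2 * t →
  dt v (trm g r s 0) c0 = dt v (trm g r s 1) c0 →
  ((trm g r s 0).ev fun c n _ => n * w (c * c0)) = (trm g r s 1).ev fun c n _ => n * w (c * c0)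

variable {g N v col cd U}

theorem cov_add {i0 i1 : ℕ} (l : List ℕ) (r s t : ℕ) (h : ∀ i < i0, Cov g N v col cd U i)
    (hc : chk N v col cd U (trm g r s 0) (trm g r s 1) i0 l = true)
    (h1 : r ≤ 23 ∧ s < 12 ∧ 3 * r = s + g + 1 + 2 * t) (hl : i0 + l.length = i1) :
    ∀ i < i1, Cov g N v col cd U i := by
  rw [chk, Bool.and_eq_true, Nat.ble_eq] at hc
  obtain ⟨h2, h3⟩ := hc
  induction l generalizing i0 with
  | nil => exact hl ▸ h
  | cons c0 l ih =>
    change (chk1 N v col cd U _ _ i0 c0 && force i0.succ _) = true at h3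
    rw [force_eq, Bool.and_eq_true] at h3
    refine ih (i0 := i0 + 1) (fun i hi => ?_) (by simp at hl; omega) h3.2
    by_cases hh : i < i0
    · exact h i hh
    · exact ⟨r, s, t, c0, h1.1, h1.2.1, h1.2.2, h2, (show i0 = i by omega) ▸ h3.1⟩

theorem Sat.smul {w : ℕ → ℚ} (h : Sat g v w) (a : ℚ) : Sat g v fun c => a * w c := by
  intro r s t c0 h1 h2 h3 h4
  have := congrArg (AddMonoidHom.mulLeft a) (h r s t c0 h1 h2 h3 h4)
  rw [Tm.map_ev, Tm.map_ev] at this
  simpa [mul_left_comm] using this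

theorem descent (hN : N ≤ 1300) (h : ∀ i < N - 1, Cov g N v col cd U i) {w : ℕ → ℚ}
    (hw : Sat g v w) (h0 : w (cd (N - 1)) = 0) (hz : ∀ l < N, ∃ z : ℤ, w (cd l) = z) :
    ∀ l < N, ∃ z : ℤ, 47⁻¹ * w (cd l) = z := by
  have key : ∀ i, i + 1 < N → Good (fun l => ⌊w (cd l)⌋) i (N - i) (U.getD i 0) := by
    intro i
    induction i using Nat.strong_induction_on with
    | _ i ih =>
    intro hi
    obtain ⟨r, s, t, c0, h1, h2, h3, h4, h5⟩ := h i (by omega)
    simp only [chk1, Bool.and_eq_true, Nat.beq_eq, force_eq] at h5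
    obtain ⟨⟨a0, a1⟩, a2, a3⟩ := h5
    have b0 := Tm.P_and (Tm.all_P a0) (dfs_res 0 _ _ _ _ (by omega) _ _ _ _ _ _)
    have b1 := Tm.P_and (Tm.all_P a1) (dfs_res 1 _ _ _ _ (by omega) _ _ _ _ _ _)
    have c1 : ∀ (t : Tm) {p : ℕ → ℕ → ℕ → Prop},
        (t.P fun c n m => okc N col cd (c * c0) = true ∧ p c n m) →
        ((t.ev fun c n _ => (n : ℤ) * ⌊w (c * c0)⌋ : ℤ) : ℚ) =
          t.ev fun c n _ => n * w (c * c0) := fun t p ht => by
      refine (Tm.map_ev (Int.castAddHom ℚ) _ t).trans (Tm.ev_congr ht fun c n m hh => ?_)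
      obtain ⟨d1, d2⟩ := okc_iff.1 hh.1
      obtain ⟨z, hz⟩ := hz _ d2
      rw [d1] at hz
      simp [hz]
    have c2 := hw r s t c0 h1 h2 h3 a2
    rw [← c1 _ b0, ← c1 _ b1, Int.cast_inj] at c2
    have c3 := ((row_rep (fun c => ⌊w c⌋) c0 _ _ b0).add _ (row_rep (fun c => ⌊w c⌋) c0 _ _ b1)
      1).mono _ (B' := 235000) (t' := 0) (by omega) (by rw [c2]; simp)
    have := elim_sound (fun l => ⌊w (cd l)⌋) (n := N - i) U i 0 _ 235000 (fun j hj => by
      rw [zero_add, show N - i + i - j = N - j by omega]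
      exact ih j hj (by omega)) (by rw [show N - i + i = N by omega]; exact c3) (by omega)
      (by rw [one_mul]; exact a3)
    rwa [zero_add] at this
  intro l hl
  obtain ⟨y, hy⟩ := back _ _ key (by simp [h0]) N l (by omega) hl
  obtain ⟨z, hz⟩ := hz l hl
  refine ⟨y, ?_⟩
  simp only [hz, Int.floor_intCast] at hy
  rw [hz, hy]; push_cast; ring

theorem sat_zero (hN : N ≤ 1300) (h : ∀ i < N - 1, Cov g N v col cd U i) {w : ℕ → ℚ}
    (hw : Sat g v w) (h0 : w (cd (N - 1)) = 0) : ∀ l < N, w (cd l) = 0 := by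
  set D : ℚ := ∏ l ∈ range N, ((w (cd l)).den : ℚ) with hD
  have hD0 : D ≠ 0 := prod_ne_zero_iff.2 fun l _ => by simp
  have key : ∀ k : ℕ, ∀ l < N, ∃ z : ℤ, 47⁻¹ ^ k * D * w (cd l) = z := by
    intro k
    induction k with
    | zero =>
      intro l hl
      refine ⟨(∏ j ∈ (range N).erase l, ((w (cd j)).den : ℤ)) * (w (cd l)).num, ?_⟩
      rw [pow_zero, one_mul, hD, ← prod_erase_mul _ _ (mem_range.2 hl), mul_assoc,
        Rat.den_mul_eq_num]
      push_cast; rfl
    | succ k ih =>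
      intro l hl
      obtain ⟨z, hz⟩ := descent hN h (hw.smul (47⁻¹ ^ k * D)) (by simp [h0]) ih l hl
      exact ⟨z, by rw [← hz]; ring⟩
  intro l hl
  obtain ⟨k, hk⟩ := pow_unbounded_of_one_lt |D * w (cd l)| (show (1 : ℚ) < 47 by norm_num)
  obtain ⟨z, hz⟩ := key k l hl
  have e1 : D * w (cd l) = 47 ^ k * z := by
    rw [← hz, mul_assoc, ← mul_assoc (47 ^ k), ← mul_pow]; simp
  have e2 : |z| < 1 := by
    rw [e1, abs_mul, abs_of_pos (by positivity), mul_lt_iff_lt_one_right (by positivity)] at hk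
    exact_mod_cast hk
  rw [Int.abs_lt_one_iff.1 e2] at e1
  simpa [hD0] using e1

end

/-- A test on the codes of all partitions. -/
noncomputable def ap (f : ℕ → Bool) (M : ℕ) : ℕ → ℕ → ℕ → Bool :=
  Nat.rec (motive := fun _ => ℕ → ℕ → ℕ → Bool)
    (fun _ r c => cond (Nat.beq r 0) (force c f) true)
    (fun M ih fuel => Nat.rec (motive := fun _ => ℕ → ℕ → Bool) (fun r c => ih r r c)
      (fun _ ihF r c => and (ih r r c) (cond (Nat.ble M.succ r)
        (ihF (Nat.sub r M.succ) (Nat.mul c (pr M.succ))) true)) fuel) M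

theorem ap_sound (f : ℕ → Bool) (M : ℕ) : ∀ u r c, ap f M u r c = true → r ≤ u →
    ∀ l : List ℕ, (∀ i ∈ l, 1 ≤ i ∧ i ≤ M) → l.sum = r → f (c * code l) = true := by
  induction M with
  | zero =>
    intro u r c h _ l h1 h2
    obtain rfl : l = [] := List.eq_nil_iff_forall_not_mem.2 fun i hi => by
      have := h1 i hi; omega
    obtain rfl : r = 0 := h2.symm
    have : force c f = true := h
    simpa [code, force_eq] using this
  | succ M ih =>
    intro u
    induction u with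
    | zero =>
      intro r c h h0 l h1 h2
      refine ih r r c h le_rfl l (fun i hi => ?_) h2
      have := h1 i hi
      have := List.single_le_sum (fun _ _ => Nat.zero_le _) i hi
      omega
    | succ u ih' =>
      intro r c h h0 l h1 h2
      change (ap f M r r c && cond (Nat.ble (M + 1) r)
        (ap f (M + 1) u (r - (M + 1)) (c * pr (M + 1))) true) = true at h
      rw [Bool.and_eq_true] at h
      by_cases hm : M + 1 ∈ l
      · have p := List.perm_cons_erase hm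
        have e1 : l.sum = M + 1 + (l.erase (M + 1)).sum := by simpa using p.sum_eq
        have e2 : code l = pr (M + 1) * code (l.erase (M + 1)) := by
          simpa [code] using (p.map pr).prod_eq
        have h3 := h.2
        rw [Nat.ble_eq_true_of_le (by omega)] at h3
        rw [e2, ← mul_assoc]
        exact ih' _ _ h3 (by omega) _ (fun i hi => h1 i (List.mem_of_mem_erase hi)) (by omega)
      · refine ih r r c h.1 le_rfl l (fun i hi => ?_) h2
        have := h1 i hi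
        have : i ≠ M + 1 := fun e => hm (e ▸ hi)
        omega

theorem soc_of {O : Type} [CommRing O] [Algebra ℚ O] {g N d : ℕ} {v col cd : ℕ → ℕ} {U : List ℕ}
    (hN : N ≤ 1300) (h : ∀ i < N - 1, Cov g N v col cd U i) (hg : 1 ≤ g)
    (he : pk (ec g) 1 < 2 ^ 77) (hv : v (cd (N - 1)) ≠ 0) (hd : d < 25)
    (ha : ap (okc N col cd) d d d 1 = true) {κ : ℕ → O} (hκ : FZ g κ) :
    Soc d v fun m => ((-1 : ℚ) ^ (m + 1)) • κ m := by
  set κ' : ℕ → O := fun m => ((-1 : ℚ) ^ (m + 1)) • κ m with hκ'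
  refine ⟨(v (cd (N - 1)) : ℚ)⁻¹ • mon κ' (cd (N - 1)), fun l h1 h2 => ?_⟩
  have h3 : ∀ i ∈ l, 1 ≤ i ∧ i ≤ d := fun i hi =>
    ⟨h1 i hi, h2 ▸ List.single_le_sum (fun _ _ => Nat.zero_le _) i hi⟩
  have h4 := ap_sound _ d d d 1 ha le_rfl l h3 h2
  rw [one_mul, okc_iff] at h4
  rw [← mon_code κ' l fun i hi => ⟨h1 i hi, (h3 i hi).2.trans_lt hd⟩, ← sub_eq_zero,
    ← Module.forall_dual_apply_eq_zero_iff ℚ]
  intro ε
  have hs : Sat g v fun c => v (cd (N - 1)) * ε (mon κ' c) - ε (mon κ' (cd (N - 1))) * v c := by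
    intro r s t c0 a1 a2 a3 a4
    have b1 := dfs_sem g s hg he κ r a1 r 0 r 1 0 1 0 1 le_rfl (by omega) (by omega) (by omega)
      (by simp; rfl) (by simp)
    rw [Polynomial.map_one, one_mul, hκ 116 AT del 12 r s t recTab at03 (by omega) a2 a3,
      mul_zero, sub_eq_zero] at b1
    have b2 := congrArg ((ε.toAddMonoidHom).comp (AddMonoidHom.mulRight (mon κ' c0))) b1
    rw [dt, dt, Tm.sum_eq, Tm.sum_eq] at a4
    have b3 := congrArg (Nat.castAddMonoidHom ℚ) a4
    rw [Tm.map_ev, Tm.map_ev] at b2 b3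
    have b4 : ∀ t : Tm, (t.ev fun c n _ => (n : ℚ) * (v (cd (N - 1)) * ε (mon κ' (c * c0)) -
        ε (mon κ' (cd (N - 1))) * v (c * c0))) = v (cd (N - 1)) * (t.ev fun c n _ =>
          ε.toAddMonoidHom.comp (AddMonoidHom.mulRight (mon κ' c0)) ((n : O) * mon κ' c)) -
        ε (mon κ' (cd (N - 1))) * t.ev fun c n _ =>
          Nat.castAddMonoidHom ℚ (Nat.mul n (force (Nat.mul c c0) v)) := fun t => by
      induction t with
      | nil => simp [Tm.ev]
      | leaf c n m =>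
        simp only [Tm.ev, force_eq, mon_mul, AddMonoidHom.comp_apply, AddMonoidHom.mulRight_apply,
          mul_assoc, ← nsmul_eq_mul n (mon κ' c * _), map_nsmul]
        simp; ring
      | node l r h1 h2 => simp only [Tm.ev, h1, h2]; ring
    rw [b4, b4, b3]
    exact congrArg (_ * · - _) b2
  have := sat_zero hN h hs (by ring) _ h4.2
  simp only [h4.1] at this
  have hv' : (v (cd (N - 1)) : ℚ) ≠ 0 := by exact_mod_cast hv
  rw [map_sub, map_smul, map_smul, smul_eq_mul, smul_eq_mul]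
  field_simp
  linear_combination this

end Pool.Agent.FP.Z
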