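import Pool.Agent.FP.ZFlow

/-! Extraction of the coefficients of the partition function. -/

namespace Pool.Agent.FP.Z

open Finset Polynomial

section
variable {B : Type} [CommRing B] [Algebra ℚ B]

/-- Tails of the exponential series. -/
def Et (K c : ℕ) (x : B) : B :=
  ∑ j ∈ range K, ((c.factorial : ℚ) / (c + j).factorial) • x ^ j

theorem Et_zero {K : ℕ} {x : B} (h : x ^ K = 0) : Et K 0 x = IsNilpotent.exp x := by
  simp [Et, IsNilpotent.exp_eq_sum h]

theorem Et_succ {K : ℕ} {x : B} (h : x ^ K = 0) (c : ℕ) :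
    Et K c x = 1 + ((c : ℚ) + 1)⁻¹ • (x * Et K (c + 1) x) := by
  have := sum_range_succ (fun j => ((c.factorial : ℚ) / (c + j).factorial) • x ^ j) K
  rw [h, smul_zero, add_zero, sum_range_succ'] at this
  rw [Et, ← this, Et, mul_sum, smul_sum, add_comm]
  congr 1
  · have : (c.factorial : ℚ) ≠ 0 := by positivity
    simp [this]
  · refine sum_congr rfl fun j _ => ?_
    rw [mul_smul_comm, smul_smul, pow_succ', Nat.factorial_succ,
      show c + 1 + j = c + (j + 1) by omega]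
    congr 1
    push_cast
    field_simp

theorem exp_sum (x0 : B) (x : ℕ → B) (h0 : IsNilpotent x0) (h : ∀ m, IsNilpotent (x m)) (M : ℕ) :
    IsNilpotent (x0 + ∑ m ∈ range M, x m) ∧ IsNilpotent.exp (x0 + ∑ m ∈ range M, x m) =
      IsNilpotent.exp x0 * ∏ m ∈ range M, IsNilpotent.exp (x m) := by
  induction M with
  | zero => simpa using h0
  | succ M ih =>
    rw [sum_range_succ, ← add_assoc, prod_range_succ, ← mul_assoc, ← ih.2]
    exact ⟨(Commute.all _ _).isNilpotent_add ih.1 (h M),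
      IsNilpotent.exp_add_of_commute (Commute.all _ _) ih.1 (h M)⟩

end

theorem fzF_ge {O : Type} [CommRing O] [Algebra ℚ O] (κ : ℕ → O) (γ : ℕ → ℚ[X]) (e0 : ℚ[X])
    (r k : ℕ) : fzF κ γ e0 (r + k) 0 r = fzF κ γ e0 r 0 r := by
  induction k with
  | zero => rfl
  | succ k ih => rw [← add_assoc, fzF, if_neg (by omega), add_zero, ih]

variable {O B1 B0 : Type} [CommRing O] [Algebra ℚ O] [CommRing B1] [Algebra ℚ B1] [CommRing B0]
  [Algebra ℚ B0]

theorem psi_map (ψ : O[X] →ₐ[ℚ] B1) (S : ℕ) (c : ℕ → ℚ) :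
    ψ ((∑ n ∈ range S, monomial n (c n)).map (algebraMap ℚ O)) =
      ∑ n ∈ range S, c n • ψ X ^ n := by
  rw [Polynomial.map_sum, map_sum]
  refine sum_congr rfl fun n _ => ?_
  rw [Polynomial.map_monomial, ← C_mul_X_pow_eq_monomial, ← Polynomial.algebraMap_apply,
    ← Algebra.smul_def, map_smul, map_pow]

theorem expo_eq (g N S δ : ℕ) {A : ℕ → ℕ → ℚ} (hA : Rec N A) (χ : O[X] →ₐ[ℚ] B0) {ε : B0}
    (hε : ε ^ N = 0) (hy : χ X ^ S = 0) (k : ℕ → O) (k1 : k 1 = (2 - 2 * (g : ℚ)) • 1) :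
    expo N A δ ε (χ X) (fun i => χ (C (k i))) = (2 * (g : ℚ) - 2) • χ X + ∑ m ∈ range (N + 4),
      ε ^ (5 * (m + 1)) * χ (C (k (m + 2)) * (gamP A δ S (m + 1)).map (algebraMap ℚ O)) := by
  have h0 : ∀ n h, N + 6 ≤ n + h → (A h n * δ ^ n) •
      (ε ^ (5 * (h + n) - 5) * χ X ^ n * χ (C (k (h + n)))) = 0 := fun n h hh => by
    rw [pow_eq_zero_of_le (m := N) (by omega) hε]; simp
  have h1 : ∀ m, ∑ n ∈ range S, gam A δ (m + 1) n • χ X ^ n =
      ∑ n ∈ range (m + 3), gam A δ (m + 1) n • χ X ^ n := fun m => by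
    rw [sum_subset (range_subset_range.2 (le_max_left S (m + 3))),
      sum_subset (range_subset_range.2 (le_max_right S (m + 3)))]
    · intro n _ hn
      rw [gam, if_neg (by simp at hn; omega), zero_smul]
    · intro n _ hn
      rw [pow_eq_zero_of_le (by simpa using hn) hy, smul_zero]
  rw [expo, sum_comm, box_ext (N + 6) _ _ _ (by omega) le_rfl h0, conv1 _ _ h0, sum_range_succ',
    sum_range_succ']
  have h2 : ∀ m, ε ^ (5 * (m + 1)) *
      χ (C (k (m + 2)) * (gamP A δ S (m + 1)).map (algebraMap ℚ O)) =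
      ∑ n ∈ range (m + 1 + 1 + 1), (A (m + 1 + 1 - n) n * δ ^ n) •
        (ε ^ (5 * (m + 1 + 1 - n + n) - 5) * χ X ^ n * χ (C (k (m + 1 + 1 - n + n)))) +
      if m = 0 then ((δ : ℚ) ^ 2 / 2) • (ε ^ 5 * χ X ^ 2 * χ (C (k 2))) else 0 := fun m => by
    rw [map_mul, gamP, psi_map, h1, mul_sum, mul_sum]
    have : ∀ n ∈ range (m + 3), ε ^ (5 * (m + 1)) * (χ (C (k (m + 2))) *
        gam A δ (m + 1) n • χ X ^ n) = (A (m + 1 + 1 - n) n * δ ^ n) •
        (ε ^ (5 * (m + 1 + 1 - n + n) - 5) * χ X ^ n * χ (C (k (m + 1 + 1 - n + n)))) +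
        if n = 2 then (if m = 0 then ((δ : ℚ) ^ 2 / 2) • (ε ^ 5 * χ X ^ 2 * χ (C (k 2))) else 0)
        else 0 := by
      intro n hn
      have hn' : n ≤ m + 1 + 1 := by simp at hn; omega
      rw [gam, if_pos hn', Nat.sub_add_cancel hn', show 5 * (m + 1 + 1) - 5 = 5 * (m + 1) by omega]
      simp only [Algebra.smul_def, map_add]
      by_cases c1 : n = 2 <;> by_cases c2 : m = 0 <;> simp [c1, c2] <;> ring
    rw [sum_congr rfl this, sum_add_distrib, sum_ite_eq', if_pos (by simp)]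
  simp only [h2, sum_add_distrib, sum_ite_eq', mem_range, Nat.zero_lt_succ, if_true]
  have h3 : χ (C (k 1)) = (2 - 2 * (g : ℚ)) • 1 := by
    rw [k1, ← Algebra.algebraMap_eq_smul_one, ← Polynomial.algebraMap_apply, AlgHom.commutes,
      Algebra.algebraMap_eq_smul_one]
  simp [sum_range_succ, hA.z00, hA.z01, hA.z10, h3]
  module

theorem extract (g N S δ : ℕ) {A : ℕ → ℕ → ℚ} (hA : Rec N A) (ψ : O[X] →ₐ[ℚ] B1)
    (ι : B1 →ₐ[ℚ] B0) {ε : B0} (hε : ε ^ N = 0) (hy : ψ X ^ S = 0) (μ : ℕ → B0 →ₗ[ℚ] B1)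
    (m1 : ∀ ν, ν < N → ∀ ν' w z, μ ν (ε ^ ν' * ι w * z) =
      if ν' ≤ ν then w * μ (ν - ν') z else 0)
    (m2 : ∀ ν, ν < N → μ ν 1 = if ν = 0 then 1 else 0)
    (k : ℕ → O) (k1 : k 1 = (2 - 2 * (g : ℚ)) • 1) (r : ℕ) (hr : 5 * r < N) :
    μ (5 * r) (IsNilpotent.exp (expo N A δ ε (ι (ψ X)) fun i => ι (ψ (C (k i))))) =
      ψ (fzF (fun m => k (m + 1)) (gamP A δ S) (expP g S) r 0 r) := by
  have hy' : (ι.comp ψ) X ^ S = 0 := by rw [AlgHom.comp_apply, ← map_pow, hy, map_zero]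
  have e1 := expo_eq g N S δ hA (ι.comp ψ) hε hy' k k1
  simp only [AlgHom.comp_apply] at e1 hy'
  set x : ℕ → B0 := fun m =>
    ε ^ (5 * (m + 1)) * ι (ψ (C (k (m + 2)) * (gamP A δ S (m + 1)).map (algebraMap ℚ O))) with hx
  have xn : ∀ m, x m ^ N = 0 := fun m => by
    simp only [hx]
    rw [mul_pow, ← pow_mul, mul_comm _ N, pow_mul, hε, zero_pow (by omega), zero_mul]
  have n0 : ((2 * (g : ℚ) - 2) • ψ X) ^ S = 0 := by rw [_root_.smul_pow, hy, smul_zero]
  have n1 : IsNilpotent ((2 * (g : ℚ) - 2) • ι (ψ X)) := ⟨S, by rw [_root_.smul_pow, hy', smul_zero]⟩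
  have e0 : IsNilpotent.exp ((2 * (g : ℚ) - 2) • ι (ψ X)) =
      ι (ψ ((expP g S).map (algebraMap ℚ O))) := by
    rw [← map_smul, ← IsNilpotent.map_exp ⟨S, n0⟩, IsNilpotent.exp_eq_sum n0, expP, psi_map]
    congr 1
    exact sum_congr rfl fun n _ => by rw [_root_.smul_pow, smul_smul, div_eq_inv_mul]
  set Pr : ℕ → B0 := fun M =>
    ι (ψ ((expP g S).map (algebraMap ℚ O))) * ∏ m ∈ range M, IsNilpotent.exp (x m) with hPr
  have key : ∀ M c r, 5 * r < N → μ (5 * r) (Nat.casesOn M (Pr 0) fun M => Et N c (x M) * Pr M) =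
      ψ (fzF (fun m => k (m + 1)) (gamP A δ S) (expP g S) M c r) := by
    have G0 : ∀ M, (Nat.casesOn M (Pr 0) fun M => Et N 0 (x M) * Pr M : B0) = Pr M := by
      rintro (_ | M)
      · rfl
      · simp only [hPr, Et_zero (xn M), prod_range_succ]; ring
    intro M c r
    induction M, c, r using fzF.induct with
    | case1 c =>
      intro h
      have := m1 0 h 0 (ψ ((expP g S).map (algebraMap ℚ O))) 1
      simpa [fzF, hPr, m2 0 h] using this
    | case2 c r hr =>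
      intro h
      have := m1 _ h 0 (ψ ((expP g S).map (algebraMap ℚ O))) 1
      simpa [fzF, hPr, m2 _ h, hr] using this
    | case3 M c r h1 h2 =>
      intro h
      rw [fzF, map_add, ← h1 h, G0]
      simp only
      rw [Et_succ (xn M), add_mul, one_mul, map_add, smul_mul_assoc, map_smul,
        mul_assoc]
      congr 1
      simp only [hx]
      rw [m1 _ h]
      by_cases hh : M + 1 ≤ r
      · rw [if_pos hh, if_pos (by omega), map_smul, map_mul ψ _ (fzF _ _ _ _ _ _),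
          ← h2 hh (by omega), ← Nat.mul_sub]
      · rw [if_neg hh, if_neg (by omega), smul_zero, map_zero]
  rw [e1, (exp_sum _ x n1 (fun m => ⟨N, xn m⟩) (N + 4)).2, e0, ← fzF_ge _ _ _ r (N + 4 - r),
    show r + (N + 4 - r) = N + 4 by omega, ← key _ 0 r hr]
  simp only [hPr, Et_zero (xn _), prod_range_succ _ (N + 3)]
  congr 1; ring

end Pool.Agent.FP.Z
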