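import Pool.Agent.FP.ZVan2

/-! The partition function is the exponential of the free energy. -/

namespace Pool.Agent.FP.Z

open Finset

section
variable {R : Type} [CommRing R] [Algebra ℚ R]

theorem freeW_zero {N : ℕ} {A : ℕ → ℕ → ℚ} (hA : Rec N A) (f : R →ₐ[ℚ] R) {e θ ε φ P c : R}
    (h1 : f e = e) (h2 : f θ = 0) (h3 : f ε = ε) (h4 : f φ = φ) (h5 : f P = P) (h6 : f c = c) :
    f (freeW N A e θ ε φ P c) = A 0 3 • (ε * φ ^ 3) + P - c * φ := by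
  simp only [freeW, freeU, map_add, map_sub, map_mul, map_smul, map_sum, map_pow, h1, h2, h3, h4,
    h5, h6, zero_mul, smul_zero, add_zero, sub_zero]
  congr 2
  have z : ∀ h n, ¬ (h = 0 ∧ n = 3) →
      A h n • (e ^ h * 0 ^ (3 * h + n - 3) * ε ^ (5 * h + 2 * n - 5) * φ ^ n) = 0 := by
    intro h n hh
    by_cases h0 : 3 * h + n - 3 = 0
    · have : (h = 0 ∧ n = 0) ∨ (h = 0 ∧ n = 1) ∨ (h = 0 ∧ n = 2) ∨ (h = 1 ∧ n = 0) := by omega
      rcases this with ⟨rfl, rfl⟩ | ⟨rfl, rfl⟩ | ⟨rfl, rfl⟩ | ⟨rfl, rfl⟩ <;>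
        simp [hA.z00, hA.z01, hA.z02, hA.z10]
    · simp [h0]
  rw [sum_eq_single 0, sum_eq_single 3]
  · simp
  · intro n _ hn; exact z 0 n (by omega)
  · simp
  · intro h _ hh; exact sum_eq_zero fun n _ => z h n (by omega)
  · simp

end

variable {g : ℕ} {R B B0 : Type} [CommRing R] [Algebra ℚ R] [CommRing B] [Algebra ℚ B]
  [CommRing B0] [Algebra ℚ B0]

/-- The exponent after the flow. -/
def expo (N : ℕ) (A : ℕ → ℕ → ℚ) (δ : ℕ) (ε y : B0) (κ : ℕ → B0) : B0 :=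
  ∑ h ∈ range (N + 6), ∑ n ∈ range (N + 7),
    (A h n * δ ^ n) • (ε ^ (5 * (h + n) - 5) * y ^ n * κ (h + n)) - y * κ 1 +
      ((δ : ℚ) ^ 2 / 2) • (ε ^ 5 * y ^ 2 * κ 2)

/-- The part of the initial exponent of positive degree. -/
def Van.rest (v : Van g B B0) (δ : ℕ) (cub lin : B) : B :=
  ((δ : ℚ) / 6) • (v.ε * cub) + (2 * (g : ℚ) - 2) • (v.y * v.Xa δ) + δ * v.ε ^ 2 * v.y * lin

theorem main_abs {N : ℕ} {A : ℕ → ℕ → ℚ} (hA : Rec N A) (δ : ℕ) (h03 : A 0 3 = δ / 6)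
    (v : Van g B B0) (hK : v.K = N + 1) (hy : IsNilpotent v.y)
    (J : R →ₗ[ℚ] B) (D TR : R →ₗ[ℚ] R) (T : B →ₗ[ℚ] B) (e θ ε y φ : R) (θB : B)
    (s : Sys J v.L D ((2⁻¹ : ℚ) • e) 0) (hT : IsDer T) (hTR : IsDer TR) (hε : ε ^ N = 0)
    (JT : ∀ f, T (J f) = J (TR f)) (Jε : ∀ f, J (ε * f) = v.ε * J f)
    (Jy : ∀ f, J (y * f) = v.y * J f) (Jθ : ∀ f, J (θ * f) = θB * J f)
    (d1 : D e = 0) (d2 : D θ = 0) (d3 : D ε = 0) (d4 : D φ = 1) (d5 : D y = 0)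
    (t1 : TR e = 0) (t2 : TR θ = 1) (t3 : TR ε = 0) (t4 : TR φ = 0) (t5 : TR y = 0)
    (ev0 ev1 : B →ₐ[ℚ] B) (f0 : R →ₐ[ℚ] R) (Jev : ∀ f, ev0 (J f) = J (f0 f))
    (f1 : f0 e = e) (f2 : f0 θ = 0) (f3 : f0 ε = ε) (f4 : f0 φ = φ) (f5 : f0 y = y)
    (u1 : T θB = 1) (u2 : T v.ε = 0) (u3 : ∀ x, T (v.L x) = v.L (T x))
    (u4 : ∀ x, ev0 (v.L x) = v.L (ev0 x)) (u5 : ev0 θB = 0) (u6 : ev1 θB = 1)
    (u7 : ev0 v.ε = v.ε) (u8 : ∀ x, T x = 0 → ev1 x = ev0 x) (u9 : ∀ x, v.pr (ev1 x) = v.pr x)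
    (κ : ℕ → B0) (p1 : ∀ i, v.pr (J (e ^ i)) = κ i) (p2 : ∀ f, v.pr (J (φ * f)) = 0)
    (cub lin : B) (j1 : J (φ ^ 3) = 3 * v.a ^ 2 * v.b + 6 * v.a * v.Θ + cub)
    (j2 : J (e * φ) = (2 - 2 * (g : ℚ)) • v.a + lin) (j3 : J e = (2 - 2 * (g : ℚ)) • 1) :
    v.E (IsNilpotent.exp (v.rest δ cub lin) * v.Zc δ) =
      IsNilpotent.exp (expo N A δ (v.pr v.ε) (v.pr v.y) κ) := by
  set P := -(y * e) with hP
  set c := -(δ * ε ^ 2 * y * e) with hc
  set W := freeW N A e θ ε φ P c with hW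
  have nε : v.ε ∈ nilradical B := mem_nilradical.2 ⟨_, v.nil⟩
  have ny : v.y ∈ nilradical B := mem_nilradical.2 hy
  have z : ∀ h n, A h n = 0 ∨ 5 < 5 * h + 2 * n := fun h n => by
    by_cases hh : 5 < 5 * h + 2 * n
    · exact Or.inr hh
    have : (h = 0 ∧ n = 0) ∨ (h = 0 ∧ n = 1) ∨ (h = 0 ∧ n = 2) ∨ (h = 1 ∧ n = 0) := by omega
    rcases this with ⟨rfl, rfl⟩ | ⟨rfl, rfl⟩ | ⟨rfl, rfl⟩ | ⟨rfl, rfl⟩ <;>
      simp [hA.z00, hA.z01, hA.z02, hA.z10]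
  have sm : ∀ (q : ℚ) (x : B), x ∈ nilradical B → q • x ∈ nilradical B := fun q x hx => by
    rw [Algebra.smul_def]; exact Ideal.mul_mem_left _ _ hx
  have nS : IsNilpotent (J W) := by
    rw [← mem_nilradical]
    have e1 : W = freeU N A e θ ε (φ - θ * ε * c) + y * (-e + δ * ε ^ 2 * e * φ) +
        ε * ((2⁻¹ : ℚ) • (θ * c ^ 2)) := by
      simp only [hW, freeW, hP, hc, Algebra.smul_def]; ring
    rw [e1, map_add, map_add, Jy, Jε]
    refine add_mem (add_mem ?_ (Ideal.mul_mem_right _ _ ny)) (Ideal.mul_mem_right _ _ nε)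
    simp only [freeU, map_sum, map_smul]
    refine Ideal.sum_mem _ fun h _ => Ideal.sum_mem _ fun n _ => ?_
    rcases z h n with h0 | h0
    · simp [h0]
    · obtain ⟨k, hk⟩ : ∃ k, 5 * h + 2 * n - 5 = k + 1 := ⟨5 * h + 2 * n - 6, by omega⟩
      rw [hk, show e ^ h * θ ^ (3 * h + n - 3) * ε ^ (k + 1) * (φ - θ * ε * c) ^ n =
        ε * (e ^ h * θ ^ (3 * h + n - 3) * ε ^ k * (φ - θ * ε * c) ^ n) by ring, Jε]
      exact sm _ _ (Ideal.mul_mem_right _ _ nε)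
  have hpde := pde_W hA s.der hTR (P := P) (c := c) hε d1 d2 d3 d4
    (by simp [hP, s.der _ _, d1, d5]) (by simp [hc, s.der _ _, d1, d5, s.der.pow0 d3, s.der.nat])
    t1 t2 t3 t4 (by simp [hP, hTR _ _, t1, t5])
    (by simp [hc, hTR _ _, t1, t5, hTR.pow0 t3, hTR.nat])
  have hZ : T (IsNilpotent.exp (J W)) = v.ε * v.L (IsNilpotent.exp (J W)) := by
    rw [hT.exp nS, s.so.exp nS, JT, hpde, Jε, map_add, map_smul, s.LJ, s.GJ, ← hW]
    simp only [zero_mul, map_zero, mul_zero, sub_zero, mul_assoc]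
  have hfl := flow hT ev0 ev1 (N := N) (hK ▸ v.nil) u1 u2 u3 v.Lε u4 u5 u6 u7 u8 hZ
  have pθ : v.pr θB = 1 := by rw [← u9, u6, map_one]
  have e0 : ev0 (IsNilpotent.exp (J W)) = IsNilpotent.exp (v.rest δ cub lin) * v.Zc δ := by
    have nr : IsNilpotent (v.rest δ cub lin) := by
      rw [← mem_nilradical]
      exact add_mem (add_mem (sm _ _ (Ideal.mul_mem_right _ _ nε))
        (sm _ _ (Ideal.mul_mem_right _ _ ny))) (Ideal.mul_mem_right _ _ (Ideal.mul_mem_left _ _ ny))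
    rw [IsNilpotent.map_exp nS, Van.Zc,
      ← IsNilpotent.exp_add_of_commute (Commute.all _ _) nr (v.nilc δ), Jev, hW,
      freeW_zero hA f0 f1 f2 f3 f4 (by simp [hP, f1, f5]) (by simp [hc, f1, f3, f5])]
    congr 1
    have : c * φ = -(δ * (ε * (ε * (y * (e * φ))))) := by rw [hc]; ring
    have h6 : 6 * algebraMap ℚ B 6⁻¹ = 1 := by
      rw [← map_ofNat (algebraMap ℚ B) 6, ← map_mul]; norm_num
    have h2 := two_half (B := B)
    rw [this, hP]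
    simp only [map_add, map_sub, map_neg, map_smul, map_nat_mul, Jε, Jy, j1, j2, j3, h03]
    simp only [Van.rest, map_sub, Van.Xa, div_eq_mul_inv, Algebra.smul_def, map_mul, map_natCast,
      map_ofNat]
    linear_combination (δ * v.ε * v.a * v.Θ + δ * v.ε * v.a ^ 2 * v.b * algebraMap ℚ B 2⁻¹) * h6 -
      (3 * δ * v.ε * v.a ^ 2 * v.b * algebraMap ℚ B 6⁻¹) * h2
  have hp := congrArg v.pr hfl
  rw [u9, IsNilpotent.map_exp nS, e0, ← hK] at hp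
  rw [v.E_apply]
  simp only [map_sum, map_smul, map_mul v.pr (v.ε ^ _), map_pow] at hp
  rw [← hp]
  congr 1
  have q0 : ∀ {x : R} {xb : B}, (∀ f, J (x * f) = xb * J f) → ∀ (n : ℕ) f,
      J (x ^ n * f) = xb ^ n * J f := by
    intro x xb h n
    induction n with
    | zero => simp
    | succ n ih => intro f; rw [pow_succ', mul_assoc, h, ih]; ring
  have q1 : ∀ (k i j l : ℕ), v.pr (J (θ ^ k * (ε ^ i * (y ^ j * e ^ l)))) =
      v.pr v.ε ^ i * v.pr v.y ^ j * κ l := fun k i j l => by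
    rw [q0 Jθ, q0 Jε, q0 Jy]
    simp only [map_mul, map_pow, pθ, p1]; ring
  simp only [hW, freeW, freeU, expo, map_add, map_sub, map_sum, map_smul]
  have a1 : v.pr (J P) = -(v.pr v.y * κ 1) := by
    have := q1 0 0 1 1
    simp only [pow_zero, pow_one, one_mul] at this
    rw [hP, map_neg, map_neg, this]
  have a2 : v.pr (J (θ * ε * c ^ 2)) = ((δ : ℚ) ^ 2) • (v.pr v.ε ^ 5 * v.pr v.y ^ 2 * κ 2) := by
    rw [← q1 1, ← map_smul, ← map_smul, Algebra.smul_def, map_pow, map_natCast, hc]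
    congr 2; ring
  rw [a1, a2, mul_comm c, p2, sub_zero, smul_smul, ← sub_eq_add_neg]
  congr 2
  · refine sum_congr rfl fun h _ => sum_congr rfl fun n _ => ?_
    rcases z h n with h0 | h0
    · simp [h0]
    obtain ⟨w, hw⟩ := sub_dvd_pow_sub_pow (φ - θ * ε * c) (-(θ * ε * c)) n
    have : e ^ h * θ ^ (3 * h + n - 3) * ε ^ (5 * h + 2 * n - 5) * (φ - θ * ε * c) ^ n =
        φ * (e ^ h * θ ^ (3 * h + n - 3) * ε ^ (5 * h + 2 * n - 5) * w) + ((δ : ℚ) ^ n) •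
          (θ ^ (3 * h + n - 3 + n) * (ε ^ (5 * (h + n) - 5) * (y ^ n * e ^ (h + n)))) := by
      rw [eq_add_of_sub_eq hw, show 5 * (h + n) - 5 = 5 * h + 2 * n - 5 + 3 * n by omega,
        Algebra.smul_def, map_pow, map_natCast,
        show -(θ * ε * c) = δ * θ * ε ^ 3 * y * e by rw [hc]; ring]
      simp only [mul_pow, ← pow_mul]
      ring
    rw [this, map_add, map_add, p2, zero_add, map_smul, map_smul, q1, smul_smul]
  · ring

end Pool.Agent.FP.Z
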