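import Pool.Agent.FP.ZSO
import Pool.Agent.FP.FZDefs

/-! The heat flow of the cubic potential. -/

namespace Pool.Agent.FP.Z

open Finset

theorem conv1 {M : Type} [AddCommMonoid M] (K : ℕ) (g : ℕ → ℕ → M)
    (hg : ∀ i j, K ≤ i + j → g i j = 0) :
    ∑ i ∈ range K, ∑ j ∈ range K, g i j = ∑ k ∈ range K, ∑ i ∈ range (k + 1), g i (k - i) := by
  rw [sum_range_diag_flip]
  refine sum_congr rfl fun i _ => (sum_subset (range_subset_range.2 (by omega)) ?_).symm
  intro j _ hj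
  exact hg i j (by simp at hj; omega)

theorem box_ext {M : Type} [AddCommMonoid M] (K H H' : ℕ) (F : ℕ → ℕ → M) (h1 : K ≤ H)
    (h2 : K ≤ H') (hF : ∀ i j, K ≤ i + j → F i j = 0) :
    ∑ i ∈ range H, ∑ j ∈ range H', F i j = ∑ i ∈ range K, ∑ j ∈ range K, F i j := by
  rw [← sum_subset (range_subset_range.2 h1)]
  · refine sum_congr rfl fun i _ => (sum_subset (range_subset_range.2 h2) ?_).symm
    intro j _ hj
    exact hF i j (by simp at hj; omega)
  · intro i _ hi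
    exact sum_eq_zero fun j _ => hF i j (by simp at hi; omega)

section
variable {R : Type} [CommRing R] [Algebra ℚ R]

/-- The truncated free energy. -/
def freeU (N : ℕ) (A : ℕ → ℕ → ℚ) (e θ ε x : R) : R :=
  ∑ h ∈ range (N + 6), ∑ n ∈ range (N + 7),
    A h n • (e ^ h * θ ^ (3 * h + n - 3) * ε ^ (5 * h + 2 * n - 5) * x ^ n)

theorem pde_U {N : ℕ} {A : ℕ → ℕ → ℚ} (hA : Rec N A) {D T : R →ₗ[ℚ] R} (hD : IsDer D)
    (hT : IsDer T) {e θ ε x : R} (hε : ε ^ N = 0) (d1 : D e = 0) (d2 : D θ = 0) (d3 : D ε = 0)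
    (d4 : D x = 1) (t1 : T e = 0) (t2 : T θ = 1) (t3 : T ε = 0) :
    2 * T (freeU N A e θ ε x) = 2 * T x * D (freeU N A e θ ε x) +
      ε * (e * D (D (freeU N A e θ ε x)) + D (freeU N A e θ ε x) * D (freeU N A e θ ε x)) := by
  set f : ℕ → ℕ → R := fun h n =>
    e ^ h * θ ^ (3 * h + n - 4) * ε ^ (5 * h + 2 * n - 5) * x ^ n with hf
  have f0 : ∀ h n, N + 5 ≤ 5 * h + 2 * n → f h n = 0 := fun h n hh => by
    simp only [hf]; rw [pow_eq_zero_of_le (m := N) (by omega) hε]; simp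
  have f1 : ∀ (C : ℕ → ℕ → ℚ) h n, N + 5 ≤ h + n → C h n • f h n = 0 := fun C h n hh => by
    rw [f0 h n (by omega), smul_zero]
  have sm : ∀ (c : ℚ) (k : ℕ) (z : R), c • ((k : R) * z) = (c * k) • z := fun c k z => by
    rw [mul_smul, ← map_natCast (algebraMap ℚ R), ← Algebra.smul_def]
  have hDU : D (freeU N A e θ ε x) = ∑ h ∈ range (N + 6), ∑ n ∈ range (N + 6),
      (((n : ℚ) + 1) * A h (n + 1)) •
        (e ^ h * θ ^ (3 * h + n - 2) * ε ^ (5 * h + 2 * n - 3) * x ^ n) := by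
    simp only [freeU, map_sum, map_smul]
    refine sum_congr rfl fun h _ => ?_
    rw [sum_range_succ']
    simp only [hD _ _, hD.pow0 d1, hD.pow0 d2, hD.pow0 d3, hD.pow x, d4, Nat.cast_zero,
      zero_mul, mul_zero, add_zero, zero_add, smul_zero, mul_one, Nat.add_sub_cancel]
    refine sum_congr rfl fun n _ => ?_
    rw [mul_left_comm, sm, show 3 * h + (n + 1) - 3 = 3 * h + n - 2 by omega,
      show 5 * h + 2 * (n + 1) - 5 = 5 * h + 2 * n - 3 by omega]
    push_cast; rw [mul_comm (A _ _)]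
  have hTU : T (freeU N A e θ ε x) = T x * D (freeU N A e θ ε x) +
      ∑ h ∈ range (N + 5), ∑ n ∈ range (N + 5), (((3 * h + n - 3 : ℕ) : ℚ) * A h n) • f h n := by
    rw [← box_ext (N + 5) (N + 6) (N + 7) _ (by omega) (by omega) (f1 _)]
    simp only [freeU, map_sum, map_smul, mul_sum, ← sum_add_distrib]
    refine sum_congr rfl fun h _ => sum_congr rfl fun n _ => ?_
    simp only [hD _ _, hD.pow0 d1, hD.pow0 d2, hD.pow0 d3, hD.pow x, d4, hT _ _, hT.pow0 t1,
      hT.pow0 t3, hT.pow x, hT.pow θ, t2, hf, show 3 * h + n - 3 - 1 = 3 * h + n - 4 by omega]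
    rw [mul_comm _ (A h n), ← sm, mul_smul_comm, ← smul_add]
    congr 1; ring
  have hDD : ε * (e * D (D (freeU N A e θ ε x))) = ∑ h ∈ range (N + 5), ∑ n ∈ range (N + 5),
      (if h = 0 then 0 else ((n : ℚ) + 1) * (n + 2) * A (h - 1) (n + 2)) • f h n := by
    rw [← box_ext (N + 5) (N + 7) (N + 5) _ (by omega) (by omega) (f1 _), sum_range_succ', hDU]
    simp only [map_sum, map_smul, mul_sum, if_true, zero_smul, sum_const_zero, add_zero]
    refine sum_congr rfl fun h _ => ?_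
    rw [sum_range_succ']
    simp only [hD _ _, hD.pow0 d1, hD.pow0 d2, hD.pow0 d3, hD.pow x, d4, Nat.cast_zero,
      zero_mul, mul_zero, add_zero, zero_add, smul_zero, mul_one, Nat.add_sub_cancel,
      Nat.succ_ne_zero, if_false]
    refine sum_congr rfl fun n _ => ?_
    by_cases h0 : h = 0 ∧ n = 0
    · obtain ⟨rfl, rfl⟩ := h0; simp [hA.z02]
    rw [mul_left_comm (_ * _ * _), sm, mul_smul_comm, mul_smul_comm]
    simp only [hf]
    rw [show 3 * (h + 1) + n - 4 = 3 * h + (n + 1) - 2 by omega,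
      show 5 * (h + 1) + 2 * n - 5 = 5 * h + 2 * (n + 1) - 3 + 1 by omega]
    congr 1
    · push_cast; ring
    · ring
  have hP : ε * (D (freeU N A e θ ε x) * D (freeU N A e θ ε x)) =
      ∑ h ∈ range (N + 5), ∑ n ∈ range (N + 5), (∑ i ∈ range (h + 1), ∑ j ∈ range (n + 1),
        ((j : ℚ) + 1) * A i (j + 1) * ((((n - j : ℕ) : ℚ) + 1) * A (h - i) (n - j + 1))) •
          f h n := by
    rw [← box_ext (N + 5) (N + 6) (N + 6) _ (by omega) (by omega) (f1 _), hDU, sum_mul_sum,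
      mul_sum]
    have key : ∀ i i' j j' : ℕ, ε * ((((j : ℚ) + 1) * A i (j + 1)) •
        (e ^ i * θ ^ (3 * i + j - 2) * ε ^ (5 * i + 2 * j - 3) * x ^ j) *
        (((j' : ℚ) + 1) * A i' (j' + 1)) •
        (e ^ i' * θ ^ (3 * i' + j' - 2) * ε ^ (5 * i' + 2 * j' - 3) * x ^ j')) =
        (((j : ℚ) + 1) * A i (j + 1) * (((j' : ℚ) + 1) * A i' (j' + 1))) •
          f (i + i') (j + j') := by
      intro i i' j j'
      have z : ∀ i j, i = 0 ∧ j ≤ 1 → A i (j + 1) = 0 := by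
        rintro i j ⟨rfl, hj⟩
        interval_cases j
        exacts [hA.z01, hA.z02]
      by_cases h1 : i = 0 ∧ j ≤ 1
      · simp [z _ _ h1]
      by_cases h2 : i' = 0 ∧ j' ≤ 1
      · simp [z _ _ h2]
      rw [smul_mul_smul_comm, mul_smul_comm]
      simp only [hf]
      rw [show 3 * (i + i') + (j + j') - 4 = 3 * i + j - 2 + (3 * i' + j' - 2) by omega,
        show 5 * (i + i') + 2 * (j + j') - 5 = 5 * i + 2 * j - 3 + (5 * i' + 2 * j' - 3) + 1 by
          omega]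
      congr 1; ring
    simp only [mul_sum, sum_mul, key]
    rw [conv1]
    · refine sum_congr rfl fun h hh => ?_
      simp only [sum_smul]
      rw [sum_comm (s := range (N + 6))]
      refine sum_congr rfl fun i hi => ?_
      rw [sum_comm, conv1]
      · refine sum_congr rfl fun n _ => sum_congr rfl fun j hj => ?_
        rw [show i + (h - i) = h by simp at hi; omega, show j + (n - j) = n by simp at hj; omega]
      · intro j j' hj
        rw [f0 (i + (h - i)) (j + j') (by omega), smul_zero]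
    · intro i i' hi
      exact sum_eq_zero fun j _ => sum_eq_zero fun j' _ => by
        rw [f0 (i + i') _ (by omega), smul_zero]
  rw [mul_add ε, hDD, hP, hTU, mul_add, mul_assoc, mul_sum, ← sum_add_distrib]
  congr 1
  refine sum_congr rfl fun h _ => ?_
  rw [mul_sum, ← sum_add_distrib]
  refine sum_congr rfl fun n _ => ?_
  by_cases hh : 5 * h + 2 * n < N + 5
  · rw [← add_smul, ← hA.step h n hh, mul_assoc, mul_smul (2 : ℚ), two_smul, two_mul]
  · simp [f0 h n (by omega)]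

/-- The solution with a linear source. -/
def freeW (N : ℕ) (A : ℕ → ℕ → ℚ) (e θ ε φ P c : R) : R :=
  freeU N A e θ ε (φ - θ * ε * c) + P - c * φ + (2⁻¹ : ℚ) • (θ * ε * c ^ 2)

theorem pde_W {N : ℕ} {A : ℕ → ℕ → ℚ} (hA : Rec N A) {D T : R →ₗ[ℚ] R} (hD : IsDer D)
    (hT : IsDer T) {e θ ε φ P c : R} (hε : ε ^ N = 0) (d1 : D e = 0) (d2 : D θ = 0)
    (d3 : D ε = 0) (d4 : D φ = 1) (d5 : D P = 0) (d6 : D c = 0) (t1 : T e = 0) (t2 : T θ = 1)
    (t3 : T ε = 0) (t4 : T φ = 0) (t5 : T P = 0) (t6 : T c = 0) :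
    T (freeW N A e θ ε φ P c) = ε * ((2⁻¹ : ℚ) • e * D (D (freeW N A e θ ε φ P c)) +
      (2⁻¹ : ℚ) • (D (freeW N A e θ ε φ P c) * D (freeW N A e θ ε φ P c))) := by
  have h := pde_U hA hD hT (x := φ - θ * ε * c) hε d1 d2 d3
    (by simp [hD _ _, d2, d3, d4, d6]) t1 t2 t3
  have h2 := two_half (B := R)
  have hx : T (φ - θ * ε * c) = -(ε * c) := by simp [hT _ _, t2, t3, t4, t6]
  rw [hx] at h
  have e1 : D (freeW N A e θ ε φ P c) = D (freeU N A e θ ε (φ - θ * ε * c)) - c := by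
    simp [freeW, hD _ _, d2, d3, d4, d5, d6, hD.pow0 d6]
  have e2 : T (freeW N A e θ ε φ P c) =
      T (freeU N A e θ ε (φ - θ * ε * c)) + (2⁻¹ : ℚ) • (ε * c ^ 2) := by
    simp [freeW, hT _ _, t2, t3, t4, t5, t6, hT.pow0 t6]
  rw [e2, e1, map_sub, d6]
  simp only [Algebra.smul_def]
  generalize T (freeU N A e θ ε (φ - θ * ε * c)) = u at *
  generalize D (D (freeU N A e θ ε (φ - θ * ε * c))) = w at *
  generalize D (freeU N A e θ ε (φ - θ * ε * c)) = v at *
  linear_combination (algebraMap ℚ R 2⁻¹) * h - u * h2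

theorem pow_succ_ap (L : R →ₗ[ℚ] R) (n : ℕ) (x : R) : (L ^ (n + 1)) x = L ((L ^ n) x) := by
  rw [pow_succ', Module.End.mul_apply]

theorem pow_succ_ap' (L : R →ₗ[ℚ] R) (n : ℕ) (x : R) : (L ^ (n + 1)) x = (L ^ n) (L x) := by
  rw [pow_succ, Module.End.mul_apply]

/-- Solution of the linear flow. -/
theorem flow {L T : R →ₗ[ℚ] R} (hT : IsDer T) (ev0 ev1 : R →ₐ[ℚ] R) {θ ε Z : R} {N : ℕ}
    (hε : ε ^ (N + 1) = 0) (t2 : T θ = 1) (t3 : T ε = 0) (c1 : ∀ x, T (L x) = L (T x))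
    (c2 : ∀ x, L (ε * x) = ε * L x) (c3 : ∀ x, ev0 (L x) = L (ev0 x)) (e0 : ev0 θ = 0)
    (e1 : ev1 θ = 1) (e2 : ev0 ε = ε) (hc : ∀ x, T x = 0 → ev1 x = ev0 x)
    (hZ : T Z = ε * L Z) :
    ev1 Z = ∑ n ∈ range (N + 1), ((n.factorial : ℚ)⁻¹) • (ε ^ n * (L ^ n) (ev0 Z)) := by
  have a1 : ∀ n, T ((L ^ n) Z) = ε * (L ^ (n + 1)) Z := fun n => by
    induction n with
    | zero => simpa using hZ
    | succ n ih => rw [pow_succ_ap, c1, ih, c2, ← pow_succ_ap]
  have a2 : ∀ n, ev0 ((L ^ n) Z) = (L ^ n) (ev0 Z) := fun n => by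
    induction n with
    | zero => simp
    | succ n ih => rw [pow_succ_ap, c3, ih, ← pow_succ_ap]
  have := hc (∑ n ∈ range (N + 1),
    ((n.factorial : ℚ)⁻¹) • ((1 - θ) ^ n * ε ^ n * (L ^ n) Z)) (by
      set w : ℕ → R := fun n =>
        ((n.factorial : ℚ)⁻¹) • ((n : R) * ((1 - θ) ^ (n - 1) * ε ^ n * (L ^ n) Z)) with hw
      have : ∀ n, T (((n.factorial : ℚ)⁻¹) • ((1 - θ) ^ n * ε ^ n * (L ^ n) Z)) =
          w (n + 1) - w n := fun n => by
        simp only [hw, fac_succ, map_smul, hT _ _, hT.pow0 t3, hT.pow (1 - θ), map_sub, hT.one,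
          t2, a1, ← smul_sub, Nat.add_sub_cancel]
        congr 1; ring
      rw [map_sum]
      simp only [this, sum_range_sub]
      simp [hw, hε])
  rw [map_sum, map_sum, sum_range_succ'] at this
  simpa [e0, e1, e2, a2] using this

end

end Pool.Agent.FP.Z
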