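import Pool.Agent.FP.ZRec

/-! Programs for the rank certificate. -/

namespace Pool.Agent.FP.Z

open Fn

/-- Trees of terms (code, coefficient, residue). -/
inductive Tm
  | nil : Tm
  | leaf : ℕ → ℕ → ℕ → Tm
  | node : Tm → Tm → Tm

/-- Join two trees, dropping empty ones. -/
noncomputable def Tm.mk (l r : Tm) : Tm :=
  Tm.rec (motive := fun _ => Tm) r
    (fun _ _ _ => Tm.rec (motive := fun _ => Tm) l (fun _ _ _ => .node l r)
      (fun _ _ _ _ => .node l r) r)
    (fun _ _ _ _ => Tm.rec (motive := fun _ => Tm) l (fun _ _ _ => .node l r)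
      (fun _ _ _ _ => .node l r) r) l

/-- Sum over the leaves. -/
noncomputable def Tm.sum (f : ℕ → ℕ → ℕ → ℕ) (t : Tm) : ℕ :=
  Tm.rec (motive := fun _ => ℕ) 0 f (fun _ _ a b => Nat.add a b) t

/-- Test on the leaves. -/
noncomputable def Tm.all (f : ℕ → Bool) (t : Tm) : Bool :=
  Tm.rec (motive := fun _ => Bool) true (fun c _ _ => f c) (fun _ _ a b => and a b) t

/-- Evaluate `∑ f n * x ^ n`, `n < 12`. -/
noncomputable def pk (f : ℕ → ℕ) (x : ℕ) : ℕ :=
  Nat.rec 0 (fun n a => Nat.add a (Nat.mul (f n) (Nat.pow x n))) 12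

/-- The base used for polynomials. -/
def bq : ℕ := 2 ^ 1664

/-- Packed coefficients of the exponent. -/
noncomputable def gp (m : ℕ) : ℕ := pk (gm m) bq

/-- Coefficients of the scaled exponential. -/
def ec (g n : ℕ) : ℕ := (2 * g - 2) ^ n * (39916800 / n.factorial)

/-- A leaf. -/
noncomputable def lf (b code n : ℕ) : Tm :=
  .leaf code n (cond (Nat.beq b 0) (Nat.mod n 47) (Nat.sub 47 (Nat.mod n 47)))

/-- Enumeration of the terms of parity `b` of a relation. -/
noncomputable def dfs (b q q1 e0 M : ℕ) : ℕ → ℕ → ℕ → ℕ → ℕ → ℕ → Tm :=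
  Nat.rec (motive := fun _ => ℕ → ℕ → ℕ → ℕ → ℕ → ℕ → Tm)
    (fun _ _ r code par p => cond (and (Nat.beq r 0) (Nat.beq par b))
      (lf b code (Nat.div (Nat.mod (Nat.mul p e0) q1) q)) .nil)
    (fun M ih fuel => Nat.rec (motive := fun _ => ℕ → ℕ → ℕ → ℕ → ℕ → Tm)
      (fun _ r code par p => ih r 0 r code par p)
      (fun _ ihF c r code par p => Tm.mk (ih r 0 r code par p)
        (cond (Nat.ble M.succ r) (ihF c.succ (Nat.sub r M.succ) (Nat.mul code (pr M.succ))
          (Nat.sub 1 par) (Nat.mod (Nat.mul (Nat.mul (Nat.div del c.succ) (gp M.succ)) p) q1))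
          .nil)) fuel) M

/-- The terms of parity `b` of the relation `(r, s)`. -/
noncomputable def trm (g r s b : ℕ) : Tm :=
  dfs b (Nat.pow bq s) (Nat.pow bq s.succ) (pk (ec g) bq) r r 0 r 1 0 1

/-- `m` in each of `n` digits. -/
def low (m n : ℕ) : ℕ := m * ((4194304 ^ n - 1) / 4194303)

/-- The last step of the elimination. -/
noncomputable def fin (n x u d : ℕ) : Bool :=
  and (and (Nat.blt 0 d) (Nat.beq (Nat.land u 4194303) 1)) (and (Nat.beq (Nat.land u (low 63 n)) u)
    ((fun y => and (Nat.beq (Nat.mod y 47) 0)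
      (Nat.beq (Nat.land (Nat.div y 47) (low 65535 n)) (Nat.div y 47)))
      (Nat.add x (Nat.mul (Nat.sub 47 d) u))))

/-- Elimination of a row. -/
noncomputable def elim (n : ℕ) (U : List ℕ) : ℕ → ℕ → Bool :=
  List.rec (motive := fun _ => ℕ → ℕ → Bool) (fun _ _ => false)
    (fun u _ ih i x => force (Nat.mod (Nat.land x 4194303) 47) fun d =>
      Nat.rec (motive := fun _ => Bool) (fin n x u d)
        (fun i _ => ih i (Nat.shiftRight
          (cond (Nat.beq d 0) x (Nat.add x (Nat.mul (Nat.sub 47 d) u))) 22)) i) U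

section
variable (N : ℕ) (v col cd : ℕ → ℕ) (U : List ℕ)

/-- The code is in the table. -/
noncomputable def okc (c : ℕ) : Bool := and (Nat.beq (cd (col c)) c) (Nat.blt (col c) N)

/-- The packed row. -/
noncomputable def row (t : Tm) (c0 : ℕ) : ℕ :=
  t.sum fun c _ m => Nat.shiftLeft m (Nat.mul 22 (force (Nat.mul c c0) col))

/-- The exact pairing. -/
noncomputable def dt (t : Tm) (c0 : ℕ) : ℕ := t.sum fun c n _ => Nat.mul n (force (Nat.mul c c0) v)

/-- All checks for one row. -/
noncomputable def chk1 (t0 t1 : Tm) (i c0 : ℕ) : Bool :=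
  and (and (t0.all fun c => force (Nat.mul c c0) (okc N col cd))
    (t1.all fun c => force (Nat.mul c c0) (okc N col cd)))
    (and (Nat.beq (dt v t0 c0) (dt v t1 c0))
      (elim (Nat.sub N i) U i (Nat.add (row col t0 c0) (row col t1 c0))))

/-- All checks for a group of rows. -/
noncomputable def chk (t0 t1 : Tm) (i0 : ℕ) (l : List ℕ) : Bool :=
  and (Nat.ble (Nat.add (t0.sum fun _ _ _ => 1) (t1.sum fun _ _ _ => 1)) 5000)
    (List.rec (motive := fun _ => ℕ → Bool) (fun _ => true)
      (fun c0 _ ih i => and (chk1 N v col cd U t0 t1 i c0) (force i.succ ih)) l i0)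

end

end Pool.Agent.FP.Z
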