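import Pool.Agent.FP.ZProg

/-! Soundness of the packed elimination. -/

namespace Pool.Agent.FP.Z

open Fn Finset

/-- Value of a digit string. -/
def dv (d : ℕ → ℕ) (n : ℕ) : ℕ := ∑ l ∈ range n, d l * 4194304 ^ l

theorem dv_succ (d : ℕ → ℕ) (n : ℕ) : dv d (n + 1) = d 0 + 4194304 * dv (fun l => d (l + 1)) n := by
  rw [dv, sum_range_succ', dv, mul_sum, add_comm]
  simp only [pow_zero, mul_one, pow_succ]
  congr 1
  exact sum_congr rfl fun _ _ => by ring

theorem dv_inj (n : ℕ) : ∀ d e : ℕ → ℕ, (∀ l, d l < 4194304) → (∀ l, e l < 4194304) →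
    dv d n = dv e n → ∀ l < n, d l = e l := by
  induction n with
  | zero => intro _ _ _ _ _ l hl; omega
  | succ n ih =>
    intro d e hd he h l hl
    rw [dv_succ, dv_succ] at h
    have h0 := hd 0
    have h1 := he 0
    rcases l with _ | l
    · omega
    · exact ih _ _ (fun l => hd (l + 1)) (fun l => he (l + 1)) (by omega) l (by omega)

theorem low_succ (m n : ℕ) : low m (n + 1) = m + 4194304 * low m n := by
  have h := fun n => Nat.geomSum_eq (m := 4194304) (by norm_num) n
  simp only [low]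
  rw [show (4194303 : ℕ) = 4194304 - 1 from rfl, ← h, ← h, sum_range_succ', mul_add, mul_sum,
    mul_sum, mul_sum, add_comm]
  simp only [pow_zero, mul_one, pow_succ]
  congr 1
  exact sum_congr rfl fun _ _ => by ring

theorem low_dig (m : ℕ) (hm : m < 4194304) (n : ℕ) : ∀ x, x &&& low m n = x →
    ∃ d : ℕ → ℕ, (∀ l, d l ≤ m) ∧ x = dv d n := by
  induction n with
  | zero => intro x h; exact ⟨fun _ => 0, by simp, by simpa [low, dv] using h.symm⟩
  | succ n ih =>
    intro x h
    have h1 := congrArg (· / 2 ^ 22) h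
    have h2 := congrArg (· % 2 ^ 22) h
    simp only [Nat.and_div_two_pow, Nat.and_mod_two_pow, low_succ] at h1 h2
    rw [show (m + 4194304 * low m n) / 2 ^ 22 = low m n by omega] at h1
    rw [show (m + 4194304 * low m n) % 2 ^ 22 = m by omega] at h2
    obtain ⟨d, hd, hx⟩ := ih _ h1
    refine ⟨fun l => Nat.casesOn l (x % 2 ^ 22) d, ?_, ?_⟩
    · rintro (_ | l)
      · exact h2 ▸ Nat.and_le_right
      · exact hd l
    · rw [dv_succ]
      change x = x % 2 ^ 22 + 4194304 * dv d n
      rw [← hx]; omega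

variable (z : ℕ → ℤ)

/-- `x` packs `n` digits at most `B` whose pairing with `z (k + ·)` is `t` modulo `47`. -/
def Rep (k n x B : ℕ) (t : ℤ) : Prop :=
  ∃ d : ℕ → ℕ, (∀ l, d l ≤ B) ∧ x = dv d n ∧ 47 ∣ ∑ l ∈ range n, d l * z (k + l) - t

theorem Rep.add {k n x y B B' : ℕ} {t t' : ℤ} (h : Rep z k n x B t) (h' : Rep z k n y B' t')
    (c : ℕ) : Rep z k n (x + c * y) (B + c * B') (t + c * t') := by
  obtain ⟨d, h1, rfl, h3⟩ := h
  obtain ⟨e, h1', rfl, h3'⟩ := h'
  refine ⟨fun l => d l + c * e l, fun l => add_le_add (h1 l) (Nat.mul_le_mul_left _ (h1' l)), ?_, ?_⟩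
  · simp only [dv, mul_sum, ← sum_add_distrib]
    exact sum_congr rfl fun _ _ => by ring
  · have := h3.add (h3'.mul_left c)
    refine (congrArg (47 ∣ ·) ?_).mp this
    have : ∑ l ∈ range n, ((d l + c * e l : ℕ) : ℤ) * z (k + l) =
        ∑ l ∈ range n, d l * z (k + l) + c * ∑ l ∈ range n, e l * z (k + l) := by
      rw [mul_sum, ← sum_add_distrib]
      exact sum_congr rfl fun _ _ => by push_cast; ring
    rw [this]; ring

theorem Rep.mono {k n x B B' : ℕ} {t t' : ℤ} (h : Rep z k n x B t) (hB : B ≤ B')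
    (ht : 47 ∣ t - t') : Rep z k n x B' t' := by
  obtain ⟨d, h1, h2, h3⟩ := h
  exact ⟨d, fun l => (h1 l).trans hB, h2, by simpa using h3.add ht⟩

theorem Rep.zero (k n : ℕ) : Rep z k n 0 0 0 := ⟨fun _ => 0, by simp, by simp [dv], by simp⟩

theorem Rep.unit {n j : ℕ} (h : j < n) (m : ℕ) : Rep z 0 n (m <<< (22 * j)) m (m * z j) := by
  refine ⟨fun l => if l = j then m else 0, fun l => by simp only; split_ifs <;> simp, ?_, ?_⟩
  · simp [dv, h, Nat.shiftLeft_eq, pow_mul]
  · simp [h]

theorem Rep.shift {k n x B : ℕ} (h : Rep z k (n + 1) x B 0) (hB : B < 4194304)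
    (h0 : x % 4194304 % 47 = 0) : Rep z (k + 1) n (x >>> 22) B 0 := by
  obtain ⟨d, h1, h2, h3⟩ := h
  have := h1 0
  rw [dv_succ] at h2
  refine ⟨fun l => d (l + 1), fun l => h1 _, by rw [Nat.shiftRight_eq_div_pow]; omega, ?_⟩
  rw [sum_range_succ', sub_zero] at h3
  have h5 : x % 4194304 = d 0 := by omega
  rw [h5] at h0
  have h4 : (47 : ℤ) ∣ d 0 := by omega
  have := h3.sub (h4.mul_right (z (k + 0)))
  simpa [add_assoc, add_comm 1] using this

/-- A normalised pivot row. -/
def Good (k n u : ℕ) : Prop := Rep z k n u 63 0 ∧ u % 4194304 = 1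

theorem land_eq (x : ℕ) : Nat.land x 4194303 = x % 4194304 :=
  Nat.and_two_pow_sub_one_eq_mod x 22

theorem fin_sound {k n x u B : ℕ} (h : Rep z k n x B 0) (hB : B + 2961 < 4194304)
    (hf : fin n x u (x % 4194304 % 47) = true) : Good z k n u := by
  simp only [fin, Bool.and_eq_true, Nat.blt_eq, Nat.beq_eq, land_eq] at hf
  obtain ⟨⟨h1, h2⟩, h3, h4, h5⟩ := hf
  refine ⟨?_, h2⟩
  obtain ⟨e, he, hu⟩ := low_dig 63 (by norm_num) n u h3
  obtain ⟨q, hq, hy⟩ := low_dig 65535 (by norm_num) n _ h5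
  obtain ⟨d, hd, hx, hz⟩ := h
  set c := 47 - x % 4194304 % 47 with hc
  have hc1 : c ≤ 46 := by omega
  have hc0 : 0 < c := by omega
  have key := dv_inj n (fun l => d l + c * e l) (fun l => 47 * q l)
    (fun l => by have := hd l; have := Nat.mul_le_mul hc1 (he l); omega)
    (fun l => by have := hq l; omega) (by
      have e1 : dv (fun l => d l + c * e l) n = x + c * u := by
        simp only [hx, hu, dv, mul_sum, ← sum_add_distrib]
        exact sum_congr rfl fun _ _ => by ring
      have e2 : dv (fun l => 47 * q l) n = 47 * dv q n := by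
        simp only [dv, mul_sum, mul_assoc]
      rw [e1, e2, ← hy]
      change (x + c * u) % 47 = 0 at h4
      change x + c * u = 47 * ((x + c * u) / 47)
      omega)
  refine ⟨e, he, hu, ?_⟩
  have h6 : (47 : ℤ) ∣ ∑ l ∈ range n, ((d l + c * e l : ℕ) : ℤ) * z (k + l) :=
    dvd_sum fun l hl => by
      rw [key l (mem_range.1 hl)]; push_cast; exact (dvd_mul_right _ _).mul_right _
  have h7 : ∑ l ∈ range n, ((d l + c * e l : ℕ) : ℤ) * z (k + l) =
      ∑ l ∈ range n, d l * z (k + l) + c * ∑ l ∈ range n, e l * z (k + l) := by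
    rw [mul_sum, ← sum_add_distrib]
    exact sum_congr rfl fun _ _ => by push_cast; ring
  rw [h7, dvd_add_right (by simpa using hz)] at h6
  have hp : Prime (47 : ℤ) := Int.prime_iff_natAbs_prime.2 (by norm_num)
  rw [sub_zero]
  exact (hp.dvd_or_dvd h6).resolve_left (by omega)

theorem elim_zero (n u x : ℕ) (U : List ℕ) :
    elim n (u :: U) 0 x = fin n x u (x % 4194304 % 47) := by
  have : elim n (u :: U) 0 x = force (Nat.mod (Nat.land x 4194303) 47) fun d => fin n x u d := rfl
  rw [this, force_eq, land_eq]; rfl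

theorem elim_succ (n u x i : ℕ) (U : List ℕ) : elim n (u :: U) (i + 1) x = elim n U i
    ((if x % 4194304 % 47 = 0 then x else x + (47 - x % 4194304 % 47) * u) >>> 22) := by
  have : elim n (u :: U) (i + 1) x = force (Nat.mod (Nat.land x 4194303) 47) fun d => elim n U i
    (Nat.shiftRight (cond (Nat.beq d 0) x (Nat.add x (Nat.mul (Nat.sub 47 d) u))) 22) := rfl
  rw [this, force_eq, land_eq]
  change elim n U i ((cond (Nat.beq (x % 4194304 % 47) 0) x
    (x + (47 - x % 4194304 % 47) * u)) >>> 22) = _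
  generalize x % 4194304 % 47 = d
  cases d <;> rfl

theorem elim_sound {n : ℕ} (U : List ℕ) : ∀ (i k x B : ℕ),
    (∀ j < i, Good z (k + j) (n + i - j) (U.getD j 0)) → Rep z k (n + i) x B 0 →
    B + 2961 * (i + 1) < 4194304 → elim n U i x = true → Good z (k + i) n (U.getD i 0) := by
  induction U with
  | nil => intro i k x B _ _ _ h; exact absurd h (by simp [elim])
  | cons u U ih =>
    intro i k x B h1 h2 h3 h4
    rcases i with _ | i
    · exact fin_sound z h2 (by omega) (by rwa [elim_zero] at h4)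
    have b1 : B + 2961 + 2961 * (i + 1) < 4194304 := by linarith
    have b2 : B + 2961 < 4194304 := lt_of_le_of_lt (Nat.le_add_right _ _) b1
    rw [elim_succ] at h4
    clear h3
    have g0 := h1 0 (by omega)
    simp only [add_zero, Nat.sub_zero, List.getD_cons_zero] at g0
    have := ih i (k + 1) _ (B + 2961) (fun j hj => by
      have := h1 (j + 1) (by omega)
      rwa [List.getD_cons_succ, show k + (j + 1) = k + 1 + j by omega,
        show n + (i + 1) - (j + 1) = n + i - j by omega] at this) ?_ b1 h4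
    · rwa [List.getD_cons_succ, show k + (i + 1) = k + 1 + i by omega]
    by_cases hd : x % 4194304 % 47 = 0
    · rw [if_pos hd]
      exact (h2.mono z (Nat.le_add_right _ _) (by simp)).shift z b2 hd
    · rw [if_neg hd]
      refine ((h2.add z g0.1 (47 - x % 4194304 % 47)).mono z (B' := B + 2961) (by clear h4; omega)
        (by simp)).shift z b2 ?_
      clear h4 b1
      obtain ⟨d, hd1, hd2, -⟩ := h2
      obtain ⟨⟨e, he1, he2, -⟩, he3⟩ := g0
      have := hd1 0
      have := he1 0
      rw [← add_assoc, dv_succ] at hd2 he2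
      have e0 : e 0 = 1 := by omega
      have e1 : x % 4194304 = d 0 := by omega
      rw [e1] at hd ⊢
      generalize hc : 47 - d 0 % 47 = c
      rw [he2, e0, mul_add, mul_left_comm, hd2]
      generalize c * dv _ _ = w
      generalize dv _ _ = w'
      have : (d 0 + 4194304 * w' + (c * 1 + 4194304 * w)) % 4194304 = d 0 + c := by omega
      omega

theorem back {N : ℕ} (U : ℕ → ℕ) (h : ∀ k, k + 1 < N → Good z k (N - k) (U k))
    (h0 : z (N - 1) = 0) : ∀ j l, N ≤ l + j + 1 → l < N → 47 ∣ z l := by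
  intro j
  induction j with
  | zero => intro l h1 h2; rw [show l = N - 1 by omega, h0]; simp
  | succ j ih =>
    intro l h1 h2
    by_cases hl : N ≤ l + j + 1
    · exact ih l hl h2
    obtain ⟨⟨d, hd, hu, hz⟩, h1⟩ := h l (by omega)
    obtain ⟨n, hn⟩ : ∃ n, N - l = n + 1 := ⟨N - l - 1, by omega⟩
    have := hd 0
    rw [hn, dv_succ] at hu
    have d0 : d 0 = 1 := by omega
    rw [hn, sum_range_succ', sub_zero, d0, dvd_add_right (dvd_sum fun i hi =>
      (ih _ (by omega) (by simp at hi; omega)).mul_left _)] at hz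
    simpa using hz

end Pool.Agent.FP.Z
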