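import Mathlib

/-! Derivations, second order operators, exponentials and base change. -/

namespace Pool.Agent.FP.Z

open TensorProduct Finset

section
variable {B : Type} [CommRing B] [Algebra ℚ B]

/-- Leibniz rule. -/
def IsDer (D : B →ₗ[ℚ] B) : Prop := ∀ x y, D (x * y) = D x * y + x * D y

/-- The bracket of an operator. -/
def Gam2 (L : B →ₗ[ℚ] B) : B →ₗ[ℚ] B →ₗ[ℚ] B :=
  LinearMap.mk₂ ℚ (fun x y => L (x * y) - L x * y - x * L y)
    (by intros; simp only [add_mul, map_add]; ring)
    (by intros; simp only [smul_mul_assoc, map_smul, smul_sub])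
    (by intros; simp only [mul_add, map_add]; ring)
    (by intros; simp only [mul_smul_comm, map_smul, smul_sub])

theorem Gam2_apply (L : B →ₗ[ℚ] B) (x y : B) :
    Gam2 L x y = L (x * y) - L x * y - x * L y := rfl

theorem Gam2_comm (L : B →ₗ[ℚ] B) (x y : B) : Gam2 L x y = Gam2 L y x := by
  simp only [Gam2_apply, mul_comm y x]; ring

theorem L_mul (L : B →ₗ[ℚ] B) (x y : B) : L (x * y) = L x * y + x * L y + Gam2 L x y := by
  simp only [Gam2_apply]; ring

/-- Second order operators. -/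
def IsSO (L : B →ₗ[ℚ] B) : Prop := ∀ x, IsDer (Gam2 L x)

theorem IsDer.one {D : B →ₗ[ℚ] B} (h : IsDer D) : D 1 = 0 := by
  have := h 1 1
  simp only [mul_one, one_mul] at this
  linear_combination -this

theorem IsDer.pow {D : B →ₗ[ℚ] B} (h : IsDer D) (x : B) (n : ℕ) :
    D (x ^ n) = (n : B) * x ^ (n - 1) * D x := by
  induction n with
  | zero => simp [h.one]
  | succ n ih =>
    rw [pow_succ, h, ih]
    cases n with
    | zero => simp
    | succ n => simp only [Nat.add_sub_cancel]; push_cast; ring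

theorem IsDer.pow0 {D : B →ₗ[ℚ] B} (h : IsDer D) {x : B} (hx : D x = 0) (n : ℕ) :
    D (x ^ n) = 0 := by rw [h.pow, hx, mul_zero]

theorem IsDer.alg {D : B →ₗ[ℚ] B} (h : IsDer D) (c : ℚ) : D (algebraMap ℚ B c) = 0 := by
  rw [Algebra.algebraMap_eq_smul_one, map_smul, h.one, smul_zero]

theorem IsDer.nat {D : B →ₗ[ℚ] B} (h : IsDer D) (c : ℕ) : D (c : B) = 0 := by
  rw [← map_natCast (algebraMap ℚ B), h.alg]

theorem fac_succ (i : ℕ) (z : B) :
    (((i + 1).factorial : ℚ)⁻¹) • (((i + 1 : ℕ) : B) * z) = ((i.factorial : ℚ)⁻¹) • z := by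
  rw [← map_natCast (algebraMap ℚ B), ← Algebra.smul_def, smul_smul, Nat.factorial_succ]
  congr 1
  push_cast
  field_simp

theorem IsDer.exp {D : B →ₗ[ℚ] B} (h : IsDer D) {x : B} (hx : IsNilpotent x) :
    D (IsNilpotent.exp x) = D x * IsNilpotent.exp x := by
  obtain ⟨k, hk⟩ := hx
  have h1 : x ^ (k + 1) = 0 := by rw [pow_succ, hk, zero_mul]
  conv_lhs => rw [IsNilpotent.exp_eq_sum h1]
  rw [IsNilpotent.exp_eq_sum hk, map_sum, sum_range_succ', mul_sum]
  simp only [map_smul, h.pow, Nat.add_sub_cancel, Nat.cast_zero, zero_mul, smul_zero, add_zero]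
  refine sum_congr rfl fun i _ => ?_
  rw [mul_assoc, fac_succ, mul_smul_comm, mul_comm]

theorem IsSO.one {L : B →ₗ[ℚ] B} (h : IsSO L) : L 1 = 0 := by
  have := L_mul L 1 1
  rw [(h 1).one] at this
  simp only [mul_one, one_mul] at this
  linear_combination -this

theorem two_half : 2 * algebraMap ℚ B 2⁻¹ = 1 := by
  rw [← map_ofNat (algebraMap ℚ B) 2, ← map_mul]; norm_num

theorem IsSO.pow {L : B →ₗ[ℚ] B} (h : IsSO L) (x : B) (n : ℕ) :
    L (x ^ (n + 1)) = ((n + 1 : ℕ) : B) * (x ^ n * L x +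
      (2⁻¹ : ℚ) • ((n : B) * (x ^ (n - 1) * Gam2 L x x))) := by
  have h2 := two_half (B := B)
  induction n with
  | zero => simp
  | succ n ih =>
    rw [pow_succ' x (n + 1), L_mul, ih, (h x).pow]
    simp only [Algebra.smul_def]
    cases n with
    | zero =>
      simp only [zero_add, Nat.cast_one, pow_zero, Nat.cast_zero, tsub_self, pow_one]
      push_cast
      linear_combination (-Gam2 L x x) * h2
    | succ n =>
      simp only [Nat.add_sub_cancel]
      push_cast
      linear_combination (-((n : B) + 2) * x ^ (n + 1) * Gam2 L x x) * h2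

theorem IsSO.exp {L : B →ₗ[ℚ] B} (h : IsSO L) {x : B} (hx : IsNilpotent x) :
    L (IsNilpotent.exp x) = (L x + (2⁻¹ : ℚ) • Gam2 L x x) * IsNilpotent.exp x := by
  obtain ⟨k, hk⟩ := hx
  have h1 : x ^ (k + 1) = 0 := by rw [pow_succ, hk, zero_mul]
  have h2 : x ^ (k + 1 + 1) = 0 := by rw [pow_succ, h1, zero_mul]
  conv_lhs => rw [IsNilpotent.exp_eq_sum h2]
  rw [map_sum, sum_range_succ', add_mul]
  simp only [map_smul, h.pow, pow_zero, h.one, smul_zero, add_zero, fac_succ, smul_add,
    sum_add_distrib]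
  congr 1
  · rw [IsNilpotent.exp_eq_sum h1, mul_sum]
    exact sum_congr rfl fun i _ => by rw [mul_smul_comm, mul_comm]
  · rw [IsNilpotent.exp_eq_sum hk, mul_sum, sum_range_succ']
    simp only [Nat.cast_zero, zero_mul, smul_zero, add_zero, Nat.add_sub_cancel]
    refine sum_congr rfl fun i _ => ?_
    rw [smul_comm, fac_succ, mul_smul_comm, smul_mul_assoc, smul_comm, mul_comm]

theorem IsSO.add {L L' : B →ₗ[ℚ] B} (h : IsSO L) (h' : IsSO L') : IsSO (L + L') := by
  intro x y z
  have := h x y z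
  have := h' x y z
  simp only [Gam2_apply, LinearMap.add_apply] at *
  linear_combination ‹L _ - _ - _ = _› + ‹L' _ - _ - _ = _›

theorem Gam2_add (L L' : B →ₗ[ℚ] B) (x y : B) :
    Gam2 (L + L') x y = Gam2 L x y + Gam2 L' x y := by
  simp only [Gam2_apply, LinearMap.add_apply]; ring

theorem Gam2_comp {D D' : B →ₗ[ℚ] B} (h : IsDer D) (h' : IsDer D') (x y : B) :
    Gam2 (D ∘ₗ D') x y = D x * D' y + D' x * D y := by
  simp only [Gam2_apply, LinearMap.comp_apply, h' x y, map_add, h _ _]; ring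

theorem IsDer.comp {D D' : B →ₗ[ℚ] B} (h : IsDer D) (h' : IsDer D') : IsSO (D ∘ₗ D') := by
  intro x y z
  simp only [Gam2_comp h h', h y z, h' y z]; ring

variable (Λ : Type) [CommRing Λ] [Algebra ℚ Λ]

theorem IsDer.lT {D : B →ₗ[ℚ] B} (h : IsDer D) : IsDer (D.lTensor Λ) := by
  intro x y
  induction x with
  | zero => simp
  | add x x' h1 h2 => simp only [add_mul, map_add, h1, h2]; ring
  | tmul a x =>
    induction y with
    | zero => simp
    | add y y' h1 h2 => simp only [mul_add, map_add, h1, h2]; ring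
    | tmul b y => simp [h x y, tmul_add]

theorem IsDer.rT {D : Λ →ₗ[ℚ] Λ} (h : IsDer D) : IsDer (D.rTensor B) := by
  intro x y
  induction x with
  | zero => simp
  | add x x' h1 h2 => simp only [add_mul, map_add, h1, h2]; ring
  | tmul a x =>
    induction y with
    | zero => simp
    | add y y' h1 h2 => simp only [mul_add, map_add, h1, h2]; ring
    | tmul b y => simp [h a b, add_tmul]

theorem Gam2_lT (L : B →ₗ[ℚ] B) (a b : Λ) (x y : B) :
    Gam2 (L.lTensor Λ) (a ⊗ₜ x) (b ⊗ₜ y) = (a * b) ⊗ₜ Gam2 L x y := by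
  simp [Gam2_apply, tmul_sub]

theorem IsSO.lT {L : B →ₗ[ℚ] B} (h : IsSO L) : IsSO (L.lTensor Λ) := by
  intro x y z
  induction x with
  | zero => simp
  | add x x' h1 h2 => simp only [map_add, LinearMap.add_apply, h1, h2]; ring
  | tmul a x =>
    induction y with
    | zero => simp
    | add y y' h1 h2 => simp only [add_mul, map_add, h1, h2]; ring
    | tmul b y =>
      induction z with
      | zero => simp
      | add z z' h1 h2 => simp only [mul_add, map_add, h1, h2]; ring
      | tmul c z =>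
        simp only [Algebra.TensorProduct.tmul_mul_tmul, Gam2_lT, h x y z, tmul_add]
        congr 2 <;> ring

end

/-- Integration `J` of local functionals, with the two contraction rules. -/
structure Sys {R B : Type} [CommRing R] [Algebra ℚ R] [CommRing B] [Algebra ℚ B]
    (J : R →ₗ[ℚ] B) (L : B →ₗ[ℚ] B) (D : R →ₗ[ℚ] R) (c u : R) : Prop where
  so : IsSO L
  der : IsDer D
  LJ : ∀ f, L (J f) = J (c * D (D f))
  GJ : ∀ f h, Gam2 L (J f) (J h) = J (D f * D h) - J (u * D f) * J (D h) - J (D f) * J (u * D h)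

theorem Sys.lT {R B : Type} [CommRing R] [Algebra ℚ R] [CommRing B] [Algebra ℚ B]
    {J : R →ₗ[ℚ] B} {L : B →ₗ[ℚ] B} {D : R →ₗ[ℚ] R} {c u : R} (s : Sys J L D c u)
    (Λ : Type) [CommRing Λ] [Algebra ℚ Λ] :
    Sys (J.lTensor Λ) (L.lTensor Λ) (D.lTensor Λ) (1 ⊗ₜ c) (1 ⊗ₜ u) where
  so := s.so.lT Λ
  der := s.der.lT Λ
  LJ f := by
    induction f with
    | zero => simp
    | add x y h1 h2 => simp only [map_add, mul_add, h1, h2]
    | tmul a f => simp [s.LJ]
  GJ f h := by
    induction f with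
    | zero => simp
    | add x y h1 h2 => simp only [map_add, mul_add, add_mul, LinearMap.add_apply, h1, h2]; ring
    | tmul a f =>
      induction h with
      | zero => simp
      | add x y h1 h2 => simp only [map_add, mul_add, h1, h2]; ring
      | tmul b h => simp [Gam2_lT, s.GJ, tmul_sub]

end Pool.Agent.FP.Z
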