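import Pool.Agent.FP.ZHeat

/-! The vanishing argument. -/

namespace Pool.Agent.FP.Z

open Finset

/-- The data of the Gaussian integral in the variables `a`, `b` and the odd variables. -/
structure Van (g : ℕ) (B B0 : Type) [CommRing B] [Algebra ℚ B] [CommRing B0] [Algebra ℚ B0] where
  L : B →ₗ[ℚ] B
  L0 : B →ₗ[ℚ] B
  Da : B →ₗ[ℚ] B
  Db : B →ₗ[ℚ] B
  N : B →ₗ[ℚ] B
  a : B
  b : B
  Θ : B
  ε : B
  y : B
  pr : B →ₐ[ℚ] B0
  K : ℕ
  hDa : IsDer Da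
  hDb : IsDer Db
  hN : IsDer N
  hL : ∀ x, L x = L0 x + Da (Db x)
  La : ∀ x, L (a * x) = a * L x + Db x
  Lb : ∀ x, L (b * x) = b * L x + Da x
  LΘ : ∀ x, L (Θ * x) = Θ * L x + (N x - (g : B) * x)
  Lε : ∀ x, L (ε * x) = ε * L x
  Ly : ∀ x, L (y * x) = y * L x
  cDa : ∀ x, L (Da x) = Da (L x)
  cDb : ∀ x, L (Db x) = Db (L x)
  cN : ∀ x, L (N x) = N (L x) + 2 * L0 x
  cL0 : ∀ x, L (L0 x) = L0 (L x)
  pra : pr a = 0
  prb : pr b = 0
  prΘ : pr Θ = 0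
  prN : ∀ x, pr (N x) = 0
  nil : ε ^ K = 0
  aa : Da a = 1
  ab : Da b = 0
  aΘ : Da Θ = 0
  aε : Da ε = 0
  ba : Db a = 0
  bb : Db b = 1
  bΘ : Db Θ = 0
  bε : Db ε = 0
  Na : N a = 0
  Nb : N b = 0
  NΘ : N Θ = 2 * Θ
  Nε : N ε = 0

theorem shift_sum {B : Type} [CommRing B] [Algebra ℚ B] {e : B} {K : ℕ} (he : e ^ K = 0)
    (s : ℕ → B) : ∑ n ∈ range K, ((n.factorial : ℚ)⁻¹) • (e ^ n * ((n : B) * s (n - 1))) =
      e * ∑ n ∈ range K, ((n.factorial : ℚ)⁻¹) • (e ^ n * s n) := by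
  have := sum_range_succ (fun n => ((n.factorial : ℚ)⁻¹) • (e ^ n * ((n : B) * s (n - 1)))) K
  rw [he, zero_mul, smul_zero, add_zero] at this
  rw [← this, sum_range_succ', mul_sum]
  simp only [Nat.cast_zero, zero_mul, mul_zero, smul_zero, add_zero, Nat.add_sub_cancel]
  refine sum_congr rfl fun n _ => ?_
  rw [mul_left_comm, fac_succ, mul_smul_comm]
  congr 1; ring

theorem map_nat_mul {B : Type} [CommRing B] [Algebra ℚ B] {M : Type} [CommRing M] [Algebra ℚ M]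
    (f : B →ₗ[ℚ] M) (n : ℕ) (x : B) : f ((n : B) * x) = (n : M) * f x := by
  rw [← nsmul_eq_mul, map_nsmul, nsmul_eq_mul]

theorem map_two_mul {B : Type} [CommRing B] [Algebra ℚ B] {M : Type} [CommRing M] [Algebra ℚ M]
    (f : B →ₗ[ℚ] M) (x : B) : f (2 * x) = 2 * f x := by
  rw [two_mul, map_add, two_mul]

namespace Van
variable {g : ℕ} {B B0 : Type} [CommRing B] [Algebra ℚ B] [CommRing B0] [Algebra ℚ B0]
  (v : Van g B B0)

/-- The Gaussian integral. -/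
noncomputable def E : B →ₗ[ℚ] B0 :=
  ∑ n ∈ range v.K, ((n.factorial : ℚ)⁻¹) •
    (LinearMap.mulLeft ℚ (v.pr v.ε ^ n) ∘ₗ v.pr.toLinearMap ∘ₗ (v.L ^ n))

theorem E_apply (x : B) : v.E x =
    ∑ n ∈ range v.K, ((n.factorial : ℚ)⁻¹) • (v.pr v.ε ^ n * v.pr ((v.L ^ n) x)) := by
  simp [E, LinearMap.sum_apply]

theorem pow_comm (M D1 D2 : B →ₗ[ℚ] B) (h1 : ∀ x, v.L (M x) = M (v.L x) + D1 x)
    (h2 : ∀ x, v.L (D1 x) = D1 (v.L x) + 2 * D2 x) (h3 : ∀ x, v.L (D2 x) = D2 (v.L x))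
    (n : ℕ) : ∀ x, (v.L ^ n) (M x) = M ((v.L ^ n) x) + (n : B) * ((v.L ^ (n - 1)) (D1 x) -
      ((n - 1 : ℕ) : B) * (v.L ^ (n - 1 - 1)) (D2 x)) := by
  induction n with
  | zero => simp
  | succ n ih =>
    intro x
    rw [pow_succ_ap', h1, map_add, ih, ← pow_succ_ap']
    rcases n with _ | n
    · simp
    have e1 : D1 (v.L x) = v.L (D1 x) - 2 * D2 x := by rw [h2]; ring
    simp only [Nat.add_sub_cancel, e1, ← h3, map_sub, map_two_mul, ← pow_succ_ap']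
    rcases n with _ | n
    · simp; ring
    simp only [Nat.add_sub_cancel]; push_cast; ring

theorem E_comm (M D1 D2 : B →ₗ[ℚ] B) (h1 : ∀ x, v.L (M x) = M (v.L x) + D1 x)
    (h2 : ∀ x, v.L (D1 x) = D1 (v.L x) + 2 * D2 x) (h3 : ∀ x, v.L (D2 x) = D2 (v.L x))
    (h4 : ∀ x, v.pr (M x) = 0) (x : B) :
    v.E (M x) = v.pr v.ε * v.E (D1 x) - v.pr v.ε ^ 2 * v.E (D2 x) := by
  have key := v.pow_comm M D1 D2 h1 h2 h3
  have he : v.pr v.ε ^ v.K = 0 := by rw [← map_pow, v.nil, map_zero]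
  simp only [E_apply, key, map_add, h4, zero_add, map_mul, map_natCast, map_sub]
  rw [shift_sum he (fun n => v.pr ((v.L ^ n) (D1 x)) - (n : B0) * v.pr ((v.L ^ (n - 1)) (D2 x))),
    pow_two, mul_assoc, ← shift_sum he fun n => v.pr ((v.L ^ n) (D2 x)), ← mul_sub,
    ← sum_sub_distrib]
  simp only [mul_sub, smul_sub]

theorem E_a (x : B) : v.E (v.a * x) = v.pr v.ε * v.E (v.Db x) := by
  simpa using v.E_comm (LinearMap.mulLeft ℚ v.a) v.Db 0 v.La (by simp [v.cDb]) (by simp)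
    (by simp [v.pra]) x

theorem E_b (x : B) : v.E (v.b * x) = v.pr v.ε * v.E (v.Da x) := by
  simpa using v.E_comm (LinearMap.mulLeft ℚ v.b) v.Da 0 v.Lb (by simp [v.cDa]) (by simp)
    (by simp [v.prb]) x

theorem E_Θ (x : B) :
    2 * v.E (v.Θ * x) = v.pr v.ε * (v.E (v.N x) - 2 * g * v.E x) := by
  have h1 := v.E_comm v.N (LinearMap.mulLeft ℚ 2 ∘ₗ v.L0) 0 (by simp [v.cN])
    (by simp [map_two_mul, v.cL0]) (by simp) v.prN x
  have h2 := v.E_comm (LinearMap.mulLeft ℚ v.Θ) (v.N - LinearMap.mulLeft ℚ (g : B)) v.L0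
    (by simp [v.LΘ]) (by intro x; simp [v.cN, map_nat_mul]; ring) v.cL0 (by simp [v.prΘ]) x
  simp only [LinearMap.comp_apply, LinearMap.mulLeft_apply, map_two_mul, LinearMap.zero_apply,
    map_zero, mul_zero, sub_zero, LinearMap.sub_apply, map_sub, map_nat_mul] at h1 h2
  rw [h2, h1]; ring

theorem E_cen {c : B} (hc : ∀ x, v.L (c * x) = c * v.L x) (x : B) :
    v.E (c * x) = v.pr c * v.E x := by
  have key : ∀ n, (v.L ^ n) (c * x) = c * (v.L ^ n) x := fun n => by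
    induction n with
    | zero => simp
    | succ n ih => rw [pow_succ_ap, ih, hc, ← pow_succ_ap]
  simp only [E_apply, key, map_mul, mul_sum, mul_smul_comm]
  exact sum_congr rfl fun n _ => by congr 1; ring

theorem E_ε (x : B) : v.E (v.ε * x) = v.pr v.ε * v.E x := v.E_cen v.Lε x

theorem E_pow {c : B} (hc : ∀ x, v.L (c * x) = c * v.L x) (n : ℕ) (x : B) :
    v.E (c ^ n * x) = v.pr c ^ n * v.E x := by
  induction n with
  | zero => simp
  | succ n ih => rw [pow_succ', mul_assoc, v.E_cen hc, ih]; ring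

/-- The part of the cubic vertex of cohomological degree zero. -/
noncomputable def Zc (δ : ℕ) : B :=
  IsNilpotent.exp (v.a * ((δ : B) * v.ε * ((2⁻¹ : ℚ) • (v.a * v.b) + v.Θ)))

/-- The shifted variable. -/
def Xa (δ : ℕ) : B := 1 - δ * v.ε ^ 2 * v.a

theorem nilc (δ : ℕ) :
    IsNilpotent (v.a * ((δ : B) * v.ε * ((2⁻¹ : ℚ) • (v.a * v.b) + v.Θ))) :=
  ⟨v.K, by simp only [mul_pow, v.nil]; simp⟩

theorem T_succ (δ q m j : ℕ) {y : B} (h1 : v.Da y = 0) (h2 : v.Db y = 0) (h3 : v.N y = j * y) :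
    2 * v.E (v.Xa δ ^ q * v.b ^ (m + 1) * y * v.Zc δ) = δ * v.pr v.ε ^ 3 *
      (4 * m + 2 + j - 2 * q - 2 * g) * v.E (v.Xa δ ^ q * v.b ^ m * y * v.Zc δ) := by
  have hh := two_half (B := B)
  have za : v.Da (v.Zc δ) = δ * v.ε * (v.a * v.b + v.Θ) * v.Zc δ := by
    rw [Zc, v.hDa.exp (v.nilc δ)]
    simp only [v.hDa _ _, map_add, v.hDa.alg, v.aa, v.ab, v.aΘ, v.aε, v.hDa.nat, Algebra.smul_def]
    congr 1
    linear_combination (δ * v.ε * v.a * v.b) * hh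
  have zb : 2 * v.Db (v.Zc δ) = δ * v.ε * v.a ^ 2 * v.Zc δ := by
    rw [Zc, v.hDb.exp (v.nilc δ), ← mul_assoc]
    simp only [v.hDb _ _, map_add, v.hDb.alg, v.ba, v.bb, v.bΘ, v.bε, v.hDb.nat, Algebra.smul_def]
    congr 1
    linear_combination (δ * v.ε * v.a ^ 2) * hh
  have zN : v.N (v.Zc δ) = 2 * δ * v.ε * v.a * v.Θ * v.Zc δ := by
    rw [Zc, v.hN.exp (v.nilc δ)]
    simp only [v.hN _ _, map_add, v.hN.alg, v.Na, v.Nb, v.NΘ, v.Nε, v.hN.nat, Algebra.smul_def]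
    congr 1
    ring
  have xa : v.Da (v.Xa δ) = -(δ * v.ε ^ 2) := by
    simp [Xa, v.hDa _ _, v.hDa.one, v.hDa.nat, v.hDa.pow0 v.aε, v.aa]
  have xb : v.Db (v.Xa δ) = 0 := by
    simp [Xa, v.hDb _ _, v.hDb.one, v.hDb.nat, v.hDb.pow0 v.bε, v.ba]
  have xN : v.N (v.Xa δ) = 0 := by
    simp [Xa, v.hN _ _, v.hN.one, v.hN.nat, v.hN.pow0 v.Nε, v.Na]
  set Y := v.Xa δ ^ q * v.b ^ m * y * v.Zc δ with hY
  have q1 := v.E_b (v.Xa δ * Y)
  have q2 := v.E_Θ Y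
  have q3 := v.E_a (2 * (v.b * Y))
  have r1 : v.Da (v.Xa δ * Y) = δ * (v.ε * (v.a * (v.b * (v.Xa δ * Y)))) +
      δ * (v.ε * (v.Θ * (v.Xa δ * Y))) - ((q + 1 : ℕ) : B) * (δ * (v.ε * (v.ε * Y))) := by
    rw [hY, ← mul_assoc, ← mul_assoc, ← mul_assoc, ← pow_succ']
    simp only [v.hDa _ _, v.hDa.pow (v.Xa δ), v.hDa.pow0 v.ab, h1, za, xa, Nat.add_sub_cancel]
    ring
  have r2 : v.N Y = j * Y + 2 * (δ * (v.ε * (v.a * (v.Θ * Y)))) := by
    simp only [hY, v.hN _ _, v.hN.pow0 xN, v.hN.pow0 v.Nb, h3, zN]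
    ring
  have r3 : v.Db (2 * (v.b * Y)) = 2 * (((m + 1 : ℕ) : B) * Y) +
      δ * (v.ε * (v.a * (v.a * (v.b * Y)))) := by
    have : v.b * Y = v.Xa δ ^ q * v.b ^ (m + 1) * y * v.Zc δ := by rw [hY]; ring
    rw [map_two_mul, this]
    simp only [hY, v.hDb _ _, v.hDb.pow0 xb, v.hDb.pow v.b, h2, v.bb, Nat.add_sub_cancel]
    linear_combination (v.Xa δ ^ q * v.b ^ (m + 1) * y) * zb
  have s1 : v.b * (v.Xa δ * Y) = v.b * Y - δ * (v.ε * (v.ε * (v.a * (v.b * Y)))) := by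
    rw [Xa]; ring
  have s2 : v.a * (v.b * (v.Xa δ * Y)) = v.a * (v.b * Y) -
      δ * (v.ε * (v.ε * (v.a * (v.a * (v.b * Y))))) := by rw [Xa]; ring
  have s3 : v.Θ * (v.Xa δ * Y) = v.Θ * Y - δ * (v.ε * (v.ε * (v.a * (v.Θ * Y)))) := by
    rw [Xa]; ring
  have s4 : v.Xa δ ^ q * v.b ^ (m + 1) * y * v.Zc δ = v.b * Y := by rw [hY]; ring
  rw [r1, s2, s1, s3] at q1
  rw [r2] at q2
  rw [r3, mul_left_comm] at q3
  simp only [map_add, map_sub, map_nat_mul, map_two_mul, E_ε] at q1 q2 q3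
  rw [s4]
  push_cast at q1 q3
  linear_combination 2 * q1 + 2 * δ * v.pr v.ε ^ 2 * q3 + δ * v.pr v.ε ^ 2 * q2

theorem T_zero (δ q : ℕ) {y : B} (h2 : v.Db y = 0) :
    v.E (v.Xa δ ^ q * y * v.Zc δ) = v.E y := by
  set S : Submodule ℚ B :=
    Submodule.span ℚ {z | ∃ k i w, v.Db w = 0 ∧ z = v.a ^ (k + i) * v.b ^ k * w} with hS
  have c1 : ∀ (p r : ℕ) (c : B), v.Db c = 0 → ∀ z ∈ S, v.a ^ (p + r) * v.b ^ p * c * z ∈ S := by
    intro p r c hc z hz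
    induction hz using Submodule.span_induction with
    | mem z hz =>
      obtain ⟨k, i, w, hw, rfl⟩ := hz
      exact Submodule.subset_span ⟨p + k, r + i, c * w, by simp [v.hDb _ _, hc, hw], by ring⟩
    | zero => simp
    | add x y _ _ h1 h2 => rw [mul_add]; exact S.add_mem h1 h2
    | smul c x _ h => rw [mul_smul_comm]; exact S.smul_mem _ h
  have c2 : ∀ z ∈ S, v.E (v.a * z) = 0 := by
    intro z hz
    induction hz using Submodule.span_induction with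
    | mem z hz =>
      obtain ⟨k, i, w, hw, rfl⟩ := hz
      induction k with
      | zero => simp [E_a, v.hDb _ _, v.hDb.pow0 v.ba, hw]
      | succ k ih =>
        have : v.Db (v.a ^ (k + 1 + i) * v.b ^ (k + 1) * w) =
            ((k + 1 : ℕ) : B) * (v.a * (v.a ^ (k + i) * v.b ^ k * w)) := by
          simp only [v.hDb _ _, v.hDb.pow0 v.ba, hw, v.hDb.pow v.b, v.bb, Nat.add_sub_cancel]
          ring
        rw [E_a, this, map_nat_mul, ih]; simp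
    | zero => simp
    | add x y _ _ h1 h2 => rw [mul_add, map_add, h1, h2, add_zero]
    | smul c x _ h => rw [mul_smul_comm, map_smul, h, smul_zero]
  have dε : v.Db ((δ : B) * v.ε) = 0 := by simp [v.hDb _ _, v.hDb.nat, v.bε]
  set w := (δ : B) * v.ε * ((2⁻¹ : ℚ) • (v.a * v.b) + v.Θ) with hw
  have c3 : ∀ z ∈ S, w * z ∈ S := fun z hz => by
    have := S.add_mem (S.smul_mem (2⁻¹ : ℚ) (c1 1 0 _ dε z hz))
      (c1 0 0 (δ * v.ε * v.Θ) (by rw [v.hDb, dε, v.bΘ]; simp) z hz)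
    refine (congrArg (· ∈ S) ?_).mp this
    simp only [hw, Algebra.smul_def]; ring
  have c4 : ∀ z ∈ S, v.a * z ∈ S := fun z hz => by simpa using c1 0 1 1 v.hDb.one z hz
  have c5 : ∀ n, (v.a * w) ^ n * y ∈ S := fun n => by
    induction n with
    | zero => exact Submodule.subset_span ⟨0, 0, y, h2, by simp⟩
    | succ n ih => rw [pow_succ', mul_assoc, mul_assoc]; exact c4 _ (c3 _ ih)
  have c6 : v.Xa δ ^ q * y * v.Zc δ ∈ S ∧ v.E (v.Xa δ ^ q * y * v.Zc δ) = v.E y := by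
    induction q with
    | zero =>
      obtain ⟨k, hk⟩ := v.nilc δ
      have hk' : (v.a * w) ^ (k + 1) = 0 := by rw [pow_succ, hk, zero_mul]
      have : v.Xa δ ^ 0 * y * v.Zc δ =
          ∑ n ∈ range (k + 1), ((n.factorial : ℚ)⁻¹) • ((v.a * w) ^ n * y) := by
        rw [Zc, IsNilpotent.exp_eq_sum hk', pow_zero, one_mul, mul_sum]
        exact sum_congr rfl fun n _ => by rw [mul_smul_comm, mul_comm]
      rw [this]
      refine ⟨S.sum_mem fun n _ => S.smul_mem _ (c5 n), ?_⟩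
      rw [map_sum, sum_range_succ', sum_eq_zero]
      · simp
      · intro n _
        rw [map_smul, pow_succ', mul_assoc, mul_assoc, c2 _ (c3 _ (c5 n)), smul_zero]
    | succ q ih =>
      have h := c1 0 0 (δ * v.ε * v.ε) (by rw [v.hDb, dε, v.bε]; simp) _ ih.1
      have : v.Xa δ ^ (q + 1) * y * v.Zc δ = v.Xa δ ^ q * y * v.Zc δ -
          v.a * (v.a ^ (0 + 0) * v.b ^ 0 * (δ * v.ε * v.ε) * (v.Xa δ ^ q * y * v.Zc δ)) := by
        rw [pow_succ']; nth_rewrite 1 [Xa]; ring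
      rw [this]
      exact ⟨S.sub_mem ih.1 (c4 _ h), by rw [map_sub, c2 _ h, ih.2, sub_zero]⟩
  exact c6.2

theorem T_eq (δ q m j : ℕ) {y : B} (h1 : v.Da y = 0) (h2 : v.Db y = 0) (h3 : v.N y = j * y) :
    v.E (v.Xa δ ^ q * v.b ^ m * y * v.Zc δ) =
      (∏ i ∈ range m, (δ * (4 * i + 2 + j - 2 * q - 2 * g) / 2 : ℚ)) •
        (v.pr v.ε ^ (3 * m) * v.E y) := by
  induction m with
  | zero => simpa using v.T_zero δ q h2
  | succ m ih =>
    have h := v.T_succ δ q m j h1 h2 h3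
    have hh := two_half (B := B0)
    rw [ih] at h
    rw [prod_range_succ, mul_comm (∏ i ∈ range m, _), mul_smul, div_eq_mul_inv]
    generalize (∏ i ∈ range m, (δ * (4 * i + 2 + j - 2 * q - 2 * g) / 2 : ℚ)) = c at *
    simp only [Algebra.smul_def, map_mul, map_sub, map_add, map_natCast, map_ofNat] at h ⊢
    linear_combination algebraMap ℚ B0 2⁻¹ * h -
      v.E (v.Xa δ ^ q * v.b ^ (m + 1) * y * v.Zc δ) * hh

theorem pr_pow (j n : ℕ) {y : B} (h2 : v.Db y = 0) (h3 : v.N y = j * y)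
    (hn : 2 * n ≠ j) : v.pr ((v.L ^ n) y) = 0 := by
  have key : ∀ n : ℕ, v.Db ((v.L ^ n) y) = 0 ∧
      v.N ((v.L ^ n) y) = ((j : ℚ) - 2 * n) • (v.L ^ n) y := by
    intro n
    induction n with
    | zero => simp [h2, h3, Algebra.smul_def]
    | succ n ih =>
      refine ⟨by rw [pow_succ_ap, ← v.cDb, ih.1, map_zero], ?_⟩
      have e1 := v.cN ((v.L ^ n) y)
      have e2 := v.hL ((v.L ^ n) y)
      rw [ih.1, map_zero, add_zero] at e2
      rw [ih.2, map_smul, ← e2, two_mul (v.L _)] at e1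
      rw [pow_succ_ap, eq_sub_of_add_eq e1.symm]
      push_cast
      module
  have := v.prN ((v.L ^ n) y)
  rw [(key n).2, map_smul] at this
  refine (smul_eq_zero.1 this).resolve_left fun h => hn ?_
  exact_mod_cast (sub_eq_zero.1 h).symm

end Van

end Pool.Agent.FP.Z
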