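import Pool.Agent.FP.ZVan

/-! The vanishing of the coefficients of the partition function. -/

namespace Pool.Agent.FP.Z

open Finset

namespace Van
variable {g : ℕ} {B B0 : Type} [CommRing B] [Algebra ℚ B] [CommRing B0] [Algebra ℚ B0]
  (v : Van g B B0)

theorem pr_Θ (k : ℕ) {w : B} (h2 : v.Db w = 0) (h3 : v.N w = (2 * k : ℕ) * w) :
    v.pr ((v.L ^ (k + 1)) (v.Θ * w)) = (((k : ℚ) + 1) * (k - g)) • v.pr ((v.L ^ k) w) := by
  have h := v.pow_comm (LinearMap.mulLeft ℚ v.Θ) (v.N - LinearMap.mulLeft ℚ (g : B)) v.L0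
    (by simp [v.LΘ]) (by intro x; simp [v.cN, map_nat_mul]; ring) v.cL0 (k + 1) w
  have e2 := v.hL w
  rw [h2, map_zero, add_zero] at e2
  simp only [LinearMap.mulLeft_apply, LinearMap.sub_apply, map_sub, map_nat_mul, h3, ← e2,
    Nat.add_sub_cancel, ← pow_succ_ap'] at h
  rw [h]
  simp only [map_add, map_mul, v.prΘ, map_sub, map_natCast, Algebra.smul_def, map_one]
  rcases k with _ | k
  · simp
  · simp only [Nat.add_sub_cancel]; push_cast; ring

theorem pr_top (hΘ : v.Θ ^ (g + 1) = 0) (n : ℕ) (hn : g < n) {y : B} (h2 : v.Db y = 0)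
    (h3 : v.N y = (2 * n : ℕ) * y) : v.pr ((v.L ^ n) y) = 0 := by
  have key : ∀ i, v.pr ((v.L ^ (n + i)) (v.Θ ^ i * y)) = 0 → v.pr ((v.L ^ n) y) = 0 := by
    intro i
    induction i with
    | zero => simp
    | succ i ih =>
      intro h
      have hN : v.N (v.Θ ^ i * y) = (2 * (n + i) : ℕ) * (v.Θ ^ i * y) := by
        rw [v.hN, v.hN.pow, v.NΘ, h3]
        rcases i with _ | i
        · simp
        · simp only [Nat.add_sub_cancel]; push_cast; ring
      rw [pow_succ' v.Θ, mul_assoc, ← add_assoc,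
        v.pr_Θ (n + i) (by simp [v.hDb _ _, v.hDb.pow0 v.bΘ, h2]) hN] at h
      refine ih ((smul_eq_zero.1 h).resolve_left ?_)
      have : (g : ℚ) < (n + i : ℕ) := by exact_mod_cast (by omega : g < n + i)
      exact mul_ne_zero (by positivity) (by linarith [this])
  exact key (g + 1) (by simp [hΘ])

variable {A : Type} [CommRing A] [Algebra ℚ A] (ι : A →ₐ[ℚ] B)

/-- The span of the terms of balanced weight. -/
def MM (δ : ℕ) : Submodule ℚ B :=
  Submodule.span ℚ {z | ∃ (ν s q m j : ℕ) (w : A), v.N (ι w) = j * ι w ∧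
    m + j + 5 * s = 5 * q + 3 * ν ∧ z = v.ε ^ ν * (v.y ^ s * (v.Xa δ ^ q * v.b ^ m * ι w))}

theorem MM_gen (δ ν s q m j : ℕ) (w : A) (h1 : v.N (ι w) = j * ι w)
    (h2 : m + j + 5 * s = 5 * q + 3 * ν) :
    v.ε ^ ν * (v.y ^ s * (v.Xa δ ^ q * v.b ^ m * ι w)) ∈ v.MM ι δ :=
  Submodule.subset_span ⟨ν, s, q, m, j, w, h1, h2, rfl⟩

theorem MM_mul (δ : ℕ) {x z : B} (hx : x ∈ v.MM ι δ) (hz : z ∈ v.MM ι δ) : x * z ∈ v.MM ι δ := by
  induction hx using Submodule.span_induction with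
  | zero => simp
  | add x y _ _ h1 h2 => rw [add_mul]; exact add_mem h1 h2
  | smul c x _ h => rw [smul_mul_assoc]; exact Submodule.smul_mem _ _ h
  | mem x hx =>
    induction hz using Submodule.span_induction with
    | zero => simp
    | add x y _ _ h1 h2 => rw [mul_add]; exact add_mem h1 h2
    | smul c x _ h => rw [mul_smul_comm]; exact Submodule.smul_mem _ _ h
    | mem z hz =>
      obtain ⟨ν, s, q, m, j, w, h1, h2, rfl⟩ := hx
      obtain ⟨ν', s', q', m', j', w', h1', h2', rfl⟩ := hz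
      have := v.MM_gen ι δ (ν + ν') (s + s') (q + q') (m + m') (j + j') (w * w')
        (by rw [map_mul, v.hN, h1, h1']; push_cast; ring) (by omega)
      refine (congrArg (· ∈ v.MM ι δ) ?_).mp this
      rw [map_mul]; ring

theorem MM_exp (δ : ℕ) {x : B} (hx : x ∈ v.MM ι δ) : IsNilpotent.exp x ∈ v.MM ι δ := by
  refine Submodule.sum_mem _ fun n _ => Submodule.smul_mem _ _ ?_
  induction n with
  | zero => simpa using v.MM_gen ι δ 0 0 0 0 0 1 (by simp [v.hN.one]) rfl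
  | succ n ih => rw [pow_succ]; exact v.MM_mul ι δ (ih (by simp_all; omega)) hx

theorem vanish (hΘ : v.Θ ^ (g + 1) = 0) (LA : A →ₗ[ℚ] A) (i1 : ∀ w, v.L (ι w) = ι (LA w))
    (i2 : ∀ w, v.Da (ι w) = 0) (i3 : ∀ w, v.Db (ι w) = 0) {O : Type} [AddCommGroup O]
    [Module ℚ O] (lam : B0 →ₗ[ℚ] O) {r s0 t : ℕ} (hr : 3 * r = s0 + g + 1 + 2 * t)
    (hl : ∀ ν s w, ¬ (ν = 5 * r ∧ s = s0) → lam (v.pr v.ε ^ ν * (v.pr v.y ^ s * v.pr (ι w))) = 0)
    (δ : ℕ) {z : B} (hz : z ∈ v.MM ι δ) : lam (v.E (z * v.Zc δ)) = 0 := by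
  induction hz using Submodule.span_induction with
  | zero => simp
  | add x y _ _ h1 h2 => rw [add_mul, map_add, map_add, h1, h2, add_zero]
  | smul c x _ h => rw [smul_mul_assoc, map_smul, map_smul, h, smul_zero]
  | mem z hz =>
    obtain ⟨ν, s, q, m, j, w, h1, h2, rfl⟩ := hz
    have i4 : ∀ n, (v.L ^ n) (ι w) = ι ((LA ^ n) w) := fun n => by
      induction n with
      | zero => simp
      | succ n ih => rw [pow_succ_ap, pow_succ_ap, ih, i1]
    rw [mul_assoc, mul_assoc, v.E_pow v.Lε, v.E_pow v.Ly, v.T_eq δ q m j (i2 w) (i3 w) h1,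
      E_apply]
    simp only [mul_sum, smul_sum, mul_smul_comm, map_sum, map_smul]
    refine sum_eq_zero fun n _ => ?_
    by_cases c1 : 2 * n = j
    swap
    · simp [v.pr_pow j n (i3 w) h1 c1]
    by_cases c2 : g < n
    · simp [v.pr_top hΘ n c2 (i3 w) (by rw [h1, c1])]
    by_cases c3 : ν + 3 * m + n = 5 * r ∧ s = s0
    · obtain ⟨i, hi, hi'⟩ : ∃ i, i < m ∧ 4 * i + 2 + j = 2 * q + 2 * g :=
        ⟨(q + g - n - 1) / 2, by omega, by omega⟩
      rw [prod_eq_zero (mem_range.2 hi), zero_smul]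
      have : (4 * i + 2 + j : ℚ) = 2 * q + 2 * g := by exact_mod_cast hi'
      rw [this]; ring
    · have := hl _ _ ((LA ^ n) w) c3
      rw [← i4] at this
      rw [show v.pr v.ε ^ ν * (v.pr v.y ^ s * (v.pr v.ε ^ (3 * m) *
        (v.pr v.ε ^ n * v.pr ((v.L ^ n) (ι w))))) =
        v.pr v.ε ^ (ν + 3 * m + n) * (v.pr v.y ^ s * v.pr ((v.L ^ n) (ι w))) by ring, this]
      simp

end Van

end Pool.Agent.FP.Z
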